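import Mathlib

/-!
[H39 UN NUM]  (MP_bcc40c_pr)  Numbers of connected gluings of polygons, defined by the Tutte recursion.

`splits l` = all ways to split a list into two complementary sublists, `picks l` = all ways to pick
one entry.  `KF e l` is the recursion with fuel `e`; `K l = KF l.sum l`.  `K l` is the generating
polynomial (by the number of vertices) of the connected gluings of polygons with the side numbers in
`l`; the first polygon is peeled at its first side.

PROOFS.  KF_fuel: induction on `e` (for all `l`, `e'`): if `l.sum ≤ e` and `l.sum ≤ e'` then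
`KF e l = KF e' l`.  Cases `l = []`, `0 :: l`: by definition (both sides do not depend on the fuel, use
`cases e`; note that `KF e []` and `KF e (0 :: l)` are given by the first two equations for every `e`).
`(k+1) :: l`: then `1 ≤ e`, write `e = e1 + 1`, `e' = e1' + 1`.  All lists on the right hand side have
sum `≤ l.sum + k + 1 - 2 ≤ e1` or (case `k = 0`, the picks part with entry `q ≥ 1`) sum
`= l.sum - 1`; entries with `q = 0` have the factor `0`.  Facts: `(x, xs) ∈ picks l` implies
`x + xs.sum = l.sum`; `(l1, l2) ∈ splits l` implies `l1.sum + l2.sum = l.sum`.  Use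
`List.map_congr_left` and `Finset.sum_congr`.
K_nil, K_zero: by definition.  K_one, K_two: unfold `K`, the fuel is `l.sum + 1` resp. `l.sum + k + 2`,
which is a successor; unfold `KF` once and replace `KF (l.sum + k + 1) _` by `K _` with KF_fuel (as
above, the entries with `q = 0` have factor `0`).
-/

set_option autoImplicit false

namespace UN39

open Polynomial

/-- all ways to split a list into two complementary sublists -/
def splits {β : Type} : List β → List (List β × List β)
  | [] => [([], [])]
  | x :: xs => (splits xs).map (fun p => (x :: p.1, p.2)) ++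
      (splits xs).map (fun p => (p.1, x :: p.2))

/-- all ways to pick an entry of a list -/
def picks {β : Type} : List β → List (β × List β)
  | [] => []
  | x :: xs => (x, xs) :: (picks xs).map (fun p => (p.1, x :: p.2))

/-- the Tutte recursion with fuel -/
noncomputable def KF : ℕ → List ℕ → Polynomial ℕ
  | _, [] => 0
  | _, 0 :: l => if l = [] then X else 0
  | 0, (_ + 1) :: _ => 0
  | e + 1, 1 :: l => ((picks l).map fun p => p.1 • KF e ((p.1 - 1) :: p.2)).sum
  | e + 1, (k + 2) :: l =>
      (∑ i ∈ Finset.range (k + 1), (KF e (i :: (k - i) :: l) +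
        ((splits l).map fun p => KF e (i :: p.1) * KF e ((k - i) :: p.2)).sum)) +
      ((picks l).map fun p => p.1 • KF e ((k + p.1) :: p.2)).sum

/-- generating polynomial of the connected gluings of polygons, by the number of vertices -/
noncomputable def K (l : List ℕ) : Polynomial ℕ := KF l.sum l

theorem picks_sum {l : List ℕ} {p : ℕ × List ℕ} (h : p ∈ picks l) : p.1 + p.2.sum = l.sum := by
  induction l generalizing p with
  | nil => simp [picks] at h
  | cons x xs ih =>
    rw [picks, List.mem_cons, List.mem_map] at h
    rcases h with rfl | ⟨q, hq, rfl⟩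
    · simp
    · have := ih hq
      simp only [List.sum_cons]
      omega

theorem splits_sum {l : List ℕ} {p : List ℕ × List ℕ} (h : p ∈ splits l) :
    p.1.sum + p.2.sum = l.sum := by
  induction l generalizing p with
  | nil =>
    rw [splits, List.mem_singleton] at h
    subst h
    simp
  | cons x xs ih =>
    rw [splits, List.mem_append, List.mem_map, List.mem_map] at h
    rcases h with ⟨q, hq, rfl⟩ | ⟨q, hq, rfl⟩
    · have := ih hq
      simp only [List.sum_cons]
      omega
    · have := ih hq
      simp only [List.sum_cons]
      omega

theorem KF_nil (e : ℕ) : KF e [] = 0 := by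
  cases e <;> simp [KF]

theorem KF_zero (e : ℕ) (l : List ℕ) : KF e (0 :: l) = if l = [] then X else 0 := by
  cases e <;> simp [KF]

theorem KF_one (e : ℕ) (l : List ℕ) :
    KF (e + 1) (1 :: l) = ((picks l).map fun p => p.1 • KF e ((p.1 - 1) :: p.2)).sum := by
  rw [KF]

theorem KF_two (e k : ℕ) (l : List ℕ) :
    KF (e + 1) ((k + 2) :: l) =
      (∑ i ∈ Finset.range (k + 1), (KF e (i :: (k - i) :: l) +
        ((splits l).map fun p => KF e (i :: p.1) * KF e ((k - i) :: p.2)).sum)) +
      ((picks l).map fun p => p.1 • KF e ((k + p.1) :: p.2)).sum := by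
  rw [KF]

theorem KF_fuel (e e' : ℕ) (l : List ℕ) (h : l.sum ≤ e) (h' : l.sum ≤ e') :
    KF e l = KF e' l := by
  induction e generalizing e' l with
  | zero =>
    match l, h, h' with
    | [], _, _ => rw [KF_nil, KF_nil]
    | 0 :: l, _, _ => rw [KF_zero, KF_zero]
    | (k + 1) :: l, h, _ =>
      rw [List.sum_cons] at h
      omega
  | succ e ih =>
    match l, h, h' with
    | [], _, _ => rw [KF_nil, KF_nil]
    | 0 :: l, _, _ => rw [KF_zero, KF_zero]
    | 1 :: l, h, h' =>
      rw [List.sum_cons] at h h'
      obtain ⟨e1, rfl⟩ : ∃ e1, e' = e1 + 1 := ⟨e' - 1, by omega⟩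
      rw [KF_one, KF_one]
      congr 1
      refine List.map_congr_left fun p hp => ?_
      have h1 := picks_sum hp
      rcases Nat.eq_zero_or_pos p.1 with h0 | h0
      · rw [h0, zero_smul, zero_smul]
      · rw [ih e1]
        · rw [List.sum_cons]
          omega
        · rw [List.sum_cons]
          omega
    | (k + 2) :: l, h, h' =>
      rw [List.sum_cons] at h h'
      obtain ⟨e1, rfl⟩ : ∃ e1, e' = e1 + 1 := ⟨e' - 1, by omega⟩
      rw [KF_two, KF_two]
      congr 1
      · refine Finset.sum_congr rfl fun i hi => ?_
        rw [Finset.mem_range] at hi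
        congr 1
        · apply ih
          · rw [List.sum_cons, List.sum_cons]
            omega
          · rw [List.sum_cons, List.sum_cons]
            omega
        · congr 1
          refine List.map_congr_left fun p hp => ?_
          have h1 := splits_sum hp
          rw [ih e1, ih e1]
          all_goals
            rw [List.sum_cons]
            omega
      · congr 1
        refine List.map_congr_left fun p hp => ?_
        have h1 := picks_sum hp
        rw [ih e1]
        all_goals
          rw [List.sum_cons]
          omega

theorem KF_K (e : ℕ) (l : List ℕ) (h : l.sum ≤ e) : KF e l = K l :=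
  KF_fuel e l.sum l h le_rfl

theorem K_nil : K [] = 0 := by
  rw [K, KF_nil]

theorem K_zero (l : List ℕ) : K (0 :: l) = if l = [] then X else 0 := by
  rw [K, KF_zero]

theorem K_one (l : List ℕ) :
    K (1 :: l) = ((picks l).map fun p => p.1 • K ((p.1 - 1) :: p.2)).sum := by
  rw [← KF_K (l.sum + 1) (1 :: l) (by rw [List.sum_cons]; omega), KF_one]
  congr 1
  refine List.map_congr_left fun p hp => ?_
  have h1 := picks_sum hp
  rcases Nat.eq_zero_or_pos p.1 with h0 | h0
  · rw [h0, zero_smul, zero_smul]
  · rw [KF_K]
    rw [List.sum_cons]
    omega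

theorem K_two (k : ℕ) (l : List ℕ) : K ((k + 2) :: l) =
    (∑ i ∈ Finset.range (k + 1), (K (i :: (k - i) :: l) +
        ((splits l).map fun p => K (i :: p.1) * K ((k - i) :: p.2)).sum)) +
      ((picks l).map fun p => p.1 • K ((k + p.1) :: p.2)).sum := by
  rw [← KF_K (l.sum + k + 1 + 1) ((k + 2) :: l) (by rw [List.sum_cons]; omega), KF_two]
  congr 1
  · refine Finset.sum_congr rfl fun i hi => ?_
    rw [Finset.mem_range] at hi
    congr 1
    · apply KF_K
      rw [List.sum_cons, List.sum_cons]
      omega
    · congr 1
      refine List.map_congr_left fun p hp => ?_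
      have h1 := splits_sum hp
      rw [KF_K, KF_K]
      all_goals
        rw [List.sum_cons]
        omega
  · congr 1
    refine List.map_congr_left fun p hp => ?_
    have h1 := picks_sum hp
    rw [KF_K]
    rw [List.sum_cons]
    omega

end UN39
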