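import Mathlib
import Pool.Agent.H39.HG.Defs
import Pool.Agent.H39.UN.Num

/-!
[H39 UN POL]  (MP_bcc40c_pr)  Gluings of polygons at the level of darts: definitions and basic facts.

A polygon is a list of darts (its sides in cyclic order), `c` is a list of polygons with
`c.flatten.Nodup`.  `polys c` is the product of the cycles `List.formPerm`.  `Mt c` is the set of the
involutions with support `c.flatten` (gluings).  `vt c α` is the number of vertices of the glued
surface; an empty polygon counts as one vertex.  `Conn c α`: the glued surface is connected.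

PROOFS.  polys_notMem: every factor fixes `d` (`List.formPerm_apply_of_notMem`); induction on `c`.
polys_mem: if `d` is in `c.flatten` then `polys c d` is in it: induction on `c`: for `l :: c`, if
`polys c d ∈ c.flatten` or `= d`, then `formPerm l` maps members of `l` to members of `l`
(`List.formPerm_apply_mem_iff_mem` or similar) and fixes the others.
polys_perm: for `c ~ c'` with `c.flatten.Nodup`: induction on the permutation; the swap case is
commutation of `formPerm l` and `formPerm l'` for disjoint `l`, `l'` (`List.formPerm_disjoint_iff` or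
`Equiv.Perm.Disjoint.commute`, using that `formPerm l` fixes everything outside `l`; do the general
statement without `Nodup` of the single lists: two permutations `π, π'` such that every dart is fixed
by one of them commute).  flatten_perm: `List.Perm.flatten`.
Mt_perm, vt_perm, Conn_perm: all ingredients (`polys c`, membership in `c.flatten`, its length,
`c.count []`, `c.length`, `[] ∈ c`) are invariant.
rot: `polys ((l1 ++ l2) :: c) = polys ((l2 ++ l1) :: c)` for `(l1 ++ l2).Nodup` by
`List.formPerm_rotate` (`List.rotate_append_length_eq` or `List.rotate_eq_drop_append_take`).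
card_le: the darts outside `c.flatten` are fixed points of `polys c * α`, and different fixed points
are different cycles: `Fintype.card D - length ≤ cyc`.  Injection `{d // d ∉ c.flatten} → Quotient`.
-/

set_option autoImplicit false

namespace UN39

open Equiv HG39

variable {D : Type} [Fintype D] [DecidableEq D]

/-- product of the cycles given by the polygons -/
def polys (c : List (List D)) : Perm D := (c.map List.formPerm).prod

/-- gluings of the polygons -/
def Mt (c : List (List D)) (α : Perm D) : Prop :=
  (∀ d, α (α d) = d) ∧ (∀ d ∈ c.flatten, α d ≠ d) ∧ (∀ d, d ∉ c.flatten → α d = d)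

/-- number of vertices -/
noncomputable def vt (c : List (List D)) (α : Perm D) : ℕ :=
  cyc (polys c * α) + c.flatten.length + c.count [] - Fintype.card D

/-- connectedness of the glued surface -/
def Conn (c : List (List D)) (α : Perm D) : Prop :=
  c ≠ [] ∧ (c.length = 1 ∨ [] ∉ c) ∧
  ∀ S : D → Prop, (∀ d, S d → S (polys c d)) → (∀ d, S d → S (α d)) →
    (∃ d ∈ c.flatten, S d) → ∀ e ∈ c.flatten, S e

theorem polys_cons (l : List D) (c : List (List D)) :
    polys (l :: c) = l.formPerm * polys c := by
  simp [polys]

theorem polys_append (c c' : List (List D)) : polys (c ++ c') = polys c * polys c' := by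
  simp [polys]

theorem polys_notMem {c : List (List D)} {d : D} (h : d ∉ c.flatten) : polys c d = d := by
  induction c with
  | nil => simp [polys]
  | cons l c ih =>
    rw [List.flatten_cons, List.mem_append, not_or] at h
    rw [polys_cons, Perm.mul_apply, ih h.2, List.formPerm_apply_of_notMem h.1]

theorem polys_mem {c : List (List D)} {d : D} (h : d ∈ c.flatten) :
    polys c d ∈ c.flatten := by
  induction c with
  | nil => simp at h
  | cons l c ih =>
    have h1 : polys c d ∈ (l :: c).flatten := by
      rw [List.flatten_cons, List.mem_append] at h ⊢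
      by_cases h2 : d ∈ c.flatten
      · exact Or.inr (ih h2)
      · rw [polys_notMem h2]
        exact h
    rw [polys_cons, Perm.mul_apply]
    by_cases h3 : polys c d ∈ l
    · rw [List.flatten_cons, List.mem_append]
      exact Or.inl (List.formPerm_apply_mem_of_mem h3)
    · rw [List.formPerm_apply_of_notMem h3]
      exact h1

theorem formPerm_comm {l l' : List D} (h : ∀ d ∈ l, d ∉ l') :
    l.formPerm * l'.formPerm = l'.formPerm * l.formPerm := by
  have h1 : Perm.Disjoint l.formPerm l'.formPerm := by
    intro d
    by_cases h2 : d ∈ l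
    · exact Or.inr (List.formPerm_apply_of_notMem (h d h2))
    · exact Or.inl (List.formPerm_apply_of_notMem h2)
  exact h1.commute.eq

theorem polys_perm {c c' : List (List D)} (h : c.Perm c') (hn : c.flatten.Nodup) :
    polys c = polys c' := by
  induction h with
  | nil => rfl
  | cons x _ ih =>
    rw [List.flatten_cons] at hn
    rw [polys_cons, polys_cons, ih (List.nodup_append.1 hn).2.1]
  | swap x y l =>
    rw [List.flatten_cons, List.flatten_cons, ← List.append_assoc] at hn
    have h1 := (List.nodup_append.1 hn).1
    have h2 := (List.nodup_append.1 h1).2.2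
    rw [polys_cons, polys_cons, polys_cons, polys_cons, ← mul_assoc, ← mul_assoc,
      formPerm_comm (l := y) (l' := x) (fun d hd hd' => h2 d hd d hd' rfl)]
  | trans h1 _ ih1 ih2 =>
    exact (ih1 hn).trans (ih2 ((List.Perm.flatten h1).nodup_iff.1 hn))

/-- everything depends only on a few invariants of the configuration -/
theorem inv_all {c c' : List (List D)} (h1 : polys c = polys c')
    (h2 : ∀ d, d ∈ c.flatten ↔ d ∈ c'.flatten) (h3 : c.flatten.length = c'.flatten.length)
    (h4 : c.count [] = c'.count []) (h5 : c.length = c'.length) (α : Perm D) :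
    (Mt c α ↔ Mt c' α) ∧ vt c α = vt c' α ∧ (Conn c α ↔ Conn c' α) := by
  have h6 : c ≠ [] ↔ c' ≠ [] := by
    rw [← List.length_pos_iff, ← List.length_pos_iff, h5]
  have h7 : [] ∈ c ↔ [] ∈ c' := by
    rw [← List.count_pos_iff, ← List.count_pos_iff, h4]
  refine ⟨?_, ?_, ?_⟩
  · unfold Mt
    simp only [h2]
  · unfold vt
    rw [h1, h3, h4]
  · unfold Conn
    simp only [h1, h2, h5, h6, h7]

theorem Mt_perm {c c' : List (List D)} (h : c.Perm c') (α : Perm D) :
    Mt c α ↔ Mt c' α := by
  unfold Mt
  have h2 : ∀ d, d ∈ c.flatten ↔ d ∈ c'.flatten := fun d => (List.Perm.flatten h).mem_iff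
  simp only [h2]

theorem inv_perm {c c' : List (List D)} (h : c.Perm c') (hn : c.flatten.Nodup) (α : Perm D) :
    (Mt c α ↔ Mt c' α) ∧ vt c α = vt c' α ∧ (Conn c α ↔ Conn c' α) :=
  inv_all (polys_perm h hn) (fun _ => (List.Perm.flatten h).mem_iff)
    (List.Perm.flatten h).length_eq (h.count_eq _) h.length_eq α

theorem vt_perm {c c' : List (List D)} (h : c.Perm c') (hn : c.flatten.Nodup) (α : Perm D) :
    vt c α = vt c' α :=
  (inv_perm h hn α).2.1

theorem Conn_perm {c c' : List (List D)} (h : c.Perm c') (hn : c.flatten.Nodup) (α : Perm D) :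
    Conn c α ↔ Conn c' α :=
  (inv_perm h hn α).2.2

/-- rotation of the first polygon -/
theorem rot_all {l1 l2 : List D} {c : List (List D)} (hn : (l1 ++ l2).Nodup) (α : Perm D) :
    polys ((l1 ++ l2) :: c) = polys ((l2 ++ l1) :: c) ∧
    (Mt ((l1 ++ l2) :: c) α ↔ Mt ((l2 ++ l1) :: c) α) ∧
    vt ((l1 ++ l2) :: c) α = vt ((l2 ++ l1) :: c) α ∧
    (Conn ((l1 ++ l2) :: c) α ↔ Conn ((l2 ++ l1) :: c) α) := by
  have h1 : polys ((l1 ++ l2) :: c) = polys ((l2 ++ l1) :: c) := by
    rw [polys_cons, polys_cons]
    have h2 := List.formPerm_rotate (l1 ++ l2) hn l1.length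
    rw [List.rotate_append_length_eq] at h2
    rw [h2]
  refine ⟨h1, inv_all h1 ?_ ?_ ?_ rfl α⟩
  · intro d
    simp only [List.flatten_cons, List.mem_append]
    tauto
  · simp only [List.flatten_cons, List.length_append]
    omega
  · rw [List.count_cons, List.count_cons]
    congr 1
    have h3 : (l1 ++ l2 == []) = (l2 ++ l1 == []) := by
      rw [Bool.eq_iff_iff]
      simp only [beq_iff_eq, List.append_eq_nil_iff]
      tauto
    rw [h3]

theorem card_le {c : List (List D)} {α : Perm D} (h : Mt c α) :
    Fintype.card D ≤ cyc (polys c * α) + c.flatten.length := by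
  classical
  have hfix : ∀ d, d ∉ c.flatten → (polys c * α) d = d := by
    intro d hd
    rw [Perm.mul_apply, h.2.2 d hd, polys_notMem hd]
  have h1 : Nat.card {d : D // d ∉ c.flatten} ≤ cyc (polys c * α) := by
    unfold cyc
    refine Nat.card_le_card_of_injective
      (fun d : {d : D // d ∉ c.flatten} =>
        (Quotient.mk (Equiv.Perm.SameCycle.setoid (polys c * α)) d.1)) ?_
    intro d e hde
    have h2 : Equiv.Perm.SameCycle (polys c * α) d.1 e.1 := Quotient.exact hde
    obtain ⟨i, hi⟩ := h2
    rw [Equiv.Perm.zpow_apply_eq_self_of_apply_eq_self (hfix d.1 d.2)] at hi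
    exact Subtype.ext hi
  have h3 : Nat.card {d : D // d ∉ c.flatten} + c.flatten.toFinset.card = Fintype.card D := by
    rw [Nat.card_eq_fintype_card]
    have h4 := Fintype.card_subtype_compl (fun d => d ∈ c.flatten)
    have h5 : Fintype.card {d : D // d ∈ c.flatten} = c.flatten.toFinset.card := by
      rw [Fintype.card_subtype]
      congr 1
      ext d
      simp
    have h6 : Fintype.card {d : D // d ∈ c.flatten} ≤ Fintype.card D := Fintype.card_subtype_le _
    rw [h5] at h4 h6
    omega
  have h7 := List.toFinset_card_le c.flatten
  omega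

end UN39
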