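import Mathlib
import Pool.Agent.H39.HG.Defs
import Pool.Agent.H39.HG.ZSwap
import Pool.Agent.H39.UN.Num
import Pool.Agent.H39.UN.Pol

/-!
[H39 UN PRD]  (MP_bcc40c_pr)  Gluings of two separate families of polygons.

`c1`, `c2` with `(c1 ++ c2).flatten.Nodup`.  Write `F1 = c1.flatten`, `F2 = c2.flatten` (disjoint).

PROOFS.  prd_mt: `β1 * β2` for `Mt c1 β1`, `Mt c2 β2`: disjoint supports, so `β1 * β2 = β2 * β1` acts
as `β1` on `F1`, as `β2` on `F2`, trivially elsewhere.  It preserves `F1` because `β1` does: `β1` maps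
`F1` into `F1` (if `d ∈ F1` and `β1 d ∉ F1` then `β1 (β1 d) = β1 d`, so `d = β1 d`, contradiction).
prd_ex: given `Mt (c1 ++ c2) β` preserving `F1`, it preserves `F2` too (if `d ∈ F2`, then
`β d ∈ F1 ∪ F2`, and `β d ∈ F1` would give `d = β (β d) ∈ F1`).  Let `β1 d = β d` on `F1`, `d`
elsewhere (an involution, hence a permutation: `Function.Involutive.toPerm`), `β2` the same on `F2`.
prd_inj: restrict to `F1` and `F2`.
cyc_mul: for `π1`, `π2` such that every dart is fixed by `π1` or by `π2`: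
`cyc (π1 * π2) + card D = cyc π1 + cyc π2`.  Proof: `cyc π = card D - sum over the cycle type of
(length - 1)`; or: `cyc π = card (fixed points) + card π.cycleType` (`Equiv.Perm`), with
`Equiv.Perm.Disjoint.cycleType_mul` and `card fixed = card D - card support`,
`Equiv.Perm.Disjoint.card_support_mul`.  First prove
`cyc π = Fintype.card D - π.support.card + π.cycleType.card` (every cycle is a fixed point or one of
the cycle factors; `Equiv.Perm.cycleOf`, `cycleFactorsFinset`); alternatively build the bijection of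
the quotients by hand.
prd_vt: `polys (c1 ++ c2) * (β1 * β2) = (polys c1 * β1) * (polys c2 * β2)` (disjoint supports commute)
and cyc_mul; lengths and counts are additive; card_le makes the subtractions exact.
prd_conn: `Conn c1 β1 ↔ Conn c1 (β1 * β2)`: both `β1` and `β1 * β2` preserve `F1` and coincide on
it; if `S` is closed under `polys c1` and one of them, then `S ∩ F1` is closed under `polys c1` and the
other one.
prd_sum: reindex the sum over `β` by `(β1, β2)`.
-/

set_option autoImplicit false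

namespace UN39

open Equiv HG39 Polynomial

variable {D : Type} [Fintype D] [DecidableEq D]

open Classical in
/-- generating polynomial of the connected gluings of the polygons `c` -/
noncomputable def cnt (c : List (List D)) : Polynomial ℕ :=
  ∑ α : Perm D, if Mt c α ∧ Conn c α then X ^ vt c α else 0

theorem cyc_one : cyc (1 : Perm D) = Fintype.card D := by
  unfold cyc
  rw [← Nat.card_eq_fintype_card]
  symm
  refine Nat.card_congr (Equiv.ofBijective
    (fun d : D => (Quotient.mk (Equiv.Perm.SameCycle.setoid (1 : Perm D)) d)) ⟨?_, ?_⟩)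
  · intro d e hde
    have h2 : Equiv.Perm.SameCycle (1 : Perm D) d e := Quotient.exact hde
    exact (Perm.sameCycle_one).1 h2
  · intro q
    obtain ⟨d, hd⟩ := Quotient.exists_rep q
    exact ⟨d, hd⟩

theorem cyc_mul_aux (n : ℕ) {π1 π2 : Perm D} (h : ∀ d, π1 d = d ∨ π2 d = d)
    (hn : π2.support.card ≤ n) :
    cyc (π1 * π2) + Fintype.card D = cyc π1 + cyc π2 := by
  induction n generalizing π2 with
  | zero =>
    have h1 : π2 = 1 := by
      rw [← Perm.support_eq_empty_iff, ← Finset.card_eq_zero]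
      omega
    rw [h1, mul_one, cyc_one]
  | succ n ih =>
    by_cases h1 : π2 = 1
    · rw [h1, mul_one, cyc_one]
    · obtain ⟨a, ha⟩ : ∃ a, π2 a ≠ a := by
        by_contra h2
        push Not at h2
        exact h1 (Perm.ext h2)
      have hb : π2 (π2 a) ≠ π2 a := fun h2 => ha (π2.injective h2)
      have ha1 : π1 a = a := (h a).resolve_right ha
      have hb1 : π1 (π2 a) = π2 a := (h (π2 a)).resolve_right hb
      have h3 : (π2 * swap a (π2 a)) (π2 a) = π2 a := by
        rw [Perm.mul_apply, swap_apply_right]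
      have hout : ∀ d, d ≠ a → d ≠ π2 a → (π2 * swap a (π2 a)) d = π2 d := by
        intro d hd1 hd2
        rw [Perm.mul_apply, swap_apply_of_ne_of_ne hd1 hd2]
      have h4 : ∀ d, π1 d = d ∨ (π2 * swap a (π2 a)) d = d := by
        intro d
        by_cases hd1 : d = a
        · exact Or.inl (hd1 ▸ ha1)
        by_cases hd2 : d = π2 a
        · exact Or.inl (hd2 ▸ hb1)
        rw [hout d hd1 hd2]
        exact h d
      have h5 : (π2 * swap a (π2 a)).support ⊆ π2.support.erase (π2 a) := by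
        intro d hd
        rw [Perm.mem_support] at hd
        rw [Finset.mem_erase, Perm.mem_support]
        have hd2 : d ≠ π2 a := fun h6 => hd (h6 ▸ h3)
        refine ⟨hd2, ?_⟩
        by_cases hd1 : d = a
        · rw [hd1]
          exact ha
        rw [hout d hd1 hd2] at hd
        exact hd
      have h6 : (π2 * swap a (π2 a)).support.card ≤ n := by
        have h7 := Finset.card_le_card h5
        rw [Finset.card_erase_of_mem (Perm.mem_support.2 hb)] at h7
        omega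
      have h7 := ih h4 h6
      have h8 : cyc (π2 * swap a (π2 a)) = cyc π2 + 1 :=
        cyc_swap_same π2 a (π2 a) (Ne.symm ha) ⟨1, by rw [zpow_one]⟩
      have h9 : cyc (π1 * π2 * swap a (π2 a)) = cyc (π1 * π2) + 1 :=
        cyc_swap_same (π1 * π2) a (π2 a) (Ne.symm ha) ⟨1, by rw [zpow_one, Perm.mul_apply, hb1]⟩
      rw [← mul_assoc, h8, h9] at h7
      omega

theorem cyc_mul {π1 π2 : Perm D} (h : ∀ d, π1 d = d ∨ π2 d = d) :
    cyc (π1 * π2) + Fintype.card D = cyc π1 + cyc π2 :=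
  cyc_mul_aux _ h le_rfl

theorem Mt_pres {c : List (List D)} {β : Perm D} (h : Mt c β) : ∀ d ∈ c.flatten, β d ∈ c.flatten := by
  intro d hd
  by_contra h1
  have h2 := h.2.2 _ h1
  rw [h.1 d] at h2
  rw [← h2] at h1
  exact h1 hd

theorem two_disj {c1 c2 : List (List D)} (hn : (c1 ++ c2).flatten.Nodup) :
    ∀ d ∈ c1.flatten, d ∉ c2.flatten := by
  intro d h1 h2
  rw [List.flatten_append, List.nodup_append] at hn
  exact hn.2.2 d h1 d h2 rfl

theorem act1 {c1 c2 : List (List D)} (hn : (c1 ++ c2).flatten.Nodup) {β1 β2 : Perm D}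
    (h2 : Mt c2 β2) {d : D} (hd : d ∈ c1.flatten) : (β1 * β2) d = β1 d := by
  rw [Perm.mul_apply, h2.2.2 d (two_disj hn d hd)]

theorem act2 {c1 c2 : List (List D)} (hn : (c1 ++ c2).flatten.Nodup) {β1 β2 : Perm D}
    (h1 : Mt c1 β1) (h2 : Mt c2 β2) {d : D} (hd : d ∈ c2.flatten) : (β1 * β2) d = β2 d := by
  rw [Perm.mul_apply]
  apply h1.2.2
  intro h3
  exact two_disj hn _ h3 (Mt_pres h2 d hd)

theorem act0 {c1 c2 : List (List D)} {β1 β2 : Perm D}
    (h1 : Mt c1 β1) (h2 : Mt c2 β2) {d : D} (hd1 : d ∉ c1.flatten) (hd2 : d ∉ c2.flatten) :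
    (β1 * β2) d = d := by
  rw [Perm.mul_apply, h2.2.2 d hd2, h1.2.2 d hd1]

theorem prd_mt {c1 c2 : List (List D)} (hn : (c1 ++ c2).flatten.Nodup) {β1 β2 : Perm D}
    (h1 : Mt c1 β1) (h2 : Mt c2 β2) :
    Mt (c1 ++ c2) (β1 * β2) ∧ ∀ d ∈ c1.flatten, (β1 * β2) d ∈ c1.flatten := by
  refine ⟨⟨?_, ?_, ?_⟩, ?_⟩
  · intro d
    by_cases hd1 : d ∈ c1.flatten
    · rw [act1 hn h2 hd1, act1 hn h2 (Mt_pres h1 d hd1), h1.1]
    by_cases hd2 : d ∈ c2.flatten
    · rw [act2 hn h1 h2 hd2, act2 hn h1 h2 (Mt_pres h2 d hd2), h2.1]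
    rw [act0 h1 h2 hd1 hd2, act0 h1 h2 hd1 hd2]
  · intro d hd
    rw [List.flatten_append, List.mem_append] at hd
    rcases hd with hd | hd
    · rw [act1 hn h2 hd]
      exact h1.2.1 d hd
    · rw [act2 hn h1 h2 hd]
      exact h2.2.1 d hd
  · intro d hd
    rw [List.flatten_append, List.mem_append, not_or] at hd
    exact act0 h1 h2 hd.1 hd.2
  · intro d hd
    rw [act1 hn h2 hd]
    exact Mt_pres h1 d hd

theorem prd_ex {c1 c2 : List (List D)} (hn : (c1 ++ c2).flatten.Nodup) {β : Perm D}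
    (h : Mt (c1 ++ c2) β) (h1 : ∀ d ∈ c1.flatten, β d ∈ c1.flatten) :
    ∃ β1 β2 : Perm D, Mt c1 β1 ∧ Mt c2 β2 ∧ β = β1 * β2 := by
  have h2 : ∀ d ∈ c2.flatten, β d ∈ c2.flatten := by
    intro d hd
    have h3 : β d ∈ (c1 ++ c2).flatten :=
      Mt_pres h d (by rw [List.flatten_append]; exact List.mem_append_right _ hd)
    rw [List.flatten_append, List.mem_append] at h3
    rcases h3 with h3 | h3
    · have h4 := h1 _ h3
      rw [h.1 d] at h4
      exact absurd hd (two_disj hn d h4)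
    · exact h3
  have key : ∀ c : List (List D), (∀ d ∈ c.flatten, β d ∈ c.flatten) →
      (∀ d ∈ c.flatten, d ∈ (c1 ++ c2).flatten) →
      ∃ γ : Perm D, Mt c γ ∧ ∀ d ∈ c.flatten, γ d = β d := by
    intro c hc hc2
    have hinv : Function.Involutive (fun d => if d ∈ c.flatten then β d else d) := by
      intro d
      by_cases hd : d ∈ c.flatten
      · simp only [if_pos hd, if_pos (hc d hd)]
        exact h.1 d
      · simp only [if_neg hd]
    refine ⟨hinv.toPerm, ⟨fun d => hinv d, ?_, ?_⟩, ?_⟩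
    · intro d hd
      show (if d ∈ c.flatten then β d else d) ≠ d
      rw [if_pos hd]
      exact h.2.1 d (hc2 d hd)
    · intro d hd
      show (if d ∈ c.flatten then β d else d) = d
      rw [if_neg hd]
    · intro d hd
      show (if d ∈ c.flatten then β d else d) = β d
      rw [if_pos hd]
  obtain ⟨β1, hm1, he1⟩ := key c1 h1
    (fun d hd => by rw [List.flatten_append]; exact List.mem_append_left _ hd)
  obtain ⟨β2, hm2, he2⟩ := key c2 h2
    (fun d hd => by rw [List.flatten_append]; exact List.mem_append_right _ hd)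
  refine ⟨β1, β2, hm1, hm2, ?_⟩
  ext d
  by_cases hd1 : d ∈ c1.flatten
  · rw [act1 hn hm2 hd1, he1 d hd1]
  by_cases hd2 : d ∈ c2.flatten
  · rw [act2 hn hm1 hm2 hd2, he2 d hd2]
  rw [act0 hm1 hm2 hd1 hd2]
  apply h.2.2
  rw [List.flatten_append, List.mem_append, not_or]
  exact ⟨hd1, hd2⟩

theorem prd_inj {c1 c2 : List (List D)} (hn : (c1 ++ c2).flatten.Nodup) {β1 β2 γ1 γ2 : Perm D}
    (h1 : Mt c1 β1) (h2 : Mt c2 β2) (h3 : Mt c1 γ1) (h4 : Mt c2 γ2)
    (h : β1 * β2 = γ1 * γ2) : β1 = γ1 ∧ β2 = γ2 := by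
  constructor
  · ext d
    by_cases hd : d ∈ c1.flatten
    · rw [← act1 (β1 := β1) hn h2 hd, ← act1 (β1 := γ1) hn h4 hd, h]
    · rw [h1.2.2 d hd, h3.2.2 d hd]
  · ext d
    by_cases hd : d ∈ c2.flatten
    · rw [← act2 hn h1 h2 hd, ← act2 hn h3 h4 hd, h]
    · rw [h2.2.2 d hd, h4.2.2 d hd]

theorem prd_vt {c1 c2 : List (List D)} (hn : (c1 ++ c2).flatten.Nodup) {β1 β2 : Perm D}
    (h1 : Mt c1 β1) (h2 : Mt c2 β2) :
    vt (c1 ++ c2) (β1 * β2) = vt c1 β1 + vt c2 β2 := by
  have h3 : polys c2 * β1 = β1 * polys c2 := by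
    have h4 : Perm.Disjoint (polys c2) β1 := by
      intro d
      by_cases hd : d ∈ c1.flatten
      · exact Or.inl (polys_notMem (two_disj hn d hd))
      · exact Or.inr (h1.2.2 d hd)
    exact h4.commute.eq
  have h4 : polys (c1 ++ c2) * (β1 * β2) = (polys c1 * β1) * (polys c2 * β2) := by
    rw [polys_append, mul_assoc, ← mul_assoc (polys c2), h3]
    simp only [mul_assoc]
  have h5 := cyc_mul (π1 := polys c1 * β1) (π2 := polys c2 * β2) (fun d => by
    by_cases hd : d ∈ c1.flatten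
    · right
      have h6 := two_disj hn d hd
      rw [Perm.mul_apply, h2.2.2 d h6, polys_notMem h6]
    · left
      rw [Perm.mul_apply, h1.2.2 d hd, polys_notMem hd])
  have h6 := card_le h1
  have h7 := card_le h2
  unfold vt
  rw [h4, List.flatten_append, List.length_append, List.count_append]
  omega

theorem conn_congr {c : List (List D)} {β γ : Perm D} (h1 : ∀ d ∈ c.flatten, β d ∈ c.flatten)
    (h2 : ∀ d ∈ c.flatten, β d = γ d) : Conn c β ↔ Conn c γ := by
  have h3 : ∀ d ∈ c.flatten, γ d ∈ c.flatten := fun d hd => by rw [← h2 d hd]; exact h1 d hd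
  have key : ∀ β γ : Perm D, (∀ d ∈ c.flatten, γ d ∈ c.flatten) →
      (∀ d ∈ c.flatten, β d = γ d) → Conn c β → Conn c γ := by
    intro β γ h1 h2 hc
    refine ⟨hc.1, hc.2.1, ?_⟩
    intro S hS1 hS2 hd e he
    obtain ⟨d, hd, hSd⟩ := hd
    refine (hc.2.2 (fun x => x ∈ c.flatten ∧ S x) ?_ ?_ ⟨d, hd, hd, hSd⟩ e he).2
    · intro x hx
      exact ⟨polys_mem hx.1, hS1 _ hx.2⟩
    · intro x hx
      rw [h2 x hx.1]
      exact ⟨h1 x hx.1, hS2 _ hx.2⟩
  exact ⟨key β γ h3 h2, key γ β h1 (fun d hd => (h2 d hd).symm)⟩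

theorem prd_conn {c1 c2 : List (List D)} (hn : (c1 ++ c2).flatten.Nodup) {β1 β2 : Perm D}
    (h1 : Mt c1 β1) (h2 : Mt c2 β2) :
    (Conn c1 β1 ↔ Conn c1 (β1 * β2)) ∧ (Conn c2 β2 ↔ Conn c2 (β1 * β2)) := by
  refine ⟨conn_congr (Mt_pres h1) fun d hd => ?_, conn_congr (Mt_pres h2) fun d hd => ?_⟩
  · rw [act1 hn h2 hd]
  · rw [act2 hn h1 h2 hd]

open Classical in
theorem prd_sum {c1 c2 : List (List D)} (hn : (c1 ++ c2).flatten.Nodup) :
    (∑ β : Perm D, if Mt (c1 ++ c2) β ∧ (∀ d ∈ c1.flatten, β d ∈ c1.flatten) ∧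
      Conn c1 β ∧ Conn c2 β then (X : Polynomial ℕ) ^ vt (c1 ++ c2) β else 0) =
    cnt c1 * cnt c2 := by
  unfold cnt
  rw [Finset.sum_mul_sum, ← Finset.sum_product', ← Finset.sum_filter]
  have h1 : ∀ p ∈ (Finset.univ : Finset (Perm D)) ×ˢ (Finset.univ : Finset (Perm D)),
      ((if Mt c1 p.1 ∧ Conn c1 p.1 then (X : Polynomial ℕ) ^ vt c1 p.1 else 0) *
        if Mt c2 p.2 ∧ Conn c2 p.2 then (X : Polynomial ℕ) ^ vt c2 p.2 else 0) =
      if (Mt c1 p.1 ∧ Conn c1 p.1) ∧ (Mt c2 p.2 ∧ Conn c2 p.2) then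
        (X : Polynomial ℕ) ^ (vt c1 p.1 + vt c2 p.2) else 0 := by
    intro p _
    by_cases h2 : Mt c1 p.1 ∧ Conn c1 p.1
    · by_cases h3 : Mt c2 p.2 ∧ Conn c2 p.2
      · rw [if_pos h2, if_pos h3, if_pos ⟨h2, h3⟩, pow_add]
      · rw [if_neg h3, mul_zero, if_neg (fun h4 => h3 h4.2)]
    · rw [if_neg h2, zero_mul, if_neg (fun h4 => h2 h4.1)]
  rw [Finset.sum_congr rfl h1, ← Finset.sum_filter]
  symm
  refine Finset.sum_bij (fun p _ => p.1 * p.2) ?_ ?_ ?_ ?_
  · intro p hp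
    rw [Finset.mem_filter] at hp
    obtain ⟨_, ⟨hm1, hc1⟩, hm2, hc2⟩ := hp
    rw [Finset.mem_filter]
    have h2 := prd_mt hn hm1 hm2
    have h3 := prd_conn hn hm1 hm2
    exact ⟨Finset.mem_univ _, h2.1, h2.2, h3.1.1 hc1, h3.2.1 hc2⟩
  · intro p hp q hq hpq
    rw [Finset.mem_filter] at hp hq
    have h2 := prd_inj hn hp.2.1.1 hp.2.2.1 hq.2.1.1 hq.2.2.1 hpq
    exact Prod.ext h2.1 h2.2
  · intro β hβ
    rw [Finset.mem_filter] at hβ
    obtain ⟨_, hm, hp, hc1, hc2⟩ := hβ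
    obtain ⟨β1, β2, hm1, hm2, rfl⟩ := prd_ex hn hm hp
    have h3 := prd_conn hn hm1 hm2
    refine ⟨(β1, β2), ?_, rfl⟩
    rw [Finset.mem_filter]
    exact ⟨Finset.mem_product.2 ⟨Finset.mem_univ _, Finset.mem_univ _⟩,
      ⟨hm1, h3.1.2 hc1⟩, hm2, h3.2.2 hc2⟩
  · intro p hp
    rw [Finset.mem_filter] at hp
    rw [prd_vt hn hp.2.1.1 hp.2.2.1]

end UN39
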