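import Mathlib
import Pool.Agent.H39.HG.Defs
import Pool.Agent.H39.HG.ZSwap
import Pool.Agent.H39.UN.Num
import Pool.Agent.H39.UN.Pol

/-!
[H39 UN REDA]  (MP_bcc40c_pr)  Removal of a glued pair of sides `a, b` (`α a = b`).

`c = (a :: (l1 ++ b :: l2)) :: cs` (same polygon) becomes `c' = l1 :: l2 :: cs`;
`c = (a :: l) :: (m1 ++ b :: m2) :: cs` (two polygons) becomes `c' = (l ++ (m2 ++ m1)) :: cs`.
In both cases `β = swap a b * α` is a gluing of `c'`, with the same number of vertices.

PROOFS.  redA_mt, redB_mt: `α` is an involution with `α a = b`, `α b = a`, hence `β a = a`, `β b = b`,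
and `β d = α d ∉ {a, b}` for the other darts.  redA_inv, redB_inv: the same computation backwards
(`β` fixes `a` and `b` because they are not in `c'.flatten`; `swap a b` commutes with `β`).

cyc_fix (key): if `W a = a` and `x ≠ a` then `cyc (swap a x * W) + 1 = cyc W`.  Proof:
`swap a x * W` is conjugate to `W * swap a x` (by `swap a x`), conjugate permutations have the same
number of cycles (`Quotient.congr`, `Equiv.Perm.sameCycle_conj`), and `¬ W.SameCycle a x` because `a`
is a fixed point; use `cyc_swap_diff` of HG ZSwap (its exact form is `cyc (π * swap a b) + 1 = cyc π`).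
cyc_cons: if `Z a = a`, `(a :: w).Nodup`, then
`cyc ((a :: w).formPerm * Z) + (if w = [] then 0 else 1) = cyc (w.formPerm * Z)`.  Proof: `w = []`:
both formPerms are 1.  `w = x :: w'`: `List.formPerm_cons_cons`: `(a :: x :: w').formPerm = swap a x *
(x :: w').formPerm`, and `W = (x :: w').formPerm * Z` fixes `a` (`a ∉ x :: w'`).
formPerm identities (`List.formPerm` of nodup lists; prove by `Equiv.ext`, or derive from the two
facts `(a :: x :: w).formPerm = swap a x * (x :: w).formPerm` and rotation):
 (I1) `(a :: (l1 ++ b :: l2)).formPerm * swap a b = (a :: l2).formPerm * (b :: l1).formPerm`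
 (I2) `(a :: l).formPerm * (b :: m).formPerm * swap a b = (a :: (m ++ b :: l)).formPerm`.
 (I2) follows from (I1): apply (I1) to the list `a :: (m ++ b :: l)`: its formPerm times `swap a b`
 is `(a :: l).formPerm * (b :: m).formPerm`; multiply by `swap a b` again.
 Proof of (I1): induction on `l1`?  Easier: compare the values at every `d`: use
 `List.formPerm_apply_lt_getElem` / or induct on `l1` with
 `(b :: x :: l1').formPerm = swap b x * (x :: l1').formPerm`; for `l1 = []`:
 `(a :: b :: l2).formPerm = swap a b * (b :: l2).formPerm`, and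
 `swap a b * (b :: l2).formPerm * swap a b = (a :: l2).formPerm` (conjugation: `List.formPerm_map`-like
 statement or `Equiv.Perm` conj: the formPerm of the list mapped by `swap a b`); for `l1 = x :: l1'`
 rotate both sides (`List.formPerm_rotate`): `a :: (x :: l1' ++ b :: l2)` has formPerm
 `swap a x * (x :: l1' ++ b :: l2).formPerm`, and use the induction hypothesis for the list
 `b :: (l2 ++ x :: l1')` split at ... .  Any other proof is fine.
redA_vt: `π = polys c * α = (a :: (l1 ++ b :: l2)).formPerm * P * swap a b * β`, `P = polys cs`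
commutes with `swap a b` (`P` fixes `a`, `b`), so by (I1)
`π = (a :: l2).formPerm * ((b :: l1).formPerm * P * β)`; cyc_cons for `a`, then (formPerm of `l2` and
of `b :: l1` commute, disjoint) cyc_cons for `b`:
`cyc π + [l1 ≠ []] + [l2 ≠ []] = cyc (polys c' * β)`.  With `length c.flatten = length c'.flatten + 2`,
`count [] c' = count [] cs + [l1 = []] + [l2 = []]`, `count [] c = count [] cs` this gives
`vt c α = vt c' β` (no truncation problem: card_le for `c`, `α` and for `c'`, `β`).
redB_vt: `(m1 ++ b :: m2).formPerm = (b :: (m2 ++ m1)).formPerm` (rotation); with `m = m2 ++ m1` and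
(I2): `π = (a :: (m ++ b :: l)).formPerm * P * β`.  cyc_cons removes `a` (`cyc π + 1 = ..`, the rest
is nonempty), rotation `(m ++ b :: l).formPerm = (b :: (l ++ m)).formPerm`, cyc_cons removes `b`:
`cyc π + 1 + [l ++ m ≠ []] = cyc (polys c' * β)`; `count [] c' = count [] cs + [l ++ m = []]`.
-/

set_option autoImplicit false

namespace UN39

open Equiv HG39

variable {D : Type} [Fintype D] [DecidableEq D]

theorem cyc_inv (W : Perm D) : cyc W⁻¹ = cyc W := by
  unfold cyc
  have h : Equiv.Perm.SameCycle.setoid W⁻¹ = Equiv.Perm.SameCycle.setoid W := by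
    ext x y
    exact Equiv.Perm.sameCycle_inv
  rw [h]

theorem cyc_fix {W : Perm D} {a x : D} (h : W a = a) (hx : x ≠ a) :
    cyc (swap a x * W) + 1 = cyc W := by
  rw [← cyc_inv (swap a x * W), ← cyc_inv W, mul_inv_rev, Equiv.swap_inv]
  refine cyc_swap_diff W⁻¹ a x ?_
  intro hs
  rw [Equiv.Perm.sameCycle_inv] at hs
  obtain ⟨n, hn⟩ := hs
  have h1 : (W ^ n) a = a := Equiv.Perm.zpow_apply_eq_self_of_apply_eq_self h n
  rw [h1] at hn
  exact hx hn.symm

theorem cyc_cons {Z : Perm D} {a : D} {w : List D} (h : Z a = a) (hn : (a :: w).Nodup) :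
    cyc ((a :: w).formPerm * Z) + (if w = [] then 0 else 1) = cyc (w.formPerm * Z) := by
  cases w with
  | nil => simp
  | cons x w =>
    rw [if_neg (List.cons_ne_nil x w), List.formPerm_cons_cons, mul_assoc]
    have ha : a ∉ x :: w := (List.nodup_cons.mp hn).1
    refine cyc_fix ?_ ?_
    · rw [Equiv.Perm.mul_apply, h, List.formPerm_apply_of_notMem ha]
    · intro hxa
      exact ha (hxa ▸ List.mem_cons_self)

theorem formPerm_app (a : D) (l m : List D) :
    (l ++ a :: m).formPerm = (l ++ [a]).formPerm * (a :: m).formPerm := by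
  induction l with
  | nil => simp
  | cons x l ih =>
    cases l with
    | nil => simp [List.formPerm_cons_cons]
    | cons y l =>
      rw [List.cons_append, List.cons_append, List.formPerm_cons_cons, List.cons_append,
        List.cons_append, List.formPerm_cons_cons, mul_assoc, ← List.cons_append, ih,
        List.cons_append]

theorem formPerm_commute {l m : List D} (h : ∀ d ∈ l, d ∉ m) :
    l.formPerm * m.formPerm = m.formPerm * l.formPerm := by
  refine Equiv.Perm.Disjoint.commute fun d => ?_
  by_cases hd : d ∈ l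
  · exact Or.inr (List.formPerm_apply_of_notMem (h d hd))
  · exact Or.inl (List.formPerm_apply_of_notMem hd)

theorem swap_commute {P : Perm D} {a b : D} (ha : P a = a) (hb : P b = b) :
    P * swap a b = swap a b * P := by
  ext d
  rw [Equiv.Perm.mul_apply, Equiv.Perm.mul_apply]
  by_cases h1 : d = a
  · rw [h1, Equiv.swap_apply_left, ha, Equiv.swap_apply_left, hb]
  · by_cases h2 : d = b
    · rw [h2, Equiv.swap_apply_right, hb, Equiv.swap_apply_right, ha]
    · rw [Equiv.swap_apply_of_ne_of_ne h1 h2, Equiv.swap_apply_of_ne_of_ne]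
      · intro h
        exact h1 (P.injective (h.trans ha.symm))
      · intro h
        exact h2 (P.injective (h.trans hb.symm))

theorem formPerm_conj {a b : D} {l : List D} (ha : a ∉ l) (hb : b ∉ l) (hab : a ≠ b) :
    (b :: l).formPerm * swap a b = swap a b * (a :: l).formPerm := by
  cases l with
  | nil => simp
  | cons x l =>
    have h1 : (x :: l).formPerm * swap a b = swap a b * (x :: l).formPerm :=
      swap_commute (List.formPerm_apply_of_notMem ha) (List.formPerm_apply_of_notMem hb)
    have hax : a ≠ x := fun h => ha (h ▸ List.mem_cons_self)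
    have hbx : b ≠ x := fun h => hb (h ▸ List.mem_cons_self)
    rw [List.formPerm_cons_cons, List.formPerm_cons_cons, mul_assoc, h1, ← mul_assoc, ← mul_assoc]
    congr 1
    rw [Equiv.mul_swap_eq_swap_mul (swap a b) a x, Equiv.swap_apply_left,
      Equiv.swap_apply_of_ne_of_ne hax.symm hbx.symm]

theorem formPerm_rot {l m : List D} (hn : (l ++ m).Nodup) :
    (l ++ m).formPerm = (m ++ l).formPerm := by
  refine List.formPerm_eq_of_isRotated hn ?_
  exact List.isRotated_append

theorem formPerm_cut {a b : D} {l1 l2 : List D} (hn : (a :: (l1 ++ b :: l2)).Nodup) :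
    (a :: (l1 ++ b :: l2)).formPerm * swap a b = (a :: l2).formPerm * (b :: l1).formPerm := by
  rw [List.nodup_cons] at hn
  obtain ⟨ha, hn1⟩ := hn
  rw [List.mem_append, List.mem_cons] at ha
  push Not at ha
  obtain ⟨ha1, hab, ha2⟩ := ha
  rw [List.nodup_append] at hn1
  obtain ⟨hl1, hbl2, hdis⟩ := hn1
  rw [List.nodup_cons] at hbl2
  obtain ⟨hb2, hl2⟩ := hbl2
  have hb1 : b ∉ l1 := fun h => hdis b h b List.mem_cons_self rfl
  have h1 : (a :: (l1 ++ b :: l2)).formPerm =
      (a :: l1 ++ [b]).formPerm * (b :: l2).formPerm := by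
    rw [← List.cons_append, formPerm_app]
  have h2 : (b :: l2).formPerm * swap a b = swap a b * (a :: l2).formPerm :=
    formPerm_conj ha2 hb2 hab
  have h3 : (a :: l1 ++ [b]).formPerm = (l1 ++ [b]).formPerm * swap b a := by
    rw [← List.formPerm_append_pair, List.cons_append]
    have h4 : (a :: (l1 ++ [b])) = [a] ++ (l1 ++ [b]) := rfl
    rw [h4, formPerm_rot, List.append_assoc]
    · rfl
    · rw [List.singleton_append, List.nodup_cons, List.mem_append, List.mem_singleton,
        List.nodup_append]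
      push Not
      refine ⟨⟨ha1, hab⟩, hl1, List.nodup_singleton b, ?_⟩
      intro x hx y hy
      rw [List.mem_singleton] at hy
      rw [hy]
      intro hxb
      exact hb1 (hxb ▸ hx)
  have h5 : (l1 ++ [b]).formPerm = (b :: l1).formPerm := by
    rw [formPerm_rot, List.singleton_append]
    rw [List.nodup_append]
    refine ⟨hl1, List.nodup_singleton b, ?_⟩
    intro x hx y hy
    rw [List.mem_singleton] at hy
    rw [hy]
    intro hxb
    exact hb1 (hxb ▸ hx)
  rw [h1, mul_assoc, h2, h3, h5, Equiv.swap_comm b a, mul_assoc, ← mul_assoc (swap a b),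
    Equiv.swap_mul_self, one_mul]
  refine formPerm_commute ?_
  intro d hd
  rw [List.mem_cons] at hd ⊢
  push Not
  rcases hd with hd | hd
  · rw [hd]
    exact ⟨Ne.symm hab, hb2⟩
  · refine ⟨fun h => ha1 (h ▸ hd), fun h => hdis d hd d (List.mem_cons_of_mem b h) rfl⟩

theorem formPerm_join {a b : D} {l m : List D} (hn : (a :: (m ++ b :: l)).Nodup) :
    (a :: l).formPerm * (b :: m).formPerm * swap a b = (a :: (m ++ b :: l)).formPerm := by
  rw [← formPerm_cut hn, mul_assoc, Equiv.swap_mul_self, mul_one]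

theorem mt_rem {c c' : List (List D)} {a b : D} {α : Perm D}
    (hc : ∀ d, d ∈ c.flatten ↔ d = a ∨ d = b ∨ d ∈ c'.flatten) (ha : a ∉ c'.flatten)
    (hb : b ∉ c'.flatten) (h : Mt c α) (hab : α a = b) : Mt c' (swap a b * α) := by
  obtain ⟨h1, h2, h3⟩ := h
  have hba : α b = a := by rw [← hab, h1]
  have hβa : (swap a b * α) a = a := by
    rw [Equiv.Perm.mul_apply, hab, Equiv.swap_apply_right]
  have hβb : (swap a b * α) b = b := by
    rw [Equiv.Perm.mul_apply, hba, Equiv.swap_apply_left]
  have hβ : ∀ d, d ≠ a → d ≠ b → (swap a b * α) d = α d := by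
    intro d hda hdb
    rw [Equiv.Perm.mul_apply, Equiv.swap_apply_of_ne_of_ne]
    · intro h
      exact hdb (α.injective (h.trans hba.symm))
    · intro h
      exact hda (α.injective (h.trans hab.symm))
  refine ⟨?_, ?_, ?_⟩
  · intro d
    by_cases hda : d = a
    · rw [hda, hβa, hβa]
    · by_cases hdb : d = b
      · rw [hdb, hβb, hβb]
      · rw [hβ d hda hdb, hβ (α d), h1]
        · intro h
          exact hdb (α.injective (h.trans hba.symm))
        · intro h
          exact hda (α.injective (h.trans hab.symm))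
  · intro d hd
    have hda : d ≠ a := fun h => ha (h ▸ hd)
    have hdb : d ≠ b := fun h => hb (h ▸ hd)
    rw [hβ d hda hdb]
    exact h2 d ((hc d).mpr (Or.inr (Or.inr hd)))
  · intro d hd
    by_cases hda : d = a
    · rw [hda, hβa]
    · by_cases hdb : d = b
      · rw [hdb, hβb]
      · rw [hβ d hda hdb]
        refine h3 d ?_
        rw [hc d]
        push Not
        exact ⟨hda, hdb, hd⟩

theorem mt_ins {c c' : List (List D)} {a b : D} {β : Perm D} (hab : a ≠ b)
    (hc : ∀ d, d ∈ c.flatten ↔ d = a ∨ d = b ∨ d ∈ c'.flatten) (ha : a ∉ c'.flatten)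
    (hb : b ∉ c'.flatten) (h : Mt c' β) :
    Mt c (swap a b * β) ∧ (swap a b * β) a = b := by
  obtain ⟨h1, h2, h3⟩ := h
  have hβa : β a = a := h3 a ha
  have hβb : β b = b := h3 b hb
  have hαa : (swap a b * β) a = b := by
    rw [Equiv.Perm.mul_apply, hβa, Equiv.swap_apply_left]
  have hαb : (swap a b * β) b = a := by
    rw [Equiv.Perm.mul_apply, hβb, Equiv.swap_apply_right]
  have hβ : ∀ d, d ≠ a → d ≠ b → (swap a b * β) d = β d := by
    intro d hda hdb
    rw [Equiv.Perm.mul_apply, Equiv.swap_apply_of_ne_of_ne]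
    · intro h
      exact hda (β.injective (h.trans hβa.symm))
    · intro h
      exact hdb (β.injective (h.trans hβb.symm))
  refine ⟨⟨?_, ?_, ?_⟩, hαa⟩
  · intro d
    by_cases hda : d = a
    · rw [hda, hαa, hαb]
    · by_cases hdb : d = b
      · rw [hdb, hαb, hαa]
      · rw [hβ d hda hdb, hβ (β d), h1]
        · intro h
          exact hda (β.injective (h.trans hβa.symm))
        · intro h
          exact hdb (β.injective (h.trans hβb.symm))
  · intro d hd
    rw [hc d] at hd
    by_cases hda : d = a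
    · rw [hda, hαa]
      exact Ne.symm hab
    · by_cases hdb : d = b
      · rw [hdb, hαb]
        exact hab
      · rw [hβ d hda hdb]
        rcases hd with hd | hd | hd
        · exact absurd hd hda
        · exact absurd hd hdb
        · exact h2 d hd
  · intro d hd
    rw [hc d] at hd
    push Not at hd
    rw [hβ d hd.1 hd.2.1]
    exact h3 d hd.2.2

theorem flatA {a b : D} {l1 l2 : List D} {cs : List (List D)}
    (hn : ((a :: (l1 ++ b :: l2)) :: cs).flatten.Nodup) :
    (∀ d, d ∈ ((a :: (l1 ++ b :: l2)) :: cs).flatten ↔ d = a ∨ d = b ∨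
      d ∈ (l1 :: l2 :: cs).flatten) ∧ a ∉ (l1 :: l2 :: cs).flatten ∧
      b ∉ (l1 :: l2 :: cs).flatten ∧ a ≠ b := by
  have h1 : ((a :: (l1 ++ b :: l2)) :: cs).flatten.Perm (a :: b :: (l1 :: l2 :: cs).flatten) := by
    rw [List.flatten_cons, List.flatten_cons, List.flatten_cons, List.cons_append,
      List.append_assoc, List.cons_append]
    exact List.Perm.cons a List.perm_middle
  have h2 := h1.nodup_iff.mp hn
  rw [List.nodup_cons, List.nodup_cons, List.mem_cons] at h2
  push Not at h2
  refine ⟨fun d => ?_, h2.1.2, h2.2.1, h2.1.1⟩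
  rw [h1.mem_iff, List.mem_cons, List.mem_cons]

theorem flatB {a b : D} {l m1 m2 : List D} {cs : List (List D)}
    (hn : ((a :: l) :: (m1 ++ b :: m2) :: cs).flatten.Nodup) :
    (∀ d, d ∈ ((a :: l) :: (m1 ++ b :: m2) :: cs).flatten ↔ d = a ∨ d = b ∨
      d ∈ ((l ++ (m2 ++ m1)) :: cs).flatten) ∧ a ∉ ((l ++ (m2 ++ m1)) :: cs).flatten ∧
      b ∉ ((l ++ (m2 ++ m1)) :: cs).flatten ∧ a ≠ b ∧
      (a :: b :: ((l ++ (m2 ++ m1)) :: cs).flatten).Nodup := by
  have h1 : ((a :: l) :: (m1 ++ b :: m2) :: cs).flatten.Perm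
      (a :: b :: ((l ++ (m2 ++ m1)) :: cs).flatten) := by
    rw [List.flatten_cons, List.flatten_cons, List.flatten_cons, List.cons_append,
      List.append_assoc, List.append_assoc, List.cons_append]
    refine List.Perm.cons a ?_
    have h3 : (l ++ (m1 ++ b :: (m2 ++ cs.flatten))).Perm
        (b :: (l ++ (m1 ++ (m2 ++ cs.flatten)))) := by
      rw [← List.append_assoc l m1, ← List.append_assoc l m1]
      exact List.perm_middle
    refine h3.trans (List.Perm.cons b ?_)
    refine List.Perm.append_left l ?_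
    rw [← List.append_assoc]
    exact List.Perm.append_right _ List.perm_append_comm
  have h2 := h1.nodup_iff.mp hn
  have h4 := h2
  rw [List.nodup_cons, List.nodup_cons, List.mem_cons] at h2
  push Not at h2
  refine ⟨fun d => ?_, h2.1.2, h2.2.1, h2.1.1, h4⟩
  rw [h1.mem_iff, List.mem_cons, List.mem_cons]

theorem count_cons_ne {l : List D} {c : List (List D)} (h : l ≠ []) :
    (l :: c).count [] = c.count [] := by
  rw [List.count_cons]
  have : (l == []) = false := by
    rw [beq_eq_false_iff_ne]
    exact h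
  rw [this]
  simp

theorem count_cons_nil (l : List D) (c : List (List D)) :
    (l :: c).count [] = c.count [] + (if l = [] then 1 else 0) := by
  by_cases h : l = []
  · rw [if_pos h, h, List.count_cons_self]
  · rw [if_neg h, count_cons_ne h, add_zero]

theorem redA_mt {a b : D} {l1 l2 : List D} {cs : List (List D)} {α : Perm D}
    (hn : ((a :: (l1 ++ b :: l2)) :: cs).flatten.Nodup)
    (h : Mt ((a :: (l1 ++ b :: l2)) :: cs) α) (hab : α a = b) :
    Mt (l1 :: l2 :: cs) (swap a b * α) := by
  obtain ⟨h1, h2, h3, _⟩ := flatA hn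
  exact mt_rem h1 h2 h3 h hab

theorem redA_inv {a b : D} {l1 l2 : List D} {cs : List (List D)} {β : Perm D}
    (hn : ((a :: (l1 ++ b :: l2)) :: cs).flatten.Nodup) (h : Mt (l1 :: l2 :: cs) β) :
    Mt ((a :: (l1 ++ b :: l2)) :: cs) (swap a b * β) ∧ (swap a b * β) a = b := by
  obtain ⟨h1, h2, h3, h4⟩ := flatA hn
  exact mt_ins h4 h1 h2 h3 h

theorem redA_vt {a b : D} {l1 l2 : List D} {cs : List (List D)} {α : Perm D}
    (hn : ((a :: (l1 ++ b :: l2)) :: cs).flatten.Nodup)
    (h : Mt ((a :: (l1 ++ b :: l2)) :: cs) α) (hab : α a = b) :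
    vt ((a :: (l1 ++ b :: l2)) :: cs) α = vt (l1 :: l2 :: cs) (swap a b * α) := by
  obtain ⟨h1, h2, h3, h4⟩ := flatA hn
  have hMt := mt_rem h1 h2 h3 h hab
  obtain ⟨β, hβ⟩ : ∃ β : Perm D, β = swap a b * α := ⟨_, rfl⟩
  rw [← hβ] at hMt ⊢
  have hα : α = swap a b * β := by
    rw [hβ, ← mul_assoc, Equiv.swap_mul_self, one_mul]
  have hβa : β a = a := hMt.2.2 a h2
  have hβb : β b = b := hMt.2.2 b h3
  rw [List.flatten_cons, List.flatten_cons, List.mem_append, List.mem_append] at h2 h3
  push Not at h2 h3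
  have hPa : polys cs a = a := polys_notMem h2.2.2
  have hPb : polys cs b = b := polys_notMem h3.2.2
  have hnc : (a :: (l1 ++ b :: l2)).Nodup := by
    rw [List.flatten_cons] at hn
    exact (List.nodup_append.mp hn).1
  have hnc1 : (b :: l1).Nodup := by
    rw [List.nodup_cons]
    refine ⟨h3.1, ?_⟩
    exact (List.nodup_append.mp (List.nodup_cons.mp hnc).2).1
  have hnc2 : (a :: l2).Nodup := by
    rw [List.nodup_cons]
    refine ⟨h2.2.1, ?_⟩
    exact (List.nodup_cons.mp (List.nodup_append.mp (List.nodup_cons.mp hnc).2).2.1).2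
  have hdis : ∀ d ∈ l2, d ∉ b :: l1 := by
    intro d hd
    rw [List.mem_cons]
    push Not
    refine ⟨fun hdb => h3.2.1 (hdb ▸ hd), fun hd1 => ?_⟩
    exact (List.nodup_append.mp (List.nodup_cons.mp hnc).2).2.2 d hd1 d
      (List.mem_cons_of_mem b hd) rfl
  -- the permutation
  have e1 : polys ((a :: (l1 ++ b :: l2)) :: cs) * α =
      (a :: l2).formPerm * ((b :: l1).formPerm * (polys cs * β)) := by
    rw [polys_cons, hα, mul_assoc, ← mul_assoc (polys cs), swap_commute hPa hPb, mul_assoc,
      ← mul_assoc _ (swap a b), formPerm_cut hnc, mul_assoc]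
  have e2 := cyc_cons (Z := (b :: l1).formPerm * (polys cs * β)) (a := a) (w := l2) (by
    rw [Equiv.Perm.mul_apply, Equiv.Perm.mul_apply, hβa, hPa, List.formPerm_apply_of_notMem]
    rw [List.mem_cons]
    push Not
    exact ⟨h4, h2.1⟩) hnc2
  have e3 : l2.formPerm * ((b :: l1).formPerm * (polys cs * β)) =
      (b :: l1).formPerm * (l2.formPerm * (polys cs * β)) := by
    rw [← mul_assoc, formPerm_commute hdis, mul_assoc]
  have e4 := cyc_cons (Z := l2.formPerm * (polys cs * β)) (a := b) (w := l1) (by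
    rw [Equiv.Perm.mul_apply, Equiv.Perm.mul_apply, hβb, hPb,
      List.formPerm_apply_of_notMem h3.2.1]) hnc1
  have e5 : l1.formPerm * (l2.formPerm * (polys cs * β)) = polys (l1 :: l2 :: cs) * β := by
    rw [polys_cons, polys_cons, mul_assoc, mul_assoc]
  rw [e3] at e2
  rw [e5] at e4
  have hlen : ((a :: (l1 ++ b :: l2)) :: cs).flatten.length =
      (l1 :: l2 :: cs).flatten.length + 2 := by
    simp only [List.flatten_cons, List.length_append, List.length_cons]
    omega
  unfold vt
  rw [e1, hlen, count_cons_ne (List.cons_ne_nil a _), count_cons_nil, count_cons_nil]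
  split_ifs at e2 e4 ⊢ <;> omega

theorem redB_mt {a b : D} {l m1 m2 : List D} {cs : List (List D)} {α : Perm D}
    (hn : ((a :: l) :: (m1 ++ b :: m2) :: cs).flatten.Nodup)
    (h : Mt ((a :: l) :: (m1 ++ b :: m2) :: cs) α) (hab : α a = b) :
    Mt ((l ++ (m2 ++ m1)) :: cs) (swap a b * α) := by
  obtain ⟨h1, h2, h3, _⟩ := flatB hn
  exact mt_rem h1 h2 h3 h hab

theorem redB_inv {a b : D} {l m1 m2 : List D} {cs : List (List D)} {β : Perm D}
    (hn : ((a :: l) :: (m1 ++ b :: m2) :: cs).flatten.Nodup)
    (h : Mt ((l ++ (m2 ++ m1)) :: cs) β) :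
    Mt ((a :: l) :: (m1 ++ b :: m2) :: cs) (swap a b * β) ∧ (swap a b * β) a = b := by
  obtain ⟨h1, h2, h3, h4, _⟩ := flatB hn
  exact mt_ins h4 h1 h2 h3 h

theorem redB_vt {a b : D} {l m1 m2 : List D} {cs : List (List D)} {α : Perm D}
    (hn : ((a :: l) :: (m1 ++ b :: m2) :: cs).flatten.Nodup)
    (h : Mt ((a :: l) :: (m1 ++ b :: m2) :: cs) α) (hab : α a = b) :
    vt ((a :: l) :: (m1 ++ b :: m2) :: cs) α = vt ((l ++ (m2 ++ m1)) :: cs) (swap a b * α) := by
  obtain ⟨h1, h2, h3, h4, h5⟩ := flatB hn
  have hMt := mt_rem h1 h2 h3 h hab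
  obtain ⟨β, hβ⟩ : ∃ β : Perm D, β = swap a b * α := ⟨_, rfl⟩
  rw [← hβ] at hMt ⊢
  have hα : α = swap a b * β := by
    rw [hβ, ← mul_assoc, Equiv.swap_mul_self, one_mul]
  have hβa : β a = a := hMt.2.2 a h2
  have hβb : β b = b := hMt.2.2 b h3
  rw [List.flatten_cons, List.mem_append] at h2 h3
  push Not at h2 h3
  have hPa : polys cs a = a := polys_notMem h2.2
  have hPb : polys cs b = b := polys_notMem h3.2
  -- the joined polygon
  have hn2 : (a :: ((m2 ++ m1) ++ b :: l)).Nodup := by
    have h6 : (a :: b :: ((l ++ (m2 ++ m1)) :: cs).flatten).Perm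
        ((a :: ((m2 ++ m1) ++ b :: l)) ++ cs.flatten) := by
      rw [List.flatten_cons, List.cons_append]
      refine List.Perm.cons a ?_
      rw [← List.cons_append]
      refine List.Perm.append_right _ ?_
      have h7 : (b :: (l ++ (m2 ++ m1))).Perm ((m2 ++ m1) ++ (b :: l)) := by
        rw [← List.cons_append]
        exact List.perm_append_comm
      exact h7
    exact (List.nodup_append.mp (h6.nodup_iff.mp h5)).1
  have hn3 : ((m2 ++ m1) ++ b :: l).Nodup := (List.nodup_cons.mp hn2).2
  have hn4 : (b :: (l ++ (m2 ++ m1))).Nodup := by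
    have h6 : ((m2 ++ m1) ++ b :: l).Perm (b :: (l ++ (m2 ++ m1))) := by
      rw [← List.cons_append]
      exact List.perm_append_comm
    exact h6.nodup_iff.mp hn3
  have hn5 : (m1 ++ b :: m2).Nodup := by
    rw [List.flatten_cons, List.flatten_cons] at hn
    exact (List.nodup_append.mp (List.nodup_append.mp hn).2.1).1
  have hrot : (m1 ++ b :: m2).formPerm = (b :: (m2 ++ m1)).formPerm := by
    rw [formPerm_rot hn5, List.cons_append]
  have e1 : polys ((a :: l) :: (m1 ++ b :: m2) :: cs) * α =
      (a :: ((m2 ++ m1) ++ b :: l)).formPerm * (polys cs * β) := by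
    rw [polys_cons, polys_cons, hrot, hα, ← formPerm_join hn2]
    rw [mul_assoc, mul_assoc, ← mul_assoc (polys cs), swap_commute hPa hPb, mul_assoc,
      mul_assoc, mul_assoc]
  have e2 := cyc_cons (Z := polys cs * β) (a := a) (w := (m2 ++ m1) ++ b :: l) (by
    rw [Equiv.Perm.mul_apply, hβa, hPa]) hn2
  rw [if_neg (by simp)] at e2
  have e3 : ((m2 ++ m1) ++ b :: l).formPerm = (b :: (l ++ (m2 ++ m1))).formPerm := by
    rw [formPerm_rot hn3, List.cons_append]
  have e4 := cyc_cons (Z := polys cs * β) (a := b) (w := l ++ (m2 ++ m1)) (by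
    rw [Equiv.Perm.mul_apply, hβb, hPb]) hn4
  have e5 : (l ++ (m2 ++ m1)).formPerm * (polys cs * β) =
      polys ((l ++ (m2 ++ m1)) :: cs) * β := by
    rw [polys_cons, mul_assoc]
  rw [e3] at e2
  rw [e5] at e4
  have hlen : ((a :: l) :: (m1 ++ b :: m2) :: cs).flatten.length =
      ((l ++ (m2 ++ m1)) :: cs).flatten.length + 2 := by
    simp only [List.flatten_cons, List.length_append, List.length_cons]
    omega
  unfold vt
  rw [e1, hlen, count_cons_ne (List.cons_ne_nil a _), count_cons_ne (by simp), count_cons_nil]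
  split_ifs at e4 ⊢ <;> omega

end UN39
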