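import Mathlib
import Pool.Agent.H39.HG.Defs
import Pool.Agent.H39.UN.Num
import Pool.Agent.H39.UN.Pol
import Pool.Agent.H39.UN.RedA

/-!
[H39 UN CONA]  (MP_bcc40c_pr)  Connectedness after the removal of a glued pair of the SAME polygon.

`c = (a :: (l1 ++ b :: l2)) :: cs`, `α a = b`, `β = swap a b * α`, `c' = l1 :: l2 :: cs`.  `TC l1 l2 p β`:
`β` glues the polygons `l1 :: p.1` among themselves, connectedly, and the polygons `l2 :: p.2` too.
conA: `1[Conn c α] = 1[Conn c' β] + sum over p in splits cs of 1[TC l1 l2 p β]`.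

PROOF.  Write `P = polys cs`, `F = c'.flatten`, `π = polys c`, `π' = polys c'`.  A set of darts is
called closed for `(c', β)` if it is closed under `π'` and `β`; the same for `(c, α)`.  Facts:
(0) closed sets of a permutation of a finite type are closed under the inverse, so complements
(inside `F`) of closed sets are closed; a closed set which contains a dart of a polygon of `c'`
contains all darts of this polygon (`formPerm` of a nodup list is one cycle on the list:
`List.formPerm_pow_apply_head` or `List.isCycleOn_formPerm`).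
(1) If `[] ∈ cs`: every indicator is 0 (Conn c needs length 1 or no empty polygon; `c`, `c'` have
length >= 2; the empty polygon is in `p.1` or in `p.2`, and `l1 :: p.1`, `l2 :: p.2` have length >= 2
then).  So let `[] ∉ cs`; then the polygons of `cs` are nonempty and pairwise disjoint, hence
different.
(2) If `S` is closed for `(c', β)` and contains `l1` and `l2`, or neither of their darts (with both
nonempty, or ...), then `S` resp. `S ∪ {a, b}` is closed for `(c, α)`: under `π` the polygon
`a :: (l1 ++ b :: l2)` is run through: outside this polygon `π = π'`; `α = swap a b * β`.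
Conversely a closed set for `(c, α)` either contains the whole first polygon or is disjoint from it,
and minus `{a, b}` it is closed for `(c', β)`.
(3) Let `S1` be the smallest closed set for `(c', β)` containing the darts of `l1` (empty if `l1 = []`),
`S2` the same for `l2`.  `Conn c α` iff `F ⊆ S1 ∪ S2`: if `F ⊆ S1 ∪ S2` and `S` is closed for `(c, α)`
and meets `c.flatten`: if `S` contains `a`, it contains `l1`, `l2`, hence `S1 ∪ S2` (closed for
`(c', β)` by (2)); if not, `S` is disjoint from the first polygon, so `S` is closed for `(c', β)`,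
its complement in `F` is closed and contains `l1`, `l2`, hence everything: contradiction.  Conversely
`S1 ∪ S2 ∪ {a, b}` is closed for `(c, α)` and contains `a`.
(4) If `S1`, `S2` meet then each of them is contained in the other one: (the complement of `S1` in
`S2` is closed; it contains `l2` or is ...): closed sets generated by one polygon are minimal nonempty
closed sets (orbits of the group generated by `π'` and `β`), because `l1` lies in one orbit.  So
either `S1 = S2` is nonempty or they are disjoint.
(5) `Conn c' β` iff `l1, l2 ≠ []`, `S1 = S2`, `F ⊆ S1` .  `TC l1 l2 p β` iff `S1`, `S2` disjoint,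
`F ⊆ S1 ∪ S2`, `p.1` = the polygons of `cs` in `S1`, `p.2` = those in `S2` (in the order of `cs`):
TC says that `(l1 :: p.1).flatten` is closed under `β` (and under `π'`), and every closed subset
which is nonempty is everything: for `l1 ≠ []` this says `S1 = (l1 :: p.1).flatten`; for `l1 = []`,
`Conn ([] :: p.1) β` says `p.1 = []` (length 1, as the empty polygon is there).  The same for `l2`.
Given disjoint `S1`, `S2` with `F ⊆ S1 ∪ S2` there is exactly one such `p` in `splits cs`, and it
occurs once (induction on `cs`: the entries of `splits cs` correspond to the maps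
`polygons → {1, 2}`, and the polygons are different).  If `S1 = S2 ≠ ∅` then no TC holds.
So both sides are `1` if `F ⊆ S1 ∪ S2` and `0` otherwise.
Suggestion: prove the helper `split_unique`: for a list `cs` of pairwise different nonempty polygons
and a predicate `q` on polygons, the sum over `p ∈ splits cs` of
`if (∀ m ∈ p.1, q m) ∧ (∀ m ∈ p.2, ¬ q m) then 1 else 0` is `1` (this holds for every list, by
induction on `cs`).
-/

set_option autoImplicit false

namespace UN39

open Equiv HG39

variable {D : Type} [Fintype D] [DecidableEq D]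

/-- two components -/
def TC (l1 l2 : List D) (p : List (List D) × List (List D)) (β : Perm D) : Prop :=
  (∀ d ∈ (l1 :: p.1).flatten, β d ∈ (l1 :: p.1).flatten) ∧ Conn (l1 :: p.1) β ∧
    Conn (l2 :: p.2) β

theorem split_unique {B : Type} (cs : List B) (q : B → Prop) [DecidablePred q] :
    ((splits cs).map fun p => if (∀ m ∈ p.1, q m) ∧ (∀ m ∈ p.2, ¬ q m) then (1 : ℕ) else 0).sum
      = 1 := by
  induction cs with
  | nil => simp [splits]
  | cons x xs ih =>
    rw [splits, List.map_append, List.sum_append, List.map_map, List.map_map]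
    by_cases hx : q x
    · have h1 : (List.map ((fun p : List B × List B =>
          if (∀ m ∈ p.1, q m) ∧ (∀ m ∈ p.2, ¬ q m) then (1 : ℕ) else 0) ∘
          fun p : List B × List B => (x :: p.1, p.2)) (splits xs)) =
          (splits xs).map fun p => if (∀ m ∈ p.1, q m) ∧ (∀ m ∈ p.2, ¬ q m) then (1 : ℕ) else 0 := by
        refine List.map_congr_left fun p _ => ?_
        simp [hx]
      have h2 : (List.map ((fun p : List B × List B =>
          if (∀ m ∈ p.1, q m) ∧ (∀ m ∈ p.2, ¬ q m) then (1 : ℕ) else 0) ∘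
          fun p : List B × List B => (p.1, x :: p.2)) (splits xs)) =
          (splits xs).map fun _ => 0 := by
        refine List.map_congr_left fun p _ => ?_
        simp [hx]
      rw [h1, h2, ih]
      simp
    · have h1 : (List.map ((fun p : List B × List B =>
          if (∀ m ∈ p.1, q m) ∧ (∀ m ∈ p.2, ¬ q m) then (1 : ℕ) else 0) ∘
          fun p : List B × List B => (x :: p.1, p.2)) (splits xs)) =
          (splits xs).map fun _ => 0 := by
        refine List.map_congr_left fun p _ => ?_
        simp [hx]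
      have h2 : (List.map ((fun p : List B × List B =>
          if (∀ m ∈ p.1, q m) ∧ (∀ m ∈ p.2, ¬ q m) then (1 : ℕ) else 0) ∘
          fun p : List B × List B => (p.1, x :: p.2)) (splits xs)) =
          (splits xs).map fun p => if (∀ m ∈ p.1, q m) ∧ (∀ m ∈ p.2, ¬ q m) then (1 : ℕ) else 0 := by
        refine List.map_congr_left fun p _ => ?_
        simp [hx]
      rw [h1, h2, ih]
      simp

theorem splits_permA {B : Type} {cs : List B} {p : List B × List B} (h : p ∈ splits cs) :
    (p.1 ++ p.2).Perm cs := by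
  induction cs generalizing p with
  | nil =>
    rw [splits, List.mem_singleton] at h
    subst h
    exact List.Perm.refl _
  | cons x xs ih =>
    rw [splits, List.mem_append, List.mem_map, List.mem_map] at h
    rcases h with ⟨q, hq, rfl⟩ | ⟨q, hq, rfl⟩
    · exact (ih hq).cons x
    · exact (List.perm_middle).trans ((ih hq).cons x)

/-- closed sets -/
def Cl (π β : Perm D) (S : D → Prop) : Prop := (∀ d, S d → S (π d)) ∧ (∀ d, S d → S (β d))

/-- the smallest closed set which contains `d` -/
def Rl (π β : Perm D) (d e : D) : Prop := ∀ S, Cl π β S → S d → S e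

theorem cl_back {π : Perm D} {S : D → Prop} (h : ∀ d, S d → S (π d)) {d : D} (hd : S (π d)) : S d := by
  have h1 : ∀ k : ℕ, S ((π ^ (k + 1)) d) := by
    intro k
    induction k with
    | zero => rw [zero_add, pow_one]; exact hd
    | succ k ih =>
      rw [pow_succ', Perm.mul_apply]
      exact h _ ih
  have h2 := h1 (orderOf π - 1)
  rw [Nat.sub_add_cancel (orderOf_pos π), pow_orderOf_eq_one] at h2
  exact h2

theorem cl_compl {π β : Perm D} {S : D → Prop} (h : Cl π β S) : Cl π β (fun d => ¬ S d) :=
  ⟨fun _ hd h' => hd (cl_back h.1 h'), fun _ hd h' => hd (cl_back h.2 h')⟩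

theorem Rl_refl (π β : Perm D) (d : D) : Rl π β d d := fun _ _ h => h

theorem Rl_trans {π β : Perm D} {d e f : D} (h : Rl π β d e) (h' : Rl π β e f) : Rl π β d f :=
  fun S hS hd => h' S hS (h S hS hd)

theorem Rl_symm {π β : Perm D} {d e : D} (h : Rl π β d e) : Rl π β e d := by
  intro S hS he
  by_contra hd
  exact h _ (cl_compl hS) hd he

theorem cl_Rl (π β : Perm D) (x : D) : Cl π β (Rl π β x) :=
  ⟨fun d hd S hS hx => hS.1 _ (hd S hS hx), fun d hd S hS hx => hS.2 _ (hd S hS hx)⟩

theorem Conn_iff {c : List (List D)} {α : Perm D} : Conn c α ↔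
    c ≠ [] ∧ (c.length = 1 ∨ [] ∉ c) ∧
      ∀ d ∈ c.flatten, ∀ e ∈ c.flatten, Rl (polys c) α d e := by
  unfold Conn
  refine and_congr Iff.rfl (and_congr Iff.rfl ?_)
  constructor
  · intro h d hd e he S hS hSd
    exact h S hS.1 hS.2 ⟨d, hd, hSd⟩ e he
  · intro h S h1 h2 h3 e he
    obtain ⟨d, hd, hSd⟩ := h3
    exact h d hd e he S ⟨h1, h2⟩ hSd

theorem polys_on {c : List (List D)} {m : List D} (hn : c.flatten.Nodup) (hm : m ∈ c) :
    m.Nodup ∧ ∀ x ∈ m, polys c x = m.formPerm x := by
  have h1 : c.Perm (m :: c.erase m) := List.perm_cons_erase hm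
  have h2 : (m :: c.erase m).flatten.Nodup := (List.Perm.flatten h1).nodup_iff.1 hn
  rw [List.flatten_cons, List.nodup_append] at h2
  refine ⟨h2.1, fun x hx => ?_⟩
  rw [polys_perm h1 hn, polys_cons, Perm.mul_apply, polys_notMem]
  intro h3
  exact h2.2.2 x hx x h3 rfl

theorem poly_rel {c : List (List D)} {α : Perm D} {m : List D} {x y : D} (hn : c.flatten.Nodup)
    (hm : m ∈ c) (hx : x ∈ m) (hy : y ∈ m) : Rl (polys c) α x y := by
  intro S hS hSx
  obtain ⟨hmn, hon⟩ := polys_on hn hm
  have h1 : m.formPerm.SameCycle x y :=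
    (List.Nodup.isCycleOn_formPerm hmn).2 hx hy
  obtain ⟨n, hnn⟩ := h1.exists_nat_pow_eq
  have h2 : ∀ k : ℕ, (m.formPerm ^ k) x ∈ m ∧ S ((m.formPerm ^ k) x) := by
    intro k
    induction k with
    | zero => rw [pow_zero]; exact ⟨hx, hSx⟩
    | succ k ih =>
      rw [pow_succ', Perm.mul_apply]
      refine ⟨List.formPerm_apply_mem_of_mem ih.1, ?_⟩
      rw [← hon _ ih.1]
      exact hS.1 _ ih.2
  rw [← hnn]
  exact (h2 n).2

theorem sub_conn {c q r : List (List D)} {β : Perm D} (hn : c.flatten.Nodup) (hp : c.Perm (q ++ r))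
    (hcl : ∀ d ∈ q.flatten, β d ∈ q.flatten) :
    Conn q β ↔ q ≠ [] ∧ (q.length = 1 ∨ [] ∉ q) ∧
      ∀ d ∈ q.flatten, ∀ e ∈ q.flatten, Rl (polys c) β d e := by
  have hon : ∀ d ∈ q.flatten, polys c d = polys q d := by
    intro d hd
    have h2 : (q ++ r).flatten.Nodup := (List.Perm.flatten hp).nodup_iff.1 hn
    rw [List.flatten_append, List.nodup_append] at h2
    rw [polys_perm hp hn, polys_append, Perm.mul_apply, polys_notMem (c := r)]
    intro h3
    exact h2.2.2 d hd d h3 rfl
  rw [Conn_iff]
  refine and_congr Iff.rfl (and_congr Iff.rfl ?_)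
  constructor
  · intro h d hd e he S hS hSd
    have h1 := h d hd e he (fun x => x ∈ q.flatten ∧ S x) ⟨?_, ?_⟩ ⟨hd, hSd⟩
    · exact h1.2
    · intro x hx
      refine ⟨polys_mem hx.1, ?_⟩
      rw [← hon x hx.1]
      exact hS.1 _ hx.2
    · intro x hx
      exact ⟨hcl x hx.1, hS.2 _ hx.2⟩
  · intro h d hd e he S hS hSd
    have h1 := h d hd e he (fun x => x ∈ q.flatten ∧ S x) ⟨?_, ?_⟩ ⟨hd, hSd⟩
    · exact h1.2
    · intro x hx
      rw [hon x hx.1]
      exact ⟨polys_mem hx.1, hS.1 _ hx.2⟩
    · intro x hx
      exact ⟨hcl x hx.1, hS.2 _ hx.2⟩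

/-- the closed set generated by a polygon -/
def Ac (c : List (List D)) (β : Perm D) (l : List D) (d : D) : Prop := ∃ x ∈ l, Rl (polys c) β x d

theorem cl_Ac (c : List (List D)) (β : Perm D) (l : List D) : Cl (polys c) β (Ac c β l) :=
  ⟨fun d ⟨x, hx, h⟩ => ⟨x, hx, (cl_Rl _ _ x).1 d h⟩, fun d ⟨x, hx, h⟩ => ⟨x, hx, (cl_Rl _ _ x).2 d h⟩⟩

theorem Ac_min {c : List (List D)} {β : Perm D} {l : List D} {S : D → Prop} (hS : Cl (polys c) β S)
    (h : ∀ x ∈ l, S x) {d : D} (hd : Ac c β l d) : S d := by
  obtain ⟨x, hx, h1⟩ := hd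
  exact h1 S hS (h x hx)

theorem Ac_nil {c : List (List D)} {β : Perm D} {d : D} : ¬ Ac c β [] d := by
  rintro ⟨x, hx, _⟩
  simp at hx

/-- connectedness of the big configuration -/
theorem conn_big {a b : D} {l1 l2 : List D} {cs : List (List D)} {α : Perm D}
    (hn : ((a :: (l1 ++ b :: l2)) :: cs).flatten.Nodup)
    (h : Mt ((a :: (l1 ++ b :: l2)) :: cs) α) (hab : α a = b) :
    Conn ((a :: (l1 ++ b :: l2)) :: cs) α ↔
      [] ∉ cs ∧ ∀ d ∈ (l1 :: l2 :: cs).flatten,
        Ac (l1 :: l2 :: cs) (swap a b * α) l1 d ∨ Ac (l1 :: l2 :: cs) (swap a b * α) l2 d := by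
  have hba : α b = a := by rw [← hab, h.1]
  have hn' := hn
  simp only [List.flatten_cons, List.cons_append, List.nodup_cons, List.mem_append, List.mem_cons,
    List.append_assoc, List.nodup_append, not_or] at hn'
  obtain ⟨⟨ha1, ha2, ha3, ha4⟩, hl1, ⟨⟨hb1, hb2⟩, hl2, hcs, hd2⟩, hd1⟩ := hn'
  have hb0 : b ∉ l1 := fun h' => hd1 b h' b (Or.inl rfl) rfl
  have hβ : ∀ d, d ≠ a → d ≠ b → (swap a b * α) d = α d := by
    intro d h1 h2
    rw [Perm.mul_apply]
    refine swap_apply_of_ne_of_ne ?_ ?_
    · intro h3
      apply h2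
      rw [← h.1 d, h3, hab]
    · intro h3
      apply h1
      rw [← h.1 d, h3, hba]
  have hn2 : (l1 :: l2 :: cs).flatten.Nodup := by
    simp only [List.flatten_cons, List.nodup_append, List.mem_append]
    refine ⟨hl1, ⟨hl2, hcs, hd2⟩, ?_⟩
    intro x hx y hy
    exact hd1 x hx y (Or.inr hy)
  have hcsb : ∀ d, d ∉ a :: (l1 ++ b :: l2) → polys ((a :: (l1 ++ b :: l2)) :: cs) d = polys cs d := by
    intro d hd
    rw [polys_cons, Perm.mul_apply]
    apply List.formPerm_apply_of_notMem
    intro h1
    by_cases h2 : d ∈ cs.flatten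
    · have h3 := polys_mem h2
      rw [List.flatten_cons, List.nodup_append] at hn
      exact hn.2.2 _ h1 _ h3 rfl
    · rw [polys_notMem h2] at h1
      exact hd h1
  have hcsb' : ∀ d, d ∉ l1 → d ∉ l2 → polys (l1 :: l2 :: cs) d = polys cs d := by
    intro d h1 h2
    rw [polys_cons, polys_cons, Perm.mul_apply, Perm.mul_apply]
    have h5 : polys cs d ∉ l2 ∧ polys cs d ∉ l1 := by
      by_cases h3 : d ∈ cs.flatten
      · have h4 := polys_mem h3
        refine ⟨fun h6 => hd2 _ h6 _ h4 rfl, fun h6 => hd1 _ h6 _ (Or.inr (Or.inr h4)) rfl⟩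
      · rw [polys_notMem h3]
        exact ⟨h2, h1⟩
    rw [List.formPerm_apply_of_notMem h5.1, List.formPerm_apply_of_notMem h5.2]
  have hmem : ∀ d, d ∈ ((a :: (l1 ++ b :: l2)) :: cs).flatten ↔
      d = a ∨ d = b ∨ d ∈ (l1 :: l2 :: cs).flatten := by
    intro d
    simp only [List.flatten_cons, List.mem_append, List.mem_cons]
    tauto
  rw [Conn_iff]
  constructor
  · rintro ⟨_, hlen, hrel⟩
    refine ⟨?_, ?_⟩
    · rcases hlen with h1 | h1
      · rw [List.length_cons] at h1
        have h2 : cs.length = 0 := by omega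
        rw [List.length_eq_zero_iff.1 h2]
        simp
      · intro h2
        exact h1 (List.mem_cons_of_mem _ h2)
    · intro e he
      have hea : e ≠ a := by
        rintro rfl
        simp only [List.flatten_cons, List.mem_append] at he
        tauto
      have heb : e ≠ b := by
        rintro rfl
        simp only [List.flatten_cons, List.mem_append] at he
        tauto
      have h1 := hrel a (by simp) e ((hmem e).2 (Or.inr (Or.inr he)))
        (fun d => (Ac (l1 :: l2 :: cs) (swap a b * α) l1 d ∨ Ac (l1 :: l2 :: cs) (swap a b * α) l2 d) ∨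
          d = a ∨ d = b) ⟨?_, ?_⟩ (Or.inr (Or.inl rfl))
      · rcases h1 with h1 | h1 | h1
        · exact h1
        · exact absurd h1 hea
        · exact absurd h1 heb
      · intro d hd
        by_cases hd1' : d ∈ a :: (l1 ++ b :: l2)
        · have h2 : polys ((a :: (l1 ++ b :: l2)) :: cs) d ∈ a :: (l1 ++ b :: l2) := by
            rw [(polys_on hn (List.mem_cons_self)).2 d hd1']
            exact List.formPerm_apply_mem_of_mem hd1'
          rw [List.mem_cons, List.mem_append, List.mem_cons] at h2
          rcases h2 with h2 | h2 | h2 | h2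
          · exact Or.inr (Or.inl h2)
          · exact Or.inl (Or.inl ⟨_, h2, Rl_refl _ _ _⟩)
          · exact Or.inr (Or.inr h2)
          · exact Or.inl (Or.inr ⟨_, h2, Rl_refl _ _ _⟩)
        · have hd2' := hd1'
          rw [List.mem_cons, List.mem_append, List.mem_cons, not_or, not_or, not_or] at hd2'
          rcases hd with hd | hd | hd
          · rw [hcsb d hd1', ← hcsb' d hd2'.2.1 hd2'.2.2.2]
            rcases hd with hd | hd
            · exact Or.inl (Or.inl ((cl_Ac _ _ _).1 _ hd))
            · exact Or.inl (Or.inr ((cl_Ac _ _ _).1 _ hd))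
          · exact absurd hd hd2'.1
          · exact absurd hd hd2'.2.2.1
      · intro d hd
        by_cases hda : d = a
        · rw [hda, hab]
          exact Or.inr (Or.inr rfl)
        by_cases hdb : d = b
        · rw [hdb, hba]
          exact Or.inr (Or.inl rfl)
        rw [← hβ d hda hdb]
        rcases hd with (hd | hd) | hd | hd
        · exact Or.inl (Or.inl ((cl_Ac _ _ _).2 _ hd))
        · exact Or.inl (Or.inr ((cl_Ac _ _ _).2 _ hd))
        · exact absurd hd hda
        · exact absurd hd hdb
  · rintro ⟨hne, hall⟩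
    refine ⟨by simp, Or.inr ?_, ?_⟩
    · rw [List.mem_cons, not_or]
      exact ⟨by simp, hne⟩
    · have key : ∀ e ∈ ((a :: (l1 ++ b :: l2)) :: cs).flatten,
          Rl (polys ((a :: (l1 ++ b :: l2)) :: cs)) α a e := by
        intro e he S hS hSa
        have hfirst : ∀ x ∈ a :: (l1 ++ b :: l2), S x := fun x hx =>
          poly_rel (α := α) hn (List.mem_cons_self) (List.mem_cons_self) hx S hS hSa
        have hT : Cl (polys (l1 :: l2 :: cs)) (swap a b * α) (fun d => S d ∧ d ≠ a ∧ d ≠ b) := by
          constructor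
          · intro d hd
            by_cases h1 : d ∈ l1
            · have h2 : polys (l1 :: l2 :: cs) d ∈ l1 := by
                rw [(polys_on hn2 (List.mem_cons_self)).2 d h1]
                exact List.formPerm_apply_mem_of_mem h1
              refine ⟨hfirst _ (by simp [h2]), ?_, ?_⟩
              · intro h3
                exact ha1 (h3 ▸ h2)
              · intro h3
                exact hb0 (h3 ▸ h2)
            by_cases h2 : d ∈ l2
            · have h3 : polys (l1 :: l2 :: cs) d ∈ l2 := by
                rw [(polys_on hn2 (List.mem_cons_of_mem _ (List.mem_cons_self))).2 d h2]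
                exact List.formPerm_apply_mem_of_mem h2
              refine ⟨hfirst _ (by simp [h3]), ?_, ?_⟩
              · intro h4
                exact ha3 (h4 ▸ h3)
              · intro h4
                exact hb1 (h4 ▸ h3)
            have h3 : d ∉ a :: (l1 ++ b :: l2) := by
              rw [List.mem_cons, List.mem_append, List.mem_cons, not_or, not_or, not_or]
              exact ⟨hd.2.1, h1, hd.2.2, h2⟩
            refine ⟨?_, ?_, ?_⟩
            · rw [hcsb' d h1 h2, ← hcsb d h3]
              exact hS.1 _ hd.1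
            · rw [hcsb' d h1 h2]
              by_cases h4 : d ∈ cs.flatten
              · intro h5
                exact ha4 (h5 ▸ polys_mem h4)
              · rw [polys_notMem h4]
                exact hd.2.1
            · rw [hcsb' d h1 h2]
              by_cases h4 : d ∈ cs.flatten
              · intro h5
                exact hb2 (h5 ▸ polys_mem h4)
              · rw [polys_notMem h4]
                exact hd.2.2
          · intro d hd
            rw [hβ d hd.2.1 hd.2.2]
            refine ⟨hS.2 _ hd.1, ?_, ?_⟩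
            · intro h3
              apply hd.2.2
              rw [← h.1 d, h3, hab]
            · intro h3
              apply hd.2.1
              rw [← h.1 d, h3, hba]
        rcases (hmem e).1 he with h1 | h1 | h1
        · rw [h1]
          exact hSa
        · rw [h1]
          exact hfirst b (by simp)
        · rcases hall e h1 with h2 | h2
          · refine (Ac_min hT ?_ h2).1
            intro x hx
            refine ⟨hfirst x (by simp [hx]), ?_, ?_⟩
            · rintro rfl
              exact ha1 hx
            · rintro rfl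
              exact hb0 hx
          · refine (Ac_min hT ?_ h2).1
            intro x hx
            refine ⟨hfirst x (by simp [hx]), ?_, ?_⟩
            · rintro rfl
              exact ha3 hx
            · rintro rfl
              exact hb1 hx
      intro d hd e he
      exact Rl_trans (Rl_symm (key d hd)) (key e he)

theorem TC_iff {l1 l2 : List D} {cs : List (List D)} {β : Perm D}
    (hn : (l1 :: l2 :: cs).flatten.Nodup) (h : Mt (l1 :: l2 :: cs) β) (hne : [] ∉ cs)
    {p : List (List D) × List (List D)} (hp : p ∈ splits cs) :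
    TC l1 l2 p β ↔
      ((∀ d ∈ (l1 :: l2 :: cs).flatten,
          Ac (l1 :: l2 :: cs) β l1 d ∨ Ac (l1 :: l2 :: cs) β l2 d) ∧
        (∀ d, Ac (l1 :: l2 :: cs) β l1 d → ¬ Ac (l1 :: l2 :: cs) β l2 d)) ∧
      (∀ m ∈ p.1, ∃ d ∈ m, Ac (l1 :: l2 :: cs) β l1 d) ∧
      (∀ m ∈ p.2, ¬ ∃ d ∈ m, Ac (l1 :: l2 :: cs) β l1 d) := by
  have hpp := splits_permA hp
  have hperm : (l1 :: l2 :: cs).Perm ((l1 :: p.1) ++ (l2 :: p.2)) := by
    rw [List.cons_append]
    refine List.Perm.cons _ ?_
    exact ((hpp.symm).cons l2).trans (List.perm_middle.symm)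
  have hperm' : (l1 :: l2 :: cs).Perm ((l2 :: p.2) ++ (l1 :: p.1)) :=
    hperm.trans List.perm_append_comm
  have hmem : ∀ d, d ∈ (l1 :: l2 :: cs).flatten ↔
      d ∈ (l1 :: p.1).flatten ∨ d ∈ (l2 :: p.2).flatten := by
    intro d
    rw [(List.Perm.flatten hperm).mem_iff, List.flatten_append, List.mem_append]
  have hdisj : ∀ d, d ∈ (l1 :: p.1).flatten → d ∉ (l2 :: p.2).flatten := by
    intro d h1 h2
    have h3 : ((l1 :: p.1) ++ (l2 :: p.2)).flatten.Nodup := (List.Perm.flatten hperm).nodup_iff.1 hn
    rw [List.flatten_append, List.nodup_append] at h3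
    exact h3.2.2 d h1 d h2 rfl
  have hβF : ∀ d, d ∈ (l1 :: l2 :: cs).flatten → β d ∈ (l1 :: l2 :: cs).flatten := by
    intro d hd
    by_contra h1
    have h2 := h.2.2 _ h1
    rw [h.1 d] at h2
    rw [← h2] at h1
    exact h1 hd
  have hcl2 : (∀ d ∈ (l1 :: p.1).flatten, β d ∈ (l1 :: p.1).flatten) →
      ∀ d ∈ (l2 :: p.2).flatten, β d ∈ (l2 :: p.2).flatten := by
    intro h1 d hd
    have h2 := hβF d ((hmem d).2 (Or.inr hd))
    rcases (hmem _).1 h2 with h3 | h3
    · have h4 := h1 _ h3
      rw [h.1 d] at h4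
      exact absurd hd (hdisj d h4)
    · exact h3
  have hon1 : ∀ d ∈ (l1 :: p.1).flatten, polys (l1 :: l2 :: cs) d ∈ (l1 :: p.1).flatten := by
    intro d hd
    rw [List.mem_flatten] at hd ⊢
    obtain ⟨m, hm, hdm⟩ := hd
    refine ⟨m, hm, ?_⟩
    rw [(polys_on hn (hperm.mem_iff.2 (List.mem_append_left _ hm))).2 d hdm]
    exact List.formPerm_apply_mem_of_mem hdm
  have hon2 : ∀ d ∈ (l2 :: p.2).flatten, polys (l1 :: l2 :: cs) d ∈ (l2 :: p.2).flatten := by
    intro d hd
    rw [List.mem_flatten] at hd ⊢
    obtain ⟨m, hm, hdm⟩ := hd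
    refine ⟨m, hm, ?_⟩
    rw [(polys_on hn (hperm.mem_iff.2 (List.mem_append_right _ hm))).2 d hdm]
    exact List.formPerm_apply_mem_of_mem hdm
  have hne1 : [] ∉ p.1 := fun h1 => hne (hpp.mem_iff.1 (List.mem_append_left _ h1))
  have hne2 : [] ∉ p.2 := fun h1 => hne (hpp.mem_iff.1 (List.mem_append_right _ h1))
  constructor
  · rintro ⟨hcl, hc1, hc2⟩
    rw [sub_conn hn hperm hcl] at hc1
    rw [sub_conn hn hperm' (hcl2 hcl)] at hc2
    have hA1 : ∀ d, d ∈ (l1 :: p.1).flatten ↔ Ac (l1 :: l2 :: cs) β l1 d := by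
      intro d
      constructor
      · intro hd
        have hl : l1 ≠ [] := by
          rintro rfl
          rcases hc1.2.1 with h1 | h1
          · rw [List.length_cons] at h1
            have h2 : p.1.length = 0 := by omega
            rw [List.length_eq_zero_iff.1 h2] at hd
            simp at hd
          · exact h1 (List.mem_cons_self)
        obtain ⟨x, hx⟩ := List.exists_mem_of_ne_nil _ hl
        exact ⟨x, hx, hc1.2.2 x (by rw [List.flatten_cons]; exact List.mem_append_left _ hx) d hd⟩
      · exact Ac_min (S := fun d => d ∈ (l1 :: p.1).flatten) ⟨hon1, hcl⟩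
          (fun x hx => by rw [List.flatten_cons]; exact List.mem_append_left _ hx)
    have hA2 : ∀ d, d ∈ (l2 :: p.2).flatten ↔ Ac (l1 :: l2 :: cs) β l2 d := by
      intro d
      constructor
      · intro hd
        have hl : l2 ≠ [] := by
          rintro rfl
          rcases hc2.2.1 with h1 | h1
          · rw [List.length_cons] at h1
            have h2 : p.2.length = 0 := by omega
            rw [List.length_eq_zero_iff.1 h2] at hd
            simp at hd
          · exact h1 (List.mem_cons_self)
        obtain ⟨x, hx⟩ := List.exists_mem_of_ne_nil _ hl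
        exact ⟨x, hx, hc2.2.2 x (by rw [List.flatten_cons]; exact List.mem_append_left _ hx) d hd⟩
      · exact Ac_min (S := fun d => d ∈ (l2 :: p.2).flatten) ⟨hon2, hcl2 hcl⟩
          (fun x hx => by rw [List.flatten_cons]; exact List.mem_append_left _ hx)
    refine ⟨⟨?_, ?_⟩, ?_, ?_⟩
    · intro d hd
      rw [← hA1, ← hA2]
      exact (hmem d).1 hd
    · intro d hd
      rw [← hA1] at hd
      rw [← hA2]
      exact hdisj d hd
    · intro m hm
      have hm0 : m ≠ [] := fun h1 => hne1 (h1 ▸ hm)
      obtain ⟨x, hx⟩ := List.exists_mem_of_ne_nil _ hm0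
      refine ⟨x, hx, (hA1 x).1 ?_⟩
      rw [List.mem_flatten]
      exact ⟨m, List.mem_cons_of_mem _ hm, hx⟩
    · rintro m hm ⟨d, hd, hd'⟩
      rw [← hA1] at hd'
      apply hdisj d hd'
      rw [List.mem_flatten]
      exact ⟨m, List.mem_cons_of_mem _ hm, hd⟩
  · rintro ⟨⟨hall, hdj⟩, hq1, hq2⟩
    have hA1 : ∀ d, d ∈ (l1 :: p.1).flatten → Ac (l1 :: l2 :: cs) β l1 d := by
      intro d hd
      rw [List.mem_flatten] at hd
      obtain ⟨m, hm, hdm⟩ := hd
      rcases List.mem_cons.1 hm with h1 | h1
      · subst h1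
        exact ⟨d, hdm, Rl_refl _ _ _⟩
      · obtain ⟨x, hx, hAx⟩ := hq1 m h1
        exact poly_rel (α := β) hn (hperm.mem_iff.2 (List.mem_append_left _ hm)) hx hdm _
          (cl_Ac _ _ _) hAx
    have hA2 : ∀ d, d ∈ (l2 :: p.2).flatten → Ac (l1 :: l2 :: cs) β l2 d := by
      intro d hd
      have hdF := (hmem d).2 (Or.inr hd)
      rw [List.mem_flatten] at hd
      obtain ⟨m, hm, hdm⟩ := hd
      rcases List.mem_cons.1 hm with h1 | h1
      · subst h1
        exact ⟨d, hdm, Rl_refl _ _ _⟩
      · rcases hall d hdF with h2 | h2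
        · exact absurd ⟨d, hdm, h2⟩ (hq2 m h1)
        · exact h2
    have hcl : ∀ d ∈ (l1 :: p.1).flatten, β d ∈ (l1 :: p.1).flatten := by
      intro d hd
      have h1 := hβF d ((hmem d).2 (Or.inl hd))
      rcases (hmem _).1 h1 with h2 | h2
      · exact h2
      · exact absurd (hA2 _ h2) (hdj _ ((cl_Ac _ _ _).2 _ (hA1 d hd)))
    refine ⟨hcl, ?_, ?_⟩
    · rw [sub_conn hn hperm hcl]
      refine ⟨by simp, ?_, ?_⟩
      · by_cases hl : l1 = []
        · left
          subst hl
          rw [List.length_cons]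
          have h2 : p.1 = [] := by
            by_contra h3
            obtain ⟨m, hm⟩ := List.exists_mem_of_ne_nil _ h3
            obtain ⟨x, _, hAx⟩ := hq1 m hm
            exact Ac_nil hAx
          rw [h2]
          rfl
        · right
          rw [List.mem_cons, not_or]
          exact ⟨fun h1 => hl h1.symm, hne1⟩
      · intro d hd e he
        obtain ⟨x, hx, h1⟩ := hA1 d hd
        obtain ⟨y, hy, h2⟩ := hA1 e he
        have h3 : Rl (polys (l1 :: l2 :: cs)) β x y :=
          poly_rel hn (List.mem_cons_self) hx hy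
        exact Rl_trans (Rl_symm h1) (Rl_trans h3 h2)
    · rw [sub_conn hn hperm' (hcl2 hcl)]
      refine ⟨by simp, ?_, ?_⟩
      · by_cases hl : l2 = []
        · left
          subst hl
          rw [List.length_cons]
          have h2 : p.2 = [] := by
            by_contra h3
            obtain ⟨m, hm⟩ := List.exists_mem_of_ne_nil _ h3
            have hm0 : m ≠ [] := fun h1 => hne2 (h1 ▸ hm)
            obtain ⟨x, hx⟩ := List.exists_mem_of_ne_nil _ hm0
            refine Ac_nil (hA2 x ?_)
            rw [List.mem_flatten]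
            exact ⟨m, List.mem_cons_of_mem _ hm, hx⟩
          rw [h2]
          rfl
        · right
          rw [List.mem_cons, not_or]
          exact ⟨fun h1 => hl h1.symm, hne2⟩
      · intro d hd e he
        obtain ⟨x, hx, h1⟩ := hA2 d hd
        obtain ⟨y, hy, h2⟩ := hA2 e he
        have h3 : Rl (polys (l1 :: l2 :: cs)) β x y :=
          poly_rel hn (List.mem_cons_of_mem _ (List.mem_cons_self)) hx hy
        exact Rl_trans (Rl_symm h1) (Rl_trans h3 h2)

theorem conn_small {l1 l2 : List D} {cs : List (List D)} {β : Perm D}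
    (hn : (l1 :: l2 :: cs).flatten.Nodup) :
    Conn (l1 :: l2 :: cs) β ↔ [] ∉ cs ∧
      (∀ d ∈ (l1 :: l2 :: cs).flatten,
          Ac (l1 :: l2 :: cs) β l1 d ∨ Ac (l1 :: l2 :: cs) β l2 d) ∧
        ¬ (∀ d, Ac (l1 :: l2 :: cs) β l1 d → ¬ Ac (l1 :: l2 :: cs) β l2 d) := by
  rw [Conn_iff]
  constructor
  · rintro ⟨_, hlen, hrel⟩
    have h1 : [] ∉ l1 :: l2 :: cs := by
      rcases hlen with h1 | h1
      · rw [List.length_cons, List.length_cons] at h1
        omega
      · exact h1
    rw [List.mem_cons, List.mem_cons, not_or, not_or] at h1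
    obtain ⟨x, hx⟩ := List.exists_mem_of_ne_nil _ (Ne.symm h1.1)
    obtain ⟨y, hy⟩ := List.exists_mem_of_ne_nil _ (Ne.symm h1.2.1)
    have hxF : x ∈ (l1 :: l2 :: cs).flatten := by
      rw [List.flatten_cons]
      exact List.mem_append_left _ hx
    have hyF : y ∈ (l1 :: l2 :: cs).flatten := by
      rw [List.flatten_cons, List.flatten_cons]
      exact List.mem_append_right _ (List.mem_append_left _ hy)
    refine ⟨h1.2.2, fun d hd => Or.inl ⟨x, hx, hrel x hxF d hd⟩, fun h2 => ?_⟩
    exact h2 x ⟨x, hx, Rl_refl _ _ _⟩ ⟨y, hy, hrel y hyF x hxF⟩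
  · rintro ⟨hne, hall, hmeet⟩
    push Not at hmeet
    obtain ⟨z, ⟨x, hx, hxz⟩, ⟨y, hy, hyz⟩⟩ := hmeet
    refine ⟨by simp, Or.inr ?_, ?_⟩
    · rw [List.mem_cons, List.mem_cons, not_or, not_or]
      refine ⟨?_, ?_, hne⟩
      · intro h1
        rw [← h1] at hx
        simp at hx
      · intro h1
        rw [← h1] at hy
        simp at hy
    · have key : ∀ d ∈ (l1 :: l2 :: cs).flatten, Rl (polys (l1 :: l2 :: cs)) β z d := by
        intro d hd
        rcases hall d hd with ⟨w, hw, h1⟩ | ⟨w, hw, h1⟩
        · have h3 : Rl (polys (l1 :: l2 :: cs)) β x w := poly_rel hn (List.mem_cons_self) hx hw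
          exact Rl_trans (Rl_symm hxz) (Rl_trans h3 h1)
        · have h3 : Rl (polys (l1 :: l2 :: cs)) β y w :=
            poly_rel hn (List.mem_cons_of_mem _ (List.mem_cons_self)) hy hw
          exact Rl_trans (Rl_symm hyz) (Rl_trans h3 h1)
      intro d hd e he
      exact Rl_trans (Rl_symm (key d hd)) (key e he)

theorem TC_empty {l1 l2 : List D} {cs : List (List D)} {β : Perm D} (hne : [] ∈ cs)
    {p : List (List D) × List (List D)} (hp : p ∈ splits cs) : ¬ TC l1 l2 p β := by
  rintro ⟨_, hc1, hc2⟩
  have hpp := splits_permA hp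
  rcases List.mem_append.1 (hpp.mem_iff.2 hne) with h1 | h1
  · rcases hc1.2.1 with h2 | h2
    · rw [List.length_cons] at h2
      have h3 : p.1.length = 0 := by omega
      rw [List.length_eq_zero_iff.1 h3] at h1
      simp at h1
    · exact h2 (List.mem_cons_of_mem _ h1)
  · rcases hc2.2.1 with h2 | h2
    · rw [List.length_cons] at h2
      have h3 : p.2.length = 0 := by omega
      rw [List.length_eq_zero_iff.1 h3] at h1
      simp at h1
    · exact h2 (List.mem_cons_of_mem _ h1)

open Classical in
theorem conA {a b : D} {l1 l2 : List D} {cs : List (List D)} {α : Perm D}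
    (hn : ((a :: (l1 ++ b :: l2)) :: cs).flatten.Nodup)
    (h : Mt ((a :: (l1 ++ b :: l2)) :: cs) α) (hab : α a = b) :
    (if Conn ((a :: (l1 ++ b :: l2)) :: cs) α then (1 : ℕ) else 0) =
      (if Conn (l1 :: l2 :: cs) (swap a b * α) then 1 else 0) +
      ((splits cs).map fun p => if TC l1 l2 p (swap a b * α) then 1 else 0).sum := by
  have hMt := redA_mt hn h hab
  have hn2 : (l1 :: l2 :: cs).flatten.Nodup := by
    have hn' := hn
    simp only [List.flatten_cons, List.cons_append, List.nodup_cons, List.mem_append, List.mem_cons,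
      List.append_assoc, List.nodup_append, not_or] at hn'
    obtain ⟨⟨ha1, ha2, ha3, ha4⟩, hl1, ⟨⟨hb1, hb2⟩, hl2, hcs, hd2⟩, hd1⟩ := hn'
    simp only [List.flatten_cons, List.nodup_append, List.mem_append]
    refine ⟨hl1, ⟨hl2, hcs, hd2⟩, ?_⟩
    intro x hx y hy
    exact hd1 x hx y (Or.inr hy)
  rw [conn_big hn h hab, conn_small hn2]
  by_cases hne : [] ∈ cs
  · rw [if_neg (fun h1 => h1.1 hne), if_neg (fun h1 => h1.1 hne)]
    have h1 : ((splits cs).map fun p => if TC l1 l2 p (swap a b * α) then (1 : ℕ) else 0) =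
        (splits cs).map fun _ => 0 :=
      List.map_congr_left fun p hp => if_neg (TC_empty hne hp)
    rw [h1]
    simp
  · by_cases hall : ∀ d ∈ (l1 :: l2 :: cs).flatten,
        Ac (l1 :: l2 :: cs) (swap a b * α) l1 d ∨ Ac (l1 :: l2 :: cs) (swap a b * α) l2 d
    · rw [if_pos ⟨hne, hall⟩]
      by_cases hdj : ∀ d, Ac (l1 :: l2 :: cs) (swap a b * α) l1 d →
          ¬ Ac (l1 :: l2 :: cs) (swap a b * α) l2 d
      · rw [if_neg (fun h1 => h1.2.2 hdj), zero_add]
        have h1 : ((splits cs).map fun p => if TC l1 l2 p (swap a b * α) then (1 : ℕ) else 0) =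
            (splits cs).map fun p =>
              if (∀ m ∈ p.1, ∃ d ∈ m, Ac (l1 :: l2 :: cs) (swap a b * α) l1 d) ∧
                (∀ m ∈ p.2, ¬ ∃ d ∈ m, Ac (l1 :: l2 :: cs) (swap a b * α) l1 d) then (1 : ℕ) else 0 := by
          refine List.map_congr_left fun p hp => ?_
          refine if_congr ?_ rfl rfl
          rw [TC_iff hn2 hMt hne hp]
          exact and_iff_right ⟨hall, hdj⟩
        rw [h1]
        exact (split_unique cs fun m => ∃ d ∈ m, Ac (l1 :: l2 :: cs) (swap a b * α) l1 d).symm
      · rw [if_pos ⟨hne, hall, hdj⟩]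
        have h1 : ((splits cs).map fun p => if TC l1 l2 p (swap a b * α) then (1 : ℕ) else 0) =
            (splits cs).map fun _ => 0 := by
          refine List.map_congr_left fun p hp => if_neg ?_
          rw [TC_iff hn2 hMt hne hp]
          exact fun h2 => hdj h2.1.2
        rw [h1]
        simp
    · rw [if_neg (fun h1 => hall h1.2), if_neg (fun h1 => hall h1.2.1)]
      have h1 : ((splits cs).map fun p => if TC l1 l2 p (swap a b * α) then (1 : ℕ) else 0) =
          (splits cs).map fun _ => 0 := by
        refine List.map_congr_left fun p hp => if_neg ?_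
        rw [TC_iff hn2 hMt hne hp]
        exact fun h2 => hall h2.1.1
      rw [h1]
      simp

end UN39
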