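import Mathlib
import Pool.Agent.H39.HG.Defs
import Pool.Agent.H39.UN.Num
import Pool.Agent.H39.UN.Pol
import Pool.Agent.H39.UN.RedA
import Pool.Agent.H39.UN.ConA

/-!
[H39 UN CONB]  (MP_bcc40c_pr)  Connectedness after the removal of a glued pair of TWO polygons.

`c = (a :: l) :: (m1 ++ b :: m2) :: cs`, `α a = b`, `β = swap a b * α`,
`c' = (l ++ (m2 ++ m1)) :: cs`: `Conn c α ↔ Conn c' β`.

PROOF.  If `[] ∈ cs`: both sides are false (`c`, `c'` have length >= 2).  Let `[] ∉ cs`.
If `l ++ (m2 ++ m1) = []`: `Conn c' β` iff `cs = []`; then `c = [[a], [b]]`, `α a = b`: `Conn c α`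
holds (a closed set containing `a` or `b` contains both).  If `cs ≠ []` (and `c = [a] :: [b] :: cs`)
then the set `{a, b}` is closed under `polys c` (fixes `a`, `b`) and `α` and misses the darts of `cs`
(nonempty), so `Conn c α` is false; `Conn c' β` is false because `[] ∈ c'` and the length is >= 2.
Let `w = l ++ (m2 ++ m1) ≠ []`.  A closed set `S` for `(c, α)` which contains a dart of `a :: l` or of
`m1 ++ b :: m2` contains both polygons (each is one cycle of `polys c`, and `α a = b`); then
`S \ {a, b}` is closed for `(c', β)`: it contains all of `w`, the darts outside are moved in the same way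
by `polys c` and `polys c'`, and `β = α` outside `{a, b}`.  If it is disjoint from both it is closed
for `(c', β)`.  Conversely for a closed set `S'` for `(c', β)`: if it contains a dart of `w`, it
contains `w`, and `S' ∪ {a, b}` is closed for `(c, α)`; if not, remove `a`, `b` from it (they are fixed
by `β` and `polys c'`): the rest is closed for `(c, α)`.  So the statement `every closed set meeting
the darts contains all darts` is equivalent for `c` and `c'` (in the direction from `c'` to `c`: if `S`
is closed for `(c, α)` and meets `c.flatten`, then it meets `c'.flatten` or is `⊆ {a, b}`, in which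
case it contains both polygons, so `w = []`).
-/

set_option autoImplicit false

namespace UN39

open Equiv HG39

variable {D : Type} [Fintype D] [DecidableEq D]

theorem conB {a b : D} {l m1 m2 : List D} {cs : List (List D)} {α : Perm D}
    (hn : ((a :: l) :: (m1 ++ b :: m2) :: cs).flatten.Nodup)
    (h : Mt ((a :: l) :: (m1 ++ b :: m2) :: cs) α) (hab : α a = b) :
    Conn ((a :: l) :: (m1 ++ b :: m2) :: cs) α ↔
      Conn ((l ++ (m2 ++ m1)) :: cs) (swap a b * α) := by
  have hba : α b = a := by rw [← hab, h.1]
  have hn' := hn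
  simp only [List.flatten_cons, List.cons_append, List.nodup_cons, List.mem_append, List.mem_cons,
    List.append_assoc, List.nodup_append, not_or] at hn'
  obtain ⟨⟨ha1, ha2, ha3, ha4, ha5⟩, hl, ⟨hm1, ⟨⟨hb1, hb2⟩, hm2, hcs, hd3⟩, hd2⟩, hd1⟩ := hn'
  have hb0 : b ∉ l := fun h' => hd1 b h' b (Or.inr (Or.inl rfl)) rfl
  have hb3 : b ∉ m1 := fun h' => hd2 b h' b (Or.inl rfl) rfl
  have hβ : ∀ d, d ≠ a → d ≠ b → (swap a b * α) d = α d := by
    intro d h1 h2
    rw [Perm.mul_apply]
    refine swap_apply_of_ne_of_ne ?_ ?_
    · intro h3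
      apply h2
      rw [← h.1 d, h3, hab]
    · intro h3
      apply h1
      rw [← h.1 d, h3, hba]
  have hβa : ∀ d, d ≠ a → d ≠ b → α d ≠ a ∧ α d ≠ b := by
    intro d h1 h2
    refine ⟨?_, ?_⟩
    · intro h3
      apply h2
      rw [← h.1 d, h3, hab]
    · intro h3
      apply h1
      rw [← h.1 d, h3, hba]
  have hn2 : ((l ++ (m2 ++ m1)) :: cs).flatten.Nodup := by
    simp only [List.flatten_cons, List.nodup_append, List.mem_append]
    refine ⟨⟨hl, ⟨hm2, hm1, ?_⟩, ?_⟩, hcs, ?_⟩
    · intro x hx y hy hxy
      exact hd2 y hy x (Or.inr (Or.inl hx)) hxy.symm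
    · rintro x hx y (hy | hy)
      · exact hd1 x hx y (Or.inr (Or.inr (Or.inl hy)))
      · exact hd1 x hx y (Or.inl hy)
    · rintro x (hx | hx | hx) y hy
      · exact hd1 x hx y (Or.inr (Or.inr (Or.inr hy)))
      · exact hd3 x hx y hy
      · exact hd2 x hx y (Or.inr (Or.inr hy))
  have hmem : ∀ d, d ∈ ((a :: l) :: (m1 ++ b :: m2) :: cs).flatten ↔
      d = a ∨ d = b ∨ d ∈ ((l ++ (m2 ++ m1)) :: cs).flatten := by
    intro d
    simp only [List.flatten_cons, List.mem_append, List.mem_cons]
    tauto
  have hne : ∀ d, d ∈ ((l ++ (m2 ++ m1)) :: cs).flatten → d ≠ a ∧ d ≠ b := by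
    intro d hd
    simp only [List.flatten_cons, List.mem_append] at hd
    refine ⟨?_, ?_⟩
    · rintro rfl
      tauto
    · rintro rfl
      tauto
  -- the darts outside of the two polygons
  have hout : ∀ d, d ∉ a :: l → d ∉ m1 ++ b :: m2 →
      polys ((a :: l) :: (m1 ++ b :: m2) :: cs) d = polys cs d ∧
      polys ((l ++ (m2 ++ m1)) :: cs) d = polys cs d ∧
      (d ≠ a → d ≠ b → polys cs d ≠ a ∧ polys cs d ≠ b) := by
    intro d h1 h2
    have h5 : polys cs d ∉ a :: l ∧ polys cs d ∉ m1 ++ b :: m2 := by
      by_cases h3 : d ∈ cs.flatten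
      · have h4 := polys_mem h3
        rw [List.flatten_cons, List.flatten_cons, List.nodup_append, List.nodup_append] at hn
        exact ⟨fun h6 => hn.2.2 _ h6 _ (List.mem_append_right _ h4) rfl,
          fun h6 => hn.2.1.2.2 _ h6 _ h4 rfl⟩
      · rw [polys_notMem h3]
        exact ⟨h1, h2⟩
    refine ⟨?_, ?_, ?_⟩
    · rw [polys_cons, polys_cons, Perm.mul_apply, Perm.mul_apply,
        List.formPerm_apply_of_notMem h5.2, List.formPerm_apply_of_notMem h5.1]
    · rw [polys_cons, Perm.mul_apply]
      apply List.formPerm_apply_of_notMem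
      have h6 := h5.1
      have h7 := h5.2
      rw [List.mem_cons] at h6
      rw [List.mem_append, List.mem_cons] at h7
      rw [List.mem_append, List.mem_append]
      tauto
    · intro _ _
      have h6 := h5.1
      have h7 := h5.2
      rw [List.mem_cons] at h6
      rw [List.mem_append, List.mem_cons] at h7
      tauto
  have hP1 : ∀ d ∈ a :: l, polys ((a :: l) :: (m1 ++ b :: m2) :: cs) d ∈ a :: l := by
    intro d hd
    rw [(polys_on hn (List.mem_cons_self)).2 d hd]
    exact List.formPerm_apply_mem_of_mem hd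
  have hP2 : ∀ d ∈ m1 ++ b :: m2,
      polys ((a :: l) :: (m1 ++ b :: m2) :: cs) d ∈ m1 ++ b :: m2 := by
    intro d hd
    rw [(polys_on hn (List.mem_cons_of_mem _ (List.mem_cons_self))).2 d hd]
    exact List.formPerm_apply_mem_of_mem hd
  have hP' : ∀ d ∈ l ++ (m2 ++ m1), polys ((l ++ (m2 ++ m1)) :: cs) d ∈ l ++ (m2 ++ m1) := by
    intro d hd
    rw [(polys_on hn2 (List.mem_cons_self)).2 d hd]
    exact List.formPerm_apply_mem_of_mem hd
  -- a closed set for the big configuration which contains `a`
  have hbig : ∀ S, Cl (polys ((a :: l) :: (m1 ++ b :: m2) :: cs)) α S → S a →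
      S b ∧ (∀ x ∈ l ++ (m2 ++ m1), S x) ∧
      Cl (polys ((l ++ (m2 ++ m1)) :: cs)) (swap a b * α) (fun d => S d ∧ d ≠ a ∧ d ≠ b) := by
    intro S hS hSa
    have hSb : S b := by
      rw [← hab]
      exact hS.2 _ hSa
    have h1 : ∀ x ∈ a :: l, S x := fun x hx =>
      poly_rel (α := α) hn (List.mem_cons_self) (List.mem_cons_self) hx S hS hSa
    have h2 : ∀ x ∈ m1 ++ b :: m2, S x := fun x hx =>
      poly_rel (α := α) hn (List.mem_cons_of_mem _ (List.mem_cons_self)) (by simp) hx S hS hSb
    have h3 : ∀ x ∈ l ++ (m2 ++ m1), S x := by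
      intro x hx
      rw [List.mem_append, List.mem_append] at hx
      rcases hx with hx | hx | hx
      · exact h1 x (by simp [hx])
      · exact h2 x (by simp [hx])
      · exact h2 x (by simp [hx])
    refine ⟨hSb, h3, ?_, ?_⟩
    · intro d hd
      by_cases h4 : d ∈ l ++ (m2 ++ m1)
      · have h5 := hP' d h4
        refine ⟨h3 _ h5, hne _ ?_⟩
        rw [List.flatten_cons]
        exact List.mem_append_left _ h5
      · rw [List.mem_append, List.mem_append, not_or, not_or] at h4
        have h5 : d ∉ a :: l := by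
          rw [List.mem_cons, not_or]
          exact ⟨hd.2.1, h4.1⟩
        have h6 : d ∉ m1 ++ b :: m2 := by
          rw [List.mem_append, List.mem_cons, not_or, not_or]
          exact ⟨h4.2.2, hd.2.2, h4.2.1⟩
        obtain ⟨h7, h8, h9⟩ := hout d h5 h6
        refine ⟨?_, ?_⟩
        · rw [h8, ← h7]
          exact hS.1 _ hd.1
        · rw [h8]
          exact h9 hd.2.1 hd.2.2
    · intro d hd
      rw [hβ d hd.2.1 hd.2.2]
      exact ⟨hS.2 _ hd.1, hβa d hd.2.1 hd.2.2⟩
  -- a closed set for the small configuration
  have hsmall : ∀ S, Cl (polys ((l ++ (m2 ++ m1)) :: cs)) (swap a b * α) S →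
      Cl (polys ((a :: l) :: (m1 ++ b :: m2) :: cs)) α
        (fun d => (S d ∧ d ≠ a ∧ d ≠ b) ∨ ((d = a ∨ d = b) ∧ ∀ x ∈ l ++ (m2 ++ m1), S x)) := by
    intro S hS
    have hw : ∀ x ∈ l ++ (m2 ++ m1), S x → ∀ y ∈ l ++ (m2 ++ m1), S y := fun x hx hSx y hy =>
      poly_rel (α := swap a b * α) hn2 (List.mem_cons_self) hx hy S hS hSx
    have hin : (∀ x ∈ l ++ (m2 ++ m1), S x) → ∀ d, d ∈ a :: l ∨ d ∈ m1 ++ b :: m2 →
        ((S d ∧ d ≠ a ∧ d ≠ b) ∨ ((d = a ∨ d = b) ∧ ∀ x ∈ l ++ (m2 ++ m1), S x)) := by
      intro h1 d hd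
      by_cases h2 : d = a
      · exact Or.inr ⟨Or.inl h2, h1⟩
      by_cases h3 : d = b
      · exact Or.inr ⟨Or.inr h3, h1⟩
      refine Or.inl ⟨h1 d ?_, h2, h3⟩
      rw [List.mem_cons, List.mem_append, List.mem_cons] at hd
      rw [List.mem_append, List.mem_append]
      tauto
    constructor
    · intro d hd
      by_cases h1 : d ∈ a :: l
      · have h2 : ∀ x ∈ l ++ (m2 ++ m1), S x := by
          rcases hd with hd | hd
          · refine hw d ?_ hd.1
            rw [List.mem_cons] at h1
            rw [List.mem_append]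
            tauto
          · exact hd.2
        exact hin h2 _ (Or.inl (hP1 d h1))
      by_cases h1' : d ∈ m1 ++ b :: m2
      · have h2 : ∀ x ∈ l ++ (m2 ++ m1), S x := by
          rcases hd with hd | hd
          · refine hw d ?_ hd.1
            rw [List.mem_append, List.mem_cons] at h1'
            rw [List.mem_append, List.mem_append]
            tauto
          · exact hd.2
        exact hin h2 _ (Or.inr (hP2 d h1'))
      obtain ⟨h7, h8, h9⟩ := hout d h1 h1'
      rcases hd with hd | hd
      · left
        refine ⟨?_, ?_⟩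
        · rw [h7, ← h8]
          exact hS.1 _ hd.1
        · rw [h7]
          exact h9 hd.2.1 hd.2.2
      · exfalso
        rcases hd.1 with rfl | rfl
        · exact h1 (List.mem_cons_self)
        · exact h1' (by simp)
    · intro d hd
      rcases hd with hd | hd
      · left
        refine ⟨?_, hβa d hd.2.1 hd.2.2⟩
        rw [← hβ d hd.2.1 hd.2.2]
        exact hS.2 _ hd.1
      · right
        refine ⟨?_, hd.2⟩
        rcases hd.1 with rfl | rfl
        · exact Or.inr hab
        · exact Or.inl hba
  rw [Conn_iff, Conn_iff]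
  by_cases hw : l ++ (m2 ++ m1) = []
  · -- both polygons are single sides
    constructor
    · rintro ⟨_, hlen, hrel⟩
      have hne' : [] ∉ cs := by
        intro h1
        rcases hlen with h2 | h2
        · rw [List.length_cons, List.length_cons] at h2
          omega
        · exact h2 (List.mem_cons_of_mem _ (List.mem_cons_of_mem _ h1))
      have hcs0 : cs = [] := by
        by_contra h1
        obtain ⟨m, hm⟩ := List.exists_mem_of_ne_nil _ h1
        have hm0 : m ≠ [] := fun h2 => hne' (h2 ▸ hm)
        obtain ⟨x, hx⟩ := List.exists_mem_of_ne_nil _ hm0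
        have hxF : x ∈ ((l ++ (m2 ++ m1)) :: cs).flatten := by
          rw [List.mem_flatten]
          exact ⟨m, List.mem_cons_of_mem _ hm, hx⟩
        have h2 := hrel a (by simp) x ((hmem x).2 (Or.inr (Or.inr hxF))) _
          (hsmall (fun _ => False) ⟨fun _ h3 => h3, fun _ h3 => h3⟩)
          (Or.inr ⟨Or.inl rfl, fun y hy => by rw [hw] at hy; simp at hy⟩)
        have h3 := hne x hxF
        rcases h2 with h2 | h2
        · exact h2.1
        · rcases h2.1 with h4 | h4
          · exact h3.1 h4
          · exact h3.2 h4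
      subst hcs0
      refine ⟨by simp, Or.inl rfl, ?_⟩
      intro d hd
      rw [hw] at hd
      simp at hd
    · rintro ⟨_, hlen, hrel⟩
      have hcs0 : cs = [] := by
        rcases hlen with h2 | h2
        · rw [List.length_cons] at h2
          exact List.length_eq_zero_iff.1 (by omega)
        · exact absurd (by rw [hw]; exact List.mem_cons_self) h2
      subst hcs0
      refine ⟨by simp, Or.inr (by simp), ?_⟩
      have key : ∀ e ∈ ((a :: l) :: (m1 ++ b :: m2) :: []).flatten,
          Rl (polys ((a :: l) :: (m1 ++ b :: m2) :: [])) α a e := by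
        intro e he S hS hSa
        rcases (hmem e).1 he with h1 | h1 | h1
        · rw [h1]
          exact hSa
        · rw [h1]
          exact (hbig S hS hSa).1
        · rw [hw] at h1
          simp at h1
      intro d hd e he
      exact Rl_trans (Rl_symm (key d hd)) (key e he)
  · obtain ⟨x, hx⟩ := List.exists_mem_of_ne_nil _ hw
    have hxF : x ∈ ((l ++ (m2 ++ m1)) :: cs).flatten := by
      rw [List.flatten_cons]
      exact List.mem_append_left _ hx
    constructor
    · rintro ⟨_, hlen, hrel⟩
      refine ⟨by simp, Or.inr ?_, ?_⟩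
      · rw [List.mem_cons, not_or]
        refine ⟨fun h1 => hw h1.symm, ?_⟩
        intro h1
        rcases hlen with h2 | h2
        · rw [List.length_cons, List.length_cons] at h2
          omega
        · exact h2 (List.mem_cons_of_mem _ (List.mem_cons_of_mem _ h1))
      · intro d hd e he S hS hSd
        have h1 := hrel d ((hmem d).2 (Or.inr (Or.inr hd))) e ((hmem e).2 (Or.inr (Or.inr he))) _
          (hsmall S hS) (Or.inl ⟨hSd, hne d hd⟩)
        rcases h1 with h1 | h1
        · exact h1.1
        · rcases h1.1 with h2 | h2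
          · exact absurd h2 (hne e he).1
          · exact absurd h2 (hne e he).2
    · rintro ⟨_, hlen, hrel⟩
      have hne' : [] ∉ cs := by
        intro h1
        rcases hlen with h2 | h2
        · rw [List.length_cons] at h2
          have h3 : cs = [] := List.length_eq_zero_iff.1 (by omega)
          rw [h3] at h1
          simp at h1
        · exact h2 (List.mem_cons_of_mem _ h1)
      refine ⟨by simp, Or.inr ?_, ?_⟩
      · rw [List.mem_cons, List.mem_cons, not_or, not_or]
        exact ⟨by simp, by simp, hne'⟩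
      · have key : ∀ e ∈ ((a :: l) :: (m1 ++ b :: m2) :: cs).flatten,
            Rl (polys ((a :: l) :: (m1 ++ b :: m2) :: cs)) α a e := by
          intro e he S hS hSa
          obtain ⟨hSb, hSw, hT⟩ := hbig S hS hSa
          rcases (hmem e).1 he with h1 | h1 | h1
          · rw [h1]
            exact hSa
          · rw [h1]
            exact hSb
          · exact (hrel x hxF e h1 _ hT ⟨hSw x hx, hne x hxF⟩).1
        intro d hd e he
        exact Rl_trans (Rl_symm (key d hd)) (key e he)

end UN39
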