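import Mathlib
import Pool.Agent.H39.HG.Defs
import Pool.Agent.H39.UN.Num
import Pool.Agent.H39.UN.Pol
import Pool.Agent.H39.UN.RedA
import Pool.Agent.H39.UN.ConA
import Pool.Agent.H39.UN.ConB
import Pool.Agent.H39.UN.Prd

/-!
[H39 UN REC]  (MP_bcc40c_pr)  The number of connected gluings depends only on the side numbers:
`cnt c = K (c.map List.length)`.

PROOFS.  recA (sum over the gluings with `α a = b`, same polygon): reindex by `β = swap a b * α`
(redA_mt, redA_inv; `swap a b * (swap a b * α) = α`), `vt` is preserved (redA_vt), and by conA the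
indicator of `Conn c α` is `1[Conn c' β] + sum over p in splits cs of 1[TC l1 l2 p β]`.  So the sum is
`∑ β with Mt c' β` of `X ^ vt c' β * (…)`; the first part is `cnt (l1 :: l2 :: cs)`.  For
`p ∈ splits cs`: `l1 :: l2 :: cs` is a permutation of `(l1 :: p.1) ++ (l2 :: p.2)` (splits_perm:
`p ∈ splits cs → (p.1 ++ p.2).Perm cs`), so Mt and vt may be taken for the latter (Mt_perm,
vt_perm), and prd_sum gives `cnt (l1 :: p.1) * cnt (l2 :: p.2)`.  (`List.sum_map`, exchange of the
finite sum over `β` with the sum over the list.)
recB: reindex by `β = swap a b * α` with redB_mt, redB_inv, redB_vt, conB.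
cnt_perm: Mt_perm, vt_perm, Conn_perm.  cnt_rot: rot_all.
cnt_nil: `Conn []` is false.  cnt_zero: `c = [] :: cs`: if `cs ≠ []`, Conn is false; if `cs = []`:
`Mt [[]] α ↔ α = 1`, `Conn [[]] 1` (vacuous), `vt = cyc 1 + 0 + 1 - card D = 1` (`cyc 1 = card D`).
cnt_eq: strong induction on `c.flatten.length` for all `c`.  `c = []`, `c = [] :: cs`: above and K_nil,
K_zero.  `c = (a :: t) :: cs`: `cnt c = ∑ b, ∑ α, if α a = b ∧ Mt ∧ Conn then …`; only
`b ∈ t` or `b ∈ cs.flatten` contribute (`α a ≠ a`, `α a ∈ c.flatten`).  `b = t[i]`: write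
`t = t.take i ++ b :: t.drop (i+1)`, recA and the induction hypothesis: for
`t.length = k + 1`, `i ≤ k`: `K (i :: (k - i) :: L) + ((splits L).map …).sum`, `L = cs.map length`
(splits_map: `splits (cs.map g) = (splits cs).map (fun p => (p.1.map g, p.2.map g))`).
`b ∈ m`, `m` a polygon of `cs`: the sum over `b ∈ cs.flatten` is the sum over `(m, cs') ∈ picks cs`
of the sum over `b ∈ m` (induction on `cs`); `c` is a permutation of
`(a :: t) :: m :: cs'` (picks_perm), `m = m1 ++ b :: m2`, recB and cnt_perm give
`cnt ((t ++ (m2 ++ m1)) :: cs')`, by the induction hypothesis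
`K ((t.length + m.length - 1) :: cs'.map length)`, the same for all `m.length` darts `b` of `m`.
With `t.length = k + 1`: `k + m.length` ✓. (K_two); with `t = []`: `m.length - 1` ✓ (K_one).
picks_map: `picks (cs.map g) = (picks cs).map (fun p => (g p.1, p.2.map g))`.
-/

set_option autoImplicit false

namespace UN39

open Equiv HG39 Polynomial

variable {D : Type} [Fintype D] [DecidableEq D]

theorem splits_perm {B : Type} {l : List B} {p : List B × List B} (h : p ∈ splits l) :
    (p.1 ++ p.2).Perm l := splits_permA h

theorem splits_map {B C : Type} (g : B → C) (l : List B) :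
    splits (l.map g) = (splits l).map (fun p => (p.1.map g, p.2.map g)) := by
  induction l with
  | nil => simp [splits]
  | cons x xs ih =>
    rw [List.map_cons, splits, splits, ih]
    simp only [List.map_append, List.map_map]
    congr 1

theorem picks_perm {B : Type} {l : List B} {p : B × List B} (h : p ∈ picks l) :
    (p.1 :: p.2).Perm l := by
  induction l generalizing p with
  | nil => simp [picks] at h
  | cons x xs ih =>
    rw [picks, List.mem_cons, List.mem_map] at h
    rcases h with rfl | ⟨q, hq, rfl⟩
    · exact List.Perm.refl _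
    · exact (List.Perm.swap _ _ _).trans ((ih hq).cons x)

theorem picks_map {B C : Type} (g : B → C) (l : List B) :
    picks (l.map g) = (picks l).map (fun p => (g p.1, p.2.map g)) := by
  induction l with
  | nil => simp [picks]
  | cons x xs ih =>
    rw [List.map_cons, picks, picks, ih]
    simp only [List.map_cons, List.map_map]
    congr 1

theorem cnt_perm {c c' : List (List D)} (h : c.Perm c') (hn : c.flatten.Nodup) :
    cnt c = cnt c' := by
  classical
  unfold cnt
  refine Finset.sum_congr rfl fun α _ => ?_
  obtain ⟨h1, h2, h3⟩ := inv_perm h hn α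
  rw [h2]
  exact if_congr (and_congr h1 h3) rfl rfl

theorem sum_list_swap {ι A : Type} (s : Finset A) (L : List ι) (f : ι → A → Polynomial ℕ) :
    ∑ x ∈ s, (L.map fun p => f p x).sum = (L.map fun p => ∑ x ∈ s, f p x).sum := by
  induction L with
  | nil => simp
  | cons p L ih =>
    simp only [List.map_cons, List.sum_cons, Finset.sum_add_distrib, ih]

theorem ind_smul {ι : Type} (L : List ι) (T : ι → Prop) [DecidablePred T] (Y : Polynomial ℕ) :
    ((L.map fun p => if T p then (1 : ℕ) else 0).sum) • Y =
      (L.map fun p => if T p then Y else 0).sum := by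
  induction L with
  | nil => simp
  | cons p L ih =>
    simp only [List.map_cons, List.sum_cons, add_smul, ih]
    congr 1
    split_ifs
    · rw [one_smul]
    · rw [zero_smul]

open Classical in
theorem recA {a b : D} {l1 l2 : List D} {cs : List (List D)}
    (hn : ((a :: (l1 ++ b :: l2)) :: cs).flatten.Nodup) :
    (∑ α : Perm D, if α a = b ∧ Mt ((a :: (l1 ++ b :: l2)) :: cs) α ∧
      Conn ((a :: (l1 ++ b :: l2)) :: cs) α
      then (X : Polynomial ℕ) ^ vt ((a :: (l1 ++ b :: l2)) :: cs) α else 0) =
    cnt (l1 :: l2 :: cs) +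
      ((splits cs).map fun p => cnt (l1 :: p.1) * cnt (l2 :: p.2)).sum := by
  have hn2 : (l1 :: l2 :: cs).flatten.Nodup := by
    have hn' := hn
    simp only [List.flatten_cons, List.cons_append, List.nodup_cons, List.mem_append, List.mem_cons,
      List.append_assoc, List.nodup_append, not_or] at hn'
    obtain ⟨⟨ha1, ha2, ha3, ha4⟩, hl1, ⟨⟨hb1, hb2⟩, hl2, hcs, hd2⟩, hd1⟩ := hn'
    simp only [List.flatten_cons, List.nodup_append, List.mem_append]
    refine ⟨hl1, ⟨hl2, hcs, hd2⟩, ?_⟩
    intro x hx y hy
    exact hd1 x hx y (Or.inr hy)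
  rw [← Equiv.sum_comp (Equiv.mulLeft (swap a b))]
  have hterm : ∀ β ∈ (Finset.univ : Finset (Perm D)),
      (if (Equiv.mulLeft (swap a b)) β a = b ∧
          Mt ((a :: (l1 ++ b :: l2)) :: cs) ((Equiv.mulLeft (swap a b)) β) ∧
          Conn ((a :: (l1 ++ b :: l2)) :: cs) ((Equiv.mulLeft (swap a b)) β)
        then (X : Polynomial ℕ) ^ vt ((a :: (l1 ++ b :: l2)) :: cs) ((Equiv.mulLeft (swap a b)) β)
        else 0) =
      (if Mt (l1 :: l2 :: cs) β ∧ Conn (l1 :: l2 :: cs) β then
          (X : Polynomial ℕ) ^ vt (l1 :: l2 :: cs) β else 0) +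
        ((splits cs).map fun p => if Mt (l1 :: l2 :: cs) β ∧ TC l1 l2 p β then
          (X : Polynomial ℕ) ^ vt (l1 :: l2 :: cs) β else 0).sum := by
    intro β _
    rw [Equiv.coe_mulLeft]
    have hss : swap a b * (swap a b * β) = β := by
      rw [← mul_assoc, swap_mul_self, one_mul]
    by_cases hM : Mt (l1 :: l2 :: cs) β
    · obtain ⟨h1, h2⟩ := redA_inv hn hM
      have h3 := redA_vt hn h1 h2
      have h4 := conA hn h1 h2
      rw [hss] at h3 h4
      have h5 := congrArg (fun n : ℕ => n • (X : Polynomial ℕ) ^ vt (l1 :: l2 :: cs) β) h4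
      simp only [add_smul, ind_smul, ite_smul, one_smul, zero_smul] at h5
      simp only [h1, h2, h3, hM, true_and]
      exact h5
    · have h1 : ¬ ((swap a b * β) a = b ∧ Mt ((a :: (l1 ++ b :: l2)) :: cs) (swap a b * β) ∧
          Conn ((a :: (l1 ++ b :: l2)) :: cs) (swap a b * β)) := by
        rintro ⟨h2, h3, _⟩
        apply hM
        have h4 := redA_mt hn h3 h2
        rw [hss] at h4
        exact h4
      rw [if_neg h1, if_neg (fun h2 => hM h2.1), zero_add]
      have h2 : ((splits cs).map fun p => if Mt (l1 :: l2 :: cs) β ∧ TC l1 l2 p β then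
          (X : Polynomial ℕ) ^ vt (l1 :: l2 :: cs) β else 0) = (splits cs).map fun _ => 0 :=
        List.map_congr_left fun p _ => if_neg (fun h3 => hM h3.1)
      rw [h2]
      simp
  rw [Finset.sum_congr rfl hterm, Finset.sum_add_distrib]
  congr 1
  · rw [sum_list_swap]
    congr 1
    refine List.map_congr_left fun p hp => ?_
    have hpp := splits_perm hp
    have hperm : (l1 :: l2 :: cs).Perm ((l1 :: p.1) ++ (l2 :: p.2)) := by
      rw [List.cons_append]
      refine List.Perm.cons _ ?_
      exact ((hpp.symm).cons l2).trans (List.perm_middle.symm)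
    have hn3 : ((l1 :: p.1) ++ (l2 :: p.2)).flatten.Nodup :=
      (List.Perm.flatten hperm).nodup_iff.1 hn2
    rw [← prd_sum hn3]
    refine Finset.sum_congr rfl fun β _ => ?_
    obtain ⟨h1, h2, _⟩ := inv_perm hperm hn2 β
    rw [h2]
    exact if_congr (and_congr h1 Iff.rfl) rfl rfl

open Classical in
theorem recB {a b : D} {l m1 m2 : List D} {cs : List (List D)}
    (hn : ((a :: l) :: (m1 ++ b :: m2) :: cs).flatten.Nodup) :
    (∑ α : Perm D, if α a = b ∧ Mt ((a :: l) :: (m1 ++ b :: m2) :: cs) α ∧
      Conn ((a :: l) :: (m1 ++ b :: m2) :: cs) α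
      then (X : Polynomial ℕ) ^ vt ((a :: l) :: (m1 ++ b :: m2) :: cs) α else 0) =
    cnt ((l ++ (m2 ++ m1)) :: cs) := by
  rw [← Equiv.sum_comp (Equiv.mulLeft (swap a b))]
  unfold cnt
  refine Finset.sum_congr rfl fun β _ => ?_
  rw [Equiv.coe_mulLeft]
  have hss : swap a b * (swap a b * β) = β := by
    rw [← mul_assoc, swap_mul_self, one_mul]
  by_cases hM : Mt ((l ++ (m2 ++ m1)) :: cs) β
  · obtain ⟨h1, h2⟩ := redB_inv hn hM
    have h3 := redB_vt hn h1 h2
    have h4 := conB hn h1 h2
    rw [hss] at h3 h4
    simp only [h1, h2, h3, h4, hM, true_and]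
  · rw [if_neg, if_neg (fun h2 => hM h2.1)]
    rintro ⟨h2, h3, _⟩
    apply hM
    have h4 := redB_mt hn h3 h2
    rw [hss] at h4
    exact h4

open Classical in
/-- the gluings with `α a = b` -/
noncomputable def Gab (c : List (List D)) (a b : D) : Polynomial ℕ :=
  ∑ α : Perm D, if α a = b ∧ Mt c α ∧ Conn c α then (X : Polynomial ℕ) ^ vt c α else 0

theorem Gab_perm {c c' : List (List D)} (h : c.Perm c') (hn : c.flatten.Nodup) (a b : D) :
    Gab c a b = Gab c' a b := by
  classical
  unfold Gab
  refine Finset.sum_congr rfl fun α _ => ?_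
  obtain ⟨h1, h2, h3⟩ := inv_perm h hn α
  rw [h2]
  exact if_congr (and_congr Iff.rfl (and_congr h1 h3)) rfl rfl

theorem cnt_Gab {a : D} {t : List D} {cs : List (List D)}
    (hn : ((a :: t) :: cs).flatten.Nodup) :
    cnt ((a :: t) :: cs) =
      (t.map (Gab ((a :: t) :: cs) a)).sum + (cs.flatten.map (Gab ((a :: t) :: cs) a)).sum := by
  classical
  rw [← List.sum_append, ← List.map_append]
  have hn2 : (t ++ cs.flatten).Nodup := by
    rw [List.flatten_cons, List.cons_append, List.nodup_cons] at hn
    exact hn.2
  rw [← List.sum_toFinset _ hn2]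
  have h1 : ∀ b ∈ (Finset.univ : Finset D), b ∉ (t ++ cs.flatten).toFinset →
      Gab ((a :: t) :: cs) a b = 0 := by
    intro b _ hb
    rw [List.mem_toFinset] at hb
    unfold Gab
    refine Finset.sum_eq_zero fun α _ => if_neg ?_
    rintro ⟨h2, h3, _⟩
    have haF : a ∈ ((a :: t) :: cs).flatten := by simp
    have h4 := Mt_pres h3 a haF
    have h5 := h3.2.1 a haF
    rw [h2] at h4 h5
    rw [List.flatten_cons, List.cons_append, List.mem_cons] at h4
    rcases h4 with h4 | h4
    · exact h5 h4
    · exact hb h4
  rw [Finset.sum_subset (Finset.subset_univ _) h1]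
  unfold Gab cnt
  rw [Finset.sum_comm]
  refine Finset.sum_congr rfl fun α _ => ?_
  rw [Finset.sum_eq_single (α a)]
  · refine if_congr ?_ rfl rfl
    rw [eq_self_iff_true, true_and]
  · intro b _ hb
    exact if_neg (fun h2 => hb h2.1.symm)
  · intro h2
    exact absurd (Finset.mem_univ _) h2

theorem sum_first {t : List D} (G : D → Polynomial ℕ) (H : ℕ → ℕ → Polynomial ℕ)
    (h : ∀ l1 b l2, t = l1 ++ b :: l2 → G b = H l1.length l2.length) :
    (t.map G).sum = ∑ i ∈ Finset.range t.length, H i (t.length - 1 - i) := by
  induction t generalizing H with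
  | nil => simp
  | cons b t ih =>
    rw [List.map_cons, List.sum_cons, List.length_cons, Finset.sum_range_succ']
    rw [h [] b t rfl, ih (fun i j => H (i + 1) j) (fun l1 b' l2 he => by
      rw [h (b :: l1) b' l2 (by rw [he]; rfl)]
      rfl)]
    rw [add_comm]
    congr 1
    refine Finset.sum_congr rfl fun i _ => ?_
    have h2 : t.length - 1 - i = t.length + 1 - 1 - (i + 1) := by omega
    rw [h2]

theorem sum_second (cs : List (List D)) (G : D → Polynomial ℕ) :
    (cs.flatten.map G).sum = ((picks cs).map fun p => (p.1.map G).sum).sum := by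
  induction cs with
  | nil => simp [picks]
  | cons m cs ih =>
    rw [List.flatten_cons, List.map_append, List.sum_append, ih, picks, List.map_cons, List.sum_cons,
      List.map_map]
    rfl

theorem cnt_nil : cnt ([] : List (List D)) = 0 := by
  unfold cnt
  exact Finset.sum_eq_zero fun α _ => if_neg (fun h => h.2.1 rfl)

theorem cnt_zero (cs : List (List D)) :
    cnt (([] : List D) :: cs) = if cs = [] then X else 0 := by
  by_cases h : cs = []
  · subst h
    rw [if_pos rfl]
    unfold cnt
    rw [Finset.sum_eq_single 1]
    · have h1 : Mt [([] : List D)] 1 := by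
        refine ⟨fun d => rfl, ?_, fun d _ => rfl⟩
        intro d hd
        simp at hd
      have h2 : Conn [([] : List D)] 1 := by
        refine ⟨by simp, Or.inl rfl, ?_⟩
        intro S _ _ _ e he
        simp at he
      rw [if_pos ⟨h1, h2⟩]
      have h3 : vt [([] : List D)] (1 : Perm D) = 1 := by
        unfold vt
        have h4 : polys [([] : List D)] = (1 : Perm D) := by
          simp [polys]
        rw [h4, mul_one, cyc_one]
        simp
      rw [h3, pow_one]
    · intro α _ hα
      refine if_neg ?_
      rintro ⟨h1, _⟩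
      apply hα
      ext d
      exact h1.2.2 d (by simp)
    · intro h1
      exact absurd (Finset.mem_univ _) h1
  · rw [if_neg h]
    unfold cnt
    refine Finset.sum_eq_zero fun α _ => if_neg ?_
    rintro ⟨_, h1⟩
    rcases h1.2.1 with h2 | h2
    · rw [List.length_cons] at h2
      exact h (List.length_eq_zero_iff.1 (by omega))
    · exact h2 (List.mem_cons_self)

theorem cnt_eq (c : List (List D)) (hn : c.flatten.Nodup) :
    cnt c = K (c.map List.length) := by
  induction hN : c.flatten.length using Nat.strong_induction_on generalizing c with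
  | _ N ih =>
  subst hN
  match c, hn, ih with
  | [], _, _ => rw [cnt_nil, List.map_nil, K_nil]
  | [] :: cs, _, _ =>
    rw [cnt_zero, List.map_cons, List.length_nil, K_zero]
    refine if_congr ?_ rfl rfl
    rw [List.map_eq_nil_iff]
  | (a :: t) :: cs, hn, ih =>
    have hfirst : (t.map (Gab ((a :: t) :: cs) a)).sum =
        ∑ i ∈ Finset.range t.length, (K (i :: (t.length - 1 - i) :: cs.map List.length) +
          ((splits (cs.map List.length)).map fun p =>
            K (i :: p.1) * K ((t.length - 1 - i) :: p.2)).sum) := by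
      refine sum_first _ (fun i j => K (i :: j :: cs.map List.length) +
          ((splits (cs.map List.length)).map fun p => K (i :: p.1) * K (j :: p.2)).sum) ?_
      intro l1 b l2 ht
      subst ht
      unfold Gab
      rw [recA hn]
      have hn2 : (l1 :: l2 :: cs).flatten.Nodup := by
        have hn' := hn
        simp only [List.flatten_cons, List.cons_append, List.nodup_cons, List.mem_append,
          List.mem_cons, List.append_assoc, List.nodup_append, not_or] at hn'
        obtain ⟨⟨ha1, ha2, ha3, ha4⟩, hl1, ⟨⟨hb1, hb2⟩, hl2, hcs, hd2⟩, hd1⟩ := hn'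
        simp only [List.flatten_cons, List.nodup_append, List.mem_append]
        refine ⟨hl1, ⟨hl2, hcs, hd2⟩, ?_⟩
        intro x hx y hy
        exact hd1 x hx y (Or.inr hy)
      have hlen : (l1 :: l2 :: cs).flatten.length <
          ((a :: (l1 ++ b :: l2)) :: cs).flatten.length := by
        simp only [List.flatten_cons, List.length_append, List.length_cons]
        omega
      congr 1
      · exact ih _ hlen _ hn2 rfl
      · rw [splits_map, List.map_map]
        congr 1
        refine List.map_congr_left fun p hp => ?_
        have hpp := splits_perm hp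
        have hperm : (l1 :: l2 :: cs).Perm ((l1 :: p.1) ++ (l2 :: p.2)) := by
          rw [List.cons_append]
          refine List.Perm.cons _ ?_
          exact ((hpp.symm).cons l2).trans (List.perm_middle.symm)
        have hfp := List.Perm.flatten hperm
        have hn3 : ((l1 :: p.1) ++ (l2 :: p.2)).flatten.Nodup := hfp.nodup_iff.1 hn2
        have hlen2 := hfp.length_eq
        rw [List.flatten_append, List.length_append] at hlen2
        rw [List.flatten_append, List.nodup_append] at hn3
        rw [ih _ (by omega) (l1 :: p.1) hn3.1 rfl, ih _ (by omega) (l2 :: p.2) hn3.2.1 rfl]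
        rfl
    have hsecond : (cs.flatten.map (Gab ((a :: t) :: cs) a)).sum =
        ((picks (cs.map List.length)).map fun p => p.1 • K ((t.length + p.1 - 1) :: p.2)).sum := by
      rw [sum_second, picks_map, List.map_map]
      congr 1
      refine List.map_congr_left fun p hp => ?_
      have hpp := picks_perm hp
      have hconst : ∀ b ∈ p.1, Gab ((a :: t) :: cs) a b =
          K ((t.length + p.1.length - 1) :: p.2.map List.length) := by
        intro b hb
        obtain ⟨m1, m2, hm⟩ := List.append_of_mem hb
        have hperm : ((a :: t) :: cs).Perm ((a :: t) :: (m1 ++ b :: m2) :: p.2) := by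
          rw [← hm]
          exact (hpp.symm).cons _
        rw [Gab_perm hperm hn]
        have hn2 : ((a :: t) :: (m1 ++ b :: m2) :: p.2).flatten.Nodup :=
          (List.Perm.flatten hperm).nodup_iff.1 hn
        unfold Gab
        rw [recB hn2]
        have hn3 : ((t ++ (m2 ++ m1)) :: p.2).flatten.Nodup := by
          have hn' := hn2
          simp only [List.flatten_cons, List.cons_append, List.nodup_cons, List.mem_append,
            List.mem_cons, List.append_assoc, List.nodup_append, not_or] at hn'
          obtain ⟨⟨ha1, ha2, ha3, ha4, ha5⟩, hl, ⟨hm1, ⟨⟨hb1, hb2⟩, hm2, hcs, hd3⟩, hd2⟩, hd1⟩ := hn'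
          simp only [List.flatten_cons, List.nodup_append, List.mem_append]
          refine ⟨⟨hl, ⟨hm2, hm1, ?_⟩, ?_⟩, hcs, ?_⟩
          · intro x hx y hy hxy
            exact hd2 y hy x (Or.inr (Or.inl hx)) hxy.symm
          · rintro x hx y (hy | hy)
            · exact hd1 x hx y (Or.inr (Or.inr (Or.inl hy)))
            · exact hd1 x hx y (Or.inl hy)
          · rintro x (hx | hx | hx) y hy
            · exact hd1 x hx y (Or.inr (Or.inr (Or.inr hy)))
            · exact hd3 x hx y hy
            · exact hd2 x hx y (Or.inr (Or.inr hy))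
        have hlen : ((t ++ (m2 ++ m1)) :: p.2).flatten.length <
            ((a :: t) :: cs).flatten.length := by
          rw [(List.Perm.flatten hperm).length_eq]
          simp only [List.flatten_cons, List.length_append, List.length_cons]
          omega
        rw [ih _ hlen _ hn3 rfl, List.map_cons]
        congr 2
        rw [hm]
        simp only [List.length_append, List.length_cons]
        omega
      rw [List.map_congr_left hconst, List.map_const', List.sum_replicate]
      rfl
    rw [cnt_Gab hn, hfirst, hsecond, List.map_cons, List.length_cons]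
    rcases ht : t.length with _ | k
    · rw [Finset.range_zero, Finset.sum_empty, zero_add, zero_add, K_one]
      congr 1
      refine List.map_congr_left fun p _ => ?_
      rw [zero_add]
    · rw [K_two]
      congr 1
      congr 1
      refine List.map_congr_left fun p _ => ?_
      have h2 : k + 1 + p.1 - 1 = k + p.1 := by omega
      rw [h2]

end UN39
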