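import Mathlib
import Pool.Agent.H39.HG.Defs
import Pool.Agent.H39.UN.Num
import Pool.Agent.H39.UN.Prd
import Pool.Agent.H39.UN.Rec

/-!
[H39 UN KK]  (MP_bcc40c_pr)  Symmetry of `K`, the normalised numbers `kk c m` (holes `c`, `m` triangles).

`kk c m = K (c ++ 3^m) / (m! 3^m)`, `bb n = kk [1] (2n+1)`.

PROOFS.  K_perm: for `l` there is a list of polygons `c` over `Fin l.sum` with `c.map length = l` and
`c.flatten.Nodup` (e.g. `c.flatten = List.finRange l.sum`: cut it into pieces of the lengths in `l`;
induction on `l`, or `List.splitLengths`-like function); a permutation of `l` lifts to a permutation of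
`c` (`List.Perm.map` reversed: if `c.map g ~ l'` then there is `c' ~ c` with `c'.map g = l'`:
`List.perm_map_iff`-like, or by induction on the permutation); cnt_perm and cnt_eq.
K_two_cons: `K (2 :: l) = l.sum • K l` for `l ≠ []`: K_two with `k = 0`: the terms with first entry 0:
`K (0 :: 0 :: l) = 0`, `K (0 :: p.1) * K (0 :: p.2)` vanishes because `p.1`, `p.2` are not both empty;
the picks part: `p.1 • K (p.1 :: p.2)` and `K (p.1 :: p.2) = K l` by K_perm (picks_perm), and the sum
of the entries is `l.sum`.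
kk_perm: K_perm.  kk_three: `kk (3 :: c) m = 3(m+1) kk c (m+1)`: both are
`K (3 :: (c ++ 3^m))` up to the factor, K_perm; `c ≠ []` is not needed.
kk_two: `kk (2 :: c) m = (c.sum + 3m) kk c m` for `c ≠ []`: K_two_cons.
tutte: K_two with `l = c ++ replicate m 3`, divide by `m! 3^m`.
 picks part: picks (c ++ 3^m) = picks of `c` (with 3^m appended to the rest) followed by `m` picks of
 a 3 whose rest is `c ++ 3^(m-1)`: these give `3 m K ((k+3) :: c ++ 3^(m-1))`, i.e.
 `kk ((k+3) :: c) (m-1)` after the division (0 if m = 0).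
 splits part: `splits (c ++ t)` is the family of the pairs `(p.1 ++ q.1, p.2 ++ q.2)`, `p ∈ splits c`,
 `q ∈ splits t` (as a multiset; induction on `c`), and for `t = 3^m` the number of `q ∈ splits t` with
 `q.1 = 3^j`, `q.2 = 3^(m-j)` is `m.choose j` (induction on `m`);
 `m.choose j / (m! 3^m) = 1/(j! 3^j (m-j)! 3^(m-j))`.
tutte1: the same with K_one.
bb_*: tutte1 for `c = []`: `kk [1] m = kk [2] (m-1)`; tutte with `k = 0`, `c = []`:
`kk [2] m = kk [3] (m-1)` for `m ≥ 1` (the terms with the entry 0: `kk [0,0] m = 0`,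
`∑_j kk [0] j * kk [0] (m-j) = 0` for `m ≥ 1`, since `kk [0] j = K (0 :: 3^j)/.. = 0` for `j ≥ 1`);
`kk [2] 0 = X^2`, `kk [1] 1 = kk [2] 0 = X^2`.
kk_one_one: `kk [1,1] (m+1) = (3m+1) kk [1] m` for `m ≥ 1` (tutte1 with `c = [1]`: `kk [2,1] m` and
`1 • kk [0] (m+1) = 0`; kk_two).
kk_one_two: `kk (1 :: c) (m+1) = (c.sum + 3m) kk c m + ∑ over picks c of p.1 • kk ((p.1-1) :: p.2) (m+1)`
for `c ≠ []`.
-/

set_option autoImplicit false

namespace UN39

open HG39 Polynomial

theorem lift_len {B : Type} (l : List ℕ) (L : List B) (h : L.length = l.sum) :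
    ∃ c : List (List B), c.map List.length = l ∧ c.flatten = L := by
  induction l generalizing L with
  | nil =>
    refine ⟨[], rfl, ?_⟩
    rw [List.sum_nil] at h
    rw [List.length_eq_zero_iff.1 h]
    rfl
  | cons x xs ih =>
    rw [List.sum_cons] at h
    obtain ⟨c, h1, h2⟩ := ih (L.drop x) (by rw [List.length_drop]; omega)
    refine ⟨L.take x :: c, ?_, ?_⟩
    · rw [List.map_cons, h1, List.length_take]
      congr 1
      omega
    · rw [List.flatten_cons, h2, List.take_append_drop]

theorem lift_perm {B : Type} {l l' : List ℕ} (h : l.Perm l') (c : List (List B))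
    (hc : c.map List.length = l) :
    ∃ c' : List (List B), c.Perm c' ∧ c'.map List.length = l' := by
  induction h generalizing c with
  | nil => exact ⟨c, List.Perm.refl _, hc⟩
  | cons x _ ih =>
    obtain ⟨m, c1, rfl, hm, hc1⟩ := List.map_eq_cons_iff.1 hc
    obtain ⟨c', h1, h2⟩ := ih c1 hc1
    exact ⟨m :: c', h1.cons _, by rw [List.map_cons, hm, h2]⟩
  | swap x y l =>
    obtain ⟨m, c1, rfl, hm, hc1⟩ := List.map_eq_cons_iff.1 hc
    obtain ⟨m', c2, rfl, hm', hc2⟩ := List.map_eq_cons_iff.1 hc1
    exact ⟨m' :: m :: c2, List.Perm.swap _ _ _, by rw [List.map_cons, List.map_cons, hm, hm', hc2]⟩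
  | trans _ _ ih1 ih2 =>
    obtain ⟨c1, h1, h2⟩ := ih1 c hc
    obtain ⟨c2, h3, h4⟩ := ih2 c1 h2
    exact ⟨c2, h1.trans h3, h4⟩

theorem K_perm {l l' : List ℕ} (h : l.Perm l') : K l = K l' := by
  obtain ⟨c, h1, h2⟩ := lift_len l (List.finRange l.sum) (by rw [List.length_finRange])
  obtain ⟨c', h3, h4⟩ := lift_perm h c h1
  have hn : c.flatten.Nodup := by
    rw [h2]
    exact List.nodup_finRange _
  have hn' : c'.flatten.Nodup := (List.Perm.flatten h3).nodup_iff.1 hn
  rw [← h1, ← cnt_eq c hn, cnt_perm h3 hn, cnt_eq c' hn', h4]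

theorem picks_const (l : List ℕ) (Y : Polynomial ℕ) :
    ((picks l).map fun p => p.1 • Y).sum = l.sum • Y := by
  induction l with
  | nil => simp [picks]
  | cons x xs ih =>
    rw [picks, List.map_cons, List.sum_cons, List.map_map, List.sum_cons, add_smul, ← ih]
    rfl

theorem K_two_cons {l : List ℕ} (h : l ≠ []) : K (2 :: l) = l.sum • K l := by
  have h1 := K_two 0 l
  rw [zero_add] at h1
  rw [h1, zero_add, Finset.sum_range_one, K_zero, if_neg (by simp), zero_add]
  have h2 : ((splits l).map fun p => K (0 :: p.1) * K ((0 - 0) :: p.2)) = (splits l).map fun _ => 0 := by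
    refine List.map_congr_left fun p hp => ?_
    have h3 := splits_perm hp
    rw [Nat.sub_zero, K_zero, K_zero]
    by_cases h4 : p.1 = []
    · by_cases h5 : p.2 = []
      · rw [h4, h5] at h3
        exact absurd (List.nil_perm.1 h3) h
      · rw [if_neg h5, mul_zero]
    · rw [if_neg h4, zero_mul]
  have h3 : ((picks l).map fun p => p.1 • K ((0 + p.1) :: p.2)) = (picks l).map fun p => p.1 • K l := by
    refine List.map_congr_left fun p hp => ?_
    rw [zero_add, K_perm (picks_perm hp)]
  rw [h2, h3, picks_const]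
  simp

/-- normalised numbers: holes `c` and `m` triangles -/
noncomputable def kk (c : List ℕ) (m : ℕ) : Polynomial ℝ :=
  C (((m.factorial : ℝ) * 3 ^ m)⁻¹) * (K (c ++ List.replicate m 3)).map (Nat.castRingHom ℝ)

/-- the numbers `b(n, v)` as a polynomial -/
noncomputable def bb (n : ℕ) : Polynomial ℝ := kk [1] (2 * n + 1)

theorem kk_perm {c c' : List ℕ} (h : c.Perm c') (m : ℕ) : kk c m = kk c' m := by
  unfold kk
  rw [K_perm (h.append_right _)]

theorem kk_three (c : List ℕ) (m : ℕ) : kk (3 :: c) m = (3 * ((m : ℝ) + 1)) • kk c (m + 1) := by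
  unfold kk
  have h1 : ((3 :: c) ++ List.replicate m 3).Perm (c ++ List.replicate (m + 1) 3) := by
    rw [List.replicate_succ, List.cons_append]
    exact List.perm_middle.symm
  rw [K_perm h1, smul_eq_C_mul, ← mul_assoc, ← C_mul]
  congr 2
  rw [Nat.factorial_succ, pow_succ]
  have h2 : (m.factorial : ℝ) ≠ 0 := by exact_mod_cast Nat.factorial_ne_zero m
  have h3 : ((m : ℝ) + 1) ≠ 0 := by positivity
  push_cast
  field_simp

theorem kk_two {c : List ℕ} (h : c ≠ []) (m : ℕ) :
    kk (2 :: c) m = ((c.sum : ℝ) + 3 * m) • kk c m := by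
  unfold kk
  rw [List.cons_append, K_two_cons (by simp [h])]
  rw [nsmul_eq_mul, Polynomial.map_mul, Polynomial.map_natCast, smul_eq_C_mul]
  rw [List.sum_append, List.sum_replicate]
  have h1 : ((c.sum + m • 3 : ℕ) : Polynomial ℝ) = C ((c.sum : ℝ) + 3 * m) := by
    rw [← C_eq_natCast]
    congr 1
    rw [smul_eq_mul, Nat.cast_add, Nat.cast_mul, Nat.cast_ofNat, mul_comm (3 : ℝ)]
  rw [h1]
  ring

theorem picks_append {B : Type} (c t : List B) :
    picks (c ++ t) = (picks c).map (fun p => (p.1, p.2 ++ t)) ++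
      (picks t).map (fun p => (p.1, c ++ p.2)) := by
  induction c with
  | nil => simp [picks]
  | cons x xs ih =>
    rw [List.cons_append, picks, ih, picks]
    simp [Function.comp_def]

theorem picks_rep {B : Type} (b : B) (m : ℕ) :
    picks (List.replicate m b) = List.replicate m (b, List.replicate (m - 1) b) := by
  induction m with
  | zero => simp [picks]
  | succ m ih =>
    rw [List.replicate_succ, picks, ih, List.map_replicate, Nat.add_sub_cancel]
    rcases m with _ | m
    · simp
    · rw [Nat.add_sub_cancel]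
      simp [List.replicate_succ]

theorem splits_append {B M : Type} [AddCommMonoid M] (c t : List B) (f : List B × List B → M) :
    ((splits (c ++ t)).map f).sum =
      ((splits c).map fun p => ((splits t).map fun q => f (p.1 ++ q.1, p.2 ++ q.2)).sum).sum := by
  induction c generalizing f with
  | nil => simp [splits]
  | cons x xs ih =>
    rw [List.cons_append, splits, List.map_append, List.sum_append, List.map_map, List.map_map, ih, ih,
      splits, List.map_append, List.sum_append, List.map_map, List.map_map]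
    rfl

theorem splits_rep {B M : Type} [AddCommMonoid M] (b : B) (m : ℕ) (f : List B × List B → M) :
    ((splits (List.replicate m b)).map f).sum =
      ∑ j ∈ Finset.range (m + 1), m.choose j • f (List.replicate j b, List.replicate (m - j) b) := by
  induction m generalizing f with
  | zero => simp [splits]
  | succ m ih =>
    rw [List.replicate_succ, splits, List.map_append, List.sum_append, List.map_map, List.map_map, ih, ih]
    have h1 := Finset.sum_choose_succ_nsmul
      (fun i j => f (List.replicate i b, List.replicate j b)) m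
    rw [h1, add_comm]
    congr 1
    refine Finset.sum_congr rfl fun i hi => ?_
    rw [Finset.mem_range] at hi
    have h2 : m + 1 - i = (m - i) + 1 := by omega
    rw [h2, List.replicate_succ]
    rfl

theorem al_choose {m j : ℕ} (h : j ≤ m) :
    (((m.factorial : ℝ) * 3 ^ m)⁻¹) * (m.choose j : ℝ) =
      (((j.factorial : ℝ) * 3 ^ j)⁻¹) * ((((m - j).factorial : ℝ) * 3 ^ (m - j))⁻¹) := by
  have h1 : (j.factorial : ℝ) ≠ 0 := by exact_mod_cast Nat.factorial_ne_zero j
  have h2 : ((m - j).factorial : ℝ) ≠ 0 := by exact_mod_cast Nat.factorial_ne_zero (m - j)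
  have h3 : (m.choose j : ℝ) * j.factorial * (m - j).factorial = m.factorial := by
    exact_mod_cast Nat.choose_mul_factorial_mul_factorial h
  have h4 : (3 : ℝ) ^ m = 3 ^ j * 3 ^ (m - j) := by
    rw [← pow_add]
    congr 1
    omega
  have h5 : (m.factorial : ℝ) ≠ 0 := by exact_mod_cast Nat.factorial_ne_zero m
  rw [← h3, h4]
  rw [← h3] at h5
  have h6 : (m.choose j : ℝ) ≠ 0 := by
    intro h7
    rw [h7] at h5
    simp at h5
  field_simp

/-- the ring homomorphism to real polynomials -/
noncomputable def ph : Polynomial ℕ →+* Polynomial ℝ := Polynomial.mapRingHom (Nat.castRingHom ℝ)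

theorem kk_ph (c : List ℕ) (m : ℕ) :
    kk c m = C (((m.factorial : ℝ) * 3 ^ m)⁻¹) * ph (K (c ++ List.replicate m 3)) := rfl

theorem mul_list_sum (a : Polynomial ℝ) {ι : Type} (L : List ι) (f : ι → Polynomial ℝ) :
    a * (L.map f).sum = (L.map fun p => a * f p).sum := by
  induction L with
  | nil => simp
  | cons p L ih => simp only [List.map_cons, List.sum_cons, mul_add, ih]

theorem picks_part (c : List ℕ) (m : ℕ) (g : ℕ → List ℕ → List ℕ)
    (hg : ∀ x l l', g x (l ++ l') = g x l ++ l') :
    C (((m.factorial : ℝ) * 3 ^ m)⁻¹) *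
      ph ((picks (c ++ List.replicate m 3)).map fun p => p.1 • K (g p.1 p.2)).sum =
    ((picks c).map fun p => (p.1 : ℝ) • kk (g p.1 p.2) m).sum +
      (if m = 0 then 0 else kk (g 3 c) (m - 1)) := by
  rw [picks_append, List.map_append, List.sum_append, map_add, mul_add]
  congr 1
  · rw [List.map_map, map_list_sum, List.map_map, mul_list_sum]
    congr 1
    refine List.map_congr_left fun p _ => ?_
    show C (((m.factorial : ℝ) * 3 ^ m)⁻¹) * ph (p.1 • K (g p.1 (p.2 ++ List.replicate m 3))) = _
    rw [hg, kk_ph, nsmul_eq_mul, map_mul, map_natCast, smul_eq_C_mul, ← C_eq_natCast]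
    ring
  · rw [picks_rep, List.map_replicate, List.map_replicate, List.sum_replicate]
    rcases m with _ | m
    · simp
    · rw [if_neg (Nat.succ_ne_zero m), Nat.add_sub_cancel]
      show C ((((m + 1).factorial : ℝ) * 3 ^ (m + 1))⁻¹) *
        ph ((m + 1) • (3 • K (g 3 (c ++ List.replicate m 3)))) = _
      rw [hg, kk_ph, nsmul_eq_mul, nsmul_eq_mul, map_mul, map_mul, map_natCast, map_natCast,
        ← C_eq_natCast, ← C_eq_natCast, ← mul_assoc, ← mul_assoc, ← C_mul, ← C_mul]
      congr 2
      rw [Nat.factorial_succ, pow_succ]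
      have h2 : (m.factorial : ℝ) ≠ 0 := by exact_mod_cast Nat.factorial_ne_zero m
      have h3 : ((m : ℝ) + 1) ≠ 0 := by positivity
      push_cast
      field_simp

/-- the Tutte equation -/
theorem tutte (k : ℕ) (c : List ℕ) (m : ℕ) :
    kk ((k + 2) :: c) m = (if m = 0 then 0 else kk ((k + 3) :: c) (m - 1)) +
      (∑ i ∈ Finset.range (k + 1), (kk (i :: (k - i) :: c) m +
        ((splits c).map fun p => ∑ j ∈ Finset.range (m + 1),
          kk (i :: p.1) j * kk ((k - i) :: p.2) (m - j)).sum)) +
      ((picks c).map fun p => (p.1 : ℝ) • kk ((k + p.1) :: p.2) m).sum := by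
  have h1 := picks_part c m (fun x l => (k + x) :: l) (fun x l l' => rfl)
  rw [kk_ph, List.cons_append, K_two, map_add, mul_add, h1, map_sum, Finset.mul_sum]
  have h2 : ∀ i ∈ Finset.range (k + 1),
      C (((m.factorial : ℝ) * 3 ^ m)⁻¹) * ph (K (i :: (k - i) :: (c ++ List.replicate m 3)) +
        ((splits (c ++ List.replicate m 3)).map fun p => K (i :: p.1) * K ((k - i) :: p.2)).sum) =
      kk (i :: (k - i) :: c) m +
        ((splits c).map fun p => ∑ j ∈ Finset.range (m + 1),
          kk (i :: p.1) j * kk ((k - i) :: p.2) (m - j)).sum := by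
    intro i _
    rw [map_add, mul_add]
    congr 1
    rw [splits_append, map_list_sum, List.map_map, mul_list_sum]
    congr 1
    refine List.map_congr_left fun p _ => ?_
    rw [Function.comp_apply, splits_rep, map_sum, Finset.mul_sum]
    refine Finset.sum_congr rfl fun j hj => ?_
    rw [Finset.mem_range] at hj
    rw [nsmul_eq_mul, map_mul, map_mul, map_natCast, kk_ph, kk_ph, ← C_eq_natCast, ← mul_assoc,
      ← C_mul, al_choose (by omega), C_mul, List.cons_append, List.cons_append]
    ring
  rw [Finset.sum_congr rfl h2]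
  ring

theorem tutte1 (c : List ℕ) (m : ℕ) :
    kk (1 :: c) m = (if m = 0 then 0 else kk (2 :: c) (m - 1)) +
      ((picks c).map fun p => (p.1 : ℝ) • kk ((p.1 - 1) :: p.2) m).sum := by
  have h1 := picks_part c m (fun x l => (x - 1) :: l) (fun x l l' => rfl)
  rw [kk_ph, List.cons_append, K_one, h1, add_comm]

theorem kk_zero (c : List ℕ) (m : ℕ) :
    kk (0 :: c) m = if c = [] ∧ m = 0 then X else 0 := by
  rw [kk_ph, List.cons_append, K_zero]
  by_cases h : c = [] ∧ m = 0
  · rw [if_pos h, if_pos (by rw [h.1, h.2]; rfl), h.2]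
    simp [ph]
  · rw [if_neg h, if_neg, map_zero, mul_zero]
    intro h1
    rw [List.append_eq_nil_iff, List.replicate_eq_nil_iff] at h1
    exact h h1

theorem kk_two_nil (m : ℕ) (hm : 1 ≤ m) : kk [2] m = kk [3] (m - 1) := by
  have h1 := tutte 0 [] m
  rw [if_neg (by omega), zero_add, zero_add, Finset.sum_range_one, kk_zero, if_neg (by simp),
    zero_add] at h1
  rw [h1]
  have h2 : ((splits ([] : List ℕ)).map fun p => ∑ j ∈ Finset.range (m + 1),
      kk (0 :: p.1) j * kk ((0 - 0) :: p.2) (m - j)).sum = 0 := by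
    rw [splits, List.map_singleton, List.sum_singleton]
    refine Finset.sum_eq_zero fun j hj => ?_
    rw [Finset.mem_range] at hj
    rw [Nat.sub_zero, kk_zero, kk_zero]
    by_cases h3 : j = 0
    · have h4 : ¬ (([] : List ℕ) = ([] : List ℕ) ∧ m - j = 0) := by omega
      rw [if_neg h4, mul_zero]
    · rw [if_neg (by simp [h3]), zero_mul]
  rw [h2]
  simp [picks]

theorem bb_zero : bb 0 = X ^ 2 := by
  unfold bb
  rw [mul_zero, zero_add, tutte1, if_neg one_ne_zero]
  have h1 := tutte 0 [] 0
  rw [if_pos rfl, zero_add, zero_add, Finset.sum_range_one, kk_zero, if_neg (by simp),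
    zero_add] at h1
  rw [Nat.sub_self, h1]
  simp [splits, picks, kk_zero, pow_two]

theorem bb_two (n : ℕ) : kk [2] (2 * n) = bb n := by
  unfold bb
  rw [tutte1, if_neg (Nat.succ_ne_zero _)]
  simp [picks]

theorem bb_three (n : ℕ) (hn : 1 ≤ n) : kk [3] (2 * n - 1) = bb n := by
  rw [← bb_two, kk_two_nil _ (by omega)]

theorem kk_one_cons {c : List ℕ} (h : c ≠ []) (m : ℕ) :
    kk (1 :: c) (m + 1) = ((c.sum : ℝ) + 3 * m) • kk c m +
      ((picks c).map fun p => (p.1 : ℝ) • kk ((p.1 - 1) :: p.2) (m + 1)).sum := by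
  rw [tutte1, if_neg (Nat.succ_ne_zero _), Nat.add_sub_cancel, kk_two h]

theorem kk_one_one (m : ℕ) (hm : 1 ≤ m) : kk [1, 1] (m + 1) = (3 * (m : ℝ) + 1) • kk [1] m := by
  rw [kk_one_cons (by simp)]
  have h1 : ((picks ([1] : List ℕ)).map fun p => (p.1 : ℝ) • kk ((p.1 - 1) :: p.2) (m + 1)).sum = 0 := by
    simp [picks, kk_zero]
  rw [h1, add_zero]
  congr 1
  simp
  ring

end UN39
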