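import Mathlib

/-!
[H39 UN GAU]  (MP_bcc40c_pr)  One-variable functional `ell` over `ℚ⟦t⟧` (weights `exp (t x^3)` against the
Gaussian moments) and its orthogonal polynomials.

`gau k` = Gaussian moment, `mom k = ∑_m gau (k + 3m) t^m / m!`, `ell (x^k) = mom k`.

PROOFS.  ibp: by linearity (`Polynomial.induction_on'` or sum over monomials) it is enough that
`k * mom (k-1) = mom (k+1) - 3 t mom (k+2)` for all `k` (for `k = 0` the left side is 0).  Coefficient
of `t^m`: for `m = 0`: `k gau (k-1) = gau (k+1)` (recursion; `gau 1 = 0`).  For `m ≥ 1`: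
`gau (k+1+3m) = (k+3m) gau (k+3m-1)`, and `3 * gau (k+2+3(m-1)) / (m-1)! = 3m gau (k+3m-1) / m!`.
orth_exists: construct `P` by strong recursion (or prove by induction on `n` the existence of
`P_0..P_n` with the properties, then choose; uniqueness is easy, or use
`P (n+1) = X^(n+1) - ∑_{j ≤ n} C (ell (X^(n+1) P_j) * h_j⁻¹) P_j`, where `h_j⁻¹` is the inverse of a unit,
e.g. `Ring.inverse`).  Orthogonality to all lower degrees: `P_0..P_n` monic of degrees `0..n` span the
polynomials of degree `≤ n` (subtract leading terms, induction on the degree);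
`ell (P_k * P_k) = ell (P_k * X^k) = h_k` because `P_k - X^k` has degree `< k`.
The unit property: constant coefficient of `h_n` is `n!`: `h_0 = mom 0` has constant coefficient 1.
For `n ≥ 0`, ibp for `Q = P_{n+1} * P_n`:
`ell (derivative (P_{n+1} P_n)) = ell (P_{n+1}' P_n) + ell (P_{n+1} P_n') = (n+1) h_n + 0` (`P_{n+1}'` has
degree `n` and leading coefficient `n+1`; `P_n'` has degree `< n+1`) and
`ell ((X - 3tX^2) P_{n+1} P_n) = h_{n+1} - 3t * ell (P_{n+1} * (X^2 P_n))`.  So (S0)
`(n+1) h_n = h_{n+1} - 3 t ell (P_{n+1} X^2 P_n)`; constant coefficients give `h_{n+1}(0) = (n+1) h_n(0)`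
(at this stage only orthogonality of `P_{n+1}` and `h_{n+1} := ell (P_{n+1} X^(n+1))` are used).
string: `X^2 P_n = P_{n+2} + C (σ_{n+2} - σ_n) P_{n+1} + (degree < n+1)`, where
`σ_n = -(coefficient of x^(n-1) in P_n)`, `σ_0 = 0`: compare the coefficients of `x^(n+2)` (both 1) and
of `x^(n+1)`: `-σ_n = -σ_{n+2} + (σ_{n+2} - σ_n)`.  So `ell (P_{n+1} X^2 P_n) = (σ_{n+2} - σ_n) h_{n+1}`
(`ell (P_{n+1} P_{n+2}) = 0`).
-/

set_option autoImplicit false

namespace UN39

open Polynomial

/-- Gaussian moments -/
def gau : ℕ → ℚ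
  | 0 => 1
  | 1 => 0
  | (k + 2) => (k + 1) * gau k

noncomputable def mom (k : ℕ) : PowerSeries ℚ :=
  PowerSeries.mk fun m => gau (k + 3 * m) / (m.factorial : ℚ)

noncomputable def ell (Q : Polynomial (PowerSeries ℚ)) : PowerSeries ℚ :=
  Q.sum fun k a => a * mom k

/-- minus the second coefficient -/
noncomputable def sg (P : ℕ → Polynomial (PowerSeries ℚ)) (n : ℕ) : PowerSeries ℚ :=
  if n = 0 then 0 else - (P n).coeff (n - 1)

theorem ell_add (P Q : Polynomial (PowerSeries ℚ)) : ell (P + Q) = ell P + ell Q := by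
  unfold ell
  exact Polynomial.sum_add_index P Q _ (fun i => zero_mul _) (fun i a b => add_mul a b _)

theorem ell_C_mul (a : PowerSeries ℚ) (Q : Polynomial (PowerSeries ℚ)) :
    ell (C a * Q) = a * ell Q := by
  unfold ell
  rw [← Polynomial.smul_eq_C_mul,
    Polynomial.sum_smul_index Q a (fun k a => a * mom k) (fun i => zero_mul _),
    Polynomial.sum_def, Polynomial.sum_def, Finset.mul_sum]
  exact Finset.sum_congr rfl fun i _ => mul_assoc _ _ _

theorem ell_pow (k : ℕ) : ell (X ^ k) = mom k := by
  unfold ell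
  rw [← Polynomial.monomial_one_right_eq_X_pow,
    Polynomial.sum_monomial_index (1 : PowerSeries ℚ)
      (fun (k : ℕ) (a : PowerSeries ℚ) => a * mom k) (zero_mul _), one_mul]

theorem ell_sub (P Q : Polynomial (PowerSeries ℚ)) : ell (P - Q) = ell P - ell Q := by
  have h1 : P - Q = P + C (-1) * Q := by
    rw [C_neg, C_1]
    ring
  rw [h1, ell_add, ell_C_mul]
  ring

theorem ell_zero : ell 0 = 0 := by
  have h := ell_add 0 0
  rw [add_zero] at h
  have h2 : ell 0 + ell 0 = ell 0 + 0 := by rw [← h, add_zero]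
  exact add_left_cancel h2

theorem ell_sum {ι : Type} (s : Finset ι) (f : ι → Polynomial (PowerSeries ℚ)) :
    ell (∑ i ∈ s, f i) = ∑ i ∈ s, ell (f i) := by
  classical
  induction s using Finset.induction_on with
  | empty => rw [Finset.sum_empty, Finset.sum_empty, ell_zero]
  | insert a s ha ih => rw [Finset.sum_insert ha, Finset.sum_insert ha, ell_add, ih]

theorem mom_rec (k : ℕ) : (k : PowerSeries ℚ) * mom (k - 1) =
    mom (k + 1) - 3 * PowerSeries.X * mom (k + 2) := by
  ext m
  have h1 : (k : PowerSeries ℚ) * mom (k - 1) = PowerSeries.C (k : ℚ) * mom (k - 1) := by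
    rw [map_natCast]
  have h2 : 3 * PowerSeries.X * mom (k + 2) =
      PowerSeries.X * (PowerSeries.C (3 : ℚ) * mom (k + 2)) := by
    have h3 : (PowerSeries.C (3 : ℚ) : PowerSeries ℚ) = 3 := by
      rw [show (3 : ℚ) = ((3 : ℕ) : ℚ) by norm_num, map_natCast]
      norm_num
    rw [h3]
    ring
  rw [h1, h2, map_sub, PowerSeries.coeff_C_mul]
  cases m with
  | zero =>
    rw [PowerSeries.coeff_zero_X_mul]
    unfold mom
    rw [PowerSeries.coeff_mk, PowerSeries.coeff_mk]
    cases k with
    | zero => simp [gau]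
    | succ k =>
      simp only [Nat.add_sub_cancel, Nat.mul_zero, Nat.add_zero, sub_zero]
      rw [show gau (k + 1 + 1) = ((k : ℚ) + 1) * gau k by rfl]
      push_cast
      ring
  | succ m =>
    rw [PowerSeries.coeff_succ_X_mul, PowerSeries.coeff_C_mul]
    unfold mom
    rw [PowerSeries.coeff_mk, PowerSeries.coeff_mk, PowerSeries.coeff_mk]
    have e1 : k + 2 + 3 * m = (k + 3 * m) + 2 := by ring
    have e2 : k + 1 + 3 * (m + 1) = (k + 3 * m + 2) + 2 := by ring
    have e3 : gau (k + 1 + 3 * (m + 1)) = ((k : ℚ) + 3 * m + 3) * gau (k + 3 * m + 2) := by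
      rw [e2]
      show ((((k + 3 * m + 2 : ℕ)) : ℚ) + 1) * gau (k + 3 * m + 2) = _
      push_cast
      ring
    have e4 : (((m + 1).factorial : ℕ) : ℚ) = ((m : ℚ) + 1) * (m.factorial : ℚ) := by
      rw [Nat.factorial_succ]
      push_cast
      ring
    have e5 : ((m.factorial : ℕ) : ℚ) ≠ 0 := by
      exact_mod_cast Nat.factorial_ne_zero m
    have e6 : ((m : ℚ) + 1) ≠ 0 := by positivity
    rw [e3, e1, e4]
    cases k with
    | zero =>
      simp only [Nat.cast_zero, zero_mul, zero_add]
      field_simp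
      ring
    | succ k =>
      have e7 : k + 1 - 1 + 3 * (m + 1) = (k + 1) + 3 * m + 2 := by omega
      rw [e7]
      push_cast
      field_simp
      ring

theorem ibp (Q : Polynomial (PowerSeries ℚ)) :
    ell (derivative Q) = ell ((X - C (3 * PowerSeries.X) * X ^ 2) * Q) := by
  induction Q using Polynomial.induction_on' with
  | add P Q hP hQ => rw [derivative_add, ell_add, mul_add, ell_add, hP, hQ]
  | monomial k a =>
    have h1 : derivative (monomial k a) = C (a * (k : PowerSeries ℚ)) * X ^ (k - 1) := by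
      rw [derivative_monomial, C_mul_X_pow_eq_monomial]
    have h2 : (X - C (3 * PowerSeries.X) * X ^ 2) * (monomial k) a =
        C a * X ^ (k + 1) - C (a * (3 * PowerSeries.X)) * X ^ (k + 2) := by
      rw [← C_mul_X_pow_eq_monomial, C_mul (a := a)]
      ring
    rw [h1, h2, ell_sub, ell_C_mul, ell_C_mul, ell_C_mul, ell_pow, ell_pow, ell_pow, mul_assoc,
      mom_rec]
    ring

/-- the value on polynomials of degree at most `n` of the functional given by a polynomial
orthogonal to all lower degrees -/
theorem ell_top {P : Polynomial (PowerSeries ℚ)} {n : ℕ}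
    (hP : ∀ Q : Polynomial (PowerSeries ℚ), Q.degree < (n : WithBot ℕ) → ell (P * Q) = 0)
    {Q : Polynomial (PowerSeries ℚ)} (hQ : Q.degree < ((n + 1 : ℕ) : WithBot ℕ)) :
    ell (P * Q) = Q.coeff n * ell (P * X ^ n) := by
  have h1 : (Q - C (Q.coeff n) * X ^ n).degree < (n : WithBot ℕ) := by
    rw [Polynomial.degree_lt_iff_coeff_zero]
    intro m hm
    rw [coeff_sub, coeff_C_mul_X_pow]
    rcases eq_or_lt_of_le hm with h | h
    · rw [← h, if_pos rfl, sub_self]
    · rw [if_neg (by omega), sub_zero]
      exact Polynomial.coeff_eq_zero_of_degree_lt (lt_of_lt_of_le hQ (by exact_mod_cast h))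
  have h2 := hP _ h1
  have h3 : P * (Q - C (Q.coeff n) * X ^ n) = P * Q - C (Q.coeff n) * (P * X ^ n) := by ring
  rw [h3, ell_sub, ell_C_mul] at h2
  exact sub_eq_zero.mp h2

/-- orthogonal monic polynomial of degree `n` -/
def IsOrth (n : ℕ) (P : Polynomial (PowerSeries ℚ)) : Prop :=
  P.Monic ∧ P.natDegree = n ∧
    (∀ Q : Polynomial (PowerSeries ℚ), Q.degree < (n : WithBot ℕ) → ell (P * Q) = 0) ∧
    PowerSeries.constantCoeff (ell (P * X ^ n)) = (n.factorial : ℚ)

theorem degree_lt_succ_of_natDegree {P : Polynomial (PowerSeries ℚ)} {n : ℕ}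
    (h : P.natDegree ≤ n) : P.degree < ((n + 1 : ℕ) : WithBot ℕ) :=
  lt_of_le_of_lt Polynomial.degree_le_natDegree (by exact_mod_cast Nat.lt_succ_of_le h)

theorem isOrth_self {n : ℕ} {P : Polynomial (PowerSeries ℚ)} (hP : IsOrth n P) :
    ell (P * P) = ell (P * X ^ n) := by
  obtain ⟨h1, h2, h3, h4⟩ := hP
  rw [ell_top h3 (degree_lt_succ_of_natDegree h2.le)]
  have : P.coeff n = 1 := by
    rw [← h2]
    exact h1
  rw [this, one_mul]

/-- the relation from integration by parts -/
theorem s_zero {n : ℕ} {P P' : Polynomial (PowerSeries ℚ)}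
    (hP : P.Monic) (hPn : P.natDegree = n)
    (hP0 : ∀ Q : Polynomial (PowerSeries ℚ), Q.degree < (n : WithBot ℕ) → ell (P * Q) = 0)
    (hP' : P'.Monic) (hPn' : P'.natDegree = n + 1)
    (hP0' : ∀ Q : Polynomial (PowerSeries ℚ), Q.degree < ((n + 1 : ℕ) : WithBot ℕ) →
      ell (P' * Q) = 0) :
    ((n : PowerSeries ℚ) + 1) * ell (P * X ^ n) =
      ell (P' * X ^ (n + 1)) - 3 * PowerSeries.X * ell (P' * (X ^ 2 * P)) := by
  have hc : P.coeff n = 1 := by
    rw [← hPn]
    exact hP
  have hc' : P'.coeff (n + 1) = 1 := by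
    rw [← hPn']
    exact hP'
  have h1 := ibp (P' * P)
  have h2 : derivative (P' * P) = P * derivative P' + P' * derivative P := by
    rw [derivative_mul]
    ring
  have h3 : ell (P * derivative P') = ((n : PowerSeries ℚ) + 1) * ell (P * X ^ n) := by
    rw [ell_top hP0, coeff_derivative, hc', one_mul]
    refine degree_lt_succ_of_natDegree ?_
    have := Polynomial.natDegree_derivative_le P'
    omega
  have h4 : ell (P' * derivative P) = 0 := by
    refine hP0' _ ?_
    refine degree_lt_succ_of_natDegree ?_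
    have := Polynomial.natDegree_derivative_le P
    omega
  have h5 : (X - C (3 * PowerSeries.X) * X ^ 2) * (P' * P) =
      P' * (X * P) - C (3 * PowerSeries.X) * (P' * (X ^ 2 * P)) := by ring
  have h6 : ell (P' * (X * P)) = ell (P' * X ^ (n + 1)) := by
    rw [ell_top hP0', coeff_X_mul, hc, one_mul]
    refine degree_lt_succ_of_natDegree ?_
    have := Polynomial.natDegree_mul_le (p := (X : Polynomial (PowerSeries ℚ))) (q := P)
    have h7 := Polynomial.natDegree_X_le (R := PowerSeries ℚ)
    omega
  rw [h2, ell_add, h3, h4, add_zero, h5, ell_sub, h6, ell_C_mul] at h1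
  exact h1

theorem exists_isOrth (n : ℕ) : ∃ P, IsOrth n P := by
  induction n using Nat.strong_induction_on with
  | _ n ih =>
    choose P hP using ih
    -- extend by zero
    obtain ⟨p, hp⟩ : ∃ p : ℕ → Polynomial (PowerSeries ℚ), ∀ j, ∀ hj : j < n, p j = P j hj :=
      ⟨fun j => if hj : j < n then P j hj else 0, fun j hj => by
        simp only
        rw [dif_pos hj]⟩
    have hp' : ∀ j, j < n → IsOrth j (p j) := fun j hj => by
      rw [hp j hj]
      exact hP j hj
    -- the constants
    have hinv : ∀ j, j < n → ∃ u : PowerSeries ℚ, u * ell (p j * p j) = 1 := by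
      intro j hj
      have h1 := isOrth_self (hp' j hj)
      have h2 : IsUnit (ell (p j * p j)) := by
        rw [h1, PowerSeries.isUnit_iff_constantCoeff, (hp' j hj).2.2.2, isUnit_iff_ne_zero]
        exact_mod_cast Nat.factorial_ne_zero j
      obtain ⟨u, hu⟩ := h2.exists_left_inv
      exact ⟨u, hu⟩
    choose u hu using hinv
    obtain ⟨v, hv⟩ : ∃ v : ℕ → PowerSeries ℚ, ∀ j, j < n → v j * ell (p j * p j) = 1 :=
      ⟨fun j => if hj : j < n then u j hj else 0, fun j hj => by
        simp only
        rw [dif_pos hj]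
        exact hu j hj⟩
    obtain ⟨T, hT⟩ : ∃ T : Polynomial (PowerSeries ℚ), T =
        ∑ j ∈ Finset.range n, C (ell (X ^ n * p j) * v j) * p j := ⟨_, rfl⟩
    have hTd : T.degree < (n : WithBot ℕ) := by
      rw [Polynomial.degree_lt_iff_coeff_zero]
      intro m hm
      rw [hT, Polynomial.finsetSum_coeff]
      refine Finset.sum_eq_zero fun j hj => ?_
      rw [Finset.mem_range] at hj
      rw [coeff_C_mul, Polynomial.coeff_eq_zero_of_natDegree_lt, mul_zero]
      rw [(hp' j hj).2.1]
      omega
    obtain ⟨q, hq⟩ : ∃ q : Polynomial (PowerSeries ℚ), q = X ^ n - T := ⟨_, rfl⟩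
    have hTd' : (-T).degree < (n : WithBot ℕ) := by
      rw [Polynomial.degree_neg]
      exact hTd
    have hq' : q = X ^ n + (-T) := by
      rw [hq, sub_eq_add_neg]
    have hqm : q.Monic := by
      rw [hq']
      exact Polynomial.monic_X_pow_add hTd'
    have hqn : q.natDegree = n := by
      rw [hq']
      refine Polynomial.natDegree_eq_of_degree_eq_some ?_
      rw [Polynomial.degree_add_eq_left_of_degree_lt, Polynomial.degree_X_pow]
      rw [Polynomial.degree_X_pow]
      exact hTd'
    -- orthogonality to the `p j`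
    have hpp : ∀ i j, i < n → j < n → i ≠ j → ell (p i * p j) = 0 := by
      intro i j hi hj hij
      rcases lt_or_gt_of_ne hij with h | h
      · rw [mul_comm]
        refine (hp' j hj).2.2.1 _ ?_
        refine lt_of_le_of_lt Polynomial.degree_le_natDegree ?_
        rw [(hp' i hi).2.1]
        exact_mod_cast h
      · refine (hp' i hi).2.2.1 _ ?_
        refine lt_of_le_of_lt Polynomial.degree_le_natDegree ?_
        rw [(hp' j hj).2.1]
        exact_mod_cast h
    have hqp : ∀ j, j < n → ell (q * p j) = 0 := by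
      intro j hj
      have h1 : q * p j = X ^ n * p j -
          ∑ i ∈ Finset.range n, C (ell (X ^ n * p i) * v i) * (p i * p j) := by
        have h0 : T * p j = ∑ i ∈ Finset.range n, C (ell (X ^ n * p i) * v i) * (p i * p j) := by
          rw [hT, Finset.sum_mul]
          refine Finset.sum_congr rfl fun i _ => ?_
          rw [mul_assoc]
        rw [hq, sub_mul, h0]
      rw [h1, ell_sub, ell_sum, Finset.sum_eq_single_of_mem j (Finset.mem_range.mpr hj)]
      · rw [ell_C_mul, mul_assoc, hv j hj, mul_one, sub_self]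
      · intro i hi hij
        rw [Finset.mem_range] at hi
        rw [ell_C_mul, hpp i j hi hj hij, mul_zero]
    have horth : ∀ k, k ≤ n → ∀ Q : Polynomial (PowerSeries ℚ), Q.degree < (k : WithBot ℕ) →
        ell (q * Q) = 0 := by
      intro k
      induction k with
      | zero =>
        intro _ Q hQ
        have h1 : Q = 0 := by
          refine Polynomial.ext fun m => ?_
          rw [coeff_zero]
          exact (Polynomial.degree_lt_iff_coeff_zero Q 0).mp hQ m (Nat.zero_le m)
        rw [h1, mul_zero, ell_zero]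
      | succ k ihk =>
        intro hk Q hQ
        have h1 : (Q - C (Q.coeff k) * p k).degree < (k : WithBot ℕ) := by
          rw [Polynomial.degree_lt_iff_coeff_zero]
          intro m hm
          rw [coeff_sub, coeff_C_mul]
          rcases eq_or_lt_of_le hm with h | h
          · have h2 : (p k).coeff k = 1 := by
              have h3 := (hp' k (by omega)).1
              have h4 := (hp' k (by omega)).2.1
              unfold Polynomial.Monic Polynomial.leadingCoeff at h3
              rw [h4] at h3
              exact h3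
            rw [← h, h2, mul_one, sub_self]
          · have h2 : (p k).coeff m = 0 := by
              refine Polynomial.coeff_eq_zero_of_natDegree_lt ?_
              rw [(hp' k (by omega)).2.1]
              exact h
            rw [h2, mul_zero, sub_zero]
            exact (Polynomial.degree_lt_iff_coeff_zero Q (k + 1)).mp hQ m h
        have h2 := ihk (by omega) _ h1
        have h3 : q * (Q - C (Q.coeff k) * p k) = q * Q - C (Q.coeff k) * (q * p k) := by ring
        rw [h3, ell_sub, ell_C_mul, hqp k (by omega), mul_zero, sub_zero] at h2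
        exact h2
    refine ⟨q, hqm, hqn, horth n le_rfl, ?_⟩
    cases n with
    | zero =>
      have h1 : q = 1 := by
        have h2 := Polynomial.eq_one_of_monic_natDegree_zero hqm hqn
        exact h2
      rw [h1, one_mul, ell_pow]
      unfold mom
      rw [← PowerSeries.coeff_zero_eq_constantCoeff_apply, PowerSeries.coeff_mk]
      simp [gau]
    | succ n =>
      have hpn := hp' n (by omega)
      have h1 := s_zero hpn.1 hpn.2.1 hpn.2.2.1 hqm hqn (horth (n + 1) le_rfl)
      have h2 := congrArg PowerSeries.constantCoeff h1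
      rw [map_mul, map_sub, map_mul, map_mul, PowerSeries.constantCoeff_X, mul_zero, zero_mul,
        sub_zero, hpn.2.2.2, map_add, map_natCast, map_one] at h2
      rw [← h2, Nat.factorial_succ]
      push_cast
      ring

theorem orth_exists : ∃ (P : ℕ → Polynomial (PowerSeries ℚ)) (h : ℕ → PowerSeries ℚ),
    (∀ n, (P n).Monic) ∧ (∀ n, (P n).natDegree = n) ∧
    (∀ n, PowerSeries.constantCoeff (h n) = (n.factorial : ℚ)) ∧
    (∀ (n : ℕ) (Q : Polynomial (PowerSeries ℚ)), Q.degree < (n : WithBot ℕ) → ell (P n * Q) = 0) ∧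
    (∀ n, ell (P n * X ^ n) = h n) ∧
    (∀ n : ℕ, ((n : PowerSeries ℚ) + 1) * h n =
      h (n + 1) - 3 * PowerSeries.X * (sg P (n + 2) - sg P n) * h (n + 1)) := by
  choose P hP using exists_isOrth
  have hc : ∀ n, (P n).coeff n = 1 := by
    intro n
    have h3 := (hP n).1
    have h4 := (hP n).2.1
    unfold Polynomial.Monic Polynomial.leadingCoeff at h3
    rw [h4] at h3
    exact h3
  refine ⟨P, fun n => ell (P n * X ^ n), fun n => (hP n).1, fun n => (hP n).2.1,
    fun n => (hP n).2.2.2, fun n Q hQ => (hP n).2.2.1 Q hQ, fun n => rfl, ?_⟩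
  intro n
  have h1 := s_zero (hP n).1 (hP n).2.1 (hP n).2.2.1 (hP (n + 1)).1 (hP (n + 1)).2.1
    (hP (n + 1)).2.2.1
  simp only
  rw [h1]
  have h2 : ell (P (n + 1) * (X ^ 2 * P n)) =
      (sg P (n + 2) - sg P n) * ell (P (n + 1) * X ^ (n + 1)) := by
    have h3 : P (n + 1) * (X ^ 2 * P n) = P (n + 1) * (X ^ 2 * P n - P (n + 2)) +
        P (n + 2) * P (n + 1) := by ring
    have h4 : ell (P (n + 2) * P (n + 1)) = 0 := by
      refine (hP (n + 2)).2.2.1 _ ?_
      exact degree_lt_succ_of_natDegree (hP (n + 1)).2.1.le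
    rw [h3, ell_add, h4, add_zero, ell_top (hP (n + 1)).2.2.1]
    · congr 1
      rw [coeff_sub, mul_comm (X ^ 2) (P n)]
      cases n with
      | zero =>
        rw [Polynomial.coeff_mul_X_pow']
        unfold sg
        simp
      | succ n =>
        rw [show n + 1 + 1 = n + 2 by rfl, Polynomial.coeff_mul_X_pow]
        unfold sg
        rw [if_neg (by omega), if_neg (by omega)]
        simp only [Nat.add_sub_cancel]
        rw [show n + 1 + 2 - 1 = n + 2 by omega]
        ring
    · rw [Polynomial.degree_lt_iff_coeff_zero]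
      intro m hm
      rw [coeff_sub, mul_comm (X ^ 2) (P n)]
      obtain ⟨k, hk⟩ : ∃ k, m = k + 2 := ⟨m - 2, by omega⟩
      rw [hk, Polynomial.coeff_mul_X_pow]
      rcases Nat.eq_or_lt_of_le (show n ≤ k by omega) with h | h
      · rw [← h, hc n, hc (n + 2), sub_self]
      · rw [Polynomial.coeff_eq_zero_of_natDegree_lt, Polynomial.coeff_eq_zero_of_natDegree_lt,
          sub_zero]
        · rw [(hP (n + 2)).2.1]
          omega
        · rw [(hP n).2.1]
          exact h
  rw [h2]
  ring

end UN39
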