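import Mathlib
import Pool.Agent.H39.UN.Gau

/-!
[H39 UN HANK]  (MP_bcc40c_pr)  Hankel determinants by the orthogonal polynomials.

`esh N a` = `a` for `a < N - 1`, and `N` for `a = N - 1` (the last exponent is raised by one).

PROOFS.  Let `Q_a = P_a` for `a : Fin N`; `P_a = ∑_b T a b X^b` with `T` lower triangular, ones on the
diagonal (`det T = 1`).  `det (ell (P_a P_b)) = det (T * mom-matrix * Tᵀ) = det (mom (a+b))`; the left
matrix is diagonal with entries `h_a` (`ell (P_a P_a) = ell (P_a X^a) = h_a`, `P_a - X^a` has degree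
`< a`; different indices: 0).  This is hank0.
For hank1, hank2 (`N ≥ 1`) use for the last index the polynomial `W = P_N + C σ_N * P_{N-1}`,
`σ_N = sg P N = -(P N).coeff (N-1)`: `W = X^N + 0 * X^(N-1) + (degree < N-1)`.  So with
`Q'_a = P_a` (`a < N-1`), `Q'_{N-1} = W` one has `Q'_a = ∑_b T' a b X^(esh N b)` with `T'` lower
triangular with ones on the diagonal.  `det (mom (esh a + b)) = det (ell (Q'_a P_b))`, a lower triangular
matrix: entries `h_a` for `a < N-1`, and the last one `ell (W P_{N-1}) = σ_N h_{N-1}`; (for `b < N-1`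
`ell (W P_b) = 0`).  `det (mom (esh a + esh b)) = det (ell (Q'_a Q'_b))`: diagonal, last entry
`ell (W W) = h_N + σ_N^2 h_{N-1}`, and `ell (W P_b) = 0` for `b < N - 1`.  Multiply by `h_{N-1}`.
Here the statement is for every pair `P`, `h` with the properties of `orth_exists`.
-/

set_option autoImplicit false

namespace UN39

open Polynomial

/-- exponents with the last one raised -/
def esh (N : ℕ) (a : Fin N) : ℕ := if (a : ℕ) + 1 = N then N else a

theorem det_gen {N : ℕ} (e e' : Fin N → ℕ) (Q R : Fin N → Polynomial (PowerSeries ℚ))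
    (T S : Matrix (Fin N) (Fin N) (PowerSeries ℚ))
    (hQ : ∀ a, Q a = ∑ b, C (T a b) * X ^ (e b)) (hR : ∀ a, R a = ∑ b, C (S a b) * X ^ (e' b))
    (hT : T.det = 1) (hS : S.det = 1) :
    Matrix.det (Matrix.of fun a b : Fin N => mom (e a + e' b)) =
      Matrix.det (Matrix.of fun a b : Fin N => ell (Q a * R b)) := by
  have h1 : (Matrix.of fun a b : Fin N => ell (Q a * R b)) =
      T * (Matrix.of fun a b : Fin N => mom (e a + e' b)) * S.transpose := by
    refine Matrix.ext fun a b => ?_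
    rw [Matrix.of_apply, Matrix.mul_apply]
    have h2 : Q a * R b = ∑ c, ∑ d, C (T a d * S b c) * X ^ (e d + e' c) := by
      rw [hQ a, hR b, Finset.sum_mul_sum, Finset.sum_comm]
      refine Finset.sum_congr rfl fun c _ => Finset.sum_congr rfl fun d _ => ?_
      rw [C_mul, pow_add]
      ring
    rw [h2, ell_sum]
    refine Finset.sum_congr rfl fun c _ => ?_
    rw [ell_sum, Matrix.mul_apply, Matrix.transpose_apply, Finset.sum_mul]
    refine Finset.sum_congr rfl fun d _ => ?_
    rw [ell_C_mul, ell_pow, Matrix.of_apply]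
    ring
  rw [h1, Matrix.det_mul, Matrix.det_mul, Matrix.det_transpose, hT, hS, one_mul, mul_one]

theorem det_tri {N : ℕ} (T : Matrix (Fin N) (Fin N) (PowerSeries ℚ))
    (h0 : ∀ a b : Fin N, a < b → T a b = 0) (h1 : ∀ a, T a a = 1) : T.det = 1 := by
  rw [Matrix.det_of_isLowerTriangular T]
  · exact Finset.prod_eq_one fun a _ => h1 a
  · intro a b hab
    exact h0 a b hab

theorem det_dia {N : ℕ} (A : Matrix (Fin N) (Fin N) (PowerSeries ℚ))
    (h0 : ∀ a b : Fin N, a ≠ b → A a b = 0) : A.det = ∏ a, A a a := by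
  have h1 : A = Matrix.diagonal fun a => A a a := by
    refine Matrix.ext fun a b => ?_
    by_cases h : a = b
    · rw [h, Matrix.diagonal_apply_eq]
    · rw [Matrix.diagonal_apply_ne _ h, h0 a b h]
  calc A.det = (Matrix.diagonal fun a => A a a).det := congrArg Matrix.det h1
    _ = ∏ a, A a a := Matrix.det_diagonal

/-- orthogonality -/
theorem oo {P : ℕ → Polynomial (PowerSeries ℚ)} {h : ℕ → PowerSeries ℚ}
    (h1 : ∀ n, (P n).Monic) (h2 : ∀ n, (P n).natDegree = n)
    (h3 : ∀ (n : ℕ) (Q : Polynomial (PowerSeries ℚ)), Q.degree < (n : WithBot ℕ) → ell (P n * Q) = 0)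
    (h4 : ∀ n, ell (P n * X ^ n) = h n) (i j : ℕ) :
    ell (P i * P j) = if i = j then h i else 0 := by
  have hlt : ∀ i j : ℕ, i < j → (P i).degree < (j : WithBot ℕ) := by
    intro i j hij
    refine lt_of_le_of_lt Polynomial.degree_le_natDegree ?_
    rw [h2 i]
    exact_mod_cast hij
  rcases lt_trichotomy i j with h | h | h
  · rw [if_neg h.ne, mul_comm]
    exact h3 j _ (hlt i j h)
  · rw [if_pos h, ← h, ell_top (h3 i) (degree_lt_succ_of_natDegree (h2 i).le), h4 i]
    have : (P i).coeff i = 1 := by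
      have h5 := h1 i
      unfold Polynomial.Monic Polynomial.leadingCoeff at h5
      rw [h2 i] at h5
      exact h5
    rw [this, one_mul]
  · rw [if_neg h.ne']
    exact h3 i _ (hlt j i h)

theorem coeff_self {P : ℕ → Polynomial (PowerSeries ℚ)}
    (h1 : ∀ n, (P n).Monic) (h2 : ∀ n, (P n).natDegree = n) (i : ℕ) : (P i).coeff i = 1 := by
  have h5 := h1 i
  unfold Polynomial.Monic Polynomial.leadingCoeff at h5
  rw [h2 i] at h5
  exact h5

theorem rep0 {N : ℕ} {q : Polynomial (PowerSeries ℚ)} (hq : q.natDegree < N) :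
    q = ∑ b : Fin N, C (q.coeff b) * X ^ (b : ℕ) := by
  conv_lhs => rw [Polynomial.as_sum_range_C_mul_X_pow' q hq]
  rw [Finset.sum_range]

theorem hank0 {P : ℕ → Polynomial (PowerSeries ℚ)} {h : ℕ → PowerSeries ℚ}
    (h1 : ∀ n, (P n).Monic) (h2 : ∀ n, (P n).natDegree = n)
    (h3 : ∀ (n : ℕ) (Q : Polynomial (PowerSeries ℚ)), Q.degree < (n : WithBot ℕ) → ell (P n * Q) = 0)
    (h4 : ∀ n, ell (P n * X ^ n) = h n) (N : ℕ) :
    Matrix.det (Matrix.of fun a b : Fin N => mom ((a : ℕ) + b)) =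
      ∏ j ∈ Finset.range N, h j := by
  obtain ⟨T, hT⟩ : ∃ T : Matrix (Fin N) (Fin N) (PowerSeries ℚ), ∀ a b, T a b =
      (P a).coeff b := ⟨fun a b => (P a).coeff b, fun _ _ => rfl⟩
  have hT1 : T.det = 1 := by
    refine det_tri T ?_ ?_
    · intro a b hab
      rw [hT]
      refine Polynomial.coeff_eq_zero_of_natDegree_lt ?_
      rw [h2]
      exact hab
    · intro a
      rw [hT]
      exact coeff_self h1 h2 a
  have hP : ∀ a : Fin N, P a = ∑ b, C (T a b) * X ^ (b : ℕ) := by
    intro a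
    simp only [hT]
    refine rep0 ?_
    rw [h2]
    exact a.2
  rw [det_gen (fun a => (a : ℕ)) (fun a => (a : ℕ)) (fun a => P a) (fun a => P a) T T hP hP hT1
    hT1, det_dia]
  · rw [Finset.prod_range]
    refine Finset.prod_congr rfl fun a _ => ?_
    rw [Matrix.of_apply, oo h1 h2 h3 h4, if_pos rfl]
  · intro a b hab
    rw [Matrix.of_apply, oo h1 h2 h3 h4, if_neg]
    intro h
    exact hab (Fin.ext h)

theorem rep1 {n : ℕ} {q : Polynomial (PowerSeries ℚ)} (hq : q.natDegree < n + 2)
    (hq0 : q.coeff n = 0) :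
    q = ∑ b : Fin (n + 1), C (q.coeff (esh (n + 1) b)) * X ^ (esh (n + 1) b) := by
  conv_lhs => rw [Polynomial.as_sum_range_C_mul_X_pow' q hq]
  rw [Finset.sum_range_succ, Finset.sum_range_succ, hq0, C_0, zero_mul, add_zero,
    Fin.sum_univ_castSucc, Finset.sum_range]
  have e1 : esh (n + 1) (Fin.last n) = n + 1 := by
    unfold esh
    rw [if_pos]
    rfl
  have e2 : ∀ b : Fin n, esh (n + 1) b.castSucc = b := by
    intro b
    unfold esh
    rw [if_neg]
    · rfl
    · have := b.2
      simp only [Fin.val_castSucc]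
      omega
  rw [e1]
  simp only [e2]

/-- the modified family -/
noncomputable def Qf (P : ℕ → Polynomial (PowerSeries ℚ)) (n : ℕ) (a : Fin (n + 1)) :
    Polynomial (PowerSeries ℚ) :=
  if (a : ℕ) = n then P (n + 1) + C (sg P (n + 1)) * P n else P a

theorem sg_succ (P : ℕ → Polynomial (PowerSeries ℚ)) (n : ℕ) :
    sg P (n + 1) = - (P (n + 1)).coeff n := by
  unfold sg
  rw [if_neg (Nat.succ_ne_zero n), Nat.add_sub_cancel]

theorem Qf_rep {P : ℕ → Polynomial (PowerSeries ℚ)}
    (h1 : ∀ n, (P n).Monic) (h2 : ∀ n, (P n).natDegree = n) (n : ℕ) (a : Fin (n + 1)) :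
    Qf P n a = ∑ b : Fin (n + 1), C ((Qf P n a).coeff (esh (n + 1) b)) * X ^ (esh (n + 1) b) := by
  refine rep1 ?_ ?_
  · unfold Qf
    split_ifs with h
    · refine lt_of_le_of_lt (Polynomial.natDegree_add_le _ _) ?_
      refine max_lt ?_ ?_
      · rw [h2]
        omega
      · refine lt_of_le_of_lt (Polynomial.natDegree_C_mul_le _ _) ?_
        rw [h2]
        omega
    · rw [h2]
      have := a.2
      omega
  · unfold Qf
    split_ifs with h
    · rw [coeff_add, coeff_C_mul, coeff_self h1 h2, mul_one, sg_succ, add_neg_cancel]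
    · refine Polynomial.coeff_eq_zero_of_natDegree_lt ?_
      rw [h2]
      have := a.2
      omega

theorem Qf_det {P : ℕ → Polynomial (PowerSeries ℚ)}
    (h1 : ∀ n, (P n).Monic) (h2 : ∀ n, (P n).natDegree = n) (n : ℕ)
    (T : Matrix (Fin (n + 1)) (Fin (n + 1)) (PowerSeries ℚ))
    (hT : ∀ a b, T a b = (Qf P n a).coeff (esh (n + 1) b)) : T.det = 1 := by
  refine det_tri T ?_ ?_
  · intro a b hab
    have hb := b.2
    rw [Fin.lt_def] at hab
    rw [hT]
    unfold Qf
    rw [if_neg (by omega)]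
    refine Polynomial.coeff_eq_zero_of_natDegree_lt ?_
    rw [h2]
    unfold esh
    split_ifs <;> omega
  · intro a
    have ha := a.2
    rw [hT]
    unfold Qf esh
    by_cases h : (a : ℕ) = n
    · rw [if_pos h, if_pos (by omega), coeff_add, coeff_C_mul, coeff_self h1 h2,
        Polynomial.coeff_eq_zero_of_natDegree_lt (p := P n), mul_zero, add_zero]
      rw [h2]
      omega
    · rw [if_neg h, if_neg (by omega), coeff_self h1 h2]

theorem hank1 {P : ℕ → Polynomial (PowerSeries ℚ)} {h : ℕ → PowerSeries ℚ}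
    (h1 : ∀ n, (P n).Monic) (h2 : ∀ n, (P n).natDegree = n)
    (h3 : ∀ (n : ℕ) (Q : Polynomial (PowerSeries ℚ)), Q.degree < (n : WithBot ℕ) → ell (P n * Q) = 0)
    (h4 : ∀ n, ell (P n * X ^ n) = h n) (N : ℕ) (hN : 1 ≤ N) :
    Matrix.det (Matrix.of fun a b : Fin N => mom (esh N a + b)) =
      sg P N * ∏ j ∈ Finset.range N, h j := by
  obtain ⟨n, rfl⟩ : ∃ n, N = n + 1 := ⟨N - 1, by omega⟩
  have ho := oo h1 h2 h3 h4
  obtain ⟨T, hT⟩ : ∃ T : Matrix (Fin (n + 1)) (Fin (n + 1)) (PowerSeries ℚ), ∀ a b, T a b =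
      (Qf P n a).coeff (esh (n + 1) b) := ⟨fun a b => (Qf P n a).coeff (esh (n + 1) b),
      fun _ _ => rfl⟩
  obtain ⟨S, hS⟩ : ∃ S : Matrix (Fin (n + 1)) (Fin (n + 1)) (PowerSeries ℚ), ∀ a b, S a b =
      (P a).coeff b := ⟨fun a b => (P a).coeff b, fun _ _ => rfl⟩
  have hS1 : S.det = 1 := by
    refine det_tri S ?_ ?_
    · intro a b hab
      rw [hS]
      refine Polynomial.coeff_eq_zero_of_natDegree_lt ?_
      rw [h2]
      exact hab
    · intro a
      rw [hS]
      exact coeff_self h1 h2 a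
  have hP : ∀ a : Fin (n + 1), P a = ∑ b, C (S a b) * X ^ (b : ℕ) := by
    intro a
    simp only [hS]
    refine rep0 ?_
    rw [h2]
    exact a.2
  rw [det_gen (esh (n + 1)) (fun b => (b : ℕ)) (Qf P n) (fun a => P a) T S
    (fun a => by
      simp only [hT]
      exact Qf_rep h1 h2 n a) hP (Qf_det h1 h2 n T hT) hS1, det_dia]
  · rw [Fin.prod_univ_castSucc, Finset.prod_range_succ, Finset.prod_range]
    have e1 : ∀ b : Fin n, (Matrix.of fun a b : Fin (n + 1) => ell (Qf P n a * P b)) b.castSucc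
        b.castSucc = h b := by
      intro b
      have hb := b.2
      rw [Matrix.of_apply]
      unfold Qf
      rw [if_neg (by simp only [Fin.val_castSucc]; omega), ho, if_pos rfl]
      rfl
    have e2 : (Matrix.of fun a b : Fin (n + 1) => ell (Qf P n a * P b)) (Fin.last n)
        (Fin.last n) = sg P (n + 1) * h n := by
      rw [Matrix.of_apply]
      unfold Qf
      rw [if_pos (Fin.val_last n)]
      have e3 : (P (n + 1) + C (sg P (n + 1)) * P n) * P (Fin.last n : Fin (n + 1)) =
          P (n + 1) * P n + C (sg P (n + 1)) * (P n * P n) := by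
        rw [Fin.val_last]
        ring
      rw [e3, ell_add, ell_C_mul, ho, ho, if_neg (by omega), if_pos rfl, zero_add]
    rw [e2]
    simp only [e1]
    ring
  · intro a b hab
    have ha := a.2
    have hb := b.2
    have hab' : (a : ℕ) ≠ b := fun h => hab (Fin.ext h)
    rw [Matrix.of_apply]
    unfold Qf
    split_ifs with h
    · rw [add_mul, mul_assoc, ell_add, ell_C_mul, ho, ho, if_neg (by omega), if_neg (by omega),
        mul_zero, add_zero]
    · rw [ho, if_neg hab']

theorem hank2 {P : ℕ → Polynomial (PowerSeries ℚ)} {h : ℕ → PowerSeries ℚ}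
    (h1 : ∀ n, (P n).Monic) (h2 : ∀ n, (P n).natDegree = n)
    (h3 : ∀ (n : ℕ) (Q : Polynomial (PowerSeries ℚ)), Q.degree < (n : WithBot ℕ) → ell (P n * Q) = 0)
    (h4 : ∀ n, ell (P n * X ^ n) = h n) (N : ℕ) (hN : 1 ≤ N) :
    h (N - 1) * Matrix.det (Matrix.of fun a b : Fin N => mom (esh N a + esh N b)) =
      (sg P N ^ 2 * h (N - 1) + h N) * ∏ j ∈ Finset.range N, h j := by
  obtain ⟨n, rfl⟩ : ∃ n, N = n + 1 := ⟨N - 1, by omega⟩
  have ho := oo h1 h2 h3 h4
  obtain ⟨T, hT⟩ : ∃ T : Matrix (Fin (n + 1)) (Fin (n + 1)) (PowerSeries ℚ), ∀ a b, T a b =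
      (Qf P n a).coeff (esh (n + 1) b) := ⟨fun a b => (Qf P n a).coeff (esh (n + 1) b),
      fun _ _ => rfl⟩
  have hQ : ∀ a, Qf P n a = ∑ b, C (T a b) * X ^ (esh (n + 1) b) := fun a => by
    simp only [hT]
    exact Qf_rep h1 h2 n a
  rw [det_gen (esh (n + 1)) (esh (n + 1)) (Qf P n) (Qf P n) T T hQ hQ (Qf_det h1 h2 n T hT)
    (Qf_det h1 h2 n T hT), det_dia]
  · rw [Fin.prod_univ_castSucc, Finset.prod_range_succ, Finset.prod_range]
    have e1 : ∀ b : Fin n, (Matrix.of fun a b : Fin (n + 1) => ell (Qf P n a * Qf P n b))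
        b.castSucc b.castSucc = h b := by
      intro b
      have hb := b.2
      rw [Matrix.of_apply]
      unfold Qf
      rw [if_neg (by simp only [Fin.val_castSucc]; omega), ho, if_pos rfl]
      rfl
    have e2 : (Matrix.of fun a b : Fin (n + 1) => ell (Qf P n a * Qf P n b)) (Fin.last n)
        (Fin.last n) = h (n + 1) + sg P (n + 1) ^ 2 * h n := by
      rw [Matrix.of_apply]
      unfold Qf
      rw [if_pos (Fin.val_last n)]
      have e3 : (P (n + 1) + C (sg P (n + 1)) * P n) * (P (n + 1) + C (sg P (n + 1)) * P n) =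
          P (n + 1) * P (n + 1) + (C (sg P (n + 1)) * (P (n + 1) * P n) +
          (C (sg P (n + 1)) * (P n * P (n + 1)) +
          C (sg P (n + 1)) * (C (sg P (n + 1)) * (P n * P n)))) := by
        ring
      rw [e3, ell_add, ell_add, ell_add, ell_C_mul, ell_C_mul, ell_C_mul, ell_C_mul, ho, ho, ho,
        ho, if_pos rfl, if_pos rfl, if_neg (by omega), if_neg (by omega)]
      ring
    rw [e2]
    simp only [e1, Nat.add_sub_cancel]
    ring
  · intro a b hab
    have ha := a.2
    have hb := b.2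
    have hab' : (a : ℕ) ≠ b := fun h => hab (Fin.ext h)
    rw [Matrix.of_apply]
    unfold Qf
    split_ifs with h h'
    · exact absurd (h.trans h'.symm) hab'
    · rw [add_mul, mul_assoc, ell_add, ell_C_mul, ho, ho, if_neg (by omega), if_neg (by omega),
        mul_zero, add_zero]
    · rw [mul_add, mul_left_comm, ell_add, ell_C_mul, ho, ho, if_neg (by omega),
        if_neg (by omega), mul_zero, add_zero]
    · rw [ho, if_neg hab']

end UN39
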