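import Mathlib
import Pool.Agent.H39.UN.Gau

/-!
[H39 UN LFUN]  (MP_bcc40c_pr)  The Gaussian functional on polynomials in `N` variables.

`LG` is the linear functional with `LG (∏ x_i^(s_i)) = ∏ gau (s_i)`.

PROOFS.  LG_ibp: on monomials: `∂_i x^s = s_i x^(s - e_i)`; `x_i x^s` has the value
`gau (s_i + 1) ∏_{j ≠ i} gau (s_j)` and `gau (s_i + 1) = s_i gau (s_i - 1)`.
andreief: expand both determinants (`Matrix.det_apply`): the product of the two determinants is
`∑_{σ τ} sgn σ sgn τ ∏_i x_i^(a (σ i) + b (τ i))` (with `det (x_i^(a_j))`, `Matrix.of fun i j`, the term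
of `σ` is `∏_i M (σ i) i`; reindex as convenient, `det Mᵀ = det M`).  For exponents `c_i`:
`LG ((∑ x_i^3)^m ∏ x_i^(c_i)) = m! * coeff m (∏_i mom (c_i))`: multinomial theorem
(`Finset.sum_pow_of_commute`/`Finset.sum_pow` with `Finset.sym` or `Finset.piAntidiag`) on the left,
`PowerSeries.coeff_prod` (sum over `Finset.piAntidiag`/`finsuppAntidiag`) on the right:
`∑_{m_1+..+m_N = m} m!/∏ m_i! ∏ gau (c_i + 3 m_i)`.  (Or by induction on `m`/on `N`.)  Then
`∑_{σ τ} sgn σ sgn τ ∏_i mom (a (σ i) + b (τ i)) = N! det (mom (a_j + b_k))`: for fixed `σ` substitute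
`τ = ρ σ`: `sgn σ sgn τ = sgn ρ`, `∏_i mom (a (σ i) + b (ρ (σ i))) = ∏_j mom (a_j + b (ρ j))`.
-/

set_option autoImplicit false

namespace UN39

/-- Gaussian functional in `N` variables -/
noncomputable def LG (N : ℕ) : MvPolynomial (Fin N) ℚ →ₗ[ℚ] ℚ :=
  (MvPolynomial.basisMonomials (Fin N) ℚ).constr ℚ fun s => ∏ i, gau (s i)

theorem LG_monomial (N : ℕ) (s : Fin N →₀ ℕ) (c : ℚ) :
    LG N (MvPolynomial.monomial s c) = c * ∏ i, gau (s i) := by
  have h1 : MvPolynomial.monomial s c = c • (MvPolynomial.basisMonomials (Fin N) ℚ) s := by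
    rw [MvPolynomial.coe_basisMonomials, MvPolynomial.smul_monomial, smul_eq_mul, mul_one]
  rw [h1, map_smul, smul_eq_mul]
  unfold LG
  rw [Module.Basis.constr_basis]

theorem gau_succ (k : ℕ) : gau (k + 1) = (k : ℚ) * gau (k - 1) := by
  cases k with
  | zero => simp [gau]
  | succ k =>
    rw [Nat.add_sub_cancel]
    show ((k : ℚ) + 1) * gau k = _
    push_cast
    ring

theorem LG_ibp (N : ℕ) (i : Fin N) (Q : MvPolynomial (Fin N) ℚ) :
    LG N (MvPolynomial.pderiv i Q) = LG N (MvPolynomial.X i * Q) := by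
  classical
  induction Q using MvPolynomial.induction_on' with
  | add P Q hP hQ => rw [map_add, map_add, mul_add, map_add, hP, hQ]
  | monomial s a =>
    have h1 : (MvPolynomial.X i : MvPolynomial (Fin N) ℚ) * MvPolynomial.monomial s a =
        MvPolynomial.monomial (s + Finsupp.single i 1) a := by
      rw [MvPolynomial.monomial_add_single, pow_one, mul_comm]
    rw [MvPolynomial.pderiv_monomial, h1, LG_monomial, LG_monomial,
      ← Finset.mul_prod_erase Finset.univ _ (Finset.mem_univ i),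
      ← Finset.mul_prod_erase Finset.univ _ (Finset.mem_univ i)]
    have h2 : ∏ j ∈ Finset.univ.erase i, gau ((s - Finsupp.single i 1 : Fin N →₀ ℕ) j) =
        ∏ j ∈ Finset.univ.erase i, gau ((s + Finsupp.single i 1 : Fin N →₀ ℕ) j) := by
      refine Finset.prod_congr rfl fun j hj => ?_
      have hji : j ≠ i := Finset.ne_of_mem_erase hj
      rw [Finsupp.tsub_apply, Finsupp.add_apply, Finsupp.single_eq_of_ne hji, Nat.sub_zero,
        Nat.add_zero]
    have h3 : gau ((s + Finsupp.single i 1 : Fin N →₀ ℕ) i) =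
        (s i : ℚ) * gau ((s - Finsupp.single i 1 : Fin N →₀ ℕ) i) := by
      rw [Finsupp.tsub_apply, Finsupp.add_apply, Finsupp.single_eq_same, gau_succ]
    rw [h2, h3]
    ring

theorem LG_prod (N : ℕ) (c : Fin N → ℕ) :
    LG N (∏ l, MvPolynomial.X l ^ c l) = ∏ l, gau (c l) := by
  have h1 : (∏ l, MvPolynomial.X l ^ c l : MvPolynomial (Fin N) ℚ) =
      MvPolynomial.monomial (Finsupp.equivFunOnFinite.symm c) 1 := by
    rw [MvPolynomial.monomial_eq, map_one, one_mul, Finsupp.prod_fintype]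
    · rfl
    · intro i
      exact pow_zero _
  rw [h1, LG_monomial, one_mul]
  rfl

theorem der_mom (c : ℕ) : PowerSeries.derivative ℚ (mom c) = mom (c + 3) := by
  ext m
  rw [PowerSeries.coeff_derivative]
  unfold mom
  rw [PowerSeries.coeff_mk, PowerSeries.coeff_mk, show c + 3 * (m + 1) = c + 3 + 3 * m by ring,
    Nat.factorial_succ]
  have h1 : ((m.factorial : ℕ) : ℚ) ≠ 0 := by exact_mod_cast Nat.factorial_ne_zero m
  have h2 : ((m : ℚ) + 1) ≠ 0 := by positivity
  push_cast
  field_simp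

theorem der_prod_mom {N : ℕ} (c : Fin N → ℕ) (s : Finset (Fin N)) :
    PowerSeries.derivative ℚ (∏ l ∈ s, mom (c l)) =
      ∑ i ∈ s, ∏ l ∈ s, mom (Function.update c i (c i + 3) l) := by
  classical
  induction s using Finset.induction_on with
  | empty => simp
  | insert a s ha ih =>
    rw [Finset.prod_insert ha, Derivation.leibniz, ih, der_mom, Finset.sum_insert ha,
      Finset.prod_insert ha, Function.update_self, smul_eq_mul, smul_eq_mul, add_comm,
      Finset.mul_sum]
    congr 1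
    · rw [mul_comm]
      congr 1
      refine Finset.prod_congr rfl fun l hl => ?_
      rw [Function.update_of_ne]
      intro h
      exact ha (h ▸ hl)
    · refine Finset.sum_congr rfl fun i hi => ?_
      rw [Finset.prod_insert ha, Function.update_of_ne]
      intro h
      exact ha (h ▸ hi)

theorem LG_pow (N m : ℕ) (c : Fin N → ℕ) :
    LG N ((∑ i, MvPolynomial.X i ^ 3) ^ m * ∏ l, MvPolynomial.X l ^ c l) =
      (m.factorial : ℚ) * PowerSeries.coeff m (∏ l, mom (c l)) := by
  classical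
  induction m generalizing c with
  | zero =>
    rw [pow_zero, one_mul, LG_prod, PowerSeries.coeff_zero_eq_constantCoeff_apply, map_prod,
      Nat.factorial_zero, Nat.cast_one, one_mul]
    refine Finset.prod_congr rfl fun l _ => ?_
    unfold mom
    rw [← PowerSeries.coeff_zero_eq_constantCoeff_apply, PowerSeries.coeff_mk]
    simp
  | succ m ih =>
    have h1 : (∑ i, (MvPolynomial.X i : MvPolynomial (Fin N) ℚ) ^ 3) ^ (m + 1) *
        ∏ l, MvPolynomial.X l ^ c l = ∑ i, (∑ i, MvPolynomial.X i ^ 3) ^ m *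
          ∏ l, MvPolynomial.X l ^ (Function.update c i (c i + 3) l) := by
      rw [pow_succ, mul_assoc, Finset.sum_mul, Finset.mul_sum]
      refine Finset.sum_congr rfl fun i _ => ?_
      congr 1
      rw [← Finset.mul_prod_erase Finset.univ _ (Finset.mem_univ i),
        ← Finset.mul_prod_erase Finset.univ
          (fun l => (MvPolynomial.X l : MvPolynomial (Fin N) ℚ) ^
            (Function.update c i (c i + 3) l)) (Finset.mem_univ i)]
      have h2 : ∏ l ∈ Finset.univ.erase i, (MvPolynomial.X l : MvPolynomial (Fin N) ℚ) ^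
          (Function.update c i (c i + 3) l) =
          ∏ l ∈ Finset.univ.erase i, (MvPolynomial.X l : MvPolynomial (Fin N) ℚ) ^ c l := by
        refine Finset.prod_congr rfl fun l hl => ?_
        rw [Function.update_of_ne (Finset.ne_of_mem_erase hl)]
      rw [h2, Function.update_self, pow_add]
      ring
    rw [h1, map_sum]
    simp only [ih]
    rw [← Finset.mul_sum, ← map_sum, ← der_prod_mom c Finset.univ, PowerSeries.coeff_derivative,
      Nat.factorial_succ]
    push_cast
    ring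

theorem andreief (N m : ℕ) (a b : Fin N → ℕ) :
    LG N ((∑ i, MvPolynomial.X i ^ 3) ^ m *
      Matrix.det (Matrix.of fun i j : Fin N => (MvPolynomial.X i : MvPolynomial (Fin N) ℚ) ^ a j) *
      Matrix.det (Matrix.of fun i j : Fin N => (MvPolynomial.X i : MvPolynomial (Fin N) ℚ) ^ b j))
    = (m.factorial : ℚ) * (N.factorial : ℚ) *
      PowerSeries.coeff m (Matrix.det (Matrix.of fun j k : Fin N => mom (a j + b k))) := by
  classical
  -- one pair of permutations
  have key : ∀ σ τ : Equiv.Perm (Fin N),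
      LG N ((∑ i, MvPolynomial.X i ^ 3) ^ m *
        (∏ i, (MvPolynomial.X (σ i) : MvPolynomial (Fin N) ℚ) ^ a i) *
        (∏ i, (MvPolynomial.X (τ i) : MvPolynomial (Fin N) ℚ) ^ b i)) =
      (m.factorial : ℚ) * PowerSeries.coeff m (∏ j, mom (a j + b ((τ⁻¹ * σ) j))) := by
    intro σ τ
    have h1 : (∏ i, (MvPolynomial.X (σ i) : MvPolynomial (Fin N) ℚ) ^ a i) =
        ∏ l, MvPolynomial.X l ^ a (σ⁻¹ l) := by
      rw [← Equiv.prod_comp σ (fun l => (MvPolynomial.X l : MvPolynomial (Fin N) ℚ) ^ a (σ⁻¹ l))]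
      refine Finset.prod_congr rfl fun i _ => ?_
      simp
    have h2 : (∏ i, (MvPolynomial.X (τ i) : MvPolynomial (Fin N) ℚ) ^ b i) =
        ∏ l, MvPolynomial.X l ^ b (τ⁻¹ l) := by
      rw [← Equiv.prod_comp τ (fun l => (MvPolynomial.X l : MvPolynomial (Fin N) ℚ) ^ b (τ⁻¹ l))]
      refine Finset.prod_congr rfl fun i _ => ?_
      simp
    have h3 : (∏ l, MvPolynomial.X l ^ a (σ⁻¹ l) : MvPolynomial (Fin N) ℚ) *
        ∏ l, MvPolynomial.X l ^ b (τ⁻¹ l) =
        ∏ l, MvPolynomial.X l ^ (a (σ⁻¹ l) + b (τ⁻¹ l)) := by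
      rw [← Finset.prod_mul_distrib]
      refine Finset.prod_congr rfl fun l _ => ?_
      rw [pow_add]
    rw [h1, h2, mul_assoc, h3, LG_pow]
    congr 2
    rw [← Equiv.prod_comp σ]
    refine Finset.prod_congr rfl fun j _ => ?_
    simp
  -- expansion
  have h1 : (∑ i, (MvPolynomial.X i : MvPolynomial (Fin N) ℚ) ^ 3) ^ m *
      Matrix.det (Matrix.of fun i j : Fin N => (MvPolynomial.X i : MvPolynomial (Fin N) ℚ) ^ a j) *
      Matrix.det (Matrix.of fun i j : Fin N => (MvPolynomial.X i : MvPolynomial (Fin N) ℚ) ^ b j) =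
      ∑ σ : Equiv.Perm (Fin N), ∑ τ : Equiv.Perm (Fin N),
        (((Equiv.Perm.sign σ : ℤ) : ℚ) * ((Equiv.Perm.sign τ : ℤ) : ℚ)) •
        ((∑ i, MvPolynomial.X i ^ 3) ^ m *
        (∏ i, (MvPolynomial.X (σ i) : MvPolynomial (Fin N) ℚ) ^ a i) *
        (∏ i, (MvPolynomial.X (τ i) : MvPolynomial (Fin N) ℚ) ^ b i)) := by
    rw [mul_assoc, Matrix.det_apply', Matrix.det_apply', Finset.sum_mul_sum, Finset.mul_sum]
    refine Finset.sum_congr rfl fun σ _ => ?_
    rw [Finset.mul_sum]
    refine Finset.sum_congr rfl fun τ _ => ?_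
    rw [MvPolynomial.smul_eq_C_mul, MvPolynomial.C_mul]
    simp only [Matrix.of_apply, map_intCast]
    ring
  rw [h1, map_sum]
  have h2 : ∀ σ : Equiv.Perm (Fin N), LG N (∑ τ : Equiv.Perm (Fin N),
        (((Equiv.Perm.sign σ : ℤ) : ℚ) * ((Equiv.Perm.sign τ : ℤ) : ℚ)) •
        ((∑ i, MvPolynomial.X i ^ 3) ^ m *
        (∏ i, (MvPolynomial.X (σ i) : MvPolynomial (Fin N) ℚ) ^ a i) *
        (∏ i, (MvPolynomial.X (τ i) : MvPolynomial (Fin N) ℚ) ^ b i))) =
      (m.factorial : ℚ) * PowerSeries.coeff m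
        (Matrix.det (Matrix.of fun j k : Fin N => mom (a j + b k))) := by
    intro σ
    rw [map_sum, ← Matrix.det_transpose, Matrix.det_apply', map_sum, Finset.mul_sum]
    -- substitution `ρ = τ⁻¹ σ`
    refine Finset.sum_nbij' (fun τ => τ⁻¹ * σ) (fun ρ => σ * ρ⁻¹) ?_ ?_ ?_ ?_ ?_
    · intro τ _
      exact Finset.mem_univ _
    · intro τ _
      exact Finset.mem_univ _
    · intro τ _
      simp
    · intro ρ _
      simp
    · intro τ _
      rw [map_smul, key, smul_eq_mul]
      have h4 : PowerSeries.coeff m (((Equiv.Perm.sign (τ⁻¹ * σ) : ℤ) : PowerSeries ℚ) *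
          ∏ i, (Matrix.of fun j k : Fin N => mom (a j + b k)).transpose ((τ⁻¹ * σ) i) i) =
          (((Equiv.Perm.sign (τ⁻¹ * σ) : ℤ) : ℚ)) *
          PowerSeries.coeff m (∏ j, mom (a j + b ((τ⁻¹ * σ) j))) := by
        rw [← map_intCast (PowerSeries.C (R := ℚ)), PowerSeries.coeff_C_mul]
        rfl
      rw [h4, map_mul, Equiv.Perm.sign_inv]
      push_cast
      ring
  simp only [h2]
  rw [Finset.sum_const, Finset.card_univ, Fintype.card_perm, Fintype.card_fin, nsmul_eq_mul]
  ring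

end UN39
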