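import Mathlib
import Pool.Agent.H39.UN.Gau
import Pool.Agent.H39.UN.Hank

/-!
[H39 UN VDM]  (MP_bcc40c_pr)  Facts on the Vandermonde polynomial `Δ = det (x_i^j)`.

PROOFS.  vdm1 (`N ≥ 1`): `(∑ x_i) Δ = det (x_i^(esh N j))`.  In general, for exponents `e : Fin N → ℕ`,
`(∑_i x_i) det (x_i^(e_j)) = ∑_k det (x_i^(e_j + [j = k]))`: expand with `Matrix.det_apply'`; for a
permutation `σ` the product is `∏_i x_(σ i)^(e_i)`, multiply by `∑_i x_(σ i)`.  For `e_j = j` and
`k + 1 < N` the determinant with raised `k`-th exponent has two equal columns `k`, `k + 1`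
(`Matrix.det_zero_of_column_eq`); only `k = N - 1` remains.
vdm2: let `v` be the derivation `∑_i x_i^(k+1) ∂_i` (`MvPolynomial.mkDerivation ℚ (fun i => X i ^ (k+1))`).
`Δ^2 = ∏_{i<j} (x_j - x_i)^2` (`Matrix.det_vandermonde`).  `v (x_j - x_i) = x_j^(k+1) - x_i^(k+1) =
(x_j - x_i) ∑_{a ≤ k} x_j^a x_i^(k-a)`, so by the Leibniz rule (`Derivation.leibniz_prod` or induction
over the finite set of pairs) `v (Δ^2) = Δ^2 * 2 ∑_{i<j} ∑_{a≤k} x_j^a x_i^(k-a)`.  By symmetry
`a ↔ k - a` this is `Δ^2 ∑_{i≠j} ∑_{a≤k} x_j^a x_i^(k-a) = Δ^2 (∑_{a≤k} p_a p_(k-a) - (k+1) p_k)`.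
And `∑_i ∂_i (x_i^(k+1) G) = (k+1) p_k G + v G`.
vdm3: the same with exponent `0`: `v = ∑ ∂_i` kills `x_j - x_i`.
-/

set_option autoImplicit false

namespace UN39

open MvPolynomial

/-- the Vandermonde polynomial -/
noncomputable def Vd (N : ℕ) : MvPolynomial (Fin N) ℚ :=
  Matrix.det (Matrix.of fun i j : Fin N => (X i : MvPolynomial (Fin N) ℚ) ^ (j : ℕ))

/-- power sums -/
noncomputable def ps (N k : ℕ) : MvPolynomial (Fin N) ℚ := ∑ i, X i ^ k

theorem sum_det_updateCol {N : ℕ} {R : Type} [CommRing R] (M : Matrix (Fin N) (Fin N) R)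
    (x : Fin N → R) :
    (∑ i, x i) * M.det = ∑ k, (M.updateCol k fun i => x i * M i k).det := by
  have h1 : ∀ k, (M.updateCol k fun i => x i * M i k).det =
      (M.adjugate * (Matrix.diagonal x * M)) k k := by
    intro k
    have h2 : (M.updateCol k fun i => x i * M i k).det =
        Matrix.cramer M (fun i => x i * M i k) k := by
      rw [Matrix.cramer_apply]
    rw [h2, Matrix.cramer_eq_adjugate_mulVec, Matrix.mulVec, Matrix.mul_apply]
    refine Finset.sum_congr rfl fun i _ => ?_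
    rw [Matrix.diagonal_mul]
  simp only [h1]
  have h3 : ∑ k, (M.adjugate * (Matrix.diagonal x * M)) k k =
      Matrix.trace (M.adjugate * (Matrix.diagonal x * M)) := rfl
  rw [h3, Matrix.trace_mul_comm, Matrix.mul_assoc, Matrix.mul_adjugate, Matrix.mul_smul,
    Matrix.mul_one, Matrix.trace_smul, Matrix.trace_diagonal, smul_eq_mul, mul_comm]

theorem vdm1 (N : ℕ) (hN : 1 ≤ N) : ps N 1 * Vd N =
    Matrix.det (Matrix.of fun i j : Fin N => (X i : MvPolynomial (Fin N) ℚ) ^ esh N j) := by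
  obtain ⟨n, rfl⟩ : ∃ n, N = n + 1 := ⟨N - 1, by omega⟩
  unfold ps Vd
  simp only [pow_one]
  rw [sum_det_updateCol, Finset.sum_eq_single (Fin.last n)]
  · congr 1
    refine Matrix.ext fun i j => ?_
    rw [Matrix.updateCol_apply]
    unfold esh
    by_cases h1 : j = Fin.last n
    · rw [if_pos h1, Matrix.of_apply, Matrix.of_apply, Fin.val_last,
        if_pos (by rw [h1, Fin.val_last]), pow_succ]
      ring
    · have h2 : ¬ (j : ℕ) + 1 = n + 1 := fun h => h1 (Fin.ext (by rw [Fin.val_last]; omega))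
      rw [if_neg h1, Matrix.of_apply, Matrix.of_apply, if_neg h2]
  · intro k _ hk
    have hk' : (k : ℕ) + 1 < n + 1 := by
      have h1 := k.2
      have h2 : (k : ℕ) ≠ n := fun h => hk (Fin.ext (by rw [Fin.val_last]; exact h))
      omega
    refine Matrix.det_zero_of_column_eq (i := k) (j := ⟨(k : ℕ) + 1, hk'⟩) ?_ ?_
    · intro h
      have := congrArg Fin.val h
      simp only at this
      omega
    · intro i
      rw [Matrix.updateCol_self, Matrix.updateCol_ne, Matrix.of_apply, Matrix.of_apply]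
      · rw [pow_succ]
        ring
      · intro h
        have := congrArg Fin.val h
        simp only at this
        omega
  · intro h
    exact absurd (Finset.mem_univ _) h

/-- the pairs -/
def prs (N : ℕ) : Finset (Fin N × Fin N) := Finset.univ.filter fun p => p.1 < p.2

theorem Vd_eq (N : ℕ) : Vd N = ∏ p ∈ prs N, (X p.2 - X p.1 : MvPolynomial (Fin N) ℚ) := by
  have h1 : Vd N = (Matrix.vandermonde fun i : Fin N => (X i : MvPolynomial (Fin N) ℚ)).det := rfl
  rw [h1, Matrix.det_vandermonde]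
  unfold prs
  rw [Finset.prod_filter, ← Finset.univ_product_univ, Finset.prod_product]
  refine Finset.prod_congr rfl fun i _ => ?_
  simp only
  rw [← Finset.prod_filter]
  refine Finset.prod_congr ?_ fun _ _ => rfl
  ext j
  rw [Finset.mem_Ioi, Finset.mem_filter]
  simp

/-- a derivation with eigenfunctions -/
theorem der_prod {N : ℕ} {ι : Type} (v : Derivation ℚ (MvPolynomial (Fin N) ℚ)
    (MvPolynomial (Fin N) ℚ)) (s : Finset ι) (f g : ι → MvPolynomial (Fin N) ℚ)
    (h : ∀ p ∈ s, v (f p) = f p * g p) : v (∏ p ∈ s, f p) = (∏ p ∈ s, f p) * ∑ p ∈ s, g p := by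
  classical
  induction s using Finset.induction_on with
  | empty => simp
  | insert a s ha ih =>
    rw [Finset.prod_insert ha, Finset.sum_insert ha, Derivation.leibniz,
      ih fun p hp => h p (Finset.mem_insert_of_mem hp), h a (Finset.mem_insert_self a s),
      smul_eq_mul, smul_eq_mul]
    ring

/-- the vector field -/
noncomputable def vf (N k : ℕ) : Derivation ℚ (MvPolynomial (Fin N) ℚ)
    (MvPolynomial (Fin N) ℚ) := ∑ i, (X i ^ k : MvPolynomial (Fin N) ℚ) • pderiv i

theorem vf_apply (N k : ℕ) (f : MvPolynomial (Fin N) ℚ) :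
    vf N k f = ∑ i, X i ^ k * pderiv i f := by
  classical
  unfold vf
  have h : ∀ s : Finset (Fin N), (∑ i ∈ s, (X i ^ k : MvPolynomial (Fin N) ℚ) • pderiv i :
      Derivation ℚ (MvPolynomial (Fin N) ℚ) (MvPolynomial (Fin N) ℚ)) f =
      ∑ i ∈ s, X i ^ k * pderiv i f := by
    intro s
    induction s using Finset.induction_on with
    | empty => simp
    | insert a s ha ih =>
      rw [Finset.sum_insert ha, Finset.sum_insert ha, Derivation.add_apply, ih]
      rfl
  exact h Finset.univ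

theorem vf_X (N k : ℕ) (j : Fin N) : vf N k (X j) = X j ^ k := by
  rw [vf_apply, Finset.sum_eq_single j]
  · rw [pderiv_X_self, mul_one]
  · intro i _ hij
    rw [pderiv_X_of_ne hij.symm, mul_zero]
  · intro h
    exact absurd (Finset.mem_univ _) h

/-- the divided difference -/
noncomputable def dd (N k : ℕ) (p : Fin N × Fin N) : MvPolynomial (Fin N) ℚ :=
  ∑ a ∈ Finset.range (k + 1), X p.2 ^ a * X p.1 ^ (k - a)

theorem dd_symm (N k : ℕ) (p : Fin N × Fin N) : dd N k p.swap = dd N k p := by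
  unfold dd
  rw [← Finset.sum_range_reflect]
  refine Finset.sum_congr rfl fun a ha => ?_
  rw [Finset.mem_range] at ha
  rw [Prod.fst_swap, Prod.snd_swap, show k + 1 - 1 - a = k - a by omega,
    show k - (k - a) = a by omega]
  ring

theorem vf_diff (N k : ℕ) (p : Fin N × Fin N) :
    vf N (k + 1) (X p.2 - X p.1) = (X p.2 - X p.1) * dd N k p := by
  rw [map_sub, vf_X, vf_X]
  unfold dd
  have h := geom_sum₂_mul (X p.2 : MvPolynomial (Fin N) ℚ) (X p.1) (k + 1)
  rw [← h, mul_comm]
  congr 1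

theorem dd_sum (N k : ℕ) : 2 * ∑ p ∈ prs N, dd N k p =
    (∑ a ∈ Finset.range (k + 1), ps N a * ps N (k - a)) - ((k : MvPolynomial (Fin N) ℚ) + 1) *
      ps N k := by
  classical
  have h1 : ∑ p : Fin N × Fin N, dd N k p =
      ∑ a ∈ Finset.range (k + 1), ps N a * ps N (k - a) := by
    unfold dd
    rw [Finset.sum_comm]
    refine Finset.sum_congr rfl fun a _ => ?_
    unfold ps
    rw [mul_comm, Finset.sum_mul_sum, ← Finset.univ_product_univ, Finset.sum_product]
    refine Finset.sum_congr rfl fun i _ => Finset.sum_congr rfl fun j _ => ?_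
    simp only
    ring
  have h2 : ∑ p : Fin N × Fin N, dd N k p =
      ∑ p ∈ prs N, dd N k p + (∑ p ∈ Finset.univ.filter (fun p : Fin N × Fin N => p.2 < p.1),
        dd N k p + ∑ p ∈ Finset.univ.filter (fun p : Fin N × Fin N => p.1 = p.2), dd N k p) := by
    unfold prs
    rw [Finset.sum_filter, Finset.sum_filter, Finset.sum_filter, ← Finset.sum_add_distrib,
      ← Finset.sum_add_distrib]
    refine Finset.sum_congr rfl fun p _ => ?_
    rcases lt_trichotomy p.1 p.2 with h | h | h
    · rw [if_pos h, if_neg (not_lt.mpr h.le), if_neg h.ne]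
      ring
    · rw [if_neg (not_lt.mpr h.ge), if_neg (not_lt.mpr h.le), if_pos h]
      ring
    · rw [if_neg (not_lt.mpr h.le), if_pos h, if_neg h.ne']
      ring
  have h3 : ∑ p ∈ Finset.univ.filter (fun p : Fin N × Fin N => p.2 < p.1), dd N k p =
      ∑ p ∈ prs N, dd N k p := by
    unfold prs
    refine Finset.sum_nbij' Prod.swap Prod.swap ?_ ?_ ?_ ?_ ?_
    · intro p hp
      rw [Finset.mem_filter] at hp ⊢
      exact ⟨Finset.mem_univ _, hp.2⟩
    · intro p hp
      rw [Finset.mem_filter] at hp ⊢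
      exact ⟨Finset.mem_univ _, hp.2⟩
    · intro p _
      exact Prod.swap_swap p
    · intro p _
      exact Prod.swap_swap p
    · intro p _
      exact (dd_symm N k p).symm
  have h4 : ∑ p ∈ Finset.univ.filter (fun p : Fin N × Fin N => p.1 = p.2), dd N k p =
      ((k : MvPolynomial (Fin N) ℚ) + 1) * ps N k := by
    unfold ps
    rw [Finset.mul_sum, Finset.sum_filter, ← Finset.univ_product_univ, Finset.sum_product]
    refine Finset.sum_congr rfl fun i _ => ?_
    simp only
    rw [Finset.sum_ite_eq, if_pos (Finset.mem_univ _)]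
    unfold dd
    simp only
    have h5 : ∀ a ∈ Finset.range (k + 1), (X i : MvPolynomial (Fin N) ℚ) ^ a * X i ^ (k - a) =
        X i ^ k := by
      intro a ha
      rw [Finset.mem_range] at ha
      rw [← pow_add]
      congr 1
      omega
    rw [Finset.sum_congr rfl h5, Finset.sum_const, Finset.card_range, nsmul_eq_mul]
    push_cast
    ring
  rw [h3, h4, h1] at h2
  rw [h2]
  ring

theorem vdm2 (N k : ℕ) : ∑ i, pderiv i (X i ^ (k + 1) * Vd N ^ 2) =
    (∑ a ∈ Finset.range (k + 1), ps N a * ps N (k - a)) * Vd N ^ 2 := by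
  have h1 : ∑ i, pderiv i (X i ^ (k + 1) * Vd N ^ 2) =
      ((k : MvPolynomial (Fin N) ℚ) + 1) * ps N k * Vd N ^ 2 + vf N (k + 1) (Vd N ^ 2) := by
    rw [vf_apply]
    unfold ps
    rw [Finset.mul_sum, Finset.sum_mul, ← Finset.sum_add_distrib]
    refine Finset.sum_congr rfl fun i _ => ?_
    rw [Derivation.leibniz, (pderiv i).leibniz_pow (X i) (k + 1), pderiv_X_self, smul_eq_mul,
      smul_eq_mul, smul_eq_mul, nsmul_eq_mul, Nat.add_sub_cancel]
    push_cast
    ring
  have h2 : vf N (k + 1) (Vd N) = Vd N * ∑ p ∈ prs N, dd N k p := by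
    rw [Vd_eq]
    exact der_prod _ _ _ _ fun p _ => vf_diff N k p
  have h3 : vf N (k + 1) (Vd N ^ 2) = Vd N ^ 2 * (2 * ∑ p ∈ prs N, dd N k p) := by
    rw [Derivation.leibniz_pow, h2, smul_eq_mul, nsmul_eq_mul]
    push_cast
    ring
  rw [h1, h3, dd_sum]
  ring

theorem vdm3 (N : ℕ) : ∑ i, pderiv i (Vd N ^ 2) = 0 := by
  have h1 : ∑ i, pderiv i (Vd N ^ 2) = vf N 0 (Vd N ^ 2) := by
    rw [vf_apply]
    refine Finset.sum_congr rfl fun i _ => ?_
    rw [pow_zero, one_mul]
  have h2 : vf N 0 (Vd N) = 0 := by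
    rw [Vd_eq]
    have h3 := der_prod (vf N 0) (prs N)
      (fun p => (X p.2 - X p.1 : MvPolynomial (Fin N) ℚ)) (fun _ => 0) (by
        intro p _
        rw [map_sub, vf_X, vf_X, pow_zero, pow_zero, sub_self, mul_zero])
    rw [h3, Finset.sum_const_zero, mul_zero]
  rw [h1, Derivation.leibniz_pow, h2, smul_zero, smul_zero]

end UN39
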