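import Mathlib
import Pool.Agent.H39.UN.Num

/-!
[H39 UN WLOOP]  (MP_bcc40c_pr)  All (not necessarily connected) gluings: numbers `w N l` by the loop
equation, and the component formula.

`wF N e l` with fuel `e`, `w N l = wF N (l.sum + l.length) l`.

PROOFS.  wF_fuel: as for `KF`: if the fuel is at least `l.sum + l.length` it does not matter (every
call has a smaller `sum + length`: `i :: (k-i) :: l` has sum less by 2 and length plus 1; the merges: sum
less by 2 (or the entry is 0, with factor 0), length less by 1; `0 :: l → l`: length less by 1).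
w_*: unfold once.
splits_assoc: induction on `l` (both sides for `x :: l` are the sums of three families: `x` in the
first, second, third part).  picks_splits: induction on `l`.
comp: strong induction on `cs.sum + cs.length + c0` (for all `c0`, `cs`).
`c0 = 0`: `w (0 :: cs) = N w cs`; on the right only `p = ([], cs)` contributes (K_zero), it occurs once in
`splits cs`: `((splits cs).map fun p => if p.1 = [] then F p.2 else 0).sum = F cs` (induction).
`c0 = k + 2`: by w_two, `w ((k+2) :: cs) = ∑_i w (i :: (k-i) :: cs) + ∑_{picks cs} p.1 w ((k+p.1) :: p.2)`.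
By the induction hypothesis for `(i, (k-i) :: cs)` and the definition of `splits ((k-i) :: cs)`:
`w (i :: (k-i) :: cs) = ∑_{p ∈ splits cs} (K(i :: (k-i) :: p.1) w p.2 + K(i :: p.1) w ((k-i) :: p.2))`, and
again by the induction hypothesis `w ((k-i) :: p.2) = ∑_{q ∈ splits p.2} K((k-i) :: q.1) w q.2`; use
splits_assoc to get `∑_{p ∈ splits cs} ∑_{q ∈ splits p.1} K(i :: q.1) K((k-i) :: q.2) w p.2`.  The merges:
induction hypothesis and picks_splits.  Compare with K_two.  `c0 = 1`: the same with w_one, K_one.
(In the picks parts an entry `p.1 = 0` has factor 0.)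
-/

set_option autoImplicit false

namespace UN39

open Polynomial

/-- all gluings, with fuel -/
noncomputable def wF (N : ℚ) : ℕ → List ℕ → ℚ
  | _, [] => 1
  | 0, _ :: _ => 0
  | e + 1, 0 :: l => N * wF N e l
  | e + 1, 1 :: l => ((picks l).map fun p => (p.1 : ℚ) * wF N e ((p.1 - 1) :: p.2)).sum
  | e + 1, (k + 2) :: l =>
      (∑ i ∈ Finset.range (k + 1), wF N e (i :: (k - i) :: l)) +
      ((picks l).map fun p => (p.1 : ℚ) * wF N e ((k + p.1) :: p.2)).sum

noncomputable def w (N : ℚ) (l : List ℕ) : ℚ := wF N (l.sum + l.length) l

theorem wl_picks_length {B : Type} {l : List B} {p : B × List B} (h : p ∈ picks l) :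
    p.2.length + 1 = l.length := by
  induction l generalizing p with
  | nil => simp [picks] at h
  | cons x xs ih =>
    rw [picks, List.mem_cons, List.mem_map] at h
    rcases h with rfl | ⟨q, hq, rfl⟩
    · simp
    · have := ih hq
      simp only [List.length_cons]
      omega

theorem wl_splits_length {B : Type} {l : List B} {p : List B × List B} (h : p ∈ splits l) :
    p.1.length + p.2.length = l.length := by
  induction l generalizing p with
  | nil =>
    rw [splits, List.mem_singleton] at h
    subst h
    simp
  | cons x xs ih =>
    rw [splits, List.mem_append, List.mem_map, List.mem_map] at h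
    rcases h with ⟨q, hq, rfl⟩ | ⟨q, hq, rfl⟩
    · have := ih hq
      simp only [List.length_cons]
      omega
    · have := ih hq
      simp only [List.length_cons]
      omega

theorem wF_nil (N : ℚ) (e : ℕ) : wF N e [] = 1 := by
  cases e <;> simp [wF]

theorem wF_zero (N : ℚ) (e : ℕ) (l : List ℕ) : wF N (e + 1) (0 :: l) = N * wF N e l := by
  rw [wF]

theorem wF_one (N : ℚ) (e : ℕ) (l : List ℕ) : wF N (e + 1) (1 :: l) =
    ((picks l).map fun p => (p.1 : ℚ) * wF N e ((p.1 - 1) :: p.2)).sum := by
  rw [wF]

theorem wF_two (N : ℚ) (e k : ℕ) (l : List ℕ) : wF N (e + 1) ((k + 2) :: l) =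
    (∑ i ∈ Finset.range (k + 1), wF N e (i :: (k - i) :: l)) +
      ((picks l).map fun p => (p.1 : ℚ) * wF N e ((k + p.1) :: p.2)).sum := by
  rw [wF]

theorem wF_fuel (N : ℚ) (e e' : ℕ) (l : List ℕ) (h : l.sum + l.length ≤ e)
    (h' : l.sum + l.length ≤ e') : wF N e l = wF N e' l := by
  induction e generalizing e' l with
  | zero =>
    match l, h, h' with
    | [], _, _ => rw [wF_nil, wF_nil]
    | x :: l, h, _ =>
      rw [List.length_cons] at h
      omega
  | succ e ih =>
    match l, h, h' with
    | [], _, _ => rw [wF_nil, wF_nil]
    | 0 :: l, h, h' =>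
      rw [List.sum_cons, List.length_cons] at h h'
      obtain ⟨e1, rfl⟩ : ∃ e1, e' = e1 + 1 := ⟨e' - 1, by omega⟩
      rw [wF_zero, wF_zero, ih e1 l (by omega) (by omega)]
    | 1 :: l, h, h' =>
      rw [List.sum_cons, List.length_cons] at h h'
      obtain ⟨e1, rfl⟩ : ∃ e1, e' = e1 + 1 := ⟨e' - 1, by omega⟩
      rw [wF_one, wF_one]
      congr 1
      refine List.map_congr_left fun p hp => ?_
      have h1 := picks_sum hp
      have h2 := wl_picks_length hp
      rcases Nat.eq_zero_or_pos p.1 with h0 | h0
      · rw [h0, Nat.cast_zero, zero_mul, zero_mul]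
      · rw [ih e1]
        · rw [List.sum_cons, List.length_cons]
          omega
        · rw [List.sum_cons, List.length_cons]
          omega
    | (k + 2) :: l, h, h' =>
      rw [List.sum_cons, List.length_cons] at h h'
      obtain ⟨e1, rfl⟩ : ∃ e1, e' = e1 + 1 := ⟨e' - 1, by omega⟩
      rw [wF_two, wF_two]
      congr 1
      · refine Finset.sum_congr rfl fun i hi => ?_
        rw [Finset.mem_range] at hi
        apply ih
        · rw [List.sum_cons, List.sum_cons, List.length_cons, List.length_cons]
          omega
        · rw [List.sum_cons, List.sum_cons, List.length_cons, List.length_cons]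
          omega
      · congr 1
        refine List.map_congr_left fun p hp => ?_
        have h1 := picks_sum hp
        have h2 := wl_picks_length hp
        rw [ih e1]
        all_goals
          rw [List.sum_cons, List.length_cons]
          omega

theorem wF_w (N : ℚ) (e : ℕ) (l : List ℕ) (h : l.sum + l.length ≤ e) : wF N e l = w N l :=
  wF_fuel N e _ l h le_rfl

theorem w_nil (N : ℚ) : w N [] = 1 := by
  rw [w, wF_nil]

theorem w_zero (N : ℚ) (l : List ℕ) : w N (0 :: l) = N * w N l := by
  rw [← wF_w N (l.sum + l.length + 1) (0 :: l) (by rw [List.sum_cons, List.length_cons]; omega),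
    wF_zero, wF_w N _ l le_rfl]

theorem w_one (N : ℚ) (l : List ℕ) :
    w N (1 :: l) = ((picks l).map fun p => (p.1 : ℚ) * w N ((p.1 - 1) :: p.2)).sum := by
  rw [← wF_w N (l.sum + l.length + 1 + 1) (1 :: l)
    (by rw [List.sum_cons, List.length_cons]; omega), wF_one]
  congr 1
  refine List.map_congr_left fun p hp => ?_
  have h1 := picks_sum hp
  have h2 := wl_picks_length hp
  rcases Nat.eq_zero_or_pos p.1 with h0 | h0
  · rw [h0, Nat.cast_zero, zero_mul, zero_mul]
  · rw [wF_w]
    rw [List.sum_cons, List.length_cons]
    omega

theorem w_two (N : ℚ) (k : ℕ) (l : List ℕ) : w N ((k + 2) :: l) =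
    (∑ i ∈ Finset.range (k + 1), w N (i :: (k - i) :: l)) +
      ((picks l).map fun p => (p.1 : ℚ) * w N ((k + p.1) :: p.2)).sum := by
  rw [← wF_w N (l.sum + l.length + k + 2 + 1) ((k + 2) :: l)
    (by rw [List.sum_cons, List.length_cons]; omega), wF_two]
  congr 1
  · refine Finset.sum_congr rfl fun i hi => ?_
    rw [Finset.mem_range] at hi
    apply wF_w
    rw [List.sum_cons, List.sum_cons, List.length_cons, List.length_cons]
    omega
  · congr 1
    refine List.map_congr_left fun p hp => ?_
    have h1 := picks_sum hp
    have h2 := wl_picks_length hp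
    rw [wF_w]
    rw [List.sum_cons, List.length_cons]
    omega

theorem wl_splits_cons {B : Type} (x : B) (l : List B) (F : List B → List B → ℚ) :
    ((splits (x :: l)).map fun p => F p.1 p.2).sum =
      ((splits l).map fun p => F (x :: p.1) p.2).sum + ((splits l).map fun p => F p.1 (x :: p.2)).sum := by
  rw [splits, List.map_append, List.sum_append, List.map_map, List.map_map]
  rfl

theorem wl_picks_cons {B : Type} (x : B) (l : List B) (F : B → List B → ℚ) :
    ((picks (x :: l)).map fun p => F p.1 p.2).sum =
      F x l + ((picks l).map fun p => F p.1 (x :: p.2)).sum := by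
  rw [picks, List.map_cons, List.sum_cons, List.map_map]
  rfl

theorem wl_map_add {A : Type} (l : List A) (f g : A → ℚ) :
    (l.map fun a => f a + g a).sum = (l.map f).sum + (l.map g).sum := by
  induction l with
  | nil => simp
  | cons x l ih =>
    rw [List.map_cons, List.sum_cons, ih, List.map_cons, List.sum_cons, List.map_cons, List.sum_cons]
    ring

theorem splits_assoc {B : Type} (l : List B) (F : List B → List B → List B → ℚ) :
    ((splits l).map fun p => ((splits p.2).map fun q => F p.1 q.1 q.2).sum).sum =
    ((splits l).map fun p => ((splits p.1).map fun q => F q.1 q.2 p.2).sum).sum := by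
  induction l generalizing F with
  | nil => simp [splits]
  | cons x l ih =>
    rw [wl_splits_cons x l (fun a b => ((splits b).map fun q => F a q.1 q.2).sum),
      wl_splits_cons x l (fun a b => ((splits a).map fun q => F q.1 q.2 b).sum)]
    have e1 : ((splits l).map fun p => ((splits (x :: p.2)).map fun q => F p.1 q.1 q.2).sum).sum =
        ((splits l).map fun p => ((splits p.2).map fun q => F p.1 (x :: q.1) q.2).sum).sum +
        ((splits l).map fun p => ((splits p.2).map fun q => F p.1 q.1 (x :: q.2)).sum).sum := by
      rw [← wl_map_add]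
      congr 1
      refine List.map_congr_left fun p _ => ?_
      exact wl_splits_cons x p.2 (fun a b => F p.1 a b)
    have e2 : ((splits l).map fun p => ((splits (x :: p.1)).map fun q => F q.1 q.2 p.2).sum).sum =
        ((splits l).map fun p => ((splits p.1).map fun q => F (x :: q.1) q.2 p.2).sum).sum +
        ((splits l).map fun p => ((splits p.1).map fun q => F q.1 (x :: q.2) p.2).sum).sum := by
      rw [← wl_map_add]
      congr 1
      refine List.map_congr_left fun p _ => ?_
      exact wl_splits_cons x p.1 (fun a b => F a b p.2)
    rw [e1, e2, ih (fun a b c => F (x :: a) b c), ih (fun a b c => F a (x :: b) c),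
      ih (fun a b c => F a b (x :: c))]
    ring

theorem picks_splits {B : Type} (l : List B) (F : B → List B → List B → ℚ) :
    ((picks l).map fun p => ((splits p.2).map fun q => F p.1 q.1 q.2).sum).sum =
    ((splits l).map fun q => ((picks q.1).map fun p => F p.1 p.2 q.2).sum).sum := by
  induction l generalizing F with
  | nil => simp [splits, picks]
  | cons x l ih =>
    rw [wl_picks_cons x l (fun a b => ((splits b).map fun q => F a q.1 q.2).sum),
      wl_splits_cons x l (fun a b => ((picks a).map fun p => F p.1 p.2 b).sum)]
    have e1 : ((picks l).map fun p => ((splits (x :: p.2)).map fun q => F p.1 q.1 q.2).sum).sum =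
        ((picks l).map fun p => ((splits p.2).map fun q => F p.1 (x :: q.1) q.2).sum).sum +
        ((picks l).map fun p => ((splits p.2).map fun q => F p.1 q.1 (x :: q.2)).sum).sum := by
      rw [← wl_map_add]
      congr 1
      refine List.map_congr_left fun p _ => ?_
      exact wl_splits_cons x p.2 (fun a b => F p.1 a b)
    have e2 : ((splits l).map fun q => ((picks (x :: q.1)).map fun p => F p.1 p.2 q.2).sum).sum =
        ((splits l).map fun q => F x q.1 q.2).sum +
        ((splits l).map fun q => ((picks q.1).map fun p => F p.1 (x :: p.2) q.2).sum).sum := by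
      rw [← wl_map_add]
      congr 1
      refine List.map_congr_left fun q _ => ?_
      exact wl_picks_cons x q.1 (fun a b => F a b q.2)
    rw [e1, e2, ih (fun a b c => F a (x :: b) c), ih (fun a b c => F a b (x :: c))]
    ring

theorem wl_splits_nil (cs : List ℕ) (F : List ℕ → ℚ) :
    ((splits cs).map fun p => (if p.1 = [] then F p.2 else 0)).sum = F cs := by
  induction cs generalizing F with
  | nil => simp [splits]
  | cons x l ih =>
    rw [wl_splits_cons x l (fun a b => if a = [] then F b else 0), ih (fun b => F (x :: b))]
    have : ((splits l).map fun p : List ℕ × List ℕ => (if x :: p.1 = [] then F p.2 else 0)).sum = 0 := by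
      apply List.sum_eq_zero
      intro y hy
      rw [List.mem_map] at hy
      obtain ⟨p, _, rfl⟩ := hy
      rw [if_neg (List.cons_ne_nil _ _)]
    rw [this, zero_add]

/-- the evaluation -/
noncomputable def wlphi (N : ℚ) : Polynomial ℕ →+* ℚ :=
  (Polynomial.evalRingHom N).comp (Polynomial.mapRingHom (Nat.castRingHom ℚ))

theorem wlphi_apply (N : ℚ) (f : Polynomial ℕ) :
    wlphi N f = (f.map (Nat.castRingHom ℚ)).eval N := rfl

theorem wl_kq_zero (N : ℚ) (l : List ℕ) : wlphi N (K (0 :: l)) = if l = [] then N else 0 := by
  rw [K_zero]
  split_ifs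
  · rw [wlphi_apply, Polynomial.map_X, Polynomial.eval_X]
  · rw [map_zero]

theorem wl_kq_one (N : ℚ) (l : List ℕ) : wlphi N (K (1 :: l)) =
    ((picks l).map fun p => (p.1 : ℚ) * wlphi N (K ((p.1 - 1) :: p.2))).sum := by
  rw [K_one, map_list_sum, List.map_map]
  congr 1
  refine List.map_congr_left fun p _ => ?_
  rw [Function.comp_apply, map_nsmul, nsmul_eq_mul]

theorem wl_kq_two (N : ℚ) (k : ℕ) (l : List ℕ) : wlphi N (K ((k + 2) :: l)) =
    (∑ i ∈ Finset.range (k + 1), (wlphi N (K (i :: (k - i) :: l)) +
        ((splits l).map fun p => wlphi N (K (i :: p.1)) * wlphi N (K ((k - i) :: p.2))).sum)) +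
      ((picks l).map fun p => (p.1 : ℚ) * wlphi N (K ((k + p.1) :: p.2))).sum := by
  rw [K_two, map_add, map_sum]
  congr 1
  · refine Finset.sum_congr rfl fun i _ => ?_
    rw [map_add, map_list_sum, List.map_map]
    congr 2
    refine List.map_congr_left fun p _ => ?_
    rw [Function.comp_apply, map_mul]
  · rw [map_list_sum, List.map_map]
    congr 1
    refine List.map_congr_left fun p _ => ?_
    rw [Function.comp_apply, map_nsmul, nsmul_eq_mul]

theorem wl_sum_swap {A : Type} (s : Finset ℕ) (l : List A) (f : ℕ → A → ℚ) :
    ∑ i ∈ s, (l.map (f i)).sum = (l.map fun x => ∑ i ∈ s, f i x).sum := by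
  induction l with
  | nil => simp
  | cons x l ih =>
    simp only [List.map_cons, List.sum_cons]
    rw [Finset.sum_add_distrib, ih]

theorem wl_mul_right {A : Type} (l : List A) (f : A → ℚ) (c : ℚ) :
    (l.map fun a => f a * c).sum = (l.map f).sum * c := by
  induction l with
  | nil => simp
  | cons x l ih =>
    rw [List.map_cons, List.sum_cons, ih, List.map_cons, List.sum_cons]
    ring

theorem wl_mul_left {A : Type} (l : List A) (f : A → ℚ) (c : ℚ) :
    (l.map fun a => c * f a).sum = c * (l.map f).sum := by
  induction l with
  | nil => simp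
  | cons x l ih =>
    rw [List.map_cons, List.sum_cons, ih, List.map_cons, List.sum_cons]
    ring

/-- component of the first polygon, strong induction -/
theorem wl_comp (N : ℚ) (n : ℕ) : ∀ (c0 : ℕ) (cs : List ℕ), c0 + cs.sum + cs.length ≤ n →
    w N (c0 :: cs) = ((splits cs).map fun p => wlphi N (K (c0 :: p.1)) * w N p.2).sum := by
  induction n with
  | zero =>
    intro c0 cs h
    have h0 : c0 = 0 := by omega
    have h1 : cs = [] := List.eq_nil_of_length_eq_zero (by omega)
    subst h0 h1
    rw [w_zero, w_nil]
    simp [splits, wl_kq_zero, w_nil]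
  | succ n ih =>
    intro c0 cs h
    match c0, h with
    | 0, h =>
      rw [w_zero]
      have e : ((splits cs).map fun p => wlphi N (K (0 :: p.1)) * w N p.2) =
          ((splits cs).map fun p => (if p.1 = [] then N * w N p.2 else 0)) := by
        refine List.map_congr_left fun p _ => ?_
        rw [wl_kq_zero]
        split_ifs
        · rfl
        · rw [zero_mul]
      rw [e, wl_splits_nil cs (fun b => N * w N b)]
    | 1, h =>
      rw [w_one]
      have e1 : ((picks cs).map fun p => (p.1 : ℚ) * w N ((p.1 - 1) :: p.2)) =
          ((picks cs).map fun p => ((splits p.2).map fun q =>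
            (p.1 : ℚ) * wlphi N (K ((p.1 - 1) :: q.1)) * w N q.2).sum) := by
        refine List.map_congr_left fun p hp => ?_
        have h1 := picks_sum hp
        have h2 := wl_picks_length hp
        rcases Nat.eq_zero_or_pos p.1 with h0 | h0
        · rw [h0, Nat.cast_zero, zero_mul]
          symm
          apply List.sum_eq_zero
          intro y hy
          rw [List.mem_map] at hy
          obtain ⟨q, _, rfl⟩ := hy
          rw [zero_mul, zero_mul]
        · rw [ih (p.1 - 1) p.2 (by omega), ← wl_mul_left]
          congr 1
          refine List.map_congr_left fun q _ => ?_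
          ring
      rw [e1, picks_splits cs (fun a b c => (a : ℚ) * wlphi N (K ((a - 1) :: b)) * w N c)]
      congr 1
      refine List.map_congr_left fun q _ => ?_
      rw [wl_kq_one, ← wl_mul_right]
    | k + 2, h =>
      rw [w_two]
      -- the splitting part
      have e1 : ∀ i ∈ Finset.range (k + 1), w N (i :: (k - i) :: cs) =
          ((splits cs).map fun p => (wlphi N (K (i :: (k - i) :: p.1)) +
            ((splits p.1).map fun q => wlphi N (K (i :: q.1)) * wlphi N (K ((k - i) :: q.2))).sum) *
              w N p.2).sum := by
        intro i hi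
        rw [Finset.mem_range] at hi
        rw [ih i ((k - i) :: cs) (by rw [List.sum_cons, List.length_cons]; omega),
          wl_splits_cons (k - i) cs (fun a b => wlphi N (K (i :: a)) * w N b)]
        have e2 : ((splits cs).map fun p => wlphi N (K (i :: p.1)) * w N ((k - i) :: p.2)) =
            ((splits cs).map fun p => ((splits p.2).map fun q =>
              wlphi N (K (i :: p.1)) * wlphi N (K ((k - i) :: q.1)) * w N q.2).sum) := by
          refine List.map_congr_left fun p hp => ?_
          have h1 := splits_sum hp
          have h2 := wl_splits_length hp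
          rw [ih (k - i) p.2 (by omega), ← wl_mul_left]
          congr 1
          refine List.map_congr_left fun q _ => ?_
          ring
        rw [e2, splits_assoc cs (fun a b c =>
          wlphi N (K (i :: a)) * wlphi N (K ((k - i) :: b)) * w N c), ← wl_map_add]
        congr 1
        refine List.map_congr_left fun p _ => ?_
        rw [wl_mul_right]
        ring
      have e3 : ((picks cs).map fun p => (p.1 : ℚ) * w N ((k + p.1) :: p.2)) =
          ((picks cs).map fun p => ((splits p.2).map fun q =>
            (p.1 : ℚ) * wlphi N (K ((k + p.1) :: q.1)) * w N q.2).sum) := by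
        refine List.map_congr_left fun p hp => ?_
        have h1 := picks_sum hp
        have h2 := wl_picks_length hp
        rw [ih (k + p.1) p.2 (by omega), ← wl_mul_left]
        congr 1
        refine List.map_congr_left fun q _ => ?_
        ring
      rw [Finset.sum_congr rfl e1, e3,
        picks_splits cs (fun a b c => (a : ℚ) * wlphi N (K ((k + a) :: b)) * w N c),
        wl_sum_swap (Finset.range (k + 1)) (splits cs) (fun i p => (wlphi N (K (i :: (k - i) :: p.1)) +
            ((splits p.1).map fun q => wlphi N (K (i :: q.1)) * wlphi N (K ((k - i) :: q.2))).sum) *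
              w N p.2), ← wl_map_add]
      congr 1
      refine List.map_congr_left fun p _ => ?_
      rw [wl_kq_two, wl_mul_right, ← Finset.sum_mul]
      ring

/-- component of the first polygon -/
theorem comp_first (N : ℚ) (c0 : ℕ) (cs : List ℕ) : w N (c0 :: cs) =
    ((splits cs).map fun p =>
      ((K (c0 :: p.1)).map (Nat.castRingHom ℚ)).eval N * w N p.2).sum :=
  wl_comp N _ c0 cs le_rfl

end UN39
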