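import Mathlib
import Pool.Agent.H39.UN.Gau
import Pool.Agent.H39.UN.Hank
import Pool.Agent.H39.UN.Lfun
import Pool.Agent.H39.UN.Vdm
import Pool.Agent.H39.UN.Wloop

/-!
[H39 UN LOOPL]  (MP_bcc40c_pr)  `LG (p_l Δ²) = w N l * LG (Δ²)` for power sums `p_l`.

PROOF.  Write `p_l = ∏_{q ∈ l} ps N q`.  Loop equations for `LG`:
(A) `LG (ps (k+2) p_l Δ²) = ∑_{i ≤ k} LG (ps i ps (k-i) p_l Δ²) + ∑_{(q,l') ∈ picks l} q LG (ps (k+q) p_l' Δ²)`
(B) `LG (ps 1 p_l Δ²) = ∑_{(q,l') ∈ picks l} q LG (ps (q-1) p_l' Δ²)`.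
(A): `ps (k+2) p_l Δ² = ∑_i x_i * (x_i^(k+1) p_l Δ²)`; by LG_ibp its `LG` is
`LG (∑_i ∂_i (x_i^(k+1) Δ² p_l)) = LG (p_l ∑_i ∂_i (x_i^(k+1) Δ²)) + LG (Δ² ∑_i x_i^(k+1) ∂_i p_l)`.  First part:
vdm2.  Second part: `∂_i ps q = q x_i^(q-1)`, Leibniz for the product over the list:
`∑_i x_i^(k+1) ∂_i p_l = ∑_{(q,l') ∈ picks l} q ps (k+q) p_l'` (for `q = 0` both sides 0): induction on `l`.
(B): the same with exponent 0 and vdm3.
Also `ps N 0 = N` (constant).  Then the theorem by strong induction on `l.sum + l.length`, with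
w_nil, w_zero, w_one, w_two.
lgz: for `N ≥ 1`, with andreief and vdm1:
`w N (3^m) LG (Δ²) = LG (ps 3^m Δ Δ) = m! N! coeff m (det mom (a+b))`,
`w N (1 :: 3^m) LG (Δ²) = LG (ps 3^m (ps 1 Δ) Δ) = m! N! coeff m (det mom (esh a + b))`,
`w N (1 :: 1 :: 3^m) LG (Δ²) = LG (ps 3^m (ps 1 Δ) (ps 1 Δ)) = m! N! coeff m (det mom (esh a + esh b))`.
-/

set_option autoImplicit false

namespace UN39

open MvPolynomial

/-- product of power sums -/
noncomputable def psl (N : ℕ) (l : List ℕ) : MvPolynomial (Fin N) ℚ := (l.map (ps N)).prod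

theorem pl_cons (N k : ℕ) (l : List ℕ) : psl N (k :: l) = ps N k * psl N l := by
  unfold psl
  rw [List.map_cons, List.prod_cons]

theorem vf_ps (N k q : ℕ) :
    vf N (k + 1) (ps N q) = (q : MvPolynomial (Fin N) ℚ) * ps N (k + q) := by
  unfold ps
  rw [map_sum, Finset.mul_sum]
  refine Finset.sum_congr rfl fun i _ => ?_
  rw [(vf N (k + 1)).leibniz_pow (X i) q, vf_X, smul_eq_mul, nsmul_eq_mul]
  rcases q with _ | q
  · simp
  · rw [Nat.add_sub_cancel]
    ring

theorem vf_ps0 (N q : ℕ) :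
    vf N 0 (ps N q) = (q : MvPolynomial (Fin N) ℚ) * ps N (q - 1) := by
  unfold ps
  rw [map_sum, Finset.mul_sum]
  refine Finset.sum_congr rfl fun i _ => ?_
  rw [(vf N 0).leibniz_pow (X i) q, vf_X, smul_eq_mul, nsmul_eq_mul, pow_zero, mul_one]

theorem mul_list_sumM {R ι : Type} [CommRing R] (a : R) (L : List ι) (f : ι → R) :
    a * (L.map f).sum = (L.map fun p => a * f p).sum := by
  induction L with
  | nil => simp
  | cons p L ih => simp only [List.map_cons, List.sum_cons, mul_add, ih]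

theorem der_pl {N : ℕ} (v : Derivation ℚ (MvPolynomial (Fin N) ℚ) (MvPolynomial (Fin N) ℚ))
    (l : List ℕ) : v (psl N l) = ((picks l).map fun p => v (ps N p.1) * psl N p.2).sum := by
  induction l with
  | nil => simp [psl, picks]
  | cons x xs ih =>
    rw [pl_cons, Derivation.leibniz, ih, picks, List.map_cons, List.sum_cons, List.map_map,
      smul_eq_mul, smul_eq_mul, mul_list_sumM, add_comm, mul_comm (psl N xs)]
    congr 1
    congr 1
    refine List.map_congr_left fun p _ => ?_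
    show ps N x * (v (ps N p.1) * psl N p.2) = v (ps N p.1) * psl N (x :: p.2)
    rw [pl_cons]
    ring

theorem loop_two (N k : ℕ) (l : List ℕ) :
    LG N (psl N ((k + 2) :: l) * Vd N ^ 2) =
      (∑ i ∈ Finset.range (k + 1), LG N (psl N (i :: (k - i) :: l) * Vd N ^ 2)) +
      ((picks l).map fun p => (p.1 : ℚ) * LG N (psl N ((k + p.1) :: p.2) * Vd N ^ 2)).sum := by
  have h1 : psl N ((k + 2) :: l) * Vd N ^ 2 =
      ∑ i, X i * (X i ^ (k + 1) * Vd N ^ 2 * psl N l) := by
    rw [pl_cons]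
    unfold ps
    rw [Finset.sum_mul, Finset.sum_mul]
    refine Finset.sum_congr rfl fun i _ => ?_
    rw [pow_succ]
    ring
  have h2 : ∑ i, pderiv i (X i ^ (k + 1) * Vd N ^ 2 * psl N l) =
      (∑ a ∈ Finset.range (k + 1), ps N a * ps N (k - a)) * Vd N ^ 2 * psl N l +
        Vd N ^ 2 * vf N (k + 1) (psl N l) := by
    rw [← vdm2, vf_apply, Finset.sum_mul, Finset.mul_sum, ← Finset.sum_add_distrib]
    refine Finset.sum_congr rfl fun i _ => ?_
    rw [Derivation.leibniz (pderiv i) (X i ^ (k + 1) * Vd N ^ 2) (psl N l), smul_eq_mul, smul_eq_mul]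
    ring
  have h3 : LG N (∑ i, X i * (X i ^ (k + 1) * Vd N ^ 2 * psl N l)) =
      LG N (∑ i, pderiv i (X i ^ (k + 1) * Vd N ^ 2 * psl N l)) := by
    rw [map_sum, map_sum]
    refine Finset.sum_congr rfl fun i _ => ?_
    rw [LG_ibp]
  rw [h1, h3, h2, map_add]
  congr 1
  · rw [Finset.sum_mul, Finset.sum_mul, map_sum]
    refine Finset.sum_congr rfl fun i _ => ?_
    rw [pl_cons, pl_cons]
    congr 1
    ring
  · rw [der_pl, mul_list_sumM, map_list_sum, List.map_map]
    congr 1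
    refine List.map_congr_left fun p _ => ?_
    rw [Function.comp_apply, vf_ps, pl_cons]
    have h4 : Vd N ^ 2 * ((p.1 : MvPolynomial (Fin N) ℚ) * ps N (k + p.1) * psl N p.2) =
        (p.1 : ℚ) • (ps N (k + p.1) * psl N p.2 * Vd N ^ 2) := by
      rw [MvPolynomial.smul_eq_C_mul, map_natCast]
      ring
    rw [h4, map_smul, smul_eq_mul]

theorem loop_one (N : ℕ) (l : List ℕ) :
    LG N (psl N (1 :: l) * Vd N ^ 2) =
      ((picks l).map fun p => (p.1 : ℚ) * LG N (psl N ((p.1 - 1) :: p.2) * Vd N ^ 2)).sum := by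
  have h1 : psl N (1 :: l) * Vd N ^ 2 = ∑ i, X i * (Vd N ^ 2 * psl N l) := by
    rw [pl_cons]
    unfold ps
    rw [Finset.sum_mul, Finset.sum_mul]
    refine Finset.sum_congr rfl fun i _ => ?_
    rw [pow_one]
    ring
  have h2 : ∑ i, pderiv i (Vd N ^ 2 * psl N l) = Vd N ^ 2 * vf N 0 (psl N l) := by
    have h5 := vdm3 N
    have h6 : ∑ i, pderiv i (Vd N ^ 2 * psl N l) =
        psl N l * (∑ i, pderiv i (Vd N ^ 2)) + Vd N ^ 2 * vf N 0 (psl N l) := by
      rw [vf_apply, Finset.mul_sum, Finset.mul_sum, ← Finset.sum_add_distrib]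
      refine Finset.sum_congr rfl fun i _ => ?_
      rw [Derivation.leibniz, smul_eq_mul, smul_eq_mul]
      ring
    rw [h6, h5, mul_zero, zero_add]
  have h3 : LG N (∑ i, X i * (Vd N ^ 2 * psl N l)) =
      LG N (∑ i, pderiv i (Vd N ^ 2 * psl N l)) := by
    rw [map_sum, map_sum]
    refine Finset.sum_congr rfl fun i _ => ?_
    rw [LG_ibp]
  rw [h1, h3, h2]
  rw [der_pl, mul_list_sumM, map_list_sum, List.map_map]
  congr 1
  refine List.map_congr_left fun p _ => ?_
  rw [Function.comp_apply, vf_ps0, pl_cons]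
  have h4 : Vd N ^ 2 * ((p.1 : MvPolynomial (Fin N) ℚ) * ps N (p.1 - 1) * psl N p.2) =
      (p.1 : ℚ) • (ps N (p.1 - 1) * psl N p.2 * Vd N ^ 2) := by
    rw [MvPolynomial.smul_eq_C_mul, map_natCast]
    ring
  rw [h4, map_smul, smul_eq_mul]

theorem loop_zero (N : ℕ) (l : List ℕ) :
    LG N (psl N (0 :: l) * Vd N ^ 2) = (N : ℚ) * LG N (psl N l * Vd N ^ 2) := by
  have h1 : psl N (0 :: l) * Vd N ^ 2 = (N : ℚ) • (psl N l * Vd N ^ 2) := by
    rw [pl_cons, MvPolynomial.smul_eq_C_mul, map_natCast]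
    unfold ps
    simp
    ring
  rw [h1, map_smul, smul_eq_mul]

theorem picks_lenL {l : List ℕ} {p : ℕ × List ℕ} (h : p ∈ picks l) : p.2.length + 1 = l.length := by
  induction l generalizing p with
  | nil => simp [picks] at h
  | cons x xs ih =>
    rw [picks, List.mem_cons, List.mem_map] at h
    rcases h with rfl | ⟨q, hq, rfl⟩
    · simp
    · have := ih hq
      simp only [List.length_cons]
      omega

theorem LG_w_aux (N : ℕ) (n : ℕ) (l : List ℕ) (hl : l.sum + l.length ≤ n) :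
    LG N (psl N l * Vd N ^ 2) = w N l * LG N (Vd N ^ 2) := by
  induction n using Nat.strong_induction_on generalizing l with
  | _ n ih =>
  match l, hl with
  | [], _ =>
    rw [w_nil, one_mul]
    unfold psl
    rw [List.map_nil, List.prod_nil, one_mul]
  | 0 :: l, hl =>
    rw [List.sum_cons, List.length_cons] at hl
    rw [loop_zero, w_zero, ih (l.sum + l.length) (by omega) l le_rfl, mul_assoc]
  | 1 :: l, hl =>
    rw [List.sum_cons, List.length_cons] at hl
    rw [loop_one, w_one, mul_comm _ (LG N (Vd N ^ 2)), mul_list_sumM]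
    congr 1
    refine List.map_congr_left fun p hp => ?_
    have h1 := picks_sum hp
    have h2 := picks_lenL hp
    rw [ih (n - 1) (by omega) ((p.1 - 1) :: p.2) (by
      rw [List.sum_cons, List.length_cons]
      omega)]
    ring
  | (k + 2) :: l, hl =>
    rw [List.sum_cons, List.length_cons] at hl
    rw [loop_two, w_two, add_mul]
    congr 1
    · rw [Finset.sum_mul]
      refine Finset.sum_congr rfl fun i hi => ?_
      rw [Finset.mem_range] at hi
      exact ih (n - 1) (by omega) (i :: (k - i) :: l) (by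
        simp only [List.sum_cons, List.length_cons]
        omega)
    · rw [mul_comm _ (LG N (Vd N ^ 2)), mul_list_sumM]
      congr 1
      refine List.map_congr_left fun p hp => ?_
      have h1 := picks_sum hp
      have h2 := picks_lenL hp
      rw [ih (n - 1) (by omega) ((k + p.1) :: p.2) (by
        rw [List.sum_cons, List.length_cons]
        omega)]
      ring

theorem LG_w (N : ℕ) (l : List ℕ) :
    LG N ((l.map (ps N)).prod * Vd N ^ 2) = w N l * LG N (Vd N ^ 2) :=
  LG_w_aux N _ l le_rfl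

theorem pl_rep (N m : ℕ) : ((List.replicate m 3).map (ps N)).prod = (∑ i, X i ^ 3) ^ m := by
  rw [List.map_replicate, List.prod_replicate]
  rfl

theorem lgz0 (N m : ℕ) : w N (List.replicate m 3) * LG N (Vd N ^ 2) =
    (m.factorial : ℚ) * (N.factorial : ℚ) * PowerSeries.coeff m
      (Matrix.det (Matrix.of fun a b : Fin N => mom ((a : ℕ) + b))) := by
  rw [← LG_w, pl_rep, ← andreief N m (fun j => (j : ℕ)) (fun j => (j : ℕ))]
  congr 1
  rw [pow_two, ← mul_assoc]
  rfl

theorem lgz1 (N m : ℕ) (hN : 1 ≤ N) : w N (1 :: List.replicate m 3) * LG N (Vd N ^ 2) =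
    (m.factorial : ℚ) * (N.factorial : ℚ) * PowerSeries.coeff m
      (Matrix.det (Matrix.of fun a b : Fin N => mom (esh N a + b))) := by
  rw [← LG_w, List.map_cons, List.prod_cons, pl_rep,
    ← andreief N m (fun j => esh N j) (fun j => (j : ℕ)), ← vdm1 N hN]
  congr 1
  unfold Vd
  ring

theorem lgz2 (N m : ℕ) (hN : 1 ≤ N) : w N (1 :: 1 :: List.replicate m 3) * LG N (Vd N ^ 2) =
    (m.factorial : ℚ) * (N.factorial : ℚ) * PowerSeries.coeff m
      (Matrix.det (Matrix.of fun a b : Fin N => mom (esh N a + esh N b))) := by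
  rw [← LG_w, List.map_cons, List.prod_cons, List.map_cons, List.prod_cons, pl_rep,
    ← andreief N m (fun j => esh N j) (fun j => esh N j), ← vdm1 N hN]
  congr 1
  ring

end UN39
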