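import Mathlib
import Pool.Agent.H39.UN.Gau
import Pool.Agent.H39.UN.Hank
import Pool.Agent.H39.UN.Lfun
import Pool.Agent.H39.UN.Vdm
import Pool.Agent.H39.UN.Wloop
import Pool.Agent.H39.UN.LoopL

/-!
[H39 UN SEA]  (MP_bcc40c_pr)  The generating functions of the connected gluings with 0, 1, 2 extra 1-gons in terms of the
orthogonal polynomials.

`kN N l` = `K l` evaluated at `N`; `K0 N = ∑_m kN (3^(m+1)) t^m / m!`, `K1`, `K11` the same with `1 :: 3^m`, `1 :: 1 :: 3^m`.

PROOFS.  Let `Z0 N = ∑ w N (3^m) t^m / m!`, `Z1 N = ∑ w N (1 :: 3^m) t^m/m!`, `Z2 N = ∑ w N (1 :: 1 :: 3^m) t^m/m!`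
(power series `PowerSeries.mk`), all for a natural number `N`, and `D0 = ∏_{j<N} h j`.
`G N := LG N (Vd N ^ 2)`: lgz0 with `m = 0` gives `G N = N! * coeff 0 (∏ h_j) = N! ∏_{j<N} j!` (hank0, the constant
coefficients), nonzero (`w N [] = 1`).  (`PowerSeries.coeff 0 = constantCoeff`, a ring homomorphism, so
`map_prod` applies.)
lgz0, hank0: `C (G N) * Z0 = C (N!) * D0`.  lgz1, hank1: `C (G N) * Z1 = C (N!) * σ_N * D0`; lgz2, hank2:
`h_(N-1) * C (G N) * Z2 = C (N!) * (σ_N^2 h_(N-1) + h_N) * D0`.  Hence (the ring `ℚ⟦t⟧` is a domain, constants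
nonzero) `Z1 = σ_N Z0` and `h_(N-1) Z2 = (σ_N^2 h_(N-1) + h_N) Z0`.
Component formula comp_first: for `cs = replicate m 3`: `splits (replicate m 3)`: the sum over `p` of `F p.1 p.2` is
`∑_{j ≤ m} m.choose j • F (replicate j 3) (replicate (m-j) 3)` (induction on `m`).  So
`w N (1 :: 3^m)/m! = ∑_j (kN (1 :: 3^j)/j!) (w N (3^(m-j))/(m-j)!)`, i.e. `Z1 = K1 * Z0`; for `c0 = 1`,
`cs = 1 :: 3^m`: `splits (1 :: l)` by definition; `Z2 = K11 * Z0 + K1 * Z1`; for `c0 = 3`, `cs = 3^m`:
`w N (3^(m+1))/m! = ∑_j kN (3 :: 3^j)/j! * w N(3^(m-j))/(m-j)!`, i.e. `Z0' = K0 * Z0` (derivative).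
Z0 has constant coefficient 1 (`w N [] = 1`), cancel it: `K1 N = σ_N`, `h_(N-1) * K11 N = h_N`.
For `N = 0`: `K1 0 = 0 = sg P 0` because every `K l` has constant coefficient zero (induction along K_zero, K_one,
K_two, strong induction on `l.sum + l.length`; K_nil).
sea_log: put `q N = C ((N.factorial : ℚ) * (G N)⁻¹)`, `Z0 N = q N * ∏_{j<N} h j`.  Taking the derivative:
`Z0' N * (∏ h_j) = Z0 N * (∏ h_j)'`; so `K0 N * D0 N = (D0 N)'` (cancel `Z0 N`).  With `D0 (N+1) = D0 N * h_N`:
`(K0 (N+1) - K0 N) h_N = h_N'` for all `N ≥ 0`.  So for `N ≥ 1`: `h_N' = (K0 (N+1) - K0 N) h_N`,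
`h_(N-1)' = (K0 N - K0 (N-1)) h_(N-1)`; differentiate `h_(N-1) K11 N = h_N` and cancel `h_(N-1)`:
`K11' = K11 * (K0 (N+1) - 2 K0 N + K0 (N-1))`.
sea_str: `N h_(N-1) = h_N - 3 t (σ_(N+1) - σ_(N-1)) h_N` (last property of orth_exists with `n = N - 1`) and
`h_N = h_(N-1) K11 N`; cancel.
-/

set_option autoImplicit false

namespace UN39

open Polynomial

/-- `K l` evaluated at a number -/
noncomputable def kN (N : ℚ) (l : List ℕ) : ℚ := ((K l).map (Nat.castRingHom ℚ)).eval N

noncomputable def K0s (N : ℕ) : PowerSeries ℚ :=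
  PowerSeries.mk fun m => kN N (List.replicate (m + 1) 3) / (m.factorial : ℚ)

noncomputable def K1s (N : ℕ) : PowerSeries ℚ :=
  PowerSeries.mk fun m => kN N (1 :: List.replicate m 3) / (m.factorial : ℚ)

noncomputable def K11s (N : ℕ) : PowerSeries ℚ :=
  PowerSeries.mk fun m => kN N (1 :: 1 :: List.replicate m 3) / (m.factorial : ℚ)

section aux

theorem sea_splits {M : Type} [AddCommMonoid M] (b : ℕ) (m : ℕ) (f : List ℕ × List ℕ → M) :
    ((splits (List.replicate m b)).map f).sum =
      ∑ j ∈ Finset.range (m + 1), m.choose j • f (List.replicate j b, List.replicate (m - j) b) := by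
  induction m generalizing f with
  | zero => simp [splits]
  | succ m ih =>
    rw [List.replicate_succ, splits, List.map_append, List.sum_append, List.map_map, List.map_map, ih, ih]
    have h1 := Finset.sum_choose_succ_nsmul
      (fun i j => f (List.replicate i b, List.replicate j b)) m
    rw [h1, add_comm]
    congr 1
    refine Finset.sum_congr rfl fun i hi => ?_
    rw [Finset.mem_range] at hi
    have h2 : m + 1 - i = (m - i) + 1 := by omega
    rw [h2, List.replicate_succ]
    rfl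

theorem sea_conv (a b : ℕ → ℚ) : (PowerSeries.mk fun m =>
      (∑ j ∈ Finset.range (m + 1), (m.choose j : ℚ) * (a j * b (m - j))) / (m.factorial : ℚ)) =
    (PowerSeries.mk fun m => a m / (m.factorial : ℚ)) *
      (PowerSeries.mk fun m => b m / (m.factorial : ℚ)) := by
  ext m
  rw [PowerSeries.coeff_mul, PowerSeries.coeff_mk,
    Finset.Nat.sum_antidiagonal_eq_sum_range_succ (fun i j =>
      PowerSeries.coeff i (PowerSeries.mk fun m => a m / (m.factorial : ℚ)) *
      PowerSeries.coeff j (PowerSeries.mk fun m => b m / (m.factorial : ℚ))), Finset.sum_div]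
  refine Finset.sum_congr rfl fun j hj => ?_
  rw [Nat.succ_eq_add_one, Finset.mem_range] at hj
  rw [PowerSeries.coeff_mk, PowerSeries.coeff_mk]
  have h1 : (j.factorial : ℚ) ≠ 0 := by exact_mod_cast Nat.factorial_ne_zero j
  have h2 : ((m - j).factorial : ℚ) ≠ 0 := by exact_mod_cast Nat.factorial_ne_zero (m - j)
  have h3 : (m.choose j : ℚ) * j.factorial * (m - j).factorial = m.factorial := by
    exact_mod_cast Nat.choose_mul_factorial_mul_factorial (by omega)
  have h5 : (m.factorial : ℚ) ≠ 0 := by exact_mod_cast Nat.factorial_ne_zero m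
  rw [div_mul_div_comm, div_eq_div_iff h5 (mul_ne_zero h1 h2), ← h3]
  ring

/-- generating functions of all gluings -/
noncomputable def Zs (N : ℕ) (c : List ℕ) : PowerSeries ℚ :=
  PowerSeries.mk fun m => w N (c ++ List.replicate m 3) / (m.factorial : ℚ)

theorem sea_comp (N c0 m : ℕ) : w N (c0 :: List.replicate m 3) =
    ∑ j ∈ Finset.range (m + 1), (m.choose j : ℚ) *
      (kN N (c0 :: List.replicate j 3) * w N (List.replicate (m - j) 3)) := by
  rw [comp_first, sea_splits]
  refine Finset.sum_congr rfl fun j _ => ?_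
  rw [nsmul_eq_mul]
  rfl

theorem sea_comp2 (N m : ℕ) : w N (1 :: 1 :: List.replicate m 3) =
    ∑ j ∈ Finset.range (m + 1), (m.choose j : ℚ) *
      (kN N (1 :: 1 :: List.replicate j 3) * w N (List.replicate (m - j) 3)) +
    ∑ j ∈ Finset.range (m + 1), (m.choose j : ℚ) *
      (kN N (1 :: List.replicate j 3) * w N (1 :: List.replicate (m - j) 3)) := by
  rw [comp_first, splits, List.map_append, List.sum_append, List.map_map, List.map_map, sea_splits,
    sea_splits]
  simp only [nsmul_eq_mul]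
  rfl

theorem Z1_eq (N : ℕ) : Zs N [1] = K1s N * Zs N [] := by
  have h := sea_conv (fun j => kN N (1 :: List.replicate j 3)) (fun j => w N (List.replicate j 3))
  have h1 : Zs N [1] = PowerSeries.mk fun m =>
      (∑ j ∈ Finset.range (m + 1), (m.choose j : ℚ) *
        (kN N (1 :: List.replicate j 3) * w N (List.replicate (m - j) 3))) / (m.factorial : ℚ) := by
    unfold Zs
    congr 1
    funext m
    rw [← sea_comp]
    rfl
  rw [h1, h]
  rfl

theorem Z2_eq (N : ℕ) : Zs N [1, 1] = K11s N * Zs N [] + K1s N * Zs N [1] := by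
  have h := sea_conv (fun j => kN N (1 :: 1 :: List.replicate j 3)) (fun j => w N (List.replicate j 3))
  have h' := sea_conv (fun j => kN N (1 :: List.replicate j 3)) (fun j => w N (1 :: List.replicate j 3))
  have h1 : Zs N [1, 1] = (PowerSeries.mk fun m =>
      (∑ j ∈ Finset.range (m + 1), (m.choose j : ℚ) *
        (kN N (1 :: 1 :: List.replicate j 3) * w N (List.replicate (m - j) 3))) / (m.factorial : ℚ)) +
      PowerSeries.mk fun m => (∑ j ∈ Finset.range (m + 1), (m.choose j : ℚ) *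
      (kN N (1 :: List.replicate j 3) * w N (1 :: List.replicate (m - j) 3))) / (m.factorial : ℚ) := by
    ext m
    rw [map_add, PowerSeries.coeff_mk, PowerSeries.coeff_mk, ← add_div, ← sea_comp2]
    unfold Zs
    rw [PowerSeries.coeff_mk]
    rfl
  rw [h1, h, h']
  rfl

theorem Z0_der (N : ℕ) : PowerSeries.derivative ℚ (Zs N []) = K0s N * Zs N [] := by
  have h := sea_conv (fun j => kN N (3 :: List.replicate j 3)) (fun j => w N (List.replicate j 3))
  have h1 : PowerSeries.derivative ℚ (Zs N []) = PowerSeries.mk fun m =>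
      (∑ j ∈ Finset.range (m + 1), (m.choose j : ℚ) *
        (kN N (3 :: List.replicate j 3) * w N (List.replicate (m - j) 3))) / (m.factorial : ℚ) := by
    ext m
    rw [PowerSeries.coeff_derivative, PowerSeries.coeff_mk, ← sea_comp]
    unfold Zs
    rw [PowerSeries.coeff_mk]
    have h5 : (m.factorial : ℚ) ≠ 0 := by exact_mod_cast Nat.factorial_ne_zero m
    have h6 : ((m : ℚ) + 1) ≠ 0 := by positivity
    rw [Nat.factorial_succ, List.nil_append, List.replicate_succ]
    push_cast
    field_simp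
  rw [h1, h]
  rfl

theorem Z0_ne (N : ℕ) : Zs N [] ≠ 0 := by
  intro h
  have h1 := congrArg (PowerSeries.coeff 0) h
  unfold Zs at h1
  rw [PowerSeries.coeff_mk] at h1
  simp [w_nil] at h1

/-- the normalisation constant -/
noncomputable def gN (N : ℕ) : ℚ := LG N (Vd N ^ 2)

theorem sea_mk {N : ℕ} {c : List ℕ} {D : PowerSeries ℚ}
    (h : ∀ m, w N (c ++ List.replicate m 3) * LG N (Vd N ^ 2) =
      (m.factorial : ℚ) * (N.factorial : ℚ) * PowerSeries.coeff m D) :
    PowerSeries.C (gN N) * Zs N c = PowerSeries.C (N.factorial : ℚ) * D := by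
  ext m
  rw [PowerSeries.coeff_C_mul, PowerSeries.coeff_C_mul]
  unfold Zs
  rw [PowerSeries.coeff_mk]
  have h5 : (m.factorial : ℚ) ≠ 0 := by exact_mod_cast Nat.factorial_ne_zero m
  have h6 := h m
  unfold gN
  rw [mul_div_assoc', div_eq_iff h5]
  linear_combination h6

theorem constCoeff_prod {h : ℕ → PowerSeries ℚ}
    (h5 : ∀ n, PowerSeries.constantCoeff (h n) = (n.factorial : ℚ)) (N : ℕ) :
    PowerSeries.constantCoeff (∏ j ∈ Finset.range N, h j) ≠ 0 := by
  rw [map_prod, Finset.prod_ne_zero_iff]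
  intro j _
  rw [h5]
  exact_mod_cast Nat.factorial_ne_zero j

theorem prod_ne {h : ℕ → PowerSeries ℚ}
    (h5 : ∀ n, PowerSeries.constantCoeff (h n) = (n.factorial : ℚ)) (N : ℕ) :
    (∏ j ∈ Finset.range N, h j) ≠ 0 := by
  intro h0
  apply constCoeff_prod h5 N
  rw [h0, map_zero]

theorem h_ne {h : ℕ → PowerSeries ℚ}
    (h5 : ∀ n, PowerSeries.constantCoeff (h n) = (n.factorial : ℚ)) (N : ℕ) : h N ≠ 0 := by
  intro h0
  have h1 := h5 N
  rw [h0, map_zero] at h1
  exact Nat.factorial_ne_zero N (by exact_mod_cast h1.symm)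

theorem C_ne {a : ℚ} (h : a ≠ 0) : (PowerSeries.C a : PowerSeries ℚ) ≠ 0 := by
  intro h0
  have h1 := congrArg PowerSeries.constantCoeff h0
  rw [PowerSeries.constantCoeff_C, map_zero] at h1
  exact h h1

theorem fac_ne (N : ℕ) : (N.factorial : ℚ) ≠ 0 := by exact_mod_cast Nat.factorial_ne_zero N

/-- everything about the series in terms of the orthogonal polynomials -/
theorem sea_main : ∃ (s h : ℕ → PowerSeries ℚ), (∀ N, h N ≠ 0) ∧
    (∀ n : ℕ, ((n : PowerSeries ℚ) + 1) * h n =
      h (n + 1) - 3 * PowerSeries.X * (s (n + 2) - s n) * h (n + 1)) ∧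
    (∀ N, K1s N = s N) ∧ (∀ N, 1 ≤ N → h (N - 1) * K11s N = h N) ∧
    (∀ N, PowerSeries.derivative ℚ (h N) = (K0s (N + 1) - K0s N) * h N) := by
  obtain ⟨P, h, h1, h2, h5, h3, h4, h6⟩ := orth_exists
  have A0 : ∀ N, PowerSeries.C (gN N) * Zs N [] =
      PowerSeries.C (N.factorial : ℚ) * ∏ j ∈ Finset.range N, h j := by
    intro N
    apply sea_mk
    intro m
    rw [List.nil_append, lgz0, hank0 h1 h2 h3 h4]
  have hg : ∀ N, gN N ≠ 0 := by
    intro N h0
    have h7 := A0 N
    rw [h0, map_zero, zero_mul] at h7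
    exact mul_ne_zero (C_ne (fac_ne N)) (prod_ne h5 N) h7.symm
  have A1 : ∀ N, 1 ≤ N → PowerSeries.C (gN N) * Zs N [1] =
      PowerSeries.C (N.factorial : ℚ) * (sg P N * ∏ j ∈ Finset.range N, h j) := by
    intro N hN
    apply sea_mk
    intro m
    rw [List.singleton_append, lgz1 N m hN, hank1 h1 h2 h3 h4 N hN]
  have A2 : ∀ N, 1 ≤ N → h (N - 1) * (PowerSeries.C (gN N) * Zs N [1, 1]) =
      PowerSeries.C (N.factorial : ℚ) *
        ((sg P N ^ 2 * h (N - 1) + h N) * ∏ j ∈ Finset.range N, h j) := by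
    intro N hN
    rw [← hank2 h1 h2 h3 h4 N hN]
    have h7 : PowerSeries.C (gN N) * Zs N [1, 1] = PowerSeries.C (N.factorial : ℚ) *
        Matrix.det (Matrix.of fun a b : Fin N => mom (esh N a + esh N b)) := by
      apply sea_mk
      intro m
      exact lgz2 N m hN
    rw [h7]
    ring
  have B1 : ∀ N, 1 ≤ N → Zs N [1] = sg P N * Zs N [] := by
    intro N hN
    apply mul_left_cancel₀ (C_ne (hg N))
    rw [A1 N hN]
    linear_combination (- sg P N) * A0 N
  have B2 : ∀ N, 1 ≤ N → h (N - 1) * Zs N [1, 1] = (sg P N ^ 2 * h (N - 1) + h N) * Zs N [] := by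
    intro N hN
    apply mul_left_cancel₀ (C_ne (hg N))
    linear_combination A2 N hN - (sg P N ^ 2 * h (N - 1) + h N) * A0 N
  have K1 : ∀ N, K1s N = sg P N := by
    intro N
    rcases Nat.eq_zero_or_pos N with h0 | h0
    · subst h0
      have h7 : Zs 0 [1] = 0 := by
        ext m
        unfold Zs
        rw [PowerSeries.coeff_mk, map_zero]
        have h8 := LG_w 0 ([1] ++ List.replicate m 3)
        have h9 : ps 0 1 = 0 := by
          unfold ps
          simp
        rw [List.singleton_append, List.map_cons, List.prod_cons, h9, zero_mul, zero_mul,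
          map_zero] at h8
        have h10 : w ((0 : ℕ) : ℚ) ([1] ++ List.replicate m 3) = 0 := by
          rw [List.singleton_append]
          rcases mul_eq_zero.1 h8.symm with h11 | h11
          · exact h11
          · exact absurd h11 (hg 0)
        rw [h10, zero_div]
      rw [Z1_eq] at h7
      rcases mul_eq_zero.1 h7 with h8 | h8
      · rw [h8]
        unfold sg
        rw [if_pos rfl]
      · exact absurd h8 (Z0_ne 0)
    · have h7 := B1 N h0
      rw [Z1_eq] at h7
      exact mul_right_cancel₀ (Z0_ne N) h7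
  have K2 : ∀ N, 1 ≤ N → h (N - 1) * K11s N = h N := by
    intro N hN
    apply mul_right_cancel₀ (Z0_ne N)
    have h7 := B2 N hN
    rw [Z2_eq, K1 N] at h7
    have h8 := B1 N hN
    rw [h8] at h7
    linear_combination h7
  have D0 : ∀ N, K0s N * (∏ j ∈ Finset.range N, h j) =
      PowerSeries.derivative ℚ (∏ j ∈ Finset.range N, h j) := by
    intro N
    apply mul_left_cancel₀ (C_ne (fac_ne N))
    have h7 := congrArg (PowerSeries.derivative ℚ) (A0 N)
    rw [Derivation.leibniz, Derivation.leibniz, PowerSeries.derivative_C, PowerSeries.derivative_C,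
      smul_zero, smul_zero, add_zero, add_zero, Z0_der] at h7
    simp only [smul_eq_mul] at h7
    linear_combination h7 - K0s N * A0 N
  have DH : ∀ N, PowerSeries.derivative ℚ (h N) = (K0s (N + 1) - K0s N) * h N := by
    intro N
    apply mul_left_cancel₀ (prod_ne h5 N)
    have h7 := D0 (N + 1)
    rw [Finset.prod_range_succ, Derivation.leibniz, ← D0 N] at h7
    simp only [smul_eq_mul] at h7
    linear_combination - h7
  exact ⟨sg P, h, h_ne h5, h6, K1, K2, DH⟩

end aux

/-- logarithmic derivative form of the Toda equation -/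
theorem sea_log (N : ℕ) (hN : 1 ≤ N) :
    PowerSeries.derivative ℚ (K11s N) = K11s N * (K0s (N + 1) - 2 * K0s N + K0s (N - 1)) := by
  obtain ⟨s, h, h0, -, -, K2, DH⟩ := sea_main
  have h1 := congrArg (PowerSeries.derivative ℚ) (K2 N hN)
  have h2 := DH (N - 1)
  rw [Nat.sub_add_cancel hN] at h2
  rw [Derivation.leibniz, h2, DH N, ← K2 N hN] at h1
  simp only [smul_eq_mul] at h1
  apply mul_left_cancel₀ (h0 (N - 1))
  linear_combination h1

/-- the string equation -/
theorem sea_str (N : ℕ) (hN : 1 ≤ N) :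
    (N : PowerSeries ℚ) = K11s N * (1 - 3 * PowerSeries.X * (K1s (N + 1) - K1s (N - 1))) := by
  obtain ⟨s, h, h0, h6, K1, K2, -⟩ := sea_main
  obtain ⟨n, rfl⟩ : ∃ n, N = n + 1 := ⟨N - 1, by omega⟩
  have h1 := h6 n
  have h2 := K2 (n + 1) hN
  rw [Nat.add_sub_cancel] at h2 ⊢
  rw [K1, K1]
  rw [← h2] at h1
  apply mul_left_cancel₀ (h0 n)
  push_cast
  linear_combination h1

end UN39
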