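import Mathlib
import Pool.Agent.H39.UN.Num
import Pool.Agent.H39.UN.Kk
import Pool.Agent.H39.UN.SeA

/-!
[H39 UN SEB]  (MP_bcc40c_pr)  The two polynomial identities SE (string equation) and GJ (Toda / Goulden-Jackson) for the
polynomials `bb n = ∑_v b(n,v) X^v`, `Dl f = f(X+1) - f(X-1)`, `D2 f = f(X+1) - 2 f + f(X-1)`.

PROOFS.  K_odd: strong induction along K_nil, K_zero, K_one, K_two (on `l.sum + l.length` or the fuel):
every list on the right has sum smaller by exactly 2 or is split into two lists one of which has odd sum;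
`0 :: l` with odd sum has `l ≠ []`.
kk_eval: `Polynomial.eval_mul`, `Polynomial.eval_map`, `Polynomial.eval₂_at_natCast`-like lemmas: both sides are
`(m! 3^m)⁻¹ * ∑ coefficients * N^k`.
For natural `N` write `bN n = kN N (1 :: 3^(2n+1)) / ((2n+1)! 3^(2n+1))`, so `(bb n).eval N = bN n` (cast).
coefficients: `coeff m (K1s N) = kN N (1 :: 3^m)/m!`: zero for even `m` (K_odd), `3^(2n+1) bN n` for
`m = 2n+1`.  `coeff m (K0s N) = kN N (3 :: 3^m)/m!`: zero for even `m`; for `m = 2n-1`, `n ≥ 1`: `3^(2n-1) bN n`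
(bb_three).  `coeff m (K11s N) = kN N (1 :: 1 :: 3^m)/m!`: `N` for `m = 0` (K_one, picks [1], K [0] = X); zero for odd
`m`; `3^(2n+2) (6n+4) bN n` for `m = 2n+2` (kk_one_one with `m = 2n+1`).
SE at `N`: take the coefficient of `t^(2n+2)` in sea_str (`N = K11s * (1 - 3 t (K1s (N+1) - K1s (N-1)))`, the left
side has coefficient 0): `3 t (K1s (N+1) - K1s(N-1))` has the coefficient `3^(2j+2) (Dl bN)_j` at `t^(2j+2)`, so
`0 = 3^(2n+2) (6n+4) bN n - N 3^(2n+2) Dl_n - ∑_{i+j = n-1} 3^(2i+2) (6i+4) bN i * 3^(2j+2) Dl_j`.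
GJ at `N`: coefficient of `t^(2n+1)` in sea_log: left: `(2n+2) 3^(2n+2) (6n+4) bN n`; right:
`N 3^(2n+1) D2_(n+1) + ∑_{i+j=n, j≥1} 3^(2i+2) (6i+4) bN i * 3^(2j-1) D2_j`; divide by `3^(2n+1)`.
Then both polynomials (left minus right) vanish at all natural `N ≥ 1` and so are zero
(`Polynomial.eq_zero_of_infinite_isRoot` or `Polynomial.funext`-type argument); for evaluation:
`(f.comp (X + 1)).eval N = f.eval (N+1)`, and `N - 1` is a natural number for `N ≥ 1`.
-/

set_option autoImplicit false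

namespace UN39

open Polynomial

theorem K_odd_aux (n : ℕ) : ∀ l : List ℕ, l.sum ≤ n → Odd l.sum → K l = 0 := by
  induction n with
  | zero =>
    intro l h1 h2
    rw [Nat.le_zero.1 h1] at h2
    simp at h2
  | succ n ih =>
    intro l h1 h2
    match l, h1, h2 with
    | [], _, h2 => simp at h2
    | 0 :: l, _, h2 =>
      rw [K_zero, if_neg]
      rintro rfl
      simp at h2
    | 1 :: l, h1, h2 =>
      rw [List.sum_cons] at h1 h2
      rw [K_one]
      apply List.sum_eq_zero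
      intro y hy
      rw [List.mem_map] at hy
      obtain ⟨p, hp, rfl⟩ := hy
      have h3 := picks_sum hp
      rcases Nat.eq_zero_or_pos p.1 with h0 | h0
      · rw [h0, zero_smul]
      · have h4 : ((p.1 - 1) :: p.2).sum = l.sum - 1 := by
          rw [List.sum_cons]
          omega
        rw [ih _ (by omega), smul_zero]
        rw [h4]
        rcases h2 with ⟨r, hr⟩
        exact ⟨r - 1, by omega⟩
    | (k + 2) :: l, h1, h2 =>
      rw [List.sum_cons] at h1 h2
      rcases h2 with ⟨r, hr⟩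
      rw [K_two]
      have A : ((picks l).map fun p => p.1 • K ((k + p.1) :: p.2)).sum = 0 := by
        apply List.sum_eq_zero
        intro y hy
        rw [List.mem_map] at hy
        obtain ⟨p, hp, rfl⟩ := hy
        have h3 := picks_sum hp
        have h4 : ((k + p.1) :: p.2).sum = k + l.sum := by
          rw [List.sum_cons]
          omega
        rw [ih _ (by omega), smul_zero]
        rw [h4]
        exact ⟨r - 1, by omega⟩
      rw [A, add_zero]
      refine Finset.sum_eq_zero fun i hi => ?_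
      rw [Finset.mem_range] at hi
      have B : K (i :: (k - i) :: l) = 0 := by
        have h4 : (i :: (k - i) :: l).sum = k + l.sum := by
          rw [List.sum_cons, List.sum_cons]
          omega
        apply ih _ (by omega)
        rw [h4]
        exact ⟨r - 1, by omega⟩
      rw [B, zero_add]
      apply List.sum_eq_zero
      intro y hy
      rw [List.mem_map] at hy
      obtain ⟨p, hp, rfl⟩ := hy
      have h3 := splits_sum hp
      have h4 : (i :: p.1).sum = i + p.1.sum := List.sum_cons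
      have h5 : ((k - i) :: p.2).sum = (k - i) + p.2.sum := List.sum_cons
      rcases Nat.even_or_odd (i + p.1.sum) with h6 | h6
      · have h7 : Odd ((k - i) + p.2.sum) := by
          rcases h6 with ⟨r', hr'⟩
          exact ⟨r - 1 - r', by omega⟩
        rw [ih ((k - i) :: p.2) (by omega) (by rw [h5]; exact h7), mul_zero]
      · rw [ih (i :: p.1) (by omega) (by rw [h4]; exact h6), zero_mul]

theorem K_odd {l : List ℕ} (h : Odd l.sum) : K l = 0 := K_odd_aux l.sum l le_rfl h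

theorem kN_nat (N : ℕ) (l : List ℕ) : kN N l = (((K l).eval N : ℕ) : ℚ) := by
  unfold kN
  rw [Polynomial.eval_natCast_map]
  simp

theorem kk_eval (c : List ℕ) (m N : ℕ) : (kk c m).eval (N : ℝ) =
    ((kN N (c ++ List.replicate m 3) / ((m.factorial : ℚ) * 3 ^ m) : ℚ) : ℝ) := by
  unfold kk
  rw [Polynomial.eval_mul, Polynomial.eval_C, Polynomial.eval_natCast_map, kN_nat]
  push_cast
  rw [div_eq_inv_mul]

/-- symmetric first difference -/
noncomputable def Dl (f : Polynomial ℝ) : Polynomial ℝ := f.comp (X + 1) - f.comp (X - 1)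

/-- second difference -/
noncomputable def D2 (f : Polynomial ℝ) : Polynomial ℝ :=
  f.comp (X + 1) - 2 * f + f.comp (X - 1)

section aux

/-- real power series with rescaled variable -/
noncomputable def sph : PowerSeries ℚ →+* PowerSeries ℝ :=
  (PowerSeries.rescale (1 / 3 : ℝ)).comp (PowerSeries.map (Rat.castHom ℝ))

theorem coeff_sph (m : ℕ) (f : PowerSeries ℚ) :
    PowerSeries.coeff m (sph f) = (1 / 3 : ℝ) ^ m * ((PowerSeries.coeff m f : ℚ) : ℝ) := by
  unfold sph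
  rw [RingHom.comp_apply, PowerSeries.coeff_rescale, PowerSeries.coeff_map]
  rfl

theorem sph_X : sph (3 * PowerSeries.X) = PowerSeries.X := by
  ext m
  rw [coeff_sph]
  have h1 : (3 * PowerSeries.X : PowerSeries ℚ) = PowerSeries.C 3 * PowerSeries.X := by
    rw [show (3 : ℚ) = ((3 : ℕ) : ℚ) by norm_num, map_natCast]
    norm_num
  rw [h1, PowerSeries.coeff_C_mul, PowerSeries.coeff_X, PowerSeries.coeff_X]
  by_cases h : m = 1
  · rw [if_pos h, if_pos h, h]
    norm_num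
  · rw [if_neg h, if_neg h]
    simp

theorem sph_der (f : PowerSeries ℚ) : sph (PowerSeries.derivative ℚ f) =
    3 * PowerSeries.derivative ℝ (sph f) := by
  ext m
  have h1 : (3 * PowerSeries.derivative ℝ (sph f) : PowerSeries ℝ) =
      PowerSeries.C 3 * PowerSeries.derivative ℝ (sph f) := by
    rw [show (3 : ℝ) = ((3 : ℕ) : ℝ) by norm_num, map_natCast]
    norm_num
  rw [h1, coeff_sph, PowerSeries.coeff_C_mul, PowerSeries.coeff_derivative,
    PowerSeries.coeff_derivative, coeff_sph]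
  push_cast
  rw [pow_succ]
  ring

/-- values of the normalised numbers -/
noncomputable def RR (c : List ℕ) (N : ℕ) : PowerSeries ℝ :=
  PowerSeries.mk fun m => (kk c m).eval (N : ℝ)

theorem sph_K (c : List ℕ) (N : ℕ) : sph (PowerSeries.mk fun m =>
    kN N (c ++ List.replicate m 3) / (m.factorial : ℚ)) = RR c N := by
  ext m
  unfold RR
  rw [coeff_sph, PowerSeries.coeff_mk, PowerSeries.coeff_mk, kk_eval]
  have h1 : (m.factorial : ℝ) ≠ 0 := by exact_mod_cast Nat.factorial_ne_zero m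
  push_cast
  rw [one_div, inv_pow]
  field_simp

theorem str_R (N : ℕ) (hN : 1 ≤ N) : (N : PowerSeries ℝ) =
    RR [1, 1] N * (1 - PowerSeries.X * (RR [1] (N + 1) - RR [1] (N - 1))) := by
  have h := congrArg sph (sea_str N hN)
  rw [map_mul, map_sub, map_mul, sph_X, map_sub, map_natCast, map_one] at h
  rw [h]
  have h1 : ∀ M, sph (K1s M) = RR [1] M := fun M => sph_K [1] M
  have h2 : ∀ M, sph (K11s M) = RR [1, 1] M := fun M => sph_K [1, 1] M
  rw [h1, h1, h2]

theorem log_R (N : ℕ) (hN : 1 ≤ N) : 3 * PowerSeries.derivative ℝ (RR [1, 1] N) =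
    RR [1, 1] N * (RR [3] (N + 1) - 2 * RR [3] N + RR [3] (N - 1)) := by
  have h := congrArg sph (sea_log N hN)
  have h2 : ∀ M, sph (K11s M) = RR [1, 1] M := fun M => sph_K [1, 1] M
  have h3 : ∀ M, sph (K0s M) = RR [3] M := fun M => sph_K [3] M
  rw [sph_der, map_mul, map_add, map_sub, map_mul, h2, h3, h3, h3] at h
  rw [h]
  have h4 : sph 2 = 2 := by
    rw [show (2 : PowerSeries ℚ) = ((2 : ℕ) : PowerSeries ℚ) by norm_num, map_natCast]
    norm_num
  rw [h4]

theorem kk_odd {c : List ℕ} {m : ℕ} (h : Odd (c.sum + 3 * m)) : kk c m = 0 := by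
  unfold kk
  rw [K_odd]
  · simp
  · rw [List.sum_append, List.sum_replicate, smul_eq_mul, mul_comm m 3]
    exact h

theorem sum_pairs (F : ℕ → ℝ) (m : ℕ) : ∑ k ∈ Finset.range (2 * m), F k =
    ∑ a ∈ Finset.range m, (F (2 * a) + F (2 * a + 1)) := by
  induction m with
  | zero => simp
  | succ m ih =>
    rw [show 2 * (m + 1) = 2 * m + 1 + 1 by ring, Finset.sum_range_succ, Finset.sum_range_succ, ih,
      Finset.sum_range_succ]
    ring

theorem anti_odd (f g : ℕ → ℝ) (hf : ∀ a, f (2 * a + 1) = 0) (n : ℕ) :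
    ∑ p ∈ Finset.HasAntidiagonal.antidiagonal (2 * n + 1), f p.1 * g p.2 =
      f 0 * g (2 * n + 1) + ∑ i ∈ Finset.range n, f (2 * i + 2) * g (2 * (n - 1 - i) + 1) := by
  rw [Finset.Nat.sum_antidiagonal_eq_sum_range_succ (fun i j => f i * g j)]
  rw [show (2 * n + 1).succ = 2 * (n + 1) by omega, sum_pairs]
  have h1 : ∀ a ∈ Finset.range (n + 1), (f (2 * a) * g (2 * n + 1 - 2 * a) +
      f (2 * a + 1) * g (2 * n + 1 - (2 * a + 1))) = f (2 * a) * g (2 * n + 1 - 2 * a) := by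
    intro a _
    rw [hf, zero_mul, add_zero]
  rw [Finset.sum_congr rfl h1, Finset.sum_range_succ']
  rw [mul_zero, Nat.sub_zero, add_comm]
  congr 1
  refine Finset.sum_congr rfl fun i hi => ?_
  rw [Finset.mem_range] at hi
  rw [show 2 * n + 1 - 2 * (i + 1) = 2 * (n - 1 - i) + 1 by omega, show 2 * (i + 1) = 2 * i + 2 by ring]

theorem kk11_zero (N : ℕ) : (kk [1, 1] 0).eval (N : ℝ) = N := by
  unfold kk
  have h1 : K [1, 1] = X := by
    rw [K_one]
    simp [picks, K_zero]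
  rw [List.replicate_zero, List.append_nil, h1]
  simp

theorem kk11_odd (N a : ℕ) : (kk [1, 1] (2 * a + 1)).eval (N : ℝ) = 0 := by
  rw [kk_odd, eval_zero]
  exact ⟨3 * a + 2, by simp; ring⟩

theorem kk11_even (N a : ℕ) : (kk [1, 1] (2 * a + 2)).eval (N : ℝ) =
    2 * (3 * (a : ℝ) + 2) * (bb a).eval (N : ℝ) := by
  rw [show 2 * a + 2 = (2 * a + 1) + 1 by ring, kk_one_one (2 * a + 1) (by omega)]
  unfold bb
  rw [eval_smul, smul_eq_mul]
  push_cast
  ring

theorem kk3_odd (b N : ℕ) : (kk [3] (2 * b + 1)).eval (N : ℝ) = (bb (b + 1)).eval (N : ℝ) := by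
  rw [← bb_three (b + 1) (by omega), show 2 * (b + 1) - 1 = 2 * b + 1 by omega]

theorem poly_eq {P Q : Polynomial ℝ} (h : ∀ k : ℕ, P.eval (((k + 1 : ℕ)) : ℝ) = Q.eval (((k + 1 : ℕ)) : ℝ)) :
    P = Q := by
  apply Polynomial.eq_of_infinite_eval_eq
  apply Set.infinite_of_injective_forall_mem (f := fun k : ℕ => (((k + 1 : ℕ)) : ℝ))
  · intro a b hab
    have hab' : (((a + 1 : ℕ)) : ℝ) = ((b + 1 : ℕ) : ℝ) := hab
    have h1 : a + 1 = b + 1 := by exact_mod_cast hab'
    omega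
  · intro k
    exact h k

theorem Dl_eval (f : Polynomial ℝ) (k : ℕ) : (Dl f).eval (((k + 1 : ℕ)) : ℝ) =
    f.eval (((k + 1 + 1 : ℕ)) : ℝ) - f.eval ((k : ℕ) : ℝ) := by
  unfold Dl
  rw [eval_sub, eval_comp, eval_comp]
  simp

theorem D2_eval (f : Polynomial ℝ) (k : ℕ) : (D2 f).eval (((k + 1 : ℕ)) : ℝ) =
    f.eval (((k + 1 + 1 : ℕ)) : ℝ) - 2 * f.eval (((k + 1 : ℕ)) : ℝ) + f.eval ((k : ℕ) : ℝ) := by
  unfold D2
  rw [eval_add, eval_sub, eval_mul, eval_comp, eval_comp]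
  simp

end aux

theorem SE (n : ℕ) : C (2 * (3 * (n : ℝ) + 2)) * bb n = X * Dl (bb n) +
    ∑ i ∈ Finset.range n, C (2 * (3 * (i : ℝ) + 2)) * bb i * Dl (bb (n - 1 - i)) := by
  apply poly_eq
  intro k
  have h := congrArg (PowerSeries.coeff (2 * n + 1 + 1)) (str_R (k + 1) (by omega))
  have h0 : ((k + 1 : ℕ) : PowerSeries ℝ) = PowerSeries.C ((k + 1 : ℕ) : ℝ) := by
    rw [map_natCast]
  rw [h0, PowerSeries.coeff_C, if_neg (by omega), mul_sub, mul_one, map_sub] at h
  rw [show RR [1, 1] (k + 1) * (PowerSeries.X * (RR [1] (k + 1 + 1) - RR [1] (k + 1 - 1))) =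
    PowerSeries.X * (RR [1, 1] (k + 1) * (RR [1] (k + 1 + 1) - RR [1] (k + 1 - 1))) by ring,
    PowerSeries.coeff_succ_X_mul, PowerSeries.coeff_mul] at h
  have h1 := anti_odd (fun m => (kk [1, 1] m).eval (((k + 1 : ℕ)) : ℝ))
    (fun m => (kk [1] m).eval (((k + 1 + 1 : ℕ)) : ℝ) - (kk [1] m).eval ((k : ℕ) : ℝ))
    (fun a => kk11_odd (k + 1) a) n
  have h2 : ∑ p ∈ Finset.HasAntidiagonal.antidiagonal (2 * n + 1), PowerSeries.coeff p.1 (RR [1, 1] (k + 1)) *
      PowerSeries.coeff p.2 (RR [1] (k + 1 + 1) - RR [1] (k + 1 - 1)) =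
      ∑ p ∈ Finset.HasAntidiagonal.antidiagonal (2 * n + 1), (kk [1, 1] p.1).eval (((k + 1 : ℕ)) : ℝ) *
        ((kk [1] p.2).eval (((k + 1 + 1 : ℕ)) : ℝ) - (kk [1] p.2).eval ((k : ℕ) : ℝ)) := by
    refine Finset.sum_congr rfl fun p _ => ?_
    rw [Nat.add_sub_cancel, map_sub]
    unfold RR
    rw [PowerSeries.coeff_mk, PowerSeries.coeff_mk, PowerSeries.coeff_mk]
  rw [h2, h1, kk11_zero] at h
  have h3 : PowerSeries.coeff (2 * n + 1 + 1) (RR [1, 1] (k + 1)) =
      2 * (3 * (n : ℝ) + 2) * (bb n).eval (((k + 1 : ℕ)) : ℝ) := by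
    unfold RR
    rw [PowerSeries.coeff_mk]
    exact kk11_even (k + 1) n
  rw [h3] at h
  rw [eval_mul, eval_C, eval_add, eval_mul, eval_X, Polynomial.eval_finset_sum, Dl_eval]
  have h4 : ∑ i ∈ Finset.range n, (kk [1, 1] (2 * i + 2)).eval (((k + 1 : ℕ)) : ℝ) *
        ((kk [1] (2 * (n - 1 - i) + 1)).eval (((k + 1 + 1 : ℕ)) : ℝ) -
          (kk [1] (2 * (n - 1 - i) + 1)).eval ((k : ℕ) : ℝ)) =
      ∑ i ∈ Finset.range n, (C (2 * (3 * (i : ℝ) + 2)) * bb i * Dl (bb (n - 1 - i))).eval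
        (((k + 1 : ℕ)) : ℝ) := by
    refine Finset.sum_congr rfl fun i _ => ?_
    rw [eval_mul, eval_mul, eval_C, Dl_eval, kk11_even]
    rfl
  rw [← h4]
  have h5 : ∀ M : ℕ, (bb n).eval ((M : ℕ) : ℝ) = (kk [1] (2 * n + 1)).eval ((M : ℕ) : ℝ) := fun M => rfl
  rw [h5 (k + 1 + 1), h5 k]
  linarith

theorem GJ (n : ℕ) : C (12 * ((n : ℝ) + 1) * (3 * (n : ℝ) + 2)) * bb n = X * D2 (bb (n + 1)) +
    ∑ i ∈ Finset.range n, C (2 * (3 * (i : ℝ) + 2)) * bb i * D2 (bb (n - i)) := by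
  apply poly_eq
  intro k
  have h := congrArg (PowerSeries.coeff (2 * n + 1)) (log_R (k + 1) (by omega))
  have h0 : (3 * PowerSeries.derivative ℝ (RR [1, 1] (k + 1)) : PowerSeries ℝ) =
      PowerSeries.C 3 * PowerSeries.derivative ℝ (RR [1, 1] (k + 1)) := by
    rw [show (3 : ℝ) = ((3 : ℕ) : ℝ) by norm_num, map_natCast]
    norm_num
  rw [h0, PowerSeries.coeff_C_mul, PowerSeries.coeff_derivative, PowerSeries.coeff_mul] at h
  have h1 := anti_odd (fun m => (kk [1, 1] m).eval (((k + 1 : ℕ)) : ℝ))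
    (fun m => (kk [3] m).eval (((k + 1 + 1 : ℕ)) : ℝ) - 2 * (kk [3] m).eval (((k + 1 : ℕ)) : ℝ) +
      (kk [3] m).eval ((k : ℕ) : ℝ))
    (fun a => kk11_odd (k + 1) a) n
  have h2 : ∑ p ∈ Finset.HasAntidiagonal.antidiagonal (2 * n + 1), PowerSeries.coeff p.1 (RR [1, 1] (k + 1)) *
      PowerSeries.coeff p.2 (RR [3] (k + 1 + 1) - 2 * RR [3] (k + 1) + RR [3] (k + 1 - 1)) =
      ∑ p ∈ Finset.HasAntidiagonal.antidiagonal (2 * n + 1), (kk [1, 1] p.1).eval (((k + 1 : ℕ)) : ℝ) *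
        ((kk [3] p.2).eval (((k + 1 + 1 : ℕ)) : ℝ) - 2 * (kk [3] p.2).eval (((k + 1 : ℕ)) : ℝ) +
          (kk [3] p.2).eval ((k : ℕ) : ℝ)) := by
    refine Finset.sum_congr rfl fun p _ => ?_
    have h6 : (2 * RR [3] (k + 1) : PowerSeries ℝ) = PowerSeries.C 2 * RR [3] (k + 1) := by
      rw [show (2 : ℝ) = ((2 : ℕ) : ℝ) by norm_num, map_natCast]
      norm_num
    rw [Nat.add_sub_cancel, map_add, map_sub, h6, PowerSeries.coeff_C_mul]
    unfold RR
    rw [PowerSeries.coeff_mk, PowerSeries.coeff_mk, PowerSeries.coeff_mk, PowerSeries.coeff_mk]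
  rw [h2, h1, kk11_zero] at h
  have h3 : PowerSeries.coeff (2 * n + 1 + 1) (RR [1, 1] (k + 1)) =
      2 * (3 * (n : ℝ) + 2) * (bb n).eval (((k + 1 : ℕ)) : ℝ) := by
    unfold RR
    rw [PowerSeries.coeff_mk]
    exact kk11_even (k + 1) n
  rw [h3] at h
  rw [eval_mul, eval_C, eval_add, eval_mul, eval_X, Polynomial.eval_finset_sum, D2_eval]
  have h4 : ∑ i ∈ Finset.range n, (kk [1, 1] (2 * i + 2)).eval (((k + 1 : ℕ)) : ℝ) *
        ((kk [3] (2 * (n - 1 - i) + 1)).eval (((k + 1 + 1 : ℕ)) : ℝ) -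
          2 * (kk [3] (2 * (n - 1 - i) + 1)).eval (((k + 1 : ℕ)) : ℝ) +
          (kk [3] (2 * (n - 1 - i) + 1)).eval ((k : ℕ) : ℝ)) =
      ∑ i ∈ Finset.range n, (C (2 * (3 * (i : ℝ) + 2)) * bb i * D2 (bb (n - i))).eval
        (((k + 1 : ℕ)) : ℝ) := by
    refine Finset.sum_congr rfl fun i hi => ?_
    rw [Finset.mem_range] at hi
    rw [eval_mul, eval_mul, eval_C, D2_eval, kk11_even, kk3_odd, kk3_odd, kk3_odd,
      show n - 1 - i + 1 = n - i by omega]
  rw [← h4]
  simp only [kk3_odd (n)] at h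
  push_cast at h ⊢
  linarith

end UN39
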