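import Mathlib
import Pool.Agent.H39.UN.Num
import Pool.Agent.H39.UN.Kk
import Pool.Agent.H39.UN.SeA
import Pool.Agent.H39.UN.SeB

/-!
[H39 UN INEQ]  (MP_bcc40c_pr)  Coefficients `bc n v` of `bb n`, support, positivity, and the two basic inequalities.

PROOFS.  bc_nonneg, kc_nonneg: `kk` is a nonnegative constant times a polynomial with natural coefficients.
kk_le: from tutte (all terms are coefficientwise nonnegative):
`coeff v (kk ((k+3) :: c) (m-1)) ≤ coeff v (kk ((k+2) :: c) m)` for `m ≥ 1`; and tutte1: `kk (2 :: c) (m-1) ≤ kk (1 :: c) m`.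
So `coeff v (kk ((p+1) :: c) m) ≤ coeff v (kk (p :: c) (m+1))` for `p ≥ 1`; iterate.
supp: `bc n v ≠ 0 → v ≤ n + 2 ∧ v % 2 = n % 2 ∧ 1 ≤ v`.  More generally for every `l` and `v` with
`(K l).coeff v ≠ 0`: `v ≥ 1`, `2 v + l.sum... `: with `s = l.sum` (even, K_odd) and `r = l.length`:
`v ≤ s/2 + 2 - r` i.e. `2 * (v + r) ≤ s + 4`, and `v + r ≡ s/2 (mod 2)`.  Prove this by induction along the recursion of
`K` (`K [0] = X`: `v = 1`, `r = 1`, `s = 0` ✓.; splitting the first polygon: `s` drops by 2, `r` grows by 1 (same `v`): the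
bound on the right side `2 (v + r + 1) ≤ s - 2 + 4` is stronger by 4: ok, parity: `v + r + 1 ≡ s/2 - 1` ✓.; two components:
`v = v1 + v2`, `r + 1 = r1 + r2`, `s - 2 = s1 + s2`: add; merging: `s` drops by 2, `r` drops by 1 ✓.).  For `l = 1 :: 3^(2n+1)`:
`s = 6n + 4`, `r = 2n + 2`: `2 v ≤ 6n + 8 - 4n - 4 = 2n + 4` ✓., parity `v + 2n + 2 ≡ 3n + 2`.
bc_mono: `2 * bc n v ≤ bc (n+1) (v+1)` for all `n`, `v`: by bb_three (`n + 1 ≥ 1`) `bb (n+1) = kk [3] (2n+1)`, tutte with `k = 1`,
`c = []`, `m = 2n+1`: the splits part contains for `i = 0` the term `j = 0`: `kk [0] 0 * kk [1] (2n+1) = X * bb n` and for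
`i = 1` the term `j = 2n+1`: `kk [1] (2n+1) * kk [0] 0`.  So `bb (n+1)` is coefficientwise at least `2 X bb n`.
bc_pos: for `1 ≤ n`, `1 ≤ v ≤ n + 2`, `v ≡ n (mod 2)`: by bc_mono it suffices to treat `v = 1` (`n` odd) and `v = 2` (`n` even) (then go
up along `(n+1, v+1)`: from `(n - j, v - j)`), and `v = n + 2` from `bc 0 2 = 1`.  `(n, 2)` for even `n ≥ 2` follows from `(n-1, 1)` by
bc_mono.  So the point is `bc n 1 > 0` for odd `n`: SE coefficient of `X^1`... easier: GJ, coefficient of `X^1` at level `n - 1` (`n` odd,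
`n - 1` even; `n = 1`: `bb 1 = 4 X^3 + X` from SE or GJ): no direct positivity; use instead the recursion of `K`:
`kk [3] (2n-1) = bb n` and tutte: `kk [3] m ≥ kk [4] (m-1)`, `kk [4] m ≥ kk [1,1] m` (`i = 1`, `k - i = 1`), so
`bb n ≥ kk [1,1] (2n-2) = (6 (n-2) + 4) bb (n-2)` for `n ≥ 2` coefficientwise: `bc n v ≥ (6n - 8) bc (n-2) v`.  With `bc 1 1 = 1`
(`bb 1 = 4 X^3 + X`) induction gives `bc n 1 > 0` for odd `n`.
iq: coefficient of `X^w` in SE, `w ≥ 1`: `coeff (w-1) (Dl f)`, `f = ∑ f_v X^v`: `(X+1)^v - (X-1)^v = 2 ∑_{j odd} v.choose j X^(v-j)`, so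
`coeff u (Dl f) = 2 ∑_{j odd} (u+j).choose j * f_(u+j) ≥ 2 (u+1) f_(u+1) + 2 (u+3).choose 3 f_(u+3)` for nonnegative coefficients
(`(u+3).choose u = (u+3).choose 3`); `X * Dl (bb n)` at `X^w`: `u = w - 1`: `2 w f_w + 2 (w+2).choose 3 f_(w+2)`.  The products:
coefficient of `X^w` of `bb i * Dl (bb j)` is `∑_{v ≤ w} bc i v * coeff (w - v) (Dl (bb j)) ≥ ∑ bc i v * 2 (w - v + 1) bc j (w - v + 1)`.
Divide by 2.
-/

set_option autoImplicit false

namespace UN39

open Polynomial

/-- the numbers `b(n, v)` -/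
noncomputable def bc (n v : ℕ) : ℝ := (bb n).coeff v

/-- the numbers `k(c; m, v)` -/
noncomputable def kc (c : List ℕ) (m v : ℕ) : ℝ := (kk c m).coeff v

/-- nonnegative coefficients -/
def NNp (f : Polynomial ℝ) : Prop := ∀ v, 0 ≤ f.coeff v

theorem NNp.add {f g : Polynomial ℝ} (hf : NNp f) (hg : NNp g) : NNp (f + g) := fun v => by
  rw [coeff_add]
  exact add_nonneg (hf v) (hg v)

theorem NNp.zero : NNp 0 := fun v => by rw [coeff_zero]

theorem NNp.mul {f g : Polynomial ℝ} (hf : NNp f) (hg : NNp g) : NNp (f * g) := fun v => by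
  rw [coeff_mul]
  exact Finset.sum_nonneg fun p _ => mul_nonneg (hf _) (hg _)

theorem NNp.smul {f : Polynomial ℝ} {a : ℝ} (ha : 0 ≤ a) (hf : NNp f) : NNp (a • f) := fun v => by
  rw [coeff_smul, smul_eq_mul]
  exact mul_nonneg ha (hf v)

theorem NNp.sum {ι : Type} (s : Finset ι) (f : ι → Polynomial ℝ) (h : ∀ i ∈ s, NNp (f i)) :
    NNp (∑ i ∈ s, f i) := fun v => by
  rw [finsetSum_coeff]
  exact Finset.sum_nonneg fun i hi => h i hi v

theorem NNp.lsum {ι : Type} (L : List ι) (f : ι → Polynomial ℝ) (h : ∀ i ∈ L, NNp (f i)) :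
    NNp ((L.map f).sum) := by
  induction L with
  | nil => exact NNp.zero
  | cons x xs ih =>
    rw [List.map_cons, List.sum_cons]
    exact (h x (List.mem_cons_self)).add (ih fun i hi => h i (List.mem_cons_of_mem _ hi))

theorem NNp.kk (c : List ℕ) (m : ℕ) : NNp (kk c m) := fun v => by
  unfold UN39.kk
  rw [coeff_C_mul, coeff_map, eq_natCast]
  positivity

theorem NNp.ite {p : Prop} [Decidable p] {f g : Polynomial ℝ} (hf : NNp f) (hg : NNp g) :
    NNp (if p then f else g) := by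
  split_ifs
  · exact hf
  · exact hg

theorem kc_nonneg (c : List ℕ) (m v : ℕ) : 0 ≤ kc c m v := NNp.kk c m v

theorem bc_nonneg (n v : ℕ) : 0 ≤ bc n v := NNp.kk [1] (2 * n + 1) v

theorem lsum_coeff {R ι : Type} [Semiring R] (L : List ι) (f : ι → Polynomial R) (v : ℕ) :
    ((L.map f).sum).coeff v = (L.map fun p => (f p).coeff v).sum := by
  induction L with
  | nil => simp
  | cons x xs ih => simp only [List.map_cons, List.sum_cons, coeff_add, ih]

theorem lsum_ne {ι : Type} {L : List ι} {f : ι → Polynomial ℕ} {v : ℕ}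
    (h : ((L.map f).sum).coeff v ≠ 0) : ∃ p ∈ L, (f p).coeff v ≠ 0 := by
  by_contra h1
  push Not at h1
  apply h
  rw [lsum_coeff]
  have h2 : (L.map fun p => (f p).coeff v) = L.map fun _ => 0 := List.map_congr_left h1
  rw [h2]
  simp

theorem mul_ne {f g : Polynomial ℕ} {v : ℕ} (h : (f * g).coeff v ≠ 0) :
    ∃ a b, a + b = v ∧ f.coeff a ≠ 0 ∧ g.coeff b ≠ 0 := by
  rw [coeff_mul] at h
  obtain ⟨p, hp, h1⟩ := Finset.exists_ne_zero_of_sum_ne_zero h
  exact ⟨p.1, p.2, Finset.HasAntidiagonal.mem_antidiagonal.1 hp, left_ne_zero_of_mul h1, right_ne_zero_of_mul h1⟩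

theorem K_even {l : List ℕ} {v : ℕ} (h : (K l).coeff v ≠ 0) : l.sum % 2 = 0 := by
  by_contra h1
  have h2 : Odd l.sum := Nat.odd_iff.2 (by omega)
  rw [K_odd h2, coeff_zero] at h
  exact h rfl

theorem K_supp_aux (n : ℕ) (l : List ℕ) (hl : l.sum + l.length ≤ n) (v : ℕ)
    (h : (K l).coeff v ≠ 0) :
    1 ≤ v ∧ 2 * (v + l.length) ≤ l.sum + 4 ∧ (v + l.length) % 2 = (l.sum / 2) % 2 := by
  induction n using Nat.strong_induction_on generalizing l v with
  | _ n ih =>
  match l, hl, h with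
  | [], _, h =>
    rw [K_nil, coeff_zero] at h
    exact absurd rfl h
  | 0 :: l, _, h =>
    rw [K_zero] at h
    by_cases h1 : l = []
    · rw [if_pos h1, coeff_X] at h
      have h2 : 1 = v := by
        by_contra h3
        rw [if_neg h3] at h
        exact h rfl
      subst h1
      subst h2
      simp
    · rw [if_neg h1, coeff_zero] at h
      exact absurd rfl h
  | 1 :: l, hl, h =>
    have he := K_even h
    rw [K_one] at h
    obtain ⟨p, hp, h1⟩ := lsum_ne h
    rw [nsmul_eq_mul, coeff_natCast_mul] at h1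
    have h2 := left_ne_zero_of_mul h1
    have h3 := right_ne_zero_of_mul h1
    have h4 := picks_sum hp
    have h5 := (picks_perm hp).length_eq
    have h2' : p.1 ≠ 0 := by exact_mod_cast h2
    simp only [List.sum_cons, List.length_cons] at hl he h5 ⊢
    have h6 := ih (n - 1) (by omega) ((p.1 - 1) :: p.2) (by
      simp only [List.sum_cons, List.length_cons]
      omega) v h3
    simp only [List.sum_cons, List.length_cons] at h6
    omega
  | (k + 2) :: l, hl, h =>
    have he := K_even h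
    rw [K_two, coeff_add] at h
    simp only [List.sum_cons, List.length_cons] at hl he ⊢
    have h1 : (∑ i ∈ Finset.range (k + 1), (K (i :: (k - i) :: l) +
        ((splits l).map fun p => K (i :: p.1) * K ((k - i) :: p.2)).sum)).coeff v ≠ 0 ∨
      (((picks l).map fun p => p.1 • K ((k + p.1) :: p.2)).sum).coeff v ≠ 0 := by
      by_contra h2
      push Not at h2
      rw [h2.1, h2.2] at h
      exact h rfl
    rcases h1 with h1 | h1
    · rw [finsetSum_coeff] at h1
      obtain ⟨i, hi, h2⟩ := Finset.exists_ne_zero_of_sum_ne_zero h1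
      rw [Finset.mem_range] at hi
      rw [coeff_add] at h2
      have h3 : (K (i :: (k - i) :: l)).coeff v ≠ 0 ∨
          (((splits l).map fun p => K (i :: p.1) * K ((k - i) :: p.2)).sum).coeff v ≠ 0 := by
        by_contra h4
        push Not at h4
        rw [h4.1, h4.2] at h2
        exact h2 rfl
      rcases h3 with h3 | h3
      · have h6 := ih (n - 1) (by omega) (i :: (k - i) :: l) (by
          simp only [List.sum_cons, List.length_cons]
          omega) v h3
        simp only [List.sum_cons, List.length_cons] at h6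
        omega
      · obtain ⟨p, hp, h4⟩ := lsum_ne h3
        obtain ⟨a, b, hab, ha, hb⟩ := mul_ne h4
        have h5 := splits_sum hp
        have h7 := (splits_perm hp).length_eq
        rw [List.length_append] at h7
        have hea := K_even ha
        have heb := K_even hb
        have h8 := ih (n - 1) (by omega) (i :: p.1) (by
          simp only [List.sum_cons, List.length_cons]
          omega) a ha
        have h9 := ih (n - 1) (by omega) ((k - i) :: p.2) (by
          simp only [List.sum_cons, List.length_cons]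
          omega) b hb
        simp only [List.sum_cons, List.length_cons] at h8 h9 hea heb
        omega
    · obtain ⟨p, hp, h2⟩ := lsum_ne h1
      rw [nsmul_eq_mul, coeff_natCast_mul] at h2
      have h3 := right_ne_zero_of_mul h2
      have h4 := picks_sum hp
      have h5 := (picks_perm hp).length_eq
      simp only [List.length_cons] at h5
      have h6 := ih (n - 1) (by omega) ((k + p.1) :: p.2) (by
        simp only [List.sum_cons, List.length_cons]
        omega) v h3
      simp only [List.sum_cons, List.length_cons] at h6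
      omega

theorem K_supp {l : List ℕ} {v : ℕ} (h : (K l).coeff v ≠ 0) :
    1 ≤ v ∧ 2 * (v + l.length) ≤ l.sum + 4 ∧ (v + l.length) % 2 = (l.sum / 2) % 2 :=
  K_supp_aux _ l le_rfl v h

theorem bc_supp {n v : ℕ} (h : bc n v ≠ 0) : 1 ≤ v ∧ v ≤ n + 2 ∧ v % 2 = n % 2 := by
  unfold bc bb kk at h
  rw [coeff_C_mul, coeff_map] at h
  have h1 : (K ([1] ++ List.replicate (2 * n + 1) 3)).coeff v ≠ 0 := by
    intro h2
    rw [h2] at h
    simp at h
  have h2 := K_supp h1
  simp only [List.sum_append, List.length_append, List.sum_replicate, List.length_replicate,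
    List.sum_cons, List.sum_nil, List.length_cons, List.length_nil, smul_eq_mul] at h2
  omega

theorem kc_le (p : ℕ) (hp : 1 ≤ p) (c : List ℕ) (m v : ℕ) :
    kc ((p + 1) :: c) m v ≤ kc (p :: c) (m + 1) v := by
  unfold kc
  rcases p with _ | _ | k
  · omega
  · rw [zero_add, tutte1 c (m + 1), if_neg (Nat.succ_ne_zero m), Nat.add_sub_cancel, coeff_add]
    refine le_add_of_nonneg_right ?_
    exact NNp.lsum _ _ (fun p _ => (NNp.kk _ _).smul (Nat.cast_nonneg _)) v
  · have h1 : k + 1 + 1 = k + 2 := rfl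
    rw [h1, tutte k c (m + 1), if_neg (Nat.succ_ne_zero m), Nat.add_sub_cancel, coeff_add, coeff_add]
    have h2 : 0 ≤ (∑ i ∈ Finset.range (k + 1), (kk (i :: (k - i) :: c) (m + 1) +
        ((splits c).map fun p => ∑ j ∈ Finset.range (m + 1 + 1),
          kk (i :: p.1) j * kk ((k - i) :: p.2) (m + 1 - j)).sum)).coeff v := by
      refine NNp.sum _ _ (fun i _ => (NNp.kk _ _).add ?_) v
      exact NNp.lsum _ _ fun p _ => NNp.sum _ _ fun j _ => (NNp.kk _ _).mul (NNp.kk _ _)
    have h3 : 0 ≤ (((picks c).map fun p => (p.1 : ℝ) • kk ((k + p.1) :: p.2) (m + 1)).sum).coeff v :=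
      NNp.lsum _ _ (fun p _ => (NNp.kk _ _).smul (Nat.cast_nonneg _)) v
    exact le_trans (le_add_of_nonneg_right h2) (le_add_of_nonneg_right h3)

theorem kc_le_one (p : ℕ) (c : List ℕ) (m v : ℕ) :
    kc ((p + 1) :: c) m v ≤ kc (1 :: c) (m + p) v := by
  induction p generalizing m with
  | zero => exact le_rfl
  | succ p ih =>
    refine (kc_le (p + 1) (by omega) c m v).trans ((ih (m + 1)).trans ?_)
    rw [add_assoc, add_comm 1 p]

theorem kk0 : kk [0] 0 = X := by
  rw [kk_zero, if_pos ⟨rfl, rfl⟩]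

theorem bc_mono (n v : ℕ) : 2 * bc n v ≤ bc (n + 1) (v + 1) := by
  have h1 := tutte 1 [] (2 * n + 1)
  have h2 := bb_three (n + 1) (by omega)
  have h3 : 2 * (n + 1) - 1 = 2 * n + 1 := by omega
  rw [h3] at h2
  have h4 : kk ((1 + 2) :: []) (2 * n + 1) = bb (n + 1) := h2
  rw [h4] at h1
  have h5 : bc (n + 1) (v + 1) = (bb (n + 1)).coeff (v + 1) := rfl
  rw [h5, h1]
  rw [Finset.sum_range_succ, Finset.sum_range_one]
  simp only [splits, List.map_cons, List.map_nil, List.sum_cons, List.sum_nil, add_zero, picks]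
  rw [coeff_add, coeff_add, coeff_add, coeff_add]
  have h6 : bc n v ≤ (∑ j ∈ Finset.range (2 * n + 1 + 1),
      kk [0] j * kk [1 - 0] (2 * n + 1 - j)).coeff (v + 1) := by
    rw [finsetSum_coeff]
    have h7 := Finset.single_le_sum
      (f := fun j => (kk [0] j * kk [1 - 0] (2 * n + 1 - j)).coeff (v + 1))
      (fun j _ => (NNp.kk _ _).mul (NNp.kk _ _) _) (Finset.mem_range.2 (show 0 < 2 * n + 1 + 1 by omega))
    refine le_trans ?_ h7
    show bc n v ≤ (kk [0] 0 * kk [1 - 0] (2 * n + 1 - 0)).coeff (v + 1)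
    rw [kk0, coeff_X_mul]
    exact le_rfl
  have h7 : bc n v ≤ (∑ j ∈ Finset.range (2 * n + 1 + 1),
      kk [1] j * kk [1 - 1] (2 * n + 1 - j)).coeff (v + 1) := by
    rw [finsetSum_coeff]
    have h8 := Finset.single_le_sum
      (f := fun j => (kk [1] j * kk [1 - 1] (2 * n + 1 - j)).coeff (v + 1))
      (fun j _ => (NNp.kk _ _).mul (NNp.kk _ _) _)
      (Finset.mem_range.2 (show 2 * n + 1 < 2 * n + 1 + 1 by omega))
    refine le_trans ?_ h8
    show bc n v ≤ (kk [1] (2 * n + 1) * kk [1 - 1] (2 * n + 1 - (2 * n + 1))).coeff (v + 1)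
    rw [Nat.sub_self, Nat.sub_self, kk0, coeff_mul_X]
    exact le_rfl
  have h8 : 0 ≤ (if 2 * n + 1 = 0 then 0 else kk [1 + 3] (2 * n + 1 - 1)).coeff (v + 1) :=
    NNp.ite NNp.zero (NNp.kk _ _) _
  have h9 := NNp.kk [0, 1 - 0] (2 * n + 1) (v + 1)
  have h10 := NNp.kk [1, 1 - 1] (2 * n + 1) (v + 1)
  have h11 : (0 : Polynomial ℝ).coeff (v + 1) = 0 := coeff_zero _
  linarith

theorem bc_mono2 (n v : ℕ) : (6 * (n : ℝ) + 4) * bc n v ≤ bc (n + 2) v := by
  have h2 := bb_three (n + 2) (by omega)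
  have h3 : 2 * (n + 2) - 1 = 2 * n + 2 + 1 := by omega
  rw [h3] at h2
  have h4 : bc (n + 2) v = kc [3] (2 * n + 2 + 1) v := by
    unfold kc
    rw [h2]
    rfl
  have h5 : kc [4] (2 * n + 2) v ≤ kc [3] (2 * n + 2 + 1) v := kc_le 3 (by omega) [] _ v
  have h6 : kc [1, 1] (2 * n + 2) v ≤ kc [4] (2 * n + 2) v := by
    have h7 := tutte 2 [] (2 * n + 2)
    unfold kc
    have h8 : kk [4] (2 * n + 2) = kk ((2 + 2) :: []) (2 * n + 2) := rfl
    rw [h8, h7]
    rw [coeff_add, coeff_add, finsetSum_coeff]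
    have h9 := Finset.single_le_sum
      (f := fun i => (kk [i, 2 - i] (2 * n + 2) +
        ((splits ([] : List ℕ)).map fun p => ∑ j ∈ Finset.range (2 * n + 2 + 1),
          kk (i :: p.1) j * kk ((2 - i) :: p.2) (2 * n + 2 - j)).sum).coeff v)
      (s := Finset.range (2 + 1))
      (fun i _ => ((NNp.kk _ _).add (NNp.lsum _ _ fun p _ => NNp.sum _ _ fun j _ =>
        (NNp.kk _ _).mul (NNp.kk _ _))) _) (Finset.mem_range.2 (show 1 < 2 + 1 by omega))
    have h10 : (kk [1, 1] (2 * n + 2)).coeff v ≤ (kk [1, 2 - 1] (2 * n + 2) +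
        ((splits ([] : List ℕ)).map fun p => ∑ j ∈ Finset.range (2 * n + 2 + 1),
          kk (1 :: p.1) j * kk ((2 - 1) :: p.2) (2 * n + 2 - j)).sum).coeff v := by
      rw [coeff_add]
      refine le_add_of_nonneg_right ?_
      exact NNp.lsum _ _ (fun p _ => NNp.sum _ _ fun j _ => (NNp.kk _ _).mul (NNp.kk _ _)) v
    have h11 : 0 ≤ (if 2 * n + 2 = 0 then 0 else kk [2 + 3] (2 * n + 2 - 1)).coeff v :=
      NNp.ite NNp.zero (NNp.kk _ _) _
    have h12 := NNp.lsum (picks ([] : List ℕ)) (fun p => (p.1 : ℝ) • kk ((2 + p.1) :: p.2) (2 * n + 2))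
      (fun p _ => (NNp.kk _ _).smul (Nat.cast_nonneg _)) v
    have h13 := h10.trans h9
    have h14 := add_le_add (add_le_add h11 h13) h12
    rw [zero_add, add_zero] at h14
    exact h14
  have h7 := kk_one_one (2 * n + 1) (by omega)
  have h8 : kc [1, 1] (2 * n + 2) v = (6 * (n : ℝ) + 4) * bc n v := by
    unfold kc
    have h9 : kk [1, 1] (2 * n + 2) = kk [1, 1] (2 * n + 1 + 1) := rfl
    rw [h9, h7, coeff_smul, smul_eq_mul]
    unfold bc bb
    congr 1
    push_cast
    ring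
  rw [h4, ← h8]
  exact h6.trans h5

theorem bc_zero_two : bc 0 2 = 1 := by
  unfold bc
  rw [bb_zero, coeff_X_pow, if_pos rfl]

theorem comp_coeff {f : Polynomial ℝ} {N : ℕ} (hN : f.natDegree < N) (a : ℝ) (u : ℕ) :
    (f.comp (X + C a)).coeff u =
      ∑ i ∈ Finset.range N, f.coeff i * (a ^ (i - u) * (i.choose u : ℝ)) := by
  rw [comp, eval₂_eq_sum_range' C hN, finsetSum_coeff]
  refine Finset.sum_congr rfl fun i _ => ?_
  rw [coeff_C_mul, coeff_X_add_C_pow]

theorem Dl_coeff {f : Polynomial ℝ} {N : ℕ} (hN : f.natDegree < N) (u : ℕ) :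
    (Dl f).coeff u =
      ∑ i ∈ Finset.range N, f.coeff i * ((1 - (-1) ^ (i - u)) * (i.choose u : ℝ)) := by
  have h1 : Dl f = f.comp (X + C 1) - f.comp (X + C (-1)) := by
    unfold Dl
    rw [C_1, C_neg, C_1, sub_eq_add_neg X]
  rw [h1, coeff_sub, comp_coeff hN, comp_coeff hN, ← Finset.sum_sub_distrib]
  refine Finset.sum_congr rfl fun i _ => ?_
  rw [one_pow]
  ring

theorem Dl_term {f : Polynomial ℝ} (hf : NNp f) (u i : ℕ) :
    0 ≤ f.coeff i * ((1 - (-1) ^ (i - u)) * (i.choose u : ℝ)) := by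
  refine mul_nonneg (hf i) (mul_nonneg ?_ (Nat.cast_nonneg _))
  rcases neg_one_pow_eq_or ℝ (i - u) with h | h
  · rw [h, sub_self]
  · rw [h]
    norm_num

theorem Dl_low {f : Polynomial ℝ} (hf : NNp f) (u : ℕ) :
    2 * ((u : ℝ) + 1) * f.coeff (u + 1) + 2 * ((u + 3).choose 3 : ℝ) * f.coeff (u + 3) ≤
      (Dl f).coeff u := by
  have hN : f.natDegree < f.natDegree + u + 4 := by omega
  rw [Dl_coeff hN]
  have h1 : ({u + 1, u + 3} : Finset ℕ) ⊆ Finset.range (f.natDegree + u + 4) := by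
    intro x hx
    rw [Finset.mem_insert, Finset.mem_singleton] at hx
    rw [Finset.mem_range]
    omega
  refine le_trans (le_of_eq ?_) (Finset.sum_le_sum_of_subset_of_nonneg h1 fun i _ _ => Dl_term hf u i)
  rw [Finset.sum_insert (by rw [Finset.mem_singleton]; omega), Finset.sum_singleton]
  have h2 : u + 1 - u = 1 := by omega
  have h3 : u + 3 - u = 3 := by omega
  have h4 : (u + 3).choose u = (u + 3).choose 3 := by
    rw [← Nat.choose_symm (show 3 ≤ u + 3 by omega)]
    congr 1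
  rw [h2, h3, h4, Nat.choose_succ_self_right]
  push_cast
  ring

theorem Dl_low1 {f : Polynomial ℝ} (hf : NNp f) (u : ℕ) :
    2 * ((u : ℝ) + 1) * f.coeff (u + 1) ≤ (Dl f).coeff u := by
  refine le_trans ?_ (Dl_low hf u)
  refine le_add_of_nonneg_right ?_
  have := hf (u + 3)
  positivity

theorem NNp.bb (n : ℕ) : NNp (bb n) := NNp.kk _ _

theorem iq (n w : ℕ) (hw : 1 ≤ w) :
    (w : ℝ) * bc n w + ((w + 2).choose 3 : ℝ) * bc n (w + 2) +
      ∑ i ∈ Finset.range n, (3 * (i : ℝ) + 2) * ∑ v ∈ Finset.range (w + 1),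
        bc i v * (2 * ((w : ℝ) + 1 - v)) * bc (n - 1 - i) (w + 1 - v)
      ≤ (3 * (n : ℝ) + 2) * bc n w := by
  obtain ⟨u, rfl⟩ : ∃ u, w = u + 1 := ⟨w - 1, by omega⟩
  have h1 := congrArg (fun f : Polynomial ℝ => f.coeff (u + 1)) (SE n)
  simp only [coeff_add, coeff_C_mul, coeff_X_mul, finsetSum_coeff] at h1
  have h2 := Dl_low (NNp.bb n) u
  have h3 : ∀ i ∈ Finset.range n,
      2 * ((3 * (i : ℝ) + 2) * ∑ v ∈ Finset.range (u + 1 + 1),
        bc i v * (2 * (((u + 1 : ℕ) : ℝ) + 1 - v)) * bc (n - 1 - i) (u + 1 + 1 - v)) ≤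
      (C (2 * (3 * (i : ℝ) + 2)) * bb i * Dl (bb (n - 1 - i))).coeff (u + 1) := by
    intro i _
    rw [mul_assoc (C _), coeff_C_mul, coeff_mul,
      Finset.Nat.sum_antidiagonal_eq_sum_range_succ
        (fun a b => (bb i).coeff a * (Dl (bb (n - 1 - i))).coeff b), ← mul_assoc]
    refine mul_le_mul_of_nonneg_left ?_ (by positivity)
    refine Finset.sum_le_sum fun v hv => ?_
    rw [Finset.mem_range] at hv
    have h4 := Dl_low1 (NNp.bb (n - 1 - i)) (u + 1 - v)
    have h5 : u + 1 - v + 1 = u + 1 + 1 - v := by omega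
    have h6 : ((u + 1 - v : ℕ) : ℝ) = ((u + 1 : ℕ) : ℝ) - v := by
      rw [Nat.cast_sub (by omega)]
    rw [h5, h6] at h4
    rw [mul_assoc]
    refine mul_le_mul_of_nonneg_left (le_trans (le_of_eq ?_) h4) (bc_nonneg i v)
    unfold bc
    ring
  have h4 := Finset.sum_le_sum h3
  rw [← Finset.mul_sum] at h4
  have h5 : (bb n).coeff (u + 1) = bc n (u + 1) := rfl
  have h6 : (bb n).coeff (u + 3) = bc n (u + 1 + 2) := rfl
  rw [h5] at h1
  rw [h5, h6] at h2
  have h7 : u + 3 = u + 1 + 2 := rfl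
  rw [h7] at h2
  push_cast at *
  linarith

theorem bc_pos {n v : ℕ} (hn : 1 ≤ n) (h1 : 1 ≤ v) (h2 : v ≤ n + 2) (h3 : v % 2 = n % 2) :
    0 < bc n v := by
  -- the value at `1` from the value at `3`
  have key : ∀ n, 0 < bc n 3 → 0 < bc n 1 := by
    intro n h
    have h4 := iq n 1 le_rfl
    have h5 : 0 ≤ ∑ i ∈ Finset.range n, (3 * (i : ℝ) + 2) * ∑ v ∈ Finset.range (1 + 1),
        bc i v * (2 * (((1 : ℕ) : ℝ) + 1 - v)) * bc (n - 1 - i) (1 + 1 - v) := by
      refine Finset.sum_nonneg fun i _ => mul_nonneg (by positivity) ?_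
      refine Finset.sum_nonneg fun v hv => ?_
      rw [Finset.mem_range] at hv
      have h6 : (v : ℝ) ≤ 1 := by exact_mod_cast (show v ≤ 1 by omega)
      refine mul_nonneg (mul_nonneg (bc_nonneg _ _) ?_) (bc_nonneg _ _)
      push_cast
      linarith
    have h6 : ((1 + 2).choose 3 : ℝ) = 1 := by norm_num [Nat.choose]
    rw [h6] at h4
    have h7 : bc n (1 + 2) = bc n 3 := rfl
    rw [h7] at h4
    push_cast at *
    by_contra h8
    have h9 : bc n 1 = 0 := le_antisymm (not_lt.1 h8) (bc_nonneg _ _)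
    rw [h9] at h4
    linarith
  induction n, hn using Nat.le_induction generalizing v with
  | base =>
    have h4 : 0 < bc 1 3 := by
      have h5 := bc_mono 0 2
      rw [bc_zero_two] at h5
      have h6 : bc (0 + 1) (2 + 1) = bc 1 3 := rfl
      rw [h6] at h5
      linarith
    have h5 : v = 1 ∨ v = 3 := by omega
    rcases h5 with rfl | rfl
    · exact key 1 h4
    · exact h4
  | succ n hn ih =>
    have hbig : ∀ v, 2 ≤ v → v ≤ n + 1 + 2 → v % 2 = (n + 1) % 2 → 0 < bc (n + 1) v := by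
      intro v h4 h5 h6
      obtain ⟨v', rfl⟩ : ∃ v', v = v' + 1 := ⟨v - 1, by omega⟩
      have h7 := bc_mono n v'
      have h8 := ih (v := v') (by omega) (by omega) (by omega)
      linarith
    by_cases h4 : v = 1
    · subst h4
      exact key _ (hbig 3 (by omega) (by omega) (by omega))
    · exact hbig v (by omega) h2 h3

end UN39
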