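import Mathlib
import Pool.Agent.H39.UN.Kk
import Pool.Agent.H39.UN.SeB
import Pool.Agent.H39.UN.Ineq

/-!
[H39 UN PLA]  (MP_bcc40c_pr)  Planar numbers `b0 n = bc n (n+2)`: recursion and the algebraic equation of their generating function.

PROOFS.  b0_rec: coefficient of `X^(n+2)` in SE.  `bb n` has degree `≤ n + 2` (bc_supp).  For a polynomial `f` of degree `≤ d + 1`
(`f_(d+1)` the coefficient) the coefficient of `X^d` in `Dl f` is `2 (d+1) f_(d+1)` (the terms `f_j`, `j ≤ d`, contribute degree `≤ d - 1`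
because `(X+1)^j - (X-1)^j` has degree `j - 1`).  So: left `2 (3n+2) b0 n`; `X * Dl (bb n)`: `2 (n+2) b0 n`; products:
`bb i` has degree `i + 2`, `Dl (bb (n-1-i))` has degree `n - i`, the coefficient of `X^(n+2)` is `b0 i * 2 (n+1-i) b0 (n-1-i)`.  Divide by 2.
PA (formal): `P = ∑ (3i+2) b0 i x^i`, `R = ∑ (i+2) b0 i x^i`, `f = ∑ b0 i x^i`, `g = x f'`.  `P = 3g + 2f`, `R = g + 2f`,
b0_rec says `g = x P R` (for `n = 0` both coefficients are 0; `(n + 1 - i) = (n-1-i) + 2`).  So `P - R = 2g = 2xPR`, i.e. with `A = 1 + 2xP`: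
`A R = P`.  And `4 f = 3R - P`, so `4 g = x (3R - P)'`, i.e. `x (3 R' - P') = 2 (P - R)`.  Let `W = (A^2 - 1) (A⁻¹)^3` (`A` has constant
coefficient 1, so it is a unit).  Claim: `x W' = W`.  Work in the field-like manner (all denominators are powers of the unit `A`, multiply out):
`2xP = A - 1`, `2xR = 1 - A⁻¹`.  `2x * (x (3R' - P')) = x (2x(3R - P))' - 2x (3R-P) = x (3 - 3A⁻¹ - A + 1)' - (4 - 3A⁻¹ - A)`
`= x A' (3 A⁻² - 1) - (4 - 3A⁻¹ - A)`, and it is equal to `2x * 2 (P - R) = 2 (A - 1 - 1 + A⁻¹)`.  So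
`x A' (3A⁻² - 1) = 2A - 4 + 2A⁻¹ + 4 - 3A⁻¹ - A = A - A⁻¹`.  And `W = A⁻¹ - A⁻³`, `x W' = x A' (-A⁻² + 3 A⁻⁴) = A⁻² * (A - A⁻¹) = W`.
`x W' = W` gives `n W_n = W_n` for the coefficients, so `W = W_1 x`; `W_1 = 8`: `A = 1 + 4x + ...` (`P(0) = 2 b0 0 = 2`),
`A^2 - 1 = 8x + ...`, `A⁻³ = 1 + ...`.  Hence `A^2 - 1 = 8 x A^3`.
-/

set_option autoImplicit false

namespace UN39

/-- planar numbers -/
noncomputable def b0 (n : ℕ) : ℝ := bc n (n + 2)

theorem b0_zero : b0 0 = 1 := bc_zero_two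

theorem b0_pos (n : ℕ) : 0 < b0 n := by
  rcases Nat.eq_zero_or_pos n with rfl | h
  · rw [b0_zero]
    exact one_pos
  · exact bc_pos h (by omega) le_rfl (by omega)

private theorem pla_deg (i : ℕ) : (bb i).natDegree ≤ i + 2 := by
  rw [Polynomial.natDegree_le_iff_coeff_eq_zero]
  intro v hv
  by_contra h
  have := (bc_supp (n := i) (v := v) h).2.1
  omega

private theorem pla_Dl_deg {f : Polynomial ℝ} {d : ℕ} (hf : f.natDegree ≤ d + 1) :
    (Dl f).natDegree ≤ d := by
  rw [Polynomial.natDegree_le_iff_coeff_eq_zero]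
  intro u hu
  rw [Dl_coeff (N := d + 2) (by omega)]
  refine Finset.sum_eq_zero fun i hi => ?_
  rw [Finset.mem_range] at hi
  rcases Nat.lt_or_ge i u with h | h
  · rw [Nat.choose_eq_zero_of_lt h]
    simp
  · have h1 : i - u = 0 := by omega
    rw [h1]
    simp

private theorem pla_Dl_top {f : Polynomial ℝ} {d : ℕ} (hf : f.natDegree ≤ d + 1) :
    (Dl f).coeff d = 2 * ((d : ℝ) + 1) * f.coeff (d + 1) := by
  rw [Dl_coeff (N := d + 2) (by omega), Finset.sum_range_succ, Finset.sum_range_succ,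
    Finset.sum_eq_zero, Nat.sub_self, Nat.add_sub_cancel_left, Nat.choose_succ_self_right]
  · push_cast
    ring
  · intro i hi
    rw [Finset.mem_range] at hi
    rw [Nat.choose_eq_zero_of_lt hi]
    simp

theorem b0_rec (n : ℕ) : (n : ℝ) * b0 n =
    ∑ i ∈ Finset.range n, (3 * (i : ℝ) + 2) * ((n : ℝ) + 1 - i) * b0 i * b0 (n - 1 - i) := by
  have h := congrArg (fun f => Polynomial.coeff f (n + 2)) (SE n)
  simp only [Polynomial.coeff_add, Polynomial.finsetSum_coeff, Polynomial.coeff_C_mul] at h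
  have h1 : (Polynomial.X * Dl (bb n)).coeff (n + 2) = 2 * ((n : ℝ) + 2) * b0 n := by
    rw [show n + 2 = (n + 1) + 1 by ring, Polynomial.coeff_X_mul, pla_Dl_top (pla_deg n)]
    push_cast
    rw [b0, bc]
    ring
  have h2 : ∀ i ∈ Finset.range n,
      (Polynomial.C (2 * (3 * (i : ℝ) + 2)) * bb i * Dl (bb (n - 1 - i))).coeff (n + 2) =
      4 * ((3 * (i : ℝ) + 2) * ((n : ℝ) + 1 - i) * b0 i * b0 (n - 1 - i)) := by
    intro i hi
    rw [Finset.mem_range] at hi
    obtain ⟨j, hj⟩ : ∃ j, n = i + 1 + j := ⟨n - 1 - i, by omega⟩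
    have hj2 : n - 1 - i = j := by omega
    rw [hj2, mul_assoc, Polynomial.coeff_C_mul]
    have h3 : n + 2 = (i + 2) + (j + 1) := by omega
    rw [h3, Polynomial.coeff_mul_add_eq_of_natDegree_le (pla_deg i)
      (pla_Dl_deg (f := bb j) (d := j + 1) (pla_deg j)), pla_Dl_top (pla_deg j)]
    have h4 : (n : ℝ) = i + 1 + j := by
      rw [hj]
      push_cast
      ring
    rw [h4]
    push_cast
    rw [b0, bc, b0, bc]
    ring
  rw [h1, Finset.sum_congr rfl h2, ← Finset.mul_sum] at h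
  have h5 : (bb n).coeff (n + 2) = b0 n := rfl
  rw [h5] at h
  linarith

/-- the formal series `A` -/
noncomputable def Afs : PowerSeries ℝ :=
  1 + 2 * PowerSeries.X * PowerSeries.mk fun i => (3 * (i : ℝ) + 2) * b0 i

open PowerSeries in
theorem PA : Afs ^ 2 = 1 + 8 * PowerSeries.X * Afs ^ 3 := by
  obtain ⟨P, hP⟩ : ∃ P : PowerSeries ℝ, P = PowerSeries.mk fun i => (3 * (i : ℝ) + 2) * b0 i :=
    ⟨_, rfl⟩
  obtain ⟨R, hR⟩ : ∃ R : PowerSeries ℝ, R = PowerSeries.mk fun i => ((i : ℝ) + 2) * b0 i :=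
    ⟨_, rfl⟩
  obtain ⟨f, hf⟩ : ∃ f : PowerSeries ℝ, f = PowerSeries.mk fun i => b0 i := ⟨_, rfl⟩
  obtain ⟨g, hg⟩ : ∃ g : PowerSeries ℝ, g = PowerSeries.mk fun i => (i : ℝ) * b0 i := ⟨_, rfl⟩
  obtain ⟨A, hA⟩ : ∃ A : PowerSeries ℝ, A = Afs := ⟨_, rfl⟩
  have hA1 : A = 1 + 2 * X * P := by rw [hA, Afs, hP]
  have hPg : P = 3 * g + 2 * f := by
    rw [hP, hg, hf]
    ext n
    have h3 : (3 : PowerSeries ℝ) = C 3 := (map_ofNat C 3).symm
    have h2 : (2 : PowerSeries ℝ) = C 2 := (map_ofNat C 2).symm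
    rw [h3, h2]
    simp only [map_add, coeff_mk, coeff_C_mul]
    ring
  have hRg : R = g + 2 * f := by
    rw [hR, hg, hf]
    ext n
    have h2 : (2 : PowerSeries ℝ) = C 2 := (map_ofNat C 2).symm
    rw [h2]
    simp only [map_add, coeff_mk, coeff_C_mul]
    ring
  have hgf : g = X * d⁄dX ℝ f := by
    rw [hg, hf]
    ext n
    rcases n with _ | n
    · simp
    · rw [coeff_succ_X_mul, coeff_mk, coeff_derivative, coeff_mk]
      push_cast
      ring
  have hrec : g = X * (P * R) := by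
    rw [hg, hP, hR]
    ext n
    rcases n with _ | n
    · simp
    · rw [coeff_succ_X_mul, coeff_mk, coeff_mul, Finset.Nat.sum_antidiagonal_eq_sum_range_succ_mk,
        b0_rec]
      refine Finset.sum_congr rfl fun i hi => ?_
      rw [Finset.mem_range] at hi
      rw [coeff_mk, coeff_mk]
      have h1 : n + 1 - 1 - i = n - i := by omega
      have h2 : ((n - i : ℕ) : ℝ) = n - i := by
        rw [Nat.cast_sub (by omega)]
      rw [h1, h2]
      push_cast
      ring
  -- the inverse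
  have hc : constantCoeff A ≠ 0 := by
    rw [hA1]
    simp
  obtain ⟨B, hB⟩ : ∃ B : PowerSeries ℝ, B = A⁻¹ := ⟨_, rfl⟩
  have hAB : A * B = 1 := by
    rw [hB]
    exact PowerSeries.mul_inv_cancel A hc
  have hAR : A * R = P := by
    have h1 : P - R = 2 * g := by
      rw [hPg, hRg]
      ring
    rw [hA1]
    linear_combination -h1 - 2 * hrec
  have hXR : 2 * X * R = 1 - B := by
    have h1 : 2 * X * P = A - 1 := by
      rw [hA1]
      ring
    calc 2 * X * R = 2 * X * R * (A * B) := by rw [hAB, mul_one]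
      _ = 2 * X * (A * R) * B := by ring
      _ = 2 * X * P * B := by rw [hAR]
      _ = (A - 1) * B := by rw [h1]
      _ = A * B - B := by ring
      _ = 1 - B := by rw [hAB]
  have hdB : d⁄dX ℝ B = -B ^ 2 * d⁄dX ℝ A := by
    rw [hB]
    exact derivative_inv' A
  have hT : X * (d⁄dX ℝ A * (3 * B ^ 2 - 1)) = A - B := by
    have h0 : 3 * (1 - B) - (A - 1) = 2 * X * (3 * R - P) := by
      rw [← hXR, hA1]
      ring
    have h1 := congrArg (d⁄dX ℝ) h0
    have h4 : 3 * R - P = 4 * f := by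
      rw [hPg, hRg]
      ring
    have h5 : (4 : PowerSeries ℝ) = C 4 := (map_ofNat C 4).symm
    have h6 : d⁄dX ℝ (3 * R - P) = 4 * d⁄dX ℝ f := by
      rw [h4, h5, ← smul_eq_C_mul, ← smul_eq_C_mul, Derivation.map_smul]
    have h7 : d⁄dX ℝ (3 * (1 - B) - (A - 1)) = -3 * d⁄dX ℝ B - d⁄dX ℝ A := by
      have h8 : (3 : PowerSeries ℝ) = C 3 := (map_ofNat C 3).symm
      have h9 : 3 * (1 - B) - (A - 1) = C 4 - C 3 * B - A := by
        rw [← h8, ← h5]
        ring
      rw [h9, map_sub, map_sub, derivative_C, ← smul_eq_C_mul, Derivation.map_smul,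
        smul_eq_C_mul, ← h8]
      ring
    have h10 : d⁄dX ℝ (2 * X * (3 * R - P)) = 2 * (3 * R - P) + 2 * X * d⁄dX ℝ (3 * R - P) := by
      have h8 : (2 : PowerSeries ℝ) = C 2 := (map_ofNat C 2).symm
      rw [mul_assoc, h8, ← smul_eq_C_mul, Derivation.map_smul, Derivation.leibniz, derivative_X,
        smul_eq_C_mul, smul_eq_mul, smul_eq_mul]
      ring
    rw [h7, h10, h6, hdB] at h1
    have h11 : P - R = 2 * g := by
      rw [hPg, hRg]
      ring
    have h12 : 2 * X * P = A - 1 := by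
      rw [hA1]
      ring
    linear_combination X * h1 - h0 + 8 * X * (-hgf) - 4 * X * h11 + 2 * h12 - 2 * hXR
  obtain ⟨W, hW⟩ : ∃ W : PowerSeries ℝ, W = B - B ^ 3 := ⟨_, rfl⟩
  have hdW : X * d⁄dX ℝ W = W := by
    have h1 : d⁄dX ℝ W = d⁄dX ℝ A * (3 * B ^ 2 - 1) * B ^ 2 := by
      rw [hW, map_sub, derivative_pow, hdB]
      push_cast
      ring
    rw [h1, hW]
    linear_combination B ^ 2 * hT + B * hAB
  have hW1 : coeff 1 W = 8 := by
    have h1 : W = X * (2 * P * (A + 1) * B ^ 3) := by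
      rw [hW]
      have h2 : 2 * X * P = A - 1 := by
        rw [hA1]
        ring
      linear_combination (-(A + 1) * B ^ 3) * h2 - (B * (A * B + 1)) * hAB
    have hB0 : constantCoeff B = 1 := by
      have h3 := congrArg constantCoeff hAB
      rw [map_mul, hA1] at h3
      simpa using h3
    have hA0 : constantCoeff A = 1 := by
      rw [hA1]
      simp
    have hP0 : constantCoeff P = 2 := by
      rw [hP, ← coeff_zero_eq_constantCoeff_apply, coeff_mk, b0_zero]
      simp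
    have h9 := coeff_succ_X_mul 0 (2 * P * (A + 1) * B ^ 3)
    rw [zero_add] at h9
    rw [h1, h9, coeff_zero_eq_constantCoeff_apply, map_mul, map_mul, map_mul, map_add, map_pow, hB0, hA0, hP0]
    have h4 : constantCoeff (2 : PowerSeries ℝ) = 2 := by
      have h8 : (2 : PowerSeries ℝ) = C 2 := (map_ofNat C 2).symm
      rw [h8, constantCoeff_C]
    rw [h4]
    norm_num
  have hWX : W = 8 * X := by
    have h5 : (8 : PowerSeries ℝ) = C 8 := (map_ofNat C 8).symm
    rw [h5]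
    ext n
    rw [coeff_C_mul, coeff_X]
    rcases n with _ | _ | n
    · have h1 := congrArg (coeff 0) hdW
      rw [coeff_zero_X_mul] at h1
      simp [← h1]
    · simpa using hW1
    · have h1 := congrArg (coeff (n + 1 + 1)) hdW
      rw [coeff_succ_X_mul, coeff_derivative] at h1
      have h2 : coeff (n + 1 + 1) W * ((n : ℝ) + 1) = 0 := by
        push_cast at h1
        linarith
      rcases mul_eq_zero.mp h2 with h3 | h3
      · rw [h3]
        simp
      · exact absurd h3 (by positivity)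
  rw [← hA]
  have h6 : W * A ^ 3 = A ^ 2 - 1 := by
    rw [hW]
    linear_combination (A ^ 2 - (A ^ 2 * B ^ 2 + A * B + 1)) * hAB
  rw [hWX] at h6
  linear_combination -h6

end UN39
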