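import Mathlib
import Pool.Agent.H39.UN.Ineq
import Pool.Agent.H39.UN.PlA

/-!
[H39 UN PLCA]  (MP_bcc40c_pr)  The function `psi` and the bound for the partial sums of the planar generating function.

`psi A = (A^2 - 1)/(8 A^3)` is strictly increasing on `[1, √3]` (derivative `(3 - A^2)/(8 A^4)`), `psi 1 = 0`, `psi √3 = lamc = 1/(12 √3)`, and
`psi A ≤ lamc` for all `A > 0`.

PROOFS.  Let `fh A = A^2 (3 - A)/(A + 1)`, `gh A = 2 A^2 (A - 1)/(A + 1)`.  Then `3 gh + 2 fh = 4 A^3/(A+1)`, `gh + 2 fh = 4 A^2/(A+1)`, and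
`gh A = psi A * (4A^3/(A+1)) * (4A^2/(A+1))` (check: `(A^2-1)/(8A^3) * 16 A^5/(A+1)^2 = 2 A^2 (A-1)/(A+1)`), and
`fh' (A) = gh A * psi' A / psi A` (check: `psi'/psi = (3 - A^2)/(A (A^2 - 1))`, `gh psi'/psi = 2 A (3 - A^2)/(A+1)^2`; and
`fh' = ((6A - 3A^2)(A+1) - (3A^2 - A^3))/(A+1)^2 = (6A - 2A^3)/(A+1)^2`), `fh 1 = 1`.
bound: for all `N` and `A ∈ [1, √3]`: `∑_{i ≤ N} b0 i (psi A)^i ≤ fh A` and `∑_{i ≤ N} i b0 i (psi A)^i ≤ gh A`.  Induction on `N`.  `N = 0`: `1 ≤ fh A`
(fh is increasing) and `0 ≤ gh`.  Step: with `x = psi A`: by b0_rec `∑_{i ≤ N+1} i b0 i x^i ≤ x (∑_{i ≤ N} (3i+2) b0 i x^i)(∑_{j ≤ N} (j+2) b0 j x^j)`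
`≤ x (3 gh + 2 fh)(gh + 2 fh) = gh A`.  This holds for all `A` in the interval; then `F A = fh A - ∑_{i ≤ N+1} b0 i (psi A)^i` has `F 1 = 0` and the
derivative `(psi' A/psi A) (gh A - ∑_{i ≤ N+1} i b0 i (psi A)^i) ≥ 0` on `(1, √3)`, so `F ≥ 0`.
-/

set_option autoImplicit false

namespace UN39

noncomputable def lamc : ℝ := 1 / (12 * Real.sqrt 3)

noncomputable def psi (A : ℝ) : ℝ := (A ^ 2 - 1) / (8 * A ^ 3)

theorem lamc_pos : 0 < lamc ∧ lamc < 1 / 12 := by
  have h1 : (1 : ℝ) < Real.sqrt 3 := by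
    rw [show (1 : ℝ) = Real.sqrt 1 by rw [Real.sqrt_one]]
    exact Real.sqrt_lt_sqrt (by norm_num) (by norm_num)
  unfold lamc
  refine ⟨by positivity, ?_⟩
  rw [div_lt_div_iff₀ (by positivity) (by norm_num)]
  linarith

theorem psi_mono : StrictMonoOn psi (Set.Icc 1 (Real.sqrt 3)) := by
  intro A hA B hB hAB
  have h3 : Real.sqrt 3 * Real.sqrt 3 = 3 := Real.mul_self_sqrt (by norm_num)
  have hA1 : 1 ≤ A := hA.1
  have hB1 : 1 ≤ B := hB.1
  have hB2 : B ≤ Real.sqrt 3 := hB.2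
  have h4 : B * B ≤ 3 := by
    rw [← h3]
    exact mul_self_le_mul_self (by linarith) hB2
  unfold psi
  rw [div_lt_div_iff₀ (by positivity) (by positivity)]
  have h5 : A * B < 3 := by
    have : A * B < B * B := mul_lt_mul_of_pos_right hAB (by linarith)
    linarith
  have h6 : (A * B) * (A * B) < 3 * (A * B) :=
    mul_lt_mul_of_pos_right h5 (by positivity)
  have h7 : 0 < A ^ 2 + A * B + B ^ 2 - A ^ 2 * B ^ 2 := by nlinarith [sq_nonneg (A - B)]
  have h8 : 0 < (B - A) * (A ^ 2 + A * B + B ^ 2 - A ^ 2 * B ^ 2) := mul_pos (by linarith) h7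
  nlinarith

theorem psi_le {A : ℝ} (hA : 0 < A) : psi A ≤ lamc := by
  have h3 : Real.sqrt 3 ^ 2 = 3 := Real.sq_sqrt (by norm_num)
  have hs : 0 < Real.sqrt 3 := Real.sqrt_pos.2 (by norm_num)
  unfold psi lamc
  rw [div_le_div_iff₀ (by positivity) (by positivity)]
  have h1 : 0 ≤ (A - Real.sqrt 3) ^ 2 * (2 * A + Real.sqrt 3) := by positivity
  have h2 : (A - Real.sqrt 3) ^ 2 * (2 * A + Real.sqrt 3) = 2 * A ^ 3 - 3 * Real.sqrt 3 * A ^ 2 +
      3 * Real.sqrt 3 := by
    have h4 : Real.sqrt 3 ^ 3 = 3 * Real.sqrt 3 := by rw [pow_succ, h3]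
    have h5 : (A - Real.sqrt 3) ^ 2 * (2 * A + Real.sqrt 3) = 2 * A ^ 3 - 3 * Real.sqrt 3 * A ^ 2 +
      Real.sqrt 3 ^ 3 := by ring
    rw [h5, h4]
  rw [h2] at h1
  nlinarith

theorem psi_ends : psi 1 = 0 ∧ psi (Real.sqrt 3) = lamc := by
  have h3 : Real.sqrt 3 ^ 2 = 3 := Real.sq_sqrt (by norm_num)
  have hs : 0 < Real.sqrt 3 := Real.sqrt_pos.2 (by norm_num)
  have h4 : Real.sqrt 3 ^ 3 = 3 * Real.sqrt 3 := by rw [pow_succ, h3]
  constructor
  · unfold psi
    norm_num
  · unfold psi lamc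
    rw [h4, h3]
    field_simp
    norm_num

theorem conv_le {F G : ℕ → ℝ} (hF : ∀ k, 0 ≤ F k) (hG : ∀ k, 0 ≤ G k) (M : ℕ) :
    ∑ m ∈ Finset.range M, ∑ k ∈ Finset.range (m + 1), F k * G (m - k) ≤
      (∑ k ∈ Finset.range M, F k) * ∑ k ∈ Finset.range M, G k := by
  rw [Finset.sum_range_diag_flip M (fun k j => F k * G j), Finset.sum_mul]
  refine Finset.sum_le_sum fun k _ => ?_
  rw [← Finset.mul_sum]
  refine mul_le_mul_of_nonneg_left ?_ (hF k)
  exact Finset.sum_le_sum_of_subset_of_nonneg (Finset.range_mono (by omega)) fun i _ _ => hG i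

theorem psi_nonneg {A : ℝ} (h0 : 1 ≤ A) : 0 ≤ psi A := by
  unfold psi
  have : 0 ≤ A ^ 2 - 1 := by nlinarith
  positivity

theorem g_step {x : ℝ} (hx : 0 ≤ x) (N : ℕ) :
    ∑ i ∈ Finset.range (N + 1 + 1), (i : ℝ) * b0 i * x ^ i ≤
      x * ((3 * (∑ i ∈ Finset.range (N + 1), (i : ℝ) * b0 i * x ^ i) +
        2 * ∑ i ∈ Finset.range (N + 1), b0 i * x ^ i) *
      ((∑ i ∈ Finset.range (N + 1), (i : ℝ) * b0 i * x ^ i) +
        2 * ∑ i ∈ Finset.range (N + 1), b0 i * x ^ i)) := by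
  have e1 : 3 * (∑ i ∈ Finset.range (N + 1), (i : ℝ) * b0 i * x ^ i) +
        2 * ∑ i ∈ Finset.range (N + 1), b0 i * x ^ i =
      ∑ i ∈ Finset.range (N + 1), (3 * (i : ℝ) + 2) * b0 i * x ^ i := by
    rw [Finset.mul_sum, Finset.mul_sum, ← Finset.sum_add_distrib]
    exact Finset.sum_congr rfl fun i _ => by ring
  have e2 : (∑ i ∈ Finset.range (N + 1), (i : ℝ) * b0 i * x ^ i) +
        2 * ∑ i ∈ Finset.range (N + 1), b0 i * x ^ i =
      ∑ i ∈ Finset.range (N + 1), ((i : ℝ) + 2) * b0 i * x ^ i := by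
    rw [Finset.mul_sum, ← Finset.sum_add_distrib]
    exact Finset.sum_congr rfl fun i _ => by ring
  rw [e1, e2, Finset.sum_range_succ']
  have e3 : ∑ m ∈ Finset.range (N + 1), ((m + 1 : ℕ) : ℝ) * b0 (m + 1) * x ^ (m + 1) =
      x * ∑ m ∈ Finset.range (N + 1), ∑ k ∈ Finset.range (m + 1),
        ((3 * (k : ℝ) + 2) * b0 k * x ^ k) * ((((m - k : ℕ) : ℝ) + 2) * b0 (m - k) * x ^ (m - k)) := by
    rw [Finset.mul_sum]
    refine Finset.sum_congr rfl fun m _ => ?_
    rw [b0_rec (m + 1), Finset.sum_mul, Finset.mul_sum]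
    refine Finset.sum_congr rfl fun k hk => ?_
    rw [Finset.mem_range] at hk
    have hk' : k ≤ m := by omega
    rw [Nat.add_sub_cancel, Nat.cast_sub hk']
    have e4 : x ^ (m + 1) = x * x ^ k * x ^ (m - k) := by
      rw [mul_assoc, ← pow_add, show k + (m - k) = m by omega, pow_succ]
      ring
    rw [e4]
    push_cast
    ring
  rw [e3]
  simp only [Nat.cast_zero, zero_mul, add_zero]
  refine mul_le_mul_of_nonneg_left ?_ hx
  apply conv_le (F := fun k : ℕ => (3 * (k : ℝ) + 2) * b0 k * x ^ k)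
    (G := fun k : ℕ => ((k : ℝ) + 2) * b0 k * x ^ k)
  · intro k
    have := (b0_pos k).le
    positivity
  · intro k
    have := (b0_pos k).le
    positivity

theorem psi_der {A : ℝ} (hA : 0 < A) : HasDerivAt psi ((3 - A ^ 2) / (8 * A ^ 4)) A := by
  have h1 : HasDerivAt (fun A : ℝ => A ^ 2 - 1) (2 * A) A := by
    simpa using (hasDerivAt_pow 2 A).sub_const 1
  have h2 : HasDerivAt (fun A : ℝ => 8 * A ^ 3) (8 * (3 * A ^ 2)) A := by
    simpa using (hasDerivAt_pow 3 A).const_mul 8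
  have h3 := h1.fun_div h2 (by positivity)
  refine HasDerivAt.congr_deriv h3 ?_
  field_simp
  ring

theorem fh_der {A : ℝ} (hA : 0 < A) : HasDerivAt (fun A : ℝ => A ^ 2 * (3 - A) / (A + 1))
    ((6 * A - 2 * A ^ 3) / (A + 1) ^ 2) A := by
  have h1 : HasDerivAt (fun A : ℝ => A ^ 2 * (3 - A)) (2 * A * (3 - A) + A ^ 2 * (-1)) A := by
    have ha : HasDerivAt (fun A : ℝ => A ^ 2) (2 * A) A := by simpa using hasDerivAt_pow 2 A
    have hb : HasDerivAt (fun A : ℝ => 3 - A) (-1) A := by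
      simpa using (hasDerivAt_id A).const_sub 3
    exact ha.mul hb
  have h2 : HasDerivAt (fun A : ℝ => A + 1) 1 A := by simpa using (hasDerivAt_id A).add_const 1
  have h3 := h1.fun_div h2 (by positivity)
  refine HasDerivAt.congr_deriv h3 ?_
  field_simp
  ring

theorem bound {A : ℝ} (h0 : 1 ≤ A) (h1 : A ≤ Real.sqrt 3) (N : ℕ) :
    ∑ i ∈ Finset.range (N + 1), b0 i * psi A ^ i ≤ A ^ 2 * (3 - A) / (A + 1) ∧
    ∑ i ∈ Finset.range (N + 1), (i : ℝ) * b0 i * psi A ^ i ≤ 2 * A ^ 2 * (A - 1) / (A + 1) := by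
  have hs3 : Real.sqrt 3 * Real.sqrt 3 = 3 := Real.mul_self_sqrt (by norm_num)
  induction N generalizing A with
  | zero =>
    rw [zero_add, Finset.sum_range_one, Finset.sum_range_one, b0_zero, pow_zero]
    have h3 : A * A ≤ 3 := by
      rw [← hs3]
      exact mul_self_le_mul_self (by linarith) h1
    constructor
    · rw [le_div_iff₀ (by linarith)]
      nlinarith
    · have : 0 ≤ A - 1 := by linarith
      simp only [Nat.cast_zero, zero_mul]
      positivity
  | succ N ih =>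
    have second : ∀ {A : ℝ}, 1 ≤ A → A ≤ Real.sqrt 3 →
        ∑ i ∈ Finset.range (N + 1 + 1), (i : ℝ) * b0 i * psi A ^ i ≤
          2 * A ^ 2 * (A - 1) / (A + 1) := by
      intro A h0 h1
      obtain ⟨i1, i2⟩ := ih h0 h1
      have hx := psi_nonneg h0
      refine le_trans (g_step hx N) ?_
      have n0 : 0 ≤ ∑ i ∈ Finset.range (N + 1), b0 i * psi A ^ i :=
        Finset.sum_nonneg fun i _ => by
          have := (b0_pos i).le
          positivity
      have n1 : 0 ≤ ∑ i ∈ Finset.range (N + 1), (i : ℝ) * b0 i * psi A ^ i :=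
        Finset.sum_nonneg fun i _ => by
          have := (b0_pos i).le
          positivity
      have hA1 : 0 < A + 1 := by linarith
      have u1 : 3 * (∑ i ∈ Finset.range (N + 1), (i : ℝ) * b0 i * psi A ^ i) +
        2 * ∑ i ∈ Finset.range (N + 1), b0 i * psi A ^ i ≤ 4 * A ^ 3 / (A + 1) := by
        have : 4 * A ^ 3 / (A + 1) = 3 * (2 * A ^ 2 * (A - 1) / (A + 1)) +
            2 * (A ^ 2 * (3 - A) / (A + 1)) := by
          field_simp
          ring
        rw [this]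
        linarith
      have u2 : (∑ i ∈ Finset.range (N + 1), (i : ℝ) * b0 i * psi A ^ i) +
        2 * ∑ i ∈ Finset.range (N + 1), b0 i * psi A ^ i ≤ 4 * A ^ 2 / (A + 1) := by
        have : 4 * A ^ 2 / (A + 1) = (2 * A ^ 2 * (A - 1) / (A + 1)) +
            2 * (A ^ 2 * (3 - A) / (A + 1)) := by
          field_simp
          ring
        rw [this]
        linarith
      have u3 := mul_le_mul u1 u2 (by positivity) (by positivity)
      refine le_trans (mul_le_mul_of_nonneg_left u3 hx) (le_of_eq ?_)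
      unfold psi
      field_simp
      ring
    refine ⟨?_, second h0 h1⟩
    set F : ℝ → ℝ := fun A => A ^ 2 * (3 - A) / (A + 1) -
      ∑ i ∈ Finset.range (N + 1 + 1), b0 i * psi A ^ i with hF
    have der : ∀ A : ℝ, 0 < A → HasDerivAt F ((6 * A - 2 * A ^ 3) / (A + 1) ^ 2 -
        ∑ i ∈ Finset.range (N + 1 + 1), b0 i * ((i : ℝ) * psi A ^ (i - 1) *
          ((3 - A ^ 2) / (8 * A ^ 4)))) A := by
      intro A hA
      refine (fh_der hA).sub ?_
      have := HasDerivAt.fun_sum (u := Finset.range (N + 1 + 1))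
        (A := fun i (A : ℝ) => b0 i * psi A ^ i)
        (A' := fun i => b0 i * ((i : ℝ) * psi A ^ (i - 1) * ((3 - A ^ 2) / (8 * A ^ 4))))
        (x := A) (fun i _ => ((psi_der hA).fun_pow i).const_mul (b0 i))
      exact this
    have mono : MonotoneOn F (Set.Icc 1 (Real.sqrt 3)) := by
      apply monotoneOn_of_deriv_nonneg (convex_Icc _ _)
      · intro A hA
        exact (der A (by linarith [hA.1])).continuousAt.continuousWithinAt
      · intro A hA
        rw [interior_Icc] at hA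
        exact (der A (by linarith [hA.1])).differentiableAt.differentiableWithinAt
      · intro A hA
        rw [interior_Icc] at hA
        have hA1 : 1 < A := hA.1
        have hA0 : 0 < A := by linarith
        rw [(der A hA0).deriv, sub_nonneg]
        have hp : 0 < psi A := by
          unfold psi
          have : 0 < A ^ 2 - 1 := by nlinarith
          positivity
        have h3 : A * A ≤ 3 := by
          rw [← hs3]
          exact mul_self_le_mul_self (by linarith) hA.2.le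
        have hp' : 0 ≤ (3 - A ^ 2) / (8 * A ^ 4) := by
          have : 0 ≤ 3 - A ^ 2 := by nlinarith
          positivity
        have e1 : psi A * ∑ i ∈ Finset.range (N + 1 + 1), b0 i * ((i : ℝ) * psi A ^ (i - 1) *
          ((3 - A ^ 2) / (8 * A ^ 4))) = ((3 - A ^ 2) / (8 * A ^ 4)) *
            ∑ i ∈ Finset.range (N + 1 + 1), (i : ℝ) * b0 i * psi A ^ i := by
          rw [Finset.mul_sum, Finset.mul_sum]
          refine Finset.sum_congr rfl fun i _ => ?_
          rcases Nat.eq_zero_or_pos i with h | h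
          · rw [h]
            simp
          · have e2 : psi A ^ i = psi A * psi A ^ (i - 1) := by
              rw [← pow_succ', Nat.sub_add_cancel h]
            rw [e2]
            ring
        have e3 : ((3 - A ^ 2) / (8 * A ^ 4)) * (2 * A ^ 2 * (A - 1) / (A + 1)) =
            psi A * ((6 * A - 2 * A ^ 3) / (A + 1) ^ 2) := by
          unfold psi
          field_simp
          ring
        have e4 := mul_le_mul_of_nonneg_left (second hA1.le hA.2.le) hp'
        rw [e3, ← e1] at e4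
        exact le_of_mul_le_mul_left e4 hp
    have h10 : (1 : ℝ) ≤ Real.sqrt 3 := le_trans h0 h1
    have fin := mono (Set.left_mem_Icc.2 h10) (⟨h0, h1⟩ : A ∈ Set.Icc 1 (Real.sqrt 3)) h0
    have F1 : F 1 = 0 := by
      rw [hF]
      simp only []
      rw [psi_ends.1, Finset.sum_range_succ']
      rw [Finset.sum_eq_zero fun i _ => by rw [pow_succ, mul_zero, mul_zero], b0_zero]
      norm_num
    rw [F1, hF] at fin
    simp only [] at fin
    linarith

end UN39
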