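import Mathlib
import Pool.Agent.H39.UN.Ineq
import Pool.Agent.H39.UN.PlA
import Pool.Agent.H39.UN.PlCa

/-!
[H39 UN PLC]  (MP_bcc40c_pr)  The real function `Aof x = 1 + 2x ∑ (3i+2) b0 i x^i` on `[0, lamc]`.

PROOFS.  Every `x ∈ [0, lamc]` is `psi A` for an `A ∈ [1, √3]` (intermediate value theorem, psi_ends).  By bound the series `∑ b0 i x^i`, `∑ i b0 i x^i` have
bounded partial sums, so they are summable (sum_P), `∑ (3i+2) b0 i x^i ≤ 4A^3/(A+1)`, and `Aof x ≤ 1 + 2 x * 4A^3/(A+1) = A`.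
A_eq: the formal identity PA gives `Aof x ^2 = 1 + 8 x Aof x ^3` whenever `x ≥ 0` and the series is summable:
products of absolutely summable power series (Cauchy product); it may help to prove a general lemma: for power series with nonnegative coefficients
summable at `x`, evaluation is additive and multiplicative.
So `psi (Aof x) = x = psi A`, both in `[1, √3]`, psi_mono: `Aof (psi A) = A` (A_psi).
nonsum: if the series is summable at `x > lamc` then `A = Aof x ≥ 1` satisfies `A^2 - 1 = 8 x A^3`, `x = psi A ≤ lamc` (psi_le), contradiction.  nonsum0: if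
`∑ b0 i x^i` is summable at `x > lamc`, then `∑ (3i+2) b0 i y^i` is summable at `y ∈ (lamc, x)` (`(3i+2) (y/x)^i` is bounded).
A_cont: `Aof` is the inverse of the strictly increasing continuous `psi` on a compact interval; or: power series with nonnegative coefficients summable at
the end point.
f_val: with `f = ∑ b0 i x^i ≤ fh`, `g = ∑ i b0 i x^i ≤ gh` (`fh`, `gh` of PLCA) and, for `x > 0`, `3 g + 2 f = (Aof x - 1)/(2x) = 4A^3/(A+1) = 3 gh + 2 fh`: so
`f = fh`.  For `x = 0`: `A = 1`, both sides 1.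
-/

set_option autoImplicit false

namespace UN39

noncomputable def Aof (x : ℝ) : ℝ := 1 + 2 * x * ∑' i : ℕ, (3 * (i : ℝ) + 2) * b0 i * x ^ i

section evalAt

/-- a power series with nonnegative coefficients has the value `a` at `x` -/
def SumAt (F : PowerSeries ℝ) (x a : ℝ) : Prop :=
  (∀ n, 0 ≤ PowerSeries.coeff n F) ∧ HasSum (fun n => PowerSeries.coeff n F * x ^ n) a

theorem SumAt.add {F G : PowerSeries ℝ} {x a b : ℝ} (hF : SumAt F x a) (hG : SumAt G x b) :
    SumAt (F + G) x (a + b) := by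
  refine ⟨fun n => ?_, ?_⟩
  · rw [map_add]
    exact add_nonneg (hF.1 n) (hG.1 n)
  · have h := hF.2.add hG.2
    refine h.congr_fun fun n => ?_
    rw [map_add, add_mul]

theorem SumAt.mul {F G : PowerSeries ℝ} {x a b : ℝ} (_hx : 0 ≤ x) (hF : SumAt F x a)
    (hG : SumAt G x b) : SumAt (F * G) x (a * b) := by
  have e : ∀ n, PowerSeries.coeff n (F * G) * x ^ n = ∑ p ∈ Finset.HasAntidiagonal.antidiagonal n,
      (PowerSeries.coeff p.1 F * x ^ p.1) * (PowerSeries.coeff p.2 G * x ^ p.2) := by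
    intro n
    rw [PowerSeries.coeff_mul, Finset.sum_mul]
    refine Finset.sum_congr rfl fun p hp => ?_
    rw [← Finset.HasAntidiagonal.mem_antidiagonal.1 hp, pow_add]
    ring
  have nF : Summable fun n => ‖PowerSeries.coeff n F * x ^ n‖ := hF.2.summable.norm
  have nG : Summable fun n => ‖PowerSeries.coeff n G * x ^ n‖ := hG.2.summable.norm
  refine ⟨fun n => ?_, ?_⟩
  · rw [PowerSeries.coeff_mul]
    exact Finset.sum_nonneg fun p _ => mul_nonneg (hF.1 _) (hG.1 _)
  · have h1 := tsum_mul_tsum_eq_tsum_sum_antidiagonal_of_summable_norm nF nG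
    have h2 := (summable_norm_sum_mul_antidiagonal_of_summable_norm nF nG).of_norm
    rw [hF.2.tsum_eq, hG.2.tsum_eq] at h1
    rw [h1]
    have h3 := h2.hasSum
    refine h3.congr_fun fun n => ?_
    exact e n

theorem SumAt.one (x : ℝ) : SumAt 1 x 1 := by
  refine ⟨fun n => ?_, ?_⟩
  · rw [PowerSeries.coeff_one]
    split_ifs <;> norm_num
  · have := hasSum_single (f := fun n => PowerSeries.coeff n (1 : PowerSeries ℝ) * x ^ n) 0
      (fun n hn => by rw [PowerSeries.coeff_one, if_neg hn, zero_mul])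
    simpa using this

theorem SumAt.X {x : ℝ} : SumAt PowerSeries.X x x := by
  refine ⟨fun n => ?_, ?_⟩
  · rw [PowerSeries.coeff_X]
    split_ifs <;> norm_num
  · have := hasSum_single (f := fun n => PowerSeries.coeff n (PowerSeries.X : PowerSeries ℝ) * x ^ n) 1
      (fun n hn => by rw [PowerSeries.coeff_X, if_neg hn, zero_mul])
    simpa using this

theorem SumAt.nat (m : ℕ) (x : ℝ) : SumAt (m : PowerSeries ℝ) x m := by
  induction m with
  | zero =>
    rw [Nat.cast_zero, Nat.cast_zero]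
    refine ⟨fun n => by rw [map_zero], ?_⟩
    simp only [map_zero, zero_mul]
    exact hasSum_zero
  | succ m ih =>
    rw [Nat.cast_succ, Nat.cast_succ]
    exact ih.add (SumAt.one x)

theorem SumAt.unique {F : PowerSeries ℝ} {x a b : ℝ} (h1 : SumAt F x a) (h2 : SumAt F x b) :
    a = b := h1.2.unique h2.2

end evalAt

theorem ex_psi {x : ℝ} (h0 : 0 ≤ x) (h1 : x ≤ lamc) : ∃ A, 1 ≤ A ∧ A ≤ Real.sqrt 3 ∧ psi A = x := by
  have h10 : (1 : ℝ) ≤ Real.sqrt 3 := by
    rw [show (1 : ℝ) = Real.sqrt 1 by rw [Real.sqrt_one]]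
    exact Real.sqrt_le_sqrt (by norm_num)
  have hc : ContinuousOn psi (Set.Icc 1 (Real.sqrt 3)) := fun A hA =>
    (psi_der (by linarith [hA.1] : 0 < A)).continuousAt.continuousWithinAt
  have h2 := intermediate_value_Icc h10 hc
  rw [psi_ends.1, psi_ends.2] at h2
  obtain ⟨A, hA, hA2⟩ := h2 (⟨h0, h1⟩ : x ∈ Set.Icc 0 lamc)
  exact ⟨A, hA.1, hA.2, hA2⟩

theorem psum_le {A : ℝ} (h0 : 1 ≤ A) (h1 : A ≤ Real.sqrt 3) (N : ℕ) :
    ∑ i ∈ Finset.range N, (3 * (i : ℝ) + 2) * b0 i * psi A ^ i ≤ 4 * A ^ 3 / (A + 1) := by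
  obtain ⟨i1, i2⟩ := bound h0 h1 N
  have hp := psi_nonneg h0
  have e : ∑ i ∈ Finset.range (N + 1), (3 * (i : ℝ) + 2) * b0 i * psi A ^ i =
      3 * (∑ i ∈ Finset.range (N + 1), (i : ℝ) * b0 i * psi A ^ i) +
        2 * ∑ i ∈ Finset.range (N + 1), b0 i * psi A ^ i := by
    rw [Finset.mul_sum, Finset.mul_sum, ← Finset.sum_add_distrib]
    exact Finset.sum_congr rfl fun i _ => by ring
  have e2 : ∑ i ∈ Finset.range N, (3 * (i : ℝ) + 2) * b0 i * psi A ^ i ≤
      ∑ i ∈ Finset.range (N + 1), (3 * (i : ℝ) + 2) * b0 i * psi A ^ i := by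
    rw [Finset.sum_range_succ]
    have := (b0_pos N).le
    have : 0 ≤ (3 * (N : ℝ) + 2) * b0 N * psi A ^ N := by positivity
    linarith
  have hA1 : 0 < A + 1 := by linarith
  have : 4 * A ^ 3 / (A + 1) = 3 * (2 * A ^ 2 * (A - 1) / (A + 1)) +
      2 * (A ^ 2 * (3 - A) / (A + 1)) := by
    field_simp
    ring
  rw [this]
  linarith

theorem sum_P {x : ℝ} (h0 : 0 ≤ x) (h1 : x ≤ lamc) :
    Summable fun i : ℕ => (3 * (i : ℝ) + 2) * b0 i * x ^ i := by
  obtain ⟨A, hA, hA2, rfl⟩ := ex_psi h0 h1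
  apply summable_of_sum_range_le (c := 4 * A ^ 3 / (A + 1))
  · intro n
    have := (b0_pos n).le
    positivity
  · exact psum_le hA hA2

theorem A_sumAt {x : ℝ} (h0 : 0 ≤ x) (hs : Summable fun i : ℕ => (3 * (i : ℝ) + 2) * b0 i * x ^ i) :
    SumAt Afs x (Aof x) := by
  unfold Afs Aof
  have hP : SumAt (PowerSeries.mk fun i => (3 * (i : ℝ) + 2) * b0 i) x
      (∑' i : ℕ, (3 * (i : ℝ) + 2) * b0 i * x ^ i) := by
    refine ⟨fun n => ?_, ?_⟩
    · rw [PowerSeries.coeff_mk]
      have := (b0_pos n).le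
      positivity
    · simp only [PowerSeries.coeff_mk]
      exact hs.hasSum
  have h2 : SumAt (2 : PowerSeries ℝ) x 2 := by
    have := SumAt.nat 2 x
    simpa using this
  exact (SumAt.one x).add ((h2.mul h0 SumAt.X).mul h0 hP)

theorem A_eq {x : ℝ} (h0 : 0 ≤ x) (hs : Summable fun i : ℕ => (3 * (i : ℝ) + 2) * b0 i * x ^ i) :
    Aof x ^ 2 = 1 + 8 * x * Aof x ^ 3 := by
  have h := A_sumAt h0 hs
  have h2 : SumAt (Afs ^ 2) x (Aof x ^ 2) := by
    rw [pow_two, pow_two]
    exact h.mul h0 h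
  have h3 : SumAt (Afs ^ 3) x (Aof x ^ 3) := by
    rw [pow_succ, pow_succ (Aof x)]
    exact h2.mul h0 h
  have h8 : SumAt (8 : PowerSeries ℝ) x 8 := by
    have := SumAt.nat 8 x
    simpa using this
  have h4 := (SumAt.one x).add ((h8.mul h0 SumAt.X).mul h0 h3)
  rw [← PA] at h4
  exact h2.unique h4

theorem Aof_ge {x : ℝ} (h0 : 0 ≤ x) : 1 ≤ Aof x := by
  unfold Aof
  have : 0 ≤ ∑' i : ℕ, (3 * (i : ℝ) + 2) * b0 i * x ^ i := tsum_nonneg fun n => by
    have := (b0_pos n).le
    positivity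
  have : 0 ≤ 2 * x * ∑' i : ℕ, (3 * (i : ℝ) + 2) * b0 i * x ^ i := by positivity
  linarith

theorem psi_Aof {x : ℝ} (h0 : 0 ≤ x) (hs : Summable fun i : ℕ => (3 * (i : ℝ) + 2) * b0 i * x ^ i) :
    psi (Aof x) = x := by
  have h1 := Aof_ge h0
  have h2 := A_eq h0 hs
  have h3 : 0 < Aof x := by linarith
  unfold psi
  rw [div_eq_iff (by positivity)]
  linarith

theorem nonsum {x : ℝ} (h : lamc < x) : ¬ Summable fun i : ℕ => (3 * (i : ℝ) + 2) * b0 i * x ^ i := by
  intro hs
  have h0 : 0 ≤ x := by linarith [lamc_pos.1]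
  have h1 := Aof_ge h0
  have h2 := psi_Aof h0 hs
  have h3 := psi_le (by linarith : 0 < Aof x)
  linarith

theorem nonsum0 {x : ℝ} (h : lamc < x) : ¬ Summable fun i : ℕ => b0 i * x ^ i := by
  intro hs
  have h0 : 0 < lamc := lamc_pos.1
  have hx : 0 < x := by linarith
  set y := (lamc + x) / 2 with hy
  have hy1 : lamc < y := by rw [hy]; linarith
  have hy2 : y < x := by rw [hy]; linarith
  have hy0 : 0 < y := by linarith
  apply nonsum hy1
  set r := y / x with hr
  have hr0 : 0 ≤ r := by positivity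
  have hr1 : r < 1 := by rw [hr, div_lt_one hx]; exact hy2
  have t1 : Filter.Tendsto (fun n : ℕ => (n : ℝ) * r ^ n) Filter.atTop (nhds 0) :=
    tendsto_self_mul_const_pow_of_lt_one hr0 hr1
  have t2 : Filter.Tendsto (fun n : ℕ => r ^ n) Filter.atTop (nhds 0) :=
    tendsto_pow_atTop_nhds_zero_of_lt_one hr0 hr1
  have t3 := (t1.const_mul 3).add (t2.const_mul 2)
  obtain ⟨M, hM⟩ := t3.bddAbove_range
  have hM' : ∀ n : ℕ, 3 * ((n : ℝ) * r ^ n) + 2 * r ^ n ≤ M := fun n => hM ⟨n, rfl⟩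
  refine Summable.of_nonneg_of_le (fun n => ?_) (fun n => ?_) (hs.mul_left M)
  · have := (b0_pos n).le
    positivity
  · have h5 : y ^ n = r ^ n * x ^ n := by
      rw [← mul_pow, hr, div_mul_cancel₀ _ hx.ne']
    rw [h5]
    have := (b0_pos n).le
    have h6 : 0 ≤ b0 n * x ^ n := by positivity
    have h7 := mul_le_mul_of_nonneg_right (hM' n) h6
    calc (3 * (n : ℝ) + 2) * b0 n * (r ^ n * x ^ n)
        = (3 * ((n : ℝ) * r ^ n) + 2 * r ^ n) * (b0 n * x ^ n) := by ring
      _ ≤ M * (b0 n * x ^ n) := h7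

theorem tsum_P_le {A : ℝ} (h0 : 1 ≤ A) (h1 : A ≤ Real.sqrt 3) :
    ∑' i : ℕ, (3 * (i : ℝ) + 2) * b0 i * psi A ^ i ≤ 4 * A ^ 3 / (A + 1) := by
  have hp := psi_nonneg h0
  exact Real.tsum_le_of_sum_range_le (fun n => by
    have := (b0_pos n).le
    positivity) (psum_le h0 h1)

theorem A_psi {A : ℝ} (h0 : 1 ≤ A) (h1 : A ≤ Real.sqrt 3) : Aof (psi A) = A := by
  have hp := psi_nonneg h0
  have hl := psi_le (by linarith : 0 < A)
  have hs := sum_P hp hl
  have hA0 : 0 < A := by linarith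
  have le1 : Aof (psi A) ≤ A := by
    have h2 := mul_le_mul_of_nonneg_left (tsum_P_le h0 h1) (by positivity : 0 ≤ 2 * psi A)
    unfold Aof
    have e : 2 * psi A * (4 * A ^ 3 / (A + 1)) = A - 1 := by
      unfold psi
      field_simp
      ring
    rw [e] at h2
    linarith
  have ge1 := Aof_ge hp
  have h3 := psi_Aof hp hs
  exact psi_mono.injOn ⟨ge1, le_trans le1 h1⟩ ⟨h0, h1⟩ h3

theorem psi_A {x : ℝ} (h0 : 0 ≤ x) (h1 : x ≤ lamc) :
    1 ≤ Aof x ∧ Aof x ≤ Real.sqrt 3 ∧ psi (Aof x) = x := by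
  obtain ⟨A, hA, hA2, rfl⟩ := ex_psi h0 h1
  rw [A_psi hA hA2]
  exact ⟨hA, hA2, rfl⟩

theorem A_cont : ContinuousOn Aof (Set.Icc 0 lamc) := by
  unfold Aof
  refine continuousOn_const.add ((continuousOn_const.mul continuousOn_id).mul ?_)
  refine continuousOn_tsum (u := fun i : ℕ => (3 * (i : ℝ) + 2) * b0 i * lamc ^ i) (fun i => ?_)
    (sum_P lamc_pos.1.le le_rfl) (fun i x hx => ?_)
  · exact (continuous_const.mul (continuous_pow i)).continuousOn
  · have h1 := (b0_pos i).le
    have h2 : 0 ≤ x := hx.1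
    rw [Real.norm_of_nonneg (by positivity)]
    exact mul_le_mul_of_nonneg_left (pow_le_pow_left₀ h2 hx.2 i) (by positivity)

theorem f_val {x : ℝ} (h0 : 0 ≤ x) (h1 : x ≤ lamc) :
    HasSum (fun i : ℕ => b0 i * x ^ i) (Aof x ^ 2 * (3 - Aof x) / (Aof x + 1)) := by
  obtain ⟨A, hA, hA2, rfl⟩ := ex_psi h0 h1
  rw [A_psi hA hA2]
  have hA0 : 0 < A := by linarith
  have sP := sum_P h0 h1
  have s0 : Summable fun i : ℕ => b0 i * psi A ^ i := by
    apply summable_of_sum_range_le (c := A ^ 2 * (3 - A) / (A + 1))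
    · intro n
      have := (b0_pos n).le
      positivity
    · intro n
      refine le_trans ?_ (bound hA hA2 n).1
      rw [Finset.sum_range_succ]
      have := (b0_pos n).le
      have : 0 ≤ b0 n * psi A ^ n := by positivity
      linarith
  have f_le : ∑' i : ℕ, b0 i * psi A ^ i ≤ A ^ 2 * (3 - A) / (A + 1) := by
    apply Real.tsum_le_of_sum_range_le
    · intro n
      have := (b0_pos n).le
      positivity
    · intro n
      refine le_trans ?_ (bound hA hA2 n).1
      rw [Finset.sum_range_succ]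
      have := (b0_pos n).le
      have : 0 ≤ b0 n * psi A ^ n := by positivity
      linarith
  have s1 : Summable fun i : ℕ => (i : ℝ) * b0 i * psi A ^ i := by
    apply summable_of_sum_range_le (c := 2 * A ^ 2 * (A - 1) / (A + 1))
    · intro n
      have := (b0_pos n).le
      positivity
    · intro n
      refine le_trans ?_ (bound hA hA2 n).2
      rw [Finset.sum_range_succ]
      have := (b0_pos n).le
      have : 0 ≤ (n : ℝ) * b0 n * psi A ^ n := by positivity
      linarith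
  have g_le : ∑' i : ℕ, (i : ℝ) * b0 i * psi A ^ i ≤ 2 * A ^ 2 * (A - 1) / (A + 1) := by
    apply Real.tsum_le_of_sum_range_le
    · intro n
      have := (b0_pos n).le
      positivity
    · intro n
      refine le_trans ?_ (bound hA hA2 n).2
      rw [Finset.sum_range_succ]
      have := (b0_pos n).le
      have : 0 ≤ (n : ℝ) * b0 n * psi A ^ n := by positivity
      linarith
  have eP : ∑' i : ℕ, (3 * (i : ℝ) + 2) * b0 i * psi A ^ i =
      3 * (∑' i : ℕ, (i : ℝ) * b0 i * psi A ^ i) + 2 * ∑' i : ℕ, b0 i * psi A ^ i := by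
    rw [← tsum_mul_left, ← tsum_mul_left, ← (s1.mul_left 3).tsum_add (s0.mul_left 2)]
    exact tsum_congr fun i => by ring
  have key : ∑' i : ℕ, b0 i * psi A ^ i = A ^ 2 * (3 - A) / (A + 1) := by
    rcases eq_or_lt_of_le hA with h | h
    · rw [← h, psi_ends.1, tsum_eq_single 0]
      · rw [b0_zero]
        norm_num
      · intro n hn
        rw [zero_pow hn, mul_zero]
    · have hp : 0 < psi A := by
        unfold psi
        have : 0 < A ^ 2 - 1 := by nlinarith
        positivity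
      have h2 := A_psi hA hA2
      unfold Aof at h2
      have h3 : ∑' i : ℕ, (3 * (i : ℝ) + 2) * b0 i * psi A ^ i = 4 * A ^ 3 / (A + 1) := by
        have e : 2 * psi A * (4 * A ^ 3 / (A + 1)) = A - 1 := by
          unfold psi
          field_simp
          ring
        have e2 : 2 * psi A * ∑' i : ℕ, (3 * (i : ℝ) + 2) * b0 i * psi A ^ i =
            2 * psi A * (4 * A ^ 3 / (A + 1)) := by
          rw [e]
          linarith
        exact mul_left_cancel₀ (by positivity) e2
      have e3 : 4 * A ^ 3 / (A + 1) = 3 * (2 * A ^ 2 * (A - 1) / (A + 1)) +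
          2 * (A ^ 2 * (3 - A) / (A + 1)) := by
        field_simp
        ring
      rw [eP, e3] at h3
      linarith
  rw [← key]
  exact s0.hasSum

end UN39
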