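import Mathlib
import Pool.Agent.H39.UN.Num
import Pool.Agent.H39.UN.Kk
import Pool.Agent.H39.UN.Ineq

/-!
[H39 UN HKD]  (MP_bcc40c_pr)  Gluings with a marked corner: `HK k (p :: c)` = generating polynomial of the connected gluings such
that the starting vertex of the first side of the first polygon is incident to exactly `k` edges (a loop is counted once).  It is
DEFINED by the exploration of this vertex: peel the first side, go on with the next side at the same vertex.
`hk k c m` = normalised numbers with `m` triangles.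

PROOFS.  HK_le: induction on `k` for all lists, coefficientwise, along the recursion; compare with K_two / K_one (for the term
`HK k ((p - i) :: i :: l) ≤ K ((p - i) :: i :: l) = K (i :: (p - i) :: l)` use K_perm); all coefficients are natural numbers, use
`Polynomial.coeff` of sums and products and monotonicity (`Polynomial.coeff_mul`: sums over an antidiagonal; prove first a
helper: coefficientwise `≤` is preserved by sums, by natural multiples and by products; state it as
`∀ v, p.coeff v ≤ q.coeff v`).  Cases with an empty polygon: K_zero.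
hk_le: from HK_le.  hk_zero, hk_k0, hk_one, hk_two: unfold; for hk_two the list is `(p+2) :: 3^m`; the picks part of `3^m` is
`m` copies of `(3, 3^(m-1))` (sum `3 m HK k ((p+3) :: 3^(m-1))`; divided by `m! 3^m` it is `hk k [p+3] (m-1)`), the splits part is
`∑_j m.choose j K(i :: 3^j) HK k ((p-i) :: 3^(m-j))` (same computation as in tutte of KK; a helper
`((splits (List.replicate m 3)).map F).sum = ∑ j in range (m+1), (m.choose j) • F (3^j, 3^(m-j))` is proved by induction on `m`).
-/

set_option autoImplicit false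

namespace UN39

open Polynomial

/-- connected gluings with `k` edges at the starting vertex of the first side -/
noncomputable def HK : ℕ → List ℕ → Polynomial ℕ
  | _, [] => 0
  | 0, 0 :: l => if l = [] then X else 0
  | _ + 1, 0 :: _ => 0
  | 0, (_ + 1) :: _ => 0
  | k + 1, 1 :: l => ((picks l).map fun p => p.1 • HK k ((p.1 - 1) :: p.2)).sum
  | k + 1, (p + 2) :: l =>
      (∑ i ∈ Finset.range (p + 1), (HK k ((p - i) :: i :: l) +
        ((splits l).map fun s => K (i :: s.1) * HK k ((p - i) :: s.2)).sum)) +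
      ((picks l).map fun q => q.1 • HK k ((p + q.1) :: q.2)).sum

/-- normalised numbers -/
noncomputable def hk (k : ℕ) (c : List ℕ) (m : ℕ) : Polynomial ℝ :=
  C (((m.factorial : ℝ) * 3 ^ m)⁻¹) * (HK k (c ++ List.replicate m 3)).map (Nat.castRingHom ℝ)

theorem HK_nil (k : ℕ) : HK k [] = 0 := by
  cases k <;> simp [HK]

theorem HK_zero_zero (l : List ℕ) : HK 0 (0 :: l) = if l = [] then X else 0 := by
  simp [HK]

theorem HK_succ_zero (k : ℕ) (l : List ℕ) : HK (k + 1) (0 :: l) = 0 := by
  simp [HK]

theorem HK_zero_succ (p : ℕ) (l : List ℕ) : HK 0 ((p + 1) :: l) = 0 := by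
  simp [HK]

theorem HK_one (k : ℕ) (l : List ℕ) :
    HK (k + 1) (1 :: l) = ((picks l).map fun p => p.1 • HK k ((p.1 - 1) :: p.2)).sum := by
  rw [HK]

theorem HK_two (k p : ℕ) (l : List ℕ) : HK (k + 1) ((p + 2) :: l) =
      (∑ i ∈ Finset.range (p + 1), (HK k ((p - i) :: i :: l) +
        ((splits l).map fun s => K (i :: s.1) * HK k ((p - i) :: s.2)).sum)) +
      ((picks l).map fun q => q.1 • HK k ((p + q.1) :: q.2)).sum := by
  rw [HK]

/-- coefficientwise inequality -/
def LEp (f g : Polynomial ℕ) : Prop := ∀ v, f.coeff v ≤ g.coeff v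

theorem LEp.refl (f : Polynomial ℕ) : LEp f f := fun _ => le_rfl

theorem LEp.zero (f : Polynomial ℕ) : LEp 0 f := fun v => by
  rw [coeff_zero]
  exact Nat.zero_le _

theorem LEp.add {f g f' g' : Polynomial ℕ} (h : LEp f g) (h' : LEp f' g') : LEp (f + f') (g + g') :=
  fun v => by
    rw [coeff_add, coeff_add]
    exact add_le_add (h v) (h' v)

theorem LEp.nsmul {f g : Polynomial ℕ} (n : ℕ) (h : LEp f g) : LEp (n • f) (n • g) := fun v => by
  rw [coeff_smul, coeff_smul, smul_eq_mul, smul_eq_mul]
  exact Nat.mul_le_mul_left _ (h v)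

theorem LEp.mul {f g f' g' : Polynomial ℕ} (h : LEp f g) (h' : LEp f' g') : LEp (f * f') (g * g') :=
  fun v => by
    rw [coeff_mul, coeff_mul]
    exact Finset.sum_le_sum fun p _ => Nat.mul_le_mul (h _) (h' _)

theorem LEp.sum {ι : Type} (s : Finset ι) (f g : ι → Polynomial ℕ) (h : ∀ i ∈ s, LEp (f i) (g i)) :
    LEp (∑ i ∈ s, f i) (∑ i ∈ s, g i) := fun v => by
  rw [finsetSum_coeff, finsetSum_coeff]
  exact Finset.sum_le_sum fun i hi => h i hi v

theorem LEp.lsum {ι : Type} (L : List ι) (f g : ι → Polynomial ℕ) (h : ∀ i ∈ L, LEp (f i) (g i)) :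
    LEp ((L.map f).sum) ((L.map g).sum) := by
  induction L with
  | nil => exact LEp.refl _
  | cons x xs ih =>
    rw [List.map_cons, List.map_cons, List.sum_cons, List.sum_cons]
    exact (h x (List.mem_cons_self)).add (ih fun i hi => h i (List.mem_cons_of_mem _ hi))

theorem HK_LEp (k : ℕ) (l : List ℕ) : LEp (HK k l) (K l) := by
  induction k generalizing l with
  | zero =>
    match l with
    | [] => rw [HK_nil]; exact LEp.zero _
    | 0 :: l => rw [HK_zero_zero, K_zero]; exact LEp.refl _
    | (p + 1) :: l => rw [HK_zero_succ]; exact LEp.zero _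
  | succ k ih =>
    match l with
    | [] => rw [HK_nil]; exact LEp.zero _
    | 0 :: l => rw [HK_succ_zero]; exact LEp.zero _
    | 1 :: l =>
      rw [HK_one, K_one]
      exact LEp.lsum _ _ _ fun p _ => (ih _).nsmul _
    | (p + 2) :: l =>
      rw [HK_two, K_two]
      refine LEp.add (LEp.sum _ _ _ fun i _ => LEp.add ?_ ?_) ?_
      · rw [K_perm (List.Perm.swap (p - i) i l)]
        exact ih _
      · exact LEp.lsum _ _ _ fun s _ => (LEp.refl _).mul (ih _)
      · exact LEp.lsum _ _ _ fun q _ => (ih _).nsmul _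

theorem HK_le (k : ℕ) (l : List ℕ) (v : ℕ) : (HK k l).coeff v ≤ (K l).coeff v := HK_LEp k l v

theorem hk_nonneg (k : ℕ) (c : List ℕ) (m v : ℕ) : 0 ≤ (hk k c m).coeff v := by
  unfold hk
  rw [coeff_C_mul, coeff_map, eq_natCast]
  positivity

theorem hk_le (k : ℕ) (c : List ℕ) (m v : ℕ) : (hk k c m).coeff v ≤ kc c m v := by
  unfold hk kc kk
  rw [coeff_C_mul, coeff_map, coeff_C_mul, coeff_map, eq_natCast, eq_natCast]
  refine mul_le_mul_of_nonneg_left ?_ (by positivity)
  exact_mod_cast HK_le k _ v

theorem hk_ph (k : ℕ) (c : List ℕ) (m : ℕ) :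
    hk k c m = C (((m.factorial : ℝ) * 3 ^ m)⁻¹) * ph (HK k (c ++ List.replicate m 3)) := rfl

theorem hk_zero (k m : ℕ) : hk k [0] m = if k = 0 ∧ m = 0 then X else 0 := by
  rw [hk_ph, List.cons_append, List.nil_append]
  rcases k with _ | k
  · rw [HK_zero_zero]
    rcases m with _ | m
    · simp [ph]
    · simp
  · rw [HK_succ_zero, map_zero, mul_zero, if_neg]
    omega

theorem hk_k0 (p m : ℕ) : hk 0 [p + 1] m = 0 := by
  rw [hk_ph, List.cons_append, HK_zero_succ, map_zero, mul_zero]

theorem hk_picks (k m : ℕ) (g : ℕ → ℕ) :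
    C (((m.factorial : ℝ) * 3 ^ m)⁻¹) *
      ph ((picks (List.replicate m 3)).map fun p => p.1 • HK k (g p.1 :: p.2)).sum =
    if m = 0 then 0 else hk k [g 3] (m - 1) := by
  rw [picks_rep, List.map_replicate, List.sum_replicate]
  rcases m with _ | m
  · simp
  · rw [if_neg (Nat.succ_ne_zero m), Nat.add_sub_cancel]
    show C ((((m + 1).factorial : ℝ) * 3 ^ (m + 1))⁻¹) *
      ph ((m + 1) • (3 • HK k (g 3 :: List.replicate m 3))) = _
    rw [hk_ph, nsmul_eq_mul, nsmul_eq_mul, map_mul, map_mul, map_natCast, map_natCast,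
      ← C_eq_natCast, ← C_eq_natCast, ← mul_assoc, ← mul_assoc, ← C_mul, ← C_mul]
    congr 2
    rw [Nat.factorial_succ, pow_succ]
    have h2 : (m.factorial : ℝ) ≠ 0 := by exact_mod_cast Nat.factorial_ne_zero m
    have h3 : ((m : ℝ) + 1) ≠ 0 := by positivity
    push_cast
    field_simp

theorem hk_one (k m : ℕ) : hk (k + 1) [1] m = if m = 0 then 0 else hk k [2] (m - 1) := by
  rw [hk_ph, List.cons_append, List.nil_append, HK_one]
  exact hk_picks k m (fun x => x - 1)

theorem hk_two (k p m : ℕ) : hk (k + 1) [p + 2] m =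
    (if m = 0 then 0 else hk k [p + 3] (m - 1)) +
      ∑ i ∈ Finset.range (p + 1), (hk k [p - i, i] m +
        ∑ j ∈ Finset.range (m + 1), kk [i] j * hk k [p - i] (m - j)) := by
  rw [hk_ph, List.cons_append, List.nil_append, HK_two, map_add, mul_add, add_comm]
  congr 1
  · exact hk_picks k m (fun x => p + x)
  · rw [map_sum, Finset.mul_sum]
    refine Finset.sum_congr rfl fun i _ => ?_
    rw [map_add, mul_add]
    congr 1
    rw [splits_rep, map_sum, Finset.mul_sum]
    refine Finset.sum_congr rfl fun j hj => ?_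
    rw [Finset.mem_range] at hj
    rw [nsmul_eq_mul, map_mul, map_mul, map_natCast, kk_ph, hk_ph, ← C_eq_natCast, ← mul_assoc,
      ← C_mul, al_choose (by omega), C_mul, List.cons_append, List.cons_append, List.nil_append,
      List.nil_append]
    ring

end UN39
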