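import Mathlib
import Pool.Agent.H39.UN.Num
import Pool.Agent.H39.UN.Kk
import Pool.Agent.H39.UN.Ineq
import Pool.Agent.H39.UN.HKd

/-!
[H39 UN HKP]  (MP_bcc40c_pr)  Planar coefficients `zc p s` (of `kk [p]`) and `hc k p s` (of `hk k [p]`) and their recursions.

PROOFS.  zc_zero, hc_zero: kk_zero, hk_zero (`m = 2 s - 2 = 0`).  zc_one: `kc [1] (2 (s+2) - 3) (s+2)`, `bb s = kk [1] (2s+1)`.
zc_rec, hc_rec: take the planar coefficient: for `p + 2 ≤ 2 s` the coefficient of `X^s` in tutte (polygon `p`, `c = []`,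
`m = 2 s - 2 - p`): the handle terms `kk [i, j] m` have the coefficient 0 by K_supp (list `i :: j :: 3^m`, `l.sum = i + j + 3m`, `l.length = 2 + m`:
`2 (s + 2 + m) ≤ i + j + 3 m + 4`, i.e. `2 s ≤ i + j + m`, with `i + j = p - 2` and `m = 2 s - 2 - p`: `2 s ≤ 2 s - 4`, false); in the product part only
`s1 + s2 = s` with `j1 = 2 s1 - 2 - i`, `j2 = 2 s2 - 2 - j` contribute: K_supp says `2 s1 ≤ i + j1 + 2`,
`2 s2 ≤ j + j2 + 2` with sum `2 s ≤ i + j + m + 4 = 2 s`, so both are equalities; conversely these `j1`, `j2` satisfy `j1 + j2 = m`.  For `2 s < p + 2` both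
sides vanish (the products need `2 s1 ≥ i + 2` and `2 s2 ≥ j + 2`, and then `2 s ≥ p + 2`).  If `m = 0` the term with one more triangle is absent on both
sides.  In zc_rec the polygon is `p + 1`: for `p = 0` it is tutte1.  hc_rec: the same with hk_two, the handle terms are `≤ kk` (hk_le).  hc_one: hk_one.
zc_le: from zc_rec.  hc_le: hk_le.
-/

set_option autoImplicit false

namespace UN39

open Polynomial

/-- planar numbers of `p`-gons with `s` vertices -/
noncomputable def zc (p s : ℕ) : ℝ := if p + 2 ≤ 2 * s then kc [p] (2 * s - 2 - p) s else 0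

noncomputable def hc (k p s : ℕ) : ℝ :=
  if p + 2 ≤ 2 * s then (hk k [p] (2 * s - 2 - p)).coeff s else 0

theorem kk_supp {c : List ℕ} {m v : ℕ} (h : (kk c m).coeff v ≠ 0) :
    2 * (v + c.length + m) ≤ c.sum + 3 * m + 4 := by
  unfold kk at h
  rw [coeff_C_mul, coeff_map] at h
  have h1 : (K (c ++ List.replicate m 3)).coeff v ≠ 0 := by
    intro h2
    rw [h2] at h
    simp at h
  have h2 := (K_supp h1).2.1
  simp only [List.sum_append, List.length_append, List.sum_replicate, List.length_replicate,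
    smul_eq_mul] at h2
  omega

theorem kk_supp1 (i j t : ℕ) (h : (kk [i] j).coeff t ≠ 0) : 2 * t ≤ i + j + 2 := by
  have h1 := kk_supp h
  simp only [List.sum_cons, List.sum_nil, List.length_cons, List.length_nil] at h1
  omega

theorem hk_supp {k : ℕ} {c : List ℕ} {m v : ℕ} (h : (hk k c m).coeff v ≠ 0) :
    (kk c m).coeff v ≠ 0 := by
  intro h1
  have h2 := hk_le k c m v
  have h3 := hk_nonneg k c m v
  unfold kc at h2
  rw [h1] at h2
  exact h (le_antisymm h2 h3)

theorem hk_supp1 (k i j t : ℕ) (h : (hk k [i] j).coeff t ≠ 0) : 2 * t ≤ i + j + 2 :=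
  kk_supp1 i j t (hk_supp h)

theorem pconv (i q s : ℕ) (A B : ℕ → Polynomial ℝ)
    (hA : ∀ j t, (A j).coeff t ≠ 0 → 2 * t ≤ i + j + 2)
    (hB : ∀ j t, (B j).coeff t ≠ 0 → 2 * t ≤ q + j + 2) (h : i + q + 4 ≤ 2 * s) (m : ℕ)
    (hm : m = 2 * s - 4 - i - q) :
    (∑ j ∈ Finset.range (m + 1), A j * B (m - j)).coeff s =
      ∑ t ∈ Finset.range (s + 1), (if i + 2 ≤ 2 * t then (A (2 * t - 2 - i)).coeff t else 0) *
        (if q + 2 ≤ 2 * (s - t) then (B (2 * (s - t) - 2 - q)).coeff (s - t) else 0) := by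
  rw [finsetSum_coeff]
  have h1 : ∀ j ∈ Finset.range (m + 1), (A j * B (m - j)).coeff s =
      ∑ t ∈ Finset.range (s + 1), (A j).coeff t * (B (m - j)).coeff (s - t) := by
    intro j _
    rw [coeff_mul, Finset.Nat.sum_antidiagonal_eq_sum_range_succ
      (fun a b => (A j).coeff a * (B (m - j)).coeff b)]
  rw [Finset.sum_congr rfl h1, Finset.sum_comm]
  refine Finset.sum_congr rfl fun t ht => ?_
  rw [Finset.mem_range] at ht
  by_cases h2 : i + 2 ≤ 2 * t ∧ q + 2 ≤ 2 * (s - t)
  · rw [if_pos h2.1, if_pos h2.2, Finset.sum_eq_single (2 * t - 2 - i)]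
    · have h3 : m - (2 * t - 2 - i) = 2 * (s - t) - 2 - q := by omega
      rw [h3]
    · intro j hj hne
      rw [Finset.mem_range] at hj
      by_contra h3
      have h4 := hA j t (left_ne_zero_of_mul h3)
      have h5 := hB (m - j) (s - t) (right_ne_zero_of_mul h3)
      omega
    · intro h3
      exfalso
      apply h3
      rw [Finset.mem_range]
      omega
  · have h6 : (if i + 2 ≤ 2 * t then (A (2 * t - 2 - i)).coeff t else 0) *
        (if q + 2 ≤ 2 * (s - t) then (B (2 * (s - t) - 2 - q)).coeff (s - t) else 0) = 0 := by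
      by_cases h7 : i + 2 ≤ 2 * t
      · rw [if_neg (fun h8 => h2 ⟨h7, h8⟩), mul_zero]
      · rw [if_neg h7, zero_mul]
    rw [h6]
    refine Finset.sum_eq_zero fun j hj => ?_
    rw [Finset.mem_range] at hj
    by_contra h3
    have h4 := hA j t (left_ne_zero_of_mul h3)
    have h5 := hB (m - j) (s - t) (right_ne_zero_of_mul h3)
    apply h2
    omega

theorem zc_nonneg (p s : ℕ) : 0 ≤ zc p s := by
  unfold zc
  split_ifs
  · exact kc_nonneg _ _ _
  · exact le_rfl

theorem zc_zero (s : ℕ) : zc 0 s = if s = 1 then 1 else 0 := by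
  unfold zc kc
  rw [kk_zero]
  rcases s with _ | _ | s
  · simp
  · simp
  · rw [if_pos (by omega), if_neg (by omega), if_neg (by omega), coeff_zero]

theorem zc_s0 (p : ℕ) : zc p 0 = 0 := by
  unfold zc
  rw [if_neg (by omega)]

theorem zc_one (s : ℕ) : zc 1 (s + 2) = bc s (s + 2) ∧ zc 1 1 = 0 := by
  unfold zc kc bc bb
  constructor
  · rw [if_pos (by omega)]
    have h1 : 2 * (s + 2) - 2 - 1 = 2 * s + 1 := by omega
    rw [h1]
  · rw [if_neg (by omega)]

theorem zc_rec (p s : ℕ) : zc (p + 1) s = zc (p + 2) s +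
    ∑ i ∈ Finset.range p, ∑ t ∈ Finset.range (s + 1), zc i t * zc (p - 1 - i) (s - t) := by
  rcases p with _ | p
  · rw [Finset.range_zero, Finset.sum_empty, add_zero]
    unfold zc kc
    by_cases h : 0 + 1 + 2 ≤ 2 * s
    · rw [if_pos h, if_pos (by omega)]
      have h1 := tutte1 [] (2 * s - 2 - (0 + 1))
      rw [if_neg (by omega)] at h1
      have h2 : ((picks ([] : List ℕ)).map fun p =>
          (p.1 : ℝ) • kk ((p.1 - 1) :: p.2) (2 * s - 2 - (0 + 1))).sum = 0 := by simp [picks]
      rw [h2, add_zero] at h1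
      have h3 : 2 * s - 2 - (0 + 1) - 1 = 2 * s - 2 - (0 + 2) := by omega
      rw [h3] at h1
      show (kk (1 :: []) (2 * s - 2 - (0 + 1))).coeff s = _
      rw [h1]
    · rw [if_neg h, if_neg (by omega)]
  · by_cases h : p + 1 + 1 + 2 ≤ 2 * s
    · have h1 := tutte p [] (2 * s - 4 - p)
      have h2 : ((picks ([] : List ℕ)).map fun q =>
          (q.1 : ℝ) • kk ((p + q.1) :: q.2) (2 * s - 4 - p)).sum = 0 := by simp [picks]
      rw [h2, add_zero] at h1
      have h3 : zc (p + 1 + 1) s = (kk [p + 2] (2 * s - 4 - p)).coeff s := by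
        unfold zc kc
        rw [if_pos h]
        have h4 : 2 * s - 2 - (p + 1 + 1) = 2 * s - 4 - p := by omega
        rw [h4]
      rw [h3, h1, coeff_add]
      congr 1
      · unfold zc kc
        by_cases h4 : 2 * s - 4 - p = 0
        · rw [if_pos h4, if_neg (by omega), coeff_zero]
        · rw [if_neg h4, if_pos (by omega)]
          have h5 : 2 * s - 4 - p - 1 = 2 * s - 2 - (p + 1 + 2) := by omega
          rw [h5]
      · rw [finsetSum_coeff]
        refine Finset.sum_congr rfl fun i hi => ?_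
        rw [Finset.mem_range] at hi
        rw [coeff_add]
        have h4 : (kk [i, p - i] (2 * s - 4 - p)).coeff s = 0 := by
          by_contra h5
          have h6 := kk_supp h5
          simp only [List.sum_cons, List.sum_nil, List.length_cons, List.length_nil] at h6
          omega
        rw [h4, zero_add]
        have h5 : ((splits ([] : List ℕ)).map fun q => ∑ j ∈ Finset.range (2 * s - 4 - p + 1),
            kk (i :: q.1) j * kk ((p - i) :: q.2) (2 * s - 4 - p - j)).sum =
            ∑ j ∈ Finset.range (2 * s - 4 - p + 1), kk [i] j * kk [p - i] (2 * s - 4 - p - j) := by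
          simp [splits]
        rw [h5, pconv i (p - i) s (fun j => kk [i] j) (fun j => kk [p - i] j)
          (fun j t h => kk_supp1 i j t h) (fun j t h => kk_supp1 (p - i) j t h) (by omega)
          (2 * s - 4 - p) (by omega)]
        refine Finset.sum_congr rfl fun t _ => ?_
        have h6 : p + 1 - 1 - i = p - i := by omega
        rw [h6]
        rfl
    · have h1 : zc (p + 1 + 1) s = 0 := by
        unfold zc
        rw [if_neg h]
      have h2 : zc (p + 1 + 2) s = 0 := by
        unfold zc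
        rw [if_neg (by omega)]
      rw [h1, h2, zero_add]
      symm
      refine Finset.sum_eq_zero fun i hi => Finset.sum_eq_zero fun t ht => ?_
      rw [Finset.mem_range] at hi ht
      unfold zc
      by_cases h3 : i + 2 ≤ 2 * t
      · rw [if_neg (c := p + 1 - 1 - i + 2 ≤ 2 * (s - t)) (by omega), mul_zero]
      · rw [if_neg h3, zero_mul]

theorem zc_le (p s : ℕ) : zc (p + 2) s ≤ zc (p + 1) s := by
  rw [zc_rec p s]
  refine le_add_of_nonneg_right ?_
  exact Finset.sum_nonneg fun i _ => Finset.sum_nonneg fun t _ => mul_nonneg (zc_nonneg _ _) (zc_nonneg _ _)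

theorem hc_nonneg (k p s : ℕ) : 0 ≤ hc k p s := by
  unfold hc
  split_ifs
  · exact hk_nonneg _ _ _ _
  · exact le_rfl

theorem hc_le (k p s : ℕ) : hc k p s ≤ zc p s := by
  unfold hc zc
  split_ifs
  · exact hk_le _ _ _ _
  · exact le_rfl

theorem hc_zero (k s : ℕ) : hc k 0 s = if k = 0 ∧ s = 1 then 1 else 0 := by
  unfold hc
  rw [hk_zero]
  rcases k with _ | k
  · rcases s with _ | _ | s
    · simp
    · simp
    · rw [if_pos (by omega), if_neg (by omega), if_neg (by omega), coeff_zero]
  · rw [if_neg (c := k + 1 = 0 ∧ 2 * s - 2 - 0 = 0) (by omega), if_neg (c := k + 1 = 0 ∧ s = 1) (by omega),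
      coeff_zero, ite_self]

theorem hc_k0 (p s : ℕ) : hc 0 (p + 1) s = 0 := by
  unfold hc
  rw [hk_k0, coeff_zero, ite_self]

theorem hc_one (k s : ℕ) : hc (k + 1) 1 s = hc k 2 s := by
  unfold hc
  rw [hk_one]
  by_cases h : 1 + 2 ≤ 2 * s
  · rw [if_pos h, if_pos (c := 2 + 2 ≤ 2 * s) (by omega),
      if_neg (c := 2 * s - 2 - 1 = 0) (by omega)]
    have h1 : 2 * s - 2 - 1 - 1 = 2 * s - 2 - 2 := by omega
    rw [h1]
  · rw [if_neg h, if_neg (c := 2 + 2 ≤ 2 * s) (by omega)]

theorem hc_rec (k p s : ℕ) : hc (k + 1) (p + 2) s = hc k (p + 3) s +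
    ∑ i ∈ Finset.range (p + 1), ∑ t ∈ Finset.range (s + 1), zc i t * hc k (p - i) (s - t) := by
  by_cases h : p + 2 + 2 ≤ 2 * s
  · have h1 := hk_two k p (2 * s - 4 - p)
    have h3 : hc (k + 1) (p + 2) s = (hk (k + 1) [p + 2] (2 * s - 4 - p)).coeff s := by
      unfold hc
      rw [if_pos h]
      have h4 : 2 * s - 2 - (p + 2) = 2 * s - 4 - p := by omega
      rw [h4]
    rw [h3, h1, coeff_add]
    congr 1
    · unfold hc
      by_cases h4 : 2 * s - 4 - p = 0
      · rw [if_pos h4, if_neg (by omega), coeff_zero]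
      · rw [if_neg h4, if_pos (by omega)]
        have h5 : 2 * s - 4 - p - 1 = 2 * s - 2 - (p + 3) := by omega
        rw [h5]
    · rw [finsetSum_coeff]
      refine Finset.sum_congr rfl fun i hi => ?_
      rw [Finset.mem_range] at hi
      rw [coeff_add]
      have h4 : (hk k [p - i, i] (2 * s - 4 - p)).coeff s = 0 := by
        by_contra h5
        have h6 := kk_supp (hk_supp h5)
        simp only [List.sum_cons, List.sum_nil, List.length_cons, List.length_nil] at h6
        omega
      rw [h4, zero_add, pconv i (p - i) s (fun j => kk [i] j) (fun j => hk k [p - i] j)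
        (fun j t h => kk_supp1 i j t h) (fun j t h => hk_supp1 k (p - i) j t h) (by omega)
        (2 * s - 4 - p) (by omega)]
      rfl
  · have h1 : hc (k + 1) (p + 2) s = 0 := by
      unfold hc
      rw [if_neg h]
    have h2 : hc k (p + 3) s = 0 := by
      unfold hc
      rw [if_neg (by omega)]
    rw [h1, h2, zero_add]
    symm
    refine Finset.sum_eq_zero fun i hi => Finset.sum_eq_zero fun t ht => ?_
    rw [Finset.mem_range] at hi ht
    unfold zc hc
    by_cases h3 : i + 2 ≤ 2 * t
    · rw [if_neg (c := p - i + 2 ≤ 2 * (s - t)) (by omega), mul_zero]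
    · rw [if_neg h3, zero_mul]

end UN39
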