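import Mathlib
import Pool.Agent.H39.UN.Ineq
import Pool.Agent.H39.UN.HKd
import Pool.Agent.H39.UN.HKp
import Pool.Agent.H39.UN.PlA
import Pool.Agent.H39.UN.PlC

/-!
[H39 UN PLD]  (MP_bcc40c_pr)  Planar disk functions `zf p x = ∑_s zc p s x^s`, the formal series `Sf x`, `qf p x`.

PROOFS.  z_sum: `zc 0`: zc_zero; `zc (p+1) s ≤ zc 1 s` (zc_le), `zc 1 (s+2) = b0 s` (zc_one), summable by sum_P (`b0 s ≤ (3s+2) b0 s`).
z_zero: zc_zero.  z_one: `zf 1 x = x^2 ∑ b0 s x^s = x^2 A^2 (3 - A)/(A+1)` (f_val) with `x = (A^2-1)/(8A^3)`: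
`= x (A^2 - 1)/(8 A^3) A^2 (3-A)/(A+1) = x (A-1)(3-A)/(8A)`.
z_rec: zc_rec, Cauchy products of nonnegative summable series.
Sf_sq: `Sf = 1 - X + 2 X^3 Z` with `Z = mk (zf · x)`.  z_rec says: `Z - z_0 = (Z - z_0 - z_1 X)/X + X^2 Z^2`, i.e.
`X^3 Z^2 + (1 - X) Z - z_0 (1 - X) - z_1 X = 0` (compare coefficients of `X^(p+1)`, and of `X^0`: `Z_0 = z_0`... : coefficient of `X^0`:
`z_0 - z_0 = 0` ✓., of `X^(p+1)`: `[X^(p+1)] X^3 Z^2 + z_(p+1) - z_p + ...` : `p = 0`: `z_1 - z_0 + z_0 - z_1 = 0` ✓., `p + 1 ≥ 2`: `∑_{i+j = p - 2} z_i z_j + z_(p+1) - z_p = 0` ✓.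
(z_rec with `p - 1`)).  Multiply by `4 X^3` and complete the square.
qf: `Qs = X * Sf⁻¹` (`Sf` has constant coefficient 1).  q_rec: `Qs * Sf = X`: coefficient of `X^(p+2)`:
`q_(p+2) - q_(p+1) + 2 ∑_{i ≤ p-1} z_i q_(p-1-i) = 0`.
z_cont, q_cont: uniform convergence on `[0, lamc]` (`continuousOn_tsum`, bound by the value at `lamc`); `qf` by q_rec and strong induction.
-/

set_option autoImplicit false

namespace UN39

noncomputable def zf (p : ℕ) (x : ℝ) : ℝ := ∑' s, zc p s * x ^ s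

noncomputable def Sf (x : ℝ) : PowerSeries ℝ :=
  1 - PowerSeries.X + 2 * PowerSeries.X ^ 3 * PowerSeries.mk fun p => zf p x

noncomputable def qf (p : ℕ) (x : ℝ) : ℝ := PowerSeries.coeff p (PowerSeries.X * (Sf x)⁻¹)

theorem zc_le_one (p s : ℕ) : zc (p + 1) s ≤ zc 1 s := by
  induction p with
  | zero => exact le_rfl
  | succ p ih => exact le_trans (zc_le p s) ih

theorem z_hasSum_one {x : ℝ} (h0 : 0 ≤ x) (h1 : x ≤ lamc) : HasSum (fun s => zc 1 s * x ^ s)
    (x ^ 2 * (Aof x ^ 2 * (3 - Aof x) / (Aof x + 1))) := by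
  have h2 : HasSum (fun s : ℕ => zc 1 (s + 2) * x ^ (s + 2))
      (x ^ 2 * (Aof x ^ 2 * (3 - Aof x) / (Aof x + 1))) := by
    have h3 := (f_val h0 h1).mul_left (x ^ 2)
    refine h3.congr_fun fun s => ?_
    rw [(zc_one s).1, pow_add]
    unfold b0
    ring
  have h4 := (hasSum_nat_add_iff (f := fun s : ℕ => zc 1 s * x ^ s) 2).1 h2
  rw [Finset.sum_range_succ, Finset.sum_range_one, zc_s0, (zc_one 0).2, zero_mul, zero_mul,
    add_zero, add_zero] at h4
  exact h4

theorem z_sum {x : ℝ} (h0 : 0 ≤ x) (h1 : x ≤ lamc) (p : ℕ) : Summable fun s => zc p s * x ^ s := by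
  rcases p with _ | p
  · apply summable_of_ne_finset_zero (s := {1})
    intro s hs
    rw [Finset.mem_singleton] at hs
    rw [zc_zero, if_neg hs, zero_mul]
  · refine Summable.of_nonneg_of_le (fun s => ?_) (fun s => ?_) (z_hasSum_one h0 h1).summable
    · have := zc_nonneg (p + 1) s
      positivity
    · exact mul_le_mul_of_nonneg_right (zc_le_one p s) (by positivity)

theorem z_nonneg {x : ℝ} (h0 : 0 ≤ x) (p : ℕ) : 0 ≤ zf p x := by
  unfold zf
  exact tsum_nonneg fun s => mul_nonneg (zc_nonneg p s) (by positivity)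

theorem z_zero (x : ℝ) : zf 0 x = x := by
  unfold zf
  rw [tsum_eq_single 1]
  · rw [zc_zero, if_pos rfl, one_mul, pow_one]
  · intro s hs
    rw [zc_zero, if_neg hs, zero_mul]

theorem z_one {x : ℝ} (h0 : 0 ≤ x) (h1 : x ≤ lamc) :
    zf 1 x = x * (Aof x - 1) * (3 - Aof x) / (8 * Aof x) := by
  unfold zf
  rw [(z_hasSum_one h0 h1).tsum_eq]
  obtain ⟨hA1, _, hA3⟩ := psi_A h0 h1
  have hA : 0 < Aof x := by linarith
  have e : x ^ 2 * (Aof x ^ 2 * (3 - Aof x) / (Aof x + 1)) =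
      x * (psi (Aof x) * (Aof x ^ 2 * (3 - Aof x) / (Aof x + 1))) := by
    rw [hA3]
    ring
  rw [e]
  unfold psi
  field_simp
  ring

theorem z_rec {x : ℝ} (h0 : 0 ≤ x) (h1 : x ≤ lamc) (p : ℕ) : zf (p + 1) x = zf (p + 2) x +
    ∑ i ∈ Finset.range p, zf i x * zf (p - 1 - i) x := by
  have hp : ∀ i, HasSum (fun s => ∑ t ∈ Finset.range (s + 1),
      (zc i t * x ^ t) * (zc (p - 1 - i) (s - t) * x ^ (s - t))) (zf i x * zf (p - 1 - i) x) := by
    intro i
    exact hasSum_sum_range_mul_of_summable_norm (z_sum h0 h1 i).norm (z_sum h0 h1 (p - 1 - i)).norm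
  have h2 := hasSum_sum (s := Finset.range p) fun i _ => hp i
  have h3 := (z_sum h0 h1 (p + 2)).hasSum.add h2
  have h4 : HasSum (fun s => zc (p + 1) s * x ^ s) (zf (p + 2) x +
    ∑ i ∈ Finset.range p, zf i x * zf (p - 1 - i) x) := by
    refine h3.congr_fun fun s => ?_
    rw [zc_rec p s, add_mul, Finset.sum_mul]
    congr 1
    refine Finset.sum_congr rfl fun i _ => ?_
    rw [Finset.sum_mul]
    refine Finset.sum_congr rfl fun t ht => ?_
    rw [Finset.mem_range] at ht
    have e : x ^ s = x ^ t * x ^ (s - t) := by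
      rw [← pow_add]
      congr 1
      omega
    rw [e]
    ring
  exact (z_sum h0 h1 (p + 1)).hasSum.unique h4

theorem z_le {x : ℝ} (h0 : 0 ≤ x) (h1 : x ≤ lamc) (p : ℕ) : zf (p + 1) x ≤ zf 1 x := by
  unfold zf
  exact (z_sum h0 h1 (p + 1)).tsum_le_tsum (fun s =>
    mul_le_mul_of_nonneg_right (zc_le_one p s) (by positivity)) (z_sum h0 h1 1)

theorem two_eq_C : (2 : PowerSeries ℝ) = PowerSeries.C 2 := by
  rw [show (2 : ℝ) = ((2 : ℕ) : ℝ) by norm_num, map_natCast]
  norm_num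

theorem Z_quad {x : ℝ} (h0 : 0 ≤ x) (h1 : x ≤ lamc) :
    PowerSeries.X ^ 3 * (PowerSeries.mk fun p => zf p x) ^ 2 +
      (1 - PowerSeries.X) * (PowerSeries.mk fun p => zf p x) =
    PowerSeries.C x * (1 - PowerSeries.X) + PowerSeries.C (zf 1 x) * PowerSeries.X := by
  set Z : PowerSeries ℝ := PowerSeries.mk fun p => zf p x with hZ
  have e : PowerSeries.X ^ 3 * Z ^ 2 + (1 - PowerSeries.X) * Z =
      PowerSeries.X * (PowerSeries.X * (PowerSeries.X * (Z * Z))) + Z - PowerSeries.X * Z := by ring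
  have e2 : PowerSeries.C x * (1 - PowerSeries.X) + PowerSeries.C (zf 1 x) * PowerSeries.X =
      PowerSeries.C x - PowerSeries.X * PowerSeries.C x +
        PowerSeries.X * PowerSeries.C (zf 1 x) := by ring
  rw [e, e2]
  have g : ∀ f : PowerSeries ℝ, PowerSeries.coeff 1 (PowerSeries.X * f) = PowerSeries.coeff 0 f :=
    fun f => PowerSeries.coeff_succ_X_mul 0 f
  have g2 : ∀ f : PowerSeries ℝ, PowerSeries.coeff 2 (PowerSeries.X * f) = PowerSeries.coeff 1 f :=
    fun f => PowerSeries.coeff_succ_X_mul 1 f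
  have g3 : ∀ (n : ℕ) (f : PowerSeries ℝ), PowerSeries.coeff (n + 3) (PowerSeries.X * f) =
      PowerSeries.coeff (n + 2) f := fun n f => PowerSeries.coeff_succ_X_mul (n + 2) f
  have g4 : ∀ (n : ℕ) (f : PowerSeries ℝ), PowerSeries.coeff (n + 2) (PowerSeries.X * f) =
      PowerSeries.coeff (n + 1) f := fun n f => PowerSeries.coeff_succ_X_mul (n + 1) f
  have g5 : ∀ (n : ℕ) (f : PowerSeries ℝ), PowerSeries.coeff (n + 1) (PowerSeries.X * f) =
      PowerSeries.coeff n f := fun n f => PowerSeries.coeff_succ_X_mul n f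
  ext n
  match n with
  | 0 =>
    simp only [map_add, map_sub, PowerSeries.coeff_zero_X_mul, PowerSeries.coeff_C]
    rw [hZ, PowerSeries.coeff_mk, z_zero]
    simp
  | 1 =>
    simp only [map_add, map_sub, g, PowerSeries.coeff_zero_X_mul, PowerSeries.coeff_C]
    rw [hZ, PowerSeries.coeff_mk, PowerSeries.coeff_mk, z_zero]
    simp
    ring
  | 2 =>
    simp only [map_add, map_sub, g, g2, PowerSeries.coeff_zero_X_mul, PowerSeries.coeff_C]
    rw [hZ, PowerSeries.coeff_mk, PowerSeries.coeff_mk]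
    have h := z_rec h0 h1 0
    simp only [Finset.range_zero, Finset.sum_empty, add_zero, zero_add] at h
    rw [h]
    simp
  | (n + 3) =>
    simp only [map_add, map_sub, g3, g4, g5, PowerSeries.coeff_C]
    rw [PowerSeries.coeff_mul, Finset.Nat.sum_antidiagonal_eq_sum_range_succ
      (fun i j => PowerSeries.coeff i Z * PowerSeries.coeff j Z)]
    rw [hZ]
    simp only [PowerSeries.coeff_mk]
    have h := z_rec h0 h1 (n + 1)
    rw [show n + 1 + 2 = n + 3 from rfl, show n + 1 + 1 = n + 2 from rfl] at h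
    rw [h]
    simp only [Nat.add_sub_cancel, Nat.succ_eq_add_one]
    rw [if_neg (by omega), if_neg (by omega), if_neg (by omega)]
    ring

theorem Sf_sq {x : ℝ} (h0 : 0 ≤ x) (h1 : x ≤ lamc) : Sf x ^ 2 =
    (1 - PowerSeries.X) ^ 2 + 4 * PowerSeries.X ^ 3 *
      (PowerSeries.C x * (1 - PowerSeries.X) + PowerSeries.C (zf 1 x) * PowerSeries.X) := by
  rw [← Z_quad h0 h1]
  unfold Sf
  ring

theorem Sf_const (x : ℝ) : PowerSeries.constantCoeff (Sf x) = 1 := by
  unfold Sf
  simp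

theorem q_01 (x : ℝ) : qf 0 x = 0 ∧ qf 1 x = 1 := by
  unfold qf
  constructor
  · rw [PowerSeries.coeff_zero_X_mul]
  · have : PowerSeries.coeff 1 (PowerSeries.X * (Sf x)⁻¹) = PowerSeries.coeff 0 ((Sf x)⁻¹) :=
      PowerSeries.coeff_succ_X_mul 0 _
    rw [this, PowerSeries.coeff_zero_eq_constantCoeff_apply, PowerSeries.constantCoeff_inv, Sf_const,
      inv_one]

theorem q_rec (x : ℝ) (p : ℕ) : qf (p + 1) x = qf (p + 2) x +
    2 * ∑ i ∈ Finset.range p, zf i x * qf (p - 1 - i) x := by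
  obtain ⟨Q, hQ⟩ : ∃ Q : PowerSeries ℝ, Q = PowerSeries.X * (Sf x)⁻¹ := ⟨_, rfl⟩
  obtain ⟨Z, hZ⟩ : ∃ Z : PowerSeries ℝ, Z = PowerSeries.mk fun p => zf p x := ⟨_, rfl⟩
  have hq : ∀ n, qf n x = PowerSeries.coeff n Q := fun n => by
    rw [hQ]
    rfl
  have e : Q * Sf x = PowerSeries.X := by
    rw [hQ, mul_assoc, PowerSeries.inv_mul_cancel _ (by rw [Sf_const]; norm_num), mul_one]
  have e2 : Q = PowerSeries.X + PowerSeries.X * Q - PowerSeries.X * (PowerSeries.X *
      (PowerSeries.X * (PowerSeries.C 2 * (Z * Q)))) := by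
    rw [← two_eq_C]
    have e3 : Q * Sf x = Q - PowerSeries.X * Q + PowerSeries.X * (PowerSeries.X *
      (PowerSeries.X * (2 * (Z * Q)))) := by
      unfold Sf
      rw [← hZ]
      ring
    rw [e3] at e
    have e4 : Q = (Q - PowerSeries.X * Q + PowerSeries.X * (PowerSeries.X *
      (PowerSeries.X * (2 * (Z * Q))))) + PowerSeries.X * Q - PowerSeries.X * (PowerSeries.X *
      (PowerSeries.X * (2 * (Z * Q)))) := by ring
    rw [e] at e4
    exact e4
  have h := congrArg (PowerSeries.coeff (p + 2)) e2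
  have g3 : ∀ (n : ℕ) (f : PowerSeries ℝ), PowerSeries.coeff (n + 3) (PowerSeries.X * f) =
      PowerSeries.coeff (n + 2) f := fun n f => PowerSeries.coeff_succ_X_mul (n + 2) f
  have g4 : ∀ (n : ℕ) (f : PowerSeries ℝ), PowerSeries.coeff (n + 2) (PowerSeries.X * f) =
      PowerSeries.coeff (n + 1) f := fun n f => PowerSeries.coeff_succ_X_mul (n + 1) f
  have g5 : ∀ (n : ℕ) (f : PowerSeries ℝ), PowerSeries.coeff (n + 1) (PowerSeries.X * f) =
      PowerSeries.coeff n f := fun n f => PowerSeries.coeff_succ_X_mul n f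
  rcases p with _ | p
  · simp only [map_add, map_sub, g4, g5, zero_add, PowerSeries.coeff_X] at h
    have g : ∀ f : PowerSeries ℝ, PowerSeries.coeff 2 (PowerSeries.X * f) = PowerSeries.coeff 1 f :=
      fun f => PowerSeries.coeff_succ_X_mul 1 f
    have g' : ∀ f : PowerSeries ℝ, PowerSeries.coeff 1 (PowerSeries.X * f) = PowerSeries.coeff 0 f :=
      fun f => PowerSeries.coeff_succ_X_mul 0 f
    rw [PowerSeries.coeff_zero_X_mul, if_neg (by norm_num)] at h
    rw [hq, hq, Finset.range_zero, Finset.sum_empty, zero_add, zero_add, h]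
    ring
  · rw [show p + 1 + 2 = p + 3 from rfl] at h ⊢
    simp only [map_add, map_sub, g3, g4, g5, PowerSeries.coeff_X, PowerSeries.coeff_C_mul] at h
    rw [if_neg (by omega), PowerSeries.coeff_mul, Finset.Nat.sum_antidiagonal_eq_sum_range_succ
      (fun i j => PowerSeries.coeff i Z * PowerSeries.coeff j Q)] at h
    simp only [hZ, PowerSeries.coeff_mk, ← hq, Nat.succ_eq_add_one] at h
    rw [show p + 1 + 1 = p + 2 from rfl, h, Nat.add_sub_cancel]
    ring

theorem z_cont (p : ℕ) : ContinuousOn (zf p) (Set.Icc 0 lamc) := by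
  unfold zf
  refine continuousOn_tsum (u := fun s : ℕ => zc p s * lamc ^ s) (fun i => ?_)
    (z_sum lamc_pos.1.le le_rfl p) (fun i x hx => ?_)
  · exact (continuous_const.mul (continuous_pow i)).continuousOn
  · have h1 := zc_nonneg p i
    have h2 : 0 ≤ x := hx.1
    rw [Real.norm_of_nonneg (by positivity)]
    exact mul_le_mul_of_nonneg_left (pow_le_pow_left₀ h2 hx.2 i) h1

theorem q_cont (p : ℕ) : ContinuousOn (qf p) (Set.Icc 0 lamc) := by
  induction p using Nat.strong_induction_on with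
  | _ p ih =>
    match p, ih with
    | 0, _ =>
      have : qf 0 = fun _ => 0 := funext fun x => (q_01 x).1
      rw [this]
      exact continuousOn_const
    | 1, _ =>
      have : qf 1 = fun _ => 1 := funext fun x => (q_01 x).2
      rw [this]
      exact continuousOn_const
    | p + 2, ih =>
      have : qf (p + 2) = fun x => qf (p + 1) x -
          2 * ∑ i ∈ Finset.range p, zf i x * qf (p - 1 - i) x := by
        funext x
        rw [q_rec x p]
        ring
      rw [this]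
      refine (ih (p + 1) (by omega)).sub (continuousOn_const.mul
        (continuousOn_finsetSum _ fun i _ => ?_))
      exact (z_cont i).mul (ih (p - 1 - i) (by omega))

end UN39
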