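import Mathlib
import Pool.Agent.H39.UN.HKd
import Pool.Agent.H39.UN.HKp
import Pool.Agent.H39.UN.PlA
import Pool.Agent.H39.UN.PlC
import Pool.Agent.H39.UN.PlD

/-!
[H39 UN PLEA]  (MP_bcc40c_pr)  Factorisation of the discriminant.

Fix `x ∈ [0, lamc]`, `A = Aof x`, `kap = (1 + A)/(2A)`, `w(y) = ((A-1)/A) y + ((A-1)(A+3)/(4A^2)) y^2`.

PROOFS.  fac: with `x = (A^2-1)/(8A^3)` (psi_A) and z_one (`zf 1 x = x (A-1)(3-A)/(8A)`) a polynomial identity in `y` over the field of rational functions in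
`A` (field_simp, ring).  fac_fs: the same identity for power series (compare the coefficients, or evaluate the polynomial identity).
kap_pos: `1 ≤ A ≤ √3`.  w_lt: `kap y < 1`; `w (1/kap) = 1 - ((3 - A^2)/(2A^2))/kap^2 ≤ 1` (check: `kap^2 - ((A-1)/A) kap - (A-1)(A+3)/(4A^2) = (3 - A^2)/(2A^2)`);
`w` is strictly increasing if `A > 1`, and `w = 0` if `A = 1`.
-/

set_option autoImplicit false

namespace UN39

noncomputable def kap (x : ℝ) : ℝ := (1 + Aof x) / (2 * Aof x)

noncomputable def wf (x y : ℝ) : ℝ :=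
  (Aof x - 1) / Aof x * y + (Aof x - 1) * (Aof x + 3) / (4 * Aof x ^ 2) * y ^ 2

theorem fac {x : ℝ} (h0 : 0 ≤ x) (h1 : x ≤ lamc) (y : ℝ) :
    (1 - y) ^ 2 + 4 * y ^ 3 * (x * (1 - y) + zf 1 x * y) = (1 - kap x * y) ^ 2 * (1 - wf x y) := by
  obtain ⟨hA1, _, hx⟩ := psi_A h0 h1
  rw [z_one h0 h1]
  unfold kap wf
  set A := Aof x with hA
  have hA0 : A ≠ 0 := by
    intro h
    linarith
  have hx' : x = (A ^ 2 - 1) / (8 * A ^ 3) := by
    rw [← hx]
    rfl
  rw [hx']
  field_simp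
  ring

theorem fac_fs {x : ℝ} (h0 : 0 ≤ x) (h1 : x ≤ lamc) :
    (1 - PowerSeries.X) ^ 2 + 4 * PowerSeries.X ^ 3 *
      (PowerSeries.C x * (1 - PowerSeries.X) + PowerSeries.C (zf 1 x) * PowerSeries.X) =
    (1 - PowerSeries.C (kap x) * PowerSeries.X) ^ 2 *
      (1 - PowerSeries.C ((Aof x - 1) / Aof x) * PowerSeries.X -
        PowerSeries.C ((Aof x - 1) * (Aof x + 3) / (4 * Aof x ^ 2)) * PowerSeries.X ^ 2) := by
  have h2 : ((1 - Polynomial.X) ^ 2 + 4 * Polynomial.X ^ 3 *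
      (Polynomial.C x * (1 - Polynomial.X) + Polynomial.C (zf 1 x) * Polynomial.X) :
        Polynomial ℝ) =
    (1 - Polynomial.C (kap x) * Polynomial.X) ^ 2 *
      (1 - Polynomial.C ((Aof x - 1) / Aof x) * Polynomial.X -
        Polynomial.C ((Aof x - 1) * (Aof x + 3) / (4 * Aof x ^ 2)) * Polynomial.X ^ 2) := by
    refine Polynomial.funext fun y => ?_
    have h3 := fac h0 h1 y
    unfold wf at h3
    simp only [Polynomial.eval_add, Polynomial.eval_sub, Polynomial.eval_mul, Polynomial.eval_pow,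
      Polynomial.eval_X, Polynomial.eval_C, Polynomial.eval_one, Polynomial.eval_ofNat]
    rw [h3]
    ring
  have h4 := congrArg (fun p : Polynomial ℝ => (p : PowerSeries ℝ)) h2
  simp only [Polynomial.coe_add, Polynomial.coe_sub, Polynomial.coe_mul, Polynomial.coe_pow,
    Polynomial.coe_X, Polynomial.coe_C, Polynomial.coe_one] at h4
  have h5 : ((4 : Polynomial ℝ) : PowerSeries ℝ) = 4 := by
    have : (4 : Polynomial ℝ) = Polynomial.C 4 := rfl
    rw [this, Polynomial.coe_C]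
    rfl
  rw [h5] at h4
  exact h4

theorem kap_pos {x : ℝ} (h0 : 0 ≤ x) (h1 : x ≤ lamc) : 1 / 2 < kap x ∧ kap x ≤ 1 := by
  obtain ⟨hA1, _, _⟩ := psi_A h0 h1
  unfold kap
  constructor
  · rw [div_lt_div_iff₀ (by norm_num) (by linarith)]
    linarith
  · rw [div_le_one (by linarith)]
    linarith

theorem w_lt {x y : ℝ} (h0 : 0 ≤ x) (h1 : x ≤ lamc) (hy : 0 ≤ y) (hk : kap x * y < 1) :
    0 ≤ wf x y ∧ wf x y < 1 := by
  obtain ⟨hA1, hA3, _⟩ := psi_A h0 h1
  unfold kap at hk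
  unfold wf
  set A := Aof x with hA
  have hA0 : 0 < A := by linarith
  have hA2 : A ^ 2 ≤ 3 := by
    have h := pow_le_pow_left₀ (by linarith) hA3 2
    rwa [Real.sq_sqrt (by norm_num)] at h
  have hk' : (1 + A) * y < 2 * A := by
    rw [div_mul_eq_mul_div, div_lt_one (by linarith)] at hk
    exact hk
  have h2 : 0 ≤ (A - 1) / A := div_nonneg (by linarith) (by linarith)
  have h3 : 0 ≤ (A - 1) * (A + 3) / (4 * A ^ 2) :=
    div_nonneg (mul_nonneg (by linarith) (by linarith)) (by positivity)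
  refine ⟨add_nonneg (mul_nonneg h2 hy) (mul_nonneg h3 (by positivity)), ?_⟩
  have h4 : (A - 1) / A * y + (A - 1) * (A + 3) / (4 * A ^ 2) * y ^ 2 =
      ((A - 1) * (4 * A * y + (A + 3) * y ^ 2)) / (4 * A ^ 2) := by
    field_simp
  rw [h4, div_lt_one (by positivity)]
  rcases eq_or_lt_of_le hA1 with h | h
  · rw [← h]
    norm_num
  · have h5 : y < 2 * A / (1 + A) := by
      rw [lt_div_iff₀ (by linarith)]
      linarith
    have h6 : 4 * A * y + (A + 3) * y ^ 2 <
        4 * A * (2 * A / (1 + A)) + (A + 3) * (2 * A / (1 + A)) ^ 2 := by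
      have h7 : y ^ 2 ≤ (2 * A / (1 + A)) ^ 2 := pow_le_pow_left₀ hy h5.le 2
      have h8 := mul_lt_mul_of_pos_left h5 (show 0 < 4 * A by linarith)
      have h9 := mul_le_mul_of_nonneg_left h7 (show 0 ≤ A + 3 by linarith)
      linarith
    have h7 := mul_lt_mul_of_pos_left h6 (show 0 < A - 1 by linarith)
    refine lt_of_lt_of_le h7 ?_
    have h8 : (A - 1) * (4 * A * (2 * A / (1 + A)) + (A + 3) * (2 * A / (1 + A)) ^ 2) =
        4 * A ^ 2 * ((A - 1) * (2 * (1 + A) + (A + 3)) / (1 + A) ^ 2) := by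
      field_simp
      ring
    rw [h8]
    refine mul_le_of_le_one_right (by positivity) ?_
    rw [div_le_one (by positivity)]
    nlinarith

end UN39
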