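import Mathlib

/-!
[H39 UN PLEB]  (MP_bcc40c_pr)  The inverse square root of `1 - a y - b y^2`, `a, b ≥ 0`, as a power series.  Mathlib only.

PROOFS.  Define `T` by `T_0 = 1`, `2 (n+1) T_(n+1) = (2n+1) a T_n + 2 n b T_(n-1)` (from `2 T' (1 - w) = w' T`, `w = a y + b y^2`: coefficient of `y^n`:
`2 (n+1) T_(n+1) - 2 a n T_n - 2 b (n-1) T_(n-1) = a T_n + 2 b T_(n-1)`, so `2 (n+1) T_(n+1) = (2n+1) a T_n + 2 n b T_(n-1)`; for `n = 0` the last term is 0).
All `T_n ≥ 0`.  The derivative of `T^2 (1 - w)` is `T (2 T' (1-w) - w' T) = 0` and its constant coefficient is 1, so `T^2 (1 - w) = 1` (isq_ex).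
isq_sum: for `0 ≤ y`, `w y < 1`: `T^2 = (1 - w)⁻¹ = ∑ w^j` has nonnegative coefficients with sum `∑_n (T^2)_n y^n = 1/(1 - w y)` (for instance: all partial sums of
`S = T^2` satisfy `S_N(y) (1 - w y) ≤ 1`, from `S = 1 + w S`: `S_(N+1)(y) ≤ 1 + w(y) S_N... `, so `S_N(y) ≤ 1/(1 - w y)`).  The square of the truncation `T_N` has
coefficients at most those of `T^2`, so `(T_N y)^2 ≤ 1/(1 - w y)`: `T` is summable at `y`, and by the Cauchy product `(∑ T_n y^n)^2 = ∑ S_n y^n = 1/(1 - w y)`.
-/

set_option autoImplicit false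

namespace UN39

section isq

/-- coefficients of the inverse square root -/
noncomputable def isqT (a b : ℝ) : ℕ → ℝ
  | 0 => 1
  | 1 => a / 2
  | (n + 2) => ((2 * ((n : ℝ) + 1) + 1) * a * isqT a b (n + 1) + 2 * ((n : ℝ) + 1) * b * isqT a b n) /
      (2 * ((n : ℝ) + 2))

theorem isqT_nonneg {a b : ℝ} (ha : 0 ≤ a) (hb : 0 ≤ b) : ∀ n, 0 ≤ isqT a b n ∧ 0 ≤ isqT a b (n + 1) := by
  intro n
  induction n with
  | zero => exact ⟨by rw [isqT]; norm_num, by rw [isqT]; positivity⟩
  | succ n ih =>
    refine ⟨ih.2, ?_⟩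
    rw [isqT]
    have h1 := ih.1
    have h2 := ih.2
    positivity

theorem isqT_rec (a b : ℝ) (n : ℕ) : 2 * ((n : ℝ) + 2) * isqT a b (n + 2) =
    (2 * ((n : ℝ) + 1) + 1) * a * isqT a b (n + 1) + 2 * ((n : ℝ) + 1) * b * isqT a b n := by
  rw [isqT]
  have : (2 * ((n : ℝ) + 2)) ≠ 0 := by positivity
  field_simp

/-- the linear differential equation -/
theorem isq_ode (a b : ℝ) : 2 * PowerSeries.derivative ℝ (PowerSeries.mk (isqT a b)) =
    (PowerSeries.C a + 2 * PowerSeries.C b * PowerSeries.X) * PowerSeries.mk (isqT a b) +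
    2 * (PowerSeries.C a * PowerSeries.X + PowerSeries.C b * PowerSeries.X ^ 2) *
      PowerSeries.derivative ℝ (PowerSeries.mk (isqT a b)) := by
  have h2 : (2 : PowerSeries ℝ) = PowerSeries.C 2 := by
    rw [show (2 : ℝ) = ((2 : ℕ) : ℝ) by norm_num, map_natCast]
    norm_num
  set T := PowerSeries.mk (isqT a b) with hT
  set D := PowerSeries.derivative ℝ T with hD
  have e : (PowerSeries.C a + 2 * PowerSeries.C b * PowerSeries.X) * T +
      2 * (PowerSeries.C a * PowerSeries.X + PowerSeries.C b * PowerSeries.X ^ 2) * D =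
      PowerSeries.C a * T + PowerSeries.X * (PowerSeries.C 2 * (PowerSeries.C b * T)) +
      PowerSeries.X * (PowerSeries.C 2 * (PowerSeries.C a * D)) +
      PowerSeries.X * (PowerSeries.X * (PowerSeries.C 2 * (PowerSeries.C b * D))) := by
    rw [← h2]
    ring
  rw [e, h2]
  have hc : ∀ n, PowerSeries.coeff n D = isqT a b (n + 1) * ((n : ℝ) + 1) := by
    intro n
    rw [hD, PowerSeries.coeff_derivative, hT, PowerSeries.coeff_mk]
  ext n
  match n with
  | 0 =>
    simp only [map_add, PowerSeries.coeff_C_mul, PowerSeries.coeff_zero_X_mul, hc]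
    rw [hT, PowerSeries.coeff_mk]
    simp only [isqT]
    push_cast
    ring
  | 1 =>
    have g : ∀ f : PowerSeries ℝ, PowerSeries.coeff 1 (PowerSeries.X * f) = PowerSeries.coeff 0 f :=
      fun f => PowerSeries.coeff_succ_X_mul 0 f
    simp only [map_add, PowerSeries.coeff_C_mul, PowerSeries.coeff_zero_X_mul, hc, g]
    rw [hT, PowerSeries.coeff_mk, PowerSeries.coeff_mk]
    have h := isqT_rec a b 0
    push_cast at h ⊢
    simp only [zero_add] at h ⊢
    linarith
  | (n + 2) =>
    simp only [map_add, PowerSeries.coeff_C_mul, hc, show n + 2 = n + 1 + 1 from rfl,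
      PowerSeries.coeff_succ_X_mul]
    rw [hT, PowerSeries.coeff_mk, PowerSeries.coeff_mk]
    have h := isqT_rec a b (n + 1)
    push_cast at h ⊢
    have e1 : n + 1 + 2 = n + 1 + 1 + 1 := rfl
    rw [e1] at h
    linarith

theorem isq_coeffs {T : PowerSeries ℝ} {a b : ℝ}
    (hT : T ^ 2 * (1 - PowerSeries.C a * PowerSeries.X - PowerSeries.C b * PowerSeries.X ^ 2) = 1) :
    PowerSeries.coeff 0 (T ^ 2) = 1 ∧
    PowerSeries.coeff 1 (T ^ 2) = a * PowerSeries.coeff 0 (T ^ 2) ∧
    ∀ n, PowerSeries.coeff (n + 2) (T ^ 2) =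
      a * PowerSeries.coeff (n + 1) (T ^ 2) + b * PowerSeries.coeff n (T ^ 2) := by
  have e : T ^ 2 = 1 + PowerSeries.X * (PowerSeries.C a * T ^ 2) +
      PowerSeries.X * (PowerSeries.X * (PowerSeries.C b * T ^ 2)) := by
    have h : T ^ 2 * (1 - PowerSeries.C a * PowerSeries.X - PowerSeries.C b * PowerSeries.X ^ 2) =
      T ^ 2 - PowerSeries.X * (PowerSeries.C a * T ^ 2) -
      PowerSeries.X * (PowerSeries.X * (PowerSeries.C b * T ^ 2)) := by ring
    rw [h] at hT
    rw [← hT]
    ring
  set S := T ^ 2 with hS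
  refine ⟨?_, ?_, ?_⟩
  · have h := congrArg (PowerSeries.coeff 0) e
    simpa only [map_add, PowerSeries.coeff_zero_X_mul, add_zero, PowerSeries.coeff_zero_one] using h
  · have h := congrArg (PowerSeries.coeff (0 + 1)) e
    simp only [map_add, PowerSeries.coeff_succ_X_mul, PowerSeries.coeff_zero_X_mul,
      PowerSeries.coeff_C_mul, PowerSeries.coeff_one] at h
    simpa using h
  · intro n
    have h := congrArg (PowerSeries.coeff (n + 1 + 1)) e
    simp only [map_add, PowerSeries.coeff_succ_X_mul,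
      PowerSeries.coeff_C_mul, PowerSeries.coeff_one] at h
    simpa using h

end isq

theorem isq_ex {a b : ℝ} (ha : 0 ≤ a) (hb : 0 ≤ b) : ∃ T : PowerSeries ℝ,
    PowerSeries.constantCoeff T = 1 ∧ (∀ n, 0 ≤ PowerSeries.coeff n T) ∧
    T ^ 2 * (1 - PowerSeries.C a * PowerSeries.X - PowerSeries.C b * PowerSeries.X ^ 2) = 1 := by
  refine ⟨PowerSeries.mk (isqT a b), ?_, ?_, ?_⟩
  · rw [← PowerSeries.coeff_zero_eq_constantCoeff_apply, PowerSeries.coeff_mk, isqT]
  · intro n
    rw [PowerSeries.coeff_mk]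
    exact (isqT_nonneg ha hb n).1
  · apply PowerSeries.derivative.ext
    · have h := isq_ode a b
      set T := PowerSeries.mk (isqT a b) with hT
      set D := PowerSeries.derivative ℝ T with hD
      have e : PowerSeries.derivative ℝ (T ^ 2 *
          (1 - PowerSeries.C a * PowerSeries.X - PowerSeries.C b * PowerSeries.X ^ 2)) =
          T * (2 * D - ((PowerSeries.C a + 2 * PowerSeries.C b * PowerSeries.X) * T +
            2 * (PowerSeries.C a * PowerSeries.X + PowerSeries.C b * PowerSeries.X ^ 2) * D)) := by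
        rw [Derivation.leibniz, Derivation.leibniz_pow, map_sub, map_sub, Derivation.map_one_eq_zero,
          Derivation.leibniz, Derivation.leibniz, Derivation.leibniz_pow,
          PowerSeries.derivative_C, PowerSeries.derivative_C, PowerSeries.derivative_X, ← hD]
        simp only [smul_eq_mul, nsmul_eq_mul]
        push_cast
        ring
      rw [e, ← h, sub_self, mul_zero, Derivation.map_one_eq_zero]
    · rw [map_mul, map_pow, map_sub, map_sub, map_mul, map_mul, map_pow, PowerSeries.constantCoeff_X,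
        ← PowerSeries.coeff_zero_eq_constantCoeff_apply, PowerSeries.coeff_mk, isqT, map_one]
      norm_num

theorem isq_sum {a b : ℝ} (ha : 0 ≤ a) (hb : 0 ≤ b) {T : PowerSeries ℝ}
    (h0 : ∀ n, 0 ≤ PowerSeries.coeff n T) (hc : PowerSeries.constantCoeff T = 1)
    (hT : T ^ 2 * (1 - PowerSeries.C a * PowerSeries.X - PowerSeries.C b * PowerSeries.X ^ 2) = 1)
    {y : ℝ} (hy : 0 ≤ y) (hw : a * y + b * y ^ 2 < 1) :
    HasSum (fun n => PowerSeries.coeff n T * y ^ n) (1 / Real.sqrt (1 - (a * y + b * y ^ 2))) := by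
  obtain ⟨c0, c1, c2⟩ := isq_coeffs hT
  set s : ℕ → ℝ := fun n => PowerSeries.coeff n (T ^ 2) with hs
  have c0' : s 0 = 1 := c0
  have c1' : s 1 = a * s 0 := c1
  have c2' : ∀ n, s (n + 2) = a * s (n + 1) + b * s n := c2
  have s0 : ∀ n, 0 ≤ s n := by
    intro n
    have : ∀ n, 0 ≤ s n ∧ 0 ≤ s (n + 1) := by
      intro n
      induction n with
      | zero => exact ⟨by rw [c0']; norm_num, by rw [zero_add, c1', c0']; positivity⟩
      | succ n ih =>
        refine ⟨ih.2, ?_⟩
        rw [c2']
        have h1 := ih.1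
        have h2 := ih.2
        positivity
    exact (this n).1
  -- partial sums
  have ps : ∀ N, (∑ n ∈ Finset.range (N + 2), s n * y ^ n) * (1 - (a * y + b * y ^ 2)) =
      1 - a * s (N + 1) * y ^ (N + 2) - b * s (N + 1) * y ^ (N + 3) - b * s N * y ^ (N + 2) := by
    intro N
    induction N with
    | zero =>
      rw [Finset.sum_range_succ, Finset.sum_range_succ, Finset.sum_range_zero, zero_add, c1', c0']
      ring
    | succ N ih =>
      rw [show N + 1 + 2 = (N + 2) + 1 from rfl, Finset.sum_range_succ, add_mul, ih, c2' N]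
      ring
  have h1w : 0 < 1 - (a * y + b * y ^ 2) := by linarith
  have bd : ∀ N, ∑ n ∈ Finset.range N, s n * y ^ n ≤ 1 / (1 - (a * y + b * y ^ 2)) := by
    intro N
    have h1 : ∑ n ∈ Finset.range N, s n * y ^ n ≤ ∑ n ∈ Finset.range (N + 2), s n * y ^ n := by
      apply Finset.sum_le_sum_of_subset_of_nonneg
      · exact Finset.range_mono (by omega)
      · intro i _ _
        have := s0 i
        positivity
    refine le_trans h1 ?_
    rw [le_div_iff₀ h1w, ps]
    have h2 := s0 N
    have h3 := s0 (N + 1)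
    have h4 : 0 ≤ a * s (N + 1) * y ^ (N + 2) := by positivity
    have h5 : 0 ≤ b * s (N + 1) * y ^ (N + 3) := by positivity
    have h6 : 0 ≤ b * s N * y ^ (N + 2) := by positivity
    linarith
  have sums : Summable fun n => s n * y ^ n := by
    apply summable_of_sum_range_le (c := 1 / (1 - (a * y + b * y ^ 2)))
    · intro n
      have := s0 n
      positivity
    · exact bd
  have tds : ∑' n, s n * y ^ n = 1 / (1 - (a * y + b * y ^ 2)) := by
    have t1 := (sums.hasSum.tendsto_sum_nat).comp (Filter.tendsto_add_atTop_nat 2)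
    have t2 := t1.mul_const (1 - (a * y + b * y ^ 2))
    have z := sums.tendsto_atTop_zero
    have t3 : Filter.Tendsto (fun N => 1 - a * s (N + 1) * y ^ (N + 2) - b * s (N + 1) * y ^ (N + 3) -
        b * s N * y ^ (N + 2)) Filter.atTop (nhds (1 - a * y * 0 - b * y ^ 2 * 0 - b * y ^ 2 * 0)) := by
      have z1 := z.comp (Filter.tendsto_add_atTop_nat 1)
      have := ((tendsto_const_nhds (x := (1 : ℝ))).sub (z1.const_mul (a * y))).sub
        (z1.const_mul (b * y ^ 2)) |>.sub (z.const_mul (b * y ^ 2))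
      refine this.congr fun N => ?_
      simp only [Function.comp]
      ring
    have t4 : Filter.Tendsto (fun N => 1 - a * s (N + 1) * y ^ (N + 2) - b * s (N + 1) * y ^ (N + 3) -
        b * s N * y ^ (N + 2)) Filter.atTop (nhds ((∑' n, s n * y ^ n) * (1 - (a * y + b * y ^ 2)))) := by
      refine t2.congr fun N => ?_
      simp only [Function.comp]
      exact ps N
    have t5 := tendsto_nhds_unique t4 t3
    rw [eq_div_iff h1w.ne', t5]
    ring
  have ht : ∀ n, PowerSeries.coeff n T ≤ s n := by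
    intro n
    have e : s n = ∑ p ∈ Finset.HasAntidiagonal.antidiagonal n,
        PowerSeries.coeff p.1 T * PowerSeries.coeff p.2 T := by
      rw [hs]
      simp only []
      rw [sq, PowerSeries.coeff_mul]
    rw [e]
    have h1 := Finset.single_le_sum (f := fun p : ℕ × ℕ => PowerSeries.coeff p.1 T * PowerSeries.coeff p.2 T)
      (s := Finset.HasAntidiagonal.antidiagonal n) (fun p _ => mul_nonneg (h0 _) (h0 _))
      (show ((0, n) : ℕ × ℕ) ∈ Finset.HasAntidiagonal.antidiagonal n by simp)
    refine le_trans ?_ h1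
    simp only []
    rw [PowerSeries.coeff_zero_eq_constantCoeff_apply, hc, one_mul]
  have sumt : Summable fun n => PowerSeries.coeff n T * y ^ n := by
    refine Summable.of_nonneg_of_le (fun n => ?_) (fun n => ?_) sums
    · have := h0 n
      positivity
    · exact mul_le_mul_of_nonneg_right (ht n) (by positivity)
  have sq : (∑' n, PowerSeries.coeff n T * y ^ n) * (∑' n, PowerSeries.coeff n T * y ^ n) =
      ∑' n, s n * y ^ n := by
    have hn : Summable fun n => ‖PowerSeries.coeff n T * y ^ n‖ := sumt.norm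
    rw [tsum_mul_tsum_eq_tsum_sum_antidiagonal_of_summable_norm hn hn]
    refine tsum_congr fun n => ?_
    have e : s n = ∑ p ∈ Finset.HasAntidiagonal.antidiagonal n,
        PowerSeries.coeff p.1 T * PowerSeries.coeff p.2 T := by
      rw [hs]
      simp only []
      rw [pow_two, PowerSeries.coeff_mul]
    rw [e, Finset.sum_mul]
    refine Finset.sum_congr rfl fun p hp => ?_
    rw [← Finset.HasAntidiagonal.mem_antidiagonal.1 hp, pow_add]
    ring
  rw [tds] at sq
  have pos : 0 ≤ ∑' n, PowerSeries.coeff n T * y ^ n := tsum_nonneg fun n => by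
    have := h0 n
    positivity
  have fin : ∑' n, PowerSeries.coeff n T * y ^ n = 1 / Real.sqrt (1 - (a * y + b * y ^ 2)) := by
    have h1 : 0 < Real.sqrt (1 - (a * y + b * y ^ 2)) := Real.sqrt_pos.2 h1w
    have h2 : (∑' n, PowerSeries.coeff n T * y ^ n) ^ 2 =
        (1 / Real.sqrt (1 - (a * y + b * y ^ 2))) ^ 2 := by
      rw [div_pow, one_pow, Real.sq_sqrt h1w.le, pow_two, sq]
    exact (pow_left_inj₀ pos (by positivity) (by norm_num)).1 h2
  rw [← fin]
  exact sumt.hasSum

end UN39
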