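import Mathlib
import Pool.Agent.H39.UN.HKd
import Pool.Agent.H39.UN.HKp
import Pool.Agent.H39.UN.PlA
import Pool.Agent.H39.UN.PlC
import Pool.Agent.H39.UN.PlD
import Pool.Agent.H39.UN.PlEa
import Pool.Agent.H39.UN.PlEb

/-!
[H39 UN PLE]  (MP_bcc40c_pr)  Real values of the disk functions in the perimeter variable `y`.

PROOFS.  Let `T` be the series of isq_ex for `a = (A-1)/A`, `b = (A-1)(A+3)/(4A^2)` (`wf x y = a y + b y^2`).
`Sf x = (1 - kap y)(1 - a y - b y^2) T`: both sides have constant coefficient 1 and the same square (Sf_sq, fac_fs), and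
`(S - S')(S + S') = 0` in the domain `ℝ⟦y⟧`, `S + S' ≠ 0`.  Hence `(Sf x)⁻¹ = (1 - kap y)⁻¹ T`, so
`qf p x = ∑_{i < p} kap^i T_(p-1-i) ≥ 0` (q_nonneg).
q_sum: `∑ qf p x y^p = y/((1 - kap y) √(1 - w y))` for `0 ≤ y < 1/kap` (Cauchy product of `T`, isq_sum, with the geometric series; w_lt).
zy_sum: `2 y^3 Z = Sf - 1 + y`, `Sf = (1 - kap y)(1 - a y - b y^2)T` is absolutely summable at `y` with the value `(1 - kap y) (1 - w) /√(1 - w)`; so
`∑ zf p x y^p` is summable (for `y > 0`: terms nonnegative, `zf p x y^(p+3)` are the coefficients of `(Sf - 1 + X)/2`; for `y = 0` trivial) and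
`2 y^3 ∑ zf p x y^p = (1 - kap y) √(1 - w y) - 1 + y`.
-/

set_option autoImplicit false

namespace UN39

section ev

/-- absolutely convergent evaluation of a power series -/
def EvAt (F : PowerSeries ℝ) (x a : ℝ) : Prop :=
  (Summable fun n => ‖PowerSeries.coeff n F * x ^ n‖) ∧ HasSum (fun n => PowerSeries.coeff n F * x ^ n) a

theorem SumAt.ev {F : PowerSeries ℝ} {x a : ℝ} (h : SumAt F x a) : EvAt F x a :=
  ⟨h.2.summable.norm, h.2⟩

theorem EvAt.add {F G : PowerSeries ℝ} {x a b : ℝ} (hF : EvAt F x a) (hG : EvAt G x b) :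
    EvAt (F + G) x (a + b) := by
  have h : HasSum (fun n => PowerSeries.coeff n (F + G) * x ^ n) (a + b) := by
    refine (hF.2.add hG.2).congr_fun fun n => ?_
    rw [map_add, add_mul]
  exact ⟨h.summable.norm, h⟩

theorem EvAt.sub {F G : PowerSeries ℝ} {x a b : ℝ} (hF : EvAt F x a) (hG : EvAt G x b) :
    EvAt (F - G) x (a - b) := by
  have h : HasSum (fun n => PowerSeries.coeff n (F - G) * x ^ n) (a - b) := by
    refine (hF.2.sub hG.2).congr_fun fun n => ?_
    rw [map_sub, sub_mul]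
  exact ⟨h.summable.norm, h⟩

theorem EvAt.mul {F G : PowerSeries ℝ} {x a b : ℝ} (hF : EvAt F x a) (hG : EvAt G x b) :
    EvAt (F * G) x (a * b) := by
  have e : ∀ n, PowerSeries.coeff n (F * G) * x ^ n = ∑ p ∈ Finset.HasAntidiagonal.antidiagonal n,
      (PowerSeries.coeff p.1 F * x ^ p.1) * (PowerSeries.coeff p.2 G * x ^ p.2) := by
    intro n
    rw [PowerSeries.coeff_mul, Finset.sum_mul]
    refine Finset.sum_congr rfl fun p hp => ?_
    rw [← Finset.HasAntidiagonal.mem_antidiagonal.1 hp, pow_add]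
    ring
  have h : HasSum (fun n => PowerSeries.coeff n (F * G) * x ^ n) (a * b) := by
    have h1 := tsum_mul_tsum_eq_tsum_sum_antidiagonal_of_summable_norm hF.1 hG.1
    have h2 := (summable_norm_sum_mul_antidiagonal_of_summable_norm hF.1 hG.1).of_norm
    rw [hF.2.tsum_eq, hG.2.tsum_eq] at h1
    rw [h1]
    exact h2.hasSum.congr_fun fun n => e n
  exact ⟨h.summable.norm, h⟩

theorem EvAt.C (c x : ℝ) : EvAt (PowerSeries.C c) x c := by
  have h : HasSum (fun n => PowerSeries.coeff n (PowerSeries.C c) * x ^ n) c := by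
    have := hasSum_single (f := fun n => PowerSeries.coeff n (PowerSeries.C c) * x ^ n) 0
      (fun n hn => by rw [PowerSeries.coeff_C, if_neg hn, zero_mul])
    simpa using this
  exact ⟨h.summable.norm, h⟩

theorem SumAt.geom {k y : ℝ} (hk : 0 ≤ k) (hy : 0 ≤ y) (h : k * y < 1) :
    SumAt (PowerSeries.mk fun n => k ^ n) y (1 / (1 - k * y)) := by
  refine ⟨fun n => ?_, ?_⟩
  · rw [PowerSeries.coeff_mk]
    positivity
  · have := hasSum_geometric_of_lt_one (mul_nonneg hk hy) h
    rw [one_div]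
    refine this.congr_fun fun n => ?_
    rw [PowerSeries.coeff_mk, mul_pow]

theorem geom_mul (k : ℝ) : (PowerSeries.mk fun n => k ^ n) * (1 - PowerSeries.C k * PowerSeries.X) = 1 := by
  have e : (PowerSeries.mk fun n => k ^ n) * (1 - PowerSeries.C k * PowerSeries.X) =
      (PowerSeries.mk fun n => k ^ n) - PowerSeries.X * (PowerSeries.C k * PowerSeries.mk fun n => k ^ n) := by
    ring
  rw [e]
  ext n
  rcases n with _ | n
  · rw [map_sub, PowerSeries.coeff_zero_X_mul, PowerSeries.coeff_mk]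
    simp
  · rw [map_sub, PowerSeries.coeff_succ_X_mul, PowerSeries.coeff_C_mul, PowerSeries.coeff_mk,
      PowerSeries.coeff_mk, PowerSeries.coeff_one, if_neg (Nat.succ_ne_zero n), pow_succ]
    ring

end ev

/-- the square root of the discriminant -/
theorem Sf_fac {x : ℝ} (h0 : 0 ≤ x) (h1 : x ≤ lamc) : ∃ T : PowerSeries ℝ,
    (∀ y, 0 ≤ y → kap x * y < 1 → SumAt T y (1 / Real.sqrt (1 - wf x y))) ∧
    Sf x = (1 - PowerSeries.C (kap x) * PowerSeries.X) *
      ((1 - PowerSeries.C ((Aof x - 1) / Aof x) * PowerSeries.X -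
        PowerSeries.C ((Aof x - 1) * (Aof x + 3) / (4 * Aof x ^ 2)) * PowerSeries.X ^ 2) * T) ∧
    (Sf x)⁻¹ = T * PowerSeries.mk fun n => kap x ^ n := by
  obtain ⟨hA1, hA2, hA3⟩ := psi_A h0 h1
  have hA0 : 0 < Aof x := by linarith
  have ha : 0 ≤ (Aof x - 1) / Aof x := div_nonneg (by linarith) hA0.le
  have hb : 0 ≤ (Aof x - 1) * (Aof x + 3) / (4 * Aof x ^ 2) :=
    div_nonneg (mul_nonneg (by linarith) (by linarith)) (by positivity)
  obtain ⟨T, t1, t2, t3⟩ := isq_ex ha hb
  set W : PowerSeries ℝ := 1 - PowerSeries.C ((Aof x - 1) / Aof x) * PowerSeries.X -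
        PowerSeries.C ((Aof x - 1) * (Aof x + 3) / (4 * Aof x ^ 2)) * PowerSeries.X ^ 2 with hW
  have hWc : PowerSeries.constantCoeff W = 1 := by
    rw [hW]
    simp
  have hS : Sf x = (1 - PowerSeries.C (kap x) * PowerSeries.X) * (W * T) := by
    have h2 : Sf x ^ 2 = ((1 - PowerSeries.C (kap x) * PowerSeries.X) * (W * T)) ^ 2 := by
      rw [Sf_sq h0 h1, fac_fs h0 h1, ← hW]
      have : ((1 - PowerSeries.C (kap x) * PowerSeries.X) * (W * T)) ^ 2 =
        (1 - PowerSeries.C (kap x) * PowerSeries.X) ^ 2 * W * (T ^ 2 * W) := by ring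
      rw [this, t3, mul_one]
    rcases sq_eq_sq_iff_eq_or_eq_neg.1 h2 with h3 | h3
    · exact h3
    · exfalso
      have h4 := congrArg PowerSeries.constantCoeff h3
      rw [Sf_const, map_neg, map_mul, map_mul, hWc, t1] at h4
      simp at h4
      norm_num at h4
  refine ⟨T, ?_, hS, ?_⟩
  · intro y hy hk
    refine ⟨t2, ?_⟩
    have hw := (w_lt h0 h1 hy hk).2
    exact isq_sum ha hb t2 t1 t3 hy hw
  · rw [PowerSeries.inv_eq_iff_mul_eq_one (by rw [Sf_const]; norm_num)]
    rw [hS]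
    have h5 := geom_mul (kap x)
    calc (T * PowerSeries.mk fun n => kap x ^ n) *
          ((1 - PowerSeries.C (kap x) * PowerSeries.X) * (W * T))
        = (T ^ 2 * W) * ((PowerSeries.mk fun n => kap x ^ n) *
          (1 - PowerSeries.C (kap x) * PowerSeries.X)) := by ring
      _ = 1 := by rw [t3, h5, mul_one]

theorem Q_sumAt {x y : ℝ} (h0 : 0 ≤ x) (h1 : x ≤ lamc) (hy : 0 ≤ y) (hk : kap x * y < 1) :
    SumAt (PowerSeries.X * (Sf x)⁻¹) y (y / ((1 - kap x * y) * Real.sqrt (1 - wf x y))) := by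
  obtain ⟨T, t1, _, t3⟩ := Sf_fac h0 h1
  rw [t3]
  have hkp := kap_pos h0 h1
  have h2 := (SumAt.X (x := y)).mul hy ((t1 y hy hk).mul hy
    (SumAt.geom (by linarith : 0 ≤ kap x) hy hk))
  have e : y / ((1 - kap x * y) * Real.sqrt (1 - wf x y)) =
      y * (1 / Real.sqrt (1 - wf x y) * (1 / (1 - kap x * y))) := by
    rw [one_div, one_div, ← mul_inv, div_eq_mul_inv, mul_comm (1 - kap x * y)]
  rw [e]
  exact h2

theorem q_nonneg {x : ℝ} (h0 : 0 ≤ x) (h1 : x ≤ lamc) (p : ℕ) : 0 ≤ qf p x :=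
  (Q_sumAt h0 h1 le_rfl (by rw [mul_zero]; norm_num)).1 p

theorem q_sum {x y : ℝ} (h0 : 0 ≤ x) (h1 : x ≤ lamc) (hy : 0 ≤ y) (hk : kap x * y < 1) :
    HasSum (fun p => qf p x * y ^ p) (y / ((1 - kap x * y) * Real.sqrt (1 - wf x y))) :=
  (Q_sumAt h0 h1 hy hk).2

theorem zy_sum {x y : ℝ} (h0 : 0 ≤ x) (h1 : x ≤ lamc) (hy : 0 ≤ y) (hk : kap x * y < 1) :
    Summable (fun p => zf p x * y ^ p) ∧
    2 * y ^ 3 * ∑' p, zf p x * y ^ p = (1 - kap x * y) * Real.sqrt (1 - wf x y) - 1 + y := by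
  rcases eq_or_lt_of_le hy with hy0 | hy0
  · rw [← hy0]
    constructor
    · apply summable_of_ne_finset_zero (s := {0})
      intro p hp
      rw [Finset.mem_singleton] at hp
      rw [zero_pow hp, mul_zero]
    · have : wf x 0 = 0 := by
        unfold wf
        ring
      rw [this]
      norm_num
  · obtain ⟨T, t1, t2, _⟩ := Sf_fac h0 h1
    obtain ⟨w0, w1⟩ := w_lt h0 h1 hy hk
    have hX : EvAt PowerSeries.X y y := SumAt.X.ev
    have h1' : EvAt 1 y 1 := (SumAt.one y).ev
    have hX2 : EvAt (PowerSeries.X ^ 2) y (y ^ 2) := by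
      rw [pow_two, pow_two]
      exact hX.mul hX
    have hS : EvAt (Sf x) y ((1 - kap x * y) * Real.sqrt (1 - wf x y)) := by
      have h2 := (h1'.sub ((EvAt.C (kap x) y).mul hX)).mul
        (((h1'.sub ((EvAt.C ((Aof x - 1) / Aof x) y).mul hX)).sub
          ((EvAt.C ((Aof x - 1) * (Aof x + 3) / (4 * Aof x ^ 2)) y).mul hX2)).mul (t1 y hy hk).ev)
      rw [← t2] at h2
      have e : (1 - (Aof x - 1) / Aof x * y - (Aof x - 1) * (Aof x + 3) / (4 * Aof x ^ 2) * y ^ 2) *
          (1 / Real.sqrt (1 - wf x y)) = Real.sqrt (1 - wf x y) := by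
        have h3 : 0 < Real.sqrt (1 - wf x y) := Real.sqrt_pos.2 (by linarith)
        have h4 : Real.sqrt (1 - wf x y) * Real.sqrt (1 - wf x y) = 1 - wf x y :=
          Real.mul_self_sqrt (by linarith)
        have h5 : 1 - (Aof x - 1) / Aof x * y - (Aof x - 1) * (Aof x + 3) / (4 * Aof x ^ 2) * y ^ 2 =
            1 - wf x y := by
          unfold wf
          ring
        rw [h5, mul_one_div, div_eq_iff h3.ne', h4]
      rw [e] at h2
      exact h2
    have hD := (hS.sub h1').add hX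
    have e2 : Sf x - 1 + PowerSeries.X = PowerSeries.X * (PowerSeries.X * (PowerSeries.X *
        (PowerSeries.C 2 * PowerSeries.mk fun p => zf p x))) := by
      rw [← two_eq_C]
      unfold Sf
      ring
    rw [e2] at hD
    have h6 := hD.2
    have h7 := (hasSum_nat_add_iff' (f := fun n : ℕ => PowerSeries.coeff n (PowerSeries.X *
      (PowerSeries.X * (PowerSeries.X * (PowerSeries.C 2 * PowerSeries.mk fun p => zf p x)))) * y ^ n)
      3).2 h6
    have g3 : ∀ (n : ℕ) (f : PowerSeries ℝ), PowerSeries.coeff (n + 3) (PowerSeries.X * f) =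
        PowerSeries.coeff (n + 2) f := fun n f => PowerSeries.coeff_succ_X_mul (n + 2) f
    have g4 : ∀ (n : ℕ) (f : PowerSeries ℝ), PowerSeries.coeff (n + 2) (PowerSeries.X * f) =
        PowerSeries.coeff (n + 1) f := fun n f => PowerSeries.coeff_succ_X_mul (n + 1) f
    have g5 : ∀ (n : ℕ) (f : PowerSeries ℝ), PowerSeries.coeff (n + 1) (PowerSeries.X * f) =
        PowerSeries.coeff n f := fun n f => PowerSeries.coeff_succ_X_mul n f
    have g : ∀ f : PowerSeries ℝ, PowerSeries.coeff 2 (PowerSeries.X * f) = PowerSeries.coeff 1 f :=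
      fun f => PowerSeries.coeff_succ_X_mul 1 f
    have g' : ∀ f : PowerSeries ℝ, PowerSeries.coeff 1 (PowerSeries.X * f) = PowerSeries.coeff 0 f :=
      fun f => PowerSeries.coeff_succ_X_mul 0 f
    have h8 : ∑ i ∈ Finset.range 3, PowerSeries.coeff i (PowerSeries.X *
      (PowerSeries.X * (PowerSeries.X * (PowerSeries.C 2 * PowerSeries.mk fun p => zf p x)))) * y ^ i =
        0 := by
      rw [Finset.sum_range_succ, Finset.sum_range_succ, Finset.sum_range_one, g, g', g',
        PowerSeries.coeff_zero_X_mul, PowerSeries.coeff_zero_X_mul, PowerSeries.coeff_zero_X_mul]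
      ring
    rw [h8, sub_zero] at h7
    have h9 : HasSum (fun p : ℕ => zf p x * y ^ p)
        (((1 - kap x * y) * Real.sqrt (1 - wf x y) - 1 + y) / (2 * y ^ 3)) := by
      have h10 := h7.div_const (2 * y ^ 3)
      refine h10.congr_fun fun p => ?_
      rw [g3, g4, g5, PowerSeries.coeff_C_mul, PowerSeries.coeff_mk, pow_add]
      field_simp
    refine ⟨h9.summable, ?_⟩
    rw [h9.tsum_eq]
    field_simp

end UN39
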