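import Mathlib

/-!
[H39 UN KERX]  (MP_bcc40c_pr)  The power series `XS` in `y` with `XS = y (1 + XS^3 Z(XS))`, `Z = ∑ z p x^p`.  Mathlib only.

PROOFS.  ker_ex: define the coefficients by strong recursion: `coeff k (XS^(p+3))` for `p + 3 ≤ k` depends only on the coefficients of `XS` of index
`≤ k - 2` (constant coefficient 0), for `p + 3 > k` it is 0.  (Or prove by induction on `N` the existence of a power series satisfying the equations
for `k < N` and agreeing with the previous one up to index `N`: replace `XS` by the right hand side map `Φ(XS)`; if `XS`, `XS'` agree up to index `N` and have constant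
coefficient 0 then `Φ(XS)`, `Φ(XS')` agree up to index `N + 1`; iterate from 0 and take the limit coefficientwise.)
ker_nonneg: strong induction on the index, if all `z p ≥ 0`.
-/

set_option autoImplicit false

namespace UN39

theorem coeff_pow_congr {f g : PowerSeries ℝ} {k : ℕ}
    (h : ∀ n, n ≤ k → PowerSeries.coeff n f = PowerSeries.coeff n g) (m : ℕ) :
    ∀ n, n ≤ k → PowerSeries.coeff n (f ^ m) = PowerSeries.coeff n (g ^ m) := by
  induction m with
  | zero =>
    intro n _
    rw [pow_zero, pow_zero]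
  | succ m ih =>
    intro n hn
    rw [pow_succ, pow_succ, PowerSeries.coeff_mul, PowerSeries.coeff_mul]
    refine Finset.sum_congr rfl fun p hp => ?_
    rw [Finset.HasAntidiagonal.mem_antidiagonal] at hp
    rw [ih p.1 (by omega), h p.2 (by omega)]

theorem coeff_pow_nonneg {f : PowerSeries ℝ} {k : ℕ}
    (h : ∀ n, n ≤ k → 0 ≤ PowerSeries.coeff n f) (m : ℕ) :
    ∀ n, n ≤ k → 0 ≤ PowerSeries.coeff n (f ^ m) := by
  induction m with
  | zero =>
    intro n _
    rw [pow_zero, PowerSeries.coeff_one]
    split_ifs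
    · exact zero_le_one
    · exact le_rfl
  | succ m ih =>
    intro n hn
    rw [pow_succ, PowerSeries.coeff_mul]
    refine Finset.sum_nonneg fun p hp => ?_
    rw [Finset.HasAntidiagonal.mem_antidiagonal] at hp
    exact mul_nonneg (ih p.1 (by omega)) (h p.2 (by omega))

/-- the iteration -/
noncomputable def kit (z : ℕ → ℝ) (f : PowerSeries ℝ) : PowerSeries ℝ :=
  PowerSeries.mk fun n => if n = 0 then 0 else (if n - 1 = 0 then 1 else 0) +
      ∑ p ∈ Finset.range (n - 1 + 1), z p * PowerSeries.coeff (n - 1) (f ^ (p + 3))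

theorem kit_zero (z : ℕ → ℝ) (f : PowerSeries ℝ) : PowerSeries.coeff 0 (kit z f) = 0 := by
  unfold kit
  rw [PowerSeries.coeff_mk, if_pos rfl]

theorem kit_succ (z : ℕ → ℝ) (f : PowerSeries ℝ) (k : ℕ) :
    PowerSeries.coeff (k + 1) (kit z f) = (if k = 0 then 1 else 0) +
      ∑ p ∈ Finset.range (k + 1), z p * PowerSeries.coeff k (f ^ (p + 3)) := by
  unfold kit
  rw [PowerSeries.coeff_mk, if_neg (Nat.succ_ne_zero k), Nat.add_sub_cancel]

theorem kit_congr (z : ℕ → ℝ) {f g : PowerSeries ℝ} {k : ℕ}
    (h : ∀ n, n < k → PowerSeries.coeff n f = PowerSeries.coeff n g) :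
    ∀ n, n < k + 1 → PowerSeries.coeff n (kit z f) = PowerSeries.coeff n (kit z g) := by
  intro n hn
  cases n with
  | zero => rw [kit_zero, kit_zero]
  | succ n =>
    rw [kit_succ, kit_succ]
    congr 1
    refine Finset.sum_congr rfl fun p _ => ?_
    rw [coeff_pow_congr (k := n) (fun m hm => h m (by omega)) (p + 3) n le_rfl]

theorem ker_ex (z : ℕ → ℝ) : ∃ XS : PowerSeries ℝ, PowerSeries.constantCoeff XS = 0 ∧
    ∀ k, PowerSeries.coeff (k + 1) XS = (if k = 0 then 1 else 0) +
      ∑ p ∈ Finset.range (k + 1), z p * PowerSeries.coeff k (XS ^ (p + 3)) := by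
  obtain ⟨f, hf⟩ : ∃ f : ℕ → PowerSeries ℝ, ∀ N, f N = (kit z)^[N] 0 := ⟨_, fun _ => rfl⟩
  have hfs : ∀ N, f (N + 1) = kit z (f N) := by
    intro N
    rw [hf, hf, Function.iterate_succ_apply']
  -- stabilisation
  have hst : ∀ N n, n < N → PowerSeries.coeff n (f (N + 1)) = PowerSeries.coeff n (f N) := by
    intro N
    induction N with
    | zero =>
      intro n hn
      exact absurd hn (Nat.not_lt_zero n)
    | succ N ih =>
      intro n hn
      rw [hfs (N + 1), hfs N]
      exact kit_congr z (k := N) (fun m hm => by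
        rw [← hfs N]
        exact ih m hm) n hn
  have hst' : ∀ M N n, n < N → N ≤ M → PowerSeries.coeff n (f M) = PowerSeries.coeff n (f N) := by
    intro M
    induction M with
    | zero =>
      intro N n hn hNM
      omega
    | succ M ih =>
      intro N n hn hNM
      rcases Nat.eq_or_lt_of_le hNM with h | h
      · rw [h]
      · rw [hst M n (by omega), ih N n hn (by omega)]
  obtain ⟨XS, hXS⟩ : ∃ XS : PowerSeries ℝ, ∀ n, PowerSeries.coeff n XS =
      PowerSeries.coeff n (f (n + 1)) := ⟨PowerSeries.mk fun n => PowerSeries.coeff n (f (n + 1)),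
        fun n => PowerSeries.coeff_mk n _⟩
  refine ⟨XS, ?_, ?_⟩
  · rw [← PowerSeries.coeff_zero_eq_constantCoeff_apply, hXS, hfs, kit_zero]
  · intro k
    rw [hXS, hfs, kit_succ]
    congr 1
    refine Finset.sum_congr rfl fun p _ => ?_
    rw [coeff_pow_congr (k := k) (f := f (k + 1)) (g := XS) (fun n hn => by
      rw [hXS]
      exact hst' (k + 1) (n + 1) n (by omega) (by omega)) (p + 3) k le_rfl]

theorem ker_nonneg (z : ℕ → ℝ) (hz : ∀ p, 0 ≤ z p) (XS : PowerSeries ℝ)
    (h0 : PowerSeries.constantCoeff XS = 0)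
    (h1 : ∀ k, PowerSeries.coeff (k + 1) XS = (if k = 0 then 1 else 0) +
      ∑ p ∈ Finset.range (k + 1), z p * PowerSeries.coeff k (XS ^ (p + 3))) (k : ℕ) :
    0 ≤ PowerSeries.coeff k XS := by
  induction k using Nat.strong_induction_on with
  | _ k ih =>
    cases k with
    | zero => rw [PowerSeries.coeff_zero_eq_constantCoeff_apply, h0]
    | succ k =>
      rw [h1]
      refine add_nonneg ?_ (Finset.sum_nonneg fun p _ => mul_nonneg (hz p) ?_)
      · split_ifs
        · exact zero_le_one
        · exact le_rfl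
      · exact coeff_pow_nonneg (k := k) (fun n hn => ih n (by omega)) (p + 3) k le_rfl

end UN39
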