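import Mathlib
import Pool.Agent.H39.UN.KerX

/-!
[H39 UN KERA]  (MP_bcc40c_pr)  The kernel method for the exploration of a vertex, formal version.  Mathlib only.

`z`, `q : ℕ → ℝ` arbitrary sequences, `q 0 = 0`.  `hF z k p`, `HF z q k p` are defined by the exploration recursion.  `XS` is the power series
in `y` with `XS = y (1 + XS^3 Z(XS))`.

PROOFS.  (The identity was checked numerically.)  Evaluation: for a sequence `g : ℕ → ℝ⟦y⟧` put `ev g = ∑_p g p * XS^p`, defined coefficientwise: `coeff k (ev g) = ∑_{p ≤ k} coeff k (g p * XS^p)`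
(terms with `p > k` vanish as `XS^p ∈ y^p ℝ⟦y⟧`; so the sum may be extended to any larger range).  Then `ev` is additive,
`ev (fun p => ∑_{i ≤ p} a i * g (p - i)) = ev a * ev g` (Cauchy product), `ev (fun p => g (p+1)) * XS = ev g - g 0`, `ev (fun p => C * g p) = C * ev g`;
derivative in `y`: `(ev g)' = ev (fun p => (g p)') + XS' * ev (fun p => (p+1) * g (p+1))`; and Leibniz for the `x`-derivative
`∂g p = (p+1) g (p+1)`: `∂(a * g) = ∂a * g + a * ∂g` for the convolution product.
Let `G p = ∑_k hF z k p y^k ∈ ℝ⟦y⟧`, `H p = ∑_k HF z q k p y^k`, `Z p = C (z p)`, `Q p = C (q p)`, `l = z 0`.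
Recursion: `G 0 = l`, `G (p+1) = y (G (p+2) + ∑_{i ≤ p - 1} z_i G (p-1-i))` (`p = 0`: empty sum).  In terms of sequences (outer variable `x`, i.e. the
sequence `X1 = (0, 1, 0, ...)`): `x G = l x + y (G - l - G_1 x) + y x^3 Z G` as sequences, i.e. `G * B = N` with the sequences
`B = x - y - y x^3 Z`, `N = l x - y l - y G_1 x`.  Apply `ev`: `ev B = XS - y - y XS^3 ev Z = 0` by the definition of `XS`.  So `ev N = 0`:
(K1) `y G_1 XS = l (XS - y)`.
`N = (l - y G_1) x - y l`.  Apply `ev ∘ ∂` to `G * B = N`: `ev (∂G) ev B + ev G ev (∂B) = l - y G_1`, so `ev G * ev(∂B) = l - y G_1`; and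
differentiating `ev B = 0` in `y`: `0 = ev (B_y) + XS' ev (∂B)`, `B_y = -1 - x^3 Z`, `ev (B_y) = -(1 + XS^3 ev Z)`, `y (1 + XS^3 ev Z) = XS`; so
`y XS' ev (∂B) = XS`.  Multiply: `XS * ev G = y XS' (l - y G_1)`, and with (K1) `(l - y G_1) XS = l y`: (K2) `XS^2 ev G = l y^2 XS'`.
H: `H 0 = 0`, `H (p+1) = y (H (p+2) + ∑_{i ≤ p-1} (z_i H (p-1-i) + q_i G (p-1-i)))`: `H * B = y x^3 Q G - y H_1 x` (after multiplying by `x`), so
`y XS^3 ev Q ev G = y H_1 XS`; cancel `y XS`: `H_1 = XS^2 ev Q ev G = l y^2 XS' ev Q` by (K2).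
`H 1 = y H 2`, `H 2 = y (H 3 + z_0 H 0 + q_0 G 0) = y H 3`: so `H 1 = y^2 H 3`.
Put `E = l H 3 - (1/y) G_1 H_1` (`G_1` is divisible by `y`; work with `y E y... `: multiply by `y^2 XS`):
`y^2 XS (l H_3) - y XS G_1 H_1 = l XS H_1 - l (XS - y) H_1 = l y H_1 = l^2 y^3 XS' ev Q`.
With `ev Q = XS * ev (fun p => q (p+1))` divide by `y^2 XS`: `l H_3 - G_1 H_1/y = l^2 y XS' ev (q (·+1)) = l^2 y (ev (fun p => q p / p))'`
(with `q 0 / 0 = 0`).  Compare the coefficients of `y^k`: `coeff k (G_1 H_1 / y) = ∑_{k' ≤ k+1} hF k' 1 * HF (k+1-k') 1`;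
`coeff k (y F') = k coeff k F`.
-/

set_option autoImplicit false

namespace UN39

/-- exploration numbers, small part -/
noncomputable def hF (z : ℕ → ℝ) : ℕ → ℕ → ℝ
  | 0, 0 => z 0
  | 0, _ + 1 => 0
  | _ + 1, 0 => 0
  | k + 1, 1 => hF z k 2
  | k + 1, p + 2 => hF z k (p + 3) + ∑ i ∈ Finset.range (p + 1), z i * hF z k (p - i)

/-- exploration numbers, large part -/
noncomputable def HF (z q : ℕ → ℝ) : ℕ → ℕ → ℝ
  | 0, _ => 0
  | _ + 1, 0 => 0
  | k + 1, 1 => HF z q k 2
  | k + 1, p + 2 => HF z q k (p + 3) +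
      ∑ i ∈ Finset.range (p + 1), (z i * HF z q k (p - i) + q i * hF z k (p - i))

theorem coeff_mul_pow_lt {XS : PowerSeries ℝ} (h0 : PowerSeries.constantCoeff XS = 0)
    (a : PowerSeries ℝ) {k p : ℕ} (h : k < p) : PowerSeries.coeff k (a * XS ^ p) = 0 := by
  have h1 : (PowerSeries.X : PowerSeries ℝ) ∣ XS := PowerSeries.X_dvd_iff.mpr h0
  have h2 : (PowerSeries.X : PowerSeries ℝ) ^ p ∣ a * XS ^ p :=
    Dvd.dvd.mul_left (pow_dvd_pow_of_dvd h1 p) a
  exact PowerSeries.X_pow_dvd_iff.mp h2 k h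

/-- partial evaluation -/
noncomputable def evK (XS : PowerSeries ℝ) (K : ℕ) (g : PowerSeries (PowerSeries ℝ)) :
    PowerSeries ℝ := ∑ p ∈ Finset.range (K + 1), PowerSeries.coeff p g * XS ^ p

/-- evaluation of a power series in two variables at `x = XS` -/
noncomputable def ev (XS : PowerSeries ℝ) (g : PowerSeries (PowerSeries ℝ)) : PowerSeries ℝ :=
  PowerSeries.mk fun k => PowerSeries.coeff k (evK XS k g)

theorem ev_coeff {XS : PowerSeries ℝ} (h0 : PowerSeries.constantCoeff XS = 0)
    (g : PowerSeries (PowerSeries ℝ)) {k K : ℕ} (h : k ≤ K) :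
    PowerSeries.coeff k (ev XS g) = PowerSeries.coeff k (evK XS K g) := by
  unfold ev evK
  rw [PowerSeries.coeff_mk, map_sum, map_sum]
  refine Finset.sum_subset ?_ ?_
  · intro p hp
    rw [Finset.mem_range] at hp ⊢
    omega
  · intro p hp hp'
    rw [Finset.mem_range] at hp hp'
    exact coeff_mul_pow_lt h0 _ (by omega)

theorem ev_mul_coeff {XS : PowerSeries ℝ} (h0 : PowerSeries.constantCoeff XS = 0)
    (a : PowerSeries ℝ) (g : PowerSeries (PowerSeries ℝ)) {k K : ℕ} (h : k ≤ K) :
    PowerSeries.coeff k (a * ev XS g) = PowerSeries.coeff k (a * evK XS K g) := by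
  rw [PowerSeries.coeff_mul, PowerSeries.coeff_mul]
  refine Finset.sum_congr rfl fun p hp => ?_
  rw [Finset.HasAntidiagonal.mem_antidiagonal] at hp
  rw [ev_coeff h0 g (show p.2 ≤ K by omega)]

theorem ev_add (XS : PowerSeries ℝ) (g h : PowerSeries (PowerSeries ℝ)) :
    ev XS (g + h) = ev XS g + ev XS h := by
  ext k
  unfold ev evK
  rw [map_add, PowerSeries.coeff_mk, PowerSeries.coeff_mk, PowerSeries.coeff_mk, ← map_add,
    ← Finset.sum_add_distrib]
  congr 1
  refine Finset.sum_congr rfl fun p _ => ?_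
  rw [map_add, add_mul]

theorem ev_C (XS : PowerSeries ℝ) (a : PowerSeries ℝ) : ev XS (PowerSeries.C a) = a := by
  ext k
  unfold ev evK
  rw [PowerSeries.coeff_mk, Finset.sum_eq_single 0]
  · rw [PowerSeries.coeff_zero_C, pow_zero, mul_one]
  · intro p _ hp
    rw [PowerSeries.coeff_C_of_ne_zero hp, zero_mul]
  · intro h
    exact absurd (Finset.mem_range.mpr (Nat.succ_pos k)) h

theorem ev_X {XS : PowerSeries ℝ} (h0 : PowerSeries.constantCoeff XS = 0) :
    ev XS PowerSeries.X = XS := by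
  ext k
  rw [ev_coeff h0 PowerSeries.X (Nat.le_succ k)]
  unfold evK
  rw [Finset.sum_eq_single 1]
  · rw [PowerSeries.coeff_one_X, one_mul, pow_one]
  · intro p _ hp
    rw [PowerSeries.coeff_X, if_neg hp, zero_mul]
  · intro h
    exact absurd (Finset.mem_range.mpr (by omega)) h

theorem evK_eq (XS : PowerSeries ℝ) (K : ℕ) (g : PowerSeries (PowerSeries ℝ)) :
    evK XS K g = Polynomial.eval XS (PowerSeries.trunc (K + 1) g) := by
  unfold evK
  have h := PowerSeries.eval₂_trunc_eq_sum_range XS (RingHom.id (PowerSeries ℝ)) (K + 1) g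
  rw [Polynomial.eval₂_id] at h
  exact h.symm

theorem eval_high {XS : PowerSeries ℝ} (h0 : PowerSeries.constantCoeff XS = 0) {K k : ℕ}
    (D : Polynomial (PowerSeries ℝ)) (hD : ∀ p, p ≤ K → D.coeff p = 0) (hk : k ≤ K) :
    PowerSeries.coeff k (Polynomial.eval XS D) = 0 := by
  rw [Polynomial.eval_eq_sum_range, map_sum]
  refine Finset.sum_eq_zero fun p _ => ?_
  by_cases hp : p ≤ K
  · rw [hD p hp, zero_mul, map_zero]
  · exact coeff_mul_pow_lt h0 _ (by omega)

theorem ev_mul {XS : PowerSeries ℝ} (h0 : PowerSeries.constantCoeff XS = 0)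
    (g h : PowerSeries (PowerSeries ℝ)) : ev XS (g * h) = ev XS g * ev XS h := by
  ext k
  have h1 : PowerSeries.coeff k (ev XS g * ev XS h) =
      PowerSeries.coeff k (evK XS k g * evK XS k h) := by
    rw [ev_mul_coeff h0 _ h le_rfl, mul_comm, ev_mul_coeff h0 _ g le_rfl, mul_comm]
  rw [h1, ev_coeff h0 (g * h) le_rfl, evK_eq, evK_eq, evK_eq, ← Polynomial.eval_mul]
  have h2 := eval_high h0 (K := k) (k := k) (PowerSeries.trunc (k + 1) (g * h) -
    PowerSeries.trunc (k + 1) g * PowerSeries.trunc (k + 1) h) (by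
      intro p hp
      rw [Polynomial.coeff_sub, PowerSeries.coeff_trunc, if_pos (by omega),
        PowerSeries.coeff_mul_eq_coeff_trunc_mul_trunc g h (show p < k + 1 by omega),
        ← Polynomial.coe_mul, Polynomial.coeff_coe, sub_self]) le_rfl
  rw [Polynomial.eval_sub, map_sub, sub_eq_zero] at h2
  exact h2

theorem ev_sub (XS : PowerSeries ℝ) (g h : PowerSeries (PowerSeries ℝ)) :
    ev XS (g - h) = ev XS g - ev XS h := by
  have h1 := ev_add XS (g - h) h
  rw [sub_add_cancel] at h1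
  rw [h1, add_sub_cancel_right]

theorem ev_pow {XS : PowerSeries ℝ} (h0 : PowerSeries.constantCoeff XS = 0)
    (g : PowerSeries (PowerSeries ℝ)) (n : ℕ) : ev XS (g ^ n) = ev XS g ^ n := by
  induction n with
  | zero =>
    rw [pow_zero, pow_zero]
    exact ev_C XS 1
  | succ n ih => rw [pow_succ, pow_succ, ev_mul h0, ih]

/-- derivative in `y` of the coefficients -/
noncomputable def dy (g : PowerSeries (PowerSeries ℝ)) : PowerSeries (PowerSeries ℝ) :=
  PowerSeries.mk fun p => PowerSeries.derivative ℝ (PowerSeries.coeff p g)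

/-- derivative in `x` -/
noncomputable def dx (g : PowerSeries (PowerSeries ℝ)) : PowerSeries (PowerSeries ℝ) :=
  PowerSeries.derivative (PowerSeries ℝ) g

theorem dx_mul (a b : PowerSeries (PowerSeries ℝ)) : dx (a * b) = a * dx b + b * dx a :=
  PowerSeries.derivativeFun_mul a b

theorem dx_sub (a b : PowerSeries (PowerSeries ℝ)) : dx (a - b) = dx a - dx b :=
  map_sub (PowerSeries.derivative (PowerSeries ℝ)) a b

theorem dx_C (a : PowerSeries ℝ) : dx (PowerSeries.C a) = 0 :=
  PowerSeries.derivative_C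

theorem dx_X : dx PowerSeries.X = 1 :=
  PowerSeries.derivative_X

theorem ev_der {XS : PowerSeries ℝ} (h0 : PowerSeries.constantCoeff XS = 0)
    (g : PowerSeries (PowerSeries ℝ)) : PowerSeries.derivative ℝ (ev XS g) =
      ev XS (dy g) + PowerSeries.derivative ℝ XS * ev XS (dx g) := by
  ext k
  have h1 : PowerSeries.derivative ℝ (evK XS (k + 1) g) = evK XS (k + 1) (dy g) +
      PowerSeries.derivative ℝ XS * evK XS k (dx g) := by
    have h2 : PowerSeries.derivative ℝ (evK XS (k + 1) g) =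
        ∑ p ∈ Finset.range (k + 1 + 1), (PowerSeries.coeff p (dy g) * XS ^ p +
          PowerSeries.derivative ℝ XS * ((p : PowerSeries ℝ) * PowerSeries.coeff p g *
            XS ^ (p - 1))) := by
      unfold evK dy
      rw [map_sum]
      refine Finset.sum_congr rfl fun p _ => ?_
      rw [Derivation.leibniz, Derivation.leibniz_pow, PowerSeries.coeff_mk, smul_eq_mul,
        smul_eq_mul, smul_eq_mul, nsmul_eq_mul]
      ring
    rw [h2, Finset.sum_add_distrib, ← Finset.mul_sum]
    unfold evK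
    congr 2
    rw [Finset.sum_range_succ']
    simp only [Nat.cast_zero, zero_mul, add_zero, Nat.add_sub_cancel]
    refine Finset.sum_congr rfl fun p _ => ?_
    unfold dx
    rw [PowerSeries.coeff_derivative]
    push_cast
    ring
  rw [PowerSeries.coeff_derivative, ev_coeff h0 g le_rfl, ← PowerSeries.coeff_derivative, h1,
    map_add, map_add, ← ev_coeff h0 (dy g) (Nat.le_succ k), ← ev_mul_coeff h0 _ (dx g) le_rfl]

theorem ker (z q : ℕ → ℝ) (hq : q 0 = 0) (XS : PowerSeries ℝ)
    (h0 : PowerSeries.constantCoeff XS = 0)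
    (h1 : ∀ k, PowerSeries.coeff (k + 1) XS = (if k = 0 then 1 else 0) +
      ∑ p ∈ Finset.range (k + 1), z p * PowerSeries.coeff k (XS ^ (p + 3))) (k : ℕ) :
    z 0 * HF z q k 3 - ∑ k' ∈ Finset.range (k + 2), hF z k' 1 * HF z q (k + 1 - k') 1 =
      (z 0) ^ 2 * k * ∑ p ∈ Finset.Icc 1 k, q p / p * PowerSeries.coeff k (XS ^ p) := by
  obtain ⟨Y, hY⟩ : ∃ Y : PowerSeries ℝ, Y = PowerSeries.X := ⟨_, rfl⟩
  obtain ⟨x, hx⟩ : ∃ x : PowerSeries (PowerSeries ℝ), x = PowerSeries.X := ⟨_, rfl⟩
  obtain ⟨l, hl⟩ : ∃ l : PowerSeries ℝ, l = PowerSeries.C (z 0) := ⟨_, rfl⟩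
  obtain ⟨G, hG⟩ : ∃ G : ℕ → PowerSeries ℝ, ∀ p, G p = PowerSeries.mk fun k => hF z k p :=
    ⟨_, fun _ => rfl⟩
  obtain ⟨H, hH⟩ : ∃ H : ℕ → PowerSeries ℝ, ∀ p, H p = PowerSeries.mk fun k => HF z q k p :=
    ⟨_, fun _ => rfl⟩
  obtain ⟨GG, hGG⟩ : ∃ GG : PowerSeries (PowerSeries ℝ), GG = PowerSeries.mk G := ⟨_, rfl⟩
  obtain ⟨HH, hHH⟩ : ∃ HH : PowerSeries (PowerSeries ℝ), HH = PowerSeries.mk H := ⟨_, rfl⟩
  obtain ⟨Z, hZ⟩ : ∃ Z : PowerSeries (PowerSeries ℝ), Z =
    PowerSeries.mk fun p => PowerSeries.C (z p) := ⟨_, rfl⟩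
  obtain ⟨Q, hQ⟩ : ∃ Q : PowerSeries (PowerSeries ℝ), Q =
    PowerSeries.mk fun p => PowerSeries.C (q p) := ⟨_, rfl⟩
  obtain ⟨Qs, hQs⟩ : ∃ Qs : PowerSeries (PowerSeries ℝ), Qs =
    PowerSeries.mk fun p => PowerSeries.C (q (p + 1)) := ⟨_, rfl⟩
  obtain ⟨Qd, hQd⟩ : ∃ Qd : PowerSeries (PowerSeries ℝ), Qd =
    PowerSeries.mk fun p => PowerSeries.C (q p / p) := ⟨_, rfl⟩
  -- recursions
  have hG0 : G 0 = l := by
    ext k
    rw [hG, hl, PowerSeries.coeff_mk, PowerSeries.coeff_C]
    cases k with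
    | zero => rw [if_pos rfl]; rfl
    | succ k => rw [if_neg (Nat.succ_ne_zero k)]; rfl
  have hG1 : G 1 = Y * G 2 := by
    ext k
    rw [hG, hG, hY]
    cases k with
    | zero => rw [PowerSeries.coeff_zero_X_mul, PowerSeries.coeff_mk]; rfl
    | succ k => rw [PowerSeries.coeff_succ_X_mul, PowerSeries.coeff_mk, PowerSeries.coeff_mk]; rfl
  have hG2 : ∀ p, G (p + 2) = Y * (G (p + 3) +
      ∑ i ∈ Finset.range (p + 1), PowerSeries.C (z i) * G (p - i)) := by
    intro p
    ext k
    rw [hG, hY]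
    cases k with
    | zero => rw [PowerSeries.coeff_zero_X_mul, PowerSeries.coeff_mk]; rfl
    | succ k =>
      rw [PowerSeries.coeff_succ_X_mul, PowerSeries.coeff_mk, map_add, map_sum, hG,
        PowerSeries.coeff_mk]
      have : ∀ i ∈ Finset.range (p + 1), PowerSeries.coeff k (PowerSeries.C (z i) * G (p - i)) =
          z i * hF z k (p - i) := by
        intro i _
        rw [PowerSeries.coeff_C_mul, hG, PowerSeries.coeff_mk]
      rw [Finset.sum_congr rfl this]
      rfl
  have hH0 : H 0 = 0 := by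
    ext k
    rw [hH, PowerSeries.coeff_mk, map_zero]
    cases k with
    | zero => rfl
    | succ k => rfl
  have hH1 : H 1 = Y * H 2 := by
    ext k
    rw [hH, hH, hY]
    cases k with
    | zero => rw [PowerSeries.coeff_zero_X_mul, PowerSeries.coeff_mk]; rfl
    | succ k => rw [PowerSeries.coeff_succ_X_mul, PowerSeries.coeff_mk, PowerSeries.coeff_mk]; rfl
  have hH2 : ∀ p, H (p + 2) = Y * (H (p + 3) +
      ∑ i ∈ Finset.range (p + 1), (PowerSeries.C (z i) * H (p - i) +
        PowerSeries.C (q i) * G (p - i))) := by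
    intro p
    ext k
    rw [hH, hY]
    cases k with
    | zero => rw [PowerSeries.coeff_zero_X_mul, PowerSeries.coeff_mk]; rfl
    | succ k =>
      rw [PowerSeries.coeff_succ_X_mul, PowerSeries.coeff_mk, map_add, map_sum, hH,
        PowerSeries.coeff_mk]
      have : ∀ i ∈ Finset.range (p + 1), PowerSeries.coeff k (PowerSeries.C (z i) * H (p - i) +
          PowerSeries.C (q i) * G (p - i)) =
          (z i * HF z q k (p - i) + q i * hF z k (p - i)) := by
        intro i _
        rw [map_add, PowerSeries.coeff_C_mul, hH, PowerSeries.coeff_mk, PowerSeries.coeff_C_mul,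
          hG, PowerSeries.coeff_mk]
      rw [Finset.sum_congr rfl this]
      rfl
  -- convolution
  have hconv : ∀ (a : ℕ → ℝ) (g : ℕ → PowerSeries ℝ) (p : ℕ), PowerSeries.coeff p
      ((PowerSeries.mk fun p => PowerSeries.C (a p) : PowerSeries (PowerSeries ℝ)) *
        PowerSeries.mk g) = ∑ i ∈ Finset.range (p + 1), PowerSeries.C (a i) * g (p - i) := by
    intro a g p
    rw [PowerSeries.coeff_mul, Finset.Nat.sum_antidiagonal_eq_sum_range_succ_mk]
    refine Finset.sum_congr rfl fun i _ => ?_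
    rw [PowerSeries.coeff_mk, PowerSeries.coeff_mk]
  obtain ⟨B, hB⟩ : ∃ B : PowerSeries (PowerSeries ℝ), B = x - PowerSeries.C Y -
    PowerSeries.C Y * (x ^ 3 * Z) := ⟨_, rfl⟩
  have hx3 : ∀ (p : ℕ) (g : PowerSeries (PowerSeries ℝ)), PowerSeries.coeff (p + 3) (x ^ 3 * g) =
      PowerSeries.coeff p g := by
    intro p g
    rw [hx, PowerSeries.coeff_X_pow_mul]
  have hx3' : ∀ (p : ℕ) (g : PowerSeries (PowerSeries ℝ)), p < 3 →
      PowerSeries.coeff p (x ^ 3 * g) = 0 := by
    intro p g hp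
    rw [hx, PowerSeries.coeff_X_pow_mul', if_neg (by omega)]
  -- the equation for `G`
  have eG : GG * B = PowerSeries.C l * x - PowerSeries.C (Y * l) - PowerSeries.C (Y * G 1) * x := by
    have e1 : x * GG = PowerSeries.C l * x + (PowerSeries.C Y * GG - PowerSeries.C (Y * l) -
        PowerSeries.C (Y * G 1) * x) + PowerSeries.C Y * (x ^ 3 * (Z * GG)) := by
      refine PowerSeries.ext fun n => ?_
      rw [map_add, map_add, map_sub, map_sub, PowerSeries.coeff_C_mul, PowerSeries.coeff_C_mul,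
        PowerSeries.coeff_C_mul, PowerSeries.coeff_C_mul, hGG, PowerSeries.coeff_mk,
        PowerSeries.coeff_C]
      rcases n with _ | _ | _ | n
      · rw [hx3' 0 _ (by norm_num), hx, PowerSeries.coeff_zero_X_mul, PowerSeries.coeff_zero_X,
          if_pos rfl, hG0]
        ring
      · rw [hx3' _ _ (by norm_num), hx, PowerSeries.coeff_succ_X_mul, PowerSeries.coeff_mk,
          if_neg (by norm_num), PowerSeries.coeff_X, if_pos rfl, hG0]
        ring
      · rw [hx3' _ _ (by norm_num), hx, PowerSeries.coeff_succ_X_mul, PowerSeries.coeff_mk,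
          if_neg (by norm_num), PowerSeries.coeff_X, if_neg (by norm_num)]
        have := hG1
        simp only [zero_add, Nat.reduceAdd] at this ⊢
        rw [this]
        ring
      · rw [show n + 1 + 1 + 1 = n + 3 by ring, hx3, hx, show n + 3 = (n + 2) + 1 by ring,
          PowerSeries.coeff_succ_X_mul, PowerSeries.coeff_mk, if_neg (by omega),
          PowerSeries.coeff_X, if_neg (by omega), hZ, hconv, hG2]
        ring
    have e2 : GG * B = x * GG - PowerSeries.C Y * GG - PowerSeries.C Y * (x ^ 3 * (Z * GG)) := by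
      rw [hB]
      ring
    rw [e2, e1]
    ring
  -- the equation for `H`
  have eH : HH * B = PowerSeries.C Y * (x ^ 3 * (Q * GG)) - PowerSeries.C (Y * H 1) * x := by
    have e1 : x * HH = (PowerSeries.C Y * HH -
        PowerSeries.C (Y * H 1) * x) + PowerSeries.C Y * (x ^ 3 * (Z * HH + Q * GG)) := by
      refine PowerSeries.ext fun n => ?_
      rw [map_add, map_sub, PowerSeries.coeff_C_mul, PowerSeries.coeff_C_mul,
        PowerSeries.coeff_C_mul, hHH, PowerSeries.coeff_mk]
      rcases n with _ | _ | _ | n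
      · rw [hx3' 0 _ (by norm_num), hx, PowerSeries.coeff_zero_X_mul, PowerSeries.coeff_zero_X,
          hH0]
        ring
      · rw [hx3' _ _ (by norm_num), hx, PowerSeries.coeff_succ_X_mul, PowerSeries.coeff_mk,
          PowerSeries.coeff_X, if_pos rfl, hH0]
        ring
      · rw [hx3' _ _ (by norm_num), hx, PowerSeries.coeff_succ_X_mul, PowerSeries.coeff_mk,
          PowerSeries.coeff_X, if_neg (by norm_num)]
        have := hH1
        simp only [zero_add, Nat.reduceAdd] at this ⊢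
        rw [this]
        ring
      · rw [show n + 1 + 1 + 1 = n + 3 by ring, hx3, hx, show n + 3 = (n + 2) + 1 by ring,
          PowerSeries.coeff_succ_X_mul, PowerSeries.coeff_mk,
          PowerSeries.coeff_X, if_neg (by omega), map_add, hZ, hconv, hQ, hGG, hconv, hH2,
          Finset.sum_add_distrib]
        ring
    have e2 : HH * B = x * HH - PowerSeries.C Y * HH - PowerSeries.C Y * (x ^ 3 * (Z * HH)) := by
      rw [hB]
      ring
    rw [e2, e1]
    ring
  -- evaluation
  have evx : ev XS x = XS := by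
    rw [hx]
    exact ev_X h0
  have hXS : XS = Y * (1 + XS ^ 3 * ev XS Z) := by
    ext k
    rw [hY]
    cases k with
    | zero => rw [PowerSeries.coeff_zero_X_mul, PowerSeries.coeff_zero_eq_constantCoeff_apply, h0]
    | succ k =>
      rw [PowerSeries.coeff_succ_X_mul, h1 k, map_add, PowerSeries.coeff_one,
        ev_mul_coeff h0 _ Z le_rfl]
      congr 1
      unfold evK
      rw [Finset.mul_sum, map_sum]
      refine Finset.sum_congr rfl fun p _ => ?_
      rw [hZ, PowerSeries.coeff_mk, ← PowerSeries.coeff_C_mul]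
      congr 1
      ring
  have evB : ev XS B = 0 := by
    rw [hB, ev_sub, ev_sub, ev_mul h0, ev_mul h0, ev_pow h0, evx, ev_C]
    have : XS - Y - Y * (XS ^ 3 * ev XS Z) = XS - Y * (1 + XS ^ 3 * ev XS Z) := by ring
    rw [this, ← hXS, sub_self]
  have hYne : Y ≠ 0 := by
    rw [hY]
    exact PowerSeries.X_ne_zero
  have hXSne : XS ≠ 0 := by
    intro h
    have h2 := h1 0
    rw [h] at h2
    simp at h2
  -- K1
  have K1 : Y * G 1 * XS = l * (XS - Y) := by
    have h2 := congrArg (ev XS) eG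
    rw [ev_mul h0, evB, mul_zero, ev_sub, ev_sub, ev_mul h0, ev_mul h0, ev_C, ev_C, ev_C,
      evx] at h2
    have h3 : Y * G 1 * XS = l * (XS - Y) + (l * XS - Y * l - Y * G 1 * XS) * (-1) := by ring
    rw [h3, ← h2]
    ring
  -- the derivative of `B`
  have dyB : dy B = - 1 - x ^ 3 * Z := by
    refine PowerSeries.ext fun n => ?_
    unfold dy
    rw [PowerSeries.coeff_mk, hB, map_sub, map_sub, map_sub, PowerSeries.coeff_C_mul,
      map_sub, map_sub, PowerSeries.coeff_C, map_neg, PowerSeries.coeff_one]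
    have hder : PowerSeries.derivative ℝ Y = 1 := by
      rw [hY]
      exact PowerSeries.derivative_X
    have hxn : PowerSeries.derivative ℝ (PowerSeries.coeff n x) = 0 := by
      rw [hx, PowerSeries.coeff_X]
      split_ifs
      · exact Derivation.map_one_eq_zero _
      · exact map_zero _
    have hZn : PowerSeries.derivative ℝ (PowerSeries.coeff n (x ^ 3 * Z)) = 0 := by
      rw [hx, PowerSeries.coeff_X_pow_mul']
      split_ifs
      · rw [hZ, PowerSeries.coeff_mk]
        exact PowerSeries.derivative_C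
      · exact map_zero _
    rw [hxn, Derivation.leibniz, hZn, smul_zero, zero_add, smul_eq_mul, hder, mul_one]
    split_ifs
    · rw [hder]
      ring
    · rw [map_zero]
      ring
  have K0 : Y * (PowerSeries.derivative ℝ XS * ev XS (dx B)) = XS := by
    have h2 := ev_der h0 B
    rw [evB, map_zero, dyB] at h2
    have h3 : ev XS (-1 - x ^ 3 * Z) = -(1 + XS ^ 3 * ev XS Z) := by
      have h4 : (-1 : PowerSeries (PowerSeries ℝ)) = PowerSeries.C (-1) := by
        rw [map_neg, map_one]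
      rw [h4, ev_sub, ev_C, ev_mul h0, ev_pow h0, evx]
      ring
    rw [h3] at h2
    have h5 : PowerSeries.derivative ℝ XS * ev XS (dx B) = 1 + XS ^ 3 * ev XS Z := by
      have h6 : PowerSeries.derivative ℝ XS * ev XS (dx B) = (-(1 + XS ^ 3 * ev XS Z) +
          PowerSeries.derivative ℝ XS * ev XS (dx B)) + (1 + XS ^ 3 * ev XS Z) := by ring
      rw [h6, ← h2, zero_add]
    rw [h5, ← hXS]
  have dG : ev XS GG * ev XS (dx B) = l - Y * G 1 := by
    have h2 := congrArg dx eG
    rw [dx_mul, dx_sub, dx_sub, dx_mul, dx_mul, dx_C, dx_C, dx_C, hx, dx_X, mul_zero, add_zero,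
      add_zero, sub_zero, mul_one, mul_one] at h2
    have h3 := congrArg (ev XS) h2
    rw [ev_add, ev_mul h0, ev_mul h0, evB, zero_mul, add_zero, ev_sub, ev_C, ev_C] at h3
    exact h3
  have K2 : XS ^ 2 * ev XS GG = l * Y ^ 2 * PowerSeries.derivative ℝ XS := by
    have h2 : XS * ev XS GG = Y * PowerSeries.derivative ℝ XS * (l - Y * G 1) := by
      rw [← dG]
      calc XS * ev XS GG = Y * (PowerSeries.derivative ℝ XS * ev XS (dx B)) * ev XS GG := by
            rw [K0]
        _ = _ := by ring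
    calc XS ^ 2 * ev XS GG = XS * (XS * ev XS GG) := by ring
      _ = Y * PowerSeries.derivative ℝ XS * (l * XS - Y * G 1 * XS) := by
          rw [h2]
          ring
      _ = l * Y ^ 2 * PowerSeries.derivative ℝ XS := by
          rw [K1]
          ring
  -- `H 1`
  have eQ : ev XS Q = XS * ev XS Qs := by
    have h2 : Q = x * Qs := by
      refine PowerSeries.ext fun n => ?_
      rw [hQ, hQs, hx, PowerSeries.coeff_mk]
      cases n with
      | zero => rw [PowerSeries.coeff_zero_X_mul, hq, map_zero]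
      | succ n => rw [PowerSeries.coeff_succ_X_mul, PowerSeries.coeff_mk]
    rw [h2, ev_mul h0, evx]
  have kH1 : H 1 = l * Y ^ 2 * PowerSeries.derivative ℝ XS * ev XS Q := by
    have h2 := congrArg (ev XS) eH
    rw [ev_mul h0, evB, mul_zero, ev_sub, ev_mul h0, ev_mul h0, ev_mul h0, ev_mul h0, ev_pow h0,
      ev_C, ev_C, evx] at h2
    have h3 : (Y * XS) * (H 1) = (Y * XS) * (XS ^ 2 * ev XS GG * ev XS Q) := by
      have h4 : (Y * XS) * (H 1) = (Y * XS) * (XS ^ 2 * ev XS GG * ev XS Q) -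
          (Y * (XS ^ 3 * (ev XS Q * ev XS GG)) - Y * H 1 * XS) := by ring
      rw [h4, ← h2, sub_zero]
    have h5 := mul_left_cancel₀ (mul_ne_zero hYne hXSne) h3
    rw [h5, K2]
  have hH3 : H 1 = Y ^ 2 * H 3 := by
    rw [hH1, hH2 0, Finset.sum_range_one, hq, map_zero, zero_mul, add_zero, Nat.sub_zero, hH0,
      mul_zero, add_zero]
    ring
  -- the derivative of `F`
  have eF : PowerSeries.derivative ℝ (ev XS Qd) = PowerSeries.derivative ℝ XS * ev XS Qs := by
    rw [ev_der h0]
    have h2 : dy Qd = 0 := by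
      refine PowerSeries.ext fun n => ?_
      unfold dy
      rw [PowerSeries.coeff_mk, hQd, PowerSeries.coeff_mk, map_zero]
      exact PowerSeries.derivative_C
    have h3 : dx Qd = Qs := by
      refine PowerSeries.ext fun n => ?_
      unfold dx
      rw [PowerSeries.coeff_derivative, hQd, hQs, PowerSeries.coeff_mk, PowerSeries.coeff_mk]
      have h4 : ((n : PowerSeries ℝ) + 1) = PowerSeries.C ((n : ℝ) + 1) := by
        rw [map_add, map_natCast, map_one]
      rw [h4, ← map_mul]
      congr 1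
      have h5 : ((n : ℝ) + 1) ≠ 0 := by positivity
      push_cast
      field_simp
    have h4 : ev XS (0 : PowerSeries (PowerSeries ℝ)) = 0 := by
      have := ev_C XS 0
      rwa [map_zero] at this
    rw [h2, h3, h4, zero_add]
  -- the identity
  have main : l * H 3 - G 2 * H 1 = l ^ 2 * (Y * PowerSeries.derivative ℝ (ev XS Qd)) := by
    have h2 : (Y ^ 2 * XS) * (l * H 3 - G 2 * H 1) =
        (Y ^ 2 * XS) * (l ^ 2 * (Y * PowerSeries.derivative ℝ (ev XS Qd))) := by
      calc (Y ^ 2 * XS) * (l * H 3 - G 2 * H 1) =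
            XS * l * (Y ^ 2 * H 3) - (Y * (Y * G 2) * XS) * H 1 := by ring
        _ = XS * l * H 1 - (l * (XS - Y)) * H 1 := by rw [← hH3, ← hG1, K1]
        _ = l * Y * H 1 := by ring
        _ = l * Y * (l * Y ^ 2 * PowerSeries.derivative ℝ XS * (XS * ev XS Qs)) := by
            rw [← eQ, ← kH1]
        _ = (Y ^ 2 * XS) * (l ^ 2 * (Y * (PowerSeries.derivative ℝ XS * ev XS Qs))) := by ring
        _ = _ := by rw [eF]
    exact mul_left_cancel₀ (mul_ne_zero (pow_ne_zero 2 hYne) hXSne) h2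
  -- coefficients
  have hc := congrArg (PowerSeries.coeff k) main
  have c1 : PowerSeries.coeff k (l * H 3) = z 0 * HF z q k 3 := by
    rw [hl, PowerSeries.coeff_C_mul, hH, PowerSeries.coeff_mk]
  have c2 : PowerSeries.coeff k (G 2 * H 1) =
      ∑ k' ∈ Finset.range (k + 2), hF z k' 1 * HF z q (k + 1 - k') 1 := by
    have h3 : hF z 0 1 = 0 := rfl
    have h4 : ∑ k' ∈ Finset.range (k + 2), hF z k' 1 * HF z q (k + 1 - k') 1 =
        ∑ i ∈ Finset.range (k + 1), hF z (i + 1) 1 * HF z q (k + 1 - (i + 1)) 1 +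
        hF z 0 1 * HF z q (k + 1 - 0) 1 := Finset.sum_range_succ' _ _
    rw [h4, h3, zero_mul, add_zero, PowerSeries.coeff_mul,
      Finset.Nat.sum_antidiagonal_eq_sum_range_succ_mk]
    refine Finset.sum_congr rfl fun i _ => ?_
    simp only
    rw [hG, hH, PowerSeries.coeff_mk, PowerSeries.coeff_mk,
      show k + 1 - (i + 1) = k - i by omega]
    rfl
  have c3 : PowerSeries.coeff k (l ^ 2 * (Y * PowerSeries.derivative ℝ (ev XS Qd))) =
      (z 0) ^ 2 * k * ∑ p ∈ Finset.Icc 1 k, q p / p * PowerSeries.coeff k (XS ^ p) := by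
    rw [hl, ← map_pow, PowerSeries.coeff_C_mul, mul_assoc]
    congr 1
    rw [hY]
    cases k with
    | zero => rw [PowerSeries.coeff_zero_X_mul, Nat.cast_zero, zero_mul]
    | succ k =>
      rw [PowerSeries.coeff_succ_X_mul, PowerSeries.coeff_derivative, ev_coeff h0 Qd le_rfl]
      unfold evK
      rw [map_sum, mul_comm]
      push_cast
      congr 1
      rw [Finset.sum_range_succ']
      rw [hQd, PowerSeries.coeff_mk, Nat.cast_zero, div_zero, map_zero, zero_mul, map_zero,
        add_zero]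
      have h5 : Finset.Icc 1 (k + 1) = (Finset.range (k + 1)).image (fun i => i + 1) := by
        ext i
        rw [Finset.mem_Icc, Finset.mem_image]
        constructor
        · intro h
          exact ⟨i - 1, Finset.mem_range.mpr (by omega), by omega⟩
        · rintro ⟨j, hj, rfl⟩
          rw [Finset.mem_range] at hj
          omega
      rw [h5, Finset.sum_image (fun a _ b _ h => Nat.succ_injective h)]
      refine Finset.sum_congr rfl fun i _ => ?_
      rw [PowerSeries.coeff_mk, PowerSeries.coeff_C_mul]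
  rw [map_sub, c1, c2, c3] at hc
  exact hc

end UN39
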