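import Mathlib
import Pool.Agent.H39.UN.KerA

/-!
[H39 UN KERB]  (MP_bcc40c_pr)  The kernel method, evaluation at `y = 1`.

`z p ≥ 0`, `q p ≥ 0`; `xs > 0` is the only solution in `[0, xs]` of `x = 1 + ∑ z p x^(p+3)`.

PROOF.  All coefficients of `XS` (ker_ex) are nonnegative (strong induction).  Let `s_N = ∑_{k ≤ N} coeff k XS`.  Then `s_N ≤ xs` for all `N`: induction,
`s_(N+1) = 1 + ∑_{k ≤ N} ∑_p z p coeff k (XS^(p+3)) ≤ 1 + ∑_p z p (s_N)^(p+3) ≤ 1 + ∑ z p xs^(p+3) = xs` (for a power series with nonnegative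
coefficients and constant coefficient 0, `∑_{k ≤ N} coeff k (XS^m) ≤ (∑_{k ≤ N} coeff k XS)^m`).  So `X1 = ∑_k coeff k XS ≤ xs` is summable,
`∑_k coeff k (XS^m) = X1^m` (Cauchy products, induction), and by Tonelli `X1 = 1 + ∑_p z p X1^(p+3)`; so `X1 = xs` by uniqueness.
Then by Tonelli (nonnegative terms, `HasSum` over the product) `∑_k ∑_{1 ≤ p ≤ k} (q p/p) coeff k (XS^p) = ∑_p (q p / p) xs^p` (for `p > k` the
coefficient is 0; `q 0 / 0 = 0`), if the right side is summable.
By ker: for `k ≥ 1`: `(1/k) (z 0 HF k 3 - ∑ ..) = (z 0)^2 ∑_p (q p/p) coeff k (XS^p) ≥ 0`.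
-/

set_option autoImplicit false

namespace UN39

/-- the terms of the vertex identity, multiplied by `z 0` -/
noncomputable def Ck (z q : ℕ → ℝ) (k : ℕ) : ℝ :=
  z 0 * HF z q k 3 - ∑ k' ∈ Finset.range (k + 2), hF z k' 1 * HF z q (k + 1 - k') 1

theorem tonelli {f : ℕ → ℕ → ℝ} (h0 : ∀ k p, 0 ≤ f k p) {g : ℕ → ℝ}
    (hg : ∀ p, HasSum (fun k => f k p) (g p)) {G : ℝ} (hG : HasSum g G) {r : ℕ → ℝ}
    (hr : ∀ k, HasSum (fun p => f k p) (r k)) : HasSum r G := by
  have h1 : Summable (fun x : ℕ × ℕ => f x.2 x.1) := by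
    rw [summable_prod_of_nonneg (fun x => h0 x.2 x.1)]
    refine ⟨fun p => (hg p).summable, ?_⟩
    have : (fun p : ℕ => ∑' k, f (p, k).2 (p, k).1) = g := funext fun p => (hg p).tsum_eq
    rw [this]
    exact hG.summable
  obtain ⟨a, ha⟩ := h1
  have h2 : HasSum g a := ha.prod_fiberwise fun p => hg p
  have h3 : a = G := h2.unique hG
  rw [h3] at ha
  have h4 : HasSum (fun x : ℕ × ℕ => f x.1 x.2) G := by
    have := (Equiv.prodComm ℕ ℕ).hasSum_iff.mpr ha
    exact this
  exact h4.prod_fiberwise fun k => hr k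

theorem sum_coeff_mul_le {f g : PowerSeries ℝ} (hf : ∀ n, 0 ≤ PowerSeries.coeff n f)
    (hg : ∀ n, 0 ≤ PowerSeries.coeff n g) (N : ℕ) :
    ∑ k ∈ Finset.range N, PowerSeries.coeff k (f * g) ≤
      (∑ k ∈ Finset.range N, PowerSeries.coeff k f) *
        ∑ k ∈ Finset.range N, PowerSeries.coeff k g := by
  classical
  obtain ⟨T, hT⟩ : ∃ T : Finset (ℕ × ℕ), T =
    (Finset.range N ×ˢ Finset.range N).filter (fun p => p.1 + p.2 < N) := ⟨_, rfl⟩
  have h1 : ∑ k ∈ Finset.range N, PowerSeries.coeff k (f * g) =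
      ∑ p ∈ T, PowerSeries.coeff p.1 f * PowerSeries.coeff p.2 g := by
    have h2 : ∀ x ∈ T, x.1 + x.2 ∈ Finset.range N := by
      intro x hx
      rw [hT, Finset.mem_filter] at hx
      exact Finset.mem_range.mpr hx.2
    rw [← Finset.sum_fiberwise_of_maps_to (g := fun x : ℕ × ℕ => x.1 + x.2) h2]
    refine Finset.sum_congr rfl fun k hk => ?_
    rw [Finset.mem_range] at hk
    rw [PowerSeries.coeff_mul]
    refine Finset.sum_congr ?_ fun _ _ => rfl
    ext x
    rw [Finset.HasAntidiagonal.mem_antidiagonal, Finset.mem_filter, hT, Finset.mem_filter,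
      Finset.mem_product, Finset.mem_range, Finset.mem_range]
    omega
  rw [h1, Finset.sum_mul_sum, ← Finset.sum_product']
  refine Finset.sum_le_sum_of_subset_of_nonneg ?_ fun p _ _ => mul_nonneg (hf _) (hg _)
  rw [hT]
  exact Finset.filter_subset _ _

theorem sum_coeff_pow_le {f : PowerSeries ℝ} (hf : ∀ n, 0 ≤ PowerSeries.coeff n f) (m N : ℕ) :
    ∑ k ∈ Finset.range N, PowerSeries.coeff k (f ^ m) ≤
      (∑ k ∈ Finset.range N, PowerSeries.coeff k f) ^ m := by
  induction m with
  | zero =>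
    rw [pow_zero, pow_zero]
    have h1 : ∀ k, PowerSeries.coeff k (1 : PowerSeries ℝ) = if k = 0 then 1 else 0 := fun k =>
      PowerSeries.coeff_one k
    simp only [h1]
    rw [Finset.sum_ite_eq']
    split_ifs
    · exact le_rfl
    · exact zero_le_one
  | succ m ih =>
    rw [pow_succ, pow_succ]
    have h1 : ∀ n, 0 ≤ PowerSeries.coeff n (f ^ m) := fun n =>
      coeff_pow_nonneg (k := n) (fun i _ => hf i) m n le_rfl
    refine (sum_coeff_mul_le h1 hf N).trans ?_
    exact mul_le_mul_of_nonneg_right ih (Finset.sum_nonneg fun k _ => hf k)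

theorem hasSum_coeff_pow {f : PowerSeries ℝ} (hf : ∀ n, 0 ≤ PowerSeries.coeff n f) {x : ℝ}
    (hx : HasSum (fun k => PowerSeries.coeff k f) x) (m : ℕ) :
    HasSum (fun k => PowerSeries.coeff k (f ^ m)) (x ^ m) := by
  induction m with
  | zero =>
    rw [pow_zero, pow_zero]
    have h1 := hasSum_ite_eq (0 : ℕ) (1 : ℝ)
    have h2 : (fun k => PowerSeries.coeff k (1 : PowerSeries ℝ)) =
        fun k : ℕ => if k = 0 then (1 : ℝ) else 0 := funext fun k => PowerSeries.coeff_one k
    rw [h2]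
    exact h1
  | succ m ih =>
    have h1 : ∀ n, 0 ≤ PowerSeries.coeff n (f ^ m) := fun n =>
      coeff_pow_nonneg (k := n) (fun i _ => hf i) m n le_rfl
    have h2 : Summable fun k => ‖PowerSeries.coeff k (f ^ m)‖ := by
      have : (fun k => ‖PowerSeries.coeff k (f ^ m)‖) = fun k => PowerSeries.coeff k (f ^ m) :=
        funext fun k => Real.norm_of_nonneg (h1 k)
      rw [this]
      exact ih.summable
    have h3 : Summable fun k => ‖PowerSeries.coeff k f‖ := by
      have : (fun k => ‖PowerSeries.coeff k f‖) = fun k => PowerSeries.coeff k f :=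
        funext fun k => Real.norm_of_nonneg (hf k)
      rw [this]
      exact hx.summable
    have h4 := tsum_mul_tsum_eq_tsum_sum_antidiagonal_of_summable_norm h2 h3
    have h5 := summable_norm_sum_mul_antidiagonal_of_summable_norm h2 h3
    have h6 : (fun k => PowerSeries.coeff k (f ^ (m + 1))) = fun n =>
        ∑ kl ∈ Finset.HasAntidiagonal.antidiagonal n, PowerSeries.coeff kl.1 (f ^ m) *
          PowerSeries.coeff kl.2 f := by
      funext n
      rw [pow_succ, PowerSeries.coeff_mul]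
    rw [h6, pow_succ, ← ih.tsum_eq, ← hx.tsum_eq, h4]
    exact h5.of_norm.hasSum

theorem kerB (z q : ℕ → ℝ) (hz : ∀ p, 0 ≤ z p) (hq : ∀ p, 0 ≤ q p) (hq0 : q 0 = 0) (xs : ℝ)
    (hx : 0 < xs) (hs : HasSum (fun p => z p * xs ^ (p + 3)) (xs - 1))
    (hu : ∀ x, 0 ≤ x → x ≤ xs → HasSum (fun p => z p * x ^ (p + 3)) (x - 1) → x = xs)
    (S : ℝ) (hS : HasSum (fun p : ℕ => q p / p * xs ^ p) S) :
    (∀ k, 0 ≤ Ck z q k) ∧ HasSum (fun k : ℕ => Ck z q k / k) ((z 0) ^ 2 * S) := by
  obtain ⟨XS, h0, h1⟩ := ker_ex z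
  have hnn := ker_nonneg z hz XS h0 h1
  have hpn : ∀ m n, 0 ≤ PowerSeries.coeff n (XS ^ m) := fun m n =>
    coeff_pow_nonneg (k := n) (fun i _ => hnn i) m n le_rfl
  have hlow : ∀ m n, n < m → PowerSeries.coeff n (XS ^ m) = 0 := by
    intro m n hnm
    have := coeff_mul_pow_lt h0 1 hnm
    rwa [one_mul] at this
  -- partial sums
  have hpart : ∀ N, ∑ k ∈ Finset.range N, PowerSeries.coeff k XS ≤ xs := by
    intro N
    induction N with
    | zero =>
      rw [Finset.sum_range_zero]
      exact hx.le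
    | succ N ih =>
      rw [Finset.sum_range_succ', PowerSeries.coeff_zero_eq_constantCoeff_apply, h0, add_zero]
      have e1 : ∑ k ∈ Finset.range N, PowerSeries.coeff (k + 1) XS ≤
          ∑ k ∈ Finset.range N, ((if k = 0 then 1 else 0) +
            ∑ p ∈ Finset.range N, z p * PowerSeries.coeff k (XS ^ (p + 3))) := by
        refine Finset.sum_le_sum fun k hk => ?_
        rw [Finset.mem_range] at hk
        rw [h1 k]
        refine add_le_add le_rfl ?_
        refine Finset.sum_le_sum_of_subset_of_nonneg ?_ fun p _ _ => mul_nonneg (hz p) (hpn _ _)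
        intro p hp
        rw [Finset.mem_range] at hp ⊢
        omega
      have e2 : ∑ k ∈ Finset.range N, (if k = 0 then (1 : ℝ) else 0) ≤ 1 := by
        rw [Finset.sum_ite_eq']
        split_ifs
        · exact le_rfl
        · exact zero_le_one
      have e3 : ∑ k ∈ Finset.range N, ∑ p ∈ Finset.range N,
          z p * PowerSeries.coeff k (XS ^ (p + 3)) ≤ xs - 1 := by
        rw [Finset.sum_comm]
        have e4 : ∀ p ∈ Finset.range N, ∑ k ∈ Finset.range N,
            z p * PowerSeries.coeff k (XS ^ (p + 3)) ≤ z p * xs ^ (p + 3) := by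
          intro p _
          rw [← Finset.mul_sum]
          refine mul_le_mul_of_nonneg_left ?_ (hz p)
          refine (sum_coeff_pow_le hnn (p + 3) N).trans ?_
          exact pow_le_pow_left₀ (Finset.sum_nonneg fun k _ => hnn k) ih _
        refine (Finset.sum_le_sum e4).trans ?_
        exact sum_le_hasSum _ (fun p _ => mul_nonneg (hz p) (by positivity)) hs
      refine e1.trans ?_
      rw [Finset.sum_add_distrib]
      linarith
  have hsum : Summable fun k => PowerSeries.coeff k XS :=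
    summable_of_sum_range_le hnn hpart
  obtain ⟨X1, hX1⟩ := hsum
  have hX1n : 0 ≤ X1 := hX1.nonneg hnn
  have hX1le : X1 ≤ xs := by
    rw [← hX1.tsum_eq]
    exact Real.tsum_le_of_sum_range_le hnn hpart
  -- the equation
  have hpows := fun m => hasSum_coeff_pow hnn hX1 m
  have hsz : Summable fun p => z p * X1 ^ (p + 3) := by
    refine Summable.of_nonneg_of_le (fun p => mul_nonneg (hz p) (pow_nonneg hX1n _))
      (fun p => ?_) hs.summable
    exact mul_le_mul_of_nonneg_left (pow_le_pow_left₀ hX1n hX1le _) (hz p)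
  obtain ⟨W, hW⟩ := hsz
  have hr : ∀ k, HasSum (fun p => z p * PowerSeries.coeff k (XS ^ (p + 3)))
      (∑ p ∈ Finset.range (k + 1), z p * PowerSeries.coeff k (XS ^ (p + 3))) := by
    intro k
    refine hasSum_sum_of_ne_finset_zero fun p hp => ?_
    rw [Finset.mem_range] at hp
    rw [hlow (p + 3) k (by omega), mul_zero]
  have h2 : HasSum (fun k => ∑ p ∈ Finset.range (k + 1), z p *
      PowerSeries.coeff k (XS ^ (p + 3))) W :=
    tonelli (f := fun k p => z p * PowerSeries.coeff k (XS ^ (p + 3)))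
      (fun k p => mul_nonneg (hz p) (hpn _ _)) (fun p => (hpows (p + 3)).mul_left (z p)) hW hr
  have h3 : HasSum (fun k => PowerSeries.coeff (k + 1) XS) (1 + W) := by
    have h4 := (hasSum_ite_eq (0 : ℕ) (1 : ℝ)).add h2
    have h5 : (fun k => PowerSeries.coeff (k + 1) XS) = fun k => (if k = 0 then (1 : ℝ) else 0) +
        ∑ p ∈ Finset.range (k + 1), z p * PowerSeries.coeff k (XS ^ (p + 3)) :=
      funext fun k => h1 k
    rw [h5]
    exact h4
  have h4 : X1 = 1 + W := by
    have h5 := (hasSum_nat_add_iff' (f := fun k => PowerSeries.coeff k XS) (g := X1) 1).mpr hX1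
    rw [Finset.sum_range_one, PowerSeries.coeff_zero_eq_constantCoeff_apply, h0, sub_zero] at h5
    exact h5.unique h3
  have hX1xs : X1 = xs := by
    refine hu X1 hX1n hX1le ?_
    rw [h4, add_sub_cancel_left, ← h4]
    exact hW
  -- the numbers `Ck`
  have hCk : ∀ k, Ck z q k = (z 0) ^ 2 * k *
      ∑ p ∈ Finset.Icc 1 k, q p / p * PowerSeries.coeff k (XS ^ p) := fun k =>
    ker z q hq0 XS h0 h1 k
  have hqp : ∀ k p : ℕ, 0 ≤ q p / p * PowerSeries.coeff k (XS ^ p) := fun k p =>
    mul_nonneg (div_nonneg (hq p) (Nat.cast_nonneg _)) (hpn _ _)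
  refine ⟨fun k => ?_, ?_⟩
  · rw [hCk]
    refine mul_nonneg (mul_nonneg (sq_nonneg _) (Nat.cast_nonneg _)) ?_
    exact Finset.sum_nonneg fun p _ => hqp k p
  · have h5 : (fun k : ℕ => Ck z q k / k) = fun k : ℕ => (z 0) ^ 2 *
        ∑ p ∈ Finset.Icc 1 k, q p / p * PowerSeries.coeff k (XS ^ p) := by
      funext k
      rw [hCk]
      rcases Nat.eq_zero_or_pos k with hk | hk
      · rw [hk]
        simp
      · have : (k : ℝ) ≠ 0 := by exact_mod_cast hk.ne'
        field_simp
    rw [h5]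
    refine HasSum.mul_left _ ?_
    refine tonelli (f := fun k p => q p / p * PowerSeries.coeff k (XS ^ p)) hqp
      (g := fun p => q p / p * xs ^ p) ?_ hS ?_
    · intro p
      have h6 := (hpows p).mul_left (q p / p)
      rw [hX1xs] at h6
      exact h6
    · intro k
      refine hasSum_sum_of_ne_finset_zero fun p hp => ?_
      rw [Finset.mem_Icc] at hp
      rcases Nat.eq_zero_or_pos p with hp0 | hp0
      · rw [hp0, Nat.cast_zero, div_zero, zero_mul]
      · rw [hlow p k (by omega), mul_zero]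

end UN39
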