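import Mathlib
import Pool.Agent.H39.UN.HKd
import Pool.Agent.H39.UN.HKp
import Pool.Agent.H39.UN.PlA
import Pool.Agent.H39.UN.PlC
import Pool.Agent.H39.UN.PlD
import Pool.Agent.H39.UN.PlE
import Pool.Agent.H39.UN.KerA
import Pool.Agent.H39.UN.KerB

/-!
[H39 UN PLF]  (MP_bcc40c_pr)  The sum over `k` of the vertex identity: `Dx x = x ∑ (qf p x / p) xs^p`.

`xsf x = 8A/((A+1)(A+3))`, `A = Aof x`; `hl k x = ∑ hc k 1 (s+1) x^s`; `Dk κ x` = the partial sums.

PROOFS.  For `x ∈ (0, lamc]`: `A > 1` (psi_A, psi_ends), `kap x * xsf x = 4/(A+3) < 1`, `1 < xsf x` (`xsf - 1 = (A-1)(3-A)/((A+1)(A+3))`).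
With z_one: `x - zf 1 x = x (A+1)(A+3)/(8A)`, so `x (1 - xsf) + zf 1 x * xsf = 0` and by fac `((1 - kap xsf) √(1 - w))^2 = (1 - xsf)^2`, so
`(1 - kap xsf) √(1 - w(xsf)) = xsf - 1`, and zy_sum gives `xsf^3 ∑ zf p x xsf^p = xsf - 1`.  Uniqueness: if `0 ≤ y ≤ xsf` and
`HasSum (zf p x y^(p+3)) (y - 1)`, then `y ≥ 1`, zy_sum: `(1 - kap y) √(1 - w y) = 2 (y - 1) + 1 - y = y - 1`; square and fac:
`x (1 - y) + zf 1 x * y = 0`, so `y = xsf`.  q_sum at `xsf` gives summability of `qf p x xsf^p`, hence of `qf p x / p * xsf^p`.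
kerB with `z = zf · x`, `q = qf · x` (`zf 0 x = x`).
hf_eq: `∑_s hc k p s x^s = hF (zf · x) k p`: induction on `k` with hc_rec, hc_one, hc_zero, hc_k0 (Cauchy products; summable because
`hc k p s ≤ zc p s`).  In particular `hF (zf · x) k 1 = x * hl k x` (`hc k 1 0 = 0`: `zc 1 0 = 0`).
Dk_mono, Dk_lim: for `x > 0` divide by `x`; for `x = 0`: `zf p 0 = 0` for all `p` (zc_s0: only `s ≥ 1`), so `hF = 0`, `HF = 0` and all terms vanish;
`Dx 0 = 0`.
-/

set_option autoImplicit false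

namespace UN39

open Filter Topology

noncomputable def xsf (x : ℝ) : ℝ := 8 * Aof x / ((Aof x + 1) * (Aof x + 3))

noncomputable def hl (k : ℕ) (x : ℝ) : ℝ := ∑' s, hc k 1 (s + 1) * x ^ s

noncomputable def Hx (k p : ℕ) (x : ℝ) : ℝ := HF (fun i => zf i x) (fun i => qf i x) k p

noncomputable def Dx (x : ℝ) : ℝ := x * ∑' p : ℕ, qf p x / p * xsf x ^ p

noncomputable def Dk (κ : ℕ) (x : ℝ) : ℝ := ∑ k ∈ Finset.Icc 1 κ, (1 / (k : ℝ)) *
  (Hx k 3 x - ∑ k' ∈ Finset.range (k + 2), hl k' x * Hx (k + 1 - k') 1 x)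

theorem plf_A {x : ℝ} (h0 : 0 < x) (h1 : x ≤ lamc) : 1 < Aof x ∧ Aof x < 3 := by
  obtain ⟨a1, a2, a3⟩ := psi_A h0.le h1
  have h3 : Real.sqrt 3 < 3 := by
    rw [Real.sqrt_lt' (by norm_num)]
    norm_num
  refine ⟨lt_of_le_of_ne a1 fun h => ?_, by linarith⟩
  rw [← h, psi_ends.1] at a3
  linarith

theorem plf_lin {x y : ℝ} (h0 : 0 < x) (h1 : x ≤ lamc) :
    x * (1 - y) + zf 1 x * y = x * (1 - y / xsf x) := by
  obtain ⟨a1, a2⟩ := plf_A h0 h1
  rw [z_one h0.le h1]
  unfold xsf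
  have h3 : 0 < Aof x := by linarith
  field_simp
  ring

theorem xs_facts {x : ℝ} (h0 : 0 < x) (h1 : x ≤ lamc) :
    1 < Aof x ∧ 1 < xsf x ∧ kap x * xsf x = 4 / (Aof x + 3) ∧ kap x * xsf x < 1 ∧
    (1 - kap x * xsf x) * Real.sqrt (1 - wf x (xsf x)) = xsf x - 1 := by
  obtain ⟨a1, a2⟩ := plf_A h0 h1
  have hA : 0 < Aof x := by linarith
  have e1 : 1 < xsf x := by
    unfold xsf
    rw [lt_div_iff₀ (by positivity)]
    nlinarith
  have e2 : kap x * xsf x = 4 / (Aof x + 3) := by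
    unfold kap xsf
    field_simp
    ring
  have e3 : kap x * xsf x < 1 := by
    rw [e2, div_lt_one (by linarith)]
    linarith
  refine ⟨a1, e1, e2, e3, ?_⟩
  have w := w_lt h0.le h1 (by linarith : 0 ≤ xsf x) e3
  have f := fac h0.le h1 (xsf x)
  rw [plf_lin h0 h1, div_self (by linarith : xsf x ≠ 0), sub_self, mul_zero, mul_zero, add_zero] at f
  have h2 : ((1 - kap x * xsf x) * Real.sqrt (1 - wf x (xsf x))) ^ 2 = (xsf x - 1) ^ 2 := by
    rw [mul_pow, Real.sq_sqrt (by linarith [w.2]), ← f]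
    ring
  have h3 : 0 ≤ (1 - kap x * xsf x) * Real.sqrt (1 - wf x (xsf x)) :=
    mul_nonneg (by linarith) (Real.sqrt_nonneg _)
  exact (pow_left_inj₀ h3 (by linarith) (by norm_num)).1 h2

theorem plf_sum3 {x y : ℝ} (h0 : 0 < x) (h1 : x ≤ lamc) (hy : 0 ≤ y) (hk : kap x * y < 1) :
    HasSum (fun p => zf p x * y ^ (p + 3))
      (((1 - kap x * y) * Real.sqrt (1 - wf x y) - 1 + y) / 2) := by
  obtain ⟨z1, z2⟩ := zy_sum h0.le h1 hy hk
  have h3 := z1.hasSum.mul_left (y ^ 3)
  have e : y ^ 3 * ∑' p, zf p x * y ^ p = ((1 - kap x * y) * Real.sqrt (1 - wf x y) - 1 + y) / 2 := by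
    rw [← z2]
    ring
  rw [e] at h3
  refine h3.congr_fun fun p => ?_
  rw [pow_add]
  ring

theorem plf_ker {x : ℝ} (h0 : 0 < x) (h1 : x ≤ lamc) :
    (∀ k, 0 ≤ Ck (fun i => zf i x) (fun i => qf i x) k) ∧
    HasSum (fun k : ℕ => Ck (fun i => zf i x) (fun i => qf i x) k / k)
      (x ^ 2 * ∑' p : ℕ, qf p x / p * xsf x ^ p) := by
  obtain ⟨a1, e1, e2, e3, e4⟩ := xs_facts h0 h1
  have hxs : 0 < xsf x := by linarith
  have hkp := (kap_pos h0.le h1).1
  have hq := q_sum h0.le h1 hxs.le e3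
  have sq : Summable fun p : ℕ => qf p x / p * xsf x ^ p := by
    refine Summable.of_nonneg_of_le (fun p => ?_) (fun p => ?_) hq.summable
    · have := q_nonneg h0.le h1 p
      positivity
    · have h2 := q_nonneg h0.le h1 p
      refine mul_le_mul_of_nonneg_right ?_ (by positivity)
      rcases Nat.eq_zero_or_pos p with h | h
      · rw [h, Nat.cast_zero, div_zero, (q_01 x).1]
      · exact div_le_self h2 (by exact_mod_cast h)
  have := kerB (fun i => zf i x) (fun i => qf i x) (fun p => z_nonneg h0.le p)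
    (fun p => q_nonneg h0.le h1 p) (q_01 x).1 (xsf x) hxs ?_ ?_ _ sq.hasSum
  · rw [z_zero] at this
    exact this
  · have h3 := plf_sum3 h0 h1 hxs.le e3
    rw [e4] at h3
    have e5 : (xsf x - 1 - 1 + xsf x) / 2 = xsf x - 1 := by ring
    rw [e5] at h3
    exact h3
  · intro y hy0 hy1 hy2
    have hky : kap x * y < 1 := by
      refine lt_of_le_of_lt ?_ e3
      exact mul_le_mul_of_nonneg_left hy1 (by linarith)
    have h3 := plf_sum3 h0 h1 hy0 hky
    have h4 := h3.unique hy2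
    have h5 : 0 ≤ y - 1 := by
      rw [← hy2.tsum_eq]
      exact tsum_nonneg fun p => mul_nonneg (z_nonneg h0.le p) (by positivity)
    have h6 : (1 - kap x * y) * Real.sqrt (1 - wf x y) = y - 1 := by linarith
    have w := w_lt h0.le h1 hy0 hky
    have f := fac h0.le h1 y
    have h7 : (1 - kap x * y) ^ 2 * (1 - wf x y) = (y - 1) ^ 2 := by
      rw [← h6, mul_pow, Real.sq_sqrt (by linarith [w.2])]
    rw [h7, plf_lin h0 h1] at f
    have h8 : 4 * y ^ 3 * (x * (1 - y / xsf x)) = 0 := by linarith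
    have h9 : 0 < y := by linarith
    have h10 : 1 - y / xsf x = 0 := by
      have : 4 * y ^ 3 * x ≠ 0 := by positivity
      have h11 : 4 * y ^ 3 * x * (1 - y / xsf x) = 0 := by linarith
      exact (mul_eq_zero.1 h11).resolve_left this
    have h12 : y / xsf x = 1 := by linarith
    rwa [div_eq_one_iff_eq hxs.ne'] at h12

theorem hc_summable {x : ℝ} (h0 : 0 ≤ x) (h1 : x ≤ lamc) (k p : ℕ) :
    Summable fun s => hc k p s * x ^ s := by
  refine Summable.of_nonneg_of_le (fun s => ?_) (fun s => ?_) (z_sum h0 h1 p)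
  · exact mul_nonneg (hc_nonneg k p s) (by positivity)
  · exact mul_le_mul_of_nonneg_right (hc_le k p s) (by positivity)

theorem hf_eq {x : ℝ} (h0 : 0 ≤ x) (h1 : x ≤ lamc) (k p : ℕ) :
    HasSum (fun s => hc k p s * x ^ s) (hF (fun i => zf i x) k p) := by
  induction k generalizing p with
  | zero =>
    rcases p with _ | p
    · rw [hF, z_zero]
      have := hasSum_single (f := fun s => hc 0 0 s * x ^ s) 1
        (fun s hs => by rw [hc_zero, if_neg (fun h => hs h.2), zero_mul])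
      rw [hc_zero, if_pos ⟨rfl, rfl⟩, one_mul, pow_one] at this
      exact this
    · rw [hF]
      simp only [hc_k0, zero_mul]
      exact hasSum_zero
  | succ k ih =>
    match p with
    | 0 =>
      rw [hF]
      have : ∀ s, hc (k + 1) 0 s * x ^ s = 0 := fun s => by
        rw [hc_zero, if_neg (fun h => Nat.succ_ne_zero k h.1), zero_mul]
      simp only [this]
      exact hasSum_zero
    | 1 =>
      rw [hF]
      simp only [hc_one]
      exact ih 2
    | p + 2 =>
      rw [hF]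
      have hp : ∀ i, HasSum (fun s => ∑ t ∈ Finset.range (s + 1),
          (zc i t * x ^ t) * (hc k (p - i) (s - t) * x ^ (s - t)))
          (zf i x * hF (fun i => zf i x) k (p - i)) := by
        intro i
        have h2 := hasSum_sum_range_mul_of_summable_norm (z_sum h0 h1 i).norm
          (hc_summable h0 h1 k (p - i)).norm
        rw [(ih (p - i)).tsum_eq] at h2
        exact h2
      have h3 := (ih (p + 3)).add (hasSum_sum (s := Finset.range (p + 1)) fun i _ => hp i)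
      refine h3.congr_fun fun s => ?_
      rw [hc_rec k p s, add_mul, Finset.sum_mul]
      congr 1
      refine Finset.sum_congr rfl fun i _ => ?_
      rw [Finset.sum_mul]
      refine Finset.sum_congr rfl fun t ht => ?_
      rw [Finset.mem_range] at ht
      have e : x ^ s = x ^ t * x ^ (s - t) := by
        rw [← pow_add]
        congr 1
        omega
      rw [e]
      ring

theorem hl_eq {x : ℝ} (h0 : 0 ≤ x) (h1 : x ≤ lamc) (k : ℕ) :
    x * hl k x = hF (fun i => zf i x) k 1 := by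
  have h2 := hf_eq h0 h1 k 1
  have h3 := (hasSum_nat_add_iff' (f := fun s : ℕ => hc k 1 s * x ^ s) 1).2 h2
  have h4 : hc k 1 0 = 0 := le_antisymm (by
    have := hc_le k 1 0
    rwa [zc_s0] at this) (hc_nonneg k 1 0)
  rw [Finset.sum_range_one, h4, zero_mul, sub_zero] at h3
  rw [← h3.tsum_eq]
  unfold hl
  rw [← tsum_mul_left]
  refine tsum_congr fun s => ?_
  rw [pow_succ]
  ring

theorem icc_sum (f : ℕ → ℝ) (hf : f 0 = 0) (κ : ℕ) :
    ∑ k ∈ Finset.Icc 1 κ, f k = ∑ k ∈ Finset.range (κ + 1), f k := by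
  induction κ with
  | zero => simp [hf]
  | succ κ ih =>
    rw [Finset.sum_Icc_succ_top (by omega), ih, Finset.sum_range_succ _ (κ + 1)]

theorem Dk_ck {x : ℝ} (h0 : 0 < x) (h1 : x ≤ lamc) (κ : ℕ) :
    x * Dk κ x = ∑ k ∈ Finset.range (κ + 1), Ck (fun i => zf i x) (fun i => qf i x) k / k := by
  rw [← icc_sum _ (by rw [Nat.cast_zero, div_zero])]
  unfold Dk
  rw [Finset.mul_sum]
  refine Finset.sum_congr rfl fun k _ => ?_
  unfold Ck
  have hz0 : (fun i => zf i x) 0 = x := z_zero x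
  rw [hz0]
  have e : ∑ k' ∈ Finset.range (k + 2), hF (fun i => zf i x) k' 1 *
      HF (fun i => zf i x) (fun i => qf i x) (k + 1 - k') 1 =
      x * ∑ k' ∈ Finset.range (k + 2), hl k' x * Hx (k + 1 - k') 1 x := by
    rw [Finset.mul_sum]
    refine Finset.sum_congr rfl fun k' _ => ?_
    rw [← hl_eq h0.le h1]
    unfold Hx
    ring
  rw [e]
  unfold Hx
  ring

theorem zf_zero (p : ℕ) : zf p 0 = 0 := by
  unfold zf
  rw [tsum_eq_single 0]
  · rw [zc_s0, zero_mul]
  · intro s hs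
    rw [zero_pow hs, mul_zero]

theorem hF_zero (k p : ℕ) : hF (fun i => zf i 0) k p = 0 := by
  induction k generalizing p with
  | zero =>
    rcases p with _ | p
    · rw [hF, zf_zero]
    · rw [hF]
  | succ k ih =>
    match p with
    | 0 => rw [hF]
    | 1 =>
      rw [hF]
      exact ih 2
    | p + 2 =>
      rw [hF, ih, zero_add]
      refine Finset.sum_eq_zero fun i _ => ?_
      rw [ih, mul_zero]

theorem Hx_zero (k p : ℕ) : Hx k p 0 = 0 := by
  unfold Hx
  induction k generalizing p with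
  | zero => rw [HF]
  | succ k ih =>
    match p with
    | 0 => rw [HF]
    | 1 =>
      rw [HF]
      exact ih 2
    | p + 2 =>
      rw [HF, ih, zero_add]
      refine Finset.sum_eq_zero fun i _ => ?_
      rw [ih, hF_zero, mul_zero, mul_zero, add_zero]

theorem Dk_zero (κ : ℕ) : Dk κ 0 = 0 := by
  unfold Dk
  refine Finset.sum_eq_zero fun k _ => ?_
  rw [Hx_zero, Finset.sum_eq_zero fun k' _ => by rw [Hx_zero, mul_zero], sub_zero, mul_zero]

theorem Dk_mono {x : ℝ} (h0 : 0 ≤ x) (h1 : x ≤ lamc) (κ : ℕ) :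
    Dk κ x ≤ Dk (κ + 1) x ∧ 0 ≤ Dk κ x := by
  rcases eq_or_lt_of_le h0 with h | h
  · rw [← h, Dk_zero, Dk_zero]
    exact ⟨le_rfl, le_rfl⟩
  · have hk := (plf_ker h h1).1
    have h2 := Dk_ck h h1 κ
    have h3 := Dk_ck h h1 (κ + 1)
    rw [Finset.sum_range_succ, ← h2] at h3
    have h4 : 0 ≤ Ck (fun i => zf i x) (fun i => qf i x) (κ + 1) / ((κ + 1 : ℕ) : ℝ) :=
      div_nonneg (hk _) (Nat.cast_nonneg _)
    have h5 : 0 ≤ ∑ k ∈ Finset.range (κ + 1), Ck (fun i => zf i x) (fun i => qf i x) k / k :=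
      Finset.sum_nonneg fun k _ => div_nonneg (hk _) (Nat.cast_nonneg _)
    rw [← h2] at h5
    constructor
    · exact le_of_mul_le_mul_left (by linarith) h
    · exact nonneg_of_mul_nonneg_right h5 h

theorem Dk_lim {x : ℝ} (h0 : 0 ≤ x) (h1 : x ≤ lamc) :
    Tendsto (fun κ => Dk κ x) atTop (𝓝 (Dx x)) := by
  rcases eq_or_lt_of_le h0 with h | h
  · rw [← h]
    have : Dx 0 = 0 := by
      unfold Dx
      rw [zero_mul]
    rw [this]
    simp only [Dk_zero]
    exact tendsto_const_nhds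
  · have h2 := (plf_ker h h1).2.tendsto_sum_nat
    have h3 := (h2.comp (tendsto_add_atTop_nat 1)).const_mul (1 / x)
    have e : 1 / x * (x ^ 2 * ∑' p : ℕ, qf p x / p * xsf x ^ p) = Dx x := by
      unfold Dx
      field_simp
    rw [e] at h3
    refine h3.congr fun κ => ?_
    simp only [Function.comp]
    rw [← Dk_ck h h1 κ]
    field_simp

end UN39
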