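import Mathlib
import Pool.Agent.H39.UN.PlC
import Pool.Agent.H39.UN.PlD
import Pool.Agent.H39.UN.PlE
import Pool.Agent.H39.UN.PlF

/-!
[H39 UN PLGA]  (MP_bcc40c_pr)  The closed form of `Dx`.

`dl h = h/((1+8h) √(1-4h)) * log ((1+√(1-4h))/(1-√(1-4h)))`.

PROOFS.  Fix `x ∈ (0, lamc]`, `A = Aof x`, `k = kap x`.  `Gx y = ∑ (qf p x/p) y^p` has the derivative
`∑_{p ≥ 1} qf p x y^(p-1) = 1/((1 - k y) √(1 - w y))` on `0 < y < 1/k` (power series, q_sum; `Gx 0 = 0`, continuous on `[0, xsf]`; xs_facts: `k * xsf < 1`).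
So `Gx (xsf) = ∫_0^{xsf} dy/((1 - k y)√(1 - w y))` (Dint).
Closed form for `x < lamc` (`A < √3`): let `m^2 = k^2 - ((A-1)/A) k - (A-1)(A+3)/(4A^2) = (3 - A^2)/(2A^2) > 0`, `m = u/A` with
`u = √((3-A^2)/2) = √(1 - 4h)`, `h = (A^2-1)/8`.  Put `τ = 1/(1 - k y)`, `b = -(A-1)(A+2)/A^2`, `g = -(A-1)(A+3)/(4A^2)`;
`1 - w y = (m^2 τ^2 - b τ + g)/(k^2 τ^2)` (check with `y = (1 - 1/τ)/k`), and the function
`L(y) = (1/m) log (2 m √(m^2 τ^2 - b τ + g) + 2 m^2 τ - b)` has the derivative `1/((1 - k y) √(1 - w y))`: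
`dL/dτ = 1/√(m^2 τ^2 - b τ + g)`, `dτ/dy = k τ^2`, `√(..) = k τ √(1 - w y)`.
Values: `y = 0`, `τ = 1`: `2 m k + 2 m^2 - b = (1+A)(1+u)/A^2`.  `y = xsf`: `k xsf = 4/(A+3)`, `τ = (A+3)/(A-1)`,
`√(..) = k τ √(1 - w) = k τ^2 (xsf - 1) = (A+3)(3-A)/(2A(A-1))` (xs_facts), so the argument of the logarithm is
`(u (9 - A^2) + 11 - 3A^2)/(A^2 (A-1)) = 2 (1+u)^3/(A^2 (A-1))` (use `A^2 = 3 - 2u^2`).  Quotient: `2 (1+u)^2/(A^2 - 1) = (1+u)/(1-u)`.
So `Dx x = x (A/u) log ((1+u)/(1-u)) = dl h`, as `x = h/A^3` (psi_A), `A^2 = 1 + 8h`.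
-/

set_option autoImplicit false

namespace UN39

open Filter Topology

noncomputable def dl (h : ℝ) : ℝ := h / ((1 + 8 * h) * Real.sqrt (1 - 4 * h)) *
  Real.log ((1 + Real.sqrt (1 - 4 * h)) / (1 - Real.sqrt (1 - 4 * h)))

theorem h58_one_sub_pos {x y : ℝ} (h0 : 0 < x) (h1 : x ≤ lamc) (hy : 0 ≤ y) (hY : y ≤ xsf x) :
    kap x * y < 1 ∧ 0 ≤ wf x y ∧ wf x y < 1 := by
  obtain ⟨hA, hx1, hk, hk1, _⟩ := xs_facts h0 h1
  have hkp : 0 < kap x := by linarith [(kap_pos h0.le h1).1]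
  have h2 : kap x * y < 1 := lt_of_le_of_lt (mul_le_mul_of_nonneg_left hY hkp.le) hk1
  exact ⟨h2, w_lt h0.le h1 hy h2⟩

theorem h58_q_shift {x y : ℝ} (h0 : 0 < x) (h1 : x ≤ lamc) (hy : 0 < y) (hY : y ≤ xsf x) :
    HasSum (fun p => qf (p + 1) x * y ^ p) (1 / ((1 - kap x * y) * Real.sqrt (1 - wf x y))) := by
  have hk := (h58_one_sub_pos h0 h1 hy.le hY).1
  have h2 := q_sum h0.le h1 hy.le hk
  rw [← hasSum_nat_add_iff' 1] at h2
  simp only [Finset.sum_range_one, (q_01 x).1, zero_mul, sub_zero] at h2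
  have h3 := h2.mul_left y⁻¹
  have e : y⁻¹ * (y / ((1 - kap x * y) * Real.sqrt (1 - wf x y))) =
      1 / ((1 - kap x * y) * Real.sqrt (1 - wf x y)) := by
    rw [← mul_div_assoc, inv_mul_cancel₀ hy.ne']
  rw [e] at h3
  refine h3.congr_fun ?_
  intro p
  rw [pow_succ]
  field_simp

theorem Dint {x : ℝ} (h0 : 0 < x) (h1 : x ≤ lamc) : Dx x =
    x * ∫ y in (0 : ℝ)..xsf x, 1 / ((1 - kap x * y) * Real.sqrt (1 - wf x y)) := by
  obtain ⟨hA, hx1, hk, hk1, _⟩ := xs_facts h0 h1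
  set Y := xsf x with hY
  have hY0 : 0 < Y := by linarith
  have hsum := (h58_q_shift h0 h1 hY0 le_rfl).summable
  have key := intervalIntegral.hasSum_integral_of_dominated_convergence (μ := MeasureTheory.volume)
    (a := 0) (b := Y) (F := fun p y => qf (p + 1) x * y ^ p)
    (f := fun y => 1 / ((1 - kap x * y) * Real.sqrt (1 - wf x y)))
    (fun p _ => qf (p + 1) x * Y ^ p) ?_ ?_ ?_ ?_ ?_
  · have e : ∀ p : ℕ, ∫ y in (0 : ℝ)..Y, qf (p + 1) x * y ^ p =
        qf (p + 1) x / ((p + 1 : ℕ) : ℝ) * Y ^ (p + 1) := by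
      intro p
      rw [intervalIntegral.integral_const_mul, integral_pow]
      push_cast
      rw [zero_pow (by omega)]
      ring
    simp only [e] at key
    have h2 := (hasSum_nat_add_iff' (f := fun p : ℕ => qf p x / (p : ℝ) * Y ^ p)
      (g := ∫ y in (0 : ℝ)..Y, 1 / ((1 - kap x * y) * Real.sqrt (1 - wf x y))) 1).mp (by
        simp only [Finset.sum_range_one, (q_01 x).1, zero_mul, zero_div, sub_zero]
        exact key)
    unfold Dx
    rw [h2.tsum_eq]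
  · intro p
    exact (by fun_prop : Continuous fun y : ℝ => qf (p + 1) x * y ^ p).aestronglyMeasurable
  · intro p
    refine Filter.Eventually.of_forall fun y hy => ?_
    rw [Set.uIoc_of_le hY0.le] at hy
    have hq := q_nonneg h0.le h1 (p + 1)
    rw [norm_mul, Real.norm_of_nonneg hq, norm_pow, Real.norm_of_nonneg hy.1.le]
    exact mul_le_mul_of_nonneg_left (pow_le_pow_left₀ hy.1.le hy.2 p) hq
  · exact Filter.Eventually.of_forall fun y _ => hsum
  · exact intervalIntegrable_const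
  · refine Filter.Eventually.of_forall fun y hy => ?_
    rw [Set.uIoc_of_le hY0.le] at hy
    exact h58_q_shift h0 h1 hy.1 hy.2

/-- the argument of the logarithm -/
noncomputable def h58N (A u y : ℝ) : ℝ :=
  2 * (u / A) * ((1 + A) / (2 * A)) *
    Real.sqrt (1 - ((A - 1) / A * y + (A - 1) * (A + 3) / (4 * A ^ 2) * y ^ 2)) +
    2 * (u / A) ^ 2 + (A - 1) * (A + 2) / A ^ 2 * (1 - (1 + A) / (2 * A) * y)

theorem h58_deriv {A u y : ℝ} (hA : 1 < A) (hu : 0 < u) (hAu : 2 * u ^ 2 = 3 - A ^ 2)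
    (hk : (1 + A) / (2 * A) * y < 1)
    (hw : (A - 1) / A * y + (A - 1) * (A + 3) / (4 * A ^ 2) * y ^ 2 < 1) :
    0 < h58N A u y ∧
    HasDerivAt (fun y => A / u * (Real.log (h58N A u y) - Real.log (1 - (1 + A) / (2 * A) * y)))
      (1 / ((1 - (1 + A) / (2 * A) * y) *
        Real.sqrt (1 - ((A - 1) / A * y + (A - 1) * (A + 3) / (4 * A ^ 2) * y ^ 2)))) y := by
  have hA0 : 0 < A := by linarith
  have hs : 0 < Real.sqrt (1 - ((A - 1) / A * y + (A - 1) * (A + 3) / (4 * A ^ 2) * y ^ 2)) :=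
    Real.sqrt_pos.mpr (by linarith)
  have hs2 := Real.sq_sqrt (show 0 ≤ 1 - ((A - 1) / A * y + (A - 1) * (A + 3) / (4 * A ^ 2) * y ^ 2)
    by linarith)
  have hq : 0 < 1 - (1 + A) / (2 * A) * y := by linarith
  have hN : 0 < h58N A u y := by
    unfold h58N
    have h1 : 0 ≤ (A - 1) * (A + 2) / A ^ 2 * (1 - (1 + A) / (2 * A) * y) :=
      mul_nonneg (div_nonneg (mul_nonneg (by linarith) (by linarith)) (by positivity)) hq.le
    have h2 : 0 < 2 * (u / A) * ((1 + A) / (2 * A)) *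
      Real.sqrt (1 - ((A - 1) / A * y + (A - 1) * (A + 3) / (4 * A ^ 2) * y ^ 2)) := by positivity
    have h3 : 0 < 2 * (u / A) ^ 2 := by positivity
    linarith
  refine ⟨hN, ?_⟩
  have hw' : HasDerivAt (fun y : ℝ => 1 - ((A - 1) / A * y +
      (A - 1) * (A + 3) / (4 * A ^ 2) * y ^ 2))
      (-((A - 1) / A + (A - 1) * (A + 3) / (4 * A ^ 2) * (2 * y))) y := by
    have h1 := ((hasDerivAt_id y).const_mul ((A - 1) / A)).add
      ((hasDerivAt_pow 2 y).const_mul ((A - 1) * (A + 3) / (4 * A ^ 2)))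
    have h2 := h1.const_sub 1
    refine h2.congr_deriv ?_
    norm_num
  have hs' := hw'.sqrt (show (1 : ℝ) - ((A - 1) / A * y +
      (A - 1) * (A + 3) / (4 * A ^ 2) * y ^ 2) ≠ 0 by
        intro h
        linarith)
  have hq' : HasDerivAt (fun y : ℝ => 1 - (1 + A) / (2 * A) * y) (-((1 + A) / (2 * A))) y := by
    have h1 := ((hasDerivAt_id y).const_mul ((1 + A) / (2 * A))).const_sub 1
    refine h1.congr_deriv ?_
    norm_num
  have hN' : HasDerivAt (h58N A u) (2 * (u / A) * ((1 + A) / (2 * A)) *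
      (-((A - 1) / A + (A - 1) * (A + 3) / (4 * A ^ 2) * (2 * y)) /
        (2 * Real.sqrt (1 - ((A - 1) / A * y + (A - 1) * (A + 3) / (4 * A ^ 2) * y ^ 2)))) +
      (A - 1) * (A + 2) / A ^ 2 * (-((1 + A) / (2 * A)))) y := by
    unfold h58N
    exact ((hs'.const_mul _).add_const _).add (hq'.const_mul _)
  have hL := ((hN'.log hN.ne').sub (hq'.log hq.ne')).const_mul (A / u)
  refine hL.congr_deriv ?_
  have hNv : h58N A u y = 2 * (u / A) * ((1 + A) / (2 * A)) *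
    Real.sqrt (1 - ((A - 1) / A * y + (A - 1) * (A + 3) / (4 * A ^ 2) * y ^ 2)) +
    2 * (u / A) ^ 2 + (A - 1) * (A + 2) / A ^ 2 * (1 - (1 + A) / (2 * A) * y) := rfl
  set S := Real.sqrt (1 - ((A - 1) / A * y + (A - 1) * (A + 3) / (4 * A ^ 2) * y ^ 2)) with hS
  set N := h58N A u y with hNN
  set q := 1 - (1 + A) / (2 * A) * y with hqq
  -- the main identity
  have hu2 : u ^ 2 = (3 - A ^ 2) / 2 := by linarith
  have main : (2 * (u / A) * ((1 + A) / (2 * A)) *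
      (-((A - 1) / A + (A - 1) * (A + 3) / (4 * A ^ 2) * (2 * y)) / 2) +
      (A - 1) * (A + 2) / A ^ 2 * (-((1 + A) / (2 * A))) * S) * q + (1 + A) / (2 * A) * N * S
      = u / A * N := by
    have e1 : (1 + A) / (2 * A) * N * S = (1 + A) / (2 * A) * (2 * (u / A) * ((1 + A) / (2 * A)) *
      (1 - ((A - 1) / A * y + (A - 1) * (A + 3) / (4 * A ^ 2) * y ^ 2)) +
      (2 * (u / A) ^ 2 + (A - 1) * (A + 2) / A ^ 2 * q) * S) := by
      rw [hNv, ← hs2]
      ring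
    rw [e1, hNv, hqq]
    have e2 : u ^ 3 = u * ((3 - A ^ 2) / 2) := by
      rw [← hu2]
      ring
    field_simp
    ring_nf
    rw [e2]
    ring
  have e3 : A / u * ((2 * (u / A) * ((1 + A) / (2 * A)) *
      (-((A - 1) / A + (A - 1) * (A + 3) / (4 * A ^ 2) * (2 * y)) / (2 * S)) +
      (A - 1) * (A + 2) / A ^ 2 * (-((1 + A) / (2 * A)))) / N - (-((1 + A) / (2 * A))) / q) =
      A / u * (((2 * (u / A) * ((1 + A) / (2 * A)) *
      (-((A - 1) / A + (A - 1) * (A + 3) / (4 * A ^ 2) * (2 * y)) / 2) +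
      (A - 1) * (A + 2) / A ^ 2 * (-((1 + A) / (2 * A))) * S) * q + (1 + A) / (2 * A) * N * S) /
      (N * q * S)) := by
    generalize (A - 1) / A + (A - 1) * (A + 3) / (4 * A ^ 2) * (2 * y) = W
    generalize (1 + A) / (2 * A) = K
    generalize (A - 1) * (A + 2) / A ^ 2 = B
    field_simp
    ring
  rw [e3, main]
  field_simp

theorem h58_N_zero {A u : ℝ} (hA : 1 < A) (hAu : 2 * u ^ 2 = 3 - A ^ 2) :
    h58N A u 0 = (1 + A) * (1 + u) / A ^ 2 := by
  unfold h58N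
  have hA0 : 0 < A := by linarith
  simp only [mul_zero, ne_eq, OfNat.ofNat_ne_zero, not_false_eq_true, zero_pow, add_zero, sub_zero,
    Real.sqrt_one, mul_one]
  have hu2 : u ^ 2 = (3 - A ^ 2) / 2 := by linarith
  rw [div_pow, hu2]
  field_simp
  ring

theorem h58_N_end {A u Y : ℝ} (hA : 1 < A) (hAu : 2 * u ^ 2 = 3 - A ^ 2)
    (hY : Y = 8 * A / ((A + 1) * (A + 3)))
    (hs : (1 - (1 + A) / (2 * A) * Y) *
      Real.sqrt (1 - ((A - 1) / A * Y + (A - 1) * (A + 3) / (4 * A ^ 2) * Y ^ 2)) = Y - 1) :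
    1 - (1 + A) / (2 * A) * Y = (A - 1) / (A + 3) ∧
    h58N A u Y / ((A - 1) / (A + 3)) = 2 * (1 + u) ^ 3 / (A ^ 2 * (A - 1)) := by
  have hA0 : 0 < A := by linarith
  have hA1 : 0 < A - 1 := by linarith
  have e0 : 1 - (1 + A) / (2 * A) * Y = (A - 1) / (A + 3) := by
    rw [hY]
    field_simp
    ring
  refine ⟨e0, ?_⟩
  rw [e0] at hs
  have e1 : Real.sqrt (1 - ((A - 1) / A * Y + (A - 1) * (A + 3) / (4 * A ^ 2) * Y ^ 2)) =
      (3 - A) / (A + 1) := by
    have h2 : (A - 1) / (A + 3) ≠ 0 := by positivity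
    refine mul_left_cancel₀ h2 ?_
    rw [hs, hY]
    field_simp
    ring
  unfold h58N
  rw [e1, e0]
  have hu2 : u ^ 2 = (3 - A ^ 2) / 2 := by linarith
  have e2 : 2 * (1 + u) ^ 3 = 2 + 6 * u + 6 * u ^ 2 + 2 * u * u ^ 2 := by ring
  rw [e2, div_pow, hu2]
  field_simp
  ring

theorem Dx_closed {x : ℝ} (h0 : 0 < x) (h1 : x < lamc) : Dx x = dl ((Aof x ^ 2 - 1) / 8) := by
  obtain ⟨hA, hx1, hk, hk1, hs⟩ := xs_facts h0 h1.le
  obtain ⟨hA1, hA3, hpsi⟩ := psi_A h0.le h1.le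
  have hlt : Aof x < Real.sqrt 3 := by
    refine lt_of_le_of_ne hA3 fun h => ?_
    rw [h, psi_ends.2] at hpsi
    linarith
  have hA2 : Aof x ^ 2 < 3 := by
    have h := pow_lt_pow_left₀ hlt (by linarith) (show (2 : ℕ) ≠ 0 by norm_num)
    rwa [Real.sq_sqrt (by norm_num)] at h
  have hint := Dint h0 h1.le
  set A := Aof x with hAdef
  set Y := xsf x with hYdef
  have hY0 : 0 < Y := by linarith
  set u := Real.sqrt ((3 - A ^ 2) / 2) with hu
  have hu0 : 0 < u := Real.sqrt_pos.mpr (by linarith)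
  have hu2 : u ^ 2 = (3 - A ^ 2) / 2 := Real.sq_sqrt (by linarith)
  have hAu : 2 * u ^ 2 = 3 - A ^ 2 := by linarith
  have hu1 : u < 1 := by
    rw [hu, Real.sqrt_lt' (by norm_num)]
    nlinarith
  have hmem : ∀ y ∈ Set.uIcc (0 : ℝ) Y, (1 + A) / (2 * A) * y < 1 ∧
      (A - 1) / A * y + (A - 1) * (A + 3) / (4 * A ^ 2) * y ^ 2 < 1 := by
    intro y hy
    rw [Set.uIcc_of_le hY0.le] at hy
    have h := h58_one_sub_pos h0 h1.le hy.1 hy.2
    exact ⟨h.1, h.2.2⟩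
  have hFTC := intervalIntegral.integral_eq_sub_of_hasDerivAt
    (f := fun y => A / u * (Real.log (h58N A u y) - Real.log (1 - (1 + A) / (2 * A) * y)))
    (f' := fun y => 1 / ((1 - (1 + A) / (2 * A) * y) *
        Real.sqrt (1 - ((A - 1) / A * y + (A - 1) * (A + 3) / (4 * A ^ 2) * y ^ 2))))
    (a := 0) (b := Y)
    (fun y hy => (h58_deriv hA hu0 hAu (hmem y hy).1 (hmem y hy).2).2) (by
      refine ContinuousOn.intervalIntegrable ?_
      refine ContinuousOn.div continuousOn_const ?_ ?_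
      · fun_prop
      · intro y hy
        have h2 := hmem y hy
        have h3 : 0 < 1 - (1 + A) / (2 * A) * y := by linarith [h2.1]
        have h4 : 0 < Real.sqrt (1 - ((A - 1) / A * y + (A - 1) * (A + 3) / (4 * A ^ 2) * y ^ 2)) :=
          Real.sqrt_pos.mpr (by linarith [h2.2])
        positivity)
  have hNend := h58_N_end hA hAu (Y := Y) rfl hs
  have hNzero := h58_N_zero hA hAu
  have hNp0 := (h58_deriv hA hu0 hAu (hmem 0 Set.left_mem_uIcc).1 (hmem 0 Set.left_mem_uIcc).2).1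
  have hNpY := (h58_deriv hA hu0 hAu (hmem Y Set.right_mem_uIcc).1 (hmem Y Set.right_mem_uIcc).2).1
  have hA0 : 0 < A := by linarith
  have hA10 : 0 < A - 1 := by linarith
  have hval : A / u * (Real.log (h58N A u Y) - Real.log (1 - (1 + A) / (2 * A) * Y)) -
      A / u * (Real.log (h58N A u 0) - Real.log (1 - (1 + A) / (2 * A) * 0)) =
      A / u * Real.log ((1 + u) / (1 - u)) := by
    have hp : 0 < (A - 1) / (A + 3) := by positivity
    rw [hNend.1, ← Real.log_div hNpY.ne' hp.ne', hNend.2, hNzero]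
    simp only [mul_zero, sub_zero, Real.log_one]
    have h1u : 0 < 1 - u := by linarith
    rw [← mul_sub, ← Real.log_div (by positivity) (by positivity)]
    congr 2
    have e : A ^ 2 - 1 = 2 * ((1 - u) * (1 + u)) := by
      have : (1 - u) * (1 + u) = 1 - u ^ 2 := by ring
      rw [this, hu2]
      ring
    rw [div_div_div_eq, div_eq_div_iff (by positivity) (by positivity)]
    have e5 : A ^ 2 * (A - 1) * ((1 + A) * (1 + u)) = A ^ 2 * (A ^ 2 - 1) * (1 + u) := by ring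
    rw [e5, e]
    ring
  have hint2 : Dx x = x * (A / u * Real.log ((1 + u) / (1 - u))) := by
    rw [hint, ← hval, ← hFTC]
    rfl
  rw [hint2]
  unfold dl
  have e6 : 1 - 4 * ((A ^ 2 - 1) / 8) = (3 - A ^ 2) / 2 := by ring
  have e7 : 1 + 8 * ((A ^ 2 - 1) / 8) = A ^ 2 := by ring
  rw [e6, e7, ← hu]
  have hx : x = (A ^ 2 - 1) / (8 * A ^ 3) := by
    have := hpsi
    unfold psi at this
    linarith
  rw [hx]
  field_simp

end UN39
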