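import Mathlib
import Pool.Agent.H39.UN.PlC
import Pool.Agent.H39.UN.PlD
import Pool.Agent.H39.UN.PlE
import Pool.Agent.H39.UN.PlF
import Pool.Agent.H39.UN.PlGa

/-!
[H39 UN PLGB]  (MP_bcc40c_pr)  Monotonicity of `dl` and `lam`.  Real analysis.

PROOFS.  dl_mono: put `u = √(1-4h)`: `dl h = (1-u^2)/(4 (3-2u^2) u) log ((1+u)/(1-u))`; it is strictly decreasing in `u ∈ (0,1)`: with
`Λ = log ((1+u)/(1-u)) > 2u + 2u^3/3` (derivative `2/(1-u^2) > 2 + 2u^2`) the logarithmic derivative is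
`-2u/(1-u^2) - 1/u + 4u/(3-2u^2) + 2/((1-u^2) Λ)` and it is negative because
`1/(u (1-u^2)(1+u^2/3)) < 2u/(1-u^2) + 1/u - 4u/(3-2u^2)`, equivalent (times `u(1-u^2)`, `s = u^2`) to `3/(3+s) < (3 - 3s + 2s^2)/(3-2s)`, i.e.
`9 - 6s < 9 - 6s + 3s^2 + 2s^3`.  So dl is strictly increasing on `(0, 1/4)`.
dl_lim: as `h → 0+`: `1 - u = 4h/(1+u) ≥ 2h`, so `log ((1+u)/(1-u)) ≤ log (1/h)` and `dl h ≤ h log (1/h)/u → 0`.  As `h → 1/4-`: `u → 0+`,
`log ((1+u)/(1-u))/u → 2`, `h/(1+8h) → 1/12`.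
lam_mono: `lam h = h (1+8h)^(-3/2)`, derivative `(1-4h)(1+8h)^(-5/2)`.
lam_psi: `A = √(1+8h)`: `psi A = 8h/(8 A^3) = h/(1+8h)^(3/2)`.
-/

set_option autoImplicit false

namespace UN39

open Filter Topology

/-- the value `λ(h)` -/
noncomputable def lam (h : ℝ) : ℝ := h / (1 + 8 * h) ^ (3 / 2 : ℝ)

theorem h58_log_ge {u : ℝ} (h0 : 0 < u) (h1 : u < 1) :
    2 * u + 2 * u ^ 3 / 3 < Real.log ((1 + u) / (1 - u)) := by
  have habs : |u| < 1 := by rw [abs_of_pos h0]; exact h1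
  have h := Real.hasSum_log_sub_log_of_abs_lt_one habs
  have h2 := sum_le_hasSum (Finset.range 3) (fun k _ => by positivity) h
  rw [Real.log_div (by linarith) (by linarith)]
  refine lt_of_lt_of_le ?_ h2
  rw [Finset.sum_range_succ, Finset.sum_range_succ, Finset.sum_range_succ, Finset.sum_range_zero]
  have h5 : 0 < u ^ 5 := by positivity
  norm_num
  nlinarith

/-- `dl` as a function of `u = √(1-4h)` -/
noncomputable def h58F (u : ℝ) : ℝ := (1 - u ^ 2) / (12 * u - 8 * u ^ 3) *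
  Real.log ((1 + u) / (1 - u))

theorem h58_logderiv {u : ℝ} (h0 : -1 < u) (h1 : u < 1) :
    HasDerivAt (fun u : ℝ => Real.log ((1 + u) / (1 - u))) (2 / (1 - u ^ 2)) u := by
  have ha : 0 < 1 + u := by linarith
  have hb : 0 < 1 - u := by linarith
  have h2 : HasDerivAt (fun u : ℝ => (1 + u) / (1 - u))
      ((1 * (1 - u) - (1 + u) * (-1)) / (1 - u) ^ 2) u := by
    refine HasDerivAt.div ?_ ?_ hb.ne'
    · simpa using (hasDerivAt_id u).const_add 1
    · simpa using (hasDerivAt_id u).const_sub 1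
  have h3 := h2.log (div_pos ha hb).ne'
  refine h3.congr_deriv ?_
  have hc : (1 - u ^ 2) = (1 + u) * (1 - u) := by ring
  rw [hc]
  field_simp
  ring

theorem h58_F_deriv {u : ℝ} (h0 : 0 < u) (h1 : u < 1) :
    HasDerivAt h58F (((-2 * u) * (12 * u - 8 * u ^ 3) - (1 - u ^ 2) * (12 - 24 * u ^ 2)) /
      (12 * u - 8 * u ^ 3) ^ 2 * Real.log ((1 + u) / (1 - u)) +
      (1 - u ^ 2) / (12 * u - 8 * u ^ 3) * (2 / (1 - u ^ 2))) u := by
  have hD : 0 < 12 * u - 8 * u ^ 3 := by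
    have : 12 * u - 8 * u ^ 3 = u * (4 + 8 * (1 - u ^ 2)) := by ring
    rw [this]
    have : 0 < 1 - u ^ 2 := by nlinarith
    positivity
  unfold h58F
  refine HasDerivAt.mul ?_ (h58_logderiv (by linarith) h1)
  refine HasDerivAt.div ?_ ?_ hD.ne'
  · have := (hasDerivAt_pow 2 u).const_sub 1
    refine this.congr_deriv ?_
    norm_num
  · have := ((hasDerivAt_id u).const_mul 12).sub ((hasDerivAt_pow 3 u).const_mul 8)
    refine this.congr_deriv ?_
    norm_num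
    ring

theorem h58_F_anti : StrictAntiOn h58F (Set.Ioo 0 1) := by
  refine strictAntiOn_of_deriv_neg (convex_Ioo 0 1) ?_ ?_
  · intro u hu
    exact (h58_F_deriv hu.1 hu.2).continuousAt.continuousWithinAt
  · intro u hu
    rw [interior_Ioo] at hu
    obtain ⟨h0, h1⟩ := hu
    rw [(h58_F_deriv h0 h1).deriv]
    have hu2 : 0 < 1 - u ^ 2 := by nlinarith
    have hD : 0 < 12 * u - 8 * u ^ 3 := by
      have : 12 * u - 8 * u ^ 3 = u * (4 + 8 * (1 - u ^ 2)) := by ring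
      rw [this]
      positivity
    have hL := h58_log_ge h0 h1
    set L := Real.log ((1 + u) / (1 - u)) with hLdef
    have e1 : ((-2 * u) * (12 * u - 8 * u ^ 3) - (1 - u ^ 2) * (12 - 24 * u ^ 2)) /
      (12 * u - 8 * u ^ 3) ^ 2 * L + (1 - u ^ 2) / (12 * u - 8 * u ^ 3) * (2 / (1 - u ^ 2)) =
      (2 * (12 * u - 8 * u ^ 3) - (12 - 12 * u ^ 2 + 8 * u ^ 4) * L) /
        (12 * u - 8 * u ^ 3) ^ 2 := by
      have hu' := hu2.ne'
      have hD' := hD.ne'
      generalize hDD : 12 * u - 8 * u ^ 3 = D at *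
      rw [eq_div_iff (by positivity)]
      have : (1 - u ^ 2) / D * (2 / (1 - u ^ 2)) = 2 / D := by field_simp
      rw [this]
      have e2 : (-2 * u * D - (1 - u ^ 2) * (12 - 24 * u ^ 2)) = -(12 - 12 * u ^ 2 + 8 * u ^ 4) := by
        rw [← hDD]
        ring
      rw [e2]
      field_simp
      ring
    rw [e1]
    refine div_neg_of_neg_of_pos ?_ (by positivity)
    have hq : 0 < 12 - 12 * u ^ 2 + 8 * u ^ 4 := by nlinarith [pow_pos h0 4]
    have h3 := mul_lt_mul_of_pos_left hL hq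
    have h4 : (12 - 12 * u ^ 2 + 8 * u ^ 4) * (2 * u + 2 * u ^ 3 / 3) =
      2 * (12 * u - 8 * u ^ 3) + (8 * u ^ 5 + 16 / 3 * u ^ 7) := by ring
    have h5 : 0 < 8 * u ^ 5 + 16 / 3 * u ^ 7 := by positivity
    linarith

theorem h58_sq {h : ℝ} (h1 : h ≤ 1 / 4) : Real.sqrt (1 - 4 * h) ^ 2 = 1 - 4 * h :=
  Real.sq_sqrt (by linarith)

theorem h58_u_mem {h : ℝ} (hh : h ∈ Set.Ioo (0 : ℝ) (1 / 4)) :
    Real.sqrt (1 - 4 * h) ∈ Set.Ioo (0 : ℝ) 1 := by
  constructor
  · exact Real.sqrt_pos.mpr (by linarith [hh.2])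
  · rw [Real.sqrt_lt' (by norm_num)]
    linarith [hh.1]

theorem h58_dl_eq {h : ℝ} (hh : h ∈ Set.Ioo (0 : ℝ) (1 / 4)) :
    dl h = h58F (Real.sqrt (1 - 4 * h)) := by
  have hu := h58_u_mem hh
  have h2 := h58_sq hh.2.le
  unfold dl h58F
  set u := Real.sqrt (1 - 4 * h) with hudef
  have hh' : h = (1 - u ^ 2) / 4 := by rw [h2]; ring
  congr 1
  rw [hh']
  have hD : (0 : ℝ) < 12 * u - 8 * u ^ 3 := by
    have : 12 * u - 8 * u ^ 3 = u * (4 + 8 * (1 - u ^ 2)) := by ring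
    rw [this]
    have h3 : 0 < 1 - u ^ 2 := by nlinarith [hu.1, hu.2]
    have := hu.1
    positivity
  have h3 : (1 + 8 * ((1 - u ^ 2) / 4)) * u = (12 * u - 8 * u ^ 3) / 4 := by ring
  rw [h3, div_div_div_cancel_right₀ (by norm_num)]

theorem dl_mono : StrictMonoOn dl (Set.Ioo 0 (1 / 4)) := by
  intro a ha b hb hab
  rw [h58_dl_eq ha, h58_dl_eq hb]
  refine h58_F_anti (h58_u_mem hb) (h58_u_mem ha) ?_
  exact Real.sqrt_lt_sqrt (by linarith [hb.2]) (by linarith)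

theorem dl_lim : Tendsto dl (𝓝[>] 0) (𝓝 0) ∧ Tendsto dl (𝓝[<] (1 / 4)) (𝓝 (1 / 6)) := by
  constructor
  · have hc : ContinuousAt (fun h : ℝ => 1 / ((1 + 8 * h) * Real.sqrt (1 - 4 * h)) *
        (2 * h * Real.log (1 + Real.sqrt (1 - 4 * h)) - 1 / 4 * (4 * h * Real.log (4 * h)))) 0 := by
      refine ContinuousAt.mul ?_ (ContinuousAt.sub ?_ ?_)
      · refine ContinuousAt.div continuousAt_const ?_ ?_
        · fun_prop
        · norm_num
      · refine ContinuousAt.mul (by fun_prop) (ContinuousAt.log (by fun_prop) ?_)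
        norm_num
      · refine ContinuousAt.mul continuousAt_const ?_
        have h1 : Continuous (fun h : ℝ => 4 * h * Real.log (4 * h)) :=
          Real.continuous_mul_log.comp (continuous_const.mul continuous_id)
        exact h1.continuousAt
    have h2 := hc.tendsto
    simp only [mul_zero, zero_mul, sub_zero] at h2
    refine (h2.mono_left nhdsWithin_le_nhds).congr' ?_
    have h3 : Set.Ioo (0 : ℝ) (1 / 4) ∈ 𝓝[>] (0 : ℝ) := Ioo_mem_nhdsGT (by norm_num)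
    filter_upwards [h3] with h hh
    have hu := h58_u_mem hh
    have hs := h58_sq hh.2.le
    unfold dl
    set u := Real.sqrt (1 - 4 * h) with hudef
    have e1 : (1 + u) / (1 - u) = (1 + u) ^ 2 / (4 * h) := by
      rw [div_eq_div_iff (by linarith [hu.2]) (by linarith [hh.1])]
      have : 4 * h = 1 - u ^ 2 := by rw [hs]; ring
      rw [this]
      ring
    rw [e1, Real.log_div (by have := hu.1; positivity) (by have := hh.1; positivity), Real.log_pow]
    push_cast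
    field_simp
    try ring
  · have h1 : Tendsto (fun h : ℝ => Real.sqrt (1 - 4 * h)) (𝓝[<] (1 / 4)) (𝓝[>] 0) := by
      refine tendsto_nhdsWithin_iff.mpr ⟨?_, ?_⟩
      · have : Tendsto (fun h : ℝ => Real.sqrt (1 - 4 * h)) (𝓝 (1 / 4)) (𝓝 (Real.sqrt (1 - 4 * (1 / 4)))) :=
          (Continuous.tendsto (by fun_prop) _)
        have h2 : Real.sqrt (1 - 4 * (1 / 4)) = 0 := by norm_num
        rw [h2] at this
        exact this.mono_left nhdsWithin_le_nhds
      · filter_upwards [self_mem_nhdsWithin] with h hh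
        have hh' : h < 1 / 4 := hh
        exact Real.sqrt_pos.mpr (by linarith)
    have h2 : Tendsto (fun u : ℝ => (1 - u ^ 2) / (12 - 8 * u ^ 2) *
        (u⁻¹ * Real.log ((1 + u) / (1 - u)))) (𝓝[>] 0) (𝓝 (1 / 12 * 2)) := by
      refine Tendsto.mul ?_ ?_
      · have hc : ContinuousAt (fun u : ℝ => (1 - u ^ 2) / (12 - 8 * u ^ 2)) 0 := by
          refine ContinuousAt.div (by fun_prop) (by fun_prop) (by norm_num)
        have h3 := hc.tendsto
        have h4 : ((1 : ℝ) - 0 ^ 2) / (12 - 8 * 0 ^ 2) = 1 / 12 := by norm_num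
        rw [h4] at h3
        exact h3.mono_left nhdsWithin_le_nhds
      · have h3 := (h58_logderiv (u := 0) (by norm_num) (by norm_num)).tendsto_slope_zero_right
        simp only [zero_add, add_zero, sub_zero, div_one, Real.log_one, smul_eq_mul] at h3
        have h4 : (2 : ℝ) / (1 - 0 ^ 2) = 2 := by norm_num
        rw [h4] at h3
        exact h3
    have h3 := h2.comp h1
    have h4 : (1 : ℝ) / 12 * 2 = 1 / 6 := by norm_num
    rw [h4] at h3
    refine h3.congr' ?_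
    have h5 : Set.Ioo (0 : ℝ) (1 / 4) ∈ 𝓝[<] (1 / 4 : ℝ) := Ioo_mem_nhdsLT (by norm_num)
    filter_upwards [h5] with h hh
    have hu := h58_u_mem hh
    rw [h58_dl_eq hh]
    simp only [Function.comp, h58F]
    set u := Real.sqrt (1 - 4 * h) with hudef
    have hu0 := hu.1
    have hD : (0 : ℝ) < 12 - 8 * u ^ 2 := by nlinarith [hu.1, hu.2]
    have hD' := hD.ne'
    have e : 12 * u - 8 * u ^ 3 = u * (12 - 8 * u ^ 2) := by ring
    rw [e]
    field_simp

theorem lam_psi {h : ℝ} (h0 : 0 ≤ h) (h1 : h ≤ 1 / 4) : lam h = psi (Real.sqrt (1 + 8 * h)) ∧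
    1 ≤ Real.sqrt (1 + 8 * h) ∧ Real.sqrt (1 + 8 * h) ≤ Real.sqrt 3 := by
  have hp : 0 < 1 + 8 * h := by linarith
  refine ⟨?_, ?_, Real.sqrt_le_sqrt (by linarith)⟩
  · have e1 : (1 + 8 * h) ^ (3 / 2 : ℝ) = Real.sqrt (1 + 8 * h) ^ 3 := by
      rw [Real.sqrt_eq_rpow, ← Real.rpow_natCast, ← Real.rpow_mul hp.le]
      norm_num
    unfold lam psi
    rw [e1, Real.sq_sqrt hp.le]
    have : 0 < Real.sqrt (1 + 8 * h) := Real.sqrt_pos.mpr hp
    field_simp
    ring
  · rw [Real.one_le_sqrt]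
    linarith

theorem lam_mono : StrictMonoOn lam (Set.Icc 0 (1 / 4)) := by
  intro a ha b hb hab
  obtain ⟨e1, h1, h2⟩ := lam_psi ha.1 ha.2
  obtain ⟨e3, h3, h4⟩ := lam_psi hb.1 hb.2
  rw [e1, e3]
  exact psi_mono ⟨h1, h2⟩ ⟨h3, h4⟩ (Real.sqrt_lt_sqrt (by linarith [ha.1]) (by linarith))

end UN39
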