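import Mathlib
import Pool.Agent.H39.UN.PlC
import Pool.Agent.H39.UN.PlD
import Pool.Agent.H39.UN.PlE
import Pool.Agent.H39.UN.PlF
import Pool.Agent.H39.UN.PlGa
import Pool.Agent.H39.UN.PlGb

/-!
[H39 UN PLG]  (MP_bcc40c_pr)  Continuity and monotonicity of `Dx`.

PROOFS.  Dx_cont: on `(0, lamc]`: `Dx x = x xsf(x) ∫_0^1 dt/((1 - k xsf t) √(1 - w (xsf t)))` (Dint, substitution), the integrand is jointly continuous in
`(x, t)` on `(0, lamc] × [0,1]` (the denominator is positive: `k xsf t < 1`, `w < 1` by w_lt), Aof is continuous (A_cont); use continuity of an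
interval integral in a parameter (`intervalIntegral.continuousOn_...` or dominated convergence on a compact subinterval `[a, lamc]`, or
`continuous_parametric_intervalIntegral_of_continuous` after a change of the domain).  At `x = 0`: `Dx 0 = 0` and for small `x > 0`
`Dx x = dl h` (Dx_closed), `h = (Aof x^2 - 1)/8 → 0+`, dl_lim.
Dx_mono: on `(0, lamc)` by Dx_closed, dl_mono and `h = (A^2-1)/8` strictly increasing in `x` (psi_mono, psi_A); extend to `[0, lamc]` by continuity.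
lam_facts: lam_psi, A_psi, psi_mono, psi_ends; `Dx (lam h) = dl h`: Dx_closed with `(Aof^2 - 1)/8 = h`.  Dx_inj: injectivity.
-/

set_option autoImplicit false

namespace UN39

open Filter Topology

theorem plg_A {x : ℝ} (h0 : 0 < x) (h1 : x ≤ lamc) : 1 < Aof x := (xs_facts h0 h1).1

theorem plg_Azero : Aof 0 = 1 := by
  have h1 := A_psi (A := 1) le_rfl (by
    rw [show (1 : ℝ) = Real.sqrt 1 by simp]
    exact Real.sqrt_le_sqrt (by norm_num))
  rwa [psi_ends.1] at h1

theorem Dx_zero : Dx 0 = 0 := by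
  unfold Dx
  rw [zero_mul]

theorem plg_sub {x : ℝ} (h0 : 0 < x) (h1 : x ≤ lamc) : Dx x =
    x * (xsf x * ∫ t in (0 : ℝ)..1, 1 / ((1 - kap x * (xsf x * t)) * Real.sqrt (1 - wf x (xsf x * t)))) := by
  have h2 := intervalIntegral.smul_integral_comp_mul_left (a := 0) (b := 1)
    (fun y => 1 / ((1 - kap x * y) * Real.sqrt (1 - wf x y))) (xsf x)
  rw [smul_eq_mul, mul_zero, mul_one] at h2
  rw [h2]
  exact Dint h0 h1

theorem plg_contOn {a : ℝ} (ha : 0 < a) (ha1 : a ≤ lamc) : ContinuousOn Dx (Set.Icc a lamc) := by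
  obtain ⟨P, hP⟩ : ∃ P : ℝ → ℝ, P = fun x => max a (min x lamc) := ⟨_, rfl⟩
  obtain ⟨T, hT⟩ : ∃ T : ℝ → ℝ, T = fun t => max 0 (min t 1) := ⟨_, rfl⟩
  have hPc : Continuous P := by
    rw [hP]
    fun_prop
  have hTc : Continuous T := by
    rw [hT]
    fun_prop
  have hP1 : ∀ x, a ≤ P x ∧ P x ≤ lamc := by
    intro x
    rw [hP]
    exact ⟨le_max_left _ _, max_le ha1 (min_le_right _ _)⟩
  have hP2 : ∀ x ∈ Set.Icc a lamc, P x = x := by
    intro x hx
    rw [hP]
    show max a (min x lamc) = x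
    rw [min_eq_left hx.2, max_eq_right hx.1]
  have hT1 : ∀ t, 0 ≤ T t ∧ T t ≤ 1 := by
    intro t
    rw [hT]
    exact ⟨le_max_left _ _, max_le zero_le_one (min_le_right _ _)⟩
  have hT2 : ∀ t ∈ Set.Icc (0 : ℝ) 1, T t = t := by
    intro t ht
    rw [hT]
    show max 0 (min t 1) = t
    rw [min_eq_left ht.2, max_eq_right ht.1]
  have hAc : Continuous (fun x => Aof (P x)) :=
    A_cont.comp_continuous hPc (fun x => ⟨ha.le.trans (hP1 x).1, (hP1 x).2⟩)
  have hA1 : ∀ x, 1 < Aof (P x) := fun x => plg_A (ha.trans_le (hP1 x).1) (hP1 x).2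
  have hkc : Continuous (fun x => kap (P x)) := by
    unfold kap
    refine Continuous.div (continuous_const.add hAc) (continuous_const.mul hAc) (fun x => ?_)
    have := hA1 x
    positivity
  have hxc : Continuous (fun x => xsf (P x)) := by
    unfold xsf
    refine Continuous.div (continuous_const.mul hAc) ((hAc.add continuous_const).mul (hAc.add continuous_const)) (fun x => ?_)
    have := hA1 x
    positivity
  have hxT : Continuous (fun p : ℝ × ℝ => xsf (P p.1) * T p.2) :=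
    (hxc.comp continuous_fst).mul (hTc.comp continuous_snd)
  have hAf : Continuous (fun p : ℝ × ℝ => Aof (P p.1)) := hAc.comp continuous_fst
  have hwc : Continuous (fun p : ℝ × ℝ => wf (P p.1) (xsf (P p.1) * T p.2)) := by
    unfold wf
    refine Continuous.add (Continuous.mul (Continuous.div (hAf.sub continuous_const) hAf (fun p => ?_)) hxT)
      (Continuous.mul (Continuous.div ((hAf.sub continuous_const).mul (hAf.add continuous_const)) (continuous_const.mul (hAf.pow 2)) (fun p => ?_))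
        (hxT.pow 2))
    · have := hA1 p.1
      positivity
    · have := hA1 p.1
      positivity
  have hfac : ∀ x t, kap (P x) * (xsf (P x) * T t) < 1 ∧ 0 ≤ xsf (P x) * T t := by
    intro x t
    have h1 := xs_facts (ha.trans_le (hP1 x).1) (hP1 x).2
    have h2 := hT1 t
    have h3 : 0 < kap (P x) := lt_trans (by norm_num) (kap_pos (ha.le.trans (hP1 x).1) (hP1 x).2).1
    have h4 : 0 < xsf (P x) := lt_trans one_pos h1.2.1
    refine ⟨?_, mul_nonneg h4.le h2.1⟩
    calc kap (P x) * (xsf (P x) * T t) = kap (P x) * xsf (P x) * T t := by ring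
      _ ≤ kap (P x) * xsf (P x) * 1 := mul_le_mul_of_nonneg_left h2.2 (mul_pos h3 h4).le
      _ < 1 := by rw [mul_one]; exact h1.2.2.2.1
  have hF : Continuous (Function.uncurry (fun x t : ℝ => 1 / ((1 - kap (P x) * (xsf (P x) * T t)) *
      Real.sqrt (1 - wf (P x) (xsf (P x) * T t))))) := by
    refine Continuous.div continuous_const ?_ ?_
    · exact (continuous_const.sub ((hkc.comp continuous_fst).mul hxT)).mul (Real.continuous_sqrt.comp (continuous_const.sub hwc))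
    · rintro ⟨x, t⟩
      have h1 := hfac x t
      have h2 := w_lt (ha.le.trans (hP1 x).1) (hP1 x).2 h1.2 h1.1
      have h3 : 0 < 1 - kap (P x) * (xsf (P x) * T t) := by linarith [h1.1]
      have h4 : 0 < Real.sqrt (1 - wf (P x) (xsf (P x) * T t)) := Real.sqrt_pos.mpr (by linarith [h2.2])
      exact (mul_pos h3 h4).ne'
  have hI := intervalIntegral.continuous_parametric_intervalIntegral_of_continuous' (μ := MeasureTheory.volume) hF 0 1
  have hG : Continuous (fun x => P x * (xsf (P x) * ∫ t in (0 : ℝ)..1, 1 / ((1 - kap (P x) * (xsf (P x) * T t)) *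
      Real.sqrt (1 - wf (P x) (xsf (P x) * T t))))) := hPc.mul (hxc.mul hI)
  refine hG.continuousOn.congr (fun x hx => ?_)
  have h1 : (∫ t in (0 : ℝ)..1, 1 / ((1 - kap (P x) * (xsf (P x) * T t)) *
      Real.sqrt (1 - wf (P x) (xsf (P x) * T t)))) =
      ∫ t in (0 : ℝ)..1, 1 / ((1 - kap x * (xsf x * t)) * Real.sqrt (1 - wf x (xsf x * t))) := by
    refine intervalIntegral.integral_congr (fun t ht => ?_)
    rw [Set.uIcc_of_le zero_le_one] at ht
    rw [hT2 t ht, hP2 x hx]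
  rw [plg_sub (ha.trans_le hx.1) hx.2]
  simp only
  rw [h1, hP2 x hx]

theorem plg_h {x : ℝ} (h0 : 0 < x) (h1 : x < lamc) : 0 < (Aof x ^ 2 - 1) / 8 ∧ (Aof x ^ 2 - 1) / 8 < 1 / 4 := by
  have h2 := plg_A h0 h1.le
  have h3 := psi_A h0.le h1.le
  have h4 : Aof x < Real.sqrt 3 := by
    refine lt_of_le_of_ne h3.2.1 (fun h => ?_)
    have h5 := h3.2.2
    rw [h, psi_ends.2] at h5
    exact h1.ne h5.symm
  have h5 : Aof x ^ 2 < 3 := by
    have h6 : Real.sqrt 3 ^ 2 = 3 := Real.sq_sqrt (by norm_num)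
    nlinarith [Real.sqrt_nonneg 3]
  constructor <;> nlinarith

theorem plg_tendsto : Tendsto Dx (𝓝[>] 0) (𝓝 0) := by
  have hl := lamc_pos.1
  have h1 : Tendsto Aof (𝓝[>] 0) (𝓝 1) := by
    have h2 := A_cont 0 ⟨le_rfl, hl.le⟩
    have h3 : Tendsto Aof (𝓝[Set.Icc 0 lamc] 0) (𝓝 (Aof 0)) := h2
    rw [plg_Azero] at h3
    refine h3.mono_left ?_
    rw [nhdsWithin_le_iff]
    exact mem_of_superset (Ioo_mem_nhdsGT hl) (fun x hx => ⟨hx.1.le, hx.2.le⟩)
  have h2 : Tendsto (fun x => (Aof x ^ 2 - 1) / 8) (𝓝[>] 0) (𝓝[>] 0) := by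
    refine tendsto_nhdsWithin_iff.mpr ⟨?_, ?_⟩
    · have h3 := ((h1.pow 2).sub_const 1).div_const 8
      norm_num at h3
      exact h3
    · filter_upwards [Ioo_mem_nhdsGT hl] with x hx
      exact (plg_h hx.1 hx.2).1
  refine (dl_lim.1.comp h2).congr' ?_
  filter_upwards [Ioo_mem_nhdsGT hl] with x hx
  exact (Dx_closed hx.1 hx.2).symm

theorem Dx_cont : ContinuousOn Dx (Set.Icc 0 lamc) := by
  intro x hx
  rcases eq_or_lt_of_le hx.1 with h0 | h0
  · rw [← h0]
    have h1 : ContinuousWithinAt Dx (Set.Ioi 0) 0 := by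
      show Tendsto Dx (𝓝[>] 0) (𝓝 (Dx 0))
      rw [Dx_zero]
      exact plg_tendsto
    exact (continuousWithinAt_Ioi_iff_Ici.mp h1).mono (fun y hy => hy.1)
  · have h1 : x / 2 ≤ lamc := by linarith [hx.2]
    have h2 := plg_contOn (a := x / 2) (by linarith) h1 x ⟨by linarith, hx.2⟩
    refine h2.mono_of_mem_nhdsWithin ?_
    rw [mem_nhdsWithin]
    refine ⟨Set.Ioi (x / 2), isOpen_Ioi, by show x / 2 < x; linarith, ?_⟩
    rintro y ⟨hy1, hy2⟩
    exact ⟨le_of_lt hy1, hy2.2⟩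

theorem plg_Amono {x y : ℝ} (h0 : 0 ≤ x) (hxy : x < y) (h1 : y ≤ lamc) : Aof x < Aof y := by
  have h2 := psi_A h0 (hxy.le.trans h1)
  have h3 := psi_A (h0.trans hxy.le) h1
  by_contra hcon
  push Not at hcon
  have h4 := psi_mono.monotoneOn ⟨h3.1, h3.2.1⟩ ⟨h2.1, h2.2.1⟩ hcon
  rw [h3.2.2, h2.2.2] at h4
  linarith

theorem plg_mono {x y : ℝ} (h0 : 0 < x) (hxy : x < y) (h1 : y < lamc) : Dx x < Dx y := by
  have h2 := plg_h h0 (hxy.trans h1)
  have h3 := plg_h (h0.trans hxy) h1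
  rw [Dx_closed h0 (hxy.trans h1), Dx_closed (h0.trans hxy) h1]
  refine dl_mono ⟨h2.1, h2.2⟩ ⟨h3.1, h3.2⟩ ?_
  have h4 := plg_Amono h0.le hxy h1.le
  have h5 := plg_A h0 (hxy.trans h1).le
  nlinarith

theorem Dx_mono : StrictMonoOn Dx (Set.Icc 0 lamc) := by
  intro x hx y hy hxy
  obtain ⟨u, hu1, hu2⟩ := exists_between hxy
  obtain ⟨v, hv1, hv2⟩ := exists_between hu2
  have hu0 : 0 < u := hx.1.trans_lt hu1
  have hvl : v < lamc := hv2.trans_le hy.2
  have h1 : Dx x ≤ Dx u := by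
    have hc : ContinuousWithinAt Dx (Set.Ioo x u) x := (Dx_cont x hx).mono
      (fun z hz => ⟨hx.1.trans hz.1.le, (hz.2.trans (hv1.trans hvl)).le⟩)
    have : (𝓝[Set.Ioo x u] x).NeBot := by
      rw [nhdsWithin_Ioo_eq_nhdsGT hu1]
      infer_instance
    refine le_of_tendsto (show Tendsto Dx (𝓝[Set.Ioo x u] x) (𝓝 (Dx x)) from hc) ?_
    filter_upwards [self_mem_nhdsWithin] with z hz
    exact (plg_mono (hx.1.trans_lt hz.1) hz.2 (hv1.trans hvl)).le
  have h2 : Dx v ≤ Dx y := by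
    have hc : ContinuousWithinAt Dx (Set.Ioo v y) y := (Dx_cont y hy).mono
      (fun z hz => ⟨(hu0.trans (hv1.trans hz.1)).le, (hz.2.trans_le hy.2).le⟩)
    have : (𝓝[Set.Ioo v y] y).NeBot := by
      rw [nhdsWithin_Ioo_eq_nhdsLT hv2]
      infer_instance
    refine ge_of_tendsto (show Tendsto Dx (𝓝[Set.Ioo v y] y) (𝓝 (Dx y)) from hc) ?_
    filter_upwards [self_mem_nhdsWithin] with z hz
    exact (plg_mono (hu0.trans hv1) hz.1 (hz.2.trans_le hy.2)).le
  exact h1.trans_lt ((plg_mono hu0 hv1 hvl).trans_le h2)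

theorem lam_facts {h : ℝ} (h0 : 0 < h) (h1 : h < 1 / 4) :
    0 < lam h ∧ lam h < lamc ∧ Aof (lam h) = Real.sqrt (1 + 8 * h) ∧ Dx (lam h) = dl h := by
  have h2 := lam_psi h0.le h1.le
  have h3 : 0 < lam h := by
    unfold lam
    exact div_pos h0 (Real.rpow_pos_of_pos (by linarith) _)
  have h4 : lam h < lamc := by
    have h5 := lam_mono ⟨h0.le, h1.le⟩ ⟨by norm_num, le_rfl⟩ h1
    have h6 := (lam_psi (h := 1 / 4) (by norm_num) le_rfl).1
    rw [show (1 : ℝ) + 8 * (1 / 4) = 3 by norm_num, psi_ends.2] at h6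
    rwa [h6] at h5
  have h5 : Aof (lam h) = Real.sqrt (1 + 8 * h) := by
    rw [h2.1]
    exact A_psi h2.2.1 h2.2.2
  refine ⟨h3, h4, h5, ?_⟩
  rw [Dx_closed h3 h4, h5, Real.sq_sqrt (by linarith)]
  congr 1
  ring

theorem Dx_inj {h x : ℝ} (h0 : 0 < h) (h1 : h < 1 / 4) (hx0 : 0 ≤ x) (hx1 : x ≤ lamc)
    (he : Dx x = dl h) : x = lam h := by
  have h2 := lam_facts h0 h1
  refine Dx_mono.injOn ⟨hx0, hx1⟩ ⟨h2.1.le, h2.2.1.le⟩ ?_
  rw [he, h2.2.2.2]

end UN39
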