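import Mathlib

/-!
[H39 UN ULT]  (MP_bcc40c_pr)  Limits along an ultrafilter.  Mathlib only.

`ulim U a` = limit of `a` along the ultrafilter `U` (exists if `a` is eventually bounded).

PROOFS.  ulim_tendsto: `a` maps `U` into the compact set `Icc (-B) B`: `IsCompact.ultrafilter_le_nhds` for `U.map a`
(`Ultrafilter.map`) gives a limit `x`; then `limUnder`/`lim` by uniqueness of limits (`Filter.Tendsto.limUnder_eq`), the filter `U` is
NeBot.  The other statements: uniqueness of limits, `Tendsto.add` etc., `le_of_tendsto_of_tendsto`.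
ulim_tannery (dominated sums): `f i s ≥ 0`-type terms with `|f i s| ≤ g s` eventually (for every `s`, for all `i` in a set of `U` which may
depend on `s`) is NOT enough; here the bound is assumed for all `s` at once: `∀ᶠ i in U, ∀ s, |f i s| ≤ g s`, `Summable g`.  Then
`tendsto_tsum_of_dominated_convergence`.
-/

set_option autoImplicit false

namespace UN39

open Filter Topology

/-- limit along an ultrafilter -/
noncomputable def ulim {ι : Type} (U : Ultrafilter ι) (a : ι → ℝ) : ℝ := limUnder (U : Filter ι) a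

variable {ι : Type} {U : Ultrafilter ι}

theorem ulim_eq {a : ι → ℝ} {x : ℝ} (h : Tendsto a U (𝓝 x)) : ulim U a = x :=
  h.limUnder_eq

theorem ulim_tendsto {a : ι → ℝ} {B : ℝ} (h : ∀ᶠ i in (U : Filter ι), |a i| ≤ B) :
    Tendsto a U (𝓝 (ulim U a)) := by
  have h1 : ∀ᶠ i in (U : Filter ι), a i ∈ Set.Icc (-B) B := h.mono fun i hi => abs_le.1 hi
  have h2 : (Ultrafilter.map a U : Filter ℝ) ≤ 𝓟 (Set.Icc (-B) B) := by
    rw [le_principal_iff]
    exact h1
  obtain ⟨x, -, hx⟩ := (isCompact_Icc (a := -B) (b := B)).ultrafilter_le_nhds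
    (Ultrafilter.map a U) h2
  have h3 : Tendsto a U (𝓝 x) := hx
  rw [ulim_eq h3]
  exact h3

theorem ulim_congr {a b : ι → ℝ} (h : ∀ᶠ i in (U : Filter ι), a i = b i) :
    ulim U a = ulim U b := by
  unfold ulim limUnder
  rw [Filter.map_congr h]

theorem ulim_le {a b : ι → ℝ} {B : ℝ} (ha : ∀ᶠ i in (U : Filter ι), |a i| ≤ B)
    (hb : ∀ᶠ i in (U : Filter ι), |b i| ≤ B) (h : ∀ᶠ i in (U : Filter ι), a i ≤ b i) :
    ulim U a ≤ ulim U b :=
  le_of_tendsto_of_tendsto (ulim_tendsto ha) (ulim_tendsto hb) h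

theorem ulim_abs_le {a : ι → ℝ} {B : ℝ} (h : ∀ᶠ i in (U : Filter ι), |a i| ≤ B) :
    |ulim U a| ≤ B :=
  le_of_tendsto (ulim_tendsto h).abs h

theorem ulim_tannery {f : ι → ℕ → ℝ} {g : ℕ → ℝ} (hg : Summable g)
    (h : ∀ᶠ i in (U : Filter ι), ∀ s, |f i s| ≤ g s) :
    Tendsto (fun i => ∑' s, f i s) U (𝓝 (∑' s, ulim U (fun i => f i s))) := by
  refine tendsto_tsum_of_dominated_convergence hg (fun s => ?_) ?_
  · exact ulim_tendsto (B := g s) (h.mono fun i hi => hi s)
  · exact h.mono fun i hi s => by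
      rw [Real.norm_eq_abs]
      exact hi s

end UN39
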