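import Mathlib
import Pool.Agent.H39.UN.Kk
import Pool.Agent.H39.UN.Ineq
import Pool.Agent.H39.UN.Ult

/-!
[H39 UN RAT]  (MP_bcc40c_pr)  Ratios of the numbers `bc n v`.

PROOFS.  rat_half: iterate bc_mono (`2 bc n v ≤ bc (n+1) (v+1)`) `a` times.
rat_two: iq without the sum: `(w+2 choose 3) bc n (w+2) ≤ (3n+2) bc n w`, and `(w+2).choose 3 = (w+2)(w+1)w/6 ≥ w^3/6`.
both (K ≥ 1, w ≥ 1): let `A(i,v) = bc i v * bc (n-1-i) (w+1-v)` for `i < n`, `v ≤ w+1` (for `v = w+1` it is 0, bc_supp).  iq: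
`∑ (3i+2) 2 (w+1-v) A(i,v) ≤ (3n+2) bc n w`.  By the symmetry `i → n-1-i`, `v → w+1-v` (`A` is symmetric) also
`∑ (3(n-1-i)+2) 2 v A(i,v) ≤ (3n+2) bc n w`.  Add: the weight is `2 [(3i+2)(w+1-v) + (3(n-1-i)+2) v]`.  If `i ≥ K` and `n-1-i ≥ K` it is
`≥ 2 [3K (w+1-v) + 3K v] = 6 K (w+1)`.  So `6 K (w+1) ∑_both A ≤ 2 (3n+2) bc n w`.
Sq: the sizes `n i`, `v i` along an ultrafilter; sq_pos: eventually `1 ≤ n`, `1 ≤ v ≤ n`, parity, so `bc (n i) (v i) > 0` (bc_pos); the same for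
shifted values `(n - a, v - a)`.  sq_shift: `(v - b)/(n - a) → ω` and parity, for `a ≡ b (mod 2)`.
sq_quot: `0 ≤ bc (n-a) (v-a)/bc n v ≤ 2^(-a)` eventually (rat_half; eventually `a ≤ n`, `a ≤ v`).
sq_small: for `g ≥ 1`: `n * bc (n-a) (v-a+2g)/bc n v → 0`: rat_two `g` times: each factor is at most `6 (3n+2)/(w^3)` with `w ≥ v - a`,
i.e. `≤ C/n^2` as `v ≥ (ω/2) n`; then `sq_quot`.
-/

set_option autoImplicit false

namespace UN39

open Filter Topology

theorem rat_up (a n v : ℕ) : 2 ^ a * bc n v ≤ bc (n + a) (v + a) := by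
  induction a with
  | zero => simp
  | succ a ih =>
    have h1 := bc_mono (n + a) (v + a)
    calc (2 : ℝ) ^ (a + 1) * bc n v = 2 * (2 ^ a * bc n v) := by ring
      _ ≤ 2 * bc (n + a) (v + a) := by linarith
      _ ≤ _ := h1

theorem rat_half (n v a : ℕ) (ha : a ≤ n) (hv : a ≤ v) :
    2 ^ a * bc (n - a) (v - a) ≤ bc n v := by
  have h1 := rat_up a (n - a) (v - a)
  rwa [Nat.sub_add_cancel ha, Nat.sub_add_cancel hv] at h1

theorem rat_two (n w : ℕ) (hw : 1 ≤ w) :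
    (w : ℝ) ^ 3 * bc n (w + 2) ≤ 6 * (3 * n + 2) * bc n w := by
  have h1 := iq n w hw
  have h2 : 0 ≤ (w : ℝ) * bc n w := mul_nonneg (Nat.cast_nonneg _) (bc_nonneg _ _)
  have h3 : 0 ≤ ∑ i ∈ Finset.range n, (3 * (i : ℝ) + 2) * ∑ v ∈ Finset.range (w + 1),
        bc i v * (2 * ((w : ℝ) + 1 - v)) * bc (n - 1 - i) (w + 1 - v) := by
    refine Finset.sum_nonneg fun i _ => mul_nonneg (by positivity) ?_
    refine Finset.sum_nonneg fun v hv => ?_
    have h4 : (v : ℝ) ≤ w := by exact_mod_cast Nat.lt_succ_iff.1 (Finset.mem_range.1 hv)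
    have h5 : (0 : ℝ) ≤ 2 * ((w : ℝ) + 1 - v) := by linarith
    exact mul_nonneg (mul_nonneg (bc_nonneg _ _) h5) (bc_nonneg _ _)
  have h4 : (w : ℝ) ^ 3 ≤ 6 * ((w + 2).choose 3 : ℝ) := by
    have h5 : (w + 2).descFactorial 3 = Nat.factorial 3 * (w + 2).choose 3 :=
      Nat.descFactorial_eq_factorial_mul_choose _ _
    have h6 : (w + 2).descFactorial 3 = w * ((w + 1) * (w + 2)) := by
      simp [Nat.descFactorial_succ]
    rw [h6] at h5
    have h7 : (w : ℝ) * (((w : ℝ) + 1) * ((w : ℝ) + 2)) = 6 * ((w + 2).choose 3 : ℝ) := by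
      have : Nat.factorial 3 = 6 := rfl
      rw [this] at h5
      exact_mod_cast h5
    rw [← h7]
    have h8 : (0 : ℝ) ≤ w := Nat.cast_nonneg _
    nlinarith [mul_nonneg h8 h8]
  have h5 := mul_le_mul_of_nonneg_right h4 (bc_nonneg n (w + 2))
  linarith

theorem both (n w K : ℕ) (hw : 1 ≤ w) :
    3 * (K : ℝ) * (w + 1) * (∑ i ∈ (Finset.range n).filter (fun i => K ≤ i ∧ K ≤ n - 1 - i),
      ∑ v ∈ Finset.range (w + 2), bc i v * bc (n - 1 - i) (w + 1 - v)) ≤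
      (3 * n + 2) * bc n w := by
  obtain ⟨A, hA⟩ : ∃ A : ℕ → ℕ → ℝ, A = fun i v => bc i v * bc (n - 1 - i) (w + 1 - v) := ⟨_, rfl⟩
  have hA0 : ∀ i v, 0 ≤ A i v := by
    intro i v
    rw [hA]
    exact mul_nonneg (bc_nonneg _ _) (bc_nonneg _ _)
  have h1 : ∑ i ∈ Finset.range n, ∑ v ∈ Finset.range (w + 2),
      (3 * (i : ℝ) + 2) * (2 * ((w : ℝ) + 1 - v)) * A i v ≤ (3 * n + 2) * bc n w := by
    have h2 := iq n w hw
    have h3 : 0 ≤ (w : ℝ) * bc n w := mul_nonneg (Nat.cast_nonneg _) (bc_nonneg _ _)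
    have h4 : 0 ≤ ((w + 2).choose 3 : ℝ) * bc n (w + 2) :=
      mul_nonneg (Nat.cast_nonneg _) (bc_nonneg _ _)
    have h5 : ∑ i ∈ Finset.range n, ∑ v ∈ Finset.range (w + 2),
        (3 * (i : ℝ) + 2) * (2 * ((w : ℝ) + 1 - v)) * A i v =
        ∑ i ∈ Finset.range n, (3 * (i : ℝ) + 2) * ∑ v ∈ Finset.range (w + 1),
          bc i v * (2 * ((w : ℝ) + 1 - v)) * bc (n - 1 - i) (w + 1 - v) := by
      refine Finset.sum_congr rfl fun i _ => ?_
      rw [Finset.sum_range_succ]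
      have h6 : (3 * (i : ℝ) + 2) * (2 * ((w : ℝ) + 1 - ((w + 1 : ℕ) : ℝ))) * A i (w + 1) = 0 := by
        push_cast
        ring
      rw [h6, add_zero, Finset.mul_sum]
      refine Finset.sum_congr rfl fun v _ => ?_
      rw [hA]
      ring
    rw [h5]
    linarith
  have h2 : ∑ i ∈ Finset.range n, ∑ v ∈ Finset.range (w + 2),
      (3 * ((n - 1 - i : ℕ) : ℝ) + 2) * (2 * (v : ℝ)) * A i v =
      ∑ i ∈ Finset.range n, ∑ v ∈ Finset.range (w + 2),
      (3 * (i : ℝ) + 2) * (2 * ((w : ℝ) + 1 - v)) * A i v := by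
    rw [← Finset.sum_range_reflect (fun i => ∑ v ∈ Finset.range (w + 2),
      (3 * (i : ℝ) + 2) * (2 * ((w : ℝ) + 1 - v)) * A i v) n]
    refine Finset.sum_congr rfl fun i hi => ?_
    rw [← Finset.sum_range_reflect (fun v => (3 * ((n - 1 - i : ℕ) : ℝ) + 2) *
      (2 * ((w : ℝ) + 1 - v)) * A (n - 1 - i) v) (w + 2)]
    refine Finset.sum_congr rfl fun v hv => ?_
    rw [Finset.mem_range] at hi hv
    have e1 : w + 2 - 1 - v = w + 1 - v := by omega
    have e2 : ((w + 1 - v : ℕ) : ℝ) = (w : ℝ) + 1 - v := by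
      rw [Nat.cast_sub (by omega)]
      push_cast
      ring
    have e3 : n - 1 - (n - 1 - i) = i := by omega
    have e4 : w + 1 - (w + 1 - v) = v := by omega
    rw [e1, e2, hA]
    dsimp only
    rw [e3, e4]
    ring
  have h3 : 2 * (3 * (K : ℝ) * (w + 1) * (∑ i ∈ (Finset.range n).filter (fun i => K ≤ i ∧ K ≤ n - 1 - i),
      ∑ v ∈ Finset.range (w + 2), A i v)) ≤
      ∑ i ∈ Finset.range n, ∑ v ∈ Finset.range (w + 2),
        ((3 * (i : ℝ) + 2) * (2 * ((w : ℝ) + 1 - v)) * A i v +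
          (3 * ((n - 1 - i : ℕ) : ℝ) + 2) * (2 * (v : ℝ)) * A i v) := by
    calc 2 * (3 * (K : ℝ) * (w + 1) * (∑ i ∈ (Finset.range n).filter (fun i => K ≤ i ∧ K ≤ n - 1 - i),
          ∑ v ∈ Finset.range (w + 2), A i v))
        = ∑ i ∈ (Finset.range n).filter (fun i => K ≤ i ∧ K ≤ n - 1 - i),
          ∑ v ∈ Finset.range (w + 2), 6 * (K : ℝ) * (w + 1) * A i v := by
          rw [← mul_assoc, Finset.mul_sum]
          refine Finset.sum_congr rfl fun i _ => ?_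
          rw [Finset.mul_sum]
          exact Finset.sum_congr rfl fun v _ => by ring
      _ ≤ ∑ i ∈ (Finset.range n).filter (fun i => K ≤ i ∧ K ≤ n - 1 - i),
          ∑ v ∈ Finset.range (w + 2), ((3 * (i : ℝ) + 2) * (2 * ((w : ℝ) + 1 - v)) * A i v +
          (3 * ((n - 1 - i : ℕ) : ℝ) + 2) * (2 * (v : ℝ)) * A i v) := by
          refine Finset.sum_le_sum fun i hi => Finset.sum_le_sum fun v hv => ?_
          rw [Finset.mem_filter, Finset.mem_range] at hi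
          rw [Finset.mem_range] at hv
          obtain ⟨hi1, hi2, hi3⟩ := hi
          have e1 : (K : ℝ) ≤ i := by exact_mod_cast hi2
          have e2 : (K : ℝ) ≤ ((n - 1 - i : ℕ) : ℝ) := by exact_mod_cast hi3
          have e3 : (v : ℝ) ≤ w + 1 := by exact_mod_cast Nat.lt_succ_iff.1 hv
          have e4 : (0 : ℝ) ≤ v := Nat.cast_nonneg _
          have e5 : 6 * (K : ℝ) * (w + 1) ≤ (3 * (i : ℝ) + 2) * (2 * ((w : ℝ) + 1 - v)) +
              (3 * ((n - 1 - i : ℕ) : ℝ) + 2) * (2 * (v : ℝ)) := by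
            have e6 : 3 * (K : ℝ) * (2 * ((w : ℝ) + 1 - v)) ≤
                (3 * (i : ℝ) + 2) * (2 * ((w : ℝ) + 1 - v)) :=
              mul_le_mul_of_nonneg_right (by linarith) (by linarith)
            have e7 : 3 * (K : ℝ) * (2 * (v : ℝ)) ≤
                (3 * ((n - 1 - i : ℕ) : ℝ) + 2) * (2 * (v : ℝ)) :=
              mul_le_mul_of_nonneg_right (by linarith) (by linarith)
            linarith
          have e6 := mul_le_mul_of_nonneg_right e5 (hA0 i v)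
          linarith
      _ ≤ _ := by
          refine Finset.sum_le_sum_of_subset_of_nonneg (Finset.filter_subset _ _) ?_
          intro i hi _
          refine Finset.sum_nonneg fun v hv => ?_
          rw [Finset.mem_range] at hv
          have e3 : (v : ℝ) ≤ w + 1 := by exact_mod_cast Nat.lt_succ_iff.1 hv
          have e4 : (0 : ℝ) ≤ (w : ℝ) + 1 - v := by linarith
          have := hA0 i v
          positivity
  have h4 : ∑ i ∈ Finset.range n, ∑ v ∈ Finset.range (w + 2),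
        ((3 * (i : ℝ) + 2) * (2 * ((w : ℝ) + 1 - v)) * A i v +
          (3 * ((n - 1 - i : ℕ) : ℝ) + 2) * (2 * (v : ℝ)) * A i v) =
      2 * ∑ i ∈ Finset.range n, ∑ v ∈ Finset.range (w + 2),
        (3 * (i : ℝ) + 2) * (2 * ((w : ℝ) + 1 - v)) * A i v := by
    simp only [Finset.sum_add_distrib]
    rw [h2]
    ring
  rw [h4] at h3
  rw [hA] at h1 h3
  linarith

/-- sizes going to infinity with `v / n → ω` along an ultrafilter -/
structure Sq {ι : Type} (U : Ultrafilter ι) (n v : ι → ℕ) (ω : ℝ) : Prop where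
  ntop : Tendsto n U atTop
  lim : Tendsto (fun i => (v i : ℝ) / n i) U (𝓝 ω)
  par : ∀ᶠ i in (U : Filter ι), v i % 2 = n i % 2
  ω0 : 0 < ω
  ω1 : ω < 1

variable {ι : Type} {U : Ultrafilter ι} {n v : ι → ℕ} {ω : ℝ}

theorem sq_pos (h : Sq U n v ω) (a : ℕ) :
    ∀ᶠ i in (U : Filter ι), a + 1 ≤ v i ∧ v i ≤ n i ∧ a + 1 ≤ n i ∧ ω / 2 * n i ≤ v i ∧
      0 < bc (n i) (v i) ∧ 0 < bc (n i - a) (v i - a) := by
  have hn1 : ∀ᶠ i in (U : Filter ι), max (a + 1) ⌈2 / ω * (a + 1)⌉₊ ≤ n i := h.ntop.eventually_ge_atTop _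
  have hl1 : ∀ᶠ i in (U : Filter ι), ω / 2 < (v i : ℝ) / n i :=
    h.lim.eventually (lt_mem_nhds (by have := h.ω0; linarith))
  have hl2 : ∀ᶠ i in (U : Filter ι), (v i : ℝ) / n i < 1 :=
    h.lim.eventually (gt_mem_nhds h.ω1)
  filter_upwards [hn1, hl1, hl2, h.par] with i h1 h2 h3 h4
  have hω := h.ω0
  have h5 : a + 1 ≤ n i := le_trans (le_max_left _ _) h1
  have h6 : ⌈2 / ω * (a + 1)⌉₊ ≤ n i := le_trans (le_max_right _ _) h1
  have h7 : 2 / ω * (a + 1) ≤ (n i : ℝ) := Nat.ceil_le.1 h6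
  have hn0 : (0 : ℝ) < n i := by
    have : (1 : ℝ) ≤ n i := by exact_mod_cast (by omega : 1 ≤ n i)
    linarith
  rw [lt_div_iff₀ hn0] at h2
  rw [div_lt_one hn0] at h3
  have h8 : v i < n i := by exact_mod_cast h3
  have h9 : ((a + 1 : ℕ) : ℝ) ≤ v i := by
    have h10 : ω / 2 * (2 / ω * (a + 1)) ≤ ω / 2 * n i := mul_le_mul_of_nonneg_left h7 (by linarith)
    have h11 : ω / 2 * (2 / ω * ((a : ℝ) + 1)) = a + 1 := by
      field_simp
    rw [h11] at h10
    push_cast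
    linarith
  have h10 : a + 1 ≤ v i := by exact_mod_cast h9
  refine ⟨h10, h8.le, h5, h2.le, bc_pos (by omega) (by omega) (by omega) h4,
    bc_pos (by omega) (by omega) (by omega) (by omega)⟩

theorem sq_shift (h : Sq U n v ω) (a b : ℕ) (hab : a % 2 = b % 2) :
    Sq U (fun i => n i - a) (fun i => v i - b) ω := by
  have hev := sq_pos h (a + b)
  have hnr : Tendsto (fun i => (n i : ℝ)) U atTop := tendsto_natCast_atTop_atTop.comp h.ntop
  refine ⟨?_, ?_, ?_, h.ω0, h.ω1⟩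
  · exact (tendsto_sub_atTop_nat a).comp h.ntop
  · have h1 : Tendsto (fun i => ((v i : ℝ) / n i - b * (n i : ℝ)⁻¹) / (1 - a * (n i : ℝ)⁻¹)) U
        (𝓝 ((ω - b * 0) / (1 - a * 0))) := by
      have h2 : Tendsto (fun i => (n i : ℝ)⁻¹) U (𝓝 0) := tendsto_inv_atTop_zero.comp hnr
      refine Tendsto.div (h.lim.sub (h2.const_mul _)) (tendsto_const_nhds.sub (h2.const_mul _)) ?_
      norm_num
    rw [mul_zero, mul_zero, sub_zero, sub_zero, div_one] at h1
    refine h1.congr' ?_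
    filter_upwards [hev] with i hi
    obtain ⟨h2, h3, h4, -⟩ := hi
    have hn0 : (0 : ℝ) < n i := by
      have : (1 : ℝ) ≤ n i := by exact_mod_cast (by omega : 1 ≤ n i)
      linarith
    have hna : ((n i : ℝ) - a) ≠ 0 := by
      have : ((a + 1 : ℕ) : ℝ) ≤ n i := by exact_mod_cast (by omega : a + 1 ≤ n i)
      push_cast at this
      have h5 : (0 : ℝ) < (n i : ℝ) - a := by linarith
      exact h5.ne'
    rw [Nat.cast_sub (by omega), Nat.cast_sub (by omega)]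
    have e1 : (v i : ℝ) / n i - b * (n i : ℝ)⁻¹ = ((v i : ℝ) - b) / n i := by
      field_simp
    have e2 : 1 - a * (n i : ℝ)⁻¹ = ((n i : ℝ) - a) / n i := by
      field_simp
    rw [e1, e2, div_div_div_cancel_right₀ hn0.ne']
  · filter_upwards [hev, h.par] with i hi h1
    obtain ⟨h2, h3, h4, -⟩ := hi
    omega

theorem sq_quot (h : Sq U n v ω) (a : ℕ) :
    ∀ᶠ i in (U : Filter ι), 0 ≤ bc (n i - a) (v i - a) / bc (n i) (v i) ∧
      bc (n i - a) (v i - a) / bc (n i) (v i) ≤ (1 / 2) ^ a := by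
  filter_upwards [sq_pos h a] with i hi
  obtain ⟨h2, h3, h4, -, h5, h6⟩ := hi
  refine ⟨by positivity, ?_⟩
  rw [div_le_iff₀ h5]
  have h7 := rat_half (n i) (v i) a (by omega) (by omega)
  have h8 : (0 : ℝ) < 2 ^ a := by positivity
  rw [one_div, inv_pow, inv_mul_eq_div, le_div_iff₀ h8]
  linarith

theorem rat_twog (n w g : ℕ) (hw : 1 ≤ w) :
    bc n (w + 2 * g) ≤ (6 * (3 * (n : ℝ) + 2) / (w : ℝ) ^ 3) ^ g * bc n w := by
  have hw0 : (0 : ℝ) < w := by exact_mod_cast hw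
  induction g with
  | zero => simp
  | succ g ih =>
    have h1 := rat_two n (w + 2 * g) (by omega)
    have h2 : (w : ℝ) ≤ ((w + 2 * g : ℕ) : ℝ) := by exact_mod_cast (by omega : w ≤ w + 2 * g)
    have h3 : (w : ℝ) ^ 3 ≤ ((w + 2 * g : ℕ) : ℝ) ^ 3 := pow_le_pow_left₀ hw0.le h2 3
    have h4 : (w : ℝ) ^ 3 * bc n (w + 2 * g + 2) ≤ 6 * (3 * n + 2) * bc n (w + 2 * g) :=
      (mul_le_mul_of_nonneg_right h3 (bc_nonneg _ _)).trans h1
    have h5 : bc n (w + 2 * g + 2) ≤ 6 * (3 * (n : ℝ) + 2) / (w : ℝ) ^ 3 * bc n (w + 2 * g) := by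
      rw [div_mul_eq_mul_div, le_div_iff₀ (by positivity)]
      linarith
    calc bc n (w + 2 * (g + 1)) = bc n (w + 2 * g + 2) := by
          congr 1
      _ ≤ 6 * (3 * (n : ℝ) + 2) / (w : ℝ) ^ 3 * bc n (w + 2 * g) := h5
      _ ≤ 6 * (3 * (n : ℝ) + 2) / (w : ℝ) ^ 3 *
          ((6 * (3 * (n : ℝ) + 2) / (w : ℝ) ^ 3) ^ g * bc n w) :=
          mul_le_mul_of_nonneg_left ih (by positivity)
      _ = _ := by ring

theorem sq_small (h : Sq U n v ω) (a g : ℕ) (hg : 1 ≤ g) :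
    Tendsto (fun i => (n i : ℝ) * bc (n i - a) (v i - a + 2 * g) / bc (n i) (v i)) U (𝓝 0) := by
  have hω := h.ω0
  have hnr : Tendsto (fun i => (n i : ℝ)) U atTop := tendsto_natCast_atTop_atTop.comp h.ntop
  obtain ⟨C, hC⟩ : ∃ C : ℝ, C = 30 / (ω / 4) ^ 3 := ⟨_, rfl⟩
  have hC0 : 0 < C := by
    rw [hC]
    positivity
  have h0 : Tendsto (fun i => C * (n i : ℝ)⁻¹) U (𝓝 0) := by
    have h2 : Tendsto (fun i => (n i : ℝ)⁻¹) U (𝓝 0) := tendsto_inv_atTop_zero.comp hnr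
    have h3 := h2.const_mul C
    rwa [mul_zero] at h3
  have hev1 : ∀ᶠ i in (U : Filter ι), 4 / ω * a ≤ (n i : ℝ) := hnr.eventually_ge_atTop _
  have hev2 : ∀ᶠ i in (U : Filter ι), C ≤ (n i : ℝ) := hnr.eventually_ge_atTop _
  have hev3 : ∀ᶠ i in (U : Filter ι), (1 : ℝ) ≤ (n i : ℝ) := hnr.eventually_ge_atTop _
  refine tendsto_of_tendsto_of_tendsto_of_le_of_le' tendsto_const_nhds h0 ?_ ?_
  · filter_upwards with i
    have := bc_nonneg (n i - a) (v i - a + 2 * g)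
    have := bc_nonneg (n i) (v i)
    positivity
  · filter_upwards [sq_pos h a, hev1, hev2, hev3] with i hi h1 h2 h3
    obtain ⟨h4, h5, h6, h7, h8, h9⟩ := hi
    have hn0 : (0 : ℝ) < n i := by linarith
    have hV : ω / 4 * n i ≤ ((v i - a : ℕ) : ℝ) := by
      rw [Nat.cast_sub (by omega)]
      have h10 : ω / 4 * (4 / ω * a) ≤ ω / 4 * n i := mul_le_mul_of_nonneg_left h1 (by positivity)
      have h11 : ω / 4 * (4 / ω * (a : ℝ)) = a := by field_simp
      rw [h11] at h10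
      linarith
    have hVpos : 0 < ω / 4 * (n i : ℝ) := by positivity
    have h10 := rat_twog (n i - a) (v i - a) g (by omega)
    have h11 : 6 * (3 * ((n i - a : ℕ) : ℝ) + 2) / ((v i - a : ℕ) : ℝ) ^ 3 ≤ C * ((n i : ℝ)⁻¹) ^ 2 := by
      have h12 : 6 * (3 * ((n i - a : ℕ) : ℝ) + 2) ≤ 30 * n i := by
        have h13 : ((n i - a : ℕ) : ℝ) ≤ n i := by exact_mod_cast Nat.sub_le _ _
        linarith
      calc 6 * (3 * ((n i - a : ℕ) : ℝ) + 2) / ((v i - a : ℕ) : ℝ) ^ 3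
          ≤ 30 * n i / (ω / 4 * n i) ^ 3 := by
            apply div_le_div₀ (by positivity) h12 (by positivity)
            exact pow_le_pow_left₀ hVpos.le hV 3
        _ = C * ((n i : ℝ)⁻¹) ^ 2 := by
            rw [hC]
            field_simp
    have h12 : C * ((n i : ℝ)⁻¹) ^ 2 ≤ 1 := by
      rw [inv_pow, ← div_eq_mul_inv, div_le_one (by positivity)]
      nlinarith
    have h13 : (0 : ℝ) ≤ 6 * (3 * ((n i - a : ℕ) : ℝ) + 2) / ((v i - a : ℕ) : ℝ) ^ 3 := by positivity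
    have h14 : (6 * (3 * ((n i - a : ℕ) : ℝ) + 2) / ((v i - a : ℕ) : ℝ) ^ 3) ^ g ≤
        C * ((n i : ℝ)⁻¹) ^ 2 := by
      calc _ ≤ (6 * (3 * ((n i - a : ℕ) : ℝ) + 2) / ((v i - a : ℕ) : ℝ) ^ 3) ^ 1 :=
            pow_le_pow_of_le_one h13 (h11.trans h12) hg
        _ ≤ _ := by rw [pow_one]; exact h11
    have h15 : bc (n i - a) (v i - a) ≤ bc (n i) (v i) := by
      have h16 := rat_half (n i) (v i) a (by omega) (by omega)
      have h17 : (1 : ℝ) ≤ 2 ^ a := one_le_pow₀ (by norm_num)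
      have h18 := mul_le_mul_of_nonneg_right h17 (bc_nonneg (n i - a) (v i - a))
      linarith
    have h16 : bc (n i - a) (v i - a + 2 * g) ≤ C * ((n i : ℝ)⁻¹) ^ 2 * bc (n i) (v i) := by
      refine h10.trans ?_
      exact mul_le_mul h14 h15 (bc_nonneg _ _) (by positivity)
    rw [div_le_iff₀ h8]
    calc (n i : ℝ) * bc (n i - a) (v i - a + 2 * g)
        ≤ n i * (C * ((n i : ℝ)⁻¹) ^ 2 * bc (n i) (v i)) := mul_le_mul_of_nonneg_left h16 hn0.le
      _ = C * (n i : ℝ)⁻¹ * bc (n i) (v i) := by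
          field_simp

end UN39
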