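import Mathlib
import Pool.Agent.H39.UN.Ult

/-!
[H39 UN FAN]  (MP_bcc40c_pr)  Limits of averages along an ultrafilter as a positive functional.  Mathlib only (and ULT).

`E i φ` = average of `φ` over finitely many values in `[0, 1]`.  `el U E φ = ulim U (fun i => E i φ)`.  `clp r x = max 0 (min x r)`.

PROOFS.  el_tendsto: `|E i φ| ≤ B` if `|φ| ≤ B` on `[0,1]` (mono, smul, one).  el_add, el_smul: limits.
el_clip: hypothesis: for every `t > r` and `δ > 0` there is `c` with `el (x^c) ≤ δ t^c`.  Claim: for `φ` continuous on `ℝ`: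
`el φ = el (φ ∘ clp r)` (`0 < r ≤ 1`).  Proof: given `η > 0`, by uniform continuity there is `t > r` with `|φ x - φ (clp r x)| ≤ η` for
`x ∈ [0, t]`; for `x ∈ [0, 1]`, `x > t`: `|φ x - φ (clp r x)| ≤ 2B ≤ 2B (x/t)^c`; so `|φ - φ ∘ clp r| ≤ η + 2B (x/t)^c` on `[0, 1]` for every `c`, hence
`|el φ - el (φ ∘ clp r)| ≤ η + 2B el(x^c)/t^c ≤ η + 2Bδ`.
-/

set_option autoImplicit false

namespace UN39

open Filter Topology

/-- averages over values in `[0,1]` -/
structure Avg {ι : Type} (E : ι → (ℝ → ℝ) → ℝ) : Prop where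
  add : ∀ i φ ψ, E i (fun x => φ x + ψ x) = E i φ + E i ψ
  smul : ∀ i (a : ℝ) φ, E i (fun x => a * φ x) = a * E i φ
  mono : ∀ i φ ψ, (∀ x ∈ Set.Icc (0 : ℝ) 1, φ x ≤ ψ x) → E i φ ≤ E i ψ
  one : ∀ i, E i (fun _ => 1) = 1

noncomputable def el {ι : Type} (U : Ultrafilter ι) (E : ι → (ℝ → ℝ) → ℝ) (φ : ℝ → ℝ) : ℝ :=
  ulim U (fun i => E i φ)

noncomputable def clp (r x : ℝ) : ℝ := max 0 (min x r)

variable {ι : Type} {U : Ultrafilter ι} {E : ι → (ℝ → ℝ) → ℝ}

private theorem E_const (hE : Avg E) (i : ι) (a : ℝ) : E i (fun _ => a) = a := by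
  have h := hE.smul i a (fun _ => 1)
  rw [hE.one] at h
  simpa using h

private theorem E_abs (hE : Avg E) {φ : ℝ → ℝ} {B : ℝ} (h : ∀ x ∈ Set.Icc (0 : ℝ) 1, |φ x| ≤ B)
    (i : ι) : |E i φ| ≤ B := by
  rw [abs_le]
  constructor
  · have h1 := hE.mono i (fun _ => -B) φ fun x hx => (abs_le.1 (h x hx)).1
    rwa [E_const hE] at h1
  · have h1 := hE.mono i φ (fun _ => B) fun x hx => (abs_le.1 (h x hx)).2
    rwa [E_const hE] at h1

theorem el_tendsto (hE : Avg E) {φ : ℝ → ℝ} {B : ℝ} (h : ∀ x ∈ Set.Icc (0 : ℝ) 1, |φ x| ≤ B) :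
    Tendsto (fun i => E i φ) U (𝓝 (el U E φ)) ∧ |el U E φ| ≤ B := by
  have h1 : ∀ᶠ i in (U : Filter ι), |E i φ| ≤ B := Eventually.of_forall fun i => E_abs hE h i
  exact ⟨ulim_tendsto h1, ulim_abs_le h1⟩

theorem el_add (hE : Avg E) {φ ψ : ℝ → ℝ} {B : ℝ} (h : ∀ x ∈ Set.Icc (0 : ℝ) 1, |φ x| ≤ B)
    (h' : ∀ x ∈ Set.Icc (0 : ℝ) 1, |ψ x| ≤ B) :
    el U E (fun x => φ x + ψ x) = el U E φ + el U E ψ := by
  refine ulim_eq ?_
  have h1 := (el_tendsto (U := U) hE h).1.add (el_tendsto (U := U) hE h').1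
  refine h1.congr fun i => ?_
  rw [hE.add]

theorem el_smul (hE : Avg E) {φ : ℝ → ℝ} {B : ℝ} (a : ℝ)
    (h : ∀ x ∈ Set.Icc (0 : ℝ) 1, |φ x| ≤ B) :
    el U E (fun x => a * φ x) = a * el U E φ := by
  refine ulim_eq ?_
  have h1 := (el_tendsto (U := U) hE h).1.const_mul a
  refine h1.congr fun i => ?_
  rw [hE.smul]

theorem el_mono (hE : Avg E) {φ ψ : ℝ → ℝ} {B B' : ℝ} (h : ∀ x ∈ Set.Icc (0 : ℝ) 1, |φ x| ≤ B)
    (h' : ∀ x ∈ Set.Icc (0 : ℝ) 1, |ψ x| ≤ B') (hle : ∀ x ∈ Set.Icc (0 : ℝ) 1, φ x ≤ ψ x) :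
    el U E φ ≤ el U E ψ :=
  le_of_tendsto_of_tendsto' (el_tendsto (U := U) hE h).1 (el_tendsto (U := U) hE h').1
    fun i => hE.mono i _ _ hle

theorem el_const (hE : Avg E) (a : ℝ) : el U E (fun _ => a) = a := by
  refine ulim_eq ?_
  simp_rw [E_const hE]
  exact tendsto_const_nhds

theorem clp_mem {r : ℝ} (hr : 0 ≤ r) (x : ℝ) : clp r x ∈ Set.Icc 0 r := by
  unfold clp
  constructor
  · exact le_max_left _ _
  · exact max_le hr (min_le_right _ _)

theorem clp_of_mem {r x : ℝ} (h : x ∈ Set.Icc 0 r) : clp r x = x := by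
  unfold clp
  rw [min_eq_left h.2, max_eq_right h.1]

theorem clp_of_ge {r x : ℝ} (hr : 0 ≤ r) (h : r ≤ x) : clp r x = r := by
  unfold clp
  rw [min_eq_right h, max_eq_right hr]

theorem clp_continuous (r : ℝ) : Continuous (clp r) := by
  unfold clp
  fun_prop

theorem el_clip (hE : Avg E) {r : ℝ} (hr : 0 < r) (hr1 : r ≤ 1)
    (hg : ∀ t, r < t → ∀ δ > 0, ∃ c : ℕ, el U E (fun x => x ^ c) ≤ δ * t ^ c)
    {φ : ℝ → ℝ} (hφ : Continuous φ) :
    el U E φ = el U E (fun x => φ (clp r x)) := by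
  obtain ⟨B0, hB0⟩ := (isCompact_Icc (a := (0 : ℝ)) (b := 1)).exists_bound_of_continuousOn
    hφ.continuousOn
  set B := max B0 0 with hB
  have hB00 : 0 ≤ B := le_max_right _ _
  have hbd : ∀ x ∈ Set.Icc (0 : ℝ) 1, |φ x| ≤ B := fun x hx =>
    (hB0 x hx).trans (le_max_left _ _)
  have hcl : ∀ x, clp r x ∈ Set.Icc (0 : ℝ) 1 := fun x =>
    ⟨(clp_mem hr.le x).1, (clp_mem hr.le x).2.trans hr1⟩
  have hbd' : ∀ x ∈ Set.Icc (0 : ℝ) 1, |φ (clp r x)| ≤ B := fun x _ => hbd _ (hcl x)
  have hpow : ∀ c : ℕ, ∀ x ∈ Set.Icc (0 : ℝ) 1, |x ^ c| ≤ 1 := by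
    intro c x hx
    rw [abs_of_nonneg (pow_nonneg hx.1 c)]
    exact pow_le_one₀ hx.1 hx.2
  -- the key estimate
  have key : ∀ ε > 0, ∃ (c : ℕ) (D : ℝ), 0 ≤ D ∧ D * el U E (fun x => x ^ c) ≤ ε / 2 ∧
      ∀ x ∈ Set.Icc (0 : ℝ) 1, |φ x - φ (clp r x)| ≤ ε / 2 + D * x ^ c := by
    intro ε hε
    have huc := (isCompact_Icc (a := (0 : ℝ)) (b := 1)).uniformContinuousOn_of_continuous
      hφ.continuousOn
    rw [Metric.uniformContinuousOn_iff] at huc
    obtain ⟨d, hd, hdd⟩ := huc (ε / 2) (half_pos hε)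
    set t := r + d / 2 with ht
    have htr : r < t := by linarith
    have ht0 : 0 < t := by linarith
    obtain ⟨c, hc⟩ := hg t htr (ε / (4 * B + 1)) (by positivity)
    have htc : 0 < t ^ c := by positivity
    refine ⟨c, 2 * B / t ^ c, by positivity, ?_, ?_⟩
    · calc 2 * B / t ^ c * el U E (fun x => x ^ c)
          ≤ 2 * B / t ^ c * (ε / (4 * B + 1) * t ^ c) :=
            mul_le_mul_of_nonneg_left hc (by positivity)
        _ = 2 * B * ε / (4 * B + 1) := by field_simp
        _ ≤ ε / 2 := by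
            rw [div_le_iff₀ (by positivity)]
            nlinarith
    · intro x hx
      rcases le_or_gt x t with hxt | hxt
      · have h1 : dist x (clp r x) < d := by
          rw [Real.dist_eq]
          rcases le_or_gt x r with hxr | hxr
          · rw [clp_of_mem ⟨hx.1, hxr⟩, sub_self, abs_zero]
            exact hd
          · rw [clp_of_ge hr.le hxr.le, abs_of_pos (by linarith)]
            linarith
        have h2 := hdd x hx (clp r x) (hcl x) h1
        rw [Real.dist_eq] at h2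
        have h3 : 0 ≤ 2 * B / t ^ c * x ^ c := by
          have := pow_nonneg hx.1 c
          positivity
        linarith
      · have h1 : |φ x - φ (clp r x)| ≤ 2 * B := by
          have := abs_sub (φ x) (φ (clp r x))
          have := hbd x hx
          have := hbd' x hx
          linarith
        have h2 : 2 * B ≤ 2 * B / t ^ c * x ^ c := by
          rw [div_mul_eq_mul_div, le_div_iff₀ htc]
          exact mul_le_mul_of_nonneg_left (pow_le_pow_left₀ ht0.le hxt.le c) (by positivity)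
        linarith
  have main : ∀ ε > 0, |el U E φ - el U E (fun x => φ (clp r x))| ≤ ε := by
    intro ε hε
    obtain ⟨c, D, hD, hDe, hx⟩ := key ε hε
    have hrest : ∀ x ∈ Set.Icc (0 : ℝ) 1, |ε / 2 + D * x ^ c| ≤ ε / 2 + D := by
      intro x hx
      have h0 := pow_nonneg hx.1 c
      have h1 := pow_le_one₀ (n := c) hx.1 hx.2
      rw [abs_of_nonneg (by positivity)]
      nlinarith
    have hel : el U E (fun x => ε / 2 + D * x ^ c) ≤ ε := by
      have h1 := el_add (U := U) (E := E) hE (φ := fun _ => ε / 2) (ψ := fun x => D * x ^ c)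
        (B := ε / 2 + D)
        (fun x _ => by
          rw [abs_of_pos (half_pos hε)]
          linarith)
        (fun x hx => by
          have h0 := pow_nonneg hx.1 c
          have h1 := pow_le_one₀ (n := c) hx.1 hx.2
          rw [abs_of_nonneg (by positivity)]
          nlinarith)
      have h2 := el_smul (U := U) (E := E) hE (φ := fun x => x ^ c) D (hpow c)
      rw [h1, h2, el_const hE]
      linarith
    set M := B + (ε / 2 + D) with hM
    rw [abs_le]
    constructor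
    · have h1 : el U E (fun x => φ (clp r x)) ≤ el U E (fun x => φ x + (ε / 2 + D * x ^ c)) := by
        refine el_mono (B' := M) hE hbd' (fun x hx => ?_) fun x hx' => ?_
        · exact (abs_add_le _ _).trans (add_le_add (hbd x hx) (hrest x hx))
        · have := (abs_le.1 (hx x hx')).1
          linarith
      rw [el_add hE (B := M) (fun x hx => (hbd x hx).trans (by
        have : 0 ≤ ε / 2 + D := by positivity
        linarith)) (fun x hx => (hrest x hx).trans (by linarith))] at h1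
      linarith
    · have h1 : el U E φ ≤ el U E (fun x => φ (clp r x) + (ε / 2 + D * x ^ c)) := by
        refine el_mono (B' := M) hE hbd (fun x hx => ?_) fun x hx' => ?_
        · exact (abs_add_le _ _).trans (add_le_add (hbd' x hx) (hrest x hx))
        · have := (abs_le.1 (hx x hx')).2
          linarith
      rw [el_add hE (B := M) (fun x hx => (hbd' x hx).trans (by
        have : 0 ≤ ε / 2 + D := by positivity
        linarith)) (fun x hx => (hrest x hx).trans (by linarith))] at h1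
      linarith
  have h0 : |el U E φ - el U E (fun x => φ (clp r x))| ≤ 0 :=
    le_of_forall_pos_le_add fun ε hε => by
      rw [zero_add]
      exact main ε hε
  exact sub_eq_zero.1 (abs_eq_zero.1 (le_antisymm h0 (abs_nonneg _)))

end UN39
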