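import Mathlib
import Pool.Agent.H39.HG.Defs
import Pool.Agent.H39.UN.Num
import Pool.Agent.H39.UN.Pol
import Pool.Agent.H39.UN.RedA
import Pool.Agent.H39.UN.ConA
import Pool.Agent.H39.UN.Rec
import Pool.Agent.H39.UN.Kk
import Pool.Agent.H39.UN.Ineq

/-!
[H39 UN LAWA]  (MP_bcc40c_pr)  Triangulations and the numbers `bc n v`.

PROOFS.  triang (a list of all triangles that starts with given ones): for `TF f` and a list `bs` of darts with `(tri f bs).Nodup` there is a list
`rs` of darts such that `c = (bs ++ rs).map (fun b => [b, f b, f (f b)])` satisfies `c.flatten.Nodup`, every dart is in `c.flatten`, `polys c = f`.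
Proof: enlarge the list of roots as long as there is a dart outside `tri f (bs ++ rs)` (`Fintype.card` bound), TF.three, TF.nf; `polys c = f`: on the
polygon `[b, f b, f (f b)]` (three different darts) formPerm is `f` (`List.formPerm` of a three element list).
TS_iff: for such a `c` (all darts): `α ∈ TS f v ↔ Mt c α ∧ Conn c α ∧ vt c α = v`: `PT f α []`: involution, no fixed points (leg: `tri f [] = []`),
con; `Conn c α`: no empty polygon, every nonempty set closed under `f` and `α` is everything; `vt c α = cyc (f * α) + card D + 0 - card D`.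
ts_card: `(TS f v).ncard` = coefficient of `X^v` in `cnt c = K (3^(2n))` (cnt_eq), and `kk [] (2n)`: `kk [3] (2n-1) = 3 (2n) kk [] (2n)` (kk_three),
`kk [3] (2n-1) = bb n` (bb_three).
-/

set_option autoImplicit false

namespace UN39

open Equiv HG39 Polynomial

variable {D : Type} [Fintype D] [DecidableEq D]

theorem lawa_flat (f : Perm D) (bs : List D) :
    (bs.map fun b => [b, f b, f (f b)]).flatten = tri f bs := by
  unfold tri
  rw [List.flatMap_def]

theorem lawa_mem {f : Perm D} {bs : List D} {d : D} :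
    d ∈ tri f bs ↔ ∃ b ∈ bs, d = b ∨ d = f b ∨ d = f (f b) := by
  unfold tri
  rw [List.mem_flatMap]
  simp

theorem lawa_closed {f : Perm D} (hf : TF f) {bs : List D} {d : D} (hd : d ∈ tri f bs) :
    f d ∈ tri f bs := by
  rw [lawa_mem] at hd ⊢
  obtain ⟨b, hb, h | h | h⟩ := hd
  · exact ⟨b, hb, Or.inr (Or.inl (by rw [h]))⟩
  · exact ⟨b, hb, Or.inr (Or.inr (by rw [h]))⟩
  · exact ⟨b, hb, Or.inl (by rw [h, hf.three])⟩

theorem lawa_nd {f : Perm D} (hf : TF f) (d : D) : [d, f d, f (f d)].Nodup := by
  have h1 : f d ≠ d := hf.nf d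
  have h2 : f (f d) ≠ f d := hf.nf (f d)
  have h3 : f (f d) ≠ d := by
    intro h
    have h4 := hf.three d
    rw [h] at h4
    exact h1 h4
  simp [h1.symm, h2.symm, h3.symm]

theorem lawa_ext {f : Perm D} (hf : TF f) (n : ℕ) : ∀ bs : List D, (tri f bs).Nodup →
    Fintype.card D ≤ (tri f bs).length + n →
    ∃ rs : List D, (tri f (bs ++ rs)).Nodup ∧ ∀ d, d ∈ tri f (bs ++ rs) := by
  induction n with
  | zero =>
    intro bs hb hc
    refine ⟨[], ?_, ?_⟩
    · rw [List.append_nil]
      exact hb
    · intro d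
      rw [List.append_nil]
      by_contra hd
      have h1 : (d :: tri f bs).Nodup := List.nodup_cons.2 ⟨hd, hb⟩
      have h2 := h1.length_le_card
      rw [List.length_cons] at h2
      omega
  | succ n ih =>
    intro bs hb hc
    by_cases hall : ∀ d, d ∈ tri f bs
    · refine ⟨[], ?_, ?_⟩
      · rw [List.append_nil]
        exact hb
      · intro d
        rw [List.append_nil]
        exact hall d
    · push Not at hall
      obtain ⟨d, hd⟩ := hall
      have e1 : tri f (bs ++ [d]) = tri f bs ++ [d, f d, f (f d)] := by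
        unfold tri
        rw [List.flatMap_append]
        simp
      have h1 : (tri f (bs ++ [d])).Nodup := by
        rw [e1, List.nodup_append]
        refine ⟨hb, lawa_nd hf d, ?_⟩
        intro x hx z hz hxz
        rw [← hxz] at hz
        rw [List.mem_cons, List.mem_cons, List.mem_singleton] at hz
        apply hd
        rcases hz with hz | hz | hz
        · rw [← hz]
          exact hx
        · have h2 := lawa_closed hf (lawa_closed hf hx)
          rw [hz, hf.three] at h2
          exact h2
        · have h2 := lawa_closed hf hx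
          rw [hz, hf.three] at h2
          exact h2
      obtain ⟨rs, h2, h3⟩ := ih (bs ++ [d]) h1 (by
        rw [e1, List.length_append]
        simp only [List.length_cons, List.length_nil]
        omega)
      rw [List.append_assoc] at h2 h3
      exact ⟨[d] ++ rs, h2, h3⟩

theorem lawa_fp {f : Perm D} (hf : TF f) {b d : D} (hd : d ∈ [b, f b, f (f b)]) :
    [b, f b, f (f b)].formPerm d = f d := by
  have hn := lawa_nd hf b
  rw [List.nodup_cons, List.nodup_cons, List.mem_cons, List.mem_singleton, List.mem_singleton,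
    not_or] at hn
  obtain ⟨⟨h1, h2⟩, h3, -⟩ := hn
  have e1 : [b, f b, f (f b)].formPerm d = swap b (f b) (swap (f b) (f (f b)) d) := by
    rw [List.formPerm_cons_cons, List.formPerm_cons_cons, List.formPerm_singleton, mul_one]
    rfl
  rw [e1]
  rw [List.mem_cons, List.mem_cons, List.mem_singleton] at hd
  rcases hd with hd | hd | hd
  · rw [hd, swap_apply_of_ne_of_ne h1 h2, swap_apply_left]
  · rw [hd, swap_apply_left, swap_apply_of_ne_of_ne (Ne.symm h2) (Ne.symm h3)]
  · rw [hd, swap_apply_right, swap_apply_right, hf.three]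

theorem triang {f : Perm D} (hf : TF f) {bs : List D} (hb : (tri f bs).Nodup) :
    ∃ rs : List D, ((bs ++ rs).map fun b => [b, f b, f (f b)]).flatten.Nodup ∧
      (∀ d, d ∈ ((bs ++ rs).map fun b => [b, f b, f (f b)]).flatten) ∧
      polys ((bs ++ rs).map fun b => [b, f b, f (f b)]) = f := by
  obtain ⟨rs, h1, h2⟩ := lawa_ext hf (Fintype.card D) bs hb (by omega)
  refine ⟨rs, ?_, ?_, ?_⟩
  · rw [lawa_flat]
    exact h1
  · intro d
    rw [lawa_flat]
    exact h2 d
  · have hn : ((bs ++ rs).map fun b => [b, f b, f (f b)]).flatten.Nodup := by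
      rw [lawa_flat]
      exact h1
    ext d
    have h3 : d ∈ ((bs ++ rs).map fun b => [b, f b, f (f b)]).flatten := by
      rw [lawa_flat]
      exact h2 d
    rw [List.mem_flatten] at h3
    obtain ⟨m, hm, hdm⟩ := h3
    rw [(polys_on hn hm).2 d hdm]
    rw [List.mem_map] at hm
    obtain ⟨b, -, rfl⟩ := hm
    exact lawa_fp hf hdm

theorem TS_iff {f : Perm D} {c : List (List D)} (hn : c.flatten.Nodup)
    (ha : ∀ d, d ∈ c.flatten) (he : [] ∉ c) (hp : polys c = f) (hD : Nonempty D) (α : Perm D)
    (v : ℕ) : α ∈ TS f v ↔ Mt c α ∧ Conn c α ∧ vt c α = v := by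
  have hc : c ≠ [] := by
    rintro rfl
    obtain ⟨d⟩ := hD
    simpa using ha d
  have hlen : c.flatten.length = Fintype.card D := by
    rw [← List.toFinset_card_of_nodup hn, ← Finset.card_univ]
    congr 1
    ext d
    simp [ha d]
  have hcount : c.count [] = 0 := List.count_eq_zero.2 he
  have hvt : vt c α = cyc (f * α) := by
    unfold vt
    rw [hp, hlen, hcount]
    omega
  rw [hvt]
  have h1 : α ∈ TS f v ↔ PT f α [] ∧ cyc (f * α) = v := Iff.rfl
  rw [h1, ← and_assoc]
  refine and_congr ?_ Iff.rfl
  constructor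
  · intro h
    have hne : ∀ d, α d ≠ d := by
      intro d hd
      have h2 := (h.leg d).1 hd
      simp [tri] at h2
    refine ⟨⟨h.inv, fun d _ => hne d, fun d hd => absurd (ha d) hd⟩, hc, Or.inr he, ?_⟩
    intro S hS1 hS2 hex e _
    obtain ⟨d, _, hSd⟩ := hex
    rw [hp] at hS1
    exact h.con S ⟨d, hne d, hSd⟩ hS1 hS2 e (hne e)
  · rintro ⟨hM, hC⟩
    have hne : ∀ d, α d ≠ d := fun d => hM.2.1 d (ha d)
    refine ⟨hM.1, ?_, ?_, ?_⟩
    · intro d
      constructor
      · intro h
        exact absurd h (hne d)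
      · intro h
        simp [tri] at h
    · simp [tri]
    · intro S hex hS1 hS2 d _
      obtain ⟨e, _, hSe⟩ := hex
      exact hC.2.2 S (by rw [hp]; exact hS1) hS2 ⟨e, ha e, hSe⟩ d (ha d)

theorem ts_card {f : Perm D} (hf : TF f) {n : ℕ} (hD : Fintype.card D = 6 * n) (hn : 1 ≤ n)
    (v : ℕ) : ((TS f v).ncard : ℝ) * (6 * n) = ((2 * n).factorial : ℝ) * 3 ^ (2 * n) * bc n v := by
  classical
  have hne : Nonempty D := by
    rw [← Fintype.card_pos_iff, hD]
    omega
  obtain ⟨rs, h1, h2, h3⟩ := triang hf (bs := []) (by simp [tri])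
  rw [List.nil_append] at h1 h2 h3
  obtain ⟨c, hc⟩ : ∃ c : List (List D), c = rs.map fun b => [b, f b, f (f b)] := ⟨_, rfl⟩
  rw [← hc] at h1 h2 h3
  have he : [] ∉ c := by
    rw [hc, List.mem_map]
    rintro ⟨b, _, hb⟩
    simp at hb
  have hmap : c.map List.length = List.replicate rs.length 3 := by
    rw [hc, List.map_map]
    have h4 : (List.length ∘ fun b : D => [b, f b, f (f b)]) = fun _ => 3 := rfl
    rw [h4, List.map_const']
  have hlen : c.flatten.length = Fintype.card D := by
    rw [← List.toFinset_card_of_nodup h1, ← Finset.card_univ]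
    congr 1
    ext d
    simp [h2 d]
  have hrs : rs.length = 2 * n := by
    rw [List.length_flatten, hmap, List.sum_replicate, hD, smul_eq_mul] at hlen
    omega
  have hcnt : ((TS f v).ncard : ℕ) = (cnt c).coeff v := by
    unfold cnt
    rw [finsetSum_coeff]
    have h4 : ∀ α ∈ (Finset.univ : Finset (Perm D)),
        (if Mt c α ∧ Conn c α then (X : Polynomial ℕ) ^ vt c α else 0).coeff v =
        if α ∈ TS f v then 1 else 0 := by
      intro α _
      by_cases h5 : Mt c α ∧ Conn c α
      · rw [if_pos h5, coeff_X_pow]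
        refine if_congr ?_ rfl rfl
        rw [TS_iff h1 h2 he h3 hne]
        constructor
        · intro h6
          exact ⟨h5.1, h5.2, h6.symm⟩
        · intro h6
          exact h6.2.2.symm
      · rw [if_neg h5, coeff_zero, if_neg]
        rw [TS_iff h1 h2 he h3 hne]
        exact fun h6 => h5 ⟨h6.1, h6.2.1⟩
    rw [Finset.sum_congr rfl h4, Finset.sum_boole, Set.ncard_eq_toFinset_card']
    simp
  have hK : cnt c = K (List.replicate (2 * n) 3) := by
    rw [cnt_eq c h1, hmap, hrs]
  have hb : bc n v = (3 * (2 * (n : ℝ))) *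
      ((((2 * n).factorial : ℝ) * 3 ^ (2 * n))⁻¹ * ((K (List.replicate (2 * n) 3)).coeff v : ℝ)) := by
    unfold bc
    rw [← bb_three n hn, kk_three]
    have h4 : 2 * n - 1 + 1 = 2 * n := by omega
    rw [h4, coeff_smul, smul_eq_mul]
    congr 1
    · have h5 : ((2 * n - 1 : ℕ) : ℝ) + 1 = 2 * n := by
        have h6 : ((2 * n - 1 + 1 : ℕ) : ℝ) = ((2 * n : ℕ) : ℝ) := by rw [h4]
        push_cast at h6
        exact h6
      rw [h5]
    · unfold kk
      rw [coeff_C_mul, coeff_map, List.nil_append, eq_natCast]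
  rw [hb, hcnt, hK]
  have h4 : (((2 * n).factorial : ℝ) * 3 ^ (2 * n)) ≠ 0 := by positivity
  field_simp
  ring

end UN39
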