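import Mathlib
import Pool.Agent.H39.HG.Defs
import Pool.Agent.H39.UN.Num
import Pool.Agent.H39.UN.Pol
import Pool.Agent.H39.UN.RedA
import Pool.Agent.H39.UN.ConA
import Pool.Agent.H39.UN.Rec
import Pool.Agent.H39.UN.Kk
import Pool.Agent.H39.UN.Ineq
import Pool.Agent.H39.UN.LawA

/-!
[H39 UN LAW]  (MP_bcc40c_pr)  Factorial moments of the number of leaf triangles.

PROOFS.
leaf_list: for a list `ws` of different leaf triangles bases of `α`: `(tri f ws).Nodup`: if `w' = f w` were also a leaf base: `α (f w) = f (f w)` and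
`α (f (f w)) = f (f (f w)) = w`, contradiction (`α (f (f w)) = f w`).
fix: for a list `ws` of length `c` with `(tri f ws).Nodup`: the number of `α ∈ TS f v` such that all `w ∈ ws` are leaf bases is the coefficient of `X^(v-c)`
(zero if `v < c`) in `K (1^c ++ 3^(2n-c))`.
Proof by induction on `c`, for the more general statement with polygons (triang: `ws ++ rs`; `c1 = ws.map (fun w => [w, f w, f (f w)])`); one step: the polygon
`[w, f w, f (f w)]` rotated is `f w :: ([] ++ f (f w) :: [w])`, recA with `a = f w`, `b = f (f w)`, `l1 = []`, `l2 = [w]`: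
`∑_{α a = b} = cnt ([] :: [w] :: cs) + ∑_{p ∈ splits cs} cnt ([] :: p.1) * cnt ([w] :: p.2) = 0 + X * cnt ([w] :: cs)` (`cnt ([] :: p.1) = X` if
`p.1 = []`, else 0).  For several leaves: the conditions `α (f w') = f (f w')` for the other `w'` are conditions on `β = swap a b * α` too; so
prove by induction the statement: for all lists `ws`, `cs`: `∑_{α : ∀ w ∈ ws, α (f w) = f (f w)} [Mt, Conn (c1 ++ cs)] X^vt = X^c * cnt (ws.map (fun w => [w]) ++ cs)`
(redA_mt, redA_inv, redA_vt, conA).
law_mom: `∑_α (lfc f α).descFactorial c` = number of pairs (`α`, injective `w : Fin c → D`, all leaf bases) = sum over the injective `w` with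
`(tri f (List.ofFn w)).Nodup` of the number in fix.  The number of these `w` is `(6n)(6n-3)...(6n-3(c-1)) = 3^c (2n)!/(2n-c)!`.  Then normalise:
`K (1^c ++ 3^(2n-c)) = (2n-c)! 3^(2n-c) kk (1^c) (2n-c)`, ts_card, and kk_ones: `kk (1^c) (2n' + c) = ∏_{j=1}^{c-1} (6n' + 4j) • bb n'` for `c ≥ 1` (induction with
kk_one_cons: `kk (1 :: 1^c) (m+1) = (c + 3m) kk (1^c) m + (terms with a 0-gon and other polygons or triangles, zero)`, `m = 2n' + c`), `n' = n - c`.
-/

set_option autoImplicit false

namespace UN39

open Equiv HG39 Polynomial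

variable {D : Type} [Fintype D] [DecidableEq D]

theorem kk_ones (c n : ℕ) (hc : 1 ≤ c) : kk (List.replicate c 1) (2 * n + c) =
    (∏ j ∈ Finset.Icc 1 (c - 1), (6 * (n : ℝ) + 4 * j)) • bb n := by
  induction c with
  | zero => omega
  | succ c ih =>
    rcases Nat.eq_zero_or_pos c with h0 | h0
    · subst h0
      simp [bb]
    · have hne : List.replicate c 1 ≠ [] := by
        rw [Ne, List.replicate_eq_nil_iff]
        omega
      have h1 : 2 * n + (c + 1) = (2 * n + c) + 1 := by ring
      rw [List.replicate_succ, h1, kk_one_cons hne, ih h0]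
      have h2 : ((picks (List.replicate c 1)).map fun p : ℕ × List ℕ =>
          (p.1 : ℝ) • kk ((p.1 - 1) :: p.2) (2 * n + c + 1)) =
          (picks (List.replicate c 1)).map fun _ => 0 := by
        refine List.map_congr_left fun p hp => ?_
        have h3 := picks_perm hp
        have h4 : p.1 = 1 := by
          have h5 : p.1 ∈ List.replicate c 1 := h3.mem_iff.1 List.mem_cons_self
          exact List.eq_of_mem_replicate h5
        rw [h4, Nat.sub_self, kk_zero, if_neg (by omega), smul_zero]
      rw [h2]
      have h3 : c + 1 - 1 = (c - 1) + 1 := by omega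
      rw [h3, Finset.prod_Icc_succ_top (by omega), List.sum_replicate, smul_smul]
      simp only [List.map_const', List.sum_replicate, smul_zero, add_zero]
      congr 1
      have h4 : ((c - 1 + 1 : ℕ) : ℝ) = c := by
        congr 1
        omega
      rw [h4]
      push_cast
      ring

theorem law_splits {B : Type} (cs : List B) (F : List B → ℕ) :
    ((splits cs).map fun p => if p.1 = [] then F p.2 else 0).sum = F cs := by
  induction cs generalizing F with
  | nil => simp [splits]
  | cons x xs ih =>
    rw [splits, List.map_append, List.sum_append, List.map_map, List.map_map]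
    have h1 : (List.map ((fun p : List B × List B => if p.1 = [] then F p.2 else 0) ∘
        fun p : List B × List B => (x :: p.1, p.2)) (splits xs)) =
        (splits xs).map fun _ => 0 := by
      refine List.map_congr_left fun p _ => ?_
      simp
    have h2 : (List.map ((fun p : List B × List B => if p.1 = [] then F p.2 else 0) ∘
        fun p : List B × List B => (p.1, x :: p.2)) (splits xs)) =
        (splits xs).map fun p => if p.1 = [] then (fun l => F (x :: l)) p.2 else 0 := rfl
    have h3 := ih (fun l => F (x :: l))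
    have h4 : ((splits xs).map fun _ : List B × List B => 0).sum = 0 := by simp
    rw [h1, h2, h4, zero_add]
    exact h3

theorem law_vt {c : List (List D)} {β : Perm D} (h : Mt c β) : vt ([] :: c) β = vt c β + 1 := by
  have h1 := card_le h
  unfold vt
  rw [polys_cons, List.formPerm_nil, one_mul, List.flatten_cons, List.nil_append,
    List.count_cons_self]
  omega

theorem law_step {a b : D} {l2 : List D} {cs : List (List D)}
    (hn : ((a :: b :: l2) :: cs).flatten.Nodup) {α : Perm D}
    (h : Mt ((a :: b :: l2) :: cs) α) (hab : α a = b) :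
    Mt (l2 :: cs) (swap a b * α) ∧
      (Conn ((a :: b :: l2) :: cs) α ↔ Conn (l2 :: cs) (swap a b * α)) ∧
      vt ((a :: b :: l2) :: cs) α = vt (l2 :: cs) (swap a b * α) + 1 := by
  classical
  have h1 := redA_mt (l1 := []) hn h hab
  have h2 := redA_vt (l1 := []) hn h hab
  have h3 := conA (l1 := []) hn h hab
  have h4 : Mt (l2 :: cs) (swap a b * α) := h1
  refine ⟨h4, ?_, ?_⟩
  · rw [if_neg (c := Conn ([] :: l2 :: cs) (swap a b * α))] at h3
    · have h5 : ((splits cs).map fun p => if TC [] l2 p (swap a b * α) then (1 : ℕ) else 0) =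
          (splits cs).map fun p => if p.1 = [] then
            (fun l => if Conn (l2 :: l) (swap a b * α) then (1 : ℕ) else 0) p.2 else 0 := by
        refine List.map_congr_left fun p _ => ?_
        by_cases h6 : p.1 = []
        · rw [if_pos h6]
          refine if_congr ?_ rfl rfl
          unfold TC
          rw [h6]
          constructor
          · rintro ⟨_, _, h7⟩
            exact h7
          · intro h7
            refine ⟨by simp, ⟨by simp, Or.inl rfl, ?_⟩, h7⟩
            intro S _ _ _ e he
            simp at he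
        · rw [if_neg h6, if_neg]
          rintro ⟨_, h7, _⟩
          rcases h7.2.1 with h8 | h8
          · rw [List.length_cons] at h8
            exact h6 (List.length_eq_zero_iff.1 (by omega))
          · exact h8 List.mem_cons_self
      rw [h5, zero_add] at h3
      have h3 := h3.trans (law_splits cs
        (fun l => if Conn (l2 :: l) (swap a b * α) then (1 : ℕ) else 0))
      have h6 : Conn ((a :: ([] ++ b :: l2)) :: cs) α ↔ Conn (l2 :: cs) (swap a b * α) := by
        by_cases h7 : Conn ((a :: ([] ++ b :: l2)) :: cs) α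
        · by_cases h8 : Conn (l2 :: cs) (swap a b * α)
          · exact ⟨fun _ => h8, fun _ => h7⟩
          · rw [if_pos h7, if_neg h8] at h3
            exact absurd h3 one_ne_zero
        · by_cases h8 : Conn (l2 :: cs) (swap a b * α)
          · rw [if_neg h7, if_pos h8] at h3
            exact absurd h3 zero_ne_one
          · exact ⟨fun h9 => absurd h9 h7, fun h9 => absurd h9 h8⟩
      exact h6
    · intro h5
      rcases h5.2.1 with h6 | h6
      · rw [List.length_cons, List.length_cons] at h6
        omega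
      · exact h6 List.mem_cons_self
  · rw [law_vt h4] at h2
    exact h2

theorem law_step_inv {a b : D} {l2 : List D} {cs : List (List D)}
    (hn : ((a :: b :: l2) :: cs).flatten.Nodup) {β : Perm D} (h : Mt (l2 :: cs) β) :
    Mt ((a :: b :: l2) :: cs) (swap a b * β) ∧ (swap a b * β) a = b :=
  redA_inv (l1 := []) hn h

theorem law_tri {f : Perm D} {w : D} {cs : List (List D)}
    (hn : ([w, f w, f (f w)] :: cs).flatten.Nodup) {α : Perm D}
    (h : Mt ([w, f w, f (f w)] :: cs) α) (hl : Leaf f α w) :
    Mt ([w] :: cs) (swap (f w) (f (f w)) * α) ∧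
      (Conn ([w, f w, f (f w)] :: cs) α ↔ Conn ([w] :: cs) (swap (f w) (f (f w)) * α)) ∧
      vt ([w, f w, f (f w)] :: cs) α = vt ([w] :: cs) (swap (f w) (f (f w)) * α) + 1 := by
  have hn1 : ([w] ++ [f w, f (f w)]).Nodup := by
    rw [List.flatten_cons, List.nodup_append] at hn
    exact hn.1
  obtain ⟨r1, r2, r3, r4⟩ := rot_all (c := cs) hn1 α
  have hn2 : ((f w :: f (f w) :: [w]) :: cs).flatten.Nodup := by
    have h1 : ([w, f w, f (f w)] :: cs).flatten.Perm ((f w :: f (f w) :: [w]) :: cs).flatten := by
      rw [List.flatten_cons, List.flatten_cons]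
      refine List.Perm.append_right _ ?_
      exact List.perm_append_comm (l₁ := [w]) (l₂ := [f w, f (f w)])
    exact h1.nodup_iff.1 hn
  obtain ⟨s1, s2, s3⟩ := law_step hn2 (r2.1 h) hl
  exact ⟨s1, r4.trans s2, r3.trans s3⟩

theorem law_tri_inv {f : Perm D} {w : D} {cs : List (List D)}
    (hn : ([w, f w, f (f w)] :: cs).flatten.Nodup) {β : Perm D} (h : Mt ([w] :: cs) β) :
    Mt ([w, f w, f (f w)] :: cs) (swap (f w) (f (f w)) * β) ∧
      Leaf f (swap (f w) (f (f w)) * β) w := by
  have hn1 : ([w] ++ [f w, f (f w)]).Nodup := by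
    rw [List.flatten_cons, List.nodup_append] at hn
    exact hn.1
  obtain ⟨r1, r2, r3, r4⟩ := rot_all (c := cs) hn1 (swap (f w) (f (f w)) * β)
  have hn2 : ((f w :: f (f w) :: [w]) :: cs).flatten.Nodup := by
    have h1 : ([w, f w, f (f w)] :: cs).flatten.Perm ((f w :: f (f w) :: [w]) :: cs).flatten := by
      rw [List.flatten_cons, List.flatten_cons]
      refine List.Perm.append_right _ ?_
      exact List.perm_append_comm (l₁ := [w]) (l₂ := [f w, f (f w)])
    exact h1.nodup_iff.1 hn
  obtain ⟨s1, s2⟩ := law_step_inv hn2 h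
  exact ⟨r2.2 s1, s2⟩

/-- the triangle of a root -/
def lawT (f : Perm D) (w : D) : List D := [w, f w, f (f w)]

theorem law_sub (f : Perm D) (ws : List D) (cs : List (List D)) :
    ((ws.map fun w => [w]) ++ cs).flatten.Sublist (ws.map (lawT f) ++ cs).flatten := by
  induction ws with
  | nil => exact List.Sublist.refl _
  | cons w ws ih =>
    rw [List.map_cons, List.map_cons, List.cons_append, List.cons_append, List.flatten_cons,
      List.flatten_cons]
    refine List.Sublist.append ?_ ih
    unfold lawT
    simp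

open Classical in
theorem law_sum (f : Perm D) (ws : List D) : ∀ cs : List (List D),
    (ws.map (lawT f) ++ cs).flatten.Nodup →
    (∑ α : Perm D, if (∀ w ∈ ws, Leaf f α w) ∧ Mt (ws.map (lawT f) ++ cs) α ∧
      Conn (ws.map (lawT f) ++ cs) α
      then (X : Polynomial ℕ) ^ vt (ws.map (lawT f) ++ cs) α else 0) =
    X ^ ws.length * cnt ((ws.map fun w => [w]) ++ cs) := by
  induction ws with
  | nil =>
    intro cs _
    simp [cnt]
  | cons w ws ih =>
    intro cs hn
    rw [List.map_cons, List.cons_append] at hn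
    have hn' : ([w, f w, f (f w)] :: (ws.map (lawT f) ++ cs)).flatten.Nodup := hn
    have hn1 : ([w] :: (ws.map (lawT f) ++ cs)).flatten.Nodup := by
      refine List.Nodup.sublist ?_ hn'
      rw [List.flatten_cons, List.flatten_cons]
      refine List.Sublist.append_right ?_ _
      simp
    have hperm : ([w] :: (ws.map (lawT f) ++ cs)).Perm (ws.map (lawT f) ++ ([w] :: cs)) :=
      List.perm_middle.symm
    have hn2 : (ws.map (lawT f) ++ ([w] :: cs)).flatten.Nodup :=
      (List.Perm.flatten hperm).nodup_iff.1 hn1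
    have hleaf : ∀ (β : Perm D), ∀ w' ∈ ws,
        (Leaf f (swap (f w) (f (f w)) * β) w' ↔ Leaf f β w') := by
      intro β w' hw'
      have h1 : f (f w') ∈ (ws.map (lawT f) ++ cs).flatten := by
        rw [List.mem_flatten]
        refine ⟨lawT f w', List.mem_append_left _ (List.mem_map_of_mem hw'), ?_⟩
        unfold lawT
        simp
      rw [List.flatten_cons, List.nodup_append] at hn'
      have h2 : f (f w') ≠ f w := by
        intro h3
        exact hn'.2.2 (f w) (by simp) _ h1 h3.symm
      have h3 : f (f w') ≠ f (f w) := by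
        intro h3
        exact hn'.2.2 (f (f w)) (by simp) _ h1 h3.symm
      unfold Leaf
      rw [Perm.mul_apply, Equiv.swap_apply_eq_iff, swap_apply_of_ne_of_ne h2 h3]
    rw [← Equiv.sum_comp (Equiv.mulLeft (swap (f w) (f (f w))))]
    have hterm : ∀ β ∈ (Finset.univ : Finset (Perm D)),
        (if (∀ w' ∈ w :: ws, Leaf f ((Equiv.mulLeft (swap (f w) (f (f w)))) β) w') ∧
          Mt ((w :: ws).map (lawT f) ++ cs) ((Equiv.mulLeft (swap (f w) (f (f w)))) β) ∧
          Conn ((w :: ws).map (lawT f) ++ cs) ((Equiv.mulLeft (swap (f w) (f (f w)))) β)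
          then (X : Polynomial ℕ) ^ vt ((w :: ws).map (lawT f) ++ cs)
            ((Equiv.mulLeft (swap (f w) (f (f w)))) β) else 0) =
        X * (if (∀ w' ∈ ws, Leaf f β w') ∧ Mt (ws.map (lawT f) ++ ([w] :: cs)) β ∧
          Conn (ws.map (lawT f) ++ ([w] :: cs)) β
          then (X : Polynomial ℕ) ^ vt (ws.map (lawT f) ++ ([w] :: cs)) β else 0) := by
      intro β _
      rw [Equiv.coe_mulLeft]
      obtain ⟨i1, i2, i3⟩ := inv_perm hperm hn1 β
      have hss : swap (f w) (f (f w)) * (swap (f w) (f (f w)) * β) = β := by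
        rw [← mul_assoc, swap_mul_self, one_mul]
      by_cases hM : Mt ([w] :: (ws.map (lawT f) ++ cs)) β
      · obtain ⟨h1, h2⟩ := law_tri_inv hn' hM
        obtain ⟨_, h3, h4⟩ := law_tri hn' h1 h2
        rw [hss] at h3 h4
        rw [← i2, mul_ite, mul_zero, ← pow_succ', ← h4]
        refine if_congr ?_ rfl rfl
        constructor
        · rintro ⟨g1, g2, g3⟩
          exact ⟨fun w' hw' => (hleaf β w' hw').1 (g1 w' (List.mem_cons_of_mem _ hw')),
            i1.1 hM, i3.1 (h3.1 g3)⟩
        · rintro ⟨g1, g2, g3⟩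
          refine ⟨?_, h1, h3.2 (i3.2 g3)⟩
          intro w' hw'
          rcases List.mem_cons.1 hw' with g4 | g4
          · rw [g4]
            exact h2
          · exact (hleaf β w' g4).2 (g1 w' g4)
      · rw [if_neg, if_neg, mul_zero]
        · rintro ⟨_, g2, _⟩
          exact hM (i1.2 g2)
        · rintro ⟨g1, g2, _⟩
          have h1 := (law_tri hn' g2 (g1 w List.mem_cons_self)).1
          rw [hss] at h1
          exact hM h1
    rw [Finset.sum_congr rfl hterm, ← Finset.mul_sum, ih ([w] :: cs) hn2, List.length_cons,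
      pow_succ', mul_assoc]
    congr 2
    refine cnt_perm List.perm_middle ?_
    exact List.Nodup.sublist (law_sub f ws ([w] :: cs)) hn2

open Classical in
theorem law_fix {f : Perm D} (hf : TF f) {n : ℕ} (hD : Fintype.card D = 6 * n) (hn : 1 ≤ n)
    (v : ℕ) (ws : List D) (hws : (tri f ws).Nodup) (hv : ws.length ≤ v) :
    (Finset.univ.filter (fun α : Perm D => α ∈ TS f v ∧ ∀ w ∈ ws, Leaf f α w)).card =
      (K (List.replicate ws.length 1 ++ List.replicate (2 * n - ws.length) 3)).coeff
        (v - ws.length) := by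
  have hne : Nonempty D := by
    rw [← Fintype.card_pos_iff, hD]
    omega
  obtain ⟨rs, h1, h2, h3⟩ := triang hf hws
  have hT : ((ws ++ rs).map fun b => [b, f b, f (f b)]) = ws.map (lawT f) ++ rs.map (lawT f) := by
    rw [List.map_append]
    rfl
  rw [hT] at h1 h2 h3
  have he : [] ∉ ws.map (lawT f) ++ rs.map (lawT f) := by
    rw [← List.map_append, List.mem_map]
    rintro ⟨b, _, hb⟩
    unfold lawT at hb
    simp at hb
  have hlen : (ws.map (lawT f) ++ rs.map (lawT f)).flatten.length = Fintype.card D := by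
    rw [← List.toFinset_card_of_nodup h1, ← Finset.card_univ]
    congr 1
    ext d
    simp only [List.mem_toFinset, Finset.mem_univ, iff_true]
    exact h2 d
  have hrs : ws.length + rs.length = 2 * n := by
    rw [← List.map_append, List.length_flatten, List.map_map] at hlen
    have h4 : (List.length ∘ lawT f) = fun _ : D => 3 := rfl
    rw [h4, List.map_const', List.sum_replicate, List.length_append, hD, smul_eq_mul] at hlen
    omega
  have h5 := law_sum f ws (rs.map (lawT f)) h1
  have h6 := congrArg (fun p : Polynomial ℕ => p.coeff v) h5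
  have h7 : v = (v - ws.length) + ws.length := by omega
  have h8 : (X ^ ws.length * cnt ((ws.map fun w => [w]) ++ rs.map (lawT f))).coeff v =
      (cnt ((ws.map fun w => [w]) ++ rs.map (lawT f))).coeff (v - ws.length) := by
    conv_lhs => rw [h7]
    rw [coeff_X_pow_mul]
  rw [h8, cnt_eq _ (List.Nodup.sublist (law_sub f ws (rs.map (lawT f))) h1)] at h6
  have h9 : ((ws.map fun w => [w]) ++ rs.map (lawT f)).map List.length =
      List.replicate ws.length 1 ++ List.replicate (2 * n - ws.length) 3 := by
    rw [List.map_append, List.map_map, List.map_map]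
    have g1 : (List.length ∘ fun w : D => [w]) = fun _ : D => 1 := rfl
    have g2 : (List.length ∘ lawT f) = fun _ : D => 3 := rfl
    rw [g1, g2, List.map_const', List.map_const']
    congr 2
    omega
  rw [h9, finsetSum_coeff] at h6
  rw [← h6, Finset.card_filter]
  refine Finset.sum_congr rfl fun α _ => ?_
  by_cases g : (∀ w ∈ ws, Leaf f α w) ∧ Mt (ws.map (lawT f) ++ rs.map (lawT f)) α ∧
      Conn (ws.map (lawT f) ++ rs.map (lawT f)) α
  · rw [if_pos g, coeff_X_pow]
    refine if_congr ?_ rfl rfl
    rw [TS_iff h1 h2 he h3 hne]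
    constructor
    · rintro ⟨g1, _⟩
      exact g1.2.2.symm
    · intro g1
      exact ⟨⟨g.2.1, g.2.2, g1.symm⟩, g.1⟩
  · rw [if_neg g, coeff_zero, if_neg]
    rw [TS_iff h1 h2 he h3 hne]
    rintro ⟨g1, g2⟩
    exact g ⟨g2, g1.1, g1.2.1⟩

theorem law_nd_cons {f : Perm D} (hf : TF f) {a : D} {l : List D} :
    (tri f (a :: l)).Nodup ↔ (tri f l).Nodup ∧ a ∉ tri f l := by
  have e1 : tri f (a :: l) = [a, f a, f (f a)] ++ tri f l := by
    unfold tri
    rw [List.flatMap_cons]
  rw [e1, List.nodup_append]
  constructor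
  · rintro ⟨_, h1, h2⟩
    exact ⟨h1, fun h3 => h2 a (by simp) a h3 rfl⟩
  · rintro ⟨h1, h2⟩
    refine ⟨lawa_nd hf a, h1, ?_⟩
    intro x hx z hz hxz
    rw [← hxz] at hz
    rw [List.mem_cons, List.mem_cons, List.mem_singleton] at hx
    apply h2
    rcases hx with hx | hx | hx
    · rw [← hx]
      exact hz
    · rw [hx] at hz
      have h3 := lawa_closed hf (lawa_closed hf hz)
      rw [hf.three] at h3
      exact h3
    · rw [hx] at hz
      have h3 := lawa_closed hf hz
      rw [hf.three] at h3
      exact h3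

theorem law_nd_nd {f : Perm D} (hf : TF f) {l : List D} (h : (tri f l).Nodup) : l.Nodup := by
  induction l with
  | nil => exact List.nodup_nil
  | cons a l ih =>
    rw [law_nd_cons hf] at h
    rw [List.nodup_cons]
    refine ⟨fun h1 => h.2 ?_, ih h.1⟩
    rw [lawa_mem]
    exact ⟨a, h1, Or.inl rfl⟩

theorem law_leaf_nd {f α : Perm D} (hf : TF f) (hα : ∀ d, α (α d) = d) {l : List D}
    (hl : l.Nodup) (h : ∀ w ∈ l, Leaf f α w) : (tri f l).Nodup := by
  induction l with
  | nil => simp [tri]
  | cons a l ih =>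
    rw [List.nodup_cons] at hl
    rw [law_nd_cons hf]
    refine ⟨ih hl.2 fun w hw => h w (List.mem_cons_of_mem _ hw), ?_⟩
    rw [lawa_mem]
    rintro ⟨b, hb, h1 | h1 | h1⟩
    · exact hl.1 (h1 ▸ hb)
    · have h2 : α (f a) = f (f a) := h a List.mem_cons_self
      have h3 : α (f b) = f (f b) := h b (List.mem_cons_of_mem _ hb)
      rw [h1, hf.three] at h2
      have h4 : α (α (f b)) = b := by rw [h3, h2]
      rw [hα] at h4
      exact hf.nf b h4
    · have h2 : α (f a) = f (f a) := h a List.mem_cons_self
      have h3 : α (f b) = f (f b) := h b (List.mem_cons_of_mem _ hb)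
      rw [h1, hf.three] at h2
      have h4 : α (α b) = f (f b) := by rw [h2, h3]
      rw [hα] at h4
      have h5 := hf.three b
      rw [← h4] at h5
      exact hf.nf b h5

open Classical in
/-- the tuples of roots of disjoint triangles -/
noncomputable def lawW (f : Perm D) (c : ℕ) : Finset (Fin c → D) :=
  Finset.univ.filter fun w => (tri f (List.ofFn w)).Nodup

theorem law_len (f : Perm D) (l : List D) : (tri f l).length = 3 * l.length := by
  induction l with
  | nil => simp [tri]
  | cons a l ih =>
    have e1 : tri f (a :: l) = [a, f a, f (f a)] ++ tri f l := by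
      unfold tri
      rw [List.flatMap_cons]
    rw [e1, List.length_append, ih]
    simp only [List.length_cons, List.length_nil]
    ring

theorem law_W_succ {f : Perm D} (hf : TF f) (c : ℕ) :
    (lawW f (c + 1)).card = (lawW f c).card * (Fintype.card D - 3 * c) := by
  classical
  unfold lawW
  rw [Finset.card_filter, ← (Fin.consEquiv (fun _ : Fin (c + 1) => D)).sum_comp,
    Fintype.sum_prod_type_right, Finset.card_filter, Finset.sum_mul]
  refine Finset.sum_congr rfl fun w _ => ?_
  have h1 : ∀ a ∈ (Finset.univ : Finset D),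
      (if (tri f (List.ofFn ((Fin.consEquiv (fun _ : Fin (c + 1) => D)) (a, w)))).Nodup
        then (1 : ℕ) else 0) =
      (if (tri f (List.ofFn w)).Nodup then 1 else 0) * (if a ∉ tri f (List.ofFn w) then 1 else 0) := by
    intro a _
    have h2 : List.ofFn ((Fin.consEquiv (fun _ : Fin (c + 1) => D)) (a, w)) = a :: List.ofFn w := by
      rw [List.ofFn_succ]
      rfl
    rw [h2]
    have h5 := law_nd_cons hf (a := a) (l := List.ofFn w)
    by_cases h6 : (tri f (List.ofFn w)).Nodup
    · by_cases h7 : a ∈ tri f (List.ofFn w)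
      · rw [if_neg (fun h8 => (h5.1 h8).2 h7), if_pos h6, if_neg (not_not.2 h7), mul_zero]
      · rw [if_pos (h5.2 ⟨h6, h7⟩), if_pos h6, if_pos h7]
    · rw [if_neg (fun h8 => h6 (h5.1 h8).1), if_neg h6, zero_mul]
  rw [Finset.sum_congr rfl h1, ← Finset.mul_sum]
  by_cases h3 : (tri f (List.ofFn w)).Nodup
  · rw [if_pos h3, one_mul, one_mul, Finset.sum_boole]
    have h4 : (Finset.univ.filter fun a => a ∉ tri f (List.ofFn w)) =
        Finset.univ \ (tri f (List.ofFn w)).toFinset := by
      ext a
      simp
    rw [h4, Finset.card_sdiff_of_subset (Finset.subset_univ _), Finset.card_univ,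
      List.toFinset_card_of_nodup h3, law_len, List.length_ofFn]
    rfl
  · rw [if_neg h3, zero_mul, zero_mul]

theorem law_W {f : Perm D} (hf : TF f) {n : ℕ} (hD : Fintype.card D = 6 * n) (c : ℕ)
    (hc : c ≤ 2 * n) :
    (lawW f c).card * ((2 * n - c).factorial * 3 ^ (2 * n - c)) =
      (2 * n).factorial * 3 ^ (2 * n) := by
  induction c with
  | zero =>
    have h1 : (lawW f 0).card = 1 := by
      classical
      unfold lawW
      rw [Finset.card_eq_one]
      refine ⟨fun i => i.elim0, ?_⟩
      ext w
      simp only [Finset.mem_filter, Finset.mem_univ, true_and, Finset.mem_singleton]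
      constructor
      · intro _
        funext i
        exact i.elim0
      · intro _
        simp [tri]
    rw [h1, one_mul, Nat.sub_zero]
  | succ c ih =>
    rw [← ih (by omega), law_W_succ hf, hD]
    have h1 : 2 * n - c = (2 * n - (c + 1)) + 1 := by omega
    have h2 : 6 * n - 3 * c = 3 * (2 * n - c) := by omega
    rw [h2, h1, Nat.factorial_succ, pow_succ, ← h1]
    ring

open Classical in
theorem law_inj (S : D → Prop) (c : ℕ) :
    (Finset.univ.filter (fun w : Fin c → D => Function.Injective w ∧ ∀ i, S (w i))).card =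
      (Nat.card {w : D // S w}).descFactorial c := by
  have h1 := Fintype.card_embedding_eq (α := Fin c) (β := {w : D // S w})
  rw [Fintype.card_fin] at h1
  rw [Nat.card_eq_fintype_card, ← h1, ← Fintype.card_subtype]
  refine Fintype.card_congr
    { toFun := fun w => ⟨fun i => ⟨w.1 i, w.2.2 i⟩, fun i j hij =>
        w.2.1 (congrArg Subtype.val hij)⟩
      invFun := fun e => ⟨fun i => (e i).1, fun i j hij => e.injective (Subtype.ext hij),
        fun i => (e i).2⟩
      left_inv := fun w => rfl
      right_inv := fun e => rfl }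

open Classical in
theorem law_double {f : Perm D} (hf : TF f) {n : ℕ} (hD : Fintype.card D = 6 * n) (hn : 1 ≤ n)
    (v c : ℕ) (hcv : c ≤ v) :
    ∑ α ∈ Finset.univ.filter (fun α => α ∈ TS f v), (lfc f α).descFactorial c =
      (lawW f c).card *
        (K (List.replicate c 1 ++ List.replicate (2 * n - c) 3)).coeff (v - c) := by
  have h1 : ∀ α ∈ Finset.univ.filter (fun α => α ∈ TS f v), (lfc f α).descFactorial c =
      ∑ w ∈ lawW f c, if ∀ x ∈ List.ofFn w, Leaf f α x then 1 else 0 := by
    intro α hα
    rw [Finset.mem_filter] at hα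
    have hinv : ∀ d, α (α d) = d := hα.2.1.inv
    unfold lfc
    rw [← law_inj (fun w => Leaf f α w) c, Finset.sum_boole]
    unfold lawW
    rw [Finset.filter_filter]
    have h2 : (Finset.univ.filter
        (fun w : Fin c → D => Function.Injective w ∧ ∀ i, Leaf f α (w i))) =
        Finset.univ.filter (fun w : Fin c → D => (tri f (List.ofFn w)).Nodup ∧
          ∀ x ∈ List.ofFn w, Leaf f α x) := by
      refine Finset.filter_congr fun w _ => ?_
      have h3 : (∀ x ∈ List.ofFn w, Leaf f α x) ↔ ∀ i, Leaf f α (w i) := by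
        constructor
        · intro h i
          exact h _ (List.mem_ofFn.2 ⟨i, rfl⟩)
        · intro h x hx
          obtain ⟨i, rfl⟩ := List.mem_ofFn.1 hx
          exact h i
      rw [h3, ← List.nodup_ofFn]
      constructor
      · rintro ⟨g1, g2⟩
        exact ⟨law_leaf_nd hf hinv g1 (h3.2 g2), g2⟩
      · rintro ⟨g1, g2⟩
        exact ⟨law_nd_nd hf g1, g2⟩
    rw [h2]
    rfl
  rw [Finset.sum_congr rfl h1, Finset.sum_comm]
  have h2 : ∀ w ∈ lawW f c, (∑ α ∈ Finset.univ.filter (fun α => α ∈ TS f v),
      if ∀ x ∈ List.ofFn w, Leaf f α x then (1 : ℕ) else 0) =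
      (K (List.replicate c 1 ++ List.replicate (2 * n - c) 3)).coeff (v - c) := by
    intro w hw
    unfold lawW at hw
    rw [Finset.mem_filter] at hw
    have h3 := law_fix hf hD hn v (List.ofFn w) hw.2 (by rw [List.length_ofFn]; exact hcv)
    rw [List.length_ofFn] at h3
    rw [← h3, Finset.sum_boole, Finset.filter_filter]
    rfl
  rw [Finset.sum_congr rfl h2, Finset.sum_const, smul_eq_mul]

open Classical in
theorem law_mom {f : Perm D} (hf : TF f) {n : ℕ} (hD : Fintype.card D = 6 * n) (hn : 1 ≤ n)
    (v c : ℕ) (hc : 1 ≤ c) (hcn : c ≤ n) (hcv : c ≤ v) :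
    (∑ α ∈ Finset.univ.filter (fun α => α ∈ TS f v), ((lfc f α).descFactorial c : ℝ)) * bc n v =
      ((TS f v).ncard : ℝ) * (6 * n * ∏ j ∈ Finset.Icc 1 (c - 1), (6 * ((n : ℝ) - c) + 4 * j)) *
        bc (n - c) (v - c) := by
  have h1 := law_double hf hD hn v c hcv
  have h2 : (∑ α ∈ Finset.univ.filter (fun α => α ∈ TS f v), ((lfc f α).descFactorial c : ℝ)) =
      ((lawW f c).card : ℝ) *
        ((K (List.replicate c 1 ++ List.replicate (2 * n - c) 3)).coeff (v - c) : ℝ) := by
    exact_mod_cast h1
  have h3 := law_W hf hD c (by omega)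
  have h4 : ((lawW f c).card : ℝ) * (((2 * n - c).factorial : ℝ) * 3 ^ (2 * n - c)) =
      ((2 * n).factorial : ℝ) * 3 ^ (2 * n) := by
    exact_mod_cast h3
  have h5 := ts_card hf hD hn v
  have h6 := kk_ones c (n - c) hc
  have h7 : 2 * (n - c) + c = 2 * n - c := by omega
  rw [h7] at h6
  have h8 := congrArg (fun p : Polynomial ℝ => p.coeff (v - c)) h6
  simp only [kk, coeff_C_mul, coeff_map, eq_natCast, coeff_smul, smul_eq_mul] at h8
  have h9 : ((n - c : ℕ) : ℝ) = (n : ℝ) - c := by
    rw [Nat.cast_sub hcn]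
  rw [h9] at h8
  have h10 : (bb (n - c)).coeff (v - c) = bc (n - c) (v - c) := rfl
  rw [h10] at h8
  have hF : (((2 * n - c).factorial : ℝ) * 3 ^ (2 * n - c)) ≠ 0 := by positivity
  obtain ⟨F, hFd⟩ : ∃ F : ℝ, F = (((2 * n - c).factorial : ℝ) * 3 ^ (2 * n - c)) := ⟨_, rfl⟩
  rw [← hFd] at h4 h8 hF
  obtain ⟨κ, hκ⟩ : ∃ κ : ℝ, κ =
    ((K (List.replicate c 1 ++ List.replicate (2 * n - c) 3)).coeff (v - c) : ℝ) := ⟨_, rfl⟩
  rw [← hκ] at h2 h8
  have h11 : κ = F * ((∏ j ∈ Finset.Icc 1 (c - 1), (6 * ((n : ℝ) - c) + 4 * j)) *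
      bc (n - c) (v - c)) := by
    rw [← h8, mul_inv_cancel_left₀ hF]
  rw [h2, h11]
  have h12 : ((TS f v).ncard : ℝ) *
      (6 * n * ∏ j ∈ Finset.Icc 1 (c - 1), (6 * ((n : ℝ) - c) + 4 * j)) * bc (n - c) (v - c) =
      (((TS f v).ncard : ℝ) * (6 * n)) *
      ((∏ j ∈ Finset.Icc 1 (c - 1), (6 * ((n : ℝ) - c) + 4 * j)) * bc (n - c) (v - c)) := by
    ring
  rw [h12, h5, ← h4]
  ring

end UN39
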