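import Mathlib
import Pool.Agent.H39.UN.Kk
import Pool.Agent.H39.UN.Ineq
import Pool.Agent.H39.UN.Ult
import Pool.Agent.H39.UN.Rat

/-!
[H39 UN PLIM]  (MP_bcc40c_pr)  Limit of the product sums: one factor is macroscopic, the other one is a small planar piece.

`F`, `G : ℕ → ℕ → ℝ` (number of triangles, number of vertices), `0 ≤ F m v ≤ kc [i] m v`, `0 ≤ G m v ≤ kc [j] m v`.
`pl i F s` = planar values; `big U n v j G c = ulim G (2n + 2 - j - 2c) (v - c) / bc n v`.
`Spr F G m v = ∑_{t ≤ m} ∑_{w ≤ v} F t w * G (m-t) (v-w)`.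

PROOF of plim.  Put `m = 2n + 2 - i - j - 2c`, `v' = v + 1 - c` (`i` depends on the index; write `N` for the index).  Fix `K ≥ 1`.
Reduction to `bc`: for `i ≥ 1`: `F t w ≤ kc [i] t w ≤ kc [1] (t + i - 1) w` (kc_le_one), which is `bc n1 w` if `t + i - 1 = 2 n1 + 1` is odd,
and `0` if it is even (K_odd); for `i = 0` `F t w ≤ kc [0] t w = [t = 0, w = 1]` (kk_zero).  The same for `G`.
Split the sum over `t`: (a) `t ≤ 2K`, (b) `m - t ≤ 2K`, (c) both `> 2K` (for large `n` these are disjoint and everything).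
(c): zero if `i = 0` or `j = 0`; otherwise `t + i - 1 = 2 n1 + 1`, `m - t + j - 1 = 2 n2 + 1`, so `2 n1 + 2 n2 + 2 = m + i + j - 2 = 2 n - 2 c`:
`n1 + n2 = (n - c) - 1`, vertex numbers `w + (v' - w) = (v - c) + 1`, `n1, n2 ≥ K`: both for `(n - c, v - c)`:
`≤ (3n+2)/(3K (v - c + 1)) bc (n-c) (v-c) ≤ (C/K) bc n v`, with `C = C(ω)` (`v ≥ ω n/2`).
(a): for fixed `t ≤ 2K` and `w`: by K_supp (`l = i :: 3^t`) `F t w ≠ 0` implies `2 w ≤ t + i + 2` and `w + t + 1 ≡ (i + 3t)/2 (mod 2)`, i.e.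
`t = 2 w - 2 - i + 4 g`... : write `t + i + 2 - 2 w = 4 g`... (parity: `i + 3 t` even, `2 (w + t + 1) ≡ i + 3t (mod 4)` gives
`t + i + 2 - 2 w ≡ 0 (mod 4)`), `g ≥ 0` the genus of the piece.  Then `G (m - t) (v' - w)` with `m - t = 2n + 2 - j - 2(c + w - 1) - 4g`,
`v' - w = v - (c + w - 1)`.  For `g = 0` (planar, `s = w`, `t = 2 s - 2 - i`): `G(..)/bc n v` tends to `big G (c + s - 1)` (bounded by 1: `G ≤ bc`-value of
`(n - (c+s-1), v - (c+s-1))`, sq_quot, so the ulim is a limit).  For `g ≥ 1`: `G (..) ≤ bc (n - a - 2g) (v - a)`, `a = c + w - 1`: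
`= bc (n - (a + 2g)) (v - (a + 2 g) + 2 g)`, ratio tends to 0 (sq_small).  Finitely many `(t, w)`.
So the limit of part (a) is `∑_{s : 2 s - 2 - i ≤ 2K} pl i F s * big G (c + s - 1)` (`s ≥ 1` whenever `pl i F s ≠ 0`), the same for (b).
All terms are nonnegative and the whole sum is bounded: `S/bc n v ≤ limit part + C/K + o(1)`; for `K = 1` this gives a bound for the limsup, hence the
partial sums of the two series are bounded, so the series are summable; let `K → ∞`.
-/

set_option autoImplicit false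

namespace UN39

open Filter Topology

/-- planar values -/
noncomputable def pl (i : ℕ) (F : ℕ → ℕ → ℝ) (s : ℕ) : ℝ :=
  if i + 2 ≤ 2 * s then F (2 * s - 2 - i) s else 0

/-- macroscopic values -/
noncomputable def big {ι : Type} (U : Ultrafilter ι) (n v : ι → ℕ) (j : ℕ) (G : ℕ → ℕ → ℝ)
    (c : ℕ) : ℝ :=
  ulim U (fun i => G (2 * n i + 2 - j - 2 * c) (v i - c) / bc (n i) (v i))

noncomputable def Spr (F G : ℕ → ℕ → ℝ) (m v : ℕ) : ℝ :=
  ∑ t ∈ Finset.range (m + 1), ∑ w ∈ Finset.range (v + 1), F t w * G (m - t) (v - w)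

variable {ι : Type} {U : Ultrafilter ι} {n v : ι → ℕ} {ω : ℝ}

private theorem kc_supp {i m v : ℕ} (h : kc [i] m v ≠ 0) :
    1 ≤ v ∧ ∃ g, m + i + 2 = 2 * v + 4 * g := by
  have hK : (K ([i] ++ List.replicate m 3)).coeff v ≠ 0 := by
    intro h0
    apply h
    unfold kc kk
    rw [Polynomial.coeff_C_mul, Polynomial.coeff_map, h0]
    simp
  have hodd : ¬ Odd ([i] ++ List.replicate m 3).sum := by
    intro ho
    apply hK
    rw [K_odd ho, Polynomial.coeff_zero]
  obtain ⟨h1, h2, h3⟩ := K_supp hK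
  have hs : ([i] ++ List.replicate m 3).sum = i + 3 * m := by simp [mul_comm]
  have hl : ([i] ++ List.replicate m 3).length = m + 1 := by simp
  rw [hs] at hodd h2 h3
  rw [hl] at h2 h3
  rw [Nat.not_odd_iff_even] at hodd
  obtain ⟨e, he⟩ := hodd
  refine ⟨h1, (m + i + 2 - 2 * v) / 4, ?_⟩
  omega

private theorem kc_zero_pos {m v : ℕ} (h : 1 ≤ m) : kc [0] m v = 0 := by
  unfold kc
  rw [kk_zero, if_neg (by omega), Polynomial.coeff_zero]

/-- reduction to the numbers `bc` -/
private theorem Gle {G : ℕ → ℕ → ℝ} {j : ℕ} (hG : ∀ m w, G m w ≤ kc [j] m w) {x y n' : ℕ}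
    (hx : 1 ≤ x) (h : x + j = 2 * n' + 2) : G x y ≤ bc n' y := by
  refine (hG x y).trans ?_
  rcases Nat.eq_zero_or_pos j with hj | hj
  · rw [hj, kc_zero_pos hx]
    exact bc_nonneg _ _
  · obtain ⟨p, rfl⟩ : ∃ p, j = p + 1 := ⟨j - 1, by omega⟩
    have h1 := kc_le_one p [] x y
    have h2 : x + p = 2 * n' + 1 := by omega
    rw [h2] at h1
    exact h1

private theorem F_zero {F : ℕ → ℕ → ℝ} {i : ℕ} (hF0 : ∀ m w, 0 ≤ F m w)
    (hF : ∀ m w, F m w ≤ kc [i] m w) {t w : ℕ} (h : F t w ≠ 0) :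
    1 ≤ w ∧ ∃ g, t + i + 2 = 2 * w + 4 * g := by
  refine kc_supp fun h0 => h ?_
  exact le_antisymm ((hF t w).trans h0.le) (hF0 t w)

/-- existence of the macroscopic limits -/
theorem big_tendsto (h : Sq U n v ω) (j : ℕ) (G : ℕ → ℕ → ℝ) (hG0 : ∀ m w, 0 ≤ G m w)
    (hG : ∀ m w, G m w ≤ kc [j] m w) (c : ℕ) :
    Tendsto (fun i => G (2 * n i + 2 - j - 2 * c) (v i - c) / bc (n i) (v i)) U
      (𝓝 (big U n v j G c)) ∧ 0 ≤ big U n v j G c ∧ big U n v j G c ≤ (1 / 2) ^ c := by
  have h1 : ∀ᶠ i in (U : Filter ι), 0 ≤ G (2 * n i + 2 - j - 2 * c) (v i - c) / bc (n i) (v i) ∧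
      G (2 * n i + 2 - j - 2 * c) (v i - c) / bc (n i) (v i) ≤ (1 / 2) ^ c := by
    filter_upwards [sq_pos h (c + j), sq_quot h c] with k hk hq
    have hpos := hk.2.2.2.2.1
    refine ⟨div_nonneg (hG0 _ _) hpos.le, ?_⟩
    refine le_trans ?_ hq.2
    refine div_le_div_of_nonneg_right ?_ hpos.le
    exact Gle hG (by omega) (by omega)
  have h2 : ∀ᶠ i in (U : Filter ι),
      |G (2 * n i + 2 - j - 2 * c) (v i - c) / bc (n i) (v i)| ≤ (1 / 2) ^ c :=
    h1.mono fun k hk => by
      rw [abs_of_nonneg hk.1]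
      exact hk.2
  have h3 := ulim_tendsto h2
  exact ⟨h3, ge_of_tendsto h3 (h1.mono fun k hk => hk.1),
    le_of_tendsto h3 (h1.mono fun k hk => hk.2)⟩

/-- the limit of one term -/
private theorem term_lim (h : Sq U n v ω) (i j : ℕ) (F G : ℕ → ℕ → ℝ) (hF0 : ∀ m w, 0 ≤ F m w)
    (hF : ∀ m w, F m w ≤ kc [i] m w) (hG0 : ∀ m w, 0 ≤ G m w)
    (hG : ∀ m w, G m w ≤ kc [j] m w) (c t w : ℕ) :
    Tendsto (fun k => F t w * G (2 * n k + 2 - i - j - 2 * c - t) (v k + 1 - c - w) /
      bc (n k) (v k)) U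
      (𝓝 (if t + i + 2 = 2 * w then F t w * big U n v j G (c + w - 1) else 0)) := by
  by_cases hFz : F t w = 0
  · rw [hFz]
    simp only [zero_mul, zero_div, ite_self]
    exact tendsto_const_nhds
  obtain ⟨hw, g, hg⟩ := F_zero hF0 hF hFz
  rcases Nat.eq_zero_or_pos g with hg0 | hg0
  · rw [if_pos (by omega)]
    have h1 := ((big_tendsto h j G hG0 hG (c + w - 1)).1).const_mul (F t w)
    refine h1.congr' ?_
    filter_upwards [sq_pos h (c + w + i + j + t)] with k hk
    rw [mul_div_assoc]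
    have e1 : 2 * n k + 2 - j - 2 * (c + w - 1) = 2 * n k + 2 - i - j - 2 * c - t := by omega
    have e2 : v k - (c + w - 1) = v k + 1 - c - w := by omega
    rw [e1, e2]
  · rw [if_neg (by omega)]
    have h1 := (sq_small h (c + w - 1 + 2 * g) g hg0).const_mul (F t w)
    rw [mul_zero] at h1
    refine squeeze_zero' ?_ ?_ h1
    · filter_upwards [sq_pos h 0] with k hk
      exact div_nonneg (mul_nonneg (hF0 _ _) (hG0 _ _)) hk.2.2.2.2.1.le
    · filter_upwards [sq_pos h (c + w + i + j + t + 2 * g)] with k hk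
      have hpos := hk.2.2.2.2.1
      rw [mul_div_assoc]
      refine mul_le_mul_of_nonneg_left ?_ (hF0 _ _)
      refine div_le_div_of_nonneg_right ?_ hpos.le
      have e2 : v k + 1 - c - w = v k - (c + w - 1 + 2 * g) + 2 * g := by omega
      have h2 : G (2 * n k + 2 - i - j - 2 * c - t) (v k + 1 - c - w)
          ≤ bc (n k - (c + w - 1 + 2 * g)) (v k - (c + w - 1 + 2 * g) + 2 * g) := by
        rw [e2]
        exact Gle hG (by omega) (by omega)
      refine h2.trans ?_
      have h3 : (1 : ℝ) ≤ n k := by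
        have : 1 ≤ n k := by omega
        exact_mod_cast this
      have h4 := bc_nonneg (n k - (c + w - 1 + 2 * g)) (v k - (c + w - 1 + 2 * g) + 2 * g)
      nlinarith

/-- the part of the sum with a small first piece -/
private noncomputable def Apart (F G : ℕ → ℕ → ℝ) (m v T : ℕ) : ℝ :=
  ∑ t ∈ Finset.range (T + 1), ∑ w ∈ Finset.range (v + 1), F t w * G (m - t) (v - w)

private theorem a_sum (i : ℕ) (F : ℕ → ℕ → ℝ) (b : ℕ → ℝ) (c T : ℕ) :
    ∑ t ∈ Finset.range (T + 1), ∑ w ∈ Finset.range (T + i + 2 + 1),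
      (if t + i + 2 = 2 * w then F t w * b (c + w - 1) else 0) =
      ∑ s ∈ Finset.range ((T + i) / 2 + 1), pl i F (s + 1) * b (c + s) := by
  rw [Finset.sum_comm, Finset.sum_range_succ']
  have h0 : ∑ t ∈ Finset.range (T + 1),
      (if t + i + 2 = 2 * 0 then F t 0 * b (c + 0 - 1) else 0) = 0 := by
    refine Finset.sum_eq_zero fun t _ => ?_
    rw [if_neg (by omega)]
  rw [h0, add_zero]
  symm
  have hsub : Finset.range ((T + i) / 2 + 1) ⊆ Finset.range (T + i + 2) := by
    intro s hs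
    rw [Finset.mem_range] at hs ⊢
    omega
  rw [← Finset.sum_subset hsub (f := fun s => ∑ t ∈ Finset.range (T + 1),
    (if t + i + 2 = 2 * (s + 1) then F t (s + 1) * b (c + (s + 1) - 1) else 0))]
  · refine Finset.sum_congr rfl fun s hs => ?_
    rw [Finset.mem_range] at hs
    unfold pl
    by_cases h1 : i + 2 ≤ 2 * (s + 1)
    · rw [if_pos h1, Finset.sum_eq_single (2 * (s + 1) - 2 - i)]
      · rw [if_pos (by omega)]
        have e1 : c + (s + 1) - 1 = c + s := by omega
        rw [e1]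
      · intro t _ ht
        rw [if_neg (by omega)]
      · intro ht
        exfalso
        apply ht
        rw [Finset.mem_range]
        omega
    · rw [if_neg h1, zero_mul]
      symm
      refine Finset.sum_eq_zero fun t _ => ?_
      rw [if_neg (by omega)]
  · intro s _ hs
    rw [Finset.mem_range] at hs
    refine Finset.sum_eq_zero fun t ht => ?_
    rw [Finset.mem_range] at ht
    rw [if_neg (by omega)]

private theorem apart_lim (h : Sq U n v ω) (i j : ℕ) (F G : ℕ → ℕ → ℝ) (hF0 : ∀ m w, 0 ≤ F m w)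
    (hF : ∀ m w, F m w ≤ kc [i] m w) (hG0 : ∀ m w, 0 ≤ G m w)
    (hG : ∀ m w, G m w ≤ kc [j] m w) (c T : ℕ) :
    Tendsto (fun k => Apart F G (2 * n k + 2 - i - j - 2 * c) (v k + 1 - c) T / bc (n k) (v k)) U
      (𝓝 (∑ s ∈ Finset.range ((T + i) / 2 + 1), pl i F (s + 1) * big U n v j G (c + s))) := by
  rw [← a_sum i F (big U n v j G) c T]
  have h1 := tendsto_finsetSum (Finset.range (T + 1)) fun t _ =>
    tendsto_finsetSum (Finset.range (T + i + 2 + 1)) fun w _ =>
      term_lim h i j F G hF0 hF hG0 hG c t w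
  refine h1.congr' ?_
  filter_upwards [sq_pos h (c + T + i + 2)] with k hk
  unfold Apart
  rw [Finset.sum_div]
  refine Finset.sum_congr rfl fun t ht => ?_
  rw [Finset.sum_div]
  have hsub : Finset.range (T + i + 2 + 1) ⊆ Finset.range (v k + 1 - c + 1) := by
    intro s hs
    rw [Finset.mem_range] at hs ⊢
    omega
  refine Finset.sum_subset hsub fun w _ hw => ?_
  rw [Finset.mem_range] at ht hw
  have h2 : F t w = 0 := by
    by_contra h3
    obtain ⟨_, g, hg⟩ := F_zero hF0 hF h3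
    omega
  rw [h2, zero_mul, zero_div]

/-- both pieces are large -/
private theorem rest_le (i j : ℕ) (F G : ℕ → ℕ → ℝ) (hF0 : ∀ m w, 0 ≤ F m w)
    (hF : ∀ m w, F m w ≤ kc [i] m w) (hG0 : ∀ m w, 0 ≤ G m w)
    (hG : ∀ m w, G m w ≤ kc [j] m w) (c K' N V : ℕ) (hK : 1 ≤ K') (hN : c + i + j + 1 ≤ N)
    (hV : c + 1 ≤ V) :
    3 * (K' : ℝ) * ((V - c : ℕ) + 1) *
      (∑ t ∈ (Finset.range (2 * N + 2 - i - j - 2 * c + 1)).filter
          (fun t => 2 * K' < t ∧ 2 * K' < 2 * N + 2 - i - j - 2 * c - t),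
        ∑ w ∈ Finset.range (V + 1 - c + 1),
          F t w * G (2 * N + 2 - i - j - 2 * c - t) (V + 1 - c - w))
      ≤ (3 * (N - c : ℕ) + 2) * bc (N - c) (V - c) := by
  set m := 2 * N + 2 - i - j - 2 * c with hm
  set Tc := (Finset.range (m + 1)).filter (fun t => 2 * K' < t ∧ 2 * K' < m - t) with hTc
  have hR0 : 0 ≤ (3 * ((N - c : ℕ) : ℝ) + 2) * bc (N - c) (V - c) :=
    mul_nonneg (by positivity) (bc_nonneg _ _)
  rcases Nat.eq_zero_or_pos i with hi | hi
  · have hz : ∑ t ∈ Tc, ∑ w ∈ Finset.range (V + 1 - c + 1), F t w * G (m - t) (V + 1 - c - w)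
        = 0 := by
      refine Finset.sum_eq_zero fun t ht => Finset.sum_eq_zero fun w _ => ?_
      have ht' := (Finset.mem_filter.1 ht).2
      have h1 := hF t w
      rw [hi, kc_zero_pos (by omega)] at h1
      rw [le_antisymm h1 (hF0 t w), zero_mul]
    rw [hz, mul_zero]
    exact hR0
  rcases Nat.eq_zero_or_pos j with hj | hj
  · have hz : ∑ t ∈ Tc, ∑ w ∈ Finset.range (V + 1 - c + 1), F t w * G (m - t) (V + 1 - c - w)
        = 0 := by
      refine Finset.sum_eq_zero fun t ht => Finset.sum_eq_zero fun w _ => ?_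
      have ht' := (Finset.mem_filter.1 ht).2
      have h1 := hG (m - t) (V + 1 - c - w)
      rw [hj, kc_zero_pos (by omega)] at h1
      rw [le_antisymm h1 (hG0 _ _), mul_zero]
    rw [hz, mul_zero]
    exact hR0
  set M := N - c with hM
  set g : ℕ → ℝ := fun n1 => ∑ w ∈ Finset.range (V - c + 2),
    bc n1 w * bc (M - 1 - n1) (V - c + 1 - w) with hg
  have hg0 : ∀ n1, 0 ≤ g n1 := fun n1 =>
    Finset.sum_nonneg fun w _ => mul_nonneg (bc_nonneg _ _) (bc_nonneg _ _)
  have hinner : ∀ t ∈ Tc, ∑ w ∈ Finset.range (V + 1 - c + 1), F t w * G (m - t) (V + 1 - c - w)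
      ≤ if (t + i) % 2 = 0 then g ((t + i - 2) / 2) else 0 := by
    intro t ht
    have ht' := (Finset.mem_filter.1 ht).2
    by_cases hpar : (t + i) % 2 = 0
    · rw [if_pos hpar, hg]
      have e1 : V + 1 - c + 1 = V - c + 2 := by omega
      rw [e1]
      refine Finset.sum_le_sum fun w _ => ?_
      have e2 : V + 1 - c - w = V - c + 1 - w := by omega
      rw [e2]
      have h1 : F t w ≤ bc ((t + i - 2) / 2) w := Gle hF (by omega) (by omega)
      have h2 : G (m - t) (V - c + 1 - w) ≤ bc (M - 1 - (t + i - 2) / 2) (V - c + 1 - w) :=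
        Gle hG (by omega) (by omega)
      exact mul_le_mul h1 h2 (hG0 _ _) (bc_nonneg _ _)
    · rw [if_neg hpar]
      refine le_of_eq (Finset.sum_eq_zero fun w _ => ?_)
      have h1 : F t w = 0 := by
        by_contra h3
        obtain ⟨_, g', hg'⟩ := F_zero hF0 hF h3
        omega
      rw [h1, zero_mul]
  have hsum : ∑ t ∈ Tc, ∑ w ∈ Finset.range (V + 1 - c + 1), F t w * G (m - t) (V + 1 - c - w)
      ≤ ∑ n1 ∈ (Finset.range M).filter (fun n1 => K' ≤ n1 ∧ K' ≤ M - 1 - n1), g n1 := by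
    refine (Finset.sum_le_sum hinner).trans ?_
    rw [← Finset.sum_filter]
    have himg : ∑ t ∈ Tc.filter (fun t => (t + i) % 2 = 0), g ((t + i - 2) / 2)
        = ∑ n1 ∈ (Tc.filter (fun t => (t + i) % 2 = 0)).image (fun t => (t + i - 2) / 2), g n1 := by
      rw [Finset.sum_image]
      intro t ht t' ht' htt
      have h1 := Finset.mem_filter.1 ht
      have h2 := Finset.mem_filter.1 ht'
      have h3 := (Finset.mem_filter.1 h1.1).2
      have h4 := (Finset.mem_filter.1 h2.1).2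
      have h5 := h1.2
      have h6 := h2.2
      simp only at htt
      omega
    rw [himg]
    refine Finset.sum_le_sum_of_subset_of_nonneg ?_ fun n1 _ _ => hg0 n1
    intro n1 hn1
    obtain ⟨t, ht, rfl⟩ := Finset.mem_image.1 hn1
    have h1 := Finset.mem_filter.1 ht
    have h3 := (Finset.mem_filter.1 h1.1).2
    have h5 := h1.2
    rw [Finset.mem_filter, Finset.mem_range]
    omega
  have hboth := both M (V - c) K' (by omega)
  refine le_trans (mul_le_mul_of_nonneg_left hsum (by positivity)) ?_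
  exact hboth

private theorem spr_split (F G : ℕ → ℕ → ℝ) (m v T : ℕ) (h : 2 * T < m) :
    Spr F G m v = Apart F G m v T + Apart G F m v T +
      ∑ t ∈ (Finset.range (m + 1)).filter (fun t => T < t ∧ T < m - t),
        ∑ w ∈ Finset.range (v + 1), F t w * G (m - t) (v - w) := by
  unfold Spr Apart
  set f : ℕ → ℝ := fun t => ∑ w ∈ Finset.range (v + 1), F t w * G (m - t) (v - w) with hf
  have h1 : ∑ t ∈ Finset.range (m + 1), f t =
      ∑ t ∈ (Finset.range (m + 1)).filter (fun t => t ≤ T), f t +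
        ∑ t ∈ (Finset.range (m + 1)).filter (fun t => ¬ t ≤ T), f t :=
    (Finset.sum_filter_add_sum_filter_not _ _ _).symm
  have h2 : ∑ t ∈ (Finset.range (m + 1)).filter (fun t => ¬ t ≤ T), f t =
      ∑ t ∈ ((Finset.range (m + 1)).filter (fun t => ¬ t ≤ T)).filter (fun t => m - t ≤ T), f t +
        ∑ t ∈ ((Finset.range (m + 1)).filter (fun t => ¬ t ≤ T)).filter (fun t => ¬ m - t ≤ T), f t :=
    (Finset.sum_filter_add_sum_filter_not _ _ _).symm
  have e1 : (Finset.range (m + 1)).filter (fun t => t ≤ T) = Finset.range (T + 1) := by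
    ext t
    rw [Finset.mem_filter, Finset.mem_range, Finset.mem_range]
    omega
  have e3 : ((Finset.range (m + 1)).filter (fun t => ¬ t ≤ T)).filter (fun t => ¬ m - t ≤ T)
      = (Finset.range (m + 1)).filter (fun t => T < t ∧ T < m - t) := by
    ext t
    simp only [Finset.mem_filter, Finset.mem_range, not_le]
    tauto
  have e2 : ∑ t ∈ ((Finset.range (m + 1)).filter (fun t => ¬ t ≤ T)).filter
      (fun t => m - t ≤ T), f t = ∑ t ∈ Finset.range (T + 1), ∑ w ∈ Finset.range (v + 1),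
        G t w * F (m - t) (v - w) := by
    refine Finset.sum_nbij' (fun t => m - t) (fun t => m - t) ?_ ?_ ?_ ?_ ?_
    · intro t ht
      simp only [Finset.mem_filter, Finset.mem_range] at ht ⊢
      omega
    · intro t ht
      simp only [Finset.mem_filter, Finset.mem_range] at ht ⊢
      omega
    · intro t ht
      simp only [Finset.mem_filter, Finset.mem_range] at ht
      omega
    · intro t ht
      simp only [Finset.mem_range] at ht
      omega
    · intro t ht
      simp only [Finset.mem_filter, Finset.mem_range] at ht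
      have e4 : m - (m - t) = t := by omega
      simp only [hf]
      rw [e4, ← Finset.sum_range_reflect]
      refine Finset.sum_congr rfl fun w hw => ?_
      rw [Finset.mem_range] at hw
      have e5 : v + 1 - 1 - w = v - w := by omega
      have e6 : v - (v - w) = w := by omega
      rw [e5, e6, mul_comm]
  rw [h1, h2, e1, e2, e3]
  ring

theorem plim (h : Sq U n v ω) (i j : ℕ) (F G : ℕ → ℕ → ℝ) (hF0 : ∀ m w, 0 ≤ F m w)
    (hF : ∀ m w, F m w ≤ kc [i] m w) (hG0 : ∀ m w, 0 ≤ G m w)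
    (hG : ∀ m w, G m w ≤ kc [j] m w) (c : ℕ) :
    Summable (fun s => pl i F (s + 1) * big U n v j G (c + s)) ∧
    Summable (fun s => pl j G (s + 1) * big U n v i F (c + s)) ∧
    Tendsto (fun k => Spr F G (2 * n k + 2 - i - j - 2 * c) (v k + 1 - c) / bc (n k) (v k)) U
      (𝓝 (∑' s, pl i F (s + 1) * big U n v j G (c + s) +
        ∑' s, pl j G (s + 1) * big U n v i F (c + s))) := by
  set P : ℕ → ℝ := fun s => pl i F (s + 1) * big U n v j G (c + s) with hP
  set Q : ℕ → ℝ := fun s => pl j G (s + 1) * big U n v i F (c + s) with hQ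
  have hpl : ∀ (i : ℕ) (F : ℕ → ℕ → ℝ) (hF0 : ∀ m w, 0 ≤ F m w) (s : ℕ), 0 ≤ pl i F s := by
    intro i F hF0 s
    unfold pl
    split_ifs
    · exact hF0 _ _
    · exact le_rfl
  have hP0 : ∀ s, 0 ≤ P s := fun s => mul_nonneg (hpl i F hF0 _) (big_tendsto h j G hG0 hG _).2.1
  have hQ0 : ∀ s, 0 ≤ Q s := fun s => mul_nonneg (hpl j G hG0 _) (big_tendsto h i F hF0 hF _).2.1
  set A : ℕ → ℝ := fun K' => ∑ s ∈ Finset.range ((2 * K' + i) / 2 + 1), P s with hA
  set B : ℕ → ℝ := fun K' => ∑ s ∈ Finset.range ((2 * K' + j) / 2 + 1), Q s with hB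
  set S : ι → ℝ := fun k =>
    Spr F G (2 * n k + 2 - i - j - 2 * c) (v k + 1 - c) / bc (n k) (v k) with hS
  have hω := h.ω0
  -- the limits of the small parts
  have hAl : ∀ K', Tendsto (fun k => Apart F G (2 * n k + 2 - i - j - 2 * c) (v k + 1 - c)
      (2 * K') / bc (n k) (v k)) U (𝓝 (A K')) := fun K' =>
    apart_lim h i j F G hF0 hF hG0 hG c (2 * K')
  have hBl : ∀ K', Tendsto (fun k => Apart G F (2 * n k + 2 - i - j - 2 * c) (v k + 1 - c)
      (2 * K') / bc (n k) (v k)) U (𝓝 (B K')) := by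
    intro K'
    have h1 := apart_lim h j i G F hG0 hG hF0 hF c (2 * K')
    refine h1.congr fun k => ?_
    have e1 : 2 * n k + 2 - j - i - 2 * c = 2 * n k + 2 - i - j - 2 * c := by omega
    rw [e1]
  -- lower and upper bounds
  have hlow : ∀ K', ∀ᶠ k in (U : Filter ι),
      Apart F G (2 * n k + 2 - i - j - 2 * c) (v k + 1 - c) (2 * K') / bc (n k) (v k) +
      Apart G F (2 * n k + 2 - i - j - 2 * c) (v k + 1 - c) (2 * K') / bc (n k) (v k) ≤ S k := by
    intro K'
    filter_upwards [sq_pos h (c + i + j + 4 * K')] with k hk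
    have hpos := hk.2.2.2.2.1
    simp only [hS]
    rw [← add_div]
    refine div_le_div_of_nonneg_right ?_ hpos.le
    rw [spr_split F G _ _ (2 * K') (by omega)]
    have h1 : 0 ≤ ∑ t ∈ (Finset.range (2 * n k + 2 - i - j - 2 * c + 1)).filter
        (fun t => 2 * K' < t ∧ 2 * K' < 2 * n k + 2 - i - j - 2 * c - t),
        ∑ w ∈ Finset.range (v k + 1 - c + 1),
          F t w * G (2 * n k + 2 - i - j - 2 * c - t) (v k + 1 - c - w) :=
      Finset.sum_nonneg fun t _ => Finset.sum_nonneg fun w _ => mul_nonneg (hF0 _ _) (hG0 _ _)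
    linarith
  have hup : ∀ K', 1 ≤ K' → ∀ᶠ k in (U : Filter ι), S k ≤
      Apart F G (2 * n k + 2 - i - j - 2 * c) (v k + 1 - c) (2 * K') / bc (n k) (v k) +
      Apart G F (2 * n k + 2 - i - j - 2 * c) (v k + 1 - c) (2 * K') / bc (n k) (v k) +
      16 / (3 * ω) / K' := by
    intro K' hK'
    have hNbig : ∀ᶠ k in (U : Filter ι), 4 * (c : ℝ) / ω + 2 ≤ n k := by
      have h1 := h.ntop.eventually_ge_atTop (Nat.ceil (4 * (c : ℝ) / ω + 2))
      filter_upwards [h1] with k hk
      exact (Nat.le_ceil _).trans (by exact_mod_cast hk)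
    filter_upwards [sq_pos h (c + i + j + 4 * K'), sq_quot h c, hNbig] with k hk hq hNb
    have hpos := hk.2.2.2.2.1
    have hVge := hk.2.2.2.1
    simp only [hS]
    rw [spr_split F G _ _ (2 * K') (by omega), add_div, add_div]
    refine add_le_add le_rfl ?_
    have hr := rest_le i j F G hF0 hF hG0 hG c K' (n k) (v k) hK' (by omega) (by omega)
    set R := ∑ t ∈ (Finset.range (2 * n k + 2 - i - j - 2 * c + 1)).filter
        (fun t => 2 * K' < t ∧ 2 * K' < 2 * n k + 2 - i - j - 2 * c - t),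
        ∑ w ∈ Finset.range (v k + 1 - c + 1),
          F t w * G (2 * n k + 2 - i - j - 2 * c - t) (v k + 1 - c - w) with hR
    have hR0 : 0 ≤ R :=
      Finset.sum_nonneg fun t _ => Finset.sum_nonneg fun w _ => mul_nonneg (hF0 _ _) (hG0 _ _)
    have hq2 : bc (n k - c) (v k - c) ≤ bc (n k) (v k) := by
      have h1 := hq.2
      have h2 : (1 / 2 : ℝ) ^ c ≤ 1 := pow_le_one₀ (by norm_num) (by norm_num)
      have h3 := h1.trans h2
      rwa [div_le_one hpos] at h3
    have hc1 : ((v k - c : ℕ) : ℝ) = (v k : ℝ) - c := by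
      rw [Nat.cast_sub (by omega)]
    have hc2 : ((n k - c : ℕ) : ℝ) ≤ (n k : ℝ) := by
      exact_mod_cast Nat.sub_le _ _
    have hK0 : (1 : ℝ) ≤ K' := by exact_mod_cast hK'
    have hn2 : (2 : ℝ) ≤ n k := by
      have : 0 ≤ 4 * (c : ℝ) / ω := by positivity
      linarith
    have hcN : 4 * (c : ℝ) ≤ ω * n k := by
      have h1 : 4 * (c : ℝ) / ω ≤ n k := by linarith
      rw [div_le_iff₀ hω] at h1
      linarith
    -- `V - c + 1 ≥ ω N / 4`
    have hVc : ω / 4 * n k ≤ ((v k - c : ℕ) : ℝ) + 1 := by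
      rw [hc1]
      linarith
    have hb0 := bc_nonneg (n k - c) (v k - c)
    have h5 : 3 * (K' : ℝ) * (ω / 4 * n k) * R ≤ 4 * n k * bc (n k) (v k) := by
      calc 3 * (K' : ℝ) * (ω / 4 * n k) * R
          ≤ 3 * (K' : ℝ) * (((v k - c : ℕ) : ℝ) + 1) * R :=
            mul_le_mul_of_nonneg_right (mul_le_mul_of_nonneg_left hVc (by positivity)) hR0
        _ ≤ (3 * ((n k - c : ℕ) : ℝ) + 2) * bc (n k - c) (v k - c) := hr
        _ ≤ 4 * n k * bc (n k) (v k) :=
            mul_le_mul (by linarith) hq2 hb0 (by positivity)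
    have h6 : R ≤ 16 / (3 * ω) / K' * bc (n k) (v k) := by
      have hnk : (0 : ℝ) < n k := by linarith
      have hKp : (0 : ℝ) < K' := by linarith
      have h7 : 3 * (K' : ℝ) * ω * R ≤ 16 * bc (n k) (v k) := by
        have h8 : (3 * (K' : ℝ) * ω * R) * n k ≤ (16 * bc (n k) (v k)) * n k := by
          nlinarith [h5]
        exact le_of_mul_le_mul_right h8 hnk
      have h9 : 16 / (3 * ω) / K' * bc (n k) (v k) = 16 * bc (n k) (v k) / (3 * K' * ω) := by
        field_simp
      rw [h9, le_div_iff₀ (by positivity)]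
      linarith
    rw [div_le_iff₀ hpos]
    exact h6
  -- the limit exists
  have hSbd : ∀ᶠ k in (U : Filter ι), |S k| ≤ A 1 + B 1 + 16 / (3 * ω) / (1 : ℕ) + 1 := by
    have h1 := ((hAl 1).add (hBl 1)).eventually (gt_mem_nhds (lt_add_one (A 1 + B 1)))
    filter_upwards [hup 1 le_rfl, h1, sq_pos h 0] with k hk1 hk2 hk3
    have h4 : 0 ≤ S k := by
      simp only [hS]
      refine div_nonneg ?_ hk3.2.2.2.2.1.le
      unfold Spr
      exact Finset.sum_nonneg fun t _ => Finset.sum_nonneg fun w _ =>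
        mul_nonneg (hF0 _ _) (hG0 _ _)
    rw [abs_of_nonneg h4]
    linarith
  have hSl := ulim_tendsto hSbd
  set L := ulim U S with hL
  have hLlow : ∀ K', A K' + B K' ≤ L := fun K' =>
    le_of_tendsto_of_tendsto ((hAl K').add (hBl K')) hSl (hlow K')
  have hLup : ∀ K', 1 ≤ K' → L ≤ A K' + B K' + 16 / (3 * ω) / K' := fun K' hK' =>
    le_of_tendsto_of_tendsto hSl (((hAl K').add (hBl K')).add_const _) (hup K' hK')
  have hA0 : ∀ K', 0 ≤ A K' := fun K' => Finset.sum_nonneg fun s _ => hP0 s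
  have hB0 : ∀ K', 0 ≤ B K' := fun K' => Finset.sum_nonneg fun s _ => hQ0 s
  have hPs : Summable P := by
    refine summable_of_sum_range_le hP0 (c := L) fun N => ?_
    have h1 : ∑ s ∈ Finset.range N, P s ≤ A N := by
      refine Finset.sum_le_sum_of_subset_of_nonneg ?_ fun s _ _ => hP0 s
      intro s hs
      rw [Finset.mem_range] at hs ⊢
      omega
    have := hLlow N
    have := hB0 N
    linarith
  have hQs : Summable Q := by
    refine summable_of_sum_range_le hQ0 (c := L) fun N => ?_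
    have h1 : ∑ s ∈ Finset.range N, Q s ≤ B N := by
      refine Finset.sum_le_sum_of_subset_of_nonneg ?_ fun s _ _ => hQ0 s
      intro s hs
      rw [Finset.mem_range] at hs ⊢
      omega
    have := hLlow N
    have := hA0 N
    linarith
  have htop : ∀ i : ℕ, Tendsto (fun K' : ℕ => (2 * K' + i) / 2 + 1) atTop atTop := by
    intro i
    refine tendsto_atTop_mono (f := fun K' : ℕ => K') (fun K' => ?_) tendsto_id
    omega
  have hAt : Tendsto A atTop (𝓝 (∑' s, P s)) := hPs.hasSum.tendsto_sum_nat.comp (htop i)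
  have hBt : Tendsto B atTop (𝓝 (∑' s, Q s)) := hQs.hasSum.tendsto_sum_nat.comp (htop j)
  have hLeq : L = ∑' s, P s + ∑' s, Q s := by
    refine le_antisymm ?_ ?_
    · have h1 : Tendsto (fun K' : ℕ => A K' + B K' + 16 / (3 * ω) / (K' : ℝ)) atTop
          (𝓝 (∑' s, P s + ∑' s, Q s + 0)) :=
        (hAt.add hBt).add (tendsto_const_div_atTop_nhds_zero_nat _)
      rw [add_zero] at h1
      refine ge_of_tendsto h1 ?_
      filter_upwards [eventually_ge_atTop 1] with K' hK'
      exact hLup K' hK'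
    · exact le_of_tendsto (hAt.add hBt) (Eventually.of_forall hLlow)
  refine ⟨hPs, hQs, ?_⟩
  rw [← hLeq]
  exact hSl

end UN39
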