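import Mathlib
import Pool.Agent.H39.UN.Kk
import Pool.Agent.H39.UN.Ineq
import Pool.Agent.H39.UN.HKd
import Pool.Agent.H39.UN.HKp
import Pool.Agent.H39.UN.Ult
import Pool.Agent.H39.UN.Rat
import Pool.Agent.H39.UN.Plim

/-!
[H39 UN LIMX]  (MP_bcc40c_pr)  Limits `Xl p c` of `kc [p] (2n+2-p-2c) (v-c) / bc n v` and the limit of the Tutte equation.

PROOFS.  Xl_tendsto, Xl_nonneg, Xl_le: big_tendsto.  Xl_zero: kk_zero (`2n+2-2c ≥ 1` eventually).
Xl_23: kc [1] (2n+1-2c), kc [2] (2n-2c), kc [3] (2n-1-2c) are all `bc (n-c)` (definition of bb, bb_two, bb_three) eventually.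
Xl_one: `kc [1] (2n+1) v = bc n v`.
han (handles): for `i, j ≥ 1`, `i + j = p` (so the list is `[i, j]`, the polygon was `p + 2`): `kc [i, j] (2n - p - 2c) (v - c)/bc n v → 0`: by kc_le_one
(twice, with kk_perm) `≤ kc [1, 1] (2n - p - 2c + i - 1 + j - 1) = kc [1,1] (2 (n - c - 2) + 2) = (6 (n-c-2) + 4) bc (n-c-2) (v-c)`
(kk_one_one with `m = 2 (n-c-2) + 1`), then sq_small with `a = c + 2`, `g = 1`.  For `i = 0` or `j = 0` it is 0 (kk_zero, kk_perm).
Xl_rec: tutte with `k = p`, `c = []`, `m = 2n + 2 - (p+2) - 2c = 2n - p - 2c`: coefficient `v - c`, divided by `bc n v`: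
`kc [p+2] m = kc [p+3] (m-1) + ∑_{i ≤ p} (kc [i, p-i] m + Spr (kc [i]) (kc [p-i]) m (v-c))`; `m - 1 = 2n+2-(p+3)-2c`; plim with `i`, `j = p - i` and `c + 1` in the place of
`c` (`2n + 2 - i - j - 2(c+1) = m`, `v + 1 - (c+1) = v - c`); `pl i (kc [i]) s = zc i s`.  Sum over `i ≤ p`, symmetric, gives twice the first
series.  (Coefficients of a product of polynomials: `Polynomial.coeff_mul`; convert the antidiagonal sum into a sum over
`Finset.range (v+1)`: `Finset.Nat.sum_antidiagonal_eq_sum_range_succ_mk`.)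
Xl_sum: summability from plim.
-/

set_option autoImplicit false

namespace UN39

open Filter Topology

noncomputable def Xl {ι : Type} (U : Ultrafilter ι) (n v : ι → ℕ) (p c : ℕ) : ℝ :=
  big U n v p (fun m w => kc [p] m w) c

variable {ι : Type} {U : Ultrafilter ι} {n v : ι → ℕ} {ω : ℝ}

theorem Xl_tendsto (h : Sq U n v ω) (p c : ℕ) :
    Tendsto (fun i => kc [p] (2 * n i + 2 - p - 2 * c) (v i - c) / bc (n i) (v i)) U
      (𝓝 (Xl U n v p c)) := by
  exact (big_tendsto h p (fun m w => kc [p] m w) (fun m w => kc_nonneg _ _ _)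
    (fun m w => le_rfl) c).1

theorem Xl_nonneg (h : Sq U n v ω) (p c : ℕ) : 0 ≤ Xl U n v p c := by
  exact (big_tendsto h p (fun m w => kc [p] m w) (fun m w => kc_nonneg _ _ _)
    (fun m w => le_rfl) c).2.1

theorem Xl_le (h : Sq U n v ω) (p c : ℕ) : Xl U n v p c ≤ (1 / 2) ^ c := by
  exact (big_tendsto h p (fun m w => kc [p] m w) (fun m w => kc_nonneg _ _ _)
    (fun m w => le_rfl) c).2.2

theorem Xl_zero (h : Sq U n v ω) (c : ℕ) : Xl U n v 0 c = 0 := by
  refine tendsto_nhds_unique (Xl_tendsto h 0 c) ?_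
  refine tendsto_const_nhds.congr' ?_
  filter_upwards [sq_pos h c] with i hi
  obtain ⟨h2, h3, h4, -⟩ := hi
  unfold kc
  rw [kk_zero, if_neg (by omega), Polynomial.coeff_zero, zero_div]

theorem Xl_23 (h : Sq U n v ω) (c : ℕ) :
    Xl U n v 2 c = Xl U n v 1 c ∧ Xl U n v 3 c = Xl U n v 1 c ∧
    Tendsto (fun i => bc (n i - c) (v i - c) / bc (n i) (v i)) U (𝓝 (Xl U n v 1 c)) := by
  have e1 : ∀ᶠ i in (U : Filter ι), kc [1] (2 * n i + 2 - 1 - 2 * c) (v i - c) / bc (n i) (v i) =
      bc (n i - c) (v i - c) / bc (n i) (v i) := by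
    filter_upwards [sq_pos h c] with i hi
    obtain ⟨h2, h3, h4, -⟩ := hi
    congr 1
    unfold kc bc bb
    rw [show 2 * n i + 2 - 1 - 2 * c = 2 * (n i - c) + 1 by omega]
  have e2 : ∀ᶠ i in (U : Filter ι), kc [2] (2 * n i + 2 - 2 - 2 * c) (v i - c) / bc (n i) (v i) =
      bc (n i - c) (v i - c) / bc (n i) (v i) := by
    filter_upwards [sq_pos h c] with i hi
    obtain ⟨h2, h3, h4, -⟩ := hi
    congr 1
    unfold kc bc
    rw [show 2 * n i + 2 - 2 - 2 * c = 2 * (n i - c) by omega, bb_two]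
  have e3 : ∀ᶠ i in (U : Filter ι), kc [3] (2 * n i + 2 - 3 - 2 * c) (v i - c) / bc (n i) (v i) =
      bc (n i - c) (v i - c) / bc (n i) (v i) := by
    filter_upwards [sq_pos h c] with i hi
    obtain ⟨h2, h3, h4, -⟩ := hi
    congr 1
    unfold kc bc
    rw [show 2 * n i + 2 - 3 - 2 * c = 2 * (n i - c) - 1 by omega, bb_three _ (by omega)]
  have t1 := (Xl_tendsto h 1 c).congr' e1
  have t2 := (Xl_tendsto h 2 c).congr' e2
  have t3 := (Xl_tendsto h 3 c).congr' e3
  exact ⟨tendsto_nhds_unique t2 t1, tendsto_nhds_unique t3 t1, t1⟩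

theorem Xl_one (h : Sq U n v ω) : Xl U n v 1 0 = 1 := by
  refine tendsto_nhds_unique (Xl_23 h 0).2.2 ?_
  refine tendsto_const_nhds.congr' ?_
  filter_upwards [sq_pos h 0] with i hi
  obtain ⟨-, -, -, -, h5, -⟩ := hi
  rw [Nat.sub_zero, Nat.sub_zero, div_self h5.ne']

/-- the terms with a handle are negligible -/
theorem han (h : Sq U n v ω) (i j c : ℕ) :
    Tendsto (fun k => kc [i, j] (2 * n k - (i + j) - 2 * c) (v k - c) / bc (n k) (v k)) U (𝓝 0) := by
  rcases i with _ | i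
  · refine tendsto_const_nhds.congr' ?_
    filter_upwards with k
    unfold kc
    rw [kk_zero, if_neg (by simp), Polynomial.coeff_zero, zero_div]
  rcases j with _ | j
  · refine tendsto_const_nhds.congr' ?_
    filter_upwards with k
    unfold kc
    rw [kk_perm (List.Perm.swap 0 (i + 1) []), kk_zero, if_neg (by simp), Polynomial.coeff_zero,
      zero_div]
  have h1 := (sq_small h (c + 2) 1 le_rfl).const_mul 10
  rw [mul_zero] at h1
  refine tendsto_of_tendsto_of_tendsto_of_le_of_le' tendsto_const_nhds h1 ?_ ?_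
  · filter_upwards with k
    exact div_nonneg (kc_nonneg _ _ _) (bc_nonneg _ _)
  · filter_upwards [sq_pos h (c + 2 + i + j)] with k hk
    obtain ⟨h2, h3, h4, -, h5, -⟩ := hk
    have e1 := kc_le_one i [j + 1] (2 * n k - (i + 1 + (j + 1)) - 2 * c) (v k - c)
    have e2 := kc_le_one j [1] (2 * n k - (i + 1 + (j + 1)) - 2 * c + i) (v k - c)
    have e3 : kc [1, j + 1] (2 * n k - (i + 1 + (j + 1)) - 2 * c + i) (v k - c) =
        kc [j + 1, 1] (2 * n k - (i + 1 + (j + 1)) - 2 * c + i) (v k - c) := by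
      unfold kc
      rw [kk_perm (List.Perm.swap (j + 1) 1 [])]
    have e4 : kc [1, 1] (2 * n k - (i + 1 + (j + 1)) - 2 * c + i + j) (v k - c) =
        (6 * ((n k - (c + 2) : ℕ) : ℝ) + 4) * bc (n k - (c + 2)) (v k - (c + 2) + 2 * 1) := by
      unfold kc bc bb
      rw [show 2 * n k - (i + 1 + (j + 1)) - 2 * c + i + j = (2 * (n k - (c + 2)) + 1) + 1 by omega,
        kk_one_one _ (by omega), Polynomial.coeff_smul, smul_eq_mul,
        show v k - (c + 2) + 2 * 1 = v k - c by omega]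
      push_cast
      ring
    have e5 : kc [i + 1, j + 1] (2 * n k - (i + 1 + (j + 1)) - 2 * c) (v k - c) ≤
        (6 * ((n k - (c + 2) : ℕ) : ℝ) + 4) * bc (n k - (c + 2)) (v k - (c + 2) + 2 * 1) := by
      rw [← e4]
      exact e1.trans (e3.le.trans e2)
    have e6 : (6 * ((n k - (c + 2) : ℕ) : ℝ) + 4) ≤ 10 * n k := by
      have e7 : ((n k - (c + 2) : ℕ) : ℝ) ≤ n k := by exact_mod_cast Nat.sub_le _ _
      have e8 : (1 : ℝ) ≤ n k := by exact_mod_cast (by omega : 1 ≤ n k)
      linarith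
    have e7 := e5.trans (mul_le_mul_of_nonneg_right e6 (bc_nonneg _ _))
    have e8 := div_le_div_of_nonneg_right e7 h5.le
    refine e8.trans (le_of_eq ?_)
    ring

theorem coeff_Spr (f g : ℕ → Polynomial ℝ) (m w : ℕ) :
    ∑ j ∈ Finset.range (m + 1), (f j * g (m - j)).coeff w =
      Spr (fun t x => (f t).coeff x) (fun t x => (g t).coeff x) m w := by
  unfold Spr
  refine Finset.sum_congr rfl fun j _ => ?_
  rw [Polynomial.coeff_mul, Finset.Nat.sum_antidiagonal_eq_sum_range_succ_mk]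

theorem tutte_coeff (p m w : ℕ) (hm : m ≠ 0) :
    kc [p + 2] m w = kc [p + 3] (m - 1) w + ∑ i ∈ Finset.range (p + 1),
      (kc [i, p - i] m w + Spr (fun t x => kc [i] t x) (fun t x => kc [p - i] t x) m w) := by
  have h1 := congrArg (fun f => Polynomial.coeff f w) (tutte p [] m)
  simp only [Polynomial.coeff_add, if_neg hm, Polynomial.finsetSum_coeff, splits, picks,
    List.map_cons, List.map_nil, List.sum_cons, List.sum_nil, add_zero,
    Polynomial.coeff_zero] at h1
  unfold kc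
  rw [h1]
  congr 1
  refine Finset.sum_congr rfl fun i _ => ?_
  congr 1
  exact coeff_Spr (fun j => kk [i] j) (fun j => kk [p - i] j) m w

theorem Xl_sum (h : Sq U n v ω) (i j c : ℕ) :
    Summable (fun s => zc i (s + 1) * Xl U n v j (c + s)) := by
  exact (plim h i j (fun m w => kc [i] m w) (fun m w => kc [j] m w) (fun m w => kc_nonneg _ _ _)
    (fun m w => le_rfl) (fun m w => kc_nonneg _ _ _) (fun m w => le_rfl) c).1

theorem Xl_rec (h : Sq U n v ω) (p c : ℕ) : Xl U n v (p + 2) c = Xl U n v (p + 3) c +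
    2 * ∑ i ∈ Finset.range (p + 1), ∑' s, zc i (s + 1) * Xl U n v (p - i) (c + 1 + s) := by
  have hterm : ∀ i ∈ Finset.range (p + 1), Tendsto (fun k =>
      (kc [i, p - i] (2 * n k - p - 2 * c) (v k - c) +
        Spr (fun t x => kc [i] t x) (fun t x => kc [p - i] t x) (2 * n k - p - 2 * c) (v k - c)) /
        bc (n k) (v k)) U
      (𝓝 (∑' s, zc i (s + 1) * Xl U n v (p - i) (c + 1 + s) +
        ∑' s, zc (p - i) (s + 1) * Xl U n v i (c + 1 + s))) := by
    intro i hi
    have hip : i ≤ p := Nat.lt_succ_iff.1 (Finset.mem_range.1 hi)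
    have h1 := han h i (p - i) c
    have h2 := (plim h i (p - i) (fun m w => kc [i] m w) (fun m w => kc [p - i] m w)
      (fun m w => kc_nonneg _ _ _) (fun m w => le_rfl) (fun m w => kc_nonneg _ _ _)
      (fun m w => le_rfl) (c + 1)).2.2
    have h3 := h1.add h2
    rw [zero_add] at h3
    refine h3.congr' ?_
    filter_upwards with k
    rw [← add_div, show i + (p - i) = p by omega,
      show 2 * n k + 2 - i - (p - i) - 2 * (c + 1) = 2 * n k - p - 2 * c by omega,
      show v k + 1 - (c + 1) = v k - c by omega]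
  have hsum := tendsto_finset_sum _ hterm
  have hl := Xl_tendsto h (p + 3) c
  have hL := hl.add hsum
  have hlhs : Tendsto (fun i => kc [p + 3] (2 * n i + 2 - (p + 3) - 2 * c) (v i - c) / bc (n i) (v i) +
      ∑ j ∈ Finset.range (p + 1), (kc [j, p - j] (2 * n i - p - 2 * c) (v i - c) +
        Spr (fun t x => kc [j] t x) (fun t x => kc [p - j] t x) (2 * n i - p - 2 * c) (v i - c)) /
        bc (n i) (v i)) U (𝓝 (Xl U n v (p + 2) c)) := by
    refine (Xl_tendsto h (p + 2) c).congr' ?_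
    filter_upwards [sq_pos h (p + c + 3)] with i hi
    obtain ⟨h2, h3, h4, -, h5, -⟩ := hi
    rw [tutte_coeff p _ _ (by omega), add_div, Finset.sum_div,
      show 2 * n i + 2 - (p + 2) - 2 * c = 2 * n i - p - 2 * c by omega,
      show 2 * n i - p - 2 * c - 1 = 2 * n i + 2 - (p + 3) - 2 * c by omega]
  have heq := tendsto_nhds_unique hlhs hL
  rw [heq, Finset.sum_add_distrib]
  congr 1
  rw [two_mul]
  congr 1
  rw [← Finset.sum_range_reflect (fun i => ∑' s, zc i (s + 1) * Xl U n v (p - i) (c + 1 + s)) (p + 1)]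
  refine Finset.sum_congr rfl fun i hi => ?_
  have hip : i ≤ p := Nat.lt_succ_iff.1 (Finset.mem_range.1 hi)
  rw [show p + 1 - 1 - i = p - i by omega, show p - (p - i) = i by omega]

end UN39
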