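import Mathlib
import Pool.Agent.H39.HG.Defs
import Pool.Agent.H39.UN.Kk
import Pool.Agent.H39.UN.Ineq
import Pool.Agent.H39.UN.Ult
import Pool.Agent.H39.UN.Rat
import Pool.Agent.H39.UN.Plim
import Pool.Agent.H39.UN.LimX
import Pool.Agent.H39.UN.Fan
import Pool.Agent.H39.UN.Law

/-!
[H39 UN LAWB]  (MP_bcc40c_pr)  The averages of functions of the density of leaf triangles and the limits of their moments.

`Ea f v n φ` = average of `φ (lfc f α / (6n))` over `α ∈ TS f v` (and `φ 0` if there is no such `α`).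

PROOFS.  Ea_avg: linearity of finite sums; `0 ≤ lfc f α/(6n) ≤ 1` because `lfc f α ≤ card D = 6n` (for `n = 0`: division by 0 gives 0).
Ea_mom: eventually `bc n v > 0`, so `TS f v` is not empty (ts_card).  For `c = 0`: both sides are 1 (Xl_one).  For `c ≥ 1`: law_mom gives
`E[(L)_c]/(6n)^c = (∏_{j=1}^{c-1} (6(n-c) + 4j)/(6n)) * bc (n-c) (v-c)/bc n v → Xl 1 c` (Xl_23).  And `0 ≤ L^c - (L)_c ≤ c^2 L^(c-1) ≤ c^2 (6n)^(c-1)`, so
`E[L^c]/(6n)^c - E[(L)_c]/(6n)^c → 0`.
-/

set_option autoImplicit false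

namespace UN39

open Filter Topology Equiv HG39

open Classical in
noncomputable def Ea {D : Type} [Fintype D] [DecidableEq D] (f : Perm D) (v n : ℕ) (φ : ℝ → ℝ) : ℝ :=
  if (TS f v).ncard = 0 then φ 0 else
    (∑ α ∈ Finset.univ.filter (fun α => α ∈ TS f v), φ ((lfc f α : ℝ) / (6 * n))) /
      (TS f v).ncard

variable {ι : Type} {U : Ultrafilter ι} {n v : ι → ℕ} {ω : ℝ}

open Classical in
private theorem lb_card {D : Type} [Fintype D] [DecidableEq D] (f : Perm D) (v : ℕ) :
    (Finset.univ.filter (fun α => α ∈ TS f v)).card = (TS f v).ncard := by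
  rw [← Set.ncard_coe_finset]
  congr 1
  ext α
  simp

private theorem lb_lfc (n : ℕ) (f α : Perm (Fin (6 * n))) : (lfc f α : ℝ) ≤ 6 * n := by
  have h1 : lfc f α ≤ 6 * n := by
    unfold lfc
    calc Nat.card {w : Fin (6 * n) // Leaf f α w} ≤ Nat.card (Fin (6 * n)) :=
          Nat.card_le_card_of_injective Subtype.val Subtype.val_injective
      _ = 6 * n := by rw [Nat.card_eq_fintype_card, Fintype.card_fin]
  exact_mod_cast h1

private theorem lb_mem (n : ℕ) (f α : Perm (Fin (6 * n))) :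
    (lfc f α : ℝ) / (6 * n) ∈ Set.Icc (0 : ℝ) 1 := by
  refine ⟨by positivity, ?_⟩
  rcases Nat.eq_zero_or_pos n with h0 | h0
  · have e : (n : ℝ) = 0 := by exact_mod_cast h0
    rw [e, mul_zero, div_zero]
    exact zero_le_one
  · have h1 : (0 : ℝ) < 6 * n := by
      have : (0 : ℝ) < n := by exact_mod_cast h0
      linarith
    rw [div_le_one h1]
    exact lb_lfc n f α

theorem Ea_avg (f : ∀ i, Perm (Fin (6 * n i))) : Avg (fun i φ => Ea (f i) (v i) (n i) φ) := by
  classical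
  refine ⟨fun i φ ψ => ?_, fun i a φ => ?_, fun i φ ψ h => ?_, fun i => ?_⟩
  · unfold Ea
    split_ifs
    · rfl
    · rw [Finset.sum_add_distrib, add_div]
  · unfold Ea
    split_ifs
    · rfl
    · rw [← Finset.mul_sum, mul_div_assoc]
  · unfold Ea
    split_ifs
    · exact h 0 ⟨le_rfl, zero_le_one⟩
    · refine div_le_div_of_nonneg_right ?_ (Nat.cast_nonneg _)
      exact Finset.sum_le_sum fun α _ => h _ (lb_mem (n i) (f i) α)
  · unfold Ea
    split_ifs with h0
    · rfl
    · rw [Finset.sum_const, nsmul_eq_mul, mul_one, lb_card, div_self]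
      exact_mod_cast h0

private theorem lb_df (L c : ℕ) :
    (L : ℝ) ^ (c + 1) - (L.descFactorial (c + 1) : ℝ) ≤ ((c : ℝ) + 1) ^ 2 * (L : ℝ) ^ c := by
  induction c with
  | zero =>
    simp
  | succ c ih =>
    have h1 : (L.descFactorial (c + 1 + 1) : ℝ) =
        ((L - (c + 1) : ℕ) : ℝ) * (L.descFactorial (c + 1) : ℝ) := by
      rw [Nat.descFactorial_succ]
      push_cast
      ring
    have h2 : (L : ℝ) - ((c : ℝ) + 1) ≤ ((L - (c + 1) : ℕ) : ℝ) := by
      have : L ≤ L - (c + 1) + (c + 1) := by omega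
      have h3 : (L : ℝ) ≤ ((L - (c + 1) : ℕ) : ℝ) + ((c : ℝ) + 1) := by exact_mod_cast this
      linarith
    have h4 : (0 : ℝ) ≤ (L.descFactorial (c + 1) : ℝ) := Nat.cast_nonneg _
    have h5 : (L.descFactorial (c + 1) : ℝ) ≤ (L : ℝ) ^ (c + 1) := by
      exact_mod_cast Nat.descFactorial_le_pow L (c + 1)
    have h6 := mul_le_mul_of_nonneg_right h2 h4
    have h7 : (0 : ℝ) ≤ L := Nat.cast_nonneg _
    have h8 := mul_le_mul_of_nonneg_left ih h7
    have h9 : (0 : ℝ) ≤ (c : ℝ) := Nat.cast_nonneg _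
    have h10 : (0 : ℝ) ≤ (L : ℝ) ^ (c + 1) := pow_nonneg h7 _
    have h11 := mul_le_mul_of_nonneg_left h5 (by linarith : (0 : ℝ) ≤ (c : ℝ) + 1)
    rw [h1]
    push_cast
    have e1 : (L : ℝ) ^ (c + 1 + 1) = L * (L : ℝ) ^ (c + 1) := by ring
    have e2 : (L : ℝ) * (((c : ℝ) + 1) ^ 2 * (L : ℝ) ^ c) = ((c : ℝ) + 1) ^ 2 * (L : ℝ) ^ (c + 1) := by
      ring
    rw [e1]
    rw [e2] at h8
    nlinarith

private theorem lb_prod (hn : Tendsto n U atTop) (c : ℕ) :
    Tendsto (fun i => ∏ j ∈ Finset.Icc 1 (c - 1), ((6 * ((n i : ℝ) - c) + 4 * j) / (6 * n i))) U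
      (𝓝 1) := by
  have h1 : ∀ j ∈ Finset.Icc 1 (c - 1), Tendsto (fun i => (6 * ((n i : ℝ) - c) + 4 * j) /
      (6 * n i)) U (𝓝 1) := by
    intro j _
    have hnr : Tendsto (fun i => 6 * (n i : ℝ)) U atTop :=
      (tendsto_natCast_atTop_atTop.comp hn).const_mul_atTop (by norm_num)
    have h2 : Tendsto (fun i => (4 * (j : ℝ) - 6 * c) / (6 * (n i : ℝ))) U (𝓝 0) :=
      tendsto_const_nhds.div_atTop hnr
    have h3 := h2.const_add 1
    rw [add_zero] at h3
    refine h3.congr' ?_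
    filter_upwards [hn.eventually_ge_atTop 1] with i hi
    have : (0 : ℝ) < n i := by exact_mod_cast hi
    field_simp
    ring
  have h2 := tendsto_finsetProd (Finset.Icc 1 (c - 1)) h1
  rwa [Finset.prod_const_one] at h2

theorem Ea_mom (h : Sq U n v ω) (f : ∀ i, Perm (Fin (6 * n i))) (hf : ∀ i, TF (f i)) (c : ℕ) :
    el U (fun i φ => Ea (f i) (v i) (n i) φ) (fun x => x ^ c) = Xl U n v 1 c := by
  classical
  rcases c with _ | c
  · rw [Xl_one h]
    have h1 : (fun x : ℝ => x ^ 0) = fun _ => 1 := by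
      funext x
      rw [pow_zero]
    rw [h1, el_const (Ea_avg f)]
  · refine ulim_eq ?_
    have hnr : Tendsto (fun i => 6 * (n i : ℝ)) U atTop :=
      (tendsto_natCast_atTop_atTop.comp h.ntop).const_mul_atTop (by norm_num)
    have hx := (Xl_23 h (c + 1)).2.2
    have hp := lb_prod (U := U) h.ntop (c + 1)
    have h1 := hp.mul hx
    rw [one_mul] at h1
    have h2 : Tendsto (fun i => (((c : ℝ) + 1) ^ 2) / (6 * (n i : ℝ))) U (𝓝 0) :=
      tendsto_const_nhds.div_atTop hnr
    have h3 := h1.add h2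
    rw [add_zero] at h3
    -- the two bounds
    have hkey : ∀ᶠ i in (U : Filter ι),
        (∏ j ∈ Finset.Icc 1 (c + 1 - 1), ((6 * ((n i : ℝ) - ((c + 1 : ℕ) : ℝ)) + 4 * j) / (6 * n i))) *
          (bc (n i - (c + 1)) (v i - (c + 1)) / bc (n i) (v i)) ≤
          Ea (f i) (v i) (n i) (fun x => x ^ (c + 1)) ∧
        Ea (f i) (v i) (n i) (fun x => x ^ (c + 1)) ≤
        (∏ j ∈ Finset.Icc 1 (c + 1 - 1), ((6 * ((n i : ℝ) - ((c + 1 : ℕ) : ℝ)) + 4 * j) / (6 * n i))) *
          (bc (n i - (c + 1)) (v i - (c + 1)) / bc (n i) (v i)) +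
          (((c : ℝ) + 1) ^ 2) / (6 * (n i : ℝ)) := by
      filter_upwards [sq_pos h (c + 1)] with i hi
      obtain ⟨k1, k2, k3, -, k5, -⟩ := hi
      have hn0 : (0 : ℝ) < n i := by
        have : 0 < n i := by omega
        exact_mod_cast this
      have h6 : (0 : ℝ) < 6 * n i := by linarith
      have hcard : Fintype.card (Fin (6 * n i)) = 6 * n i := Fintype.card_fin _
      have hts := ts_card (hf i) hcard (by omega) (v i)
      have hN : 0 < ((TS (f i) (v i)).ncard : ℝ) := by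
        have e1 : 0 < ((2 * n i).factorial : ℝ) * 3 ^ (2 * n i) * bc (n i) (v i) := by positivity
        rw [← hts] at e1
        exact (pos_iff_pos_of_mul_pos e1).2 h6
      have hN0 : (TS (f i) (v i)).ncard ≠ 0 := by
        intro e
        rw [e, Nat.cast_zero] at hN
        exact lt_irrefl _ hN
      have hlaw := law_mom (hf i) hcard (by omega) (v i) (c + 1) (by omega) (by omega) (by omega)
      obtain ⟨S, hS⟩ : ∃ S : ℝ, S = ∑ α ∈ Finset.univ.filter (fun α => α ∈ TS (f i) (v i)),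
        ((lfc (f i) α).descFactorial (c + 1) : ℝ) := ⟨_, rfl⟩
      rw [← hS] at hlaw
      obtain ⟨T, hT⟩ : ∃ T : ℝ, T = ∑ α ∈ Finset.univ.filter (fun α => α ∈ TS (f i) (v i)),
        (lfc (f i) α : ℝ) ^ (c + 1) := ⟨_, rfl⟩
      have hEa : Ea (f i) (v i) (n i) (fun x => x ^ (c + 1)) =
          T / (6 * n i) ^ (c + 1) / (TS (f i) (v i)).ncard := by
        unfold Ea
        rw [if_neg hN0, hT]
        congr 1
        rw [Finset.sum_div]
        refine Finset.sum_congr rfl fun α _ => ?_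
        exact div_pow _ _ _
      have hP : (∏ j ∈ Finset.Icc 1 (c + 1 - 1), ((6 * ((n i : ℝ) - ((c + 1 : ℕ) : ℝ)) + 4 * j) / (6 * n i))) *
          (bc (n i - (c + 1)) (v i - (c + 1)) / bc (n i) (v i)) =
          S / (6 * n i) ^ (c + 1) / (TS (f i) (v i)).ncard := by
        rw [Finset.prod_div_distrib, Finset.prod_const, Nat.card_Icc,
          show c + 1 - 1 + 1 - 1 = c by omega]
        have e2 : S = ((TS (f i) (v i)).ncard : ℝ) * (6 * n i *
            ∏ j ∈ Finset.Icc 1 (c + 1 - 1), (6 * ((n i : ℝ) - ((c + 1 : ℕ) : ℝ)) + 4 * j)) *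
            bc (n i - (c + 1)) (v i - (c + 1)) / bc (n i) (v i) := by
          rw [eq_div_iff k5.ne']
          exact hlaw
        rw [e2, pow_succ (6 * (n i : ℝ)) c]
        field_simp
      rw [hEa, hP]
      have hST : S ≤ T := by
        rw [hS, hT]
        refine Finset.sum_le_sum fun α _ => ?_
        exact_mod_cast Nat.descFactorial_le_pow (lfc (f i) α) (c + 1)
      have hTS : T ≤ S + (TS (f i) (v i)).ncard * (((c : ℝ) + 1) ^ 2 * (6 * n i) ^ c) := by
        rw [hS, hT, ← lb_card, ← nsmul_eq_mul, ← Finset.sum_const, ← Finset.sum_add_distrib]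
        refine Finset.sum_le_sum fun α _ => ?_
        have e3 := lb_df (lfc (f i) α) c
        have e4 : ((lfc (f i) α : ℝ)) ^ c ≤ (6 * n i) ^ c :=
          pow_le_pow_left₀ (Nat.cast_nonneg _) (lb_lfc (n i) (f i) α) c
        have e5 : ((c : ℝ) + 1) ^ 2 * (lfc (f i) α : ℝ) ^ c ≤ ((c : ℝ) + 1) ^ 2 * (6 * n i) ^ c :=
          mul_le_mul_of_nonneg_left e4 (by positivity)
        linarith
      constructor
      · exact div_le_div_of_nonneg_right (div_le_div_of_nonneg_right hST (by positivity)) hN.le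
      · have e6 : T / (6 * n i) ^ (c + 1) / (TS (f i) (v i)).ncard ≤
            (S + (TS (f i) (v i)).ncard * (((c : ℝ) + 1) ^ 2 * (6 * n i) ^ c)) /
              (6 * n i) ^ (c + 1) / (TS (f i) (v i)).ncard :=
          div_le_div_of_nonneg_right (div_le_div_of_nonneg_right hTS (by positivity)) hN.le
        refine e6.trans (le_of_eq ?_)
        rw [pow_succ (6 * (n i : ℝ)) c]
        field_simp
    exact tendsto_of_tendsto_of_tendsto_of_le_of_le' h1 h3 (hkey.mono fun i hi => hi.1)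
      (hkey.mono fun i hi => hi.2)

end UN39
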