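import Mathlib
import Pool.Agent.H39.UN.Ult
import Pool.Agent.H39.UN.Fan

/-!
[H39 UN FANB]  (MP_bcc40c_pr)  The limit functional and power series; concentration.  Mathlib only (and ULT, FAN).

PROOFS.  el_series: `φ (clp r x)` is continuous on `ℝ` (`clp r` is continuous with values in `[0, r]`), so `el (x^c φ(clp x)) = el ((clp x)^c φ (clp x))` by
el_clip (`clp (clp x) = clp x`).  The partial sums `∑_{s<N} a s (clp x)^s` converge uniformly on `[0,1]`, the error is at most `∑_{s ≥ N} a s r^s`, and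
`|el ψ| ≤ sup |ψ|` (el_tendsto).
el_conc: let `g` be continuous on `[0, r]` and `el (x^c g (clp r x)) = 0` for all `c`.  Weierstrass: for `η > 0` a polynomial `P` with
`|P x - g (clp r x)| ≤ η` on `[0,1]` (`exists_polynomial_near_of_continuousOn` or similar).  `el (P g∘clp) = 0` by linearity, so
`el ((g∘clp)^2) ≤ el (|g∘clp| η) ≤ η B`.  So `el ((g∘clp)^2) = 0`; `ε^2 1[ε < |g∘clp|] ≤ (g∘clp)^2` gives the claim (`E i` of the indicator is between 0 and
`E i ((g∘clp)^2)/ε^2`, which tends to `el ((g∘clp)^2)/ε^2 = 0`).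
-/

set_option autoImplicit false

namespace UN39

open Filter Topology

variable {ι : Type} {U : Ultrafilter ι} {E : ι → (ℝ → ℝ) → ℝ}

private theorem el_sum (hE : Avg E) {α : Type} (F : Finset α) (φ : α → ℝ → ℝ) (B : α → ℝ)
    (h : ∀ s ∈ F, ∀ x ∈ Set.Icc (0 : ℝ) 1, |φ s x| ≤ B s) :
    el U E (fun x => ∑ s ∈ F, φ s x) = ∑ s ∈ F, el U E (φ s) := by
  classical
  induction F using Finset.induction_on with
  | empty => simpa using el_const (U := U) hE 0
  | insert a F ha ih =>
    have h1 : ∀ s ∈ F, ∀ x ∈ Set.Icc (0 : ℝ) 1, |φ s x| ≤ B s := fun s hs =>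
      h s (Finset.mem_insert_of_mem hs)
    have h2 : ∀ x ∈ Set.Icc (0 : ℝ) 1, |∑ s ∈ F, φ s x| ≤ ∑ s ∈ F, B s := fun x hx =>
      (Finset.abs_sum_le_sum_abs _ _).trans (Finset.sum_le_sum fun s hs => h1 s hs x hx)
    have h3 := h a (Finset.mem_insert_self a F)
    rw [Finset.sum_insert ha, ← ih h1]
    simp_rw [Finset.sum_insert ha]
    exact el_add (B := max (B a) (∑ s ∈ F, B s)) hE
      (fun x hx => (h3 x hx).trans (le_max_left _ _))
      (fun x hx => (h2 x hx).trans (le_max_right _ _))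

theorem el_series (hE : Avg E) {r : ℝ} (hr : 0 < r) (hr1 : r ≤ 1)
    (hg : ∀ t, r < t → ∀ δ > 0, ∃ c : ℕ, el U E (fun x => x ^ c) ≤ δ * t ^ c)
    {φ : ℝ → ℝ} (hφ : ContinuousOn φ (Set.Icc 0 r)) {a : ℕ → ℝ} (ha : ∀ s, 0 ≤ a s)
    (hs : Summable fun s => a s * r ^ s) (c : ℕ) :
    HasSum (fun s => a s * el U E (fun x => x ^ (c + s) * φ (clp r x)))
      (el U E (fun x => x ^ c * (φ (clp r x) * ∑' s, a s * clp r x ^ s))) := by
  have hmem : ∀ x, clp r x ∈ Set.Icc 0 r := clp_mem hr.le
  have hidem : ∀ x, clp r (clp r x) = clp r x := fun x => clp_of_mem (hmem x)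
  have hφc : Continuous fun x => φ (clp r x) := hφ.comp_continuous (clp_continuous r) hmem
  obtain ⟨B0, hB0⟩ := isCompact_Icc.exists_bound_of_continuousOn hφ
  set B := max B0 0 with hB
  have hB00 : 0 ≤ B := le_max_right _ _
  have hbd : ∀ x, |φ (clp r x)| ≤ B := fun x => (hB0 _ (hmem x)).trans (le_max_left _ _)
  have hle : ∀ s x, a s * clp r x ^ s ≤ a s * r ^ s := fun s x =>
    mul_le_mul_of_nonneg_left (pow_le_pow_left₀ (hmem x).1 (hmem x).2 s) (ha s)
  have hnn : ∀ s x, 0 ≤ a s * clp r x ^ s := fun s x =>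
    mul_nonneg (ha s) (pow_nonneg (hmem x).1 s)
  have hsx : ∀ x, Summable fun s => a s * clp r x ^ s := fun x =>
    Summable.of_nonneg_of_le (fun s => hnn s x) (fun s => hle s x) hs
  have hSc : Continuous fun x => ∑' s, a s * clp r x ^ s := by
    refine continuous_tsum (fun s => ?_) hs fun s x => ?_
    · exact continuous_const.mul ((clp_continuous r).pow s)
    · rw [Real.norm_of_nonneg (hnn s x)]
      exact hle s x
  have h1 : ∀ s, el U E (fun x => x ^ (c + s) * φ (clp r x))
      = el U E (fun x => clp r x ^ (c + s) * φ (clp r x)) := by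
    intro s
    rw [el_clip hE hr hr1 hg (φ := fun x => x ^ (c + s) * φ (clp r x))
      ((continuous_pow _).mul hφc)]
    simp only [hidem]
  have h2 : el U E (fun x => x ^ c * (φ (clp r x) * ∑' s, a s * clp r x ^ s))
      = el U E (fun x => clp r x ^ c * (φ (clp r x) * ∑' s, a s * clp r x ^ s)) := by
    rw [el_clip hE hr hr1 hg (φ := fun x => x ^ c * (φ (clp r x) * ∑' s, a s * clp r x ^ s))
      ((continuous_pow _).mul (hφc.mul hSc))]
    simp only [hidem]
  simp_rw [h1]
  rw [h2]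
  set A := ∑' s, a s * r ^ s with hA
  have hA0 : 0 ≤ A := tsum_nonneg fun s => mul_nonneg (ha s) (pow_nonneg hr.le s)
  have hp1 : ∀ (n : ℕ) x, |clp r x ^ n| ≤ 1 := by
    intro n x
    rw [abs_of_nonneg (pow_nonneg (hmem x).1 n)]
    exact pow_le_one₀ (hmem x).1 ((hmem x).2.trans hr1)
  have hSle : ∀ x, ∑' s, a s * clp r x ^ s ≤ A := fun x =>
    (hsx x).tsum_le_tsum (fun s => hle s x) hs
  have hS0 : ∀ x, 0 ≤ ∑' s, a s * clp r x ^ s := fun x => tsum_nonneg fun s => hnn s x
  -- the error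
  have herr : ∀ F : Finset ℕ,
      |el U E (fun x => clp r x ^ c * (φ (clp r x) * ∑' s, a s * clp r x ^ s)) -
        ∑ s ∈ F, a s * el U E (fun x => clp r x ^ (c + s) * φ (clp r x))|
        ≤ B * (A - ∑ s ∈ F, a s * r ^ s) := by
    intro F
    have e1 : ∀ s, a s * el U E (fun x => clp r x ^ (c + s) * φ (clp r x))
        = el U E (fun x => a s * (clp r x ^ (c + s) * φ (clp r x))) := by
      intro s
      rw [el_smul hE (B := B)]
      intro x _
      rw [abs_mul]
      have := mul_le_mul (hp1 (c + s) x) (hbd x) (abs_nonneg _) zero_le_one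
      rwa [one_mul] at this
    have b1 : ∀ s ∈ F, ∀ x ∈ Set.Icc (0 : ℝ) 1,
        |a s * (clp r x ^ (c + s) * φ (clp r x))| ≤ a s * B := by
      intro s _ x _
      rw [abs_mul, abs_of_nonneg (ha s), abs_mul]
      refine mul_le_mul_of_nonneg_left ?_ (ha s)
      have := mul_le_mul (hp1 (c + s) x) (hbd x) (abs_nonneg _) zero_le_one
      rwa [one_mul] at this
    have e2 : ∑ s ∈ F, a s * el U E (fun x => clp r x ^ (c + s) * φ (clp r x))
        = el U E (fun x => ∑ s ∈ F, a s * (clp r x ^ (c + s) * φ (clp r x))) := by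
      rw [el_sum hE F _ _ b1]
      exact Finset.sum_congr rfl fun s _ => e1 s
    have b2 : ∀ x ∈ Set.Icc (0 : ℝ) 1,
        |∑ s ∈ F, a s * (clp r x ^ (c + s) * φ (clp r x))| ≤ ∑ s ∈ F, a s * B := fun x hx =>
      (Finset.abs_sum_le_sum_abs _ _).trans (Finset.sum_le_sum fun s hs => b1 s hs x hx)
    have b3 : ∀ x ∈ Set.Icc (0 : ℝ) 1,
        |clp r x ^ c * (φ (clp r x) * ∑' s, a s * clp r x ^ s)| ≤ B * A := by
      intro x _
      rw [abs_mul, abs_mul, abs_of_nonneg (hS0 x)]
      calc |clp r x ^ c| * (|φ (clp r x)| * ∑' s, a s * clp r x ^ s) ≤ 1 * (B * A) :=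
            mul_le_mul (hp1 c x) (mul_le_mul (hbd x) (hSle x) (hS0 x) hB00) (by
              have := hS0 x
              positivity) zero_le_one
        _ = B * A := one_mul _
    have e3 : el U E (fun x => clp r x ^ c * (φ (clp r x) * ∑' s, a s * clp r x ^ s)) -
        ∑ s ∈ F, a s * el U E (fun x => clp r x ^ (c + s) * φ (clp r x))
        = el U E (fun x => clp r x ^ c * (φ (clp r x) * ∑' s, a s * clp r x ^ s) +
          (-1) * ∑ s ∈ F, a s * (clp r x ^ (c + s) * φ (clp r x))) := by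
      rw [el_add hE (B := max (B * A) (∑ s ∈ F, a s * B))
        (fun x hx => (b3 x hx).trans (le_max_left _ _)) (fun x hx => by
          rw [abs_mul, abs_neg, abs_one, one_mul]
          exact (b2 x hx).trans (le_max_right _ _)), el_smul hE (-1) b2, e2]
      ring
    rw [e3]
    refine (el_tendsto hE (B := B * (A - ∑ s ∈ F, a s * r ^ s)) fun x _ => ?_).2
    have e4 : clp r x ^ c * (φ (clp r x) * ∑' s, a s * clp r x ^ s) +
          (-1) * ∑ s ∈ F, a s * (clp r x ^ (c + s) * φ (clp r x))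
        = clp r x ^ c * (φ (clp r x) * (∑' s, a s * clp r x ^ s - ∑ s ∈ F, a s * clp r x ^ s)) := by
      have e5 : ∑ s ∈ F, a s * (clp r x ^ (c + s) * φ (clp r x))
          = clp r x ^ c * (φ (clp r x) * ∑ s ∈ F, a s * clp r x ^ s) := by
        rw [Finset.mul_sum, Finset.mul_sum]
        refine Finset.sum_congr rfl fun s _ => ?_
        rw [pow_add]
        ring
      rw [e5]
      ring
    have d0 : 0 ≤ ∑' s, a s * clp r x ^ s - ∑ s ∈ F, a s * clp r x ^ s :=
      sub_nonneg.2 ((hsx x).sum_le_tsum F fun s _ => hnn s x)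
    have d1 : ∑' s, a s * clp r x ^ s - ∑ s ∈ F, a s * clp r x ^ s
        ≤ A - ∑ s ∈ F, a s * r ^ s := by
      have h4 := (hs.sub (hsx x)).sum_le_tsum F fun s _ => sub_nonneg.2 (hle s x)
      rw [hs.tsum_sub (hsx x), Finset.sum_sub_distrib] at h4
      linarith
    rw [e4, abs_mul, abs_mul, abs_of_nonneg d0]
    calc |clp r x ^ c| * (|φ (clp r x)| *
          (∑' s, a s * clp r x ^ s - ∑ s ∈ F, a s * clp r x ^ s))
        ≤ 1 * (B * (A - ∑ s ∈ F, a s * r ^ s)) :=
          mul_le_mul (hp1 c x) (mul_le_mul (hbd x) d1 d0 hB00) (by positivity) zero_le_one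
      _ = B * (A - ∑ s ∈ F, a s * r ^ s) := one_mul _
  have hlim : Tendsto (fun F : Finset ℕ => B * (A - ∑ s ∈ F, a s * r ^ s)) atTop (𝓝 0) := by
    have h5 := (hs.hasSum.const_sub A).const_mul B
    have h6 : B * (A - ∑' s, a s * r ^ s) = 0 := by rw [← hA, sub_self, mul_zero]
    rw [h6] at h5
    exact h5
  show Tendsto (fun F : Finset ℕ => ∑ s ∈ F, a s * el U E (fun x => clp r x ^ (c + s) *
    φ (clp r x))) atTop _
  rw [tendsto_iff_norm_sub_tendsto_zero]
  refine squeeze_zero (fun F => norm_nonneg _) (fun F => ?_) hlim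
  rw [Real.norm_eq_abs, abs_sub_comm]
  exact herr F

theorem el_conc (hE : Avg E) {r : ℝ} (hr : 0 < r) (hr1 : r ≤ 1) {g : ℝ → ℝ}
    (hg : ContinuousOn g (Set.Icc 0 r))
    (h0 : ∀ c : ℕ, el U E (fun x => x ^ c * g (clp r x)) = 0) {ε : ℝ} (hε : 0 < ε) :
    Tendsto (fun i => E i ({x : ℝ | ε < |g (clp r x)|}.indicator fun _ => 1)) U (𝓝 0) := by
  have hmem : ∀ x, clp r x ∈ Set.Icc 0 r := clp_mem hr.le
  have hGc : Continuous fun x => g (clp r x) := hg.comp_continuous (clp_continuous r) hmem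
  obtain ⟨B0, hB0⟩ := isCompact_Icc.exists_bound_of_continuousOn hg
  set B := max B0 0 with hB
  have hB00 : 0 ≤ B := le_max_right _ _
  have hbd : ∀ x, |g (clp r x)| ≤ B := fun x => (hB0 _ (hmem x)).trans (le_max_left _ _)
  have hpow : ∀ (c : ℕ), ∀ x ∈ Set.Icc (0 : ℝ) 1, |x ^ c| ≤ 1 := by
    intro c x hx
    rw [abs_of_nonneg (pow_nonneg hx.1 c)]
    exact pow_le_one₀ hx.1 hx.2
  have hpg : ∀ (c : ℕ), ∀ x ∈ Set.Icc (0 : ℝ) 1, |x ^ c * g (clp r x)| ≤ B := by
    intro c x hx
    rw [abs_mul]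
    have := mul_le_mul (hpow c x hx) (hbd x) (abs_nonneg _) zero_le_one
    rwa [one_mul] at this
  have hG2 : ∀ x ∈ Set.Icc (0 : ℝ) 1, |g (clp r x) * g (clp r x)| ≤ B * B := by
    intro x _
    rw [abs_mul]
    exact mul_le_mul (hbd x) (hbd x) (abs_nonneg _) hB00
  -- the second moment is small
  have hsmall : ∀ η > 0, el U E (fun x => g (clp r x) * g (clp r x)) ≤ η * B := by
    intro η hη
    obtain ⟨P, hP⟩ := exists_polynomial_near_of_continuousOn 0 1 (fun x => g (clp r x))
      hGc.continuousOn η hη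
    have e1 : el U E (fun x => P.eval x * g (clp r x)) = 0 := by
      have e2 : (fun x => P.eval x * g (clp r x)) =
          fun x => ∑ k ∈ Finset.range (P.natDegree + 1), P.coeff k * (x ^ k * g (clp r x)) := by
        funext x
        rw [Polynomial.eval_eq_sum_range, Finset.sum_mul]
        refine Finset.sum_congr rfl fun k _ => ?_
        ring
      rw [e2, el_sum hE _ _ (fun k => |P.coeff k| * B)]
      · refine Finset.sum_eq_zero fun k _ => ?_
        rw [el_smul hE _ (hpg k), h0, mul_zero]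
      · intro k _ x hx
        rw [abs_mul]
        exact mul_le_mul_of_nonneg_left (hpg k x hx) (abs_nonneg _)
    have b1 : ∀ x ∈ Set.Icc (0 : ℝ) 1,
        |(g (clp r x) - P.eval x) * g (clp r x)| ≤ η * B := by
      intro x hx
      rw [abs_mul, abs_sub_comm]
      exact mul_le_mul (hP x hx).le (hbd x) (abs_nonneg _) hη.le
    have b2 : ∀ x ∈ Set.Icc (0 : ℝ) 1, |P.eval x * g (clp r x)| ≤ (η + B) * B := by
      intro x hx
      rw [abs_mul]
      refine mul_le_mul ?_ (hbd x) (abs_nonneg _) (by positivity)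
      have h1 := (hP x hx).le
      have h2 := hbd x
      have h3 : P.eval x = (P.eval x - g (clp r x)) + g (clp r x) := by ring
      rw [h3]
      exact (abs_add_le _ _).trans (add_le_add h1 h2)
    have e3 : (fun x => g (clp r x) * g (clp r x)) =
        fun x => (g (clp r x) - P.eval x) * g (clp r x) + P.eval x * g (clp r x) := by
      funext x
      ring
    rw [e3, el_add hE (B := (η + B) * B) (fun x hx => (b1 x hx).trans (by nlinarith)) b2, e1,
      add_zero]
    exact (le_abs_self _).trans (el_tendsto hE b1).2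
  have hle0 : el U E (fun x => g (clp r x) * g (clp r x)) ≤ 0 := by
    refine le_of_forall_pos_le_add fun δ hδ => ?_
    have h1 := hsmall (δ / (B + 1)) (by positivity)
    have h2 : δ / (B + 1) * B ≤ δ := by
      rw [div_mul_eq_mul_div, div_le_iff₀ (by positivity)]
      nlinarith
    linarith
  have hT := (el_tendsto (U := U) hE hG2).1
  have hge0 : 0 ≤ el U E (fun x => g (clp r x) * g (clp r x)) := by
    have h1 := el_mono (U := U) hE (φ := fun _ => 0) (B := 0) (fun x _ => by simp) hG2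
      (fun x _ => mul_self_nonneg _)
    rwa [el_const hE] at h1
  have heq : el U E (fun x => g (clp r x) * g (clp r x)) = 0 := le_antisymm hle0 hge0
  rw [heq] at hT
  have hT2 := hT.const_mul (1 / ε ^ 2)
  rw [mul_zero] at hT2
  refine squeeze_zero (fun i => ?_) (fun i => ?_) hT2
  · have h1 := hE.mono i (fun _ => 0) ({x : ℝ | ε < |g (clp r x)|}.indicator fun _ => 1)
      (fun x _ => Set.indicator_nonneg (fun _ _ => zero_le_one) x)
    have h2 := hE.smul i 0 (fun _ => 1)
    simp only [zero_mul] at h2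
    rwa [h2] at h1
  · rw [← hE.smul]
    refine hE.mono i _ _ fun x _ => ?_
    by_cases hx : ε < |g (clp r x)|
    · rw [Set.indicator_of_mem (show x ∈ {x : ℝ | ε < |g (clp r x)|} from hx)]
      rw [one_div, ← div_eq_inv_mul, le_div_iff₀ (by positivity), one_mul, ← abs_mul_abs_self]
      nlinarith
    · rw [Set.indicator_of_notMem (show x ∉ {x : ℝ | ε < |g (clp r x)|} from hx)]
      have := mul_self_nonneg (g (clp r x))
      positivity

end UN39
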