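import Mathlib
import Pool.Agent.H39.UN.Kk
import Pool.Agent.H39.UN.Ineq
import Pool.Agent.H39.UN.HKd
import Pool.Agent.H39.UN.HKp
import Pool.Agent.H39.UN.Ult
import Pool.Agent.H39.UN.Rat
import Pool.Agent.H39.UN.Plim
import Pool.Agent.H39.UN.LimX

/-!
[H39 UN LIMY]  (MP_bcc40c_pr)  Limits `Yl k p c` of the numbers with a marked corner incident to `k` edges, their recursion.

PROOFS.  As in LIMX, with hk instead of kk: `0 ≤ (hk k [p] m).coeff w ≤ kc [p] m w` (hk_nonneg, hk_le).
Yl_rec: hk_two with `m = 2n - p - 2c`: the handle terms `hk k [p-i, i] m` are `≤ kc [p-i, i] m`, their ratio tends to 0 as in LIMX (use the same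
proof; you may state the handle lemma here again as a private lemma: for all `i, j`: `kc [i, j] (2n - (i+j) - 2c) (v-c) / bc n v → 0`).
Products: plim with `F = kc [i]`, `G = hk k [p-i]`: `pl i F = zc i`, `pl (p-i) G = hc k (p-i)`.
Yl_one: hk_one.  Yl_zero: hk_zero.  Yl_k0: hk_k0.
-/

set_option autoImplicit false

namespace UN39

open Filter Topology

noncomputable def Yl {ι : Type} (U : Ultrafilter ι) (n v : ι → ℕ) (k p c : ℕ) : ℝ :=
  big U n v p (fun m w => (hk k [p] m).coeff w) c

variable {ι : Type} {U : Ultrafilter ι} {n v : ι → ℕ} {ω : ℝ}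

theorem Yl_tendsto (h : Sq U n v ω) (k p c : ℕ) :
    Tendsto (fun i => (hk k [p] (2 * n i + 2 - p - 2 * c)).coeff (v i - c) / bc (n i) (v i)) U
      (𝓝 (Yl U n v k p c)) ∧ 0 ≤ Yl U n v k p c ∧ Yl U n v k p c ≤ (1 / 2) ^ c := by
  exact big_tendsto h p (fun m w => (hk k [p] m).coeff w) (fun m w => hk_nonneg _ _ _ _)
    (fun m w => hk_le _ _ _ _) c

theorem Yl_zero (h : Sq U n v ω) (k c : ℕ) : Yl U n v k 0 c = 0 := by
  refine tendsto_nhds_unique (Yl_tendsto h k 0 c).1 ?_
  refine tendsto_const_nhds.congr' ?_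
  filter_upwards [sq_pos h c] with i hi
  obtain ⟨h2, h3, h4, -⟩ := hi
  rw [hk_zero, if_neg (by omega), Polynomial.coeff_zero, zero_div]

theorem Yl_k0 (h : Sq U n v ω) (p c : ℕ) : Yl U n v 0 p c = 0 := by
  rcases p with _ | p
  · exact Yl_zero h 0 c
  · refine tendsto_nhds_unique (Yl_tendsto h 0 (p + 1) c).1 ?_
    refine tendsto_const_nhds.congr' ?_
    filter_upwards with i
    rw [hk_k0, Polynomial.coeff_zero, zero_div]

theorem Yl_one (h : Sq U n v ω) (k c : ℕ) : Yl U n v (k + 1) 1 c = Yl U n v k 2 c := by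
  refine tendsto_nhds_unique (Yl_tendsto h (k + 1) 1 c).1 ?_
  refine (Yl_tendsto h k 2 c).1.congr' ?_
  filter_upwards [sq_pos h c] with i hi
  obtain ⟨h2, h3, h4, -⟩ := hi
  rw [hk_one, if_neg (by omega), show 2 * n i + 2 - 1 - 2 * c - 1 = 2 * n i + 2 - 2 - 2 * c by omega]

theorem Yl_sum (h : Sq U n v ω) (i k j c : ℕ) :
    Summable (fun s => zc i (s + 1) * Yl U n v k j (c + s)) ∧
    Summable (fun s => hc k j (s + 1) * Xl U n v i (c + s)) := by
  have h1 := plim h i j (fun m w => kc [i] m w) (fun m w => (hk k [j] m).coeff w)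
    (fun m w => kc_nonneg _ _ _) (fun m w => le_rfl) (fun m w => hk_nonneg _ _ _ _)
    (fun m w => hk_le _ _ _ _) c
  exact ⟨h1.1, h1.2.1⟩

theorem Yl_rec (h : Sq U n v ω) (k p c : ℕ) :
    Yl U n v (k + 1) (p + 2) c = Yl U n v k (p + 3) c +
      ∑ i ∈ Finset.range (p + 1), (∑' s, zc i (s + 1) * Yl U n v k (p - i) (c + 1 + s) +
        ∑' s, hc k (p - i) (s + 1) * Xl U n v i (c + 1 + s)) := by
  have hterm : ∀ i ∈ Finset.range (p + 1), Tendsto (fun N =>
      ((hk k [p - i, i] (2 * n N - p - 2 * c)).coeff (v N - c) +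
        Spr (fun t x => kc [i] t x) (fun t x => (hk k [p - i] t).coeff x) (2 * n N - p - 2 * c)
          (v N - c)) / bc (n N) (v N)) U
      (𝓝 (∑' s, zc i (s + 1) * Yl U n v k (p - i) (c + 1 + s) +
        ∑' s, hc k (p - i) (s + 1) * Xl U n v i (c + 1 + s))) := by
    intro i hi
    have hip : i ≤ p := Nat.lt_succ_iff.1 (Finset.mem_range.1 hi)
    have h0 : Tendsto (fun N => (hk k [p - i, i] (2 * n N - p - 2 * c)).coeff (v N - c) /
        bc (n N) (v N)) U (𝓝 0) := by
      refine tendsto_of_tendsto_of_tendsto_of_le_of_le' tendsto_const_nhds (han h (p - i) i c) ?_ ?_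
      · filter_upwards with N
        exact div_nonneg (hk_nonneg _ _ _ _) (bc_nonneg _ _)
      · filter_upwards with N
        apply div_le_div_of_nonneg_right _ (bc_nonneg _ _)
        rw [show p - i + i = p by omega]
        exact hk_le _ _ _ _
    have h2 := (plim h i (p - i) (fun m w => kc [i] m w) (fun m w => (hk k [p - i] m).coeff w)
      (fun m w => kc_nonneg _ _ _) (fun m w => le_rfl) (fun m w => hk_nonneg _ _ _ _)
      (fun m w => hk_le _ _ _ _) (c + 1)).2.2
    have h3 := h0.add h2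
    rw [zero_add] at h3
    refine h3.congr' ?_
    filter_upwards with N
    rw [← add_div,
      show 2 * n N + 2 - i - (p - i) - 2 * (c + 1) = 2 * n N - p - 2 * c by omega,
      show v N + 1 - (c + 1) = v N - c by omega]
  have hsum := tendsto_finset_sum _ hterm
  have hL := (Yl_tendsto h k (p + 3) c).1.add hsum
  have hlhs : Tendsto (fun N => (hk k [p + 3] (2 * n N + 2 - (p + 3) - 2 * c)).coeff (v N - c) /
      bc (n N) (v N) +
      ∑ j ∈ Finset.range (p + 1), ((hk k [p - j, j] (2 * n N - p - 2 * c)).coeff (v N - c) +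
        Spr (fun t x => kc [j] t x) (fun t x => (hk k [p - j] t).coeff x) (2 * n N - p - 2 * c)
          (v N - c)) / bc (n N) (v N)) U (𝓝 (Yl U n v (k + 1) (p + 2) c)) := by
    refine (Yl_tendsto h (k + 1) (p + 2) c).1.congr' ?_
    filter_upwards [sq_pos h (p + c + 3)] with i hi
    obtain ⟨h2, h3, h4, -, h5, -⟩ := hi
    have hm : 2 * n i + 2 - (p + 2) - 2 * c ≠ 0 := by omega
    rw [hk_two, if_neg hm, Polynomial.coeff_add, Polynomial.finsetSum_coeff, add_div,
      Finset.sum_div,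
      show 2 * n i + 2 - (p + 2) - 2 * c = 2 * n i - p - 2 * c by omega,
      show 2 * n i - p - 2 * c - 1 = 2 * n i + 2 - (p + 3) - 2 * c by omega]
    congr 1
    refine Finset.sum_congr rfl fun j _ => ?_
    congr 1
    rw [Polynomial.coeff_add, Polynomial.finsetSum_coeff]
    congr 1
    exact coeff_Spr (fun t => kk [j] t) (fun t => hk k [p - j] t) _ _
  exact tendsto_nhds_unique hlhs hL

end UN39
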