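import Mathlib
import Pool.Agent.H39.HG.Defs
import Pool.Agent.H39.UN.Num
import Pool.Agent.H39.UN.Pol
import Pool.Agent.H39.UN.RedA

/-!
[H39 UN ESTA]  (MP_bcc40c_pr)  Number of edges at the starting vertex of a side: definition and basic facts.

Write `σ = polys c * α`.  The darts which start at the vertex of `a` are the `σ`-cycle of `a`; an edge is the pair `s(d, α d)`.

PROOFS.  est_perm: `polys c` is unchanged (polys_perm).  est_rot: rot_all.  est_pos: the set contains `s(a, α a)` and is finite.
sub_cycle (key): let `W` be a permutation with `W a = a`, `x ≠ a` and `σ = swap a x * W`.  Then for `d ≠ a`: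
`σ.SameCycle x d ↔ W.SameCycle x d`.  Proof: `σ a = swap a x (W a) = x`; for `d ≠ a`:
`W d ≠ a`, so `σ d = W d` unless `W d = x`, in which case `σ d = a` and `σ (σ d) = x = W d`.  Hence every `W`-step between darts
`≠ a` is one or two `σ`-steps; conversely remove `a` from a `σ`-path.  (Use `Equiv.Perm.SameCycle` with natural exponents on a finite
type: `Equiv.Perm.SameCycle.exists_pow_eq'`, and induction on the number of steps.)
loop_card: the number of edges is `#cycle - #(loop darts in the cycle)/2`: the map `d ↦ s(d, α d)` on the cycle is injective on the darts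
with `α d` not in the cycle and 2 to 1 on the others (`α d ≠ d`: all darts of the cycle are in `c.flatten`, because `σ` preserves `c.flatten`).
-/

set_option autoImplicit false

namespace UN39

open Equiv HG39

variable {D : Type} [Fintype D] [DecidableEq D]

/-- number of edges at the starting vertex of `a` -/
noncomputable def est (c : List (List D)) (α : Perm D) (a : D) : ℕ :=
  ((fun d => s(d, α d)) '' {d | (polys c * α).SameCycle a d}).ncard

theorem est_perm {c c' : List (List D)} (h : c.Perm c') (hn : c.flatten.Nodup) (α : Perm D)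
    (a : D) : est c α a = est c' α a := by
  unfold est
  rw [polys_perm h hn]

theorem est_rot {l1 l2 : List D} {c : List (List D)} (hn : (l1 ++ l2).Nodup) (α : Perm D) (a : D) :
    est ((l1 ++ l2) :: c) α a = est ((l2 ++ l1) :: c) α a := by
  unfold est
  rw [(rot_all (c := c) hn α).1]

theorem est_pos (c : List (List D)) (α : Perm D) (a : D) : 1 ≤ est c α a := by
  unfold est
  have h1 : ((fun d => s(d, α d)) '' {d | (polys c * α).SameCycle a d}).Nonempty :=
    ⟨_, a, Equiv.Perm.SameCycle.refl _ _, rfl⟩
  exact (Set.ncard_pos (Set.toFinite _)).2 h1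

theorem sub_cycle {W : Perm D} {a x : D} (h : W a = a) (hx : x ≠ a) {d : D} (hd : d ≠ a) :
    (swap a x * W).SameCycle x d ↔ W.SameCycle x d := by
  have hWa : ∀ e, e ≠ a → W e ≠ a := by
    intro e he h1
    apply he
    apply W.injective
    rw [h1, h]
  have hs : ∀ e, (swap a x * W) e = swap a x (W e) := fun e => rfl
  have hsa : (swap a x * W) a = x := by rw [hs, h, swap_apply_left]
  have key : ∀ e, e ≠ a → (swap a x * W).SameCycle e (W e) := by
    intro e he
    by_cases h1 : W e = x
    · have h2 : (swap a x * W) e = a := by rw [hs, h1, swap_apply_right]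
      refine ⟨2, ?_⟩
      have h3 : ((swap a x * W) ^ (2 : ℤ)) e = (swap a x * W) ((swap a x * W) e) := by
        rw [zpow_ofNat, pow_two]
        rfl
      rw [h3, h2, hsa, h1]
    · refine ⟨1, ?_⟩
      rw [zpow_one, hs, swap_apply_of_ne_of_ne (hWa e he) h1]
  constructor
  · intro h1
    obtain ⟨n, -, hn⟩ := h1.exists_pow_eq'
    have h2 : ∀ n : ℕ, ((swap a x * W) ^ n) x = a ∨ W.SameCycle x (((swap a x * W) ^ n) x) := by
      intro n
      induction n with
      | zero => exact Or.inr (Equiv.Perm.SameCycle.refl _ _)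
      | succ n ih =>
        have h3 : ((swap a x * W) ^ (n + 1)) x =
            (swap a x * W) (((swap a x * W) ^ n) x) := by
          rw [pow_succ']
          rfl
        rw [h3]
        rcases ih with ih | ih
        · rw [ih, hsa]
          exact Or.inr (Equiv.Perm.SameCycle.refl _ _)
        · obtain ⟨e, he⟩ : ∃ e, e = ((swap a x * W) ^ n) x := ⟨_, rfl⟩
          rw [← he] at ih ⊢
          by_cases h4 : e = a
          · rw [h4, hsa]
            exact Or.inr (Equiv.Perm.SameCycle.refl _ _)
          · by_cases h5 : W e = x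
            · left
              rw [hs, h5, swap_apply_right]
            · right
              rw [hs, swap_apply_of_ne_of_ne (hWa e h4) h5]
              exact Equiv.Perm.sameCycle_apply_right.2 ih
    rcases h2 n with h3 | h3
    · exact absurd (hn.symm.trans h3) hd
    · rwa [hn] at h3
  · intro h1
    obtain ⟨n, -, hn⟩ := h1.exists_pow_eq'
    have h2 : ∀ n : ℕ, (W ^ n) x ≠ a ∧ (swap a x * W).SameCycle x ((W ^ n) x) := by
      intro n
      induction n with
      | zero => exact ⟨hx, Equiv.Perm.SameCycle.refl _ _⟩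
      | succ n ih =>
        have h3 : (W ^ (n + 1)) x = W ((W ^ n) x) := by
          rw [pow_succ']
          rfl
        rw [h3]
        exact ⟨hWa _ ih.1, ih.2.trans (key _ ih.1)⟩
    rw [← hn]
    exact (h2 n).2

open Classical in
/-- edges and loops at a vertex -/
theorem loop_card {c : List (List D)} {α : Perm D} (h : Mt c α) {a : D} (ha : a ∈ c.flatten) :
    2 * est c α a + {d | (polys c * α).SameCycle a d ∧ (polys c * α).SameCycle a (α d)}.ncard =
      2 * {d | (polys c * α).SameCycle a d}.ncard := by
  obtain ⟨σ, hσ⟩ : ∃ σ, σ = polys c * α := ⟨_, rfl⟩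
  have hαf : ∀ d ∈ c.flatten, α d ∈ c.flatten := by
    intro d hd
    by_contra h1
    have h2 := h.2.2 _ h1
    rw [h.1] at h2
    exact h.2.1 d hd h2.symm
  have hσf : ∀ d ∈ c.flatten, σ d ∈ c.flatten := by
    intro d hd
    rw [hσ]
    exact polys_mem (hαf d hd)
  have hcf : ∀ d, σ.SameCycle a d → d ∈ c.flatten := by
    intro d hd
    obtain ⟨n, -, hn⟩ := hd.exists_pow_eq'
    have h2 : ∀ n : ℕ, (σ ^ n) a ∈ c.flatten := by
      intro n
      induction n with
      | zero => exact ha
      | succ n ih =>
        have h3 : (σ ^ (n + 1)) a = σ ((σ ^ n) a) := by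
          rw [pow_succ']
          rfl
        rw [h3]
        exact hσf _ ih
    rw [← hn]
    exact h2 n
  unfold est
  rw [← hσ]
  obtain ⟨C, hC⟩ : ∃ C : Finset D, C = Finset.univ.filter (fun d => σ.SameCycle a d) := ⟨_, rfl⟩
  have hmem : ∀ d, d ∈ C ↔ σ.SameCycle a d := by
    intro d
    rw [hC]
    simp
  have e1 : {d | σ.SameCycle a d} = (C : Set D) := by
    ext d
    exact (hmem d).symm
  have e2 : {d | σ.SameCycle a d ∧ σ.SameCycle a (α d)} =
      ((C.filter (fun d => α d ∈ C) : Finset D) : Set D) := by
    ext d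
    rw [Finset.mem_coe, Finset.mem_filter, hmem, hmem]
    rfl
  rw [e1, e2, ← Finset.coe_image, Set.ncard_coe_finset, Set.ncard_coe_finset,
    Set.ncard_coe_finset]
  have h1 : ∑ d ∈ C, (if α d ∈ C then 1 else 2) =
      ∑ e ∈ C.image (fun d => s(d, α d)), ∑ d ∈ C with s(d, α d) = e, (if α d ∈ C then 1 else 2) :=
    (Finset.sum_fiberwise_of_maps_to (fun d hd => Finset.mem_image_of_mem _ hd) _).symm
  have h2 : ∀ e ∈ C.image (fun d => s(d, α d)),
      ∑ d ∈ C with s(d, α d) = e, (if α d ∈ C then 1 else 2) = 2 := by
    intro e he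
    obtain ⟨d0, hd0, rfl⟩ := Finset.mem_image.1 he
    have hne : α d0 ≠ d0 := h.2.1 d0 (hcf d0 ((hmem d0).1 hd0))
    by_cases h3 : α d0 ∈ C
    · have h4 : C.filter (fun d => s(d, α d) = s(d0, α d0)) = {d0, α d0} := by
        ext d
        rw [Finset.mem_filter, Finset.mem_insert, Finset.mem_singleton, Sym2.eq_iff]
        constructor
        · rintro ⟨_, h5 | h5⟩
          · exact Or.inl h5.1
          · exact Or.inr h5.1
        · rintro (h5 | h5)
          · rw [h5]
            exact ⟨hd0, Or.inl ⟨rfl, rfl⟩⟩
          · rw [h5]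
            exact ⟨h3, Or.inr ⟨rfl, h.1 d0⟩⟩
      rw [h4, Finset.sum_pair hne.symm, h.1 d0, if_pos h3, if_pos hd0]
    · have h4 : C.filter (fun d => s(d, α d) = s(d0, α d0)) = {d0} := by
        ext d
        rw [Finset.mem_filter, Finset.mem_singleton, Sym2.eq_iff]
        constructor
        · rintro ⟨hd, h5 | h5⟩
          · exact h5.1
          · rw [h5.1] at hd
            exact absurd hd h3
        · intro h5
          rw [h5]
          exact ⟨hd0, Or.inl ⟨rfl, rfl⟩⟩
      rw [h4, Finset.sum_singleton, if_neg h3]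
  rw [Finset.sum_congr rfl h2, Finset.sum_const, smul_eq_mul] at h1
  have h3 : ∑ d ∈ C, (if α d ∈ C then 1 else 2) + (C.filter (fun d => α d ∈ C)).card =
      2 * C.card := by
    rw [Finset.card_filter, ← Finset.sum_add_distrib, mul_comm, ← smul_eq_mul, ← Finset.sum_const]
    refine Finset.sum_congr rfl fun d _ => ?_
    split_ifs <;> rfl
  have h4 : (C.image (fun d => s(d, α d))).card * 2 = 2 * (C.image (fun d => s(d, α d))).card :=
    mul_comm _ _
  rw [← h3, h1, h4]

end UN39
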