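import Mathlib
import Pool.Agent.H39.HG.Defs
import Pool.Agent.H39.UN.Num
import Pool.Agent.H39.UN.Pol
import Pool.Agent.H39.UN.RedA
import Pool.Agent.H39.UN.EstA

/-!
[H39 UN EST]  (MP_bcc40c_pr)  How the number of edges at the starting vertex changes when the first side is removed.

PROOFS.
est_A (c = (a :: (l1 ++ b :: l2)) :: cs, α a = b): with `β = swap a b * α`, `P = polys cs`:
`σ = (a :: (l1 ++ b :: l2)).formPerm * P * swap a b * β = (a :: l2).formPerm * ((b :: l1).formPerm * P * β)` (formPerm_cut, and `P`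
commutes with `swap a b`).  est_A0: if `l2 = []`: `σ a = (b :: l1).formPerm (P (β a)) = a`, so the cycle of `a` is `{a}`, one edge.
If `l2 = a' :: l2'`: `(a :: l2).formPerm = swap a a' * l2.formPerm`, so `σ = swap a a' * W`, `W = l2.formPerm * (b :: l1).formPerm * P * β`,
`W a = a`.  And `l2.formPerm`, `(b :: l1).formPerm` commute (disjoint lists), so `W = (b :: l1).formPerm * (l2.formPerm * P * β)`, which is
`swap b b' * σ'` for `l1 = b' :: l1'` and `σ'` for `l1 = []`, `σ' = polys c' * β`, `σ' b = b`.  By sub_cycle twice: the darts `d ≠ a, b`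
in the `σ`-cycle of `a` are exactly the darts `≠ b` in the `σ'`-cycle of `a'` (`b` itself is fixed by `σ'` and different from `a'`, so it is
not in that cycle; the case `l1 = []` is the same).  For `d ≠ a, b`: `β d = α d`.  So the set of edges of `(c, α)` at `a` is the set of edges of
`(c', β)` at `a'` plus the edge `s(a, b)`, which is not among them (they are pairs of darts `≠ a, b`).
(Attention: sub_cycle is about the cycle of `x` for `swap a x * W`; if the cycle in question does not contain `x` use that `swap a x * W` and `W` have the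
same values on the darts whose `W`-value is not `x`; or conjugate.  For the second step: the cycle of `a'` may or may not contain `b'`.)
est_B: the same with `σ = (a :: l).formPerm * (b :: m).formPerm * P * swap a b * β = (a :: (m ++ b :: l)).formPerm * P * β`, `m = m2 ++ m1`
(formPerm_join, rotation of the second polygon).  If `m = x :: m'`: `= swap a x * ((m ++ b :: l).formPerm * P * β)`, next remove `b` from
the polygon `m ++ b :: l` (rotate it to `b :: (l ++ m)`), `σ' = (l ++ m).formPerm * P * β`; the marked dart is `x`.  If `m = []`,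
`l = x :: l'`: `(a :: b :: x :: l').formPerm = swap a b * (b :: x :: l').formPerm = swap a b * swap b x * (x :: l').formPerm`: `σ a = b`,
`σ b = x`; the cycle of `a` is `a, b` and the `σ'`-cycle of `x`.  In both cases the marked dart is the head of `m ++ l`.  est_B0: the cycle is `{a, b}`,
one edge.
-/

set_option autoImplicit false

namespace UN39

open Equiv HG39

variable {D : Type} [Fintype D] [DecidableEq D]

theorem est_sub {W : Perm D} {b x e d : D} (h : W b = b) (hx : x ≠ b) (he : e ≠ b)
    (hd : d ≠ b) : (swap b x * W).SameCycle e d ↔ W.SameCycle e d := by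
  have hWa : ∀ e, e ≠ b → W e ≠ b := by
    intro e he h1
    apply he
    apply W.injective
    rw [h1, h]
  have hs : ∀ e, (swap b x * W) e = swap b x (W e) := fun e => rfl
  have hsa : (swap b x * W) b = x := by rw [hs, h, swap_apply_left]
  have key : ∀ e, e ≠ b → (swap b x * W).SameCycle e (W e) := by
    intro e he
    by_cases h1 : W e = x
    · have h2 : (swap b x * W) e = b := by rw [hs, h1, swap_apply_right]
      refine ⟨2, ?_⟩
      have h3 : ((swap b x * W) ^ (2 : ℤ)) e = (swap b x * W) ((swap b x * W) e) := by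
        rw [zpow_ofNat, pow_two]
        rfl
      rw [h3, h2, hsa, h1]
    · refine ⟨1, ?_⟩
      rw [zpow_one, hs, swap_apply_of_ne_of_ne (hWa e he) h1]
  constructor
  · intro h1
    obtain ⟨n, -, hn⟩ := h1.exists_pow_eq'
    have h2 : ∀ n : ℕ, (((swap b x * W) ^ n) e = b ∧ W.SameCycle e x) ∨
        W.SameCycle e (((swap b x * W) ^ n) e) := by
      intro n
      induction n with
      | zero => exact Or.inr (Equiv.Perm.SameCycle.refl _ _)
      | succ n ih =>
        have h3 : ((swap b x * W) ^ (n + 1)) e =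
            (swap b x * W) (((swap b x * W) ^ n) e) := by
          rw [pow_succ']
          rfl
        rw [h3]
        rcases ih with ih | ih
        · rw [ih.1, hsa]
          exact Or.inr ih.2
        · obtain ⟨f, hf⟩ : ∃ f, f = ((swap b x * W) ^ n) e := ⟨_, rfl⟩
          rw [← hf] at ih ⊢
          by_cases h4 : f = b
          · rw [h4] at ih
            exact absurd (ih.symm.eq_of_left h) he.symm
          · have h6 : W.SameCycle e (W f) := Equiv.Perm.sameCycle_apply_right.2 ih
            by_cases h5 : W f = x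
            · left
              rw [hs, h5, swap_apply_right]
              rw [h5] at h6
              exact ⟨rfl, h6⟩
            · right
              rw [hs, swap_apply_of_ne_of_ne (hWa f h4) h5]
              exact h6
    rcases h2 n with h3 | h3
    · exact absurd (hn.symm.trans h3.1) hd
    · rwa [hn] at h3
  · intro h1
    obtain ⟨n, -, hn⟩ := h1.exists_pow_eq'
    have h2 : ∀ n : ℕ, (W ^ n) e ≠ b ∧ (swap b x * W).SameCycle e ((W ^ n) e) := by
      intro n
      induction n with
      | zero => exact ⟨he, Equiv.Perm.SameCycle.refl _ _⟩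
      | succ n ih =>
        have h3 : (W ^ (n + 1)) e = W ((W ^ n) e) := by
          rw [pow_succ']
          rfl
        rw [h3]
        exact ⟨hWa _ ih.1, ih.2.trans (key _ ih.1)⟩
    rw [← hn]
    exact (h2 n).2

theorem est_cons {Z : Perm D} {b e d : D} {w : List D} (h : Z b = b) (hn : (b :: w).Nodup)
    (he : e ≠ b) (hd : d ≠ b) :
    ((b :: w).formPerm * Z).SameCycle e d ↔ (w.formPerm * Z).SameCycle e d := by
  cases w with
  | nil => simp
  | cons x w =>
    have hb : b ∉ x :: w := (List.nodup_cons.mp hn).1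
    rw [List.formPerm_cons_cons, mul_assoc]
    refine est_sub ?_ ?_ he hd
    · rw [Equiv.Perm.mul_apply, h, List.formPerm_apply_of_notMem hb]
    · intro hxb
      exact hb (hxb ▸ List.mem_cons_self)

theorem est_head {Z : Perm D} {a x d : D} {w : List D} (h : Z a = a)
    (hn : (a :: x :: w).Nodup) (hd : d ≠ a) :
    ((a :: x :: w).formPerm * Z).SameCycle a d ↔ ((x :: w).formPerm * Z).SameCycle x d := by
  have ha : a ∉ x :: w := (List.nodup_cons.mp hn).1
  have hxa : x ≠ a := fun h => ha (h ▸ List.mem_cons_self)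
  have hW : ((x :: w).formPerm * Z) a = a := by
    rw [Equiv.Perm.mul_apply, h, List.formPerm_apply_of_notMem ha]
  rw [List.formPerm_cons_cons, mul_assoc, ← est_sub hW hxa hxa hd]
  have h1 : (swap a x * ((x :: w).formPerm * Z)) a = x := by
    rw [Equiv.Perm.mul_apply, hW, swap_apply_left]
  have h2 : (swap a x * ((x :: w).formPerm * Z)).SameCycle
      ((swap a x * ((x :: w).formPerm * Z)) a) d ↔
      (swap a x * ((x :: w).formPerm * Z)).SameCycle a d := Equiv.Perm.sameCycle_apply_left
  rw [h1] at h2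
  exact h2.symm

theorem est_red {c c' : List (List D)} {α : Perm D} {a b a' : D} (hinv : ∀ d, α (α d) = d)
    (hab : α a = b) (h1 : (polys c' * (swap a b * α)) a = a)
    (h2 : (polys c' * (swap a b * α)) b = b) (ha' : a' ≠ a) (hb' : a' ≠ b)
    (hcyc : ∀ d, d ≠ a → d ≠ b →
      ((polys c * α).SameCycle a d ↔ (polys c' * (swap a b * α)).SameCycle a' d)) :
    est c α a = est c' (swap a b * α) a' + 1 := by
  have hba : α b = a := by rw [← hab, hinv]
  have hβ : ∀ d, d ≠ a → d ≠ b → (swap a b * α) d = α d := by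
    intro d hda hdb
    rw [Equiv.Perm.mul_apply, Equiv.swap_apply_of_ne_of_ne]
    · intro h
      exact hdb (α.injective (h.trans hba.symm))
    · intro h
      exact hda (α.injective (h.trans hab.symm))
  have hda : ∀ d, (polys c' * (swap a b * α)).SameCycle a' d → d ≠ a := by
    intro d hd h
    rw [h] at hd
    exact ha' (hd.symm.eq_of_left h1).symm
  have hdb : ∀ d, (polys c' * (swap a b * α)).SameCycle a' d → d ≠ b := by
    intro d hd h
    rw [h] at hd
    exact hb' (hd.symm.eq_of_left h2).symm
  unfold est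
  have e : (fun d => s(d, α d)) '' {d | (polys c * α).SameCycle a d} =
      insert s(a, b) ((fun d => s(d, (swap a b * α) d)) ''
        {d | (polys c' * (swap a b * α)).SameCycle a' d}) := by
    apply Set.Subset.antisymm
    · rintro _ ⟨d, hd, rfl⟩
      by_cases h3 : d = a
      · left
        simp only
        rw [h3, hab]
      · by_cases h4 : d = b
        · left
          simp only
          rw [h4, hba, Sym2.eq_swap]
        · right
          refine ⟨d, (hcyc d h3 h4).1 hd, ?_⟩
          simp only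
          rw [hβ d h3 h4]
    · rintro _ (rfl | ⟨d, hd, rfl⟩)
      · refine ⟨a, Equiv.Perm.SameCycle.refl _ _, ?_⟩
        simp only
        rw [hab]
      · have h3 := hda d hd
        have h4 := hdb d hd
        refine ⟨d, (hcyc d h3 h4).2 hd, ?_⟩
        simp only
        rw [hβ d h3 h4]
  rw [e]
  refine Set.ncard_insert_of_notMem ?_ (Set.toFinite _)
  rintro ⟨d, hd, h3⟩
  simp only [Sym2.eq_iff] at h3
  rcases h3 with h3 | h3
  · exact hda d hd h3.1
  · exact hdb d hd h3.1

theorem est_one {c : List (List D)} {α : Perm D} {a b : D} (hinv : ∀ d, α (α d) = d)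
    (hab : α a = b) (h : ∀ d, (polys c * α).SameCycle a d → d = a ∨ d = b) :
    est c α a = 1 := by
  have hba : α b = a := by rw [← hab, hinv]
  unfold est
  have e : (fun d => s(d, α d)) '' {d | (polys c * α).SameCycle a d} = {s(a, b)} := by
    apply Set.Subset.antisymm
    · rintro _ ⟨d, hd, rfl⟩
      rcases h d hd with h1 | h1
      · simp only
        rw [h1, hab]
        rfl
      · simp only
        rw [h1, hba, Sym2.eq_swap]
        rfl
    · rintro _ rfl
      refine ⟨a, Equiv.Perm.SameCycle.refl _ _, ?_⟩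
      simp only
      rw [hab]
  rw [e, Set.ncard_singleton]

theorem est_eqA {a b : D} {l1 l2 : List D} {cs : List (List D)} {α : Perm D}
    (hn : ((a :: (l1 ++ b :: l2)) :: cs).flatten.Nodup)
    (h : Mt ((a :: (l1 ++ b :: l2)) :: cs) α) (hab : α a = b) :
    polys ((a :: (l1 ++ b :: l2)) :: cs) * α =
      (a :: l2).formPerm * ((b :: l1).formPerm * (polys cs * (swap a b * α))) ∧
    l2.formPerm * ((b :: l1).formPerm * (polys cs * (swap a b * α))) =
      (b :: l1).formPerm * (l2.formPerm * (polys cs * (swap a b * α))) ∧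
    l1.formPerm * (l2.formPerm * (polys cs * (swap a b * α))) =
      polys (l1 :: l2 :: cs) * (swap a b * α) ∧
    ((b :: l1).formPerm * (polys cs * (swap a b * α))) a = a ∧
    (l2.formPerm * (polys cs * (swap a b * α))) b = b ∧
    (polys (l1 :: l2 :: cs) * (swap a b * α)) a = a ∧
    (polys (l1 :: l2 :: cs) * (swap a b * α)) b = b ∧
    (a :: l2).Nodup ∧ (b :: l1).Nodup ∧ b ∉ l2 ∧ a ≠ b := by
  obtain ⟨h1, h2, h3, h4⟩ := flatA hn
  have hMt := mt_rem h1 h2 h3 h hab
  obtain ⟨β, hβ⟩ : ∃ β : Perm D, β = swap a b * α := ⟨_, rfl⟩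
  rw [← hβ] at hMt ⊢
  have hα : α = swap a b * β := by
    rw [hβ, ← mul_assoc, Equiv.swap_mul_self, one_mul]
  have hβa : β a = a := hMt.2.2 a h2
  have hβb : β b = b := hMt.2.2 b h3
  have h2' := h2
  have h3' := h3
  rw [List.flatten_cons, List.flatten_cons, List.mem_append, List.mem_append] at h2 h3
  push Not at h2 h3
  have hPa : polys cs a = a := polys_notMem h2.2.2
  have hPb : polys cs b = b := polys_notMem h3.2.2
  have hnc : (a :: (l1 ++ b :: l2)).Nodup := by
    rw [List.flatten_cons] at hn
    exact (List.nodup_append.mp hn).1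
  have hnc1 : (b :: l1).Nodup := by
    rw [List.nodup_cons]
    refine ⟨h3.1, ?_⟩
    exact (List.nodup_append.mp (List.nodup_cons.mp hnc).2).1
  have hnc2 : (a :: l2).Nodup := by
    rw [List.nodup_cons]
    refine ⟨h2.2.1, ?_⟩
    exact (List.nodup_cons.mp (List.nodup_append.mp (List.nodup_cons.mp hnc).2).2.1).2
  have hdis : ∀ d ∈ l2, d ∉ b :: l1 := by
    intro d hd
    rw [List.mem_cons]
    push Not
    refine ⟨fun hdb => h3.2.1 (hdb ▸ hd), fun hd1 => ?_⟩
    exact (List.nodup_append.mp (List.nodup_cons.mp hnc).2).2.2 d hd1 d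
      (List.mem_cons_of_mem b hd) rfl
  refine ⟨?_, ?_, ?_, ?_, ?_, ?_, ?_, hnc2, hnc1, h3.2.1, h4⟩
  · rw [polys_cons, hα, mul_assoc, ← mul_assoc (polys cs), swap_commute hPa hPb, mul_assoc,
      ← mul_assoc _ (swap a b), formPerm_cut hnc, mul_assoc]
  · rw [← mul_assoc, formPerm_commute hdis, mul_assoc]
  · rw [polys_cons, polys_cons, mul_assoc, mul_assoc]
  · rw [Equiv.Perm.mul_apply, Equiv.Perm.mul_apply, hβa, hPa, List.formPerm_apply_of_notMem]
    rw [List.mem_cons]
    push Not
    exact ⟨h4, h2.1⟩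
  · rw [Equiv.Perm.mul_apply, Equiv.Perm.mul_apply, hβb, hPb,
      List.formPerm_apply_of_notMem h3.2.1]
  · rw [Equiv.Perm.mul_apply, hβa, polys_notMem h2']
  · rw [Equiv.Perm.mul_apply, hβb, polys_notMem h3']

theorem est_eqB {a b : D} {l m1 m2 : List D} {cs : List (List D)} {α : Perm D}
    (hn : ((a :: l) :: (m1 ++ b :: m2) :: cs).flatten.Nodup)
    (h : Mt ((a :: l) :: (m1 ++ b :: m2) :: cs) α) (hab : α a = b) :
    polys ((a :: l) :: (m1 ++ b :: m2) :: cs) * α =
      (a :: ((m2 ++ m1) ++ b :: l)).formPerm * (polys cs * (swap a b * α)) ∧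
    ((m2 ++ m1) ++ b :: l).formPerm = (b :: (l ++ (m2 ++ m1))).formPerm ∧
    (l ++ (m2 ++ m1)).formPerm * (polys cs * (swap a b * α)) =
      polys ((l ++ (m2 ++ m1)) :: cs) * (swap a b * α) ∧
    (polys cs * (swap a b * α)) a = a ∧ (polys cs * (swap a b * α)) b = b ∧
    (polys ((l ++ (m2 ++ m1)) :: cs) * (swap a b * α)) a = a ∧
    (polys ((l ++ (m2 ++ m1)) :: cs) * (swap a b * α)) b = b ∧
    (a :: ((m2 ++ m1) ++ b :: l)).Nodup ∧ (b :: (l ++ (m2 ++ m1))).Nodup ∧ a ≠ b := by
  obtain ⟨h1, h2, h3, h4, h5⟩ := flatB hn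
  have hMt := mt_rem h1 h2 h3 h hab
  obtain ⟨β, hβ⟩ : ∃ β : Perm D, β = swap a b * α := ⟨_, rfl⟩
  rw [← hβ] at hMt ⊢
  have hα : α = swap a b * β := by
    rw [hβ, ← mul_assoc, Equiv.swap_mul_self, one_mul]
  have hβa : β a = a := hMt.2.2 a h2
  have hβb : β b = b := hMt.2.2 b h3
  have h2' := h2
  have h3' := h3
  rw [List.flatten_cons, List.mem_append] at h2 h3
  push Not at h2 h3
  have hPa : polys cs a = a := polys_notMem h2.2
  have hPb : polys cs b = b := polys_notMem h3.2
  have hn2 : (a :: ((m2 ++ m1) ++ b :: l)).Nodup := by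
    have h6 : (a :: b :: ((l ++ (m2 ++ m1)) :: cs).flatten).Perm
        ((a :: ((m2 ++ m1) ++ b :: l)) ++ cs.flatten) := by
      rw [List.flatten_cons, List.cons_append]
      refine List.Perm.cons a ?_
      rw [← List.cons_append]
      refine List.Perm.append_right _ ?_
      have h7 : (b :: (l ++ (m2 ++ m1))).Perm ((m2 ++ m1) ++ (b :: l)) := by
        rw [← List.cons_append]
        exact List.perm_append_comm
      exact h7
    exact (List.nodup_append.mp (h6.nodup_iff.mp h5)).1
  have hn3 : ((m2 ++ m1) ++ b :: l).Nodup := (List.nodup_cons.mp hn2).2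
  have hn4 : (b :: (l ++ (m2 ++ m1))).Nodup := by
    have h6 : ((m2 ++ m1) ++ b :: l).Perm (b :: (l ++ (m2 ++ m1))) := by
      rw [← List.cons_append]
      exact List.perm_append_comm
    exact h6.nodup_iff.mp hn3
  have hn5 : (m1 ++ b :: m2).Nodup := by
    rw [List.flatten_cons, List.flatten_cons] at hn
    exact (List.nodup_append.mp (List.nodup_append.mp hn).2.1).1
  have hrot : (m1 ++ b :: m2).formPerm = (b :: (m2 ++ m1)).formPerm := by
    rw [formPerm_rot hn5, List.cons_append]
  refine ⟨?_, ?_, ?_, ?_, ?_, ?_, ?_, hn2, hn4, h4⟩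
  · rw [polys_cons, polys_cons, hrot, hα, ← formPerm_join hn2]
    rw [mul_assoc, mul_assoc, ← mul_assoc (polys cs), swap_commute hPa hPb, mul_assoc,
      mul_assoc, mul_assoc]
  · rw [formPerm_rot hn3, List.cons_append]
  · rw [polys_cons, mul_assoc]
  · rw [Equiv.Perm.mul_apply, hβa, hPa]
  · rw [Equiv.Perm.mul_apply, hβb, hPb]
  · rw [Equiv.Perm.mul_apply, hβa, polys_notMem h2']
  · rw [Equiv.Perm.mul_apply, hβb, polys_notMem h3']

theorem est_A0 {a b : D} {l1 : List D} {cs : List (List D)} {α : Perm D}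
    (hn : ((a :: (l1 ++ [b])) :: cs).flatten.Nodup)
    (h : Mt ((a :: (l1 ++ [b])) :: cs) α) (hab : α a = b) :
    est ((a :: (l1 ++ [b])) :: cs) α a = 1 := by
  obtain ⟨e1, -, -, e4, -, -, -, -, -, -, -⟩ := est_eqA (l2 := []) hn h hab
  refine est_one h.1 hab fun d hd => ?_
  left
  rw [e1, List.formPerm_singleton, one_mul] at hd
  exact (hd.eq_of_left e4).symm

theorem est_A {a b a' : D} {l1 l2 : List D} {cs : List (List D)} {α : Perm D}
    (hn : ((a :: (l1 ++ b :: a' :: l2)) :: cs).flatten.Nodup)
    (h : Mt ((a :: (l1 ++ b :: a' :: l2)) :: cs) α) (hab : α a = b) :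
    est ((a :: (l1 ++ b :: a' :: l2)) :: cs) α a =
      est (l1 :: (a' :: l2) :: cs) (swap a b * α) a' + 1 := by
  obtain ⟨e1, e2, e3, e4, e5, e6, e7, n1, n2, hb, hne⟩ := est_eqA hn h hab
  have ha' : a' ≠ a := fun h1 => (List.nodup_cons.mp n1).1 (h1 ▸ List.mem_cons_self)
  have hb' : a' ≠ b := fun h1 => hb (h1 ▸ List.mem_cons_self)
  refine est_red h.1 hab e6 e7 ha' hb' fun d hda hdb => ?_
  rw [e1, est_head e4 n1 hda, e2, est_cons e5 n2 hb' hdb, e3]

theorem est_B0 {a b : D} {cs : List (List D)} {α : Perm D}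
    (hn : ([a] :: [b] :: cs).flatten.Nodup)
    (h : Mt ([a] :: [b] :: cs) α) (hab : α a = b) :
    est ([a] :: [b] :: cs) α a = 1 := by
  obtain ⟨e1, -, -, e4, e5, -, -, n1, -, hne⟩ := est_eqB (m1 := []) (m2 := []) hn h hab
  refine est_one h.1 hab fun d hd => ?_
  by_cases hda : d = a
  · exact Or.inl hda
  · right
    have e1' : polys ([a] :: [b] :: cs) * α =
        (a :: b :: []).formPerm * (polys cs * (swap a b * α)) := e1
    rw [e1', est_head e4 n1 hda, List.formPerm_singleton, one_mul] at hd
    exact (hd.eq_of_left e5).symm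

theorem est_B {a b a' : D} {l m1 m2 r : List D} {cs : List (List D)} {α : Perm D}
    (hn : ((a :: l) :: (m1 ++ b :: m2) :: cs).flatten.Nodup)
    (h : Mt ((a :: l) :: (m1 ++ b :: m2) :: cs) α) (hab : α a = b)
    (hr : (m2 ++ m1) ++ l = a' :: r) :
    est ((a :: l) :: (m1 ++ b :: m2) :: cs) α a =
      est ((l ++ (m2 ++ m1)) :: cs) (swap a b * α) a' + 1 := by
  obtain ⟨e1, e2, e3, e4, e5, e6, e7, n1, n2, hne⟩ := est_eqB hn h hab
  generalize m2 ++ m1 = m at *
  cases m with
  | nil =>
    rw [List.nil_append] at hr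
    subst hr
    rw [List.append_nil] at *
    rw [List.nil_append] at e1 n1
    have ha' : a' ≠ a := by
      intro h1
      apply (List.nodup_cons.mp n1).1
      rw [← h1]
      simp
    have hb' : a' ≠ b := fun h1 => (List.nodup_cons.mp n2).1 (h1 ▸ List.mem_cons_self)
    refine est_red h.1 hab e6 e7 ha' hb' fun d hda hdb => ?_
    rw [e1, est_head e4 n1 hda, est_head e5 n2 hdb, e3]
  | cons x m =>
    rw [List.cons_append, List.cons_eq_cons] at hr
    obtain ⟨rfl, -⟩ := hr
    have ha' : x ≠ a := by
      intro h1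
      apply (List.nodup_cons.mp n1).1
      rw [← h1]
      simp
    have hb' : x ≠ b := by
      intro h1
      apply (List.nodup_cons.mp n2).1
      rw [← h1]
      simp
    refine est_red h.1 hab e6 e7 ha' hb' fun d hda hdb => ?_
    rw [List.cons_append] at e1 e2 n1
    rw [e1, est_head e4 n1 hda, e2, est_cons e5 n2 hb' hdb, e3]

end UN39
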