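import Mathlib
import Pool.Agent.H39.HG.Defs
import Pool.Agent.H39.UN.Num
import Pool.Agent.H39.UN.Pol
import Pool.Agent.H39.UN.Est

/-!
[H39 UN VID]  (MP_bcc40c_pr)  The vertex identity for one gluing: `vt c α = ∑_d (1 - [d is a loop]/2) / est c α d`.

`Lp c α d`: the edge of `d` is a loop (both ends at the same vertex).  There is no empty polygon.

PROOF.  Write `σ = polys c * α`.  The darts outside `c.flatten` are fixed by `σ` and each is a cycle of its own, `c.count [] = 0`,
so `vt c α` is the number of cycles of `σ` on the darts of `c.flatten` (`c.flatten.length` = number of its darts, Nodup; `σ` preserves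
`c.flatten`).  Group the sum over `d ∈ c.flatten` by cycles: `est` is constant on a cycle (the set `{d | SameCycle a d}` depends only on
the cycle of `a`), and for a cycle `C` with `e` edges: `∑_{d ∈ C} (1 - [Lp d]/2) = #C - #(loop darts)/2 = e` by loop_card (for
`d ∈ C`: `Lp d` iff `α d ∈ C`).  So each cycle contributes `1`.
vid_tail: the darts with `est > κ` contribute at most `#{vertices with more than κ edges} ≤ (1/κ) ∑_x e(x)`, and
`∑_x e(x) ≤ ∑_x #C_x = c.flatten.length`; so the part of the sum over the darts with `est ≤ κ` is between `vt - length/κ` and `vt`.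
vid_sum: group the darts by the value `k` of `est`: for every `κ ≥ 1`, with
`N k = #{d ∈ c.flatten : est = k}`, `M k = #{d ∈ c.flatten : Lp, est = k}`:
`|vt c α - ∑_{k=1}^{κ} (N k - M k / 2) / k| ≤ length / κ`.
-/

set_option autoImplicit false

namespace UN39

open Equiv HG39

variable {D : Type} [Fintype D] [DecidableEq D]

/-- `d` is a dart of a loop -/
def Lp (c : List (List D)) (α : Perm D) (d : D) : Prop := (polys c * α).SameCycle d (α d)

private lemma vid_alpha_mem {c : List (List D)} {α : Perm D} (h : Mt c α) {d : D}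
    (hd : d ∈ c.flatten) : α d ∈ c.flatten := by
  by_contra h1
  have h2 := h.2.2 _ h1
  rw [h.1 d] at h2
  exact h.2.1 d hd h2.symm

private lemma vid_fix {c : List (List D)} {α : Perm D} (h : Mt c α) {d : D}
    (hd : d ∉ c.flatten) : (polys c * α) d = d := by
  rw [Perm.mul_apply, h.2.2 d hd, polys_notMem hd]

private lemma vid_same {c : List (List D)} {α : Perm D} (h : Mt c α) {a d : D}
    (ha : a ∈ c.flatten) (had : (polys c * α).SameCycle a d) : d ∈ c.flatten := by
  by_contra hd
  have h1 := vid_fix h hd
  have h2 : a = d := (had.symm.eq_of_left h1).symm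
  exact hd (h2 ▸ ha)

private lemma vid_est_congr {c : List (List D)} {α : Perm D} {a d : D}
    (had : (polys c * α).SameCycle a d) : est c α d = est c α a := by
  unfold est
  have h1 : {e | (polys c * α).SameCycle d e} = {e | (polys c * α).SameCycle a e} := by
    ext e
    exact ⟨fun h => had.trans h, fun h => had.symm.trans h⟩
  rw [h1]

open Classical in
/-- the contribution of one vertex -/
private lemma vid_class {c : List (List D)} {α : Perm D} (h : Mt c α) {a : D}
    (ha : a ∈ c.flatten) :
    ∑ d ∈ Finset.univ.filter (fun d => (polys c * α).SameCycle a d),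
      (1 - (if Lp c α d then (1 : ℝ) / 2 else 0)) / est c α d = 1 := by
  have h1 : ∀ d ∈ Finset.univ.filter (fun d => (polys c * α).SameCycle a d),
      (1 - (if Lp c α d then (1 : ℝ) / 2 else 0)) / est c α d =
      (1 - (if (polys c * α).SameCycle a (α d) then (1 : ℝ) / 2 else 0)) / est c α a := by
    intro d hd
    rw [Finset.mem_filter] at hd
    have h2 : Lp c α d ↔ (polys c * α).SameCycle a (α d) :=
      ⟨fun h => hd.2.trans h, fun h => hd.2.symm.trans h⟩
    rw [vid_est_congr hd.2]
    simp only [h2]
  rw [Finset.sum_congr rfl h1, ← Finset.sum_div, Finset.sum_sub_distrib, Finset.sum_const,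
    ← Finset.sum_filter, Finset.sum_const, Finset.filter_filter]
  have h3 := loop_card h ha
  have h4 : {d | (polys c * α).SameCycle a d}.ncard =
      (Finset.univ.filter (fun d => (polys c * α).SameCycle a d)).card := by
    rw [← Set.ncard_coe_finset]
    congr 1
    ext d
    simp
  have h5 : {d | (polys c * α).SameCycle a d ∧ (polys c * α).SameCycle a (α d)}.ncard =
      (Finset.univ.filter (fun d => (polys c * α).SameCycle a d ∧
        (polys c * α).SameCycle a (α d))).card := by
    rw [← Set.ncard_coe_finset]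
    congr 1
    ext d
    simp
  rw [h4, h5] at h3
  have h6 : (0 : ℝ) < est c α a := by exact_mod_cast est_pos c α a
  have h7 : 2 * (est c α a : ℝ) + ((Finset.univ.filter (fun d => (polys c * α).SameCycle a d ∧
        (polys c * α).SameCycle a (α d))).card : ℝ) =
      2 * ((Finset.univ.filter (fun d => (polys c * α).SameCycle a d)).card : ℝ) := by
    exact_mod_cast h3
  rw [div_eq_one_iff_eq h6.ne']
  simp only [nsmul_eq_mul]
  linarith

open Classical in
theorem vid {c : List (List D)} (hn : c.flatten.Nodup) (he : [] ∉ c) {α : Perm D} (h : Mt c α) :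
    (vt c α : ℝ) = ∑ d ∈ c.flatten.toFinset,
      (1 - (if Lp c α d then (1 : ℝ) / 2 else 0)) / est c α d := by
  obtain ⟨σ, hσ⟩ : ∃ σ : Perm D, σ = polys c * α := ⟨_, rfl⟩
  obtain ⟨F, hF⟩ : ∃ F : Finset D, F = c.flatten.toFinset := ⟨_, rfl⟩
  obtain ⟨q, hq⟩ : ∃ q : D → Quotient (Equiv.Perm.SameCycle.setoid σ), ∀ d, q d =
      Quotient.mk (Equiv.Perm.SameCycle.setoid σ) d := ⟨_, fun _ => rfl⟩
  have hqe : ∀ a d, q a = q d ↔ σ.SameCycle a d := by
    intro a d
    rw [hq, hq, Quotient.eq]
    rfl
  have hqs : Function.Surjective q := by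
    intro x
    obtain ⟨d, rfl⟩ := Quotient.exists_rep x
    exact ⟨d, hq d⟩
  have hmem : ∀ d, d ∈ F ↔ d ∈ c.flatten := fun d => by rw [hF, List.mem_toFinset]
  -- the number of vertices
  have hcard : F.card = c.flatten.length := by
    rw [hF, List.toFinset_card_of_nodup hn]
  have hv : vt c α = (F.image q).card := by
    haveI : Fintype (Quotient (Equiv.Perm.SameCycle.setoid σ)) := Fintype.ofFinite _
    have h1 : cyc σ = (F.image q).card + (Fᶜ.image q).card := by
      rw [cyc, Nat.card_eq_fintype_card, ← Finset.card_univ,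
        ← Finset.card_union_of_disjoint]
      · congr 1
        rw [← Finset.image_union, Finset.union_compl]
        exact (Finset.image_univ_of_surjective hqs).symm
      · rw [Finset.disjoint_left]
        intro x hx hx'
        rw [Finset.mem_image] at hx hx'
        obtain ⟨a, ha, rfl⟩ := hx
        obtain ⟨b, hb, hb'⟩ := hx'
        rw [Finset.mem_compl, hmem] at hb
        rw [hmem] at ha
        have h2 := (hqe a b).mp hb'.symm
        rw [hσ] at h2
        exact hb (vid_same h ha h2)
    have h2 : (Fᶜ.image q).card = Fᶜ.card := by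
      refine Finset.card_image_of_injOn ?_
      intro a ha b hb hab
      rw [Finset.mem_coe, Finset.mem_compl, hmem] at ha hb
      have h3 := (hqe a b).mp hab
      rw [hσ] at h3
      exact h3.eq_of_left (vid_fix h ha)
    have h3 := Finset.card_compl_add_card F
    rw [Finset.card_univ.symm.trans Finset.card_univ] at h3
    rw [vt, ← hσ, h1, h2, List.count_eq_zero_of_not_mem he]
    omega
  rw [hv, ← hF, ← Finset.sum_fiberwise_of_maps_to (s := F) (t := F.image q) (g := q)
    (fun d hd => Finset.mem_image_of_mem q hd)]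
  have h1 : ∀ x ∈ F.image q, ∑ d ∈ F.filter (fun d => q d = x),
      (1 - (if Lp c α d then (1 : ℝ) / 2 else 0)) / est c α d = 1 := by
    intro x hx
    rw [Finset.mem_image] at hx
    obtain ⟨a, ha, rfl⟩ := hx
    rw [hmem] at ha
    refine Eq.trans (Finset.sum_congr ?_ fun _ _ => rfl) (vid_class h ha)
    ext d
    rw [Finset.mem_filter, Finset.mem_filter, hmem, ← hσ]
    constructor
    · rintro ⟨_, h2⟩
      exact ⟨Finset.mem_univ d, (hqe a d).mp h2.symm⟩
    · rintro ⟨_, h2⟩
      refine ⟨?_, ((hqe a d).mpr h2).symm⟩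
      rw [hσ] at h2
      exact vid_same h ha h2
  rw [Finset.sum_congr rfl h1, Finset.sum_const, nsmul_eq_mul, mul_one]

open Classical in
theorem vid_sum {c : List (List D)} (hn : c.flatten.Nodup) (he : [] ∉ c) {α : Perm D}
    (h : Mt c α) (κ : ℕ) (hκ : 1 ≤ κ) :
    |(vt c α : ℝ) - ∑ k ∈ Finset.Icc 1 κ, (1 / (k : ℝ)) *
      ((c.flatten.toFinset.filter fun d => est c α d = k).card -
        (1 / 2) * (c.flatten.toFinset.filter fun d => Lp c α d ∧ est c α d = k).card)| ≤
      (c.flatten.length : ℝ) / κ := by
  have hκ0 : (0 : ℝ) < κ := by exact_mod_cast hκ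
  obtain ⟨F, hF⟩ : ∃ F : Finset D, F = c.flatten.toFinset := ⟨_, rfl⟩
  have hcard : F.card = c.flatten.length := by
    rw [hF, List.toFinset_card_of_nodup hn]
  obtain ⟨g, hg⟩ : ∃ g : D → ℝ, ∀ d, g d = (1 - (if Lp c α d then (1 : ℝ) / 2 else 0)) :=
    ⟨_, fun _ => rfl⟩
  have hg0 : ∀ d, 0 ≤ g d ∧ g d ≤ 1 := by
    intro d
    rw [hg]
    split_ifs <;> norm_num
  have hv : (vt c α : ℝ) = ∑ d ∈ F, g d / est c α d := by
    rw [vid hn he h, hF]
    simp only [hg]
  rw [← hF, hv, ← Finset.sum_filter_add_sum_filter_not F (fun d => est c α d ≤ κ)]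
  have h1 : ∑ d ∈ F.filter (fun d => est c α d ≤ κ), g d / est c α d =
      ∑ k ∈ Finset.Icc 1 κ, (1 / (k : ℝ)) *
      ((F.filter fun d => est c α d = k).card -
        (1 / 2) * (F.filter fun d => Lp c α d ∧ est c α d = k).card) := by
    rw [← Finset.sum_fiberwise_of_maps_to (s := F.filter (fun d => est c α d ≤ κ))
      (t := Finset.Icc 1 κ) (g := fun d => est c α d)
      (fun d hd => Finset.mem_Icc.mpr ⟨est_pos c α d, (Finset.mem_filter.mp hd).2⟩)]
    refine Finset.sum_congr rfl fun k hk => ?_
    rw [Finset.mem_Icc] at hk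
    have h2 : (F.filter (fun d => est c α d ≤ κ)).filter (fun d => est c α d = k) =
        F.filter (fun d => est c α d = k) := by
      rw [Finset.filter_filter]
      refine Finset.filter_congr fun d _ => ?_
      constructor
      · exact fun h => h.2
      · exact fun h => ⟨h.trans_le hk.2, h⟩
    rw [h2]
    have h3 : ∑ d ∈ F.filter (fun d => est c α d = k), g d / est c α d =
        ∑ d ∈ F.filter (fun d => est c α d = k), (1 / (k : ℝ)) * g d := by
      refine Finset.sum_congr rfl fun d hd => ?_
      rw [Finset.mem_filter] at hd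
      rw [hd.2]
      ring
    rw [h3, ← Finset.mul_sum]
    congr 1
    simp only [hg]
    rw [Finset.sum_sub_distrib, Finset.sum_const, ← Finset.sum_filter, Finset.sum_const,
      Finset.filter_filter, nsmul_eq_mul, nsmul_eq_mul, mul_one]
    have h4 : F.filter (fun d => est c α d = k ∧ Lp c α d) =
        F.filter (fun d => Lp c α d ∧ est c α d = k) :=
      Finset.filter_congr fun d _ => and_comm
    rw [h4]
    ring
  rw [h1, add_sub_cancel_left]
  have h5 : 0 ≤ ∑ d ∈ F.filter (fun d => ¬ est c α d ≤ κ), g d / est c α d :=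
    Finset.sum_nonneg fun d _ => div_nonneg (hg0 d).1 (Nat.cast_nonneg _)
  rw [abs_of_nonneg h5]
  have h6 : ∑ d ∈ F.filter (fun d => ¬ est c α d ≤ κ), g d / est c α d ≤
      ∑ d ∈ F.filter (fun d => ¬ est c α d ≤ κ), 1 / (κ : ℝ) := by
    refine Finset.sum_le_sum fun d hd => ?_
    rw [Finset.mem_filter, not_le] at hd
    have h7 : (κ : ℝ) ≤ est c α d := by exact_mod_cast hd.2.le
    exact div_le_div₀ zero_le_one (hg0 d).2 hκ0 h7
  refine h6.trans ?_
  rw [Finset.sum_const, nsmul_eq_mul, mul_one_div]
  refine div_le_div_of_nonneg_right ?_ hκ0.le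
  rw [← hcard]
  exact_mod_cast Finset.card_filter_le _ _

end UN39
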