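import Mathlib
import Pool.Agent.H39.HG.Defs
import Pool.Agent.H39.HG.ZSwap
import Pool.Agent.H39.UN.Num
import Pool.Agent.H39.UN.Pol
import Pool.Agent.H39.UN.Est
import Pool.Agent.H39.UN.Vid

/-!
[H39 UN LCUTA]  (MP_bcc40c_pr)  Cutting along a loop: two spare darts `x`, `y` not in `c.flatten`, `x ≠ y`; new polygons `[x]`, `[y]`.

`cutL α d x y`: the involution `α'` with `α' d = x`, `α' (α d) = y` and `α' = α` on the other darts of `c`.

PROOFS.  Let `b = α d ≠ d`.  `cutL α d x y = swap x b * (α * swap x y) * swap x b`.  Values: `d ↦ x`, `x ↦ d`, `b ↦ y`, `y ↦ b`, other darts as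
`α` (compute; `x`, `y` are fixed by `α`).
`joinL α' x y` is the inverse operation: `α d = b`, where `d = α' x`, `b = α' y`.  Everything is a computation of values.
-/

set_option autoImplicit false

namespace UN39

open Equiv HG39

variable {D : Type} [Fintype D] [DecidableEq D]

def cutL (α : Perm D) (d x y : D) : Perm D := swap x (α d) * (α * swap x y) * swap x (α d)

def joinL (α' : Perm D) (x y : D) : Perm D := swap x (α' y) * α' * swap x (α' y) * swap x y

/-- values of `cutL` -/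
theorem cut_val {α : Perm D} {d x y : D} (hαx : α x = x) (hαy : α y = y) (hxy : x ≠ y)
    (hdx : d ≠ x) (hdy : d ≠ y) (hbx : α d ≠ x) (hby : α d ≠ y) (hbd : α d ≠ d)
    (hα : ∀ e, α (α e) = e) :
    cutL α d x y x = d ∧ cutL α d x y y = α d ∧ cutL α d x y (α d) = y ∧ cutL α d x y d = x ∧
      ∀ e, e ≠ x → e ≠ y → e ≠ α d → e ≠ d → cutL α d x y e = α e := by
  have hs : ∀ e, cutL α d x y e = swap x (α d) (α (swap x y (swap x (α d) e))) := fun e => rfl
  refine ⟨?_, ?_, ?_, ?_, ?_⟩
  · rw [hs, swap_apply_left, swap_apply_of_ne_of_ne hbx hby, hα,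
      swap_apply_of_ne_of_ne hdx hbd.symm]
  · rw [hs, swap_apply_of_ne_of_ne hxy.symm hby.symm, swap_apply_right, hαx, swap_apply_left]
  · rw [hs, swap_apply_right, swap_apply_left, hαy, swap_apply_of_ne_of_ne hxy.symm hby.symm]
  · rw [hs, swap_apply_of_ne_of_ne hdx hbd.symm, swap_apply_of_ne_of_ne hdx hdy, swap_apply_right]
  · intro e h1 h2 h3 h4
    rw [hs, swap_apply_of_ne_of_ne h1 h3, swap_apply_of_ne_of_ne h1 h2, swap_apply_of_ne_of_ne]
    · intro h5
      apply h1
      rw [← hα e, h5, hαx]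
    · intro h5
      exact h4 (α.injective h5)

/-- the situation of `cut_mt` -/
theorem cut_facts {c : List (List D)} {x y : D} (hx : x ∉ c.flatten) (hy : y ∉ c.flatten)
    {α : Perm D} (h : Mt c α) {d : D} (hd : d ∈ c.flatten) :
    α x = x ∧ α y = y ∧ d ≠ x ∧ d ≠ y ∧ α d ≠ x ∧ α d ≠ y ∧ α d ≠ d ∧ α d ∈ c.flatten := by
  have h1 : α d ∈ c.flatten := by
    by_contra h1
    have h2 := h.2.2 _ h1
    rw [h.1 d] at h2
    rw [← h2] at h1
    exact h1 hd
  exact ⟨h.2.2 x hx, h.2.2 y hy, fun h2 => hx (h2 ▸ hd), fun h2 => hy (h2 ▸ hd),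
    fun h2 => hx (h2 ▸ h1), fun h2 => hy (h2 ▸ h1), h.2.1 d hd, h1⟩

theorem mem_two {c : List (List D)} {x y e : D} :
    e ∈ ([x] :: [y] :: c).flatten ↔ e = x ∨ e = y ∨ e ∈ c.flatten := by
  simp

theorem cut_mt {c : List (List D)} {x y : D} (hx : x ∉ c.flatten) (hy : y ∉ c.flatten)
    (hxy : x ≠ y) {α : Perm D} (h : Mt c α) {d : D} (hd : d ∈ c.flatten) :
    Mt ([x] :: [y] :: c) (cutL α d x y) ∧ cutL α d x y x = d ∧ cutL α d x y y = α d ∧
      joinL (cutL α d x y) x y = α := by
  obtain ⟨hαx, hαy, hdx, hdy, hbx, hby, hbd, hb⟩ := cut_facts hx hy h hd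
  obtain ⟨v1, v2, v3, v4, v5⟩ := cut_val hαx hαy hxy hdx hdy hbx hby hbd h.1
  refine ⟨⟨?_, ?_, ?_⟩, v1, v2, ?_⟩
  · intro e
    by_cases h1 : e = x
    · rw [h1, v1, v4]
    by_cases h2 : e = y
    · rw [h2, v2, v3]
    by_cases h3 : e = α d
    · rw [h3, v3, v2]
    by_cases h4 : e = d
    · rw [h4, v4, v1]
    rw [v5 e h1 h2 h3 h4, v5 (α e), h.1]
    · intro h5
      apply h1
      rw [← h.1 e, h5, hαx]
    · intro h5
      apply h2
      rw [← h.1 e, h5, hαy]
    · intro h5
      exact h4 (α.injective h5)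
    · intro h5
      apply h3
      rw [← h5, h.1]
  · intro e he
    rw [mem_two] at he
    by_cases h1 : e = x
    · rw [h1, v1]
      exact hdx
    by_cases h2 : e = y
    · rw [h2, v2]
      exact hby
    by_cases h3 : e = α d
    · rw [h3, v3]
      exact hby.symm
    by_cases h4 : e = d
    · rw [h4, v4]
      exact hdx.symm
    rw [v5 e h1 h2 h3 h4]
    apply h.2.1
    rcases he with he | he | he
    · exact absurd he h1
    · exact absurd he h2
    · exact he
  · intro e he
    rw [mem_two, not_or, not_or] at he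
    rw [v5 e he.1 he.2.1]
    · exact h.2.2 e he.2.2
    · intro h3
      exact he.2.2 (h3 ▸ hb)
    · intro h3
      exact he.2.2 (h3 ▸ hd)
  · unfold joinL
    rw [v2]
    unfold cutL
    simp [mul_assoc]

theorem join_mt {c : List (List D)} {x y : D} (hx : x ∉ c.flatten) (hy : y ∉ c.flatten)
    (hxy : x ≠ y) {β : Perm D} (h : Mt ([x] :: [y] :: c) β) (h1 : β x ≠ y) :
    Mt c (joinL β x y) ∧ β x ∈ c.flatten ∧ joinL β x y (β x) = β y ∧
      cutL (joinL β x y) (β x) x y = β := by
  have hpres : ∀ e, e ∈ ([x] :: [y] :: c).flatten → β e ∈ ([x] :: [y] :: c).flatten := by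
    intro e he
    by_contra h2
    have h3 := h.2.2 _ h2
    rw [h.1 e] at h3
    rw [← h3] at h2
    exact h2 he
  have hxF : x ∈ ([x] :: [y] :: c).flatten := mem_two.2 (Or.inl rfl)
  have hyF : y ∈ ([x] :: [y] :: c).flatten := mem_two.2 (Or.inr (Or.inl rfl))
  have hdx : β x ≠ x := h.2.1 x hxF
  have hby : β y ≠ y := h.2.1 y hyF
  have hbx : β y ≠ x := by
    intro h2
    apply h1
    rw [← h2, h.1]
  have hd : β x ∈ c.flatten := by
    rcases mem_two.1 (hpres x hxF) with h2 | h2 | h2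
    · exact absurd h2 hdx
    · exact absurd h2 h1
    · exact h2
  have hb : β y ∈ c.flatten := by
    rcases mem_two.1 (hpres y hyF) with h2 | h2 | h2
    · exact absurd h2 hbx
    · exact absurd h2 hby
    · exact h2
  have hbd : β y ≠ β x := fun h2 => hxy (β.injective h2).symm
  have hs : ∀ e, joinL β x y e = swap x (β y) (β (swap x (β y) (swap x y e))) := fun e => rfl
  have v1 : joinL β x y x = x := by
    rw [hs, swap_apply_left, swap_apply_of_ne_of_ne hxy.symm hby.symm, swap_apply_right]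
  have v2 : joinL β x y y = y := by
    rw [hs, swap_apply_right, swap_apply_left, h.1, swap_apply_of_ne_of_ne hxy.symm hby.symm]
  have v3 : joinL β x y (β x) = β y := by
    rw [hs, swap_apply_of_ne_of_ne hdx h1, swap_apply_of_ne_of_ne hdx hbd.symm, h.1,
      swap_apply_left]
  have v4 : joinL β x y (β y) = β x := by
    rw [hs, swap_apply_of_ne_of_ne hbx hby, swap_apply_right, swap_apply_of_ne_of_ne hdx hbd.symm]
  have v5 : ∀ e, e ≠ x → e ≠ y → e ≠ β x → e ≠ β y → joinL β x y e = β e := by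
    intro e h2 h3 h4 h5
    rw [hs, swap_apply_of_ne_of_ne h2 h3, swap_apply_of_ne_of_ne h2 h5, swap_apply_of_ne_of_ne]
    · intro h6
      apply h4
      rw [← h6, h.1]
    · intro h6
      exact h3 (β.injective h6)
  refine ⟨⟨?_, ?_, ?_⟩, hd, v3, ?_⟩
  · intro e
    by_cases h2 : e = x
    · rw [h2, v1, v1]
    by_cases h3 : e = y
    · rw [h3, v2, v2]
    by_cases h4 : e = β x
    · rw [h4, v3, v4]
    by_cases h5 : e = β y
    · rw [h5, v4, v3]
    rw [v5 e h2 h3 h4 h5, v5 (β e), h.1]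
    · intro h6
      apply h4
      rw [← h6, h.1]
    · intro h6
      apply h5
      rw [← h6, h.1]
    · intro h6
      exact h2 (β.injective h6)
    · intro h6
      exact h3 (β.injective h6)
  · intro e he
    have h2 : e ≠ x := fun h6 => hx (h6 ▸ he)
    have h3 : e ≠ y := fun h6 => hy (h6 ▸ he)
    by_cases h4 : e = β x
    · rw [h4, v3]
      exact hbd
    by_cases h5 : e = β y
    · rw [h5, v4]
      exact hbd.symm
    rw [v5 e h2 h3 h4 h5]
    exact h.2.1 e (mem_two.2 (Or.inr (Or.inr he)))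
  · intro e he
    by_cases h2 : e = x
    · rw [h2, v1]
    by_cases h3 : e = y
    · rw [h3, v2]
    rw [v5 e h2 h3 (fun h6 => he (h6 ▸ hd)) (fun h6 => he (h6 ▸ hb))]
    apply h.2.2
    rw [mem_two, not_or, not_or]
    exact ⟨h2, h3, he⟩
  · unfold cutL
    rw [v3]
    unfold joinL
    simp [mul_assoc]

end UN39
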