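import Mathlib
import Pool.Agent.H39.HG.Defs
import Pool.Agent.H39.HG.ZSwap
import Pool.Agent.H39.UN.Num
import Pool.Agent.H39.UN.Pol
import Pool.Agent.H39.UN.Est
import Pool.Agent.H39.UN.Vid
import Pool.Agent.H39.UN.LcutA

/-!
[H39 UN LCUTC]  (MP_bcc40c_pr)  Cutting along a loop: number of vertices.

PROOFS.  Notation of LCUTA, `b = α d`, `α' = cutL α d x y`.  `polys ([x] :: [y] :: c) = polys c` (formPerm of a singleton is 1).
`σ = polys c * α`, `σ' = polys c * α'`.  `α * α'` is the 4-cycle `d ↦ x ↦ b ↦ y ↦ d` (`α (α' d) = α x = x`, `α (α' x) = α d = b`,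
`α (α' b) = α y = y`, `α (α' y) = α b = d`) and the identity elsewhere, so `σ' = σ * (4-cycle)`, `σ` fixes `x` and `y`.
Values of `σ'`: `σ' d = x`, `σ' x = σ b`, `σ' b = y`, `σ' y = σ d`, otherwise `σ' = σ`.
If `d`, `b` are in the same cycle of `σ` (loop): the cycle `(d, X, b, Y)` (`X`, `Y` lists of darts) and the fixed points `x`, `y` become the two
cycles `(d, x, Y)` and `(b, y, X)`: `cyc σ' + 1 = cyc σ`, and `x`, `y` are not in the same cycle of `σ'`.  If not, the two cycles of `d`, `b` and
the fixed points become one cycle: `x`, `y` in the same cycle of `σ'`.  Proof by transpositions (`cyc_swap_same`, `cyc_swap_diff` of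
HG ZSwap, about `π * swap a b`): e.g. `σ' = σ * swap d b * (swap d x * swap b y)`-like: first `π = σ * swap d b` (splits or joins the cycles of `d`, `b`), then
two transpositions with a fixed point; find the right order and check with the values.
cut_vt: `vt ([x] :: [y] :: c) α' = cyc σ' + length + 2 + count - card` (card_le: no truncation).
-/

set_option autoImplicit false

namespace UN39

open Equiv HG39

variable {D : Type} [Fintype D] [DecidableEq D]

theorem fix_same {π : Perm D} {z w : D} (h : π z = z) (hs : π.SameCycle z w) : z = w :=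
  hs.eq_of_left h

theorem polys_two (c : List (List D)) (x y : D) : polys ([x] :: [y] :: c) = polys c := by
  rw [polys_cons, polys_cons, List.formPerm_singleton, List.formPerm_singleton, one_mul, one_mul]

theorem cut_dec {α : Perm D} {d x y : D} (hαx : α x = x) (hαy : α y = y) (hxy : x ≠ y)
    (hdx : d ≠ x) (hdy : d ≠ y) (hbx : α d ≠ x) (hby : α d ≠ y) (hbd : α d ≠ d)
    (hα : ∀ e, α (α e) = e) :
    cutL α d x y = α * swap d (α d) * swap d x * swap (α d) y := by
  obtain ⟨v1, v2, v3, v4, v5⟩ := cut_val hαx hαy hxy hdx hdy hbx hby hbd hα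
  ext e
  have hr : (α * swap d (α d) * swap d x * swap (α d) y) e =
      α (swap d (α d) (swap d x (swap (α d) y e))) := rfl
  rw [hr]
  by_cases h1 : e = x
  · rw [h1, v1, swap_apply_of_ne_of_ne hbx.symm hxy, swap_apply_right, swap_apply_left, hα]
  by_cases h2 : e = y
  · rw [h2, v2, swap_apply_right, swap_apply_of_ne_of_ne hbd hbx, swap_apply_right]
  by_cases h3 : e = α d
  · rw [h3, v3, swap_apply_left, swap_apply_of_ne_of_ne hdy.symm hxy.symm,
      swap_apply_of_ne_of_ne hdy.symm hby.symm, hαy]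
  by_cases h4 : e = d
  · rw [h4, v4, swap_apply_of_ne_of_ne hbd.symm hdy, swap_apply_left,
      swap_apply_of_ne_of_ne hdx.symm hbx.symm, hαx]
  rw [v5 e h1 h2 h3 h4, swap_apply_of_ne_of_ne h3 h2, swap_apply_of_ne_of_ne h4 h1,
    swap_apply_of_ne_of_ne h4 h3]

theorem same_split {σ : Perm D} {d b : D} (hdb : d ≠ b) :
    (σ * swap d b).SameCycle d b ↔ ¬ σ.SameCycle d b := by
  constructor
  · intro h1 h2
    have h3 := cyc_swap_same σ d b hdb h2
    have h4 := cyc_swap_same (σ * swap d b) d b hdb h1
    rw [mul_assoc, swap_mul_self, mul_one] at h4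
    omega
  · exact zs_ab σ d b

/-- the three transpositions -/
theorem cut_three {σ : Perm D} {d b x y : D} (hσx : σ x = x) (hσy : σ y = y) (hxy : x ≠ y)
    (hdx : d ≠ x) (hdy : d ≠ y) (hbx : b ≠ x) (hby : b ≠ y) (hdb : d ≠ b) :
    ((σ * swap d b * swap d x * swap b y).SameCycle x y ↔ ¬ σ.SameCycle d b) ∧
      (σ.SameCycle d b → cyc (σ * swap d b * swap d x * swap b y) + 1 = cyc σ) := by
  have h1x : (σ * swap d b) x = x := by
    rw [Perm.mul_apply, swap_apply_of_ne_of_ne hdx.symm hbx.symm, hσx]
  have h1y : (σ * swap d b) y = y := by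
    rw [Perm.mul_apply, swap_apply_of_ne_of_ne hdy.symm hby.symm, hσy]
  have h2y : (σ * swap d b * swap d x) y = y := by
    rw [Perm.mul_apply, swap_apply_of_ne_of_ne hdy.symm hxy.symm, h1y]
  have n1 : ¬ (σ * swap d b).SameCycle d x := fun h => hdx (fix_same h1x h.symm).symm
  have n2 : ¬ (σ * swap d b * swap d x).SameCycle b y := fun h => hby (fix_same h2y h.symm).symm
  refine ⟨?_, ?_⟩
  · rw [zs_iff _ b y n2 x y, ← same_split hdb]
    constructor
    · intro h
      have h3 : (σ * swap d b * swap d x).SameCycle x b := by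
        rcases h with h | ⟨h, _⟩
        · exact absurd (fix_same h2y h.symm).symm hxy
        · rcases h with h | h
          · exact h
          · exact absurd (fix_same h2y h.symm).symm hxy
      rw [zs_iff _ d x n1 x b] at h3
      rcases h3 with h3 | ⟨_, h3⟩
      · exact absurd (fix_same h1x h3).symm hbx
      · rcases h3 with h3 | h3
        · exact h3.symm
        · exact absurd (fix_same h1x h3.symm).symm hbx
    · intro h
      refine Or.inr ⟨Or.inl ?_, Or.inr (Perm.SameCycle.refl _ _)⟩
      rw [zs_iff _ d x n1 x b]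
      exact Or.inr ⟨Or.inr (Perm.SameCycle.refl _ _), Or.inl h.symm⟩
  · intro h
    have c1 := cyc_swap_same σ d b hdb h
    have c2 := cyc_swap_diff _ d x n1
    have c3 := cyc_swap_diff _ b y n2
    omega

theorem cut_both {c : List (List D)} {x y : D} (hx : x ∉ c.flatten) (hy : y ∉ c.flatten)
    (hxy : x ≠ y) {α : Perm D} (h : Mt c α) {d : D} (hd : d ∈ c.flatten) :
    ((polys ([x] :: [y] :: c) * cutL α d x y).SameCycle x y ↔ ¬ Lp c α d) ∧
      (Lp c α d → cyc (polys ([x] :: [y] :: c) * cutL α d x y) + 1 = cyc (polys c * α)) := by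
  obtain ⟨hαx, hαy, hdx, hdy, hbx, hby, hbd, hb⟩ := cut_facts hx hy h hd
  have h1 : polys ([x] :: [y] :: c) * cutL α d x y =
      (polys c * α) * swap d (α d) * swap d x * swap (α d) y := by
    rw [polys_two, cut_dec hαx hαy hxy hdx hdy hbx hby hbd h.1]
    simp only [mul_assoc]
  have hσx : (polys c * α) x = x := by rw [Perm.mul_apply, hαx, polys_notMem hx]
  have hσy : (polys c * α) y = y := by rw [Perm.mul_apply, hαy, polys_notMem hy]
  rw [h1]
  exact cut_three hσx hσy hxy hdx hdy hbx hby hbd.symm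

theorem cut_loop {c : List (List D)} {x y : D} (hx : x ∉ c.flatten) (hy : y ∉ c.flatten)
    (hxy : x ≠ y) {α : Perm D} (h : Mt c α) {d : D} (hd : d ∈ c.flatten) :
    Lp c α d ↔ ¬ (polys ([x] :: [y] :: c) * cutL α d x y).SameCycle x y := by
  rw [(cut_both hx hy hxy h hd).1, not_not]

theorem cut_vt {c : List (List D)} {x y : D} (hx : x ∉ c.flatten) (hy : y ∉ c.flatten)
    (hxy : x ≠ y) {α : Perm D} (h : Mt c α) {d : D} (hd : d ∈ c.flatten) (hl : Lp c α d) :
    vt ([x] :: [y] :: c) (cutL α d x y) = vt c α + 1 := by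
  have h1 := (cut_both hx hy hxy h hd).2 hl
  have h2 := card_le h
  have h3 : ([x] :: [y] :: c).flatten.length = c.flatten.length + 2 := by simp
  have h4 : ([x] :: [y] :: c).count [] = c.count [] := by
    rw [List.count_cons_of_ne (by simp), List.count_cons_of_ne (by simp)]
  unfold vt
  rw [h3, h4]
  omega

end UN39
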