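import Mathlib
import Pool.Agent.H39.HG.Defs
import Pool.Agent.H39.HG.ZSwap
import Pool.Agent.H39.UN.Num
import Pool.Agent.H39.UN.Pol
import Pool.Agent.H39.UN.Est
import Pool.Agent.H39.UN.Vid
import Pool.Agent.H39.UN.LcutA
import Pool.Agent.H39.UN.LcutC

/-!
[H39 UN LCUTE]  (MP_bcc40c_pr)  Cutting along a loop: number of edges at the two new vertices.

PROOF.  Notation of LCUTC: `σ = polys c * α`, `σ' = polys c * α'`, `b = α d`; the `σ`-cycle of `d` is `(d, X, b, Y)` (`X`, `Y` lists of darts), the `σ'`-cycle of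
`x` is `(d, x, Y)`, the one of `y` is `(b, y, X)` (values of `σ'`: `σ' d = x`, `σ' x = σ b`, `σ' b = y`, `σ' y = σ d`, otherwise `σ' = σ`; prove:
`σ.SameCycle d e ↔ σ'.SameCycle x e ∨ σ'.SameCycle y e` for `e ≠ x, y`).
The edges of `(c, α)` at `d` are `s(d, b)`, the edges `s(e, α e)` of the darts `e ∈ X` and of `e ∈ Y`; the edges of `α'` at `x`: `s(x, d)` and the edges
of `Y` (`α' e = α e` for `e ≠ d, b, x, y`); at `y`: `s(y, b)` and the edges of `X`; the families of `X` and `Y` are disjoint by the hypothesis `hs`: if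
`s(e, α e) = s(e', α e')` with `e ∈ Y`, `e' ∈ X` then `α' e = e'` (as `e ≠ e'`).
-/

set_option autoImplicit false

namespace UN39

open Equiv HG39

variable {D : Type} [Fintype D] [DecidableEq D]

/-- the cycles after the three transpositions -/
theorem cut_cycles {σ : Perm D} {d b x y : D} (hσx : σ x = x) (hσy : σ y = y) (hxy : x ≠ y)
    (hdx : d ≠ x) (hdy : d ≠ y) (hbx : b ≠ x) (hby : b ≠ y) (hdb : d ≠ b) (hs : σ.SameCycle d b)
    (e : D) :
    (σ.SameCycle d e ↔ (σ * swap d b).SameCycle d e ∨ (σ * swap d b).SameCycle b e) ∧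
    ((σ * swap d b * swap d x * swap b y).SameCycle x e ↔ e = x ∨ (σ * swap d b).SameCycle d e) ∧
    ((σ * swap d b * swap d x * swap b y).SameCycle y e ↔ e = y ∨ (σ * swap d b).SameCycle b e) := by
  have h1x : (σ * swap d b) x = x := by
    rw [Perm.mul_apply, swap_apply_of_ne_of_ne hdx.symm hbx.symm, hσx]
  have h1y : (σ * swap d b) y = y := by
    rw [Perm.mul_apply, swap_apply_of_ne_of_ne hdy.symm hby.symm, hσy]
  have h2y : (σ * swap d b * swap d x) y = y := by
    rw [Perm.mul_apply, swap_apply_of_ne_of_ne hdy.symm hxy.symm, h1y]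
  have n0 : ¬ (σ * swap d b).SameCycle d b := fun h => (same_split hdb).1 h hs
  have n1 : ¬ (σ * swap d b).SameCycle d x := fun h => hdx (fix_same h1x h.symm).symm
  have n2 : ¬ (σ * swap d b * swap d x).SameCycle b y := fun h => hby (fix_same h2y h.symm).symm
  have i0 := zs_iff (σ * swap d b) d b n0 d e
  rw [mul_assoc, swap_mul_self, mul_one] at i0
  have j2 : ∀ e, (σ * swap d b * swap d x).SameCycle b e ↔ (σ * swap d b).SameCycle b e := by
    intro e
    rw [zs_iff _ d x n1 b e]
    constructor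
    · rintro (h | ⟨h | h, _⟩)
      · exact h
      · exact absurd h.symm n0
      · exact absurd (fix_same h1x h.symm).symm hbx
    · exact fun h => Or.inl h
  have j1 : (σ * swap d b * swap d x).SameCycle x e ↔ e = x ∨ (σ * swap d b).SameCycle d e := by
    rw [zs_iff _ d x n1 x e]
    constructor
    · rintro (h | ⟨_, h | h⟩)
      · exact Or.inl (fix_same h1x h).symm
      · exact Or.inr h.symm
      · exact Or.inl (fix_same h1x h.symm).symm
    · rintro (h | h)
      · rw [h]
        exact Or.inl (Perm.SameCycle.refl _ _)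
      · exact Or.inr ⟨Or.inr (Perm.SameCycle.refl _ _), Or.inl h.symm⟩
  have k1 : ¬ (σ * swap d b * swap d x).SameCycle x b := by
    intro h
    exact hbx (fix_same h1x ((j2 x).1 h.symm).symm).symm
  have k2 : ¬ (σ * swap d b * swap d x).SameCycle x y := by
    intro h
    exact hxy (fix_same h2y h.symm).symm
  refine ⟨?_, ?_, ?_⟩
  · rw [i0]
    constructor
    · rintro (h | ⟨_, h | h⟩)
      · exact Or.inl h
      · exact Or.inl h.symm
      · exact Or.inr h.symm
    · rintro (h | h)
      · exact Or.inl h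
      · exact Or.inr ⟨Or.inl (Perm.SameCycle.refl _ _), Or.inr h.symm⟩
  · rw [zs_iff _ b y n2 x e, ← j1]
    constructor
    · rintro (h | ⟨h | h, _⟩)
      · exact h
      · exact absurd h k1
      · exact absurd h k2
    · exact fun h => Or.inl h
  · rw [zs_iff _ b y n2 y e, ← j2]
    constructor
    · rintro (h | ⟨_, h | h⟩)
      · exact Or.inl (fix_same h2y h).symm
      · exact Or.inr h.symm
      · exact Or.inl (fix_same h2y h.symm).symm
    · rintro (h | h)
      · rw [h]
        exact Or.inl (Perm.SameCycle.refl _ _)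
      · exact Or.inr ⟨Or.inr (Perm.SameCycle.refl _ _), Or.inl h.symm⟩

theorem cut_est {c : List (List D)} {x y : D} (hx : x ∉ c.flatten) (hy : y ∉ c.flatten)
    (hxy : x ≠ y) {α : Perm D} (h : Mt c α) {d : D} (hd : d ∈ c.flatten) (hl : Lp c α d)
    (hs : ∀ e, (polys c * cutL α d x y).SameCycle x e →
      ¬ (polys c * cutL α d x y).SameCycle y (cutL α d x y e)) :
    est ([x] :: [y] :: c) (cutL α d x y) x + est ([x] :: [y] :: c) (cutL α d x y) y =
      est c α d + 1 := by
  obtain ⟨hαx, hαy, hdx, hdy, hbx, hby, hbd, hb⟩ := cut_facts hx hy h hd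
  obtain ⟨v1, v2, v3, v4, v5⟩ := cut_val hαx hαy hxy hdx hdy hbx hby hbd h.1
  have hdec : polys c * cutL α d x y =
      (polys c * α) * swap d (α d) * swap d x * swap (α d) y := by
    rw [cut_dec hαx hαy hxy hdx hdy hbx hby hbd h.1]
    simp only [mul_assoc]
  have hσx : (polys c * α) x = x := by rw [Perm.mul_apply, hαx, polys_notMem hx]
  have hσy : (polys c * α) y = y := by rw [Perm.mul_apply, hαy, polys_notMem hy]
  have hcyc := cut_cycles hσx hσy hxy hdx hdy hbx hby hbd.symm hl
  have h1x : ((polys c * α) * swap d (α d)) x = x := by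
    rw [Perm.mul_apply, swap_apply_of_ne_of_ne hdx.symm hbx.symm, hσx]
  have h1y : ((polys c * α) * swap d (α d)) y = y := by
    rw [Perm.mul_apply, swap_apply_of_ne_of_ne hdy.symm hby.symm, hσy]
  have n0 : ¬ ((polys c * α) * swap d (α d)).SameCycle d (α d) :=
    fun h => (same_split hbd.symm).1 h hl
  rw [hdec] at hs
  set A : Set D := {e | ((polys c * α) * swap d (α d)).SameCycle d e} with hA
  set B : Set D := {e | ((polys c * α) * swap d (α d)).SameCycle (α d) e} with hB
  have hxA : x ∉ A := fun h2 => hdx (fix_same h1x (Perm.SameCycle.symm h2)).symm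
  have hyA : y ∉ A := fun h2 => hdy (fix_same h1y (Perm.SameCycle.symm h2)).symm
  have hxB : x ∉ B := fun h2 => hbx (fix_same h1x (Perm.SameCycle.symm h2)).symm
  have hyB : y ∉ B := fun h2 => hby (fix_same h1y (Perm.SameCycle.symm h2)).symm
  have hbA : α d ∉ A := n0
  have hdB : d ∉ B := fun h2 => n0 (Perm.SameCycle.symm h2)
  have hdA : d ∈ A := Perm.SameCycle.refl _ _
  have hbB : α d ∈ B := Perm.SameCycle.refl _ _
  have hAB : ∀ e, e ∈ A → e ∉ B := by
    intro e h2 h3
    exact n0 (Perm.SameCycle.trans h2 (Perm.SameCycle.symm h3))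
  -- the three sets of darts
  have s0 : {e | (polys c * α).SameCycle d e} = A ∪ B := by
    ext e
    exact (hcyc e).1
  have s1 : {e | (polys ([x] :: [y] :: c) * cutL α d x y).SameCycle x e} = insert x A := by
    ext e
    rw [polys_two, hdec]
    exact (hcyc e).2.1
  have s2 : {e | (polys ([x] :: [y] :: c) * cutL α d x y).SameCycle y e} = insert y B := by
    ext e
    rw [polys_two, hdec]
    exact (hcyc e).2.2
  set f : D → Sym2 D := fun e => s(e, α e) with hf
  set f' : D → Sym2 D := fun e => s(e, cutL α d x y e) with hf'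
  have fA : ∀ e ∈ A \ {d}, f' e = f e := by
    intro e he
    have e1 : e ≠ x := fun h2 => hxA (h2 ▸ he.1)
    have e2 : e ≠ y := fun h2 => hyA (h2 ▸ he.1)
    have e3 : e ≠ α d := fun h2 => hbA (h2 ▸ he.1)
    have e4 : e ≠ d := he.2
    simp only [hf, hf', v5 e e1 e2 e3 e4]
  have fB : ∀ e ∈ B \ {α d}, f' e = f e := by
    intro e he
    have e1 : e ≠ x := fun h2 => hxB (h2 ▸ he.1)
    have e2 : e ≠ y := fun h2 => hyB (h2 ▸ he.1)
    have e3 : e ≠ α d := he.2
    have e4 : e ≠ d := fun h2 => hdB (h2 ▸ he.1)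
    simp only [hf, hf', v5 e e1 e2 e3 e4]
  have i1 : f' '' (insert x A) = insert s(x, d) (f '' (A \ {d})) := by
    ext z
    constructor
    · rintro ⟨e, he, rfl⟩
      rcases he with rfl | he
      · left
        simp only [hf', v1]
      · by_cases h2 : e = d
        · left
          rw [h2]
          simp only [hf', v4]
          exact Sym2.eq_swap
        · right
          exact ⟨e, ⟨he, h2⟩, (fA e ⟨he, h2⟩).symm⟩
    · rintro (rfl | ⟨e, he, rfl⟩)
      · exact ⟨x, Or.inl rfl, by simp only [hf', v1]⟩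
      · exact ⟨e, Or.inr he.1, fA e he⟩
  have i2 : f' '' (insert y B) = insert s(y, α d) (f '' (B \ {α d})) := by
    ext z
    constructor
    · rintro ⟨e, he, rfl⟩
      rcases he with rfl | he
      · left
        simp only [hf', v2]
      · by_cases h2 : e = α d
        · left
          rw [h2]
          simp only [hf', v3]
          exact Sym2.eq_swap
        · right
          exact ⟨e, ⟨he, h2⟩, (fB e ⟨he, h2⟩).symm⟩
    · rintro (rfl | ⟨e, he, rfl⟩)
      · exact ⟨y, Or.inl rfl, by simp only [hf', v2]⟩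
      · exact ⟨e, Or.inr he.1, fB e he⟩
  have i0 : f '' (A ∪ B) = insert s(d, α d) (f '' (A \ {d}) ∪ f '' (B \ {α d})) := by
    ext z
    constructor
    · rintro ⟨e, he, rfl⟩
      rcases he with he | he
      · by_cases h2 : e = d
        · left
          rw [h2]
        · right
          exact Or.inl ⟨e, ⟨he, h2⟩, rfl⟩
      · by_cases h2 : e = α d
        · left
          rw [h2]
          simp only [hf, h.1 d]
          exact Sym2.eq_swap
        · right
          exact Or.inr ⟨e, ⟨he, h2⟩, rfl⟩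
    · rintro (rfl | ⟨e, he, rfl⟩ | ⟨e, he, rfl⟩)
      · exact ⟨d, Or.inl hdA, rfl⟩
      · exact ⟨e, Or.inl he.1, rfl⟩
      · exact ⟨e, Or.inr he.1, rfl⟩
  have m1 : s(x, d) ∉ f '' (A \ {d}) := by
    rintro ⟨e, he, h2⟩
    have h3 : x ∈ s(e, α e) := by
      have h4 : s(e, α e) = s(x, d) := h2
      rw [h4]
      exact Sym2.mem_mk_left _ _
    rcases Sym2.mem_iff.1 h3 with h4 | h4
    · exact hxA (h4 ▸ he.1)
    · have h5 : e = x := by rw [← h.1 e, ← h4, hαx]
      exact hxA (h5 ▸ he.1)
  have m2 : s(y, α d) ∉ f '' (B \ {α d}) := by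
    rintro ⟨e, he, h2⟩
    have h3 : y ∈ s(e, α e) := by
      have h4 : s(e, α e) = s(y, α d) := h2
      rw [h4]
      exact Sym2.mem_mk_left _ _
    rcases Sym2.mem_iff.1 h3 with h4 | h4
    · exact hyB (h4 ▸ he.1)
    · have h5 : e = y := by rw [← h.1 e, ← h4, hαy]
      exact hyB (h5 ▸ he.1)
  have m0 : s(d, α d) ∉ f '' (A \ {d}) ∪ f '' (B \ {α d}) := by
    rintro (⟨e, he, h2⟩ | ⟨e, he, h2⟩)
    · have h3 : e ∈ s(d, α d) := by
        have h4 : s(e, α e) = s(d, α d) := h2
        rw [← h4]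
        exact Sym2.mem_mk_left _ _
      rcases Sym2.mem_iff.1 h3 with h4 | h4
      · exact he.2 h4
      · exact hbA (h4 ▸ he.1)
    · have h3 : e ∈ s(d, α d) := by
        have h4 : s(e, α e) = s(d, α d) := h2
        rw [← h4]
        exact Sym2.mem_mk_left _ _
      rcases Sym2.mem_iff.1 h3 with h4 | h4
      · exact hdB (h4 ▸ he.1)
      · exact he.2 h4
  have md : Disjoint (f '' (A \ {d})) (f '' (B \ {α d})) := by
    rw [Set.disjoint_left]
    rintro z ⟨e, he, rfl⟩ ⟨e', he', h2⟩
    have h4 : s(e', α e') = s(e, α e) := h2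
    have h3 : e' ∈ s(e, α e) := by
      rw [← h4]
      exact Sym2.mem_mk_left _ _
    rcases Sym2.mem_iff.1 h3 with h5 | h5
    · exact hAB e he.1 (h5 ▸ he'.1)
    · have e1 : e ≠ x := fun h2 => hxA (h2 ▸ he.1)
      have e2 : e ≠ y := fun h2 => hyA (h2 ▸ he.1)
      have e3 : e ≠ α d := fun h2 => hbA (h2 ▸ he.1)
      have h6 := hs e ((hcyc e).2.1.2 (Or.inr he.1))
      apply h6
      rw [v5 e e1 e2 e3 he.2, ← h5]
      exact (hcyc e').2.2.2 (Or.inr he'.1)
  unfold est
  rw [s0, s1, s2]
  show (f' '' (insert x A)).ncard + (f' '' (insert y B)).ncard = (f '' (A ∪ B)).ncard + 1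
  rw [i0, i1, i2, Set.ncard_insert_of_notMem m1 (Set.toFinite _),
    Set.ncard_insert_of_notMem m2 (Set.toFinite _), Set.ncard_insert_of_notMem m0 (Set.toFinite _),
    Set.ncard_union_eq md (Set.toFinite _) (Set.toFinite _)]
  omega

end UN39
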