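import Mathlib
import Pool.Agent.H39.HG.Defs
import Pool.Agent.H39.UN.Num
import Pool.Agent.H39.UN.Pol
import Pool.Agent.H39.UN.RedA
import Pool.Agent.H39.UN.ConA
import Pool.Agent.H39.UN.ConB
import Pool.Agent.H39.UN.Prd
import Pool.Agent.H39.UN.Rec
import Pool.Agent.H39.UN.Est

/-!
[H39 UN MRKA]  (MP_bcc40c_pr)  `cntm k a c` = generating polynomial of the connected gluings of `c` with `est c α a = k`.

PROOFS.  cntm_perm, cntm_rot: Mt_perm, vt_perm, Conn_perm, est_perm, rot_all, est_rot.  cntm_zero: est_pos.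
prd_m: as prd_sum of PRD (reindex `β = β1 * β2` by prd_mt, prd_ex, prd_inj, prd_vt, prd_conn), with the additional condition `est (c1 ++ c2) β a = k`,
`a ∈ c2.flatten`: for `β = β1 * β2`, `est (c1 ++ c2) β a = est c2 β2 a` (the `σ`-cycle of `a ∈ c2.flatten` stays in `c2.flatten`, where
`polys (c1 ++ c2) * β = polys c2 * β2` and `β = β2`).
-/

set_option autoImplicit false

namespace UN39

open Equiv HG39 Polynomial

variable {D : Type} [Fintype D] [DecidableEq D]

open Classical in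
/-- connected gluings with `k` edges at the starting vertex of `a` -/
noncomputable def cntm (k : ℕ) (a : D) (c : List (List D)) : Polynomial ℕ :=
  ∑ α : Perm D, if Mt c α ∧ Conn c α ∧ est c α a = k then X ^ vt c α else 0

theorem cntm_perm (k : ℕ) (a : D) {c c' : List (List D)} (h : c.Perm c') (hn : c.flatten.Nodup) :
    cntm k a c = cntm k a c' := by
  classical
  unfold cntm
  refine Finset.sum_congr rfl fun α _ => ?_
  obtain ⟨h1, h2, h3⟩ := inv_perm h hn α
  rw [h2, est_perm h hn α a]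
  exact if_congr (and_congr h1 (and_congr h3 Iff.rfl)) rfl rfl

theorem cntm_rot (k : ℕ) (a : D) {l1 l2 : List D} {c : List (List D)}
    (hn : (l1 ++ l2).Nodup) : cntm k a ((l1 ++ l2) :: c) = cntm k a ((l2 ++ l1) :: c) := by
  classical
  unfold cntm
  refine Finset.sum_congr rfl fun α _ => ?_
  obtain ⟨_, h1, h2, h3⟩ := rot_all (c := c) hn α
  rw [h2, est_rot hn α a]
  exact if_congr (and_congr h1 (and_congr h3 Iff.rfl)) rfl rfl

theorem cntm_zero (a : D) (c : List (List D)) : cntm 0 a c = 0 := by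
  unfold cntm
  refine Finset.sum_eq_zero fun α _ => if_neg ?_
  rintro ⟨_, _, h⟩
  have := est_pos c α a
  omega

theorem est_prd {c1 c2 : List (List D)} (hn : (c1 ++ c2).flatten.Nodup) {β1 β2 : Perm D}
    (h1 : Mt c1 β1) (h2 : Mt c2 β2) {a : D} (ha : a ∈ c2.flatten) :
    est (c1 ++ c2) (β1 * β2) a = est c2 β2 a := by
  have hF : ∀ d ∈ c2.flatten, (polys (c1 ++ c2) * (β1 * β2)) d = (polys c2 * β2) d ∧
      (polys c2 * β2) d ∈ c2.flatten := by
    intro d hd
    have h3 := Mt_pres h2 d hd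
    have h4 := polys_mem h3
    have h5 : (polys c2 * β2) d = polys c2 (β2 d) := rfl
    have h6 : (polys (c1 ++ c2) * (β1 * β2)) d = polys c1 (polys c2 (β2 d)) := by
      rw [Perm.mul_apply, act2 hn h1 h2 hd, polys_append, Perm.mul_apply]
    rw [h5, h6]
    refine ⟨?_, h4⟩
    apply polys_notMem
    intro h7
    exact two_disj hn _ h7 h4
  have hpow : ∀ n : ℕ, ((polys (c1 ++ c2) * (β1 * β2)) ^ n) a = ((polys c2 * β2) ^ n) a ∧
      ((polys c2 * β2) ^ n) a ∈ c2.flatten := by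
    intro n
    induction n with
    | zero => exact ⟨rfl, ha⟩
    | succ n ih =>
      rw [pow_succ', pow_succ', Perm.mul_apply, Perm.mul_apply (polys c2 * β2), ih.1]
      exact hF _ ih.2
  have hset : {d | (polys (c1 ++ c2) * (β1 * β2)).SameCycle a d} =
      {d | (polys c2 * β2).SameCycle a d} := by
    ext d
    constructor
    · intro hd
      obtain ⟨n, hn'⟩ := Perm.SameCycle.exists_nat_pow_eq hd
      refine ⟨(n : ℤ), ?_⟩
      rw [zpow_natCast, ← (hpow n).1]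
      exact hn'
    · intro hd
      obtain ⟨n, hn'⟩ := Perm.SameCycle.exists_nat_pow_eq hd
      refine ⟨(n : ℤ), ?_⟩
      rw [zpow_natCast, (hpow n).1]
      exact hn'
  unfold est
  rw [hset]
  congr 1
  refine Set.image_congr fun d hd => ?_
  obtain ⟨n, hn'⟩ := Perm.SameCycle.exists_nat_pow_eq hd
  have h3 : d ∈ c2.flatten := by
    rw [← hn']
    exact (hpow n).2
  rw [act2 hn h1 h2 h3]

open Classical in
theorem prd_m (k : ℕ) {a : D} {c1 c2 : List (List D)} (hn : (c1 ++ c2).flatten.Nodup)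
    (ha : a ∈ c2.flatten) :
    (∑ β : Perm D, if Mt (c1 ++ c2) β ∧ (∀ d ∈ c1.flatten, β d ∈ c1.flatten) ∧
      Conn c1 β ∧ Conn c2 β ∧ est (c1 ++ c2) β a = k
      then (X : Polynomial ℕ) ^ vt (c1 ++ c2) β else 0) =
    cnt c1 * cntm k a c2 := by
  unfold cnt cntm
  rw [Finset.sum_mul_sum, ← Finset.sum_product', ← Finset.sum_filter]
  have h1 : ∀ p ∈ (Finset.univ : Finset (Perm D)) ×ˢ (Finset.univ : Finset (Perm D)),
      ((if Mt c1 p.1 ∧ Conn c1 p.1 then (X : Polynomial ℕ) ^ vt c1 p.1 else 0) *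
        if Mt c2 p.2 ∧ Conn c2 p.2 ∧ est c2 p.2 a = k then (X : Polynomial ℕ) ^ vt c2 p.2 else 0) =
      if (Mt c1 p.1 ∧ Conn c1 p.1) ∧ (Mt c2 p.2 ∧ Conn c2 p.2 ∧ est c2 p.2 a = k) then
        (X : Polynomial ℕ) ^ (vt c1 p.1 + vt c2 p.2) else 0 := by
    intro p _
    by_cases h2 : Mt c1 p.1 ∧ Conn c1 p.1
    · by_cases h3 : Mt c2 p.2 ∧ Conn c2 p.2 ∧ est c2 p.2 a = k
      · rw [if_pos h2, if_pos h3, if_pos ⟨h2, h3⟩, pow_add]
      · rw [if_neg h3, mul_zero, if_neg (fun h4 => h3 h4.2)]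
    · rw [if_neg h2, zero_mul, if_neg (fun h4 => h2 h4.1)]
  rw [Finset.sum_congr rfl h1, ← Finset.sum_filter]
  symm
  refine Finset.sum_bij (fun p _ => p.1 * p.2) ?_ ?_ ?_ ?_
  · intro p hp
    rw [Finset.mem_filter] at hp
    obtain ⟨_, ⟨hm1, hc1⟩, hm2, hc2, he⟩ := hp
    rw [Finset.mem_filter]
    have h2 := prd_mt hn hm1 hm2
    have h3 := prd_conn hn hm1 hm2
    refine ⟨Finset.mem_univ _, h2.1, h2.2, h3.1.1 hc1, h3.2.1 hc2, ?_⟩
    rw [est_prd hn hm1 hm2 ha]
    exact he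
  · intro p hp q hq hpq
    rw [Finset.mem_filter] at hp hq
    have h2 := prd_inj hn hp.2.1.1 hp.2.2.1 hq.2.1.1 hq.2.2.1 hpq
    exact Prod.ext h2.1 h2.2
  · intro β hβ
    rw [Finset.mem_filter] at hβ
    obtain ⟨_, hm, hp, hc1, hc2, he⟩ := hβ
    obtain ⟨β1, β2, hm1, hm2, rfl⟩ := prd_ex hn hm hp
    have h3 := prd_conn hn hm1 hm2
    rw [est_prd hn hm1 hm2 ha] at he
    refine ⟨(β1, β2), ?_, rfl⟩
    rw [Finset.mem_filter]
    exact ⟨Finset.mem_product.2 ⟨Finset.mem_univ _, Finset.mem_univ _⟩,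
      ⟨hm1, h3.1.2 hc1⟩, hm2, h3.2.2 hc2, he⟩
  · intro p hp
    rw [Finset.mem_filter] at hp
    rw [prd_vt hn hp.2.1.1 hp.2.2.1]

end UN39
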