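import Mathlib
import Pool.Agent.H39.HG.Defs
import Pool.Agent.H39.UN.Num
import Pool.Agent.H39.UN.Pol
import Pool.Agent.H39.UN.RedA
import Pool.Agent.H39.UN.ConA
import Pool.Agent.H39.UN.ConB
import Pool.Agent.H39.UN.Prd
import Pool.Agent.H39.UN.Rec
import Pool.Agent.H39.UN.HKd
import Pool.Agent.H39.UN.Est
import Pool.Agent.H39.UN.MrkA

/-!
[H39 UN MRKB]  (MP_bcc40c_pr)  Removal of the first glued pair, with the number of edges at the marked vertex.

PROOFS.
recAm: as recA of REC.  `l2 = a' :: l2'`: reindex by `β = swap a b * α` (redA_mt, redA_inv), est_A: the condition `est = k + 1` becomes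
`est (l1 :: (a' :: l2) :: cs) β a' = k`; conA; the first part is `cntm k a' (l1 :: (a' :: l2) :: cs)`, for `p ∈ splits cs` the list `l1 :: (a' :: l2) :: cs` is a
permutation of `(l1 :: p.1) ++ ((a' :: l2) :: p.2)` (splits_perm; Mt_perm, vt_perm, est_perm), prd_m.  recAm0: `l2 = []`: est_A0: the condition is
`k + 1 = 1`; so for `k = 0` the sum is the one of recA, where `cnt (l1 :: [] :: cs) = 0` (Conn needs length one if there is an empty polygon) and
`cnt ([] :: p.2)` is `X` for `p.2 = []` and `0` otherwise; for `k > 0` it is 0.  In both cases it is `∑_p cnt (l1 :: p.1) * HK k (0 :: p.2.map length)`.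
recBm: est_B, conB, redB_mt, redB_inv, redB_vt; marked dart = head of `(m2 ++ m1) ++ l`.
-/

set_option autoImplicit false

namespace UN39

open Equiv HG39 Polynomial

variable {D : Type} [Fintype D] [DecidableEq D]

theorem mrkb_hn {a b : D} {l1 l2 : List D} {cs : List (List D)}
    (hn : ((a :: (l1 ++ b :: l2)) :: cs).flatten.Nodup) : (l1 :: l2 :: cs).flatten.Nodup := by
  have hn' := hn
  simp only [List.flatten_cons, List.cons_append, List.nodup_cons, List.mem_append, List.mem_cons,
    List.append_assoc, List.nodup_append, not_or] at hn'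
  obtain ⟨⟨ha1, ha2, ha3, ha4⟩, hl1, ⟨⟨hb1, hb2⟩, hl2, hcs, hd2⟩, hd1⟩ := hn'
  simp only [List.flatten_cons, List.nodup_append, List.mem_append]
  refine ⟨hl1, ⟨hl2, hcs, hd2⟩, ?_⟩
  intro x hx y hy
  exact hd1 x hx y (Or.inr hy)

open Classical in
theorem recAm (k : ℕ) {a b a' : D} {l1 l2 : List D} {cs : List (List D)}
    (hn : ((a :: (l1 ++ b :: a' :: l2)) :: cs).flatten.Nodup) :
    (∑ α : Perm D, if α a = b ∧ Mt ((a :: (l1 ++ b :: a' :: l2)) :: cs) α ∧
      Conn ((a :: (l1 ++ b :: a' :: l2)) :: cs) α ∧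
      est ((a :: (l1 ++ b :: a' :: l2)) :: cs) α a = k + 1
      then (X : Polynomial ℕ) ^ vt ((a :: (l1 ++ b :: a' :: l2)) :: cs) α else 0) =
    cntm k a' (l1 :: (a' :: l2) :: cs) +
      ((splits cs).map fun p => cnt (l1 :: p.1) * cntm k a' ((a' :: l2) :: p.2)).sum := by
  have hn2 : (l1 :: (a' :: l2) :: cs).flatten.Nodup := mrkb_hn hn
  rw [← Equiv.sum_comp (Equiv.mulLeft (swap a b))]
  have hterm : ∀ β ∈ (Finset.univ : Finset (Perm D)),
      (if (Equiv.mulLeft (swap a b)) β a = b ∧
          Mt ((a :: (l1 ++ b :: a' :: l2)) :: cs) ((Equiv.mulLeft (swap a b)) β) ∧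
          Conn ((a :: (l1 ++ b :: a' :: l2)) :: cs) ((Equiv.mulLeft (swap a b)) β) ∧
          est ((a :: (l1 ++ b :: a' :: l2)) :: cs) ((Equiv.mulLeft (swap a b)) β) a = k + 1
        then (X : Polynomial ℕ) ^ vt ((a :: (l1 ++ b :: a' :: l2)) :: cs)
          ((Equiv.mulLeft (swap a b)) β)
        else 0) =
      (if Mt (l1 :: (a' :: l2) :: cs) β ∧ Conn (l1 :: (a' :: l2) :: cs) β ∧
          est (l1 :: (a' :: l2) :: cs) β a' = k then
          (X : Polynomial ℕ) ^ vt (l1 :: (a' :: l2) :: cs) β else 0) +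
        ((splits cs).map fun p => if Mt (l1 :: (a' :: l2) :: cs) β ∧ TC l1 (a' :: l2) p β ∧
          est (l1 :: (a' :: l2) :: cs) β a' = k then
          (X : Polynomial ℕ) ^ vt (l1 :: (a' :: l2) :: cs) β else 0).sum := by
    intro β _
    rw [Equiv.coe_mulLeft]
    have hss : swap a b * (swap a b * β) = β := by
      rw [← mul_assoc, swap_mul_self, one_mul]
    by_cases hM : Mt (l1 :: (a' :: l2) :: cs) β
    · obtain ⟨h1, h2⟩ := redA_inv hn hM
      have h3 := redA_vt hn h1 h2
      have h4 := conA hn h1 h2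
      have h6 := est_A hn h1 h2
      rw [hss] at h3 h4 h6
      by_cases hk : est (l1 :: (a' :: l2) :: cs) β a' = k
      · have h5 := congrArg
          (fun n : ℕ => n • (X : Polynomial ℕ) ^ vt (l1 :: (a' :: l2) :: cs) β) h4
        simp only [add_smul, ind_smul, ite_smul, one_smul, zero_smul] at h5
        rw [hk] at h6
        simp only [h1, h2, h3, h6, hk, hM, true_and, and_true]
        exact h5
      · have hk2 : est ((a :: (l1 ++ b :: a' :: l2)) :: cs) (swap a b * β) a ≠ k + 1 := by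
          rw [h6]
          omega
        rw [if_neg (fun h => hk2 h.2.2.2), if_neg (fun h => hk h.2.2), zero_add]
        have h7 : ((splits cs).map fun p => if Mt (l1 :: (a' :: l2) :: cs) β ∧
            TC l1 (a' :: l2) p β ∧ est (l1 :: (a' :: l2) :: cs) β a' = k then
            (X : Polynomial ℕ) ^ vt (l1 :: (a' :: l2) :: cs) β else 0) =
            (splits cs).map fun _ => 0 :=
          List.map_congr_left fun p _ => if_neg (fun h => hk h.2.2)
        rw [h7]
        simp
    · have h1 : ¬ ((swap a b * β) a = b ∧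
          Mt ((a :: (l1 ++ b :: a' :: l2)) :: cs) (swap a b * β) ∧
          Conn ((a :: (l1 ++ b :: a' :: l2)) :: cs) (swap a b * β) ∧
          est ((a :: (l1 ++ b :: a' :: l2)) :: cs) (swap a b * β) a = k + 1) := by
        rintro ⟨h2, h3, _⟩
        apply hM
        have h4 := redA_mt hn h3 h2
        rw [hss] at h4
        exact h4
      rw [if_neg h1, if_neg (fun h2 => hM h2.1), zero_add]
      have h2 : ((splits cs).map fun p => if Mt (l1 :: (a' :: l2) :: cs) β ∧
            TC l1 (a' :: l2) p β ∧ est (l1 :: (a' :: l2) :: cs) β a' = k then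
            (X : Polynomial ℕ) ^ vt (l1 :: (a' :: l2) :: cs) β else 0) =
            (splits cs).map fun _ => 0 :=
        List.map_congr_left fun p _ => if_neg (fun h3 => hM h3.1)
      rw [h2]
      simp
  rw [Finset.sum_congr rfl hterm, Finset.sum_add_distrib]
  congr 1
  · rw [sum_list_swap]
    congr 1
    refine List.map_congr_left fun p hp => ?_
    have hpp := splits_perm hp
    have hperm : (l1 :: (a' :: l2) :: cs).Perm ((l1 :: p.1) ++ ((a' :: l2) :: p.2)) := by
      rw [List.cons_append]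
      refine List.Perm.cons _ ?_
      exact ((hpp.symm).cons (a' :: l2)).trans (List.perm_middle.symm)
    have hn3 : ((l1 :: p.1) ++ ((a' :: l2) :: p.2)).flatten.Nodup :=
      (List.Perm.flatten hperm).nodup_iff.1 hn2
    rw [← prd_m k (a := a') hn3 (by simp)]
    refine Finset.sum_congr rfl fun β _ => ?_
    obtain ⟨h1, h2, _⟩ := inv_perm hperm hn2 β
    rw [h2, est_perm hperm hn2 β a']
    refine if_congr (and_congr h1 ?_) rfl rfl
    unfold TC
    simp only [and_assoc]

open Classical in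
theorem recAm0 (k : ℕ) {a b : D} {l1 : List D} {cs : List (List D)}
    (hn : ((a :: (l1 ++ [b])) :: cs).flatten.Nodup) :
    (∑ α : Perm D, if α a = b ∧ Mt ((a :: (l1 ++ [b])) :: cs) α ∧
      Conn ((a :: (l1 ++ [b])) :: cs) α ∧ est ((a :: (l1 ++ [b])) :: cs) α a = k + 1
      then (X : Polynomial ℕ) ^ vt ((a :: (l1 ++ [b])) :: cs) α else 0) =
    ((splits cs).map fun p => cnt (l1 :: p.1) * HK k (0 :: p.2.map List.length)).sum := by
  rcases k with _ | k
  · have h1 : (∑ α : Perm D, if α a = b ∧ Mt ((a :: (l1 ++ [b])) :: cs) α ∧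
        Conn ((a :: (l1 ++ [b])) :: cs) α ∧ est ((a :: (l1 ++ [b])) :: cs) α a = 0 + 1
        then (X : Polynomial ℕ) ^ vt ((a :: (l1 ++ [b])) :: cs) α else 0) =
        ∑ α : Perm D, if α a = b ∧ Mt ((a :: (l1 ++ [b])) :: cs) α ∧
        Conn ((a :: (l1 ++ [b])) :: cs) α
        then (X : Polynomial ℕ) ^ vt ((a :: (l1 ++ [b])) :: cs) α else 0 := by
      refine Finset.sum_congr rfl fun α _ => if_congr ?_ rfl rfl
      constructor
      · rintro ⟨h2, h3, h4, _⟩
        exact ⟨h2, h3, h4⟩
      · rintro ⟨h2, h3, h4⟩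
        exact ⟨h2, h3, h4, est_A0 hn h3 h2⟩
    have hn2 : (l1 :: [] :: cs).flatten.Nodup := mrkb_hn hn
    have h2 : cnt (l1 :: [] :: cs) = 0 := by
      rw [cnt_perm (List.Perm.swap [] l1 cs) hn2, cnt_zero, if_neg (List.cons_ne_nil _ _)]
    rw [h1, recA hn, h2, zero_add]
    congr 1
    refine List.map_congr_left fun p _ => ?_
    rw [cnt_zero, HK_zero_zero]
    congr 1
    refine if_congr ?_ rfl rfl
    rw [List.map_eq_nil_iff]
  · have h1 : ∀ α ∈ (Finset.univ : Finset (Perm D)),
        (if α a = b ∧ Mt ((a :: (l1 ++ [b])) :: cs) α ∧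
        Conn ((a :: (l1 ++ [b])) :: cs) α ∧ est ((a :: (l1 ++ [b])) :: cs) α a = k + 1 + 1
        then (X : Polynomial ℕ) ^ vt ((a :: (l1 ++ [b])) :: cs) α else 0) = 0 := by
      intro α _
      refine if_neg ?_
      rintro ⟨h2, h3, _, h5⟩
      rw [est_A0 hn h3 h2] at h5
      omega
    rw [Finset.sum_congr rfl h1, Finset.sum_const_zero]
    have h2 : ((splits cs).map fun p => cnt (l1 :: p.1) * HK (k + 1) (0 :: p.2.map List.length)) =
        (splits cs).map fun _ => 0 :=
      List.map_congr_left fun p _ => by rw [HK_succ_zero, mul_zero]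
    rw [h2]
    simp

open Classical in
theorem recBm (k : ℕ) {a b a' : D} {l m1 m2 r : List D} {cs : List (List D)}
    (hn : ((a :: l) :: (m1 ++ b :: m2) :: cs).flatten.Nodup)
    (hr : (m2 ++ m1) ++ l = a' :: r) :
    (∑ α : Perm D, if α a = b ∧ Mt ((a :: l) :: (m1 ++ b :: m2) :: cs) α ∧
      Conn ((a :: l) :: (m1 ++ b :: m2) :: cs) α ∧
      est ((a :: l) :: (m1 ++ b :: m2) :: cs) α a = k + 1
      then (X : Polynomial ℕ) ^ vt ((a :: l) :: (m1 ++ b :: m2) :: cs) α else 0) =
    cntm k a' ((l ++ (m2 ++ m1)) :: cs) := by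
  rw [← Equiv.sum_comp (Equiv.mulLeft (swap a b))]
  unfold cntm
  refine Finset.sum_congr rfl fun β _ => ?_
  rw [Equiv.coe_mulLeft]
  have hss : swap a b * (swap a b * β) = β := by
    rw [← mul_assoc, swap_mul_self, one_mul]
  by_cases hM : Mt ((l ++ (m2 ++ m1)) :: cs) β
  · obtain ⟨h1, h2⟩ := redB_inv hn hM
    have h3 := redB_vt hn h1 h2
    have h4 := conB hn h1 h2
    have h6 := est_B hn h1 h2 hr
    rw [hss] at h3 h4 h6
    simp only [h1, h2, h3, h4, h6, hM, true_and, Nat.add_right_cancel_iff]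
  · rw [if_neg, if_neg (fun h2 => hM h2.1)]
    rintro ⟨h2, h3, _⟩
    apply hM
    have h4 := redB_mt hn h3 h2
    rw [hss] at h4
    exact h4

end UN39
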