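import Mathlib
import Pool.Agent.H39.HG.Defs
import Pool.Agent.H39.UN.Num
import Pool.Agent.H39.UN.Pol
import Pool.Agent.H39.UN.RedA
import Pool.Agent.H39.UN.ConA
import Pool.Agent.H39.UN.ConB
import Pool.Agent.H39.UN.Prd
import Pool.Agent.H39.UN.Rec
import Pool.Agent.H39.UN.HKd
import Pool.Agent.H39.UN.Est
import Pool.Agent.H39.UN.MrkA
import Pool.Agent.H39.UN.MrkB

/-!
[H39 UN MRK]  (MP_bcc40c_pr)  The number of connected gluings with exactly `k` edges at the starting vertex of the first side is `HK k`.

PROOF of cntm_eq: induction on `k` for all lists `c = (a :: t) :: cs`; `k = 0`: both sides 0 (cntm_zero).  `k + 1`: split the sum over `b = α a` exactly as in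
the proof of cnt_eq (REC).  Same polygon: `t = l1 ++ b :: l2`, `i = l1.length`, `t.length = p + 1`, `l2.length = p - i`: for `l2 = a' :: l2'` recAm,
the induction hypothesis for `cntm k a' ((a' :: l2') :: ..)` (first use cntm_perm to put `a' :: l2'` in front) and cnt_eq for the other factor:
`HK k ((p-i) :: i :: L) + ∑_s K (i :: s.1) HK k ((p-i) :: s.2)`, `L = cs.map length` (splits_map); for `l2 = []` recAm0 (`HK k (0 :: i :: L) = 0`).
Two polygons `m = m1 ++ b :: m2` of `cs` (picks, as in cnt_eq; cntm_perm to bring `m` to the second place): if `m2 ++ m1 ++ t ≠ []` recBm; the induction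
hypothesis after rotating the merged polygon `t ++ (m2 ++ m1)` to `(m2 ++ m1) ++ t = a' :: r` (cntm_rot); its length is `t.length + m.length - 1`, i.e.
`p + q` for `t.length = p + 1`, `q - 1` for `t = []` (`q = m.length`).  If `m2 ++ m1 ++ t = []` (two 1-gons `[a]`, `[b]`): est_B0, redB, conB: the sum is
`cnt ([] :: cs')` for `k = 0` and `0` for `k > 0`, which is `HK k (0 :: ..)`.
-/

set_option autoImplicit false

namespace UN39

open Equiv HG39 Polynomial

variable {D : Type} [Fintype D] [DecidableEq D]

open Classical in
/-- the gluings with `α a = b` and `k` edges at the starting vertex of `a` -/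
noncomputable def Gabm (k : ℕ) (c : List (List D)) (a b : D) : Polynomial ℕ :=
  ∑ α : Perm D, if α a = b ∧ Mt c α ∧ Conn c α ∧ est c α a = k then (X : Polynomial ℕ) ^ vt c α else 0

theorem Gabm_perm (k : ℕ) {c c' : List (List D)} (h : c.Perm c') (hn : c.flatten.Nodup) (a b : D) :
    Gabm k c a b = Gabm k c' a b := by
  classical
  unfold Gabm
  refine Finset.sum_congr rfl fun α _ => ?_
  obtain ⟨h1, h2, h3⟩ := inv_perm h hn α
  have h4 := est_perm h hn α a
  rw [h2, h4]
  exact if_congr (and_congr Iff.rfl (and_congr h1 (and_congr h3 Iff.rfl))) rfl rfl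

theorem cntm_Gabm (k : ℕ) {a : D} {t : List D} {cs : List (List D)}
    (hn : ((a :: t) :: cs).flatten.Nodup) :
    cntm k a ((a :: t) :: cs) =
      (t.map (Gabm k ((a :: t) :: cs) a)).sum + (cs.flatten.map (Gabm k ((a :: t) :: cs) a)).sum := by
  classical
  rw [← List.sum_append, ← List.map_append]
  have hn2 : (t ++ cs.flatten).Nodup := by
    rw [List.flatten_cons, List.cons_append, List.nodup_cons] at hn
    exact hn.2
  rw [← List.sum_toFinset _ hn2]
  have h1 : ∀ b ∈ (Finset.univ : Finset D), b ∉ (t ++ cs.flatten).toFinset →
      Gabm k ((a :: t) :: cs) a b = 0 := by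
    intro b _ hb
    rw [List.mem_toFinset] at hb
    unfold Gabm
    refine Finset.sum_eq_zero fun α _ => if_neg ?_
    rintro ⟨h2, h3, _⟩
    have haF : a ∈ ((a :: t) :: cs).flatten := by simp
    have h4 := Mt_pres h3 a haF
    have h5 := h3.2.1 a haF
    rw [h2] at h4 h5
    rw [List.flatten_cons, List.cons_append, List.mem_cons] at h4
    rcases h4 with h4 | h4
    · exact h5 h4
    · exact hb h4
  rw [Finset.sum_subset (Finset.subset_univ _) h1]
  unfold Gabm cntm
  rw [Finset.sum_comm]
  refine Finset.sum_congr rfl fun α _ => ?_
  rw [Finset.sum_eq_single (α a)]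
  · refine if_congr ?_ rfl rfl
    rw [eq_self_iff_true, true_and]
  · intro b _ hb
    exact if_neg (fun h2 => hb h2.1.symm)
  · intro h2
    exact absurd (Finset.mem_univ _) h2

theorem HK_zero_cons (k i : ℕ) (L : List ℕ) : HK k (0 :: i :: L) = 0 := by
  rcases k with _ | k
  · rw [HK, if_neg (by simp)]
  · rw [HK]

theorem cntm_eq (k : ℕ) (a : D) (t : List D) (cs : List (List D))
    (hn : ((a :: t) :: cs).flatten.Nodup) :
    cntm k a ((a :: t) :: cs) = HK k ((t.length + 1) :: cs.map List.length) := by
  classical
  induction k generalizing a t cs with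
  | zero =>
    rw [cntm_zero, HK]
  | succ k ih =>
    have hfirst : (t.map (Gabm (k + 1) ((a :: t) :: cs) a)).sum =
        ∑ i ∈ Finset.range t.length, (HK k ((t.length - 1 - i) :: i :: cs.map List.length) +
          ((splits (cs.map List.length)).map fun p =>
            K (i :: p.1) * HK k ((t.length - 1 - i) :: p.2)).sum) := by
      refine sum_first _ (fun i j => HK k (j :: i :: cs.map List.length) +
          ((splits (cs.map List.length)).map fun p => K (i :: p.1) * HK k (j :: p.2)).sum) ?_
      intro l1 b l2 ht
      subst ht
      have hn2 : (l1 :: l2 :: cs).flatten.Nodup := by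
        have hn' := hn
        simp only [List.flatten_cons, List.cons_append, List.nodup_cons, List.mem_append,
          List.mem_cons, List.append_assoc, List.nodup_append, not_or] at hn'
        obtain ⟨⟨ha1, ha2, ha3, ha4⟩, hl1, ⟨⟨hb1, hb2⟩, hl2, hcs, hd2⟩, hd1⟩ := hn'
        simp only [List.flatten_cons, List.nodup_append, List.mem_append]
        refine ⟨hl1, ⟨hl2, hcs, hd2⟩, ?_⟩
        intro x hx y hy
        exact hd1 x hx y (Or.inr hy)
      have hsub : ∀ p ∈ splits cs, (l1 :: p.1).flatten.Nodup ∧ (l2 :: p.2).flatten.Nodup := by
        intro p hp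
        have hpp := splits_perm hp
        have hperm : (l1 :: l2 :: cs).Perm ((l1 :: p.1) ++ (l2 :: p.2)) := by
          rw [List.cons_append]
          refine List.Perm.cons _ ?_
          exact ((hpp.symm).cons l2).trans (List.perm_middle.symm)
        have hn3 : ((l1 :: p.1) ++ (l2 :: p.2)).flatten.Nodup := (List.Perm.flatten hperm).nodup_iff.1 hn2
        rw [List.flatten_append, List.nodup_append] at hn3
        exact ⟨hn3.1, hn3.2.1⟩
      unfold Gabm
      rcases l2 with _ | ⟨a', l2⟩
      · rw [recAm0 k hn]
        simp only [List.length_nil]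
        rw [HK_zero_cons, zero_add, splits_map, List.map_map]
        congr 1
        refine List.map_congr_left fun p hp => ?_
        rw [cnt_eq (l1 :: p.1) (hsub p hp).1]
        rfl
      · rw [recAm k hn]
        congr 1
        · have hperm : (l1 :: (a' :: l2) :: cs).Perm ((a' :: l2) :: l1 :: cs) := List.Perm.swap _ _ _
          rw [cntm_perm k a' hperm hn2, ih a' l2 (l1 :: cs) ((List.Perm.flatten hperm).nodup_iff.1 hn2)]
          rfl
        · rw [splits_map, List.map_map]
          congr 1
          refine List.map_congr_left fun p hp => ?_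
          rw [cnt_eq (l1 :: p.1) (hsub p hp).1, ih a' l2 p.2 (hsub p hp).2]
          rfl
    have hsecond : (cs.flatten.map (Gabm (k + 1) ((a :: t) :: cs) a)).sum =
        ((picks (cs.map List.length)).map fun p => p.1 • HK k ((t.length + p.1 - 1) :: p.2)).sum := by
      rw [sum_second, picks_map, List.map_map]
      congr 1
      refine List.map_congr_left fun p hp => ?_
      have hpp := picks_perm hp
      have hconst : ∀ b ∈ p.1, Gabm (k + 1) ((a :: t) :: cs) a b =
          HK k ((t.length + p.1.length - 1) :: p.2.map List.length) := by
        intro b hb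
        obtain ⟨m1, m2, hm⟩ := List.append_of_mem hb
        have hperm : ((a :: t) :: cs).Perm ((a :: t) :: (m1 ++ b :: m2) :: p.2) := by
          rw [← hm]
          exact (hpp.symm).cons _
        rw [Gabm_perm (k + 1) hperm hn]
        have hn2 : ((a :: t) :: (m1 ++ b :: m2) :: p.2).flatten.Nodup :=
          (List.Perm.flatten hperm).nodup_iff.1 hn
        have hn3 : ((t ++ (m2 ++ m1)) :: p.2).flatten.Nodup := by
          have hn' := hn2
          simp only [List.flatten_cons, List.cons_append, List.nodup_cons, List.mem_append,
            List.mem_cons, List.append_assoc, List.nodup_append, not_or] at hn'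
          obtain ⟨⟨ha1, ha2, ha3, ha4, ha5⟩, hl, ⟨hm1, ⟨⟨hb1, hb2⟩, hm2, hcs, hd3⟩, hd2⟩, hd1⟩ := hn'
          simp only [List.flatten_cons, List.nodup_append, List.mem_append]
          refine ⟨⟨hl, ⟨hm2, hm1, ?_⟩, ?_⟩, hcs, ?_⟩
          · intro x hx y hy hxy
            exact hd2 y hy x (Or.inr (Or.inl hx)) hxy.symm
          · rintro x hx y (hy | hy)
            · exact hd1 x hx y (Or.inr (Or.inr (Or.inl hy)))
            · exact hd1 x hx y (Or.inl hy)
          · rintro x (hx | hx | hx) y hy
            · exact hd1 x hx y (Or.inr (Or.inr (Or.inr hy)))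
            · exact hd3 x hx y hy
            · exact hd2 x hx y (Or.inr (Or.inr hy))
        rcases hr : (m2 ++ m1) ++ t with _ | ⟨a', r⟩
        · -- two polygons with one side
          have h1 := List.append_eq_nil_iff.1 hr
          have h2 := List.append_eq_nil_iff.1 h1.1
          have ht0 : t = [] := h1.2
          have hm1 : m1 = [] := h2.2
          have hm2 : m2 = [] := h2.1
          subst ht0
          subst hm1
          subst hm2
          rw [List.nil_append] at hn2 ⊢
          rw [List.nil_append] at hm
          rw [hm]
          have hG : Gabm (k + 1) ([a] :: [b] :: p.2) a b = if k = 0 then Gab ([a] :: [b] :: p.2) a b else 0 := by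
            unfold Gabm Gab
            split_ifs with hk
            · subst hk
              refine Finset.sum_congr rfl fun α _ => if_congr ?_ rfl rfl
              constructor
              · rintro ⟨e1, e2, e3, _⟩
                exact ⟨e1, e2, e3⟩
              · rintro ⟨e1, e2, e3⟩
                exact ⟨e1, e2, e3, est_B0 hn2 e2 e1⟩
            · refine Finset.sum_eq_zero fun α _ => if_neg ?_
              rintro ⟨e1, e2, e3, e4⟩
              rw [est_B0 hn2 e2 e1] at e4
              omega
          rw [hG]
          have hcnt : Gab ([a] :: [b] :: p.2) a b = cnt (([] : List D) :: p.2) := by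
            unfold Gab
            have h3 := recB (a := a) (b := b) (l := []) (m1 := []) (m2 := []) (cs := p.2) hn2
            simpa using h3
          rw [hcnt, cnt_zero]
          simp only [List.length_nil, List.length_singleton]
          rcases k with _ | k
          · rw [if_pos rfl, HK]
            refine if_congr ?_ rfl rfl
            rw [List.map_eq_nil_iff]
          · rw [if_neg (by omega), HK]
        · unfold Gabm
          rw [recBm k hn2 hr]
          have hnt : (t ++ (m2 ++ m1)).Nodup := by
            rw [List.flatten_cons, List.nodup_append] at hn3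
            exact hn3.1
          rw [cntm_rot k a' hnt, hr]
          have hn4 : ((a' :: r) :: p.2).flatten.Nodup := by
            rw [← hr]
            have hperm2 : (((m2 ++ m1) ++ t) :: p.2).flatten.Perm (((t ++ (m2 ++ m1)) :: p.2).flatten) := by
              rw [List.flatten_cons, List.flatten_cons]
              exact List.Perm.append_right _ List.perm_append_comm
            exact hperm2.nodup_iff.2 hn3
          rw [ih a' r p.2 hn4]
          congr 2
          have hlen := congrArg List.length hr
          rw [hm]
          simp only [List.length_append, List.length_cons] at hlen ⊢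
          omega
      rw [List.map_congr_left hconst, List.map_const', List.sum_replicate]
      rfl
    rw [cntm_Gabm (k + 1) hn, hfirst, hsecond]
    rcases ht : t.length with _ | n
    · rw [Finset.range_zero, Finset.sum_empty, zero_add, zero_add, HK]
      congr 1
      refine List.map_congr_left fun p _ => ?_
      rw [zero_add]
    · rw [HK]
      congr 1
      congr 1
      refine List.map_congr_left fun p _ => ?_
      have h2 : n + 1 + p.1 - 1 = n + p.1 := by omega
      rw [h2]

end UN39
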