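import Mathlib
import Pool.Agent.H39.HG.Defs
import Pool.Agent.H39.UN.Num
import Pool.Agent.H39.UN.Pol
import Pool.Agent.H39.UN.RedA
import Pool.Agent.H39.UN.ConA
import Pool.Agent.H39.UN.Prd
import Pool.Agent.H39.UN.Rec
import Pool.Agent.H39.UN.HKd
import Pool.Agent.H39.UN.Est
import Pool.Agent.H39.UN.Mrk
import Pool.Agent.H39.UN.Vid
import Pool.Agent.H39.UN.LcutA
import Pool.Agent.H39.UN.LcutC
import Pool.Agent.H39.UN.LcutE

/-!
[H39 UN LCUTB]  (MP_bcc40c_pr)  The number of loop darts with `k` edges at their vertex.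

`NL k c = ∑_α #{d loop dart, est = k} X^(vt c α)` over the connected gluings `α` of `c`.
Claim: `X * NL k c = ∑_{k' ≤ k+1} ∑_{s ∈ splits c} HK k' (1 :: |s.1|) HK (k+1-k') (1 :: |s.2|) + E k`, with `∑_k E k ≤ K (1 :: 1 :: |c|)`.

PROOF.  Reindex the pairs `(α, d)`, `d` a loop dart, by `β = cutL α d x y` (cut_mt, join_mt, cut_loop): these are the gluings `β` of
`[x] :: [y] :: c` with `β x ≠ y`, `x`, `y` not in the same cycle of `polys c * β`, such that `joinL β x y` is a connected gluing of `c`.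
`vt` goes up by one (cut_vt).  Connectivity (`c ≠ []`, `[] ∉ c`): `Conn c (joinL β x y)` iff every nonempty set closed under `polys c` and
`β` contains `x` or `y` (a closed set for `(c, α)` corresponds to a closed set for `β` containing both or none of `x`, `y`: closedness
under `α` at `d`, `α d` versus under `β` at `x`, `y`, `d`, `α d`).  So there are two cases:
(1) `Conn ([x] :: [y] :: c) β`: put all these pairs into `E k` (`E k = ∑_β X^vt` over the `β` of this kind which come from a pair with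
`est = k`); the `E k` belong to different `β`, so `∑_{k<κ} E k ≤ cnt ([x] :: [y] :: c) = K (1 :: 1 :: |c|)` coefficientwise (cnt_eq).
(2) the closed set generated by `x` does not contain `y`: then there is exactly one `s ∈ splits c` (counted with multiplicity, split_unique)
with `β` = a connected gluing of `[x] :: s.1` times a connected gluing of `[y] :: s.2` (TC [x] [y] s β): exactly as in the proof of conA.
Automatically `β x ≠ y`, `x`, `y` in different cycles, and the hypothesis of cut_est holds (the two sets of darts are closed under `β`), so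
`est = k` iff `est β x + est β y = k + 1`; both est may be computed inside the components (as in prd_m).  Sum over `β = β1 * β2` (prd_mt,
prd_ex, prd_inj, prd_vt): `∑_{k'+k''=k+1} cntm k' x ([x] :: s.1) * cntm k'' y ([y] :: s.2)`, and cntm_eq.
Conversely for such a `β` the gluing `joinL β x y` is connected.
-/

set_option autoImplicit false

namespace UN39

open Equiv HG39 Polynomial

variable {D : Type} [Fintype D] [DecidableEq D]

open Classical in
/-- loop darts with `k` edges at their vertex -/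
noncomputable def NL (k : ℕ) (c : List (List D)) : Polynomial ℕ :=
  ∑ α : Perm D, if Mt c α ∧ Conn c α then
    (c.flatten.toFinset.filter fun d => Lp c α d ∧ est c α d = k).card • X ^ vt c α else 0

/-- cycles inside a closed set -/
theorem lcb_same {π π' : Perm D} {S : D → Prop} (h1 : ∀ d, S d → S (π d))
    (h2 : ∀ d, S d → π d = π' d) {x e : D} (hx : S x) :
    (π.SameCycle x e ↔ π'.SameCycle x e) ∧ (π.SameCycle x e → S e) := by
  have key : ∀ n : ℕ, S ((π ^ n) x) ∧ (π ^ n) x = (π' ^ n) x := by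
    intro n
    induction n with
    | zero => exact ⟨hx, rfl⟩
    | succ n ih =>
      have e1 : (π ^ (n + 1)) x = π ((π ^ n) x) := by
        rw [pow_succ']
        rfl
      have e2 : (π' ^ (n + 1)) x = π' ((π' ^ n) x) := by
        rw [pow_succ']
        rfl
      rw [e1, e2, ← ih.2]
      exact ⟨h1 _ ih.1, h2 _ ih.1⟩
  refine ⟨⟨?_, ?_⟩, ?_⟩
  · intro h
    obtain ⟨n, -, hn⟩ := h.exists_pow_eq'
    rw [← hn, (key n).2]
    exact ⟨n, by rw [zpow_natCast]⟩
  · intro h
    obtain ⟨n, -, hn⟩ := h.exists_pow_eq'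
    rw [← hn, ← (key n).2]
    exact ⟨n, by rw [zpow_natCast]⟩
  · intro h
    obtain ⟨n, -, hn⟩ := h.exists_pow_eq'
    rw [← hn]
    exact (key n).1

theorem lcb_est {c c' : List (List D)} {β β' : Perm D} {S : D → Prop}
    (h1 : ∀ d, S d → S (polys c (β d))) (h2 : ∀ d, S d → polys c (β d) = polys c' (β' d))
    (h3 : ∀ d, S d → β d = β' d) {x : D} (hx : S x) : est c β x = est c' β' x := by
  have h4 : ∀ d, ((polys c * β).SameCycle x d ↔ (polys c' * β').SameCycle x d) ∧
      ((polys c * β).SameCycle x d → S d) := fun d =>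
    lcb_same (π := polys c * β) (π' := polys c' * β') h1 h2 hx
  unfold est
  congr 1
  ext z
  constructor
  · rintro ⟨d, hd, rfl⟩
    refine ⟨d, (h4 d).1.1 hd, ?_⟩
    simp only
    rw [h3 d ((h4 d).2 hd)]
  · rintro ⟨d, hd, rfl⟩
    have h5 := (h4 d).1.2 hd
    refine ⟨d, h5, ?_⟩
    simp only
    rw [h3 d ((h4 d).2 h5)]

open Classical in
/-- products of gluings, with the numbers of edges at two marked vertices -/
theorem lcb_prd (k k' : ℕ) {x y : D} {c1 c2 : List (List D)} (hn : (c1 ++ c2).flatten.Nodup)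
    (hx : x ∈ c1.flatten) (hy : y ∈ c2.flatten) :
    (∑ β : Perm D, if Mt (c1 ++ c2) β ∧ (∀ d ∈ c1.flatten, β d ∈ c1.flatten) ∧
      Conn c1 β ∧ Conn c2 β ∧ est (c1 ++ c2) β x = k ∧ est (c1 ++ c2) β y = k'
      then (X : Polynomial ℕ) ^ vt (c1 ++ c2) β else 0) =
    cntm k x c1 * cntm k' y c2 := by
  have hest1 : ∀ β1 β2 : Perm D, Mt c1 β1 → Mt c2 β2 →
      est (c1 ++ c2) (β1 * β2) x = est c1 β1 x := by
    intro β1 β2 hm1 hm2
    have h3 : ∀ d, d ∈ c1.flatten → polys (c1 ++ c2) ((β1 * β2) d) = polys c1 (β1 d) := by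
      intro d hd
      rw [act1 hn hm2 hd, polys_append, Perm.mul_apply,
        polys_notMem (two_disj hn _ (Mt_pres hm1 d hd))]
    refine lcb_est (S := fun d => d ∈ c1.flatten) ?_ h3 (fun d hd => act1 hn hm2 hd) hx
    intro d hd
    rw [h3 d hd]
    exact polys_mem (Mt_pres hm1 d hd)
  have hest2 : ∀ β1 β2 : Perm D, Mt c1 β1 → Mt c2 β2 →
      est (c1 ++ c2) (β1 * β2) y = est c2 β2 y := by
    intro β1 β2 hm1 hm2
    have h3 : ∀ d, d ∈ c2.flatten → polys (c1 ++ c2) ((β1 * β2) d) = polys c2 (β2 d) := by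
      intro d hd
      rw [act2 hn hm1 hm2 hd, polys_append, Perm.mul_apply, polys_notMem]
      intro h4
      exact two_disj hn _ h4 (polys_mem (Mt_pres hm2 d hd))
    refine lcb_est (S := fun d => d ∈ c2.flatten) ?_ h3 (fun d hd => act2 hn hm1 hm2 hd) hy
    intro d hd
    rw [h3 d hd]
    exact polys_mem (Mt_pres hm2 d hd)
  unfold cntm
  rw [Finset.sum_mul_sum, ← Finset.sum_product', ← Finset.sum_filter]
  have h1 : ∀ p ∈ (Finset.univ : Finset (Perm D)) ×ˢ (Finset.univ : Finset (Perm D)),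
      ((if Mt c1 p.1 ∧ Conn c1 p.1 ∧ est c1 p.1 x = k then (X : Polynomial ℕ) ^ vt c1 p.1 else 0) *
        if Mt c2 p.2 ∧ Conn c2 p.2 ∧ est c2 p.2 y = k' then
          (X : Polynomial ℕ) ^ vt c2 p.2 else 0) =
      if (Mt c1 p.1 ∧ Conn c1 p.1 ∧ est c1 p.1 x = k) ∧
          (Mt c2 p.2 ∧ Conn c2 p.2 ∧ est c2 p.2 y = k') then
        (X : Polynomial ℕ) ^ (vt c1 p.1 + vt c2 p.2) else 0 := by
    intro p _
    by_cases h2 : Mt c1 p.1 ∧ Conn c1 p.1 ∧ est c1 p.1 x = k
    · by_cases h3 : Mt c2 p.2 ∧ Conn c2 p.2 ∧ est c2 p.2 y = k'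
      · rw [if_pos h2, if_pos h3, if_pos ⟨h2, h3⟩, pow_add]
      · rw [if_neg h3, mul_zero, if_neg (fun h4 => h3 h4.2)]
    · rw [if_neg h2, zero_mul, if_neg (fun h4 => h2 h4.1)]
  rw [Finset.sum_congr rfl h1, ← Finset.sum_filter]
  symm
  refine Finset.sum_bij (fun p _ => p.1 * p.2) ?_ ?_ ?_ ?_
  · intro p hp
    rw [Finset.mem_filter] at hp
    obtain ⟨_, ⟨hm1, hc1, he1⟩, hm2, hc2, he2⟩ := hp
    rw [Finset.mem_filter]
    have h2 := prd_mt hn hm1 hm2
    have h3 := prd_conn hn hm1 hm2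
    exact ⟨Finset.mem_univ _, h2.1, h2.2, h3.1.1 hc1, h3.2.1 hc2,
      (hest1 _ _ hm1 hm2).trans he1, (hest2 _ _ hm1 hm2).trans he2⟩
  · intro p hp q hq hpq
    rw [Finset.mem_filter] at hp hq
    have h2 := prd_inj hn hp.2.1.1 hp.2.2.1 hq.2.1.1 hq.2.2.1 hpq
    exact Prod.ext h2.1 h2.2
  · intro β hβ
    rw [Finset.mem_filter] at hβ
    obtain ⟨_, hm, hp, hc1, hc2, he1, he2⟩ := hβ
    obtain ⟨β1, β2, hm1, hm2, rfl⟩ := prd_ex hn hm hp
    have h3 := prd_conn hn hm1 hm2
    refine ⟨(β1, β2), ?_, rfl⟩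
    rw [Finset.mem_filter]
    exact ⟨Finset.mem_product.2 ⟨Finset.mem_univ _, Finset.mem_univ _⟩,
      ⟨hm1, h3.1.2 hc1, (hest1 _ _ hm1 hm2).symm.trans he1⟩, hm2, h3.2.2 hc2,
      (hest2 _ _ hm1 hm2).symm.trans he2⟩
  · intro p hp
    rw [Finset.mem_filter] at hp
    rw [prd_vt hn hp.2.1.1 hp.2.2.1]

/-- connectedness before the cut -/
theorem lcb_conn {c : List (List D)} {x y : D} (he : [] ∉ c) (hc : c ≠ [])
    (hx : x ∉ c.flatten) (hy : y ∉ c.flatten) (hxy : x ≠ y) {α : Perm D} (h : Mt c α) {d : D}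
    (hd : d ∈ c.flatten) :
    Conn c α ↔ ∀ e ∈ ([x] :: [y] :: c).flatten,
      Ac ([x] :: [y] :: c) (cutL α d x y) [x] e ∨ Ac ([x] :: [y] :: c) (cutL α d x y) [y] e := by
  obtain ⟨hαx, hαy, hdx, hdy, hbx, hby, hbd, hb⟩ := cut_facts hx hy h hd
  obtain ⟨v1, v2, v3, v4, v5⟩ := cut_val hαx hαy hxy hdx hdy hbx hby hbd h.1
  have hcl1 := cl_Ac ([x] :: [y] :: c) (cutL α d x y) [x]
  have hcl2 := cl_Ac ([x] :: [y] :: c) (cutL α d x y) [y]
  have hAx : Ac ([x] :: [y] :: c) (cutL α d x y) [x] x :=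
    ⟨x, List.mem_singleton_self _, Rl_refl _ _ _⟩
  have hAy : Ac ([x] :: [y] :: c) (cutL α d x y) [y] y :=
    ⟨y, List.mem_singleton_self _, Rl_refl _ _ _⟩
  have hAd : Ac ([x] :: [y] :: c) (cutL α d x y) [x] d := by
    have h1 := hcl1.2 x hAx
    rwa [v1] at h1
  have hAb : Ac ([x] :: [y] :: c) (cutL α d x y) [y] (α d) := by
    have h1 := hcl2.2 y hAy
    rwa [v2] at h1
  constructor
  · intro hC e hee
    rw [Conn_iff] at hC
    rcases mem_two.1 hee with h1 | h1 | h1
    · rw [h1]
      exact Or.inl hAx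
    · rw [h1]
      exact Or.inr hAy
    · refine hC.2.2 d hd e h1 (fun e => Ac ([x] :: [y] :: c) (cutL α d x y) [x] e ∨
        Ac ([x] :: [y] :: c) (cutL α d x y) [y] e) ⟨?_, ?_⟩ (Or.inl hAd)
      · intro z hz
        rw [← polys_two c x y]
        rcases hz with hz | hz
        · exact Or.inl (hcl1.1 z hz)
        · exact Or.inr (hcl2.1 z hz)
      · intro z hz
        by_cases h2 : z = x
        · rw [h2, hαx]
          exact Or.inl hAx
        by_cases h3 : z = y
        · rw [h3, hαy]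
          exact Or.inr hAy
        by_cases h4 : z = α d
        · rw [h4, h.1]
          exact Or.inl hAd
        by_cases h5 : z = d
        · rw [h5]
          exact Or.inr hAb
        rw [← v5 z h2 h3 h4 h5]
        rcases hz with hz | hz
        · exact Or.inl (hcl1.2 z hz)
        · exact Or.inr (hcl2.2 z hz)
  · intro hall
    rw [Conn_iff]
    refine ⟨hc, Or.inr he, ?_⟩
    have key : ∀ e ∈ c.flatten, Rl (polys c) α d e := by
      intro e hee S hS hSd
      have hSb : S (α d) := hS.2 d hSd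
      have hS' : Cl (polys ([x] :: [y] :: c)) (cutL α d x y) (fun z => S z ∨ z = x ∨ z = y) := by
        constructor
        · intro z hz
          rw [polys_two]
          rcases hz with hz | hz | hz
          · exact Or.inl (hS.1 z hz)
          · rw [hz, polys_notMem hx]
            exact Or.inr (Or.inl rfl)
          · rw [hz, polys_notMem hy]
            exact Or.inr (Or.inr rfl)
        · intro z hz
          by_cases h2 : z = x
          · rw [h2, v1]
            exact Or.inl hSd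
          by_cases h3 : z = y
          · rw [h3, v2]
            exact Or.inl hSb
          by_cases h4 : z = α d
          · rw [h4, v3]
            exact Or.inr (Or.inr rfl)
          by_cases h5 : z = d
          · rw [h5, v4]
            exact Or.inr (Or.inl rfl)
          rw [v5 z h2 h3 h4 h5]
          rcases hz with hz | hz | hz
          · exact Or.inl (hS.2 z hz)
          · exact absurd hz h2
          · exact absurd hz h3
      have h1 : S e ∨ e = x ∨ e = y := by
        rcases hall e (mem_two.2 (Or.inr (Or.inr hee))) with h1 | h1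
        · refine Ac_min hS' ?_ h1
          intro z hz
          exact Or.inr (Or.inl (List.mem_singleton.1 hz))
        · refine Ac_min hS' ?_ h1
          intro z hz
          exact Or.inr (Or.inr (List.mem_singleton.1 hz))
      rcases h1 with h1 | h1 | h1
      · exact h1
      · exact absurd (h1 ▸ hee) hx
      · exact absurd (h1 ▸ hee) hy
    intro e hee f hf
    exact Rl_trans (Rl_symm (key e hee)) (key f hf)

theorem lcb_nodup {c : List (List D)} {x y : D} (hn : c.flatten.Nodup) (hx : x ∉ c.flatten)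
    (hy : y ∉ c.flatten) (hxy : x ≠ y) : ([x] :: [y] :: c).flatten.Nodup := by
  rw [List.flatten_cons, List.flatten_cons, List.singleton_append, List.singleton_append,
    List.nodup_cons, List.nodup_cons, List.mem_cons, not_or]
  exact ⟨⟨hxy, hx⟩, hy, hn⟩

open Classical in
/-- the components after the cut -/
theorem lcb_ind {c : List (List D)} {x y : D} (hn : c.flatten.Nodup) (he : [] ∉ c) (hc : c ≠ [])
    (hx : x ∉ c.flatten) (hy : y ∉ c.flatten) (hxy : x ≠ y) {α : Perm D} (h : Mt c α) {d : D}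
    (hd : d ∈ c.flatten) :
    (if Conn c α then (1 : ℕ) else 0) =
      (if Conn ([x] :: [y] :: c) (cutL α d x y) then 1 else 0) +
      ((splits c).map fun p => if TC [x] [y] p (cutL α d x y) then 1 else 0).sum := by
  have hMt := (cut_mt hx hy hxy h hd).1
  have hn2 := lcb_nodup hn hx hy hxy
  rw [lcb_conn he hc hx hy hxy h hd, conn_small hn2]
  by_cases hall : ∀ e ∈ ([x] :: [y] :: c).flatten,
      Ac ([x] :: [y] :: c) (cutL α d x y) [x] e ∨ Ac ([x] :: [y] :: c) (cutL α d x y) [y] e
  · rw [if_pos hall]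
    by_cases hdj : ∀ e, Ac ([x] :: [y] :: c) (cutL α d x y) [x] e →
        ¬ Ac ([x] :: [y] :: c) (cutL α d x y) [y] e
    · rw [if_neg (fun h1 => h1.2.2 hdj), zero_add]
      have h1 : ((splits c).map fun p => if TC [x] [y] p (cutL α d x y) then (1 : ℕ) else 0) =
          (splits c).map fun p =>
            if (∀ m ∈ p.1, ∃ e ∈ m, Ac ([x] :: [y] :: c) (cutL α d x y) [x] e) ∧
              (∀ m ∈ p.2, ¬ ∃ e ∈ m, Ac ([x] :: [y] :: c) (cutL α d x y) [x] e)
            then (1 : ℕ) else 0 := by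
        refine List.map_congr_left fun p hp => ?_
        refine if_congr ?_ rfl rfl
        rw [TC_iff hn2 hMt he hp]
        exact and_iff_right ⟨hall, hdj⟩
      rw [h1]
      exact (split_unique c fun m =>
        ∃ e ∈ m, Ac ([x] :: [y] :: c) (cutL α d x y) [x] e).symm
    · rw [if_pos ⟨he, hall, hdj⟩]
      have h1 : ((splits c).map fun p => if TC [x] [y] p (cutL α d x y) then (1 : ℕ) else 0) =
          (splits c).map fun _ => 0 := by
        refine List.map_congr_left fun p hp => if_neg ?_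
        rw [TC_iff hn2 hMt he hp]
        exact fun h2 => hdj h2.1.2
      rw [h1]
      simp
  · rw [if_neg hall, if_neg (fun h1 => hall h1.2.1)]
    have h1 : ((splits c).map fun p => if TC [x] [y] p (cutL α d x y) then (1 : ℕ) else 0) =
        (splits c).map fun _ => 0 := by
      refine List.map_congr_left fun p hp => if_neg ?_
      rw [TC_iff hn2 hMt he hp]
      exact fun h2 => hall h2.1.1
    rw [h1]
    simp

theorem lcb_perm {c : List (List D)} {x y : D} {p : List (List D) × List (List D)}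
    (hp : p ∈ splits c) : ([x] :: [y] :: c).Perm (([x] :: p.1) ++ ([y] :: p.2)) := by
  have hpp := splits_perm hp
  rw [List.cons_append]
  refine List.Perm.cons _ ?_
  exact ((hpp.symm).cons [y]).trans (List.perm_middle.symm)

/-- the cycles of `x` and `y` for a gluing with two components -/
theorem lcb_tc {c : List (List D)} {x y : D} (hn2 : ([x] :: [y] :: c).flatten.Nodup)
    {p : List (List D) × List (List D)} (hp : p ∈ splits c) {β : Perm D}
    (hM : Mt ([x] :: [y] :: c) β) (hT : TC [x] [y] p β) :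
    (∀ e, (polys c * β).SameCycle x e → e ∈ ([x] :: p.1).flatten) ∧
    (∀ e, (polys c * β).SameCycle y e → e ∈ ([y] :: p.2).flatten) ∧
    (∀ e ∈ ([x] :: p.1).flatten, β e ∈ ([x] :: p.1).flatten) ∧
    (∀ e ∈ ([x] :: p.1).flatten, e ∉ ([y] :: p.2).flatten) := by
  have hperm := lcb_perm (x := x) (y := y) hp
  have hn3 : (([x] :: p.1) ++ ([y] :: p.2)).flatten.Nodup :=
    (List.Perm.flatten hperm).nodup_iff.1 hn2
  have hπ : polys c = polys ([x] :: p.1) * polys ([y] :: p.2) := by
    rw [← polys_append, ← polys_perm hperm hn2, polys_two]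
  have hdis := two_disj hn3
  have hcl1 := hT.1
  have hM3 : Mt (([x] :: p.1) ++ ([y] :: p.2)) β := (Mt_perm hperm β).1 hM
  have hcl2 : ∀ e ∈ ([y] :: p.2).flatten, β e ∈ ([y] :: p.2).flatten := by
    intro e hee
    have h1 : e ∈ (([x] :: p.1) ++ ([y] :: p.2)).flatten := by
      rw [List.flatten_append]
      exact List.mem_append_right _ hee
    have h2 := Mt_pres hM3 e h1
    rw [List.flatten_append] at h2
    rcases List.mem_append.1 h2 with h3 | h3
    · have h4 := hcl1 _ h3
      rw [hM3.1] at h4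
      exact absurd hee (hdis e h4)
    · exact h3
  have h1 : ∀ e, e ∈ ([x] :: p.1).flatten → (polys c * β) e ∈ ([x] :: p.1).flatten := by
    intro e hee
    rw [Perm.mul_apply, hπ, Perm.mul_apply, polys_notMem (hdis _ (hcl1 e hee))]
    exact polys_mem (hcl1 e hee)
  have h2 : ∀ e, e ∈ ([y] :: p.2).flatten → (polys c * β) e ∈ ([y] :: p.2).flatten := by
    intro e hee
    have h3 := polys_mem (hcl2 e hee)
    rw [Perm.mul_apply, hπ, Perm.mul_apply, polys_notMem (c := [x] :: p.1)]
    · exact h3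
    · intro h4
      exact hdis _ h4 h3
  refine ⟨fun e hee => ?_, fun e hee => ?_, hcl1, hdis⟩
  · exact (lcb_same (π := polys c * β) (π' := polys c * β) (S := fun e => e ∈ ([x] :: p.1).flatten)
      h1 (fun _ _ => rfl) (by simp)).2 hee
  · exact (lcb_same (π := polys c * β) (π' := polys c * β) (S := fun e => e ∈ ([y] :: p.2).flatten)
      h2 (fun _ _ => rfl) (by simp)).2 hee

open Classical in
/-- the sum over the pairs with two given components -/
theorem lcb_T {c : List (List D)} {x y : D} (hn : c.flatten.Nodup)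
    (hx : x ∉ c.flatten) (hy : y ∉ c.flatten) (hxy : x ≠ y)
    {p : List (List D) × List (List D)} (hp : p ∈ splits c) (k : ℕ) :
    (∑ q ∈ (Finset.univ : Finset (Perm D)) ×ˢ c.flatten.toFinset,
      if Mt c q.1 ∧ Lp c q.1 q.2 ∧ est c q.1 q.2 = k ∧ TC [x] [y] p (cutL q.1 q.2 x y) then
        (X : Polynomial ℕ) ^ vt ([x] :: [y] :: c) (cutL q.1 q.2 x y) else 0) =
    ∑ k' ∈ Finset.range (k + 2), HK k' (1 :: p.1.map List.length) *
      HK (k + 1 - k') (1 :: p.2.map List.length) := by
  have hn2 := lcb_nodup hn hx hy hxy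
  have hperm := lcb_perm (x := x) (y := y) hp
  have hn3 : (([x] :: p.1) ++ ([y] :: p.2)).flatten.Nodup :=
    (List.Perm.flatten hperm).nodup_iff.1 hn2
  have hyF : y ∈ ([y] :: p.2).flatten := by simp
  have hxF : x ∈ ([x] :: p.1).flatten := by simp
  -- the number of edges
  have hest : ∀ (α : Perm D) (d : D), Mt c α → d ∈ c.flatten → Lp c α d →
      TC [x] [y] p (cutL α d x y) →
      est ([x] :: [y] :: c) (cutL α d x y) x + est ([x] :: [y] :: c) (cutL α d x y) y =
        est c α d + 1 := by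
    intro α d h hd hl hT
    obtain ⟨t1, t2, t3, t4⟩ := lcb_tc hn2 hp (cut_mt hx hy hxy h hd).1 hT
    refine cut_est hx hy hxy h hd hl fun e hee hee2 => ?_
    exact t4 _ (t3 e (t1 e hee)) (t2 _ hee2)
  have h1 : (∑ q ∈ (Finset.univ : Finset (Perm D)) ×ˢ c.flatten.toFinset,
      if Mt c q.1 ∧ Lp c q.1 q.2 ∧ est c q.1 q.2 = k ∧ TC [x] [y] p (cutL q.1 q.2 x y) then
        (X : Polynomial ℕ) ^ vt ([x] :: [y] :: c) (cutL q.1 q.2 x y) else 0) =
      ∑ β : Perm D, if Mt ([x] :: [y] :: c) β ∧ TC [x] [y] p β ∧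
        est ([x] :: [y] :: c) β x + est ([x] :: [y] :: c) β y = k + 1 then
        (X : Polynomial ℕ) ^ vt ([x] :: [y] :: c) β else 0 := by
    rw [← Finset.sum_filter, ← Finset.sum_filter]
    refine Finset.sum_nbij' (fun q => cutL q.1 q.2 x y) (fun β => (joinL β x y, β x)) ?_ ?_ ?_ ?_ ?_
    · intro q hq
      rw [Finset.mem_filter, Finset.mem_product, List.mem_toFinset] at hq
      obtain ⟨⟨_, hd⟩, hM, hl, hk, hT⟩ := hq
      rw [Finset.mem_filter]
      refine ⟨Finset.mem_univ _, (cut_mt hx hy hxy hM hd).1, hT, ?_⟩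
      rw [hest q.1 q.2 hM hd hl hT, hk]
    · intro β hβ
      rw [Finset.mem_filter] at hβ
      obtain ⟨_, hM, hT, hk⟩ := hβ
      obtain ⟨t1, t2, t3, t4⟩ := lcb_tc hn2 hp hM hT
      have h2 : β x ≠ y := by
        intro h3
        apply t4 _ (t3 x hxF)
        rw [h3]
        exact hyF
      obtain ⟨j1, j2, j3, j4⟩ := join_mt hx hy hxy hM h2
      have hl : Lp c (joinL β x y) (β x) := by
        rw [cut_loop hx hy hxy j1 j2, j4, polys_two]
        intro h3
        exact t4 y (t1 y h3) hyF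
      have h5 := hest (joinL β x y) (β x) j1 j2 hl (by rw [j4]; exact hT)
      rw [j4] at h5
      rw [Finset.mem_filter, Finset.mem_product, List.mem_toFinset]
      refine ⟨⟨Finset.mem_univ _, j2⟩, j1, hl, ?_, ?_⟩
      · change est c (joinL β x y) (β x) = k
        omega
      · change TC [x] [y] p (cutL (joinL β x y) (β x) x y)
        rw [j4]
        exact hT
    · intro q hq
      rw [Finset.mem_filter, Finset.mem_product, List.mem_toFinset] at hq
      obtain ⟨⟨_, hd⟩, hM, _⟩ := hq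
      obtain ⟨c1, c2, c3, c4⟩ := cut_mt hx hy hxy hM hd
      exact Prod.ext c4 c2
    · intro β hβ
      rw [Finset.mem_filter] at hβ
      obtain ⟨_, hM, hT, hk⟩ := hβ
      obtain ⟨t1, t2, t3, t4⟩ := lcb_tc hn2 hp hM hT
      have h2 : β x ≠ y := by
        intro h3
        apply t4 _ (t3 x hxF)
        rw [h3]
        exact hyF
      exact (join_mt hx hy hxy hM h2).2.2.2
    · intro q hq
      rfl
  rw [h1]
  have h2 : ∀ β ∈ (Finset.univ : Finset (Perm D)),
      (if Mt ([x] :: [y] :: c) β ∧ TC [x] [y] p β ∧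
        est ([x] :: [y] :: c) β x + est ([x] :: [y] :: c) β y = k + 1 then
        (X : Polynomial ℕ) ^ vt ([x] :: [y] :: c) β else 0) =
      ∑ k' ∈ Finset.range (k + 2), if Mt ([x] :: [y] :: c) β ∧ TC [x] [y] p β ∧
        est ([x] :: [y] :: c) β x = k' ∧ est ([x] :: [y] :: c) β y = k + 1 - k' then
        (X : Polynomial ℕ) ^ vt ([x] :: [y] :: c) β else 0 := by
    intro β _
    by_cases h3 : est ([x] :: [y] :: c) β x + est ([x] :: [y] :: c) β y = k + 1
    · rw [Finset.sum_eq_single (est ([x] :: [y] :: c) β x)]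
      · refine if_congr ?_ rfl rfl
        refine and_congr Iff.rfl (and_congr Iff.rfl ?_)
        constructor
        · intro _
          exact ⟨rfl, by omega⟩
        · intro _
          exact h3
      · intro k' _ hk'
        exact if_neg fun h4 => hk' h4.2.2.1.symm
      · intro h4
        rw [Finset.mem_range] at h4
        omega
    · rw [if_neg fun h4 => h3 h4.2.2]
      symm
      refine Finset.sum_eq_zero fun k' hk' => if_neg ?_
      rintro ⟨_, _, h5, h6⟩
      rw [Finset.mem_range] at hk'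
      omega
  rw [Finset.sum_congr rfl h2, Finset.sum_comm]
  refine Finset.sum_congr rfl fun k' _ => ?_
  have h4 := lcb_prd k' (k + 1 - k') hn3 hxF hyF
  have hs1 : ([x] :: p.1).flatten.Nodup := by
    rw [List.flatten_append, List.nodup_append] at hn3
    exact hn3.1
  have hs2 : ([y] :: p.2).flatten.Nodup := by
    rw [List.flatten_append, List.nodup_append] at hn3
    exact hn3.2.1
  have h5 := cntm_eq k' x [] p.1 hs1
  have h6 := cntm_eq (k + 1 - k') y [] p.2 hs2
  rw [List.length_nil, zero_add] at h5 h6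
  rw [h5, h6] at h4
  rw [← h4]
  refine Finset.sum_congr rfl fun β _ => ?_
  obtain ⟨i1, i2, _⟩ := inv_perm hperm hn2 β
  rw [i2, est_perm hperm hn2 β x, est_perm hperm hn2 β y]
  refine if_congr (and_congr i1 ?_) rfl rfl
  unfold TC
  simp only [and_assoc]

open Classical in
theorem lcb_NL {c : List (List D)} {x y : D}
    (hx : x ∉ c.flatten) (hy : y ∉ c.flatten) (hxy : x ≠ y) (k : ℕ) :
    X * NL k c = ∑ q ∈ (Finset.univ : Finset (Perm D)) ×ˢ c.flatten.toFinset,
      if Mt c q.1 ∧ Conn c q.1 ∧ Lp c q.1 q.2 ∧ est c q.1 q.2 = k then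
        (X : Polynomial ℕ) ^ vt ([x] :: [y] :: c) (cutL q.1 q.2 x y) else 0 := by
  unfold NL
  rw [Finset.mul_sum, Finset.sum_product]
  refine Finset.sum_congr rfl fun α _ => ?_
  by_cases hα : Mt c α ∧ Conn c α
  · rw [if_pos hα, mul_smul_comm, ← pow_succ', ← Finset.sum_const]
    rw [← Finset.sum_filter]
    have h1 : c.flatten.toFinset.filter (fun d => Mt c α ∧ Conn c α ∧ Lp c α d ∧ est c α d = k) =
        c.flatten.toFinset.filter (fun d => Lp c α d ∧ est c α d = k) := by
      refine Finset.filter_congr fun d _ => ?_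
      constructor
      · rintro ⟨_, _, h2⟩
        exact h2
      · intro h2
        exact ⟨hα.1, hα.2, h2⟩
    simp only at h1 ⊢
    rw [h1]
    refine Finset.sum_congr rfl fun d hd => ?_
    rw [Finset.mem_filter, List.mem_toFinset] at hd
    rw [cut_vt hx hy hxy hα.1 hd.1 hd.2.1]
  · rw [if_neg hα, mul_zero]
    symm
    exact Finset.sum_eq_zero fun d _ => if_neg fun h2 => hα ⟨h2.1, h2.2.1⟩

open Classical in
/-- the exceptional part -/
noncomputable def lcbE (c : List (List D)) (x y : D) (k : ℕ) : Polynomial ℕ :=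
  ∑ q ∈ (Finset.univ : Finset (Perm D)) ×ˢ c.flatten.toFinset,
    if Mt c q.1 ∧ Lp c q.1 q.2 ∧ est c q.1 q.2 = k ∧
      Conn ([x] :: [y] :: c) (cutL q.1 q.2 x y) then
      (X : Polynomial ℕ) ^ vt ([x] :: [y] :: c) (cutL q.1 q.2 x y) else 0

open Classical in
theorem lcb_E {c : List (List D)} {x y : D} (hn : c.flatten.Nodup)
    (hx : x ∉ c.flatten) (hy : y ∉ c.flatten) (hxy : x ≠ y) (κ v : ℕ) :
    (∑ k ∈ Finset.range κ, lcbE c x y k).coeff v ≤ (K (1 :: 1 :: c.map List.length)).coeff v := by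
  have hn2 := lcb_nodup hn hx hy hxy
  have hK : K (1 :: 1 :: c.map List.length) = cnt ([x] :: [y] :: c) := by
    rw [cnt_eq _ hn2]
    rfl
  rw [hK]
  obtain ⟨P, hP⟩ : ∃ P : Finset (Perm D × D), P =
      ((Finset.univ : Finset (Perm D)) ×ˢ c.flatten.toFinset).filter
        (fun q => Mt c q.1 ∧ Conn ([x] :: [y] :: c) (cutL q.1 q.2 x y)) := ⟨_, rfl⟩
  have h1 : LEp (∑ k ∈ Finset.range κ, lcbE c x y k)
      (∑ q ∈ P, (X : Polynomial ℕ) ^ vt ([x] :: [y] :: c) (cutL q.1 q.2 x y)) := by
    unfold lcbE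
    rw [Finset.sum_comm, hP, Finset.sum_filter]
    refine LEp.sum _ _ _ fun q _ => ?_
    by_cases h2 : Mt c q.1 ∧ Conn ([x] :: [y] :: c) (cutL q.1 q.2 x y)
    · rw [if_pos h2]
      have h3 : (∑ k ∈ Finset.range κ, if Mt c q.1 ∧ Lp c q.1 q.2 ∧ est c q.1 q.2 = k ∧
          Conn ([x] :: [y] :: c) (cutL q.1 q.2 x y) then
          (X : Polynomial ℕ) ^ vt ([x] :: [y] :: c) (cutL q.1 q.2 x y) else 0) =
          if est c q.1 q.2 < κ ∧ Lp c q.1 q.2 then
          (X : Polynomial ℕ) ^ vt ([x] :: [y] :: c) (cutL q.1 q.2 x y) else 0 := by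
        by_cases h4 : est c q.1 q.2 < κ
        · rw [Finset.sum_eq_single (est c q.1 q.2)]
          · refine if_congr ?_ rfl rfl
            constructor
            · rintro ⟨_, h5, _⟩
              exact ⟨h4, h5⟩
            · rintro ⟨_, h5⟩
              exact ⟨h2.1, h5, rfl, h2.2⟩
          · intro k _ hk
            exact if_neg fun h5 => hk h5.2.2.1.symm
          · intro h5
            exact absurd (Finset.mem_range.2 h4) h5
        · rw [if_neg fun h5 => h4 h5.1]
          refine Finset.sum_eq_zero fun k hk => if_neg ?_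
          rintro ⟨_, _, h5, _⟩
          rw [Finset.mem_range] at hk
          omega
      rw [h3]
      split_ifs
      · exact LEp.refl _
      · exact LEp.zero _
    · rw [if_neg h2]
      have h3 : (∑ k ∈ Finset.range κ, if Mt c q.1 ∧ Lp c q.1 q.2 ∧ est c q.1 q.2 = k ∧
          Conn ([x] :: [y] :: c) (cutL q.1 q.2 x y) then
          (X : Polynomial ℕ) ^ vt ([x] :: [y] :: c) (cutL q.1 q.2 x y) else 0) = 0 :=
        Finset.sum_eq_zero fun k _ => if_neg fun h5 => h2 ⟨h5.1, h5.2.2.2⟩
      rw [h3]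
      exact LEp.refl _
  refine (h1 v).trans ?_
  have h2 : (∑ q ∈ P, (X : Polynomial ℕ) ^ vt ([x] :: [y] :: c) (cutL q.1 q.2 x y)) =
      ∑ β ∈ P.image (fun q => cutL q.1 q.2 x y), (X : Polynomial ℕ) ^ vt ([x] :: [y] :: c) β := by
    rw [Finset.sum_image]
    intro q hq q' hq' hqq
    rw [hP, Finset.mem_coe, Finset.mem_filter, Finset.mem_product, List.mem_toFinset] at hq hq'
    obtain ⟨_, c2, _, c4⟩ := cut_mt hx hy hxy hq.2.1 hq.1.2
    obtain ⟨_, c2', _, c4'⟩ := cut_mt hx hy hxy hq'.2.1 hq'.1.2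
    simp only at hqq
    refine Prod.ext ?_ ?_
    · rw [← c4, ← c4', hqq]
    · rw [← c2, ← c2', hqq]
  rw [h2]
  unfold cnt
  rw [← Finset.sum_filter, finsetSum_coeff, finsetSum_coeff]
  refine Finset.sum_le_sum_of_subset ?_
  intro β hβ
  rw [Finset.mem_image] at hβ
  obtain ⟨q, hq, rfl⟩ := hβ
  rw [hP, Finset.mem_filter, Finset.mem_product, List.mem_toFinset] at hq
  rw [Finset.mem_filter]
  exact ⟨Finset.mem_univ _, (cut_mt hx hy hxy hq.2.1 hq.1.2).1, hq.2.2⟩

theorem loops {c : List (List D)} {x y : D} (hn : c.flatten.Nodup) (he : [] ∉ c) (hc : c ≠ [])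
    (hx : x ∉ c.flatten) (hy : y ∉ c.flatten) (hxy : x ≠ y) :
    ∃ E : ℕ → Polynomial ℕ,
      (∀ k, X * NL k c = (∑ k' ∈ Finset.range (k + 2), ((splits (c.map List.length)).map fun s =>
        HK k' (1 :: s.1) * HK (k + 1 - k') (1 :: s.2)).sum) + E k) ∧
      ∀ κ v, (∑ k ∈ Finset.range κ, E k).coeff v ≤ (K (1 :: 1 :: c.map List.length)).coeff v := by
  classical
  refine ⟨lcbE c x y, fun k => ?_, fun κ v => lcb_E hn hx hy hxy κ v⟩
  rw [lcb_NL hx hy hxy k]
  have h1 : ∀ q ∈ (Finset.univ : Finset (Perm D)) ×ˢ c.flatten.toFinset,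
      (if Mt c q.1 ∧ Conn c q.1 ∧ Lp c q.1 q.2 ∧ est c q.1 q.2 = k then
        (X : Polynomial ℕ) ^ vt ([x] :: [y] :: c) (cutL q.1 q.2 x y) else 0) =
      (if Mt c q.1 ∧ Lp c q.1 q.2 ∧ est c q.1 q.2 = k ∧
        Conn ([x] :: [y] :: c) (cutL q.1 q.2 x y) then
        (X : Polynomial ℕ) ^ vt ([x] :: [y] :: c) (cutL q.1 q.2 x y) else 0) +
      ((splits c).map fun p => if Mt c q.1 ∧ Lp c q.1 q.2 ∧ est c q.1 q.2 = k ∧
        TC [x] [y] p (cutL q.1 q.2 x y) then
        (X : Polynomial ℕ) ^ vt ([x] :: [y] :: c) (cutL q.1 q.2 x y) else 0).sum := by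
    intro q hq
    rw [Finset.mem_product, List.mem_toFinset] at hq
    by_cases h2 : Mt c q.1 ∧ Lp c q.1 q.2 ∧ est c q.1 q.2 = k
    · have h3 := lcb_ind hn he hc hx hy hxy h2.1 hq.2
      have h5 := congrArg (fun n : ℕ => n •
        (X : Polynomial ℕ) ^ vt ([x] :: [y] :: c) (cutL q.1 q.2 x y)) h3
      simp only [add_smul, ind_smul, ite_smul, one_smul, zero_smul] at h5
      simp only [h2.1, h2.2.1, h2.2.2, true_and, and_true]
      exact h5
    · rw [if_neg fun h3 => h2 ⟨h3.1, h3.2.2.1, h3.2.2.2⟩,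
        if_neg fun h3 => h2 ⟨h3.1, h3.2.1, h3.2.2.1⟩, zero_add]
      have h3 : ((splits c).map fun p => if Mt c q.1 ∧ Lp c q.1 q.2 ∧ est c q.1 q.2 = k ∧
          TC [x] [y] p (cutL q.1 q.2 x y) then
          (X : Polynomial ℕ) ^ vt ([x] :: [y] :: c) (cutL q.1 q.2 x y) else 0) =
          (splits c).map fun _ => 0 :=
        List.map_congr_left fun p _ => if_neg fun h4 => h2 ⟨h4.1, h4.2.1, h4.2.2.1⟩
      rw [h3]
      simp
  rw [Finset.sum_congr rfl h1, Finset.sum_add_distrib, add_comm]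
  congr 1
  rw [sum_list_swap, splits_map]
  simp only [List.map_map]
  rw [sum_list_swap]
  congr 1
  refine List.map_congr_left fun p hp => ?_
  exact lcb_T hn hx hy hxy hp k

end UN39
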