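import Mathlib
import Pool.Agent.H39.HG.Defs
import Pool.Agent.H39.UN.Num
import Pool.Agent.H39.UN.Pol
import Pool.Agent.H39.UN.Rec
import Pool.Agent.H39.UN.Kk
import Pool.Agent.H39.UN.Ineq
import Pool.Agent.H39.UN.HKd
import Pool.Agent.H39.UN.Est
import Pool.Agent.H39.UN.Mrk
import Pool.Agent.H39.UN.Vid
import Pool.Agent.H39.UN.LcutB

/-!
[H39 UN VNUM]  (MP_bcc40c_pr)  The vertex identity for the numbers (all triangulations with `2 n` triangles and `v` vertices).

PROOF.  Take `D = Fin (6 n + 2)`, `c` = the `2 n` triangles `[3 i, 3 i + 1, 3 i + 2]`, `x = 6 n`, `y = 6 n + 1` (any type with `6n + 2` darts).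
Sum vid_sum over the connected gluings `α` of `c` with `vt c α = v`: the number of them is the coefficient of `X^v` in
`cnt c = K (3^(2n))` (cnt_eq), which is `(2n)! 3^(2n) * bc n v / (6 n)`, because `kk [3] (2n-1) = 3 (2n) kk [] (2n)` (kk_three) and
`kk [3] (2n-1) = bb n` (bb_three).  `∑_α #{d : est = k}` = sum over `d ∈ c.flatten` of the coefficient of `cntm k d c`; rotate and permute so that
`d` comes first (cntm_rot, cntm_perm): it is the coefficient of `HK k (3 :: 3^(2n-1))` for each of the `6 n` darts; normalised: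
`6 n * HK k (3 :: 3^(2n-1)) / ((2n)! 3^(2n)) = hk k [3] (2n-1)`.  `∑_α #{loop darts with est = k}` is the coefficient of `X^v` in `NL k c`,
i.e. of `X^(v+1)` in `X * NL k c`: LcutB; `((splits (3^(2n))).map ..).sum = ∑_j (2n).choose j • HK k' (1 :: 3^j) * HK k'' (1 :: 3^(2n-j))`,
normalised `∑_j hk k' [1] j * hk k'' [1] (2n-j)`.  The error terms: `(1/2) ∑_{k=1}^{κ} E k / k ≤ (1/2) ∑_{k ≤ κ} E k ≤ (1/2) K (1 :: 1 :: 3^(2n))`
at `X^(v+1)`, normalised `(1/2) kc [1, 1] (2n) (v+1) = (1/2) (3 (2n-1) + 1) bc (n-1) (v+1)` (kk_one_one with `m = 2n - 1`).  The tail: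
`length/κ = 6n/κ` times the number of gluings, normalised `bc n v / κ`.
-/

set_option autoImplicit false

namespace UN39

open Polynomial Equiv HG39

section

variable {D : Type} [Fintype D] [DecidableEq D]

open Classical in
/-- connected gluings with `v` vertices -/
noncomputable def VA (c : List (List D)) (v : ℕ) : Finset (Perm D) :=
  Finset.univ.filter fun α => (Mt c α ∧ Conn c α) ∧ vt c α = v

theorem cnt_coeff (c : List (List D)) (v : ℕ) : (cnt c).coeff v = (VA c v).card := by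
  classical
  unfold cnt VA
  rw [finsetSum_coeff, Finset.card_filter]
  refine Finset.sum_congr rfl fun α _ => ?_
  by_cases h : Mt c α ∧ Conn c α
  · rw [if_pos h, coeff_X_pow]
    refine if_congr ?_ rfl rfl
    exact ⟨fun h1 => ⟨h, h1.symm⟩, fun h1 => h1.2.symm⟩
  · rw [if_neg h, coeff_zero, if_neg (fun h1 => h h1.1)]

open Classical in
theorem NL_coeff (k : ℕ) (c : List (List D)) (v : ℕ) : (NL k c).coeff v =
    ∑ α ∈ VA c v, (c.flatten.toFinset.filter fun d => Lp c α d ∧ est c α d = k).card := by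
  classical
  unfold NL VA
  rw [finsetSum_coeff, Finset.sum_filter]
  refine Finset.sum_congr rfl fun α _ => ?_
  by_cases h : Mt c α ∧ Conn c α
  · rw [if_pos h, coeff_smul, coeff_X_pow]
    by_cases h1 : v = vt c α
    · rw [if_pos h1, if_pos ⟨h, h1.symm⟩, smul_eq_mul, mul_one]
    · rw [if_neg h1, if_neg (fun h2 => h1 h2.2.symm), smul_zero]
  · rw [if_neg h, coeff_zero, if_neg (fun h1 => h h1.1)]

theorem cntm_coeff (k : ℕ) (d : D) (c : List (List D)) (v : ℕ) : (cntm k d c).coeff v =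
    ∑ α ∈ VA c v, if est c α d = k then 1 else 0 := by
  classical
  unfold cntm VA
  rw [finsetSum_coeff, Finset.sum_filter]
  refine Finset.sum_congr rfl fun α _ => ?_
  by_cases h : Mt c α ∧ Conn c α
  · by_cases h2 : est c α d = k
    · rw [if_pos ⟨h.1, h.2, h2⟩, coeff_X_pow, if_pos h2]
      refine if_congr ?_ rfl rfl
      exact ⟨fun h1 => ⟨h, h1.symm⟩, fun h1 => h1.2.symm⟩
    · rw [if_neg (fun h3 => h2 h3.2.2), coeff_zero, if_neg h2, ite_self]
  · rw [if_neg (fun h1 => h ⟨h1.1, h1.2.1⟩), coeff_zero, if_neg (fun h1 => h h1.1)]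

theorem est_sum (k : ℕ) (c : List (List D)) (v : ℕ) :
    ∑ α ∈ VA c v, (c.flatten.toFinset.filter fun d => est c α d = k).card =
      ∑ d ∈ c.flatten.toFinset, (cntm k d c).coeff v := by
  classical
  simp only [cntm_coeff, Finset.card_filter]
  rw [Finset.sum_comm]

theorem cntm_dart (k m : ℕ) {c : List (List D)} (hn : c.flatten.Nodup)
    (hc : c.map List.length = List.replicate (m + 1) 3) {d : D} (hd : d ∈ c.flatten) :
    cntm k d c = HK k (3 :: List.replicate m 3) := by
  obtain ⟨p, hp, hdp⟩ := List.mem_flatten.1 hd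
  obtain ⟨l1, l2, hl⟩ := List.append_of_mem hdp
  have hall : ∀ q ∈ c, q.length = 3 := by
    intro q hq
    have h1 : q.length ∈ c.map List.length := List.mem_map_of_mem hq
    rw [hc] at h1
    exact List.eq_of_mem_replicate h1
  have hperm := List.perm_cons_erase hp
  have hn1 : (p :: c.erase p).flatten.Nodup := (List.Perm.flatten hperm).nodup_iff.1 hn
  rw [cntm_perm k d hperm hn]
  have hn2 : (l1 ++ d :: l2).Nodup := by
    rw [← hl]
    rw [List.flatten_cons, List.nodup_append] at hn1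
    exact hn1.1
  have h2 : cntm k d (p :: c.erase p) = cntm k d ((d :: (l2 ++ l1)) :: c.erase p) := by
    rw [hl]
    exact cntm_rot k d hn2
  have hn3 : ((d :: (l2 ++ l1)) :: c.erase p).flatten.Nodup := by
    have h3 : ((d :: (l2 ++ l1)) :: c.erase p).flatten.Perm (p :: c.erase p).flatten := by
      rw [List.flatten_cons, List.flatten_cons, hl]
      refine List.Perm.append_right _ ?_
      exact List.perm_append_comm (l₁ := d :: l2) (l₂ := l1)
    exact h3.nodup_iff.2 hn1
  rw [h2, cntm_eq k d (l2 ++ l1) _ hn3]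
  have h4 : (l2 ++ l1).length + 1 = 3 := by
    have h5 := hall p hp
    rw [hl, List.length_append, List.length_cons] at h5
    rw [List.length_append]
    omega
  have h5 : (c.erase p).map List.length = List.replicate m 3 := by
    rw [List.eq_replicate_iff]
    constructor
    · rw [List.length_map, List.length_erase_of_mem hp]
      have h6 := congrArg List.length hc
      rw [List.length_map, List.length_replicate] at h6
      omega
    · intro b hb
      obtain ⟨q, hq, rfl⟩ := List.mem_map.1 hb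
      exact hall q (List.mem_of_mem_erase hq)
  rw [h4, h5]

end

theorem hk_coeff (k : ℕ) (c : List ℕ) (m v : ℕ) :
    (hk k c m).coeff v = ((m.factorial : ℝ) * 3 ^ m)⁻¹ * ((HK k (c ++ List.replicate m 3)).coeff v : ℝ) := by
  unfold hk
  rw [coeff_C_mul, coeff_map, eq_natCast]

theorem kc_coeff (c : List ℕ) (m v : ℕ) :
    kc c m v = ((m.factorial : ℝ) * 3 ^ m)⁻¹ * ((K (c ++ List.replicate m 3)).coeff v : ℝ) := by
  unfold kc kk
  rw [coeff_C_mul, coeff_map, eq_natCast]

theorem split_hk (k k' m v : ℕ) :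
    ((m.factorial : ℝ) * 3 ^ m)⁻¹ *
      (((((splits (List.replicate m 3)).map fun s => HK k (1 :: s.1) * HK k' (1 :: s.2)).sum).coeff v : ℕ) : ℝ) =
    ∑ j ∈ Finset.range (m + 1), (hk k [1] j * hk k' [1] (m - j)).coeff v := by
  rw [splits_rep, finsetSum_coeff, Nat.cast_sum, Finset.mul_sum]
  refine Finset.sum_congr rfl fun j hj => ?_
  rw [Finset.mem_range] at hj
  have h1 : hk k [1] j * hk k' [1] (m - j) =
      C ((((m.factorial : ℝ) * 3 ^ m)⁻¹) * (m.choose j : ℝ)) *
        (HK k (1 :: List.replicate j 3) * HK k' (1 :: List.replicate (m - j) 3)).map (Nat.castRingHom ℝ) := by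
    unfold hk
    rw [al_choose (by omega), C_mul, Polynomial.map_mul, List.singleton_append, List.singleton_append]
    ring
  rw [h1, coeff_C_mul, coeff_map, eq_natCast, coeff_smul, nsmul_eq_mul, Nat.cast_mul]
  simp only [Nat.cast_id]
  ring

theorem vnum (n v κ : ℕ) (hn : 1 ≤ n) (hκ : 1 ≤ κ) :
    |(v : ℝ) * bc n v / (6 * n) - ∑ k ∈ Finset.Icc 1 κ, (1 / (k : ℝ)) *
      ((hk k [3] (2 * n - 1)).coeff v - (1 / 2) * ∑ k' ∈ Finset.range (k + 2),
        ∑ j ∈ Finset.range (2 * n + 1),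
          (hk k' [1] j * hk (k + 1 - k') [1] (2 * n - j)).coeff (v + 1))| ≤
      bc n v / κ + 6 * n * bc (n - 1) (v + 1) := by
  classical
  -- the darts
  set L : List (Option (Option (Fin (6 * n)))) := (List.finRange (6 * n)).map (fun i => some (some i)) with hL
  have hLlen : L.length = (List.replicate (2 * n) 3).sum := by
    rw [hL, List.length_map, List.length_finRange, List.sum_replicate, smul_eq_mul]
    ring
  obtain ⟨c, hc1, hc2⟩ := lift_len (List.replicate (2 * n) 3) L hLlen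
  have hnd : c.flatten.Nodup := by
    rw [hc2, hL]
    refine List.Nodup.map ?_ (List.nodup_finRange _)
    intro i j hij
    simpa using hij
  have hall : ∀ q ∈ c, q.length = 3 := by
    intro q hq
    have h1 : q.length ∈ c.map List.length := List.mem_map_of_mem hq
    rw [hc1] at h1
    exact List.eq_of_mem_replicate h1
  have he : [] ∉ c := by
    intro h1
    have h2 := hall _ h1
    simp at h2
  have hcne : c ≠ [] := by
    rintro rfl
    rw [List.map_nil] at hc1
    have h1 := congrArg List.length hc1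
    rw [List.length_replicate, List.length_nil] at h1
    omega
  have hx : (none : Option (Option (Fin (6 * n)))) ∉ c.flatten := by
    rw [hc2, hL]
    simp
  have hy : (some none : Option (Option (Fin (6 * n)))) ∉ c.flatten := by
    rw [hc2, hL]
    simp
  obtain ⟨E, hE, hEle⟩ := loops hnd he hcne hx hy (by simp)
  have hflen : c.flatten.length = 6 * n := by
    rw [hc2, hL, List.length_map, List.length_finRange]
  have hfcard : c.flatten.toFinset.card = 6 * n := by
    rw [List.toFinset_card_of_nodup hnd, hflen]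
  -- normalisation
  set N : ℝ := ((2 * n).factorial : ℝ) * 3 ^ (2 * n) with hN
  have hN0 : 0 < N := by positivity
  have hnR : (1 : ℝ) ≤ n := by exact_mod_cast hn
  have hn0 : (0 : ℝ) < n := by linarith
  have hκ0 : (0 : ℝ) < κ := by exact_mod_cast hκ
  -- number of gluings
  have hA : N⁻¹ * ((VA c v).card : ℝ) = bc n v / (6 * n) := by
    have h1 : N⁻¹ * ((VA c v).card : ℝ) = kc [] (2 * n) v := by
      rw [kc_coeff, List.nil_append, ← cnt_coeff, cnt_eq c hnd, hc1]
    have h2 : bc n v = (6 * n) * kc [] (2 * n) v := by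
      unfold bc kc
      rw [← bb_three n hn, kk_three [] (2 * n - 1), coeff_smul, smul_eq_mul]
      have h3 : 2 * n - 1 + 1 = 2 * n := by omega
      have h4 : ((2 * n - 1 : ℕ) : ℝ) = 2 * n - 1 := by
        rw [Nat.cast_sub (by omega)]
        push_cast
        ring
      rw [h3, h4]
      ring
    rw [h1, h2]
    field_simp
  -- the darts with k edges
  have hB : ∀ k, N⁻¹ * ((∑ α ∈ VA c v, (c.flatten.toFinset.filter fun d => est c α d = k).card : ℕ) : ℝ) =
      (hk k [3] (2 * n - 1)).coeff v := by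
    intro k
    rw [est_sum]
    have h1 : ∀ d ∈ c.flatten.toFinset, (cntm k d c).coeff v = (HK k (3 :: List.replicate (2 * n - 1) 3)).coeff v := by
      intro d hd
      rw [List.mem_toFinset] at hd
      have h2 : 2 * n = 2 * n - 1 + 1 := by omega
      rw [cntm_dart k (2 * n - 1) hnd (by rw [hc1, ← h2]) hd]
    rw [Finset.sum_congr rfl h1, Finset.sum_const, hfcard, hk_coeff, List.singleton_append, smul_eq_mul, Nat.cast_mul]
    have h3 : N = ((2 * n - 1).factorial : ℝ) * 3 ^ (2 * n - 1) * (6 * n) := by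
      obtain ⟨q, hq⟩ : ∃ q, 2 * n = q + 1 := ⟨2 * n - 1, by omega⟩
      have hqR : (2 * (n : ℝ)) = q + 1 := by exact_mod_cast hq
      rw [hN, hq, Nat.add_sub_cancel, Nat.factorial_succ, pow_succ]
      push_cast
      rw [← hqR]
      ring
    rw [h3]
    have h4 : ((2 * n - 1).factorial : ℝ) ≠ 0 := by positivity
    push_cast
    field_simp
  -- loops
  have hC : ∀ k, N⁻¹ * ((∑ α ∈ VA c v, (c.flatten.toFinset.filter fun d => Lp c α d ∧ est c α d = k).card : ℕ) : ℝ) =
      (∑ k' ∈ Finset.range (k + 2), ∑ j ∈ Finset.range (2 * n + 1),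
          (hk k' [1] j * hk (k + 1 - k') [1] (2 * n - j)).coeff (v + 1)) + N⁻¹ * ((E k).coeff (v + 1) : ℝ) := by
    intro k
    have h1 : (NL k c).coeff v = (X * NL k c).coeff (v + 1) := by
      rw [coeff_X_mul]
    rw [← NL_coeff, h1, hE k, hc1, coeff_add, finsetSum_coeff, Nat.cast_add, mul_add, Nat.cast_sum, Finset.mul_sum]
    congr 1
    refine Finset.sum_congr rfl fun k' _ => ?_
    exact split_hk k' (k + 1 - k') (2 * n) (v + 1)
  -- the sum of the vertex identities
  have hsum : |∑ α ∈ VA c v, ((vt c α : ℝ) - ∑ k ∈ Finset.Icc 1 κ, (1 / (k : ℝ)) *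
      ((c.flatten.toFinset.filter fun d => est c α d = k).card -
        (1 / 2) * (c.flatten.toFinset.filter fun d => Lp c α d ∧ est c α d = k).card))| ≤
      (VA c v).card * ((6 * n : ℝ) / κ) := by
    refine (Finset.abs_sum_le_sum_abs _ _).trans ?_
    rw [← nsmul_eq_mul, ← Finset.sum_const]
    refine Finset.sum_le_sum fun α hα => ?_
    have hα' := (Finset.mem_filter.1 hα).2
    have h1 := vid_sum hnd he hα'.1.1 κ hκ
    rw [hflen] at h1
    push_cast at h1
    exact h1
  have hrew : ∑ α ∈ VA c v, ((vt c α : ℝ) - ∑ k ∈ Finset.Icc 1 κ, (1 / (k : ℝ)) *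
      ((c.flatten.toFinset.filter fun d => est c α d = k).card -
        (1 / 2) * (c.flatten.toFinset.filter fun d => Lp c α d ∧ est c α d = k).card)) =
      (v : ℝ) * (VA c v).card - ∑ k ∈ Finset.Icc 1 κ, (1 / (k : ℝ)) *
        (((∑ α ∈ VA c v, (c.flatten.toFinset.filter fun d => est c α d = k).card : ℕ) : ℝ) -
          (1 / 2) * ((∑ α ∈ VA c v, (c.flatten.toFinset.filter fun d => Lp c α d ∧ est c α d = k).card : ℕ) : ℝ)) := by
    rw [Finset.sum_sub_distrib]
    congr 1
    · have h1 : ∀ α ∈ VA c v, (vt c α : ℝ) = v := by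
        intro α hα
        rw [(Finset.mem_filter.1 hα).2.2]
      rw [Finset.sum_congr rfl h1, Finset.sum_const, nsmul_eq_mul, mul_comm]
    · rw [Finset.sum_comm]
      refine Finset.sum_congr rfl fun k _ => ?_
      rw [← Finset.mul_sum, Finset.sum_sub_distrib, ← Finset.mul_sum]
      push_cast
      rfl
  rw [hrew] at hsum
  -- multiply by N⁻¹
  have hsum2 := mul_le_mul_of_nonneg_left hsum (inv_nonneg.2 hN0.le)
  rw [← abs_of_nonneg (inv_nonneg.2 hN0.le), ← abs_mul, abs_of_nonneg (inv_nonneg.2 hN0.le)] at hsum2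
  have hR : N⁻¹ * (((VA c v).card : ℝ) * ((6 * n : ℝ) / κ)) = bc n v / κ := by
    rw [← mul_assoc, hA]
    field_simp
  have hLft : N⁻¹ * ((v : ℝ) * (VA c v).card - ∑ k ∈ Finset.Icc 1 κ, (1 / (k : ℝ)) *
        (((∑ α ∈ VA c v, (c.flatten.toFinset.filter fun d => est c α d = k).card : ℕ) : ℝ) -
          (1 / 2) * ((∑ α ∈ VA c v, (c.flatten.toFinset.filter fun d => Lp c α d ∧ est c α d = k).card : ℕ) : ℝ))) =
      ((v : ℝ) * bc n v / (6 * n) - ∑ k ∈ Finset.Icc 1 κ, (1 / (k : ℝ)) *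
      ((hk k [3] (2 * n - 1)).coeff v - (1 / 2) * ∑ k' ∈ Finset.range (k + 2),
        ∑ j ∈ Finset.range (2 * n + 1),
          (hk k' [1] j * hk (k + 1 - k') [1] (2 * n - j)).coeff (v + 1))) +
        ∑ k ∈ Finset.Icc 1 κ, (1 / (k : ℝ)) * ((1 / 2) * (N⁻¹ * ((E k).coeff (v + 1) : ℝ))) := by
    rw [mul_sub, Finset.mul_sum]
    have h1 : N⁻¹ * ((v : ℝ) * (VA c v).card) = (v : ℝ) * bc n v / (6 * n) := by
      rw [mul_left_comm, hA]
      ring
    rw [h1, sub_add, ← Finset.sum_sub_distrib]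
    congr 1
    refine Finset.sum_congr rfl fun k _ => ?_
    have h2 : ∀ a b : ℝ, N⁻¹ * (1 / (k : ℝ) * (a - 1 / 2 * b)) = 1 / (k : ℝ) * (N⁻¹ * a - 1 / 2 * (N⁻¹ * b)) := by
      intro a b
      ring
    rw [h2, hB k, hC k]
    ring
  rw [hR, hLft] at hsum2
  -- the error terms
  have hEk : ∀ k, 0 ≤ N⁻¹ * ((E k).coeff (v + 1) : ℝ) := fun k => by positivity
  have herr0 : 0 ≤ ∑ k ∈ Finset.Icc 1 κ, (1 / (k : ℝ)) * ((1 / 2) * (N⁻¹ * ((E k).coeff (v + 1) : ℝ))) :=
    Finset.sum_nonneg fun k _ => mul_nonneg (by positivity) (mul_nonneg (by norm_num) (hEk k))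
  have herr : ∑ k ∈ Finset.Icc 1 κ, (1 / (k : ℝ)) * ((1 / 2) * (N⁻¹ * ((E k).coeff (v + 1) : ℝ))) ≤
      6 * n * bc (n - 1) (v + 1) := by
    have h1 : ∑ k ∈ Finset.Icc 1 κ, (1 / (k : ℝ)) * ((1 / 2) * (N⁻¹ * ((E k).coeff (v + 1) : ℝ))) ≤
        ∑ k ∈ Finset.Icc 1 κ, (N⁻¹ * ((E k).coeff (v + 1) : ℝ)) := by
      refine Finset.sum_le_sum fun k hk => ?_
      rw [Finset.mem_Icc] at hk
      have h2 : (1 : ℝ) ≤ k := by exact_mod_cast hk.1
      have h3 : 1 / (k : ℝ) ≤ 1 := by
        rw [div_le_one (by linarith)]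
        exact h2
      have h4 := hEk k
      have h5 : (1 : ℝ) / 2 * (N⁻¹ * ((E k).coeff (v + 1) : ℝ)) ≤ N⁻¹ * ((E k).coeff (v + 1) : ℝ) := by linarith
      have h6 : 0 ≤ (1 : ℝ) / 2 * (N⁻¹ * ((E k).coeff (v + 1) : ℝ)) := by positivity
      calc 1 / (k : ℝ) * ((1 / 2) * (N⁻¹ * ((E k).coeff (v + 1) : ℝ)))
          ≤ 1 * ((1 / 2) * (N⁻¹ * ((E k).coeff (v + 1) : ℝ))) := mul_le_mul_of_nonneg_right h3 h6
        _ ≤ _ := by linarith
    have h2 : ∑ k ∈ Finset.Icc 1 κ, (N⁻¹ * ((E k).coeff (v + 1) : ℝ)) ≤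
        ∑ k ∈ Finset.range (κ + 1), (N⁻¹ * ((E k).coeff (v + 1) : ℝ)) := by
      refine Finset.sum_le_sum_of_subset_of_nonneg ?_ fun k _ _ => hEk k
      intro k hk
      rw [Finset.mem_Icc] at hk
      rw [Finset.mem_range]
      omega
    have h3 : ∑ k ∈ Finset.range (κ + 1), (N⁻¹ * ((E k).coeff (v + 1) : ℝ)) ≤ kc [1, 1] (2 * n) (v + 1) := by
      rw [← Finset.mul_sum, kc_coeff]
      refine mul_le_mul_of_nonneg_left ?_ (inv_nonneg.2 hN0.le)
      have h4 := hEle (κ + 1) (v + 1)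
      rw [hc1, finsetSum_coeff] at h4
      have h5 : ((∑ k ∈ Finset.range (κ + 1), (E k).coeff (v + 1) : ℕ) : ℝ) ≤
          ((K (1 :: 1 :: List.replicate (2 * n) 3)).coeff (v + 1) : ℝ) := by exact_mod_cast h4
      rw [Nat.cast_sum] at h5
      exact h5
    have h4 : kc [1, 1] (2 * n) (v + 1) = (6 * n - 2) * bc (n - 1) (v + 1) := by
      unfold kc bc bb
      have h5 : 2 * n = (2 * n - 1) + 1 := by omega
      rw [h5, kk_one_one (2 * n - 1) (by omega), coeff_smul, smul_eq_mul]
      have h6 : ((2 * n - 1 : ℕ) : ℝ) = 2 * n - 1 := by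
        rw [Nat.cast_sub (by omega)]
        push_cast
        ring
      have h7 : 2 * (n - 1) + 1 = 2 * n - 1 := by omega
      rw [h6, h7]
      ring
    have h5 := bc_nonneg (n - 1) (v + 1)
    nlinarith
  have h1 := abs_le.1 hsum2
  rw [abs_le]
  constructor
  · linarith [h1.1]
  · linarith [h1.2, bc_nonneg (n - 1) (v + 1)]

end UN39
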