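import Mathlib
import Pool.Agent.H39.UN.Kk
import Pool.Agent.H39.UN.Ineq
import Pool.Agent.H39.UN.HKd
import Pool.Agent.H39.UN.HKp
import Pool.Agent.H39.UN.Ult
import Pool.Agent.H39.UN.Rat
import Pool.Agent.H39.UN.Plim
import Pool.Agent.H39.UN.LimX
import Pool.Agent.H39.UN.LimY
import Pool.Agent.H39.UN.Vnum

/-!
[H39 UN LIMV]  (MP_bcc40c_pr)  Limit of the vertex identity.

PROOF.  vnum for `(n - c, v - c)` (eventually `n - c ≥ 1`), divided by `bc n v`; let the index go along `U`: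
`(v - c) bc (n-c) (v-c)/(6 (n-c) bc n v) → (ω/6) Xl 1 c` (Xl_23, `(v-c)/(n-c) → ω`);
`hk k [3] (2(n-c) - 1)` at `v - c`: `2n + 2 - 3 - 2c = 2(n-c) - 1`: tends to `Yl k 3 c`;
`∑_j (hk k' [1] j * hk k'' [1] (2(n-c) - j)).coeff (v-c+1) = Spr (hk k' [1]) (hk k'' [1]) (2(n-c)) (v-c+1)`, `k'' = k + 1 - k'`: plim with
`i = j = 1` and `c`: `2n + 2 - 1 - 1 - 2c`, `v + 1 - c`: limit `∑ hc k' 1 (s+1) Yl k'' 1 (c+s) + ∑ hc k'' 1 (s+1) Yl k' 1 (c+s)`; the sum over
`k' ≤ k+1` of this is twice the sum of the first series (reflect `k' → k+1-k'`), so with the factor `1/2` it is the stated sum.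
Errors: `bc (n-c) (v-c)/(κ bc n v) → Xl 1 c/κ`; `6 (n-c) bc (n-c-1) (v-c+1)/bc n v → 0`: sq_small with `a = c + 1`, `g = 1`
(`v - (c+1) + 2 = v - c + 1`).
-/

set_option autoImplicit false

namespace UN39

open Filter Topology

variable {ι : Type} {U : Ultrafilter ι} {n v : ι → ℕ} {ω : ℝ}

theorem limV (h : Sq U n v ω) (c κ : ℕ) (hκ : 1 ≤ κ) :
    |ω / 6 * Xl U n v 1 c - ∑ k ∈ Finset.Icc 1 κ, (1 / (k : ℝ)) * (Yl U n v k 3 c -
      ∑ k' ∈ Finset.range (k + 2), ∑' s, hc k' 1 (s + 1) * Yl U n v (k + 1 - k') 1 (c + s))| ≤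
      Xl U n v 1 c / κ := by
  have hnr : Tendsto (fun i => (n i : ℝ)) U atTop := tendsto_natCast_atTop_atTop.comp h.ntop
  have hx := (Xl_23 h c).2.2
  -- the terms
  have t1 : Tendsto (fun N => ((v N - c : ℕ) : ℝ) * bc (n N - c) (v N - c) / (6 * ((n N - c : ℕ) : ℝ)) /
      bc (n N) (v N)) U (𝓝 (ω / 6 * Xl U n v 1 c)) := by
    have h1 := ((sq_shift h c c rfl).lim.div_const 6).mul hx
    refine h1.congr' ?_
    filter_upwards with N
    ring
  have t2 : ∀ k : ℕ, Tendsto (fun N => (hk k [3] (2 * (n N - c) - 1)).coeff (v N - c) /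
      bc (n N) (v N)) U (𝓝 (Yl U n v k 3 c)) := by
    intro k
    refine (Yl_tendsto h k 3 c).1.congr' ?_
    filter_upwards [sq_pos h c] with i hi
    obtain ⟨h2, h3, h4, -⟩ := hi
    rw [show 2 * n i + 2 - 3 - 2 * c = 2 * (n i - c) - 1 by omega]
  obtain ⟨S, hS⟩ : ∃ S : ℕ → ℕ → ℝ, S = fun k' k'' => ∑' s, hc k' 1 (s + 1) * Yl U n v k'' 1 (c + s) :=
    ⟨_, rfl⟩
  have t3 : ∀ k' k'' : ℕ, Tendsto (fun N => (∑ j ∈ Finset.range (2 * (n N - c) + 1),
      (hk k' [1] j * hk k'' [1] (2 * (n N - c) - j)).coeff (v N - c + 1)) / bc (n N) (v N)) U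
      (𝓝 (S k' k'' + S k'' k')) := by
    intro k' k''
    have h1 := (plim h 1 1 (fun m w => (hk k' [1] m).coeff w) (fun m w => (hk k'' [1] m).coeff w)
      (fun m w => hk_nonneg _ _ _ _) (fun m w => hk_le _ _ _ _) (fun m w => hk_nonneg _ _ _ _)
      (fun m w => hk_le _ _ _ _) c).2.2
    rw [hS]
    refine h1.congr' ?_
    filter_upwards [sq_pos h c] with i hi
    obtain ⟨h2, h3, h4, -⟩ := hi
    rw [show 2 * n i + 2 - 1 - 1 - 2 * c = 2 * (n i - c) by omega,
      show v i + 1 - c = v i - c + 1 by omega]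
    congr 1
    exact (coeff_Spr (fun t => hk k' [1] t) (fun t => hk k'' [1] t) _ _).symm
  have t4 : Tendsto (fun N => bc (n N - c) (v N - c) / κ / bc (n N) (v N)) U
      (𝓝 (Xl U n v 1 c / κ)) := by
    have h1 := hx.div_const (κ : ℝ)
    refine h1.congr' ?_
    filter_upwards with N
    ring
  have t5 : Tendsto (fun N => 6 * ((n N - c : ℕ) : ℝ) * bc (n N - c - 1) (v N - c + 1) /
      bc (n N) (v N)) U (𝓝 0) := by
    have h1 := (sq_small h (c + 1) 1 le_rfl).const_mul 6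
    rw [mul_zero] at h1
    refine tendsto_of_tendsto_of_tendsto_of_le_of_le' tendsto_const_nhds h1 ?_ ?_
    · filter_upwards with N
      have := bc_nonneg (n N - c - 1) (v N - c + 1)
      have := bc_nonneg (n N) (v N)
      positivity
    · filter_upwards [sq_pos h (c + 1)] with i hi
      obtain ⟨h2, h3, h4, -⟩ := hi
      rw [show n i - c - 1 = n i - (c + 1) by omega,
        show v i - c + 1 = v i - (c + 1) + 2 * 1 by omega]
      have e7 : ((n i - c : ℕ) : ℝ) ≤ n i := by exact_mod_cast Nat.sub_le _ _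
      have e8 : 0 ≤ bc (n i - (c + 1)) (v i - (c + 1) + 2 * 1) / bc (n i) (v i) :=
        div_nonneg (bc_nonneg _ _) (bc_nonneg _ _)
      have e9 := mul_le_mul_of_nonneg_right e7 e8
      calc 6 * ((n i - c : ℕ) : ℝ) * bc (n i - (c + 1)) (v i - (c + 1) + 2 * 1) / bc (n i) (v i)
          = 6 * (((n i - c : ℕ) : ℝ) *
            (bc (n i - (c + 1)) (v i - (c + 1) + 2 * 1) / bc (n i) (v i))) := by ring
        _ ≤ 6 * ((n i : ℝ) * (bc (n i - (c + 1)) (v i - (c + 1) + 2 * 1) / bc (n i) (v i))) := by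
            linarith
        _ = _ := by ring
  -- the sum over k
  have t6 : ∀ k ∈ Finset.Icc 1 κ, Tendsto (fun N => (1 / (k : ℝ)) *
      ((hk k [3] (2 * (n N - c) - 1)).coeff (v N - c) / bc (n N) (v N) -
        (1 / 2) * ∑ k' ∈ Finset.range (k + 2), (∑ j ∈ Finset.range (2 * (n N - c) + 1),
          (hk k' [1] j * hk (k + 1 - k') [1] (2 * (n N - c) - j)).coeff (v N - c + 1)) /
          bc (n N) (v N))) U
      (𝓝 ((1 / (k : ℝ)) * (Yl U n v k 3 c - ∑ k' ∈ Finset.range (k + 2), S k' (k + 1 - k')))) := by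
    intro k _
    have h1 := tendsto_finset_sum (Finset.range (k + 2)) (fun k' _ => t3 k' (k + 1 - k'))
    have h2 := ((t2 k).sub (h1.const_mul (1 / 2))).const_mul (1 / (k : ℝ))
    have h3 : ∑ k' ∈ Finset.range (k + 2), S (k + 1 - k') k' =
        ∑ k' ∈ Finset.range (k + 2), S k' (k + 1 - k') := by
      rw [← Finset.sum_range_reflect (fun k' => S k' (k + 1 - k')) (k + 2)]
      refine Finset.sum_congr rfl fun k' hk' => ?_
      rw [Finset.mem_range] at hk'
      rw [show k + 2 - 1 - k' = k + 1 - k' by omega, show k + 1 - (k + 1 - k') = k' by omega]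
    rw [Finset.sum_add_distrib, h3] at h2
    have h4 : (1 / 2 : ℝ) * (∑ k' ∈ Finset.range (k + 2), S k' (k + 1 - k') +
        ∑ k' ∈ Finset.range (k + 2), S k' (k + 1 - k')) =
        ∑ k' ∈ Finset.range (k + 2), S k' (k + 1 - k') := by ring
    rw [h4] at h2
    exact h2
  have t7 := (t1.sub (tendsto_finset_sum _ t6)).abs
  have t8 := t4.add t5
  rw [add_zero] at t8
  have hS' : ∀ k, ∑ k' ∈ Finset.range (k + 2), ∑' s, hc k' 1 (s + 1) * Yl U n v (k + 1 - k') 1 (c + s) =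
      ∑ k' ∈ Finset.range (k + 2), S k' (k + 1 - k') := by
    intro k
    rw [hS]
  simp only [hS']
  refine le_of_tendsto_of_tendsto t7 t8 ?_
  filter_upwards [sq_pos h c] with i hi
  obtain ⟨h2, h3, h4, -, h5, -⟩ := hi
  have h6 := vnum (n i - c) (v i - c) κ (by omega) hκ
  have h7 := div_le_div_of_nonneg_right h6 h5.le
  rw [← abs_of_pos h5, ← abs_div, abs_of_pos h5] at h7
  refine le_trans (le_of_eq ?_) (h7.trans (le_of_eq ?_))
  · congr 1
    rw [sub_div, Finset.sum_div]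
    congr 1
    refine Finset.sum_congr rfl fun k _ => ?_
    rw [mul_div_assoc, sub_div, mul_div_assoc, Finset.sum_div]
  · rw [add_div]

end UN39
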