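import Mathlib
import Pool.Agent.H39.UN.HKd
import Pool.Agent.H39.UN.HKp
import Pool.Agent.H39.UN.Ult
import Pool.Agent.H39.UN.Rat
import Pool.Agent.H39.UN.Plim
import Pool.Agent.H39.UN.LimX
import Pool.Agent.H39.UN.LimY
import Pool.Agent.H39.UN.LimV
import Pool.Agent.H39.UN.PlA
import Pool.Agent.H39.UN.PlC
import Pool.Agent.H39.UN.PlD
import Pool.Agent.H39.UN.PlE
import Pool.Agent.H39.UN.KerA
import Pool.Agent.H39.UN.PlF
import Pool.Agent.H39.UN.PlG
import Pool.Agent.H39.UN.Cont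
import Pool.Agent.H39.UN.Fan
import Pool.Agent.H39.UN.FanB

/-!
[H39 UN REPA]  (MP_bcc40c_pr)  The limits `Xl` are integrals of explicit functions.

Hypotheses: sizes `n, v` (Sq), averages `E` (Avg) with `el (x^c) = Xl 1 c` for all `c`.

PROOFS.  grow: for `t > lamc`, `δ > 0` there is `c` with `Xl 1 c ≤ δ t^c`.  Suppose not: `Xl 1 c > δ t^c` for all `c`.  Xl_rec with `p = 2`, `c = 0`:
`Xl 4 0 ≥ 2 ∑_s zc 1 (s+1) Xl 1 (1 + s)` (the term `i = 1`; all terms nonnegative), and `Xl 4 0 ≤ 1`; so the nonnegative series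
`∑_s zc 1 (s+1) δ t^(s+1)` is summable, i.e. (zc_one) `∑ b0 s t^(s+2) < ∞`: contradiction to nonsum0.
repX: `Xl p c = el (x^c qf p (clp lamc x))`: strong induction on `p`: `p = 0`: both 0 (q_01, Xl_zero); `p = 1`: hypothesis (`qf 1 = 1`); `p = 2`: Xl_23 and
`qf 2 = qf 1` (q_rec with `p = 0`); `p + 3`: Xl_rec and q_rec (`qf (p+3) = qf (p+2) - 2 ∑_{i ≤ p} zf i qf (p-i)`), each series by el_series with
`a s = zc i (s+1)`: `∑_s zc i (s+1) el (x^(c+1+s) qf j (clp x)) = el (x^(c+1) qf j (clp x) ∑ zc i (s+1) (clp x)^s)` and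
`clp x * ∑ zc i (s+1) (clp x)^s = zf i (clp x)` (`zc i 0 = 0`); the factor `x` may be replaced by `clp x` (el_clip; both are continuous functions
whose values at `clp x` agree).  All functions are bounded on `[0,1]` (continuous on the compact set `[0, lamc]`).
-/

set_option autoImplicit false

namespace UN39

open Filter Topology

variable {ι : Type} {U : Ultrafilter ι} {n v : ι → ℕ} {ω : ℝ} {E : ι → (ℝ → ℝ) → ℝ}

theorem grow (h : Sq U n v ω) {t : ℝ} (ht : lamc < t) {δ : ℝ} (hδ : 0 < δ) :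
    ∃ c : ℕ, Xl U n v 1 c ≤ δ * t ^ c := by
  by_contra hcon
  push Not at hcon
  have ht0 : 0 < t := lt_trans lamc_pos.1 ht
  have h1 : Summable (fun s => zc 1 (s + 1) * Xl U n v 1 (1 + s)) := Xl_sum h 1 1 1
  have h2 : Summable (fun s => zc 1 (s + 1) * (δ * t ^ (1 + s))) := by
    refine Summable.of_nonneg_of_le (fun s => ?_) (fun s => ?_) h1
    · exact mul_nonneg (zc_nonneg _ _) (by positivity)
    · exact mul_le_mul_of_nonneg_left (hcon (1 + s)).le (zc_nonneg _ _)
  have h3 := (summable_nat_add_iff 1).2 h2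
  have h4 : Summable fun i : ℕ => b0 i * t ^ i := by
    have h5 := h3.mul_left (δ * t ^ 2)⁻¹
    refine h5.congr fun s => ?_
    have h6 : zc 1 (s + 1 + 1) = b0 s := (zc_one s).1
    rw [h6, show 1 + (s + 1) = 2 + s by omega, pow_add]
    field_simp
  exact nonsum0 ht h4

theorem rp_hg (h : Sq U n v ω) (hm : ∀ c : ℕ, el U E (fun x => x ^ c) = Xl U n v 1 c) :
    ∀ t, lamc < t → ∀ δ > 0, ∃ c : ℕ, el U E (fun x => x ^ c) ≤ δ * t ^ c := by
  intro t ht δ hδ
  obtain ⟨c, hc⟩ := grow h ht hδ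
  exact ⟨c, by rw [hm]; exact hc⟩

theorem rp_clp (x : ℝ) : clp lamc x ∈ Set.Icc 0 lamc := clp_mem lamc_pos.1.le x

theorem rp_comp {ψ : ℝ → ℝ} (hψ : ContinuousOn ψ (Set.Icc 0 lamc)) :
    Continuous fun x => ψ (clp lamc x) :=
  hψ.comp_continuous (clp_continuous lamc) rp_clp

/-- boundedness -/
theorem rp_bd {ψ : ℝ → ℝ} (hψ : ContinuousOn ψ (Set.Icc 0 lamc)) (c : ℕ) :
    ∃ B, ∀ x ∈ Set.Icc (0 : ℝ) 1, |x ^ c * ψ (clp lamc x)| ≤ B := by
  have h1 : Continuous fun x => x ^ c * ψ (clp lamc x) := (continuous_pow c).mul (rp_comp hψ)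
  obtain ⟨B, hB⟩ := isCompact_Icc.exists_bound_of_continuousOn (s := Set.Icc (0 : ℝ) 1)
    h1.continuousOn
  exact ⟨B, fun x hx => hB x hx⟩

theorem rp_add (hE : Avg E) {φ ψ : ℝ → ℝ} (hφ : ContinuousOn φ (Set.Icc 0 lamc))
    (hψ : ContinuousOn ψ (Set.Icc 0 lamc)) (c : ℕ) :
    el U E (fun x => x ^ c * (φ (clp lamc x) + ψ (clp lamc x))) =
      el U E (fun x => x ^ c * φ (clp lamc x)) + el U E (fun x => x ^ c * ψ (clp lamc x)) := by
  obtain ⟨B1, h1⟩ := rp_bd hφ c
  obtain ⟨B2, h2⟩ := rp_bd hψ c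
  rw [← el_add hE (B := max B1 B2) (fun x hx => (h1 x hx).trans (le_max_left _ _))
    (fun x hx => (h2 x hx).trans (le_max_right _ _))]
  congr 1
  funext x
  ring

theorem rp_smul (hE : Avg E) {φ : ℝ → ℝ} (hφ : ContinuousOn φ (Set.Icc 0 lamc)) (a : ℝ) (c : ℕ) :
    el U E (fun x => x ^ c * (a * φ (clp lamc x))) =
      a * el U E (fun x => x ^ c * φ (clp lamc x)) := by
  obtain ⟨B1, h1⟩ := rp_bd hφ c
  rw [← el_smul hE a h1]
  congr 1
  funext x
  ring

theorem rp_zero (hE : Avg E) (c : ℕ) : el U E (fun x => x ^ c * 0) = 0 := by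
  have h1 : (fun x : ℝ => x ^ c * 0) = fun _ => (0 : ℝ) := by
    funext x
    rw [mul_zero]
  rw [h1, el_const hE]

theorem rp_sum (hE : Avg E) {α : Type} (F : Finset α) (φ : α → ℝ → ℝ)
    (hφ : ∀ s ∈ F, ContinuousOn (φ s) (Set.Icc 0 lamc)) (c : ℕ) :
    el U E (fun x => x ^ c * ∑ s ∈ F, φ s (clp lamc x)) =
      ∑ s ∈ F, el U E (fun x => x ^ c * φ s (clp lamc x)) := by
  classical
  induction F using Finset.induction_on with
  | empty =>
    simp only [Finset.sum_empty]
    exact rp_zero hE c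
  | insert a F ha ih =>
    rw [Finset.sum_insert ha, ← ih fun s hs => hφ s (Finset.mem_insert_of_mem hs)]
    have h1 : ContinuousOn (fun y => ∑ s ∈ F, φ s y) (Set.Icc 0 lamc) :=
      continuousOn_finsetSum F fun s hs => hφ s (Finset.mem_insert_of_mem hs)
    rw [← rp_add hE (hφ a (Finset.mem_insert_self _ _)) h1 c]
    congr 1
    funext x
    rw [Finset.sum_insert ha]

/-- a factor `x` may be replaced by `clp x` -/
theorem rp_cl (hE : Avg E)
    (hg : ∀ t, lamc < t → ∀ δ > 0, ∃ c : ℕ, el U E (fun x => x ^ c) ≤ δ * t ^ c)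
    {ψ : ℝ → ℝ} (hψ : ContinuousOn ψ (Set.Icc 0 lamc)) (c : ℕ) :
    el U E (fun x => x ^ (c + 1) * ψ (clp lamc x)) =
      el U E (fun x => x ^ c * (clp lamc x * ψ (clp lamc x))) := by
  have hr1 : lamc ≤ 1 := by linarith [lamc_pos.2]
  have h1 : Continuous fun x => x ^ (c + 1) * ψ (clp lamc x) :=
    (continuous_pow _).mul (rp_comp hψ)
  have h2 : Continuous fun x => x ^ c * (clp lamc x * ψ (clp lamc x)) :=
    (continuous_pow _).mul ((clp_continuous lamc).mul (rp_comp hψ))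
  rw [el_clip hE lamc_pos.1 hr1 hg h1, el_clip hE lamc_pos.1 hr1 hg h2]
  congr 1
  funext x
  rw [clp_of_mem (rp_clp x)]
  ring

/-- series with nonnegative coefficients -/
theorem rp_ser (hE : Avg E)
    (hg : ∀ t, lamc < t → ∀ δ > 0, ∃ c : ℕ, el U E (fun x => x ^ c) ≤ δ * t ^ c)
    {φ : ℝ → ℝ} (hφ : ContinuousOn φ (Set.Icc 0 lamc)) {b : ℕ → ℝ} (hb : ∀ s, 0 ≤ b s)
    (hb0 : b 0 = 0) (hs : Summable fun s => b s * lamc ^ s) (c : ℕ) :
    ∑' s, b (s + 1) * el U E (fun x => x ^ (c + 1 + s) * φ (clp lamc x)) =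
      el U E (fun x => x ^ c * ((∑' s, b s * clp lamc x ^ s) * φ (clp lamc x))) := by
  have hr := lamc_pos.1
  have hr1 : lamc ≤ 1 := by linarith [lamc_pos.2]
  have hs1 : Summable fun s => b (s + 1) * lamc ^ s := by
    have h1 := ((summable_nat_add_iff 1).2 hs).mul_left lamc⁻¹
    refine h1.congr fun s => ?_
    rw [pow_succ]
    field_simp
  have h1 := el_series hE hr hr1 hg hφ (a := fun s => b (s + 1)) (fun s => hb (s + 1)) hs1 (c + 1)
  rw [h1.tsum_eq]
  have hc : ContinuousOn (fun y => ∑' s, b (s + 1) * y ^ s) (Set.Icc 0 lamc) := by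
    refine continuousOn_tsum (u := fun s => b (s + 1) * lamc ^ s) (fun s => ?_) hs1 fun s y hy => ?_
    · exact (continuous_const.mul (continuous_pow s)).continuousOn
    · rw [Real.norm_eq_abs, abs_of_nonneg (mul_nonneg (hb _) (pow_nonneg hy.1 _))]
      exact mul_le_mul_of_nonneg_left (pow_le_pow_left₀ hy.1 hy.2 s) (hb _)
  have h2 := rp_cl hE hg (ψ := fun y => φ y * ∑' s, b (s + 1) * y ^ s) (hφ.mul hc) c
  rw [h2]
  congr 1
  funext x
  have hy := rp_clp x
  have h3 : Summable fun s => b s * clp lamc x ^ s := by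
    refine Summable.of_nonneg_of_le (fun s => mul_nonneg (hb s) (pow_nonneg hy.1 _)) (fun s => ?_) hs
    exact mul_le_mul_of_nonneg_left (pow_le_pow_left₀ hy.1 hy.2 s) (hb _)
  rw [h3.tsum_eq_zero_add, hb0, zero_mul, zero_add]
  have h4 : (fun s => b (s + 1) * clp lamc x ^ (s + 1)) =
      fun s => clp lamc x * (b (s + 1) * clp lamc x ^ s) := by
    funext s
    ring
  rw [h4, tsum_mul_left]
  ring

theorem repX (h : Sq U n v ω) (hE : Avg E) (hm : ∀ c : ℕ, el U E (fun x => x ^ c) = Xl U n v 1 c)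
    (p c : ℕ) : Xl U n v p c = el U E (fun x => x ^ c * qf p (clp lamc x)) := by
  have hg := rp_hg h hm
  have hr := lamc_pos.1
  induction p using Nat.strong_induction_on generalizing c with
  | _ p ih =>
  rcases p with _ | _ | _ | p
  · rw [Xl_zero h]
    have h1 : (fun x : ℝ => x ^ c * qf 0 (clp lamc x)) = fun x => x ^ c * 0 := by
      funext x
      rw [(q_01 _).1]
    rw [h1, rp_zero hE]
  · rw [zero_add, ← hm]
    congr 1
    funext x
    rw [(q_01 _).2, mul_one]
  · rw [show 0 + 1 + 1 = 2 from rfl, (Xl_23 h c).1, ← hm]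
    congr 1
    funext x
    have h1 := q_rec (clp lamc x) 0
    rw [Finset.range_zero, Finset.sum_empty, mul_zero, add_zero, zero_add, (q_01 _).2] at h1
    rw [show qf 2 (clp lamc x) = 1 from h1.symm, mul_one]
  · have h1 := Xl_rec h p c
    have h2 : ∀ i ∈ Finset.range (p + 1), ∑' s, zc i (s + 1) * Xl U n v (p - i) (c + 1 + s) =
        el U E (fun x => x ^ c * (zf i (clp lamc x) * qf (p - i) (clp lamc x))) := by
      intro i hi
      have h3 : ∀ s, Xl U n v (p - i) (c + 1 + s) =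
          el U E (fun x => x ^ (c + 1 + s) * qf (p - i) (clp lamc x)) := fun s =>
        ih (p - i) (by omega) _
      simp only [h3]
      exact rp_ser hE hg (q_cont (p - i)) (b := fun s => zc i s) (fun s => zc_nonneg _ _) (zc_s0 i)
        (z_sum hr.le le_rfl i) c
    rw [Finset.sum_congr rfl h2] at h1
    have h4 := rp_sum (U := U) hE (Finset.range (p + 1)) (fun i y => zf i y * qf (p - i) y)
      (fun i _ => (z_cont i).mul (q_cont (p - i))) c
    rw [← h4, ih (p + 2) (by omega)] at h1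
    have hc : ContinuousOn (fun y => ∑ i ∈ Finset.range (p + 1), zf i y * qf (p - i) y)
        (Set.Icc 0 lamc) :=
      continuousOn_finsetSum _ fun i _ => (z_cont i).mul (q_cont (p - i))
    have h5 : el U E (fun x => x ^ c * qf (p + 2) (clp lamc x)) =
        el U E (fun x => x ^ c * qf (p + 3) (clp lamc x)) +
        2 * el U E (fun x => x ^ c * ∑ i ∈ Finset.range (p + 1),
          zf i (clp lamc x) * qf (p - i) (clp lamc x)) := by
      have hc2 : ContinuousOn (fun y => 2 * ∑ i ∈ Finset.range (p + 1), zf i y * qf (p - i) y)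
          (Set.Icc 0 lamc) := continuousOn_const.mul hc
      have h8 := rp_smul (U := U) hE hc 2 c
      have h9 := rp_add (U := U) hE (q_cont (p + 3)) hc2 c
      rw [← h8, ← h9]
      congr 1
      funext x
      have h6 := q_rec (clp lamc x) (p + 1)
      rw [show p + 1 + 1 = p + 2 from rfl, show p + 1 + 2 = p + 3 from rfl,
        show p + 1 - 1 = p by omega] at h6
      rw [h6]
    have h7 : Xl U n v (p + 3) c = el U E (fun x => x ^ c * qf (p + 3) (clp lamc x)) := by
      linarith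
    exact h7

end UN39
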