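import Mathlib
import Pool.Agent.H39.UN.HKd
import Pool.Agent.H39.UN.HKp
import Pool.Agent.H39.UN.PlC
import Pool.Agent.H39.UN.PlD
import Pool.Agent.H39.UN.PlE
import Pool.Agent.H39.UN.KerA
import Pool.Agent.H39.UN.PlF
import Pool.Agent.H39.UN.PlG

/-!
[H39 UN CONT]  (MP_bcc40c_pr)  Continuity of the functions of the vertex identity and uniform convergence.

PROOFS.  hF_cont, Hx_cont: induction on `k` along the recursions, z_cont, q_cont.  hl_cont: `∑ hc k 1 (s+1) x^s`, `hc k 1 (s+1) ≤ zc 1 (s+1)`,
summable at `lamc > 0` (z_sum divided by `lamc`), `continuousOn_tsum`.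
Dk_cont: finite sums.  Dk_unif: Dini's theorem: `Dk κ` increases pointwise to the continuous function `Dx` on the compact set `[0, lamc]` (Dk_mono, Dk_lim,
Dx_cont); Mathlib has Dini's theorem (`Monotone.tendstoUniformlyOn...` in `Mathlib/Topology/UniformSpace/Dini.lean`), or prove it directly.
-/

set_option autoImplicit false

namespace UN39

open Filter Topology

theorem hF_cont (k p : ℕ) : ContinuousOn (fun x => hF (fun i => zf i x) k p) (Set.Icc 0 lamc) := by
  induction k generalizing p with
  | zero =>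
    cases p with
    | zero =>
      simp only [hF]
      exact z_cont 0
    | succ p =>
      simp only [hF]
      exact continuousOn_const
  | succ k ih =>
    match p with
    | 0 =>
      simp only [hF]
      exact continuousOn_const
    | 1 =>
      simp only [hF]
      exact ih 2
    | p + 2 =>
      simp only [hF]
      refine (ih (p + 3)).add (continuousOn_finsetSum _ (fun i _ => ?_))
      exact (z_cont i).mul (ih (p - i))

theorem Hx_cont (k p : ℕ) : ContinuousOn (Hx k p) (Set.Icc 0 lamc) := by
  unfold Hx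
  induction k generalizing p with
  | zero =>
    simp only [HF]
    exact continuousOn_const
  | succ k ih =>
    match p with
    | 0 =>
      simp only [HF]
      exact continuousOn_const
    | 1 =>
      simp only [HF]
      exact ih 2
    | p + 2 =>
      simp only [HF]
      refine (ih (p + 3)).add (continuousOn_finsetSum _ (fun i _ => ?_))
      exact ((z_cont i).mul (ih (p - i))).add ((q_cont i).mul (hF_cont k (p - i)))

theorem hl_summable : Summable (fun s => zc 1 (s + 1) * lamc ^ s) := by
  have hp := lamc_pos.1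
  have h1 := (summable_nat_add_iff 1).mpr (z_sum hp.le le_rfl 1)
  have h2 := h1.mul_right lamc⁻¹
  refine h2.congr (fun s => ?_)
  rw [pow_succ, ← mul_assoc, mul_assoc, mul_inv_cancel₀ hp.ne', mul_one]

theorem hl_cont (k : ℕ) : ContinuousOn (hl k) (Set.Icc 0 lamc) := by
  unfold hl
  refine continuousOn_tsum (fun s => ?_) hl_summable (fun s x hx => ?_)
  · exact (continuous_const.mul (continuous_pow s)).continuousOn
  · rw [Real.norm_eq_abs, abs_of_nonneg (mul_nonneg (hc_nonneg _ _ _) (pow_nonneg hx.1 _))]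
    exact mul_le_mul (hc_le _ _ _) (pow_le_pow_left₀ hx.1 hx.2 _) (pow_nonneg hx.1 _) (zc_nonneg _ _)

theorem Dk_cont (κ : ℕ) : ContinuousOn (Dk κ) (Set.Icc 0 lamc) := by
  unfold Dk
  refine continuousOn_finsetSum _ (fun k _ => ?_)
  refine continuousOn_const.mul ((Hx_cont k 3).sub (continuousOn_finsetSum _ (fun k' _ => ?_)))
  exact (hl_cont k').mul (Hx_cont (k + 1 - k') 1)

theorem Dk_unif {ε : ℝ} (hε : 0 < ε) : ∃ κ0, ∀ κ, κ0 ≤ κ → ∀ x ∈ Set.Icc 0 lamc,
    |Dk κ x - Dx x| ≤ ε := by
  have h1 : TendstoUniformlyOn Dk Dx atTop (Set.Icc 0 lamc) := by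
    refine Monotone.tendstoUniformlyOn_of_forall_tendsto isCompact_Icc Dk_cont ?_ Dx_cont ?_
    · intro x hx
      exact monotone_nat_of_le_succ (fun κ => (Dk_mono hx.1 hx.2 κ).1)
    · intro x hx
      exact Dk_lim hx.1 hx.2
  rw [Metric.tendstoUniformlyOn_iff] at h1
  obtain ⟨κ0, h2⟩ := eventually_atTop.mp (h1 ε hε)
  refine ⟨κ0, fun κ hκ x hx => ?_⟩
  have h3 := h2 κ hκ x hx
  rw [dist_comm, Real.dist_eq] at h3
  exact h3.le

end UN39
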