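import Mathlib
import Pool.Agent.H39.UN.HKd
import Pool.Agent.H39.UN.HKp
import Pool.Agent.H39.UN.Ult
import Pool.Agent.H39.UN.Rat
import Pool.Agent.H39.UN.Plim
import Pool.Agent.H39.UN.LimX
import Pool.Agent.H39.UN.LimY
import Pool.Agent.H39.UN.LimV
import Pool.Agent.H39.UN.PlA
import Pool.Agent.H39.UN.PlC
import Pool.Agent.H39.UN.PlD
import Pool.Agent.H39.UN.PlE
import Pool.Agent.H39.UN.KerA
import Pool.Agent.H39.UN.PlF
import Pool.Agent.H39.UN.PlG
import Pool.Agent.H39.UN.Cont
import Pool.Agent.H39.UN.Fan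
import Pool.Agent.H39.UN.FanB
import Pool.Agent.H39.UN.RepA

/-!
[H39 UN REPB]  (MP_bcc40c_pr)  The limits `Yl` are integrals of explicit functions.

PROOF.  repY: `Yl k p c = el (x^c Hx k p (clp x))`: induction on `k` along Yl_rec, Yl_one, Yl_zero, Yl_k0 and the definition of HF; `p = 0`, `p = 1`, `p + 2`;
uses repX and `∑ hc k j (s+1) (clp x)^(s+1) = hF (zf ·) k j` (hf_eq, hF_cont), el_series as in REPA (`a s = zc i (s+1)`, resp. `a s = hc k j (s+1)`,
`hc k j 0 = 0`).
-/

set_option autoImplicit false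

namespace UN39

open Filter Topology

variable {ι : Type} {U : Ultrafilter ι} {n v : ι → ℕ} {ω : ℝ} {E : ι → (ℝ → ℝ) → ℝ}

theorem repY (h : Sq U n v ω) (hE : Avg E) (hm : ∀ c : ℕ, el U E (fun x => x ^ c) = Xl U n v 1 c)
    (k p c : ℕ) : Yl U n v k p c = el U E (fun x => x ^ c * Hx k p (clp lamc x)) := by
  have hg := rp_hg h hm
  have hr := lamc_pos.1
  have hz : ∀ c : ℕ, ∀ φ : ℝ → ℝ, (∀ x, φ x = 0) → el U E (fun x => x ^ c * φ x) = 0 := by
    intro c φ hφ
    have h1 : (fun x : ℝ => x ^ c * φ x) = fun x => x ^ c * 0 := by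
      funext x
      rw [hφ]
    rw [h1, rp_zero hE]
  induction k generalizing p c with
  | zero =>
    rw [Yl_k0 h, hz]
    intro x
    simp only [Hx, HF]
  | succ k ih =>
    rcases p with _ | _ | p
    · rw [Yl_zero h, hz]
      intro x
      simp only [Hx, HF]
    · rw [show 0 + 1 = 1 from rfl, Yl_one h, ih 2 c]
      congr 1
    · have h1 := Yl_rec h k p c
      have hHF : ∀ j, ContinuousOn (fun x => hF (fun i => zf i x) k j) (Set.Icc 0 lamc) :=
        fun j => hF_cont k j
      have h2 : ∀ i ∈ Finset.range (p + 1),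
          (∑' s, zc i (s + 1) * Yl U n v k (p - i) (c + 1 + s) +
            ∑' s, hc k (p - i) (s + 1) * Xl U n v i (c + 1 + s)) =
          el U E (fun x => x ^ c * (zf i (clp lamc x) * Hx k (p - i) (clp lamc x) +
            qf i (clp lamc x) * hF (fun i => zf i (clp lamc x)) k (p - i))) := by
        intro i hi
        have h3 : ∀ s, Yl U n v k (p - i) (c + 1 + s) =
            el U E (fun x => x ^ (c + 1 + s) * Hx k (p - i) (clp lamc x)) := fun s =>
          ih (p - i) (c + 1 + s)
        have h4 : ∀ s, Xl U n v i (c + 1 + s) =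
            el U E (fun x => x ^ (c + 1 + s) * qf i (clp lamc x)) := fun s =>
          repX h hE hm i (c + 1 + s)
        simp only [h3, h4]
        rw [rp_ser hE hg (Hx_cont k (p - i)) (b := fun s => zc i s) (fun s => zc_nonneg _ _)
          (zc_s0 i) (z_sum hr.le le_rfl i) c]
        rw [rp_ser hE hg (q_cont i) (b := fun s => hc k (p - i) s) (fun s => hc_nonneg _ _ _)
          (by unfold hc; rw [if_neg (by omega)]) (hf_eq hr.le le_rfl k (p - i)).summable c]
        have e1 := rp_add (U := U) hE (φ := fun y => zf i y * Hx k (p - i) y)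
          (ψ := fun y => qf i y * hF (fun i => zf i y) k (p - i))
          ((z_cont i).mul (Hx_cont k (p - i))) ((q_cont i).mul (hHF (p - i))) c
        rw [e1]
        congr 2
        funext x
        have hy := rp_clp x
        rw [(hf_eq hy.1 hy.2 k (p - i)).tsum_eq]
        ring
      rw [Finset.sum_congr rfl h2] at h1
      have hci : ∀ i ∈ Finset.range (p + 1), ContinuousOn (fun y => zf i y * Hx k (p - i) y +
          qf i y * hF (fun i => zf i y) k (p - i)) (Set.Icc 0 lamc) := fun i _ =>
        ((z_cont i).mul (Hx_cont k (p - i))).add ((q_cont i).mul (hHF (p - i)))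
      have h4 := rp_sum (U := U) hE (Finset.range (p + 1)) (fun i y => zf i y * Hx k (p - i) y +
          qf i y * hF (fun i => zf i y) k (p - i)) hci c
      rw [← h4, ih (p + 3) c] at h1
      have h5 := rp_add (U := U) hE (φ := Hx k (p + 3)) (ψ := fun y => ∑ i ∈ Finset.range (p + 1),
        (zf i y * Hx k (p - i) y + qf i y * hF (fun i => zf i y) k (p - i))) (Hx_cont k (p + 3))
        (continuousOn_finsetSum _ hci) c
      rw [← h5] at h1
      rw [show p + 1 + 1 = p + 2 from rfl, h1]
      congr 1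

end UN39
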