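import Mathlib
import Pool.Agent.H39.UN.HKd
import Pool.Agent.H39.UN.HKp
import Pool.Agent.H39.UN.Ult
import Pool.Agent.H39.UN.Rat
import Pool.Agent.H39.UN.Plim
import Pool.Agent.H39.UN.LimX
import Pool.Agent.H39.UN.LimY
import Pool.Agent.H39.UN.LimV
import Pool.Agent.H39.UN.PlA
import Pool.Agent.H39.UN.PlC
import Pool.Agent.H39.UN.PlD
import Pool.Agent.H39.UN.PlE
import Pool.Agent.H39.UN.KerA
import Pool.Agent.H39.UN.PlF
import Pool.Agent.H39.UN.PlG
import Pool.Agent.H39.UN.Cont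
import Pool.Agent.H39.UN.Fan
import Pool.Agent.H39.UN.FanB
import Pool.Agent.H39.UN.RepA
import Pool.Agent.H39.UN.RepB

/-!
[H39 UN REP]  (MP_bcc40c_pr)  Conclusion of the vertex identity: the density of leaf triangles.

PROOFS.  repV: limV becomes `|ω/6 el (x^c) - el (x^c Dk κ (clp x))| ≤ el (x^c)/κ`: in limV the inner sum `∑' hc k' 1 (s+1) Yl (..) 1 (c+s) =
el (x^c hl k' (clp x) Hx (k+1-k') 1 (clp x))` (el_series, repY).
conc: let `κ → ∞`, Dk_unif: `el (x^c (Dx (clp x) - ω/6)) = 0` for all `c`; el_conc with `g = Dx - ω/6` (Dx_cont).  If `ω/6 = dl θ`, then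
`|Dx y - dl θ| ≤ ε'` for `y ∈ [0, lamc]` implies `|y - lam θ| ≤ ε` for suitable `ε' > 0` (continuity and injectivity of `Dx` on a compact set, Dx_inj), so
`E i (1[ε < |clp x - lam θ|]) → 0`; and for `x ∈ [0, 1]`: either `clp x = x`, or `x > lamc`, where `clp x = lamc`, which is at a
distance `> ε` from `lam θ` for small `ε` (`lam θ < lamc`, lam_facts).  (For large `ε` use monotonicity.)
conc_mean: `el (x) = lam θ` (bounded convergence from conc), so `Xl 1 1 = lam θ`.
-/

set_option autoImplicit false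

namespace UN39

open Filter Topology

variable {ι : Type} {U : Ultrafilter ι} {n v : ι → ℕ} {ω : ℝ} {E : ι → (ℝ → ℝ) → ℝ}

private theorem rq_sub (hE : Avg E) {φ ψ : ℝ → ℝ} (hφ : ContinuousOn φ (Set.Icc 0 lamc))
    (hψ : ContinuousOn ψ (Set.Icc 0 lamc)) (c : ℕ) :
    el U E (fun x => x ^ c * (φ (clp lamc x) - ψ (clp lamc x))) =
      el U E (fun x => x ^ c * φ (clp lamc x)) - el U E (fun x => x ^ c * ψ (clp lamc x)) := by
  have h1 : ContinuousOn (fun y => (-1) * ψ y) (Set.Icc 0 lamc) := continuousOn_const.mul hψ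
  have h2 := rp_add (U := U) hE hφ h1 c
  have h3 := rp_smul (U := U) hE hψ (-1) c
  rw [h3] at h2
  have h4 : (fun x => x ^ c * (φ (clp lamc x) - ψ (clp lamc x))) =
      fun x => x ^ c * (φ (clp lamc x) + (-1) * ψ (clp lamc x)) := by
    funext x
    ring
  rw [h4, h2]
  ring

private theorem rq_hl (h : Sq U n v ω) (hE : Avg E)
    (hm : ∀ c : ℕ, el U E (fun x => x ^ c) = Xl U n v 1 c) (k k' c : ℕ) :
    ∑' s, hc k 1 (s + 1) * Yl U n v k' 1 (c + s) =
      el U E (fun x => x ^ c * (hl k (clp lamc x) * Hx k' 1 (clp lamc x))) := by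
  have hg := rp_hg h hm
  have hr := lamc_pos.1
  have hr1 : lamc ≤ 1 := by linarith [lamc_pos.2]
  have hs : Summable fun s => hc k 1 (s + 1) * lamc ^ s := by
    have h1 := ((summable_nat_add_iff 1).2 (hf_eq hr.le le_rfl k 1).summable).mul_left lamc⁻¹
    refine h1.congr fun s => ?_
    rw [pow_succ]
    field_simp
  have h1 := el_series (U := U) hE hr hr1 hg (Hx_cont k' 1) (a := fun s => hc k 1 (s + 1))
    (fun s => hc_nonneg _ _ _) hs c
  have h2 : ∀ s, Yl U n v k' 1 (c + s) = el U E (fun x => x ^ (c + s) * Hx k' 1 (clp lamc x)) :=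
    fun s => repY h hE hm k' 1 (c + s)
  simp only [h2]
  rw [h1.tsum_eq]
  congr 1
  funext x
  unfold hl
  ring

private theorem rq_term (k : ℕ) : ContinuousOn (fun y => Hx k 3 y -
    ∑ k' ∈ Finset.range (k + 2), hl k' y * Hx (k + 1 - k') 1 y) (Set.Icc 0 lamc) :=
  (Hx_cont k 3).sub (continuousOn_finsetSum _ fun k' _ => (hl_cont k').mul (Hx_cont _ 1))

theorem repV (h : Sq U n v ω) (hE : Avg E) (hm : ∀ c : ℕ, el U E (fun x => x ^ c) = Xl U n v 1 c)
    (c κ : ℕ) (hκ : 1 ≤ κ) :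
    |ω / 6 * el U E (fun x => x ^ c) - el U E (fun x => x ^ c * Dk κ (clp lamc x))| ≤
      el U E (fun x => x ^ c) / κ := by
  have h1 := limV h c κ hκ
  have h2 : ∀ k ∈ Finset.Icc 1 κ, (1 / (k : ℝ)) * (Yl U n v k 3 c -
      ∑ k' ∈ Finset.range (k + 2), ∑' s, hc k' 1 (s + 1) * Yl U n v (k + 1 - k') 1 (c + s)) =
      el U E (fun x => x ^ c * ((1 / (k : ℝ)) * (Hx k 3 (clp lamc x) -
        ∑ k' ∈ Finset.range (k + 2), hl k' (clp lamc x) * Hx (k + 1 - k') 1 (clp lamc x)))) := by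
    intro k _
    have e1 := rp_smul (U := U) hE (rq_term k) (1 / (k : ℝ)) c
    rw [e1]
    congr 1
    have e2 := rq_sub (U := U) hE (φ := Hx k 3)
      (ψ := fun y => ∑ k' ∈ Finset.range (k + 2), hl k' y * Hx (k + 1 - k') 1 y) (Hx_cont k 3)
      (continuousOn_finsetSum _ fun k' _ => (hl_cont k').mul (Hx_cont _ 1)) c
    rw [e2, repY h hE hm k 3 c]
    congr 1
    have e3 := rp_sum (U := U) hE (Finset.range (k + 2))
      (fun k' y => hl k' y * Hx (k + 1 - k') 1 y)
      (fun k' _ => (hl_cont k').mul (Hx_cont _ 1)) c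
    rw [e3]
    exact Finset.sum_congr rfl fun k' _ => rq_hl h hE hm k' (k + 1 - k') c
  rw [Finset.sum_congr rfl h2] at h1
  have e4 := rp_sum (U := U) hE (Finset.Icc 1 κ) (fun k y => (1 / (k : ℝ)) * (Hx k 3 y -
      ∑ k' ∈ Finset.range (k + 2), hl k' y * Hx (k + 1 - k') 1 y))
    (fun k _ => continuousOn_const.mul (rq_term k)) c
  rw [← e4, ← hm] at h1
  exact h1

private theorem rq_bd1 (c : ℕ) : ∀ x ∈ Set.Icc (0 : ℝ) 1, |x ^ c| ≤ 1 := by
  intro x hx
  rw [abs_of_nonneg (pow_nonneg hx.1 _)]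
  exact pow_le_one₀ hx.1 hx.2

private theorem rq_el1 (hE : Avg E) (c : ℕ) : 0 ≤ el U E (fun x => x ^ c) ∧
    el U E (fun x => x ^ c) ≤ 1 := by
  have h1 := (el_tendsto (U := U) hE (rq_bd1 c)).2
  have h2 : el U E (fun _ => (0 : ℝ)) ≤ el U E (fun x => x ^ c) :=
    el_mono hE (B := 0) (B' := 1) (fun x _ => by rw [abs_zero]) (rq_bd1 c)
      fun x hx => pow_nonneg hx.1 _
  rw [el_const hE] at h2
  exact ⟨h2, (abs_le.1 h1).2⟩

/-- the moments of `Dx - ω/6` vanish -/
private theorem rq_mom (h : Sq U n v ω) (hE : Avg E)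
    (hm : ∀ c : ℕ, el U E (fun x => x ^ c) = Xl U n v 1 c) (c : ℕ) :
    el U E (fun x => x ^ c * (Dx (clp lamc x) - ω / 6)) = 0 := by
  have hc0 : ContinuousOn (fun _ : ℝ => ω / 6) (Set.Icc 0 lamc) := continuousOn_const
  have h1 := rq_sub (U := U) hE Dx_cont hc0 c
  rw [h1]
  have h2 : el U E (fun x => x ^ c * (ω / 6)) = ω / 6 * el U E (fun x => x ^ c) := by
    rw [← el_smul hE (ω / 6) (rq_bd1 c)]
    congr 1
    funext x
    ring
  rw [h2]
  obtain ⟨h3, h4⟩ := rq_el1 (U := U) hE c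
  by_contra hne
  obtain ⟨d, hd⟩ : ∃ d : ℝ, d = |el U E (fun x => x ^ c * Dx (clp lamc x)) -
      ω / 6 * el U E (fun x => x ^ c)| := ⟨_, rfl⟩
  have hd0 : 0 < d := by
    rw [hd]
    exact abs_pos.2 hne
  obtain ⟨κ0, hκ0⟩ := Dk_unif (ε := d / 3) (by positivity)
  obtain ⟨κ1, hκ1⟩ := exists_nat_gt (3 / d)
  obtain ⟨κ, hκ⟩ : ∃ κ, κ = max (max κ0 κ1) 1 := ⟨_, rfl⟩
  have hk0 : κ0 ≤ κ := by omega
  have hk1 : κ1 ≤ κ := by omega
  have hk2 : 1 ≤ κ := by omega
  have h5 := repV h hE hm c κ hk2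
  have hk3 : (3 / d : ℝ) < κ := lt_of_lt_of_le hκ1 (by exact_mod_cast hk1)
  have hκpos : (0 : ℝ) < κ := by exact_mod_cast hk2
  have h6 : el U E (fun x => x ^ c) / κ ≤ d / 3 := by
    rw [div_le_div_iff₀ hκpos (by norm_num)]
    rw [div_lt_iff₀ hd0] at hk3
    nlinarith
  have h7 := rq_sub (U := U) hE (Dk_cont κ) Dx_cont c
  have h8 : |el U E (fun x => x ^ c * (Dk κ (clp lamc x) - Dx (clp lamc x)))| ≤ d / 3 := by
    refine (el_tendsto (U := U) hE (B := d / 3) fun x hx => ?_).2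
    rw [abs_mul]
    have e1 := hκ0 κ hk0 (clp lamc x) (rp_clp x)
    have e2 := rq_bd1 c x hx
    calc |x ^ c| * |Dk κ (clp lamc x) - Dx (clp lamc x)|
        ≤ 1 * (d / 3) := mul_le_mul e2 e1 (abs_nonneg _) zero_le_one
      _ = d / 3 := one_mul _
  rw [h7] at h8
  have h9 : d ≤ 2 * (d / 3) := by
    calc d = |el U E (fun x => x ^ c * Dx (clp lamc x)) - ω / 6 * el U E (fun x => x ^ c)| := hd
      _ = |(ω / 6 * el U E (fun x => x ^ c) - el U E (fun x => x ^ c * Dk κ (clp lamc x))) +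
          (el U E (fun x => x ^ c * Dk κ (clp lamc x)) -
            el U E (fun x => x ^ c * Dx (clp lamc x)))| := by
          rw [abs_sub_comm]
          congr 1
          ring
      _ ≤ _ := (abs_add_le _ _).trans (by linarith)
  linarith

theorem conc (h : Sq U n v ω) (hE : Avg E) (hm : ∀ c : ℕ, el U E (fun x => x ^ c) = Xl U n v 1 c)
    {θ : ℝ} (h0 : 0 < θ) (h1 : θ < 1 / 4) (hω : 6 * dl θ = ω) {ε : ℝ} (hε : 0 < ε) :
    Tendsto (fun i => E i ({x : ℝ | ε < |x - lam θ|}.indicator fun _ => 1)) U (𝓝 0) := by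
  obtain ⟨l0, l1, -, l2⟩ := lam_facts h0 h1
  have hr := lamc_pos.1
  have hr1 : lamc ≤ 1 := by linarith [lamc_pos.2]
  have hgc : ContinuousOn (fun y => Dx y - ω / 6) (Set.Icc 0 lamc) :=
    Dx_cont.sub continuousOn_const
  obtain ⟨δ, hδ⟩ : ∃ δ : ℝ, δ = min ε (lamc - lam θ) := ⟨_, rfl⟩
  have hδ0 : 0 < δ := by
    rw [hδ]
    exact lt_min hε (by linarith)
  obtain ⟨ε', hε', hkey⟩ : ∃ ε' : ℝ, 0 < ε' ∧ ∀ y ∈ Set.Icc 0 lamc, δ ≤ |y - lam θ| →
      ε' < |Dx y - ω / 6| := by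
    obtain ⟨K, hK⟩ : ∃ K : Set ℝ, K = Set.Icc 0 lamc ∩ {y | δ ≤ |y - lam θ|} := ⟨_, rfl⟩
    have hKc : IsCompact K := by
      rw [hK]
      exact isCompact_Icc.inter_right (isClosed_le continuous_const
        ((continuous_id.sub continuous_const).abs))
    have hKs : K ⊆ Set.Icc 0 lamc := by
      rw [hK]
      exact Set.inter_subset_left
    rcases K.eq_empty_or_nonempty with hemp | hne
    · refine ⟨1, one_pos, fun y hy hy2 => ?_⟩
      exfalso
      have : y ∈ K := by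
        rw [hK]
        exact ⟨hy, hy2⟩
      rw [hemp] at this
      exact this
    · obtain ⟨y0, hy0, hmin⟩ := hKc.exists_isMinOn hne ((hgc.mono hKs).abs)
      have hpos : 0 < |Dx y0 - ω / 6| := by
        rw [abs_pos]
        intro he
        have e1 : Dx y0 = dl θ := by
          have : ω / 6 = dl θ := by rw [← hω]; ring
          linarith
        have e2 := Dx_inj h0 h1 (hKs hy0).1 (hKs hy0).2 e1
        rw [hK] at hy0
        have e3 : δ ≤ |y0 - lam θ| := hy0.2
        rw [e2, sub_self, abs_zero] at e3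
        linarith
      refine ⟨|Dx y0 - ω / 6| / 2, by positivity, fun y hy hy2 => ?_⟩
      have : y ∈ K := by
        rw [hK]
        exact ⟨hy, hy2⟩
      have e4 : |Dx y0 - ω / 6| ≤ |Dx y - ω / 6| := hmin this
      linarith
  have h2 := el_conc (U := U) hE hr hr1 hgc (rq_mom h hE hm) hε'
  refine tendsto_of_tendsto_of_tendsto_of_le_of_le tendsto_const_nhds h2 ?_ ?_
  · intro i
    have e1 := hE.mono i (fun _ => (0 : ℝ)) ({x : ℝ | ε < |x - lam θ|}.indicator fun _ => 1)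
      (fun x _ => Set.indicator_nonneg (fun _ _ => zero_le_one) _)
    have e2 := hE.smul i 0 (fun _ => 1)
    simp only [zero_mul] at e2
    rw [e2] at e1
    exact e1
  · intro i
    refine hE.mono i _ _ fun x hx => ?_
    by_cases hx1 : ε < |x - lam θ|
    · have hy : ε' < |Dx (clp lamc x) - ω / 6| := by
        refine hkey _ (rp_clp x) ?_
        rcases le_total x lamc with hx2 | hx2
        · rw [clp_of_mem ⟨hx.1, hx2⟩, hδ]
          exact (min_le_left _ _).trans hx1.le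
        · rw [clp_of_ge hr.le hx2, hδ, abs_of_pos (by linarith)]
          exact min_le_right _ _
      rw [Set.indicator_of_mem (by exact hx1), Set.indicator_of_mem (by exact hy)]
    · rw [Set.indicator_of_notMem (by exact hx1)]
      exact Set.indicator_nonneg (fun _ _ => zero_le_one) _

theorem conc_mean (h : Sq U n v ω) (hE : Avg E)
    (hm : ∀ c : ℕ, el U E (fun x => x ^ c) = Xl U n v 1 c)
    {θ : ℝ} (h0 : 0 < θ) (h1 : θ < 1 / 4) (hω : 6 * dl θ = ω) :
    Xl U n v 1 1 = lam θ := by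
  obtain ⟨l0, l1, -, -⟩ := lam_facts h0 h1
  have hr1 : lamc ≤ 1 := by linarith [lamc_pos.2]
  rw [← hm]
  by_contra hne
  obtain ⟨d, hd⟩ : ∃ d : ℝ, d = |el U E (fun x => x ^ 1) - lam θ| := ⟨_, rfl⟩
  have hd0 : 0 < d := by
    rw [hd]
    exact abs_pos.2 (sub_ne_zero.2 hne)
  have h2 := conc h hE hm h0 h1 hω (half_pos hd0)
  have h3 := (el_tendsto (U := U) hE (rq_bd1 1)).1
  have h4 : Tendsto (fun i => |E i (fun x => x ^ 1) - lam θ|) U (𝓝 d) := by
    rw [hd]
    exact (h3.sub_const _).abs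
  have h5 : Tendsto (fun i => d / 2 + E i ({x : ℝ | d / 2 < |x - lam θ|}.indicator fun _ => 1)) U
      (𝓝 (d / 2)) := by
    have := h2.const_add (d / 2)
    rwa [add_zero] at this
  have hconst : ∀ i (a : ℝ), E i (fun _ => a) = a := by
    intro i a
    have e := hE.smul i a (fun _ => 1)
    rw [hE.one] at e
    simpa using e
  have h6 : d ≤ d / 2 := by
    refine le_of_tendsto_of_tendsto' h4 h5 fun i => ?_
    obtain ⟨J, hJ⟩ : ∃ J : ℝ → ℝ, J = {x : ℝ | d / 2 < |x - lam θ|}.indicator fun _ => 1 :=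
      ⟨_, rfl⟩
    rw [← hJ]
    have hJv : ∀ x ∈ Set.Icc (0 : ℝ) 1, |x - lam θ| ≤ d / 2 + J x := by
      intro x hx
      rw [hJ]
      by_cases hx1 : d / 2 < |x - lam θ|
      · rw [Set.indicator_of_mem (by exact hx1)]
        have : |x - lam θ| ≤ 1 := by
          rw [abs_le]
          constructor <;> linarith [hx.1, hx.2]
        linarith
      · rw [Set.indicator_of_notMem (by exact hx1)]
        linarith [not_lt.1 hx1]
    have e1 : E i (fun x => d / 2 + J x) = d / 2 + E i J := by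
      rw [hE.add i (fun _ => d / 2) J, hconst]
    have e2 : E i (fun x => x ^ 1 + (-lam θ)) = E i (fun x => x ^ 1) - lam θ := by
      rw [hE.add i (fun x => x ^ 1) (fun _ => -lam θ), hconst]
      ring
    have e3 : E i (fun x => lam θ + (-1) * x ^ 1) = lam θ - E i (fun x => x ^ 1) := by
      rw [hE.add i (fun _ => lam θ) (fun x => (-1) * x ^ 1), hconst,
        hE.smul i (-1) (fun x => x ^ 1)]
      ring
    rw [abs_le]
    constructor
    · have e4 := hE.mono i (fun x => lam θ + (-1) * x ^ 1) (fun x => d / 2 + J x) fun x hx => by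
        have := (abs_le.1 (hJv x hx)).1
        simp only [pow_one]
        linarith
      rw [e1, e3] at e4
      linarith
    · have e4 := hE.mono i (fun x => x ^ 1 + (-lam θ)) (fun x => d / 2 + J x) fun x hx => by
        have := (abs_le.1 (hJv x hx)).2
        simp only [pow_one]
        linarith
      rw [e1, e2] at e4
      linarith
  linarith

end UN39
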