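import Mathlib
import Pool.Agent.H39.HG.Defs
import Pool.Agent.H39.UN.PlC
import Pool.Agent.H39.UN.PlGa
import Pool.Agent.H39.UN.PlGb
import Pool.Agent.H39.UN.PlG

/-!
[H39 UN RHOA]  (MP_bcc40c_pr)  The inverse function of `6 dl`.

`thw ω` = the number `θ ∈ (0, 1/4)` with `6 dl θ = ω` (`0 < ω < 1`), `lamw ω = lam (thw ω)`.

PROOFS.  thw_spec: `dl` is continuous and strictly increasing on `(0, 1/4)` (dl_mono), with the limits 0 and 1/6 (dl_lim), intermediate value theorem;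
uniqueness by dl_mono.  lamw_cont: the inverse of a strictly monotone continuous function on an open interval is continuous and strictly monotone; lam_mono.
TF_ex: on `Fin (6 m)` the permutation `3k + r ↦ 3k + (r+1 mod 3)` (for `m = 0` the type is empty).
-/

set_option autoImplicit false

namespace UN39

open Filter Topology Equiv HG39

open Classical in
noncomputable def thw (ω : ℝ) : ℝ :=
  if h : ∃ θ : ℝ, 0 < θ ∧ θ < 1 / 4 ∧ 6 * dl θ = ω then h.choose else 0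

noncomputable def lamw (ω : ℝ) : ℝ := lam (thw ω)

theorem dl_contOn : ContinuousOn dl (Set.Ioo 0 (1 / 4)) := by
  have hs : ∀ h ∈ Set.Ioo (0 : ℝ) (1 / 4), 0 < Real.sqrt (1 - 4 * h) ∧ Real.sqrt (1 - 4 * h) < 1 := by
    intro h hh
    refine ⟨Real.sqrt_pos.mpr (by linarith [hh.2]), ?_⟩
    rw [Real.sqrt_lt' one_pos]
    linarith [hh.1]
  have hc : Continuous (fun h : ℝ => Real.sqrt (1 - 4 * h)) := by fun_prop
  unfold dl
  refine ContinuousOn.mul ?_ ?_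
  · refine ContinuousOn.div continuousOn_id ?_ ?_
    · exact Continuous.continuousOn (by fun_prop)
    · intro h hh
      have h1 := (hs h hh).1
      have h2 : 0 < 1 + 8 * h := by linarith [hh.1]
      positivity
  · refine ContinuousOn.log ?_ ?_
    · refine ContinuousOn.div ?_ ?_ ?_
      · exact Continuous.continuousOn (by fun_prop)
      · exact Continuous.continuousOn (by fun_prop)
      · intro h hh
        have h1 := (hs h hh).2
        have h2 : 0 < 1 - Real.sqrt (1 - 4 * h) := by linarith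
        exact h2.ne'
    · intro h hh
      have h1 := hs h hh
      have h2 : 0 < 1 - Real.sqrt (1 - 4 * h) := by linarith
      have h3 : 0 < 1 + Real.sqrt (1 - 4 * h) := by linarith
      exact (div_pos h3 h2).ne'

theorem dl_ex_lt {ε : ℝ} (hε : 0 < ε) {b : ℝ} (hb : 0 < b) : ∃ θ, 0 < θ ∧ θ < b ∧ θ < 1 / 4 ∧ dl θ < ε := by
  have h1 : ∀ᶠ θ in 𝓝[>] (0 : ℝ), dl θ < ε := dl_lim.1.eventually (eventually_lt_nhds hε)
  have h2 : ∀ᶠ θ in 𝓝[>] (0 : ℝ), θ ∈ Set.Ioo (0 : ℝ) (min b (1 / 4)) :=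
    Ioo_mem_nhdsGT (lt_min hb (by norm_num))
  obtain ⟨θ, h3, h4⟩ := (h1.and h2).exists
  exact ⟨θ, h4.1, h4.2.trans_le (min_le_left _ _), h4.2.trans_le (min_le_right _ _), h3⟩

theorem dl_ex_gt {ε : ℝ} (hε : ε < 1 / 6) {b : ℝ} (hb : b < 1 / 4) : ∃ θ, b < θ ∧ 0 < θ ∧ θ < 1 / 4 ∧ ε < dl θ := by
  have h1 : ∀ᶠ θ in 𝓝[<] (1 / 4 : ℝ), ε < dl θ := dl_lim.2.eventually (eventually_gt_nhds hε)
  have h2 : ∀ᶠ θ in 𝓝[<] (1 / 4 : ℝ), θ ∈ Set.Ioo (max b 0) (1 / 4) :=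
    Ioo_mem_nhdsLT (max_lt hb (by norm_num))
  obtain ⟨θ, h3, h4⟩ := (h1.and h2).exists
  exact ⟨θ, (le_max_left _ _).trans_lt h4.1, (le_max_right _ _).trans_lt h4.1, h4.2, h3⟩

theorem dl_nonneg {θ : ℝ} (h0 : 0 < θ) (h1 : θ < 1 / 4) : 0 ≤ dl θ := by
  by_contra hcon
  push Not at hcon
  -- values near 0 are smaller than `dl θ < 0` and tend to 0
  have h2 : ∀ᶠ t in 𝓝[>] (0 : ℝ), dl θ < dl t := dl_lim.1.eventually (eventually_gt_nhds hcon)
  have h3 : ∀ᶠ t in 𝓝[>] (0 : ℝ), t ∈ Set.Ioo (0 : ℝ) θ := Ioo_mem_nhdsGT h0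
  obtain ⟨t, h4, h5⟩ := (h2.and h3).exists
  have h6 := dl_mono ⟨h5.1, h5.2.trans h1⟩ ⟨h0, h1⟩ h5.2
  linarith

theorem dl_le_six {θ : ℝ} (h0 : 0 < θ) (h1 : θ < 1 / 4) : dl θ ≤ 1 / 6 := by
  by_contra hcon
  push Not at hcon
  have h2 : ∀ᶠ t in 𝓝[<] (1 / 4 : ℝ), dl t < dl θ := dl_lim.2.eventually (eventually_lt_nhds hcon)
  have h3 : ∀ᶠ t in 𝓝[<] (1 / 4 : ℝ), t ∈ Set.Ioo θ (1 / 4) := Ioo_mem_nhdsLT h1
  obtain ⟨t, h4, h5⟩ := (h2.and h3).exists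
  have h6 := dl_mono ⟨h0, h1⟩ ⟨h0.trans h5.1, h5.2⟩ h5.1
  linarith

theorem dl_range {θ : ℝ} (h0 : 0 < θ) (h1 : θ < 1 / 4) : 0 < 6 * dl θ ∧ 6 * dl θ < 1 := by
  have h2 := dl_nonneg (θ := θ / 2) (by linarith) (by linarith)
  have h3 : dl (θ / 2) < dl θ := dl_mono ⟨by linarith, by linarith⟩ ⟨h0, h1⟩ (by linarith)
  have h4 := dl_le_six (θ := (θ + 1 / 4) / 2) (by linarith) (by linarith)
  have h5 : dl θ < dl ((θ + 1 / 4) / 2) := dl_mono ⟨h0, h1⟩ ⟨by linarith, by linarith⟩ (by linarith)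
  constructor <;> linarith

theorem thw_spec {ω : ℝ} (h0 : 0 < ω) (h1 : ω < 1) :
    0 < thw ω ∧ thw ω < 1 / 4 ∧ 6 * dl (thw ω) = ω ∧
      ∀ θ, 0 < θ → θ < 1 / 4 → 6 * dl θ = ω → θ = thw ω := by
  have hex : ∃ θ : ℝ, 0 < θ ∧ θ < 1 / 4 ∧ 6 * dl θ = ω := by
    obtain ⟨a, ha0, -, ha1, ha2⟩ := dl_ex_lt (ε := ω / 6) (by linarith) (b := 1) one_pos
    obtain ⟨b, hb0, hb, hb1, hb2⟩ := dl_ex_gt (ε := ω / 6) (by linarith) (b := a) ha1
    have h2 : ContinuousOn dl (Set.Icc a b) := dl_contOn.mono (fun t ht => ⟨ha0.trans_le ht.1, ht.2.trans_lt hb1⟩)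
    obtain ⟨θ, hθ, hθ2⟩ := intermediate_value_Icc hb0.le h2 ⟨ha2.le, hb2.le⟩
    exact ⟨θ, ha0.trans_le hθ.1, hθ.2.trans_lt hb1, by rw [hθ2]; ring⟩
  have h2 : thw ω = hex.choose := by
    unfold thw
    rw [dif_pos hex]
  have h3 := hex.choose_spec
  rw [← h2] at h3
  refine ⟨h3.1, h3.2.1, h3.2.2, ?_⟩
  intro θ ht0 ht1 ht
  refine dl_mono.injOn ⟨ht0, ht1⟩ ⟨h3.1, h3.2.1⟩ ?_
  have := h3.2.2
  linarith

theorem thw_dl {θ : ℝ} (h0 : 0 < θ) (h1 : θ < 1 / 4) : thw (6 * dl θ) = θ := by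
  have h2 := dl_range h0 h1
  exact ((thw_spec h2.1 h2.2).2.2.2 θ h0 h1 rfl).symm

theorem thw_mono : StrictMonoOn thw (Set.Ioo 0 1) := by
  intro a ha b hb hab
  have h1 := thw_spec ha.1 ha.2
  have h2 := thw_spec hb.1 hb.2
  by_contra hcon
  push Not at hcon
  have h3 : dl (thw b) ≤ dl (thw a) := dl_mono.monotoneOn ⟨h2.1, h2.2.1⟩ ⟨h1.1, h1.2.1⟩ hcon
  have h4 := h1.2.2.1
  have h5 := h2.2.2.1
  linarith

theorem thw_image : thw '' Set.Ioo 0 1 = Set.Ioo 0 (1 / 4) := by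
  ext θ
  constructor
  · rintro ⟨ω, hω, rfl⟩
    have h1 := thw_spec hω.1 hω.2
    exact ⟨h1.1, h1.2.1⟩
  · intro h
    exact ⟨6 * dl θ, dl_range h.1 h.2, thw_dl h.1 h.2⟩

theorem thw_cont : ContinuousOn thw (Set.Ioo 0 1) := by
  intro ω hω
  refine ContinuousAt.continuousWithinAt ?_
  refine thw_mono.continuousAt_of_image_mem_nhds (Ioo_mem_nhds hω.1 hω.2) ?_
  rw [thw_image]
  have h1 := thw_spec hω.1 hω.2
  exact Ioo_mem_nhds h1.1 h1.2.1

theorem lam_contOn : ContinuousOn lam (Set.Ioo 0 (1 / 4)) := by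
  unfold lam
  refine ContinuousOn.div continuousOn_id ?_ ?_
  · refine ContinuousOn.rpow_const (Continuous.continuousOn (by fun_prop)) ?_
    intro h hh
    left
    have : 0 < 1 + 8 * h := by linarith [hh.1]
    exact this.ne'
  · intro h hh
    have : 0 < 1 + 8 * h := by linarith [hh.1]
    exact (Real.rpow_pos_of_pos this _).ne'

theorem lamw_cont : ContinuousOn lamw (Set.Ioo 0 1) ∧ StrictMonoOn lamw (Set.Ioo 0 1) := by
  have hm : ∀ ω ∈ Set.Ioo (0 : ℝ) 1, thw ω ∈ Set.Ioo (0 : ℝ) (1 / 4) := by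
    intro ω hω
    have h1 := thw_spec hω.1 hω.2
    exact ⟨h1.1, h1.2.1⟩
  refine ⟨?_, ?_⟩
  · exact lam_contOn.comp thw_cont hm
  · intro a ha b hb hab
    have h1 := hm a ha
    have h2 := hm b hb
    exact lam_mono ⟨h1.1.le, h1.2.le⟩ ⟨h2.1.le, h2.2.le⟩ (thw_mono ha hb hab)

theorem TF_ex (m : ℕ) : ∃ f : Perm (Fin (6 * m)), TF f := by
  have h6 : 2 * m * 3 = 6 * m := by ring
  obtain ⟨e⟩ : Nonempty (Fin (2 * m) × Fin 3 ≃ Fin (6 * m)) := ⟨finProdFinEquiv.trans (finCongr h6)⟩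
  have hr3 : ∀ x : Fin 3, finRotate 3 (finRotate 3 (finRotate 3 x)) = x := by decide
  have hr1 : ∀ x : Fin 3, finRotate 3 x ≠ x := by decide
  refine ⟨e.symm.trans ((Equiv.prodCongr (Equiv.refl (Fin (2 * m))) (finRotate 3)).trans e), ?_, ?_⟩
  · intro d
    simp only [Equiv.trans_apply, Equiv.symm_apply_apply, Equiv.prodCongr_apply, Prod.map, Equiv.refl_apply]
    rw [hr3]
    exact e.apply_symm_apply d
  · intro d hd
    simp only [Equiv.trans_apply, Equiv.prodCongr_apply, Prod.map, Equiv.refl_apply] at hd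
    have h1 := congrArg e.symm hd
    rw [Equiv.symm_apply_apply] at h1
    exact hr1 _ (congrArg Prod.snd h1)

end UN39
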