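import Mathlib
import Pool.Agent.H39.HG.Defs
import Pool.Agent.H39.UN.Kk
import Pool.Agent.H39.UN.Ineq
import Pool.Agent.H39.UN.Ult
import Pool.Agent.H39.UN.Rat
import Pool.Agent.H39.UN.LimX
import Pool.Agent.H39.UN.PlC
import Pool.Agent.H39.UN.PlG
import Pool.Agent.H39.UN.Fan
import Pool.Agent.H39.UN.Law
import Pool.Agent.H39.UN.LawB
import Pool.Agent.H39.UN.Rep
import Pool.Agent.H39.UN.RhoA

/-!
[H39 UN RHO]  (MP_bcc40c_pr)  The ratio limit `bc (n-1) (v-1)/bc n v → lamw (v/n)`, uniformly, and the density of leaf triangles.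

PROOFS.  rho_seq: for sizes `Sq U n v ω`: choose any `f i` with `TF (f i)` (TF_ex); conc_mean with Ea_avg,
Ea_mom: `Xl 1 1 = lam (thw ω) = lamw ω`, and Xl_23.
rho: by contradiction: if it fails for some `ε`, there are `n_k → ∞`, `v_k` with `ω1 n_k ≤ v_k ≤ ω2 n_k`, right parity, and a difference `> ε`; take an
ultrafilter on `ℕ` finer than `atTop` (`Filter.exists_ultrafilter_le` or `Ultrafilter.of`); `v_k/n_k` has a limit `ω ∈ [ω1, ω2]` along it; rho_seq and continuity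
of `lamw`: contradiction.
leafw: by contradiction in the same way: bad `n`'s, with bad `f`; conc for the ultrafilter, `E i` of the indicator of `{δ < |x - lam θ|}` is the proportion of
bad `α`; `6 dl θ ∈ (0, 1)` (thw_spec-like: dl_mono, dl_lim).  (If `v n` and `n` have different parity then `TS` is empty by ts_card, bc_supp, and the statement is
trivial.)
-/

set_option autoImplicit false

namespace UN39

open Filter Topology Equiv HG39

theorem rho_seq {ι : Type} {U : Ultrafilter ι} {n v : ι → ℕ} {ω : ℝ} (h : Sq U n v ω) :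
    Tendsto (fun i => bc (n i - 1) (v i - 1) / bc (n i) (v i)) U (𝓝 (lamw ω)) := by
  have hf : ∀ i, ∃ f : Perm (Fin (6 * n i)), TF f := fun i => TF_ex (n i)
  choose f hf using hf
  have h1 := thw_spec h.ω0 h.ω1
  have h2 := conc_mean h (Ea_avg (v := v) f) (fun c => Ea_mom h f hf c) h1.1 h1.2.1 h1.2.2.1
  have h3 := (Xl_23 h 1).2.2
  rw [h2] at h3
  exact h3

theorem rho_ult {nn vv : ℕ → ℕ} {ω1 ω2 : ℝ} (h1 : 0 < ω1) (h2 : ω2 < 1) (hn : ∀ k, k ≤ nn k)
    (hv1 : ∀ k, ω1 * nn k ≤ vv k) (hv2 : ∀ k, (vv k : ℝ) ≤ ω2 * nn k)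
    (hp : ∀ k, vv k % 2 = nn k % 2) :
    ∃ (U : Ultrafilter ℕ) (ω : ℝ), Sq U nn vv ω := by
  obtain ⟨U, hU⟩ : ∃ U : Ultrafilter ℕ, (U : Filter ℕ) ≤ atTop :=
    ⟨Ultrafilter.of atTop, Ultrafilter.of_le atTop⟩
  have t : Tendsto nn U atTop :=
    (tendsto_atTop_mono hn tendsto_id).mono_left hU
  have hB : ∀ k, |(vv k : ℝ) / nn k| ≤ 1 := by
    intro k
    rw [abs_of_nonneg (by positivity)]
    apply div_le_one_of_le₀ _ (Nat.cast_nonneg _)
    have h3 := hv2 k
    have h4 : ω2 * nn k ≤ 1 * nn k := mul_le_mul_of_nonneg_right h2.le (Nat.cast_nonneg _)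
    linarith
  have hl := ulim_tendsto (U := U) (Eventually.of_forall hB)
  have hpos : ∀ᶠ k in (U : Filter ℕ), 1 ≤ nn k := t.eventually_ge_atTop 1
  have g1 : ω1 ≤ ulim U (fun k => (vv k : ℝ) / nn k) := by
    refine ge_of_tendsto hl ?_
    filter_upwards [hpos] with k hk
    rw [le_div_iff₀ (by exact_mod_cast hk)]
    exact hv1 k
  have g2 : ulim U (fun k => (vv k : ℝ) / nn k) ≤ ω2 := by
    refine le_of_tendsto hl ?_
    filter_upwards [hpos] with k hk
    rw [div_le_iff₀ (by exact_mod_cast hk)]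
    exact hv2 k
  exact ⟨U, _, t, hl, Eventually.of_forall hp, by linarith, by linarith⟩

theorem rho {ω1 ω2 : ℝ} (h1 : 0 < ω1) (h2 : ω2 < 1) {ε : ℝ} (hε : 0 < ε) :
    ∃ n0 : ℕ, ∀ n v : ℕ, n0 ≤ n → ω1 * n ≤ v → (v : ℝ) ≤ ω2 * n → v % 2 = n % 2 →
      |bc (n - 1) (v - 1) / bc n v - lamw ((v : ℝ) / n)| ≤ ε := by
  by_contra hcon
  push Not at hcon
  choose nn vv a1 a2 a3 a4 a5 using hcon
  obtain ⟨U, ω, hS⟩ := rho_ult h1 h2 a1 a2 a3 a4
  have t1 := rho_seq hS
  have hc : ContinuousAt lamw ω := lamw_cont.1.continuousAt (Ioo_mem_nhds hS.ω0 hS.ω1)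
  have t2 : Tendsto (fun k => lamw ((vv k : ℝ) / nn k)) U (𝓝 (lamw ω)) := hc.tendsto.comp hS.lim
  have t3 := (t1.sub t2).abs
  rw [sub_self, abs_zero] at t3
  have t4 : ε ≤ 0 := ge_of_tendsto t3 (Eventually.of_forall fun k => (a5 k).le)
  linarith

open Classical in
theorem leafw {θ : ℝ} (h0 : 0 < θ) (h1 : θ < 1 / 4) {v : ℕ → ℕ}
    (hv : Tendsto (fun n => (v n : ℝ) / n) atTop (𝓝 (6 * dl θ))) {ε δ : ℝ} (hε : 0 < ε)
    (hδ : 0 < δ) : ∃ n0 : ℕ, ∀ n, n0 ≤ n → ∀ f : Perm (Fin (6 * n)), TF f →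
      ((Finset.univ.filter (fun α : Perm (Fin (6 * n)) => α ∈ TS f (v n) ∧
        δ < |(lfc f α : ℝ) / (6 * n) - lam θ|)).card : ℝ) ≤ ε * (TS f (v n)).ncard := by
  by_contra hcon
  push Not at hcon
  choose nn a1 ff a2 a3 using hcon
  obtain ⟨U, hU⟩ : ∃ U : Ultrafilter ℕ, (U : Filter ℕ) ≤ atTop :=
    ⟨Ultrafilter.of atTop, Ultrafilter.of_le atTop⟩
  have t : Tendsto nn U atTop :=
    (tendsto_atTop_mono a1 tendsto_id).mono_left hU
  have hpos : ∀ᶠ k in (U : Filter ℕ), 1 ≤ nn k := t.eventually_ge_atTop 1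
  have hne : ∀ k, (TS (ff k) (v (nn k))).ncard ≠ 0 := by
    intro k hk
    have h3 := a3 k
    rw [Set.ncard_eq_zero (Set.toFinite _)] at hk
    rw [hk] at h3
    simp at h3
  have hpar : ∀ᶠ k in (U : Filter ℕ), v (nn k) % 2 = nn k % 2 := by
    filter_upwards [hpos] with k hk
    by_contra hq
    have h3 := ts_card (a2 k) (n := nn k) (by simp) hk (v (nn k))
    have h4 : bc (nn k) (v (nn k)) = 0 := by
      by_contra h5
      exact hq (bc_supp h5).2.2
    rw [h4, mul_zero] at h3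
    have h5 : (0 : ℝ) < nn k := by exact_mod_cast hk
    have h6 : ((TS (ff k) (v (nn k))).ncard : ℝ) = 0 := by
      rcases mul_eq_zero.1 h3 with h | h
      · exact h
      · exfalso
        linarith
    exact hne k (by exact_mod_cast h6)
  have hr := dl_range h0 h1
  have hS : Sq U nn (fun k => v (nn k)) (6 * dl θ) :=
    ⟨t, hv.comp t, hpar, hr.1, hr.2⟩
  have t1 := conc hS (Ea_avg (v := fun k => v (nn k)) ff) (fun c => Ea_mom hS ff a2 c) h0 h1 rfl hδ
  have t2 : ε ≤ 0 := by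
    refine ge_of_tendsto t1 (Eventually.of_forall fun k => ?_)
    have h3 := a3 k
    simp only [Ea]
    rw [if_neg (hne k)]
    have h4 : ∑ α ∈ Finset.univ.filter (fun α => α ∈ TS (ff k) (v (nn k))),
        ({x : ℝ | δ < |x - lam θ|}.indicator fun _ => (1 : ℝ)) ((lfc (ff k) α : ℝ) / (6 * nn k)) =
        ((Finset.univ.filter (fun α : Perm (Fin (6 * nn k)) => α ∈ TS (ff k) (v (nn k)) ∧
        δ < |(lfc (ff k) α : ℝ) / (6 * nn k) - lam θ|)).card : ℝ) := by
      rw [← Finset.filter_filter, ← Finset.sum_boole]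
      refine Finset.sum_congr rfl fun α _ => ?_
      rw [Set.indicator_apply]
      rfl
    rw [h4, le_div_iff₀ (by
      have : 0 < (TS (ff k) (v (nn k))).ncard := Nat.pos_of_ne_zero (hne k)
      exact_mod_cast this)]
    exact h3.le
  linarith

end UN39
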