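import Mathlib
import Pool.Agent.H39.UN.SeB
import Pool.Agent.H39.UN.Ineq

/-!
[H39 UN MACE]  (MP_bcc40c_pr)  An inequality from GJ.

PROOF.  Coefficient of `X^w`, `w = u + 1`, in GJ.  As Dl_coeff, Dl_term, Dl_low: for a polynomial with nonnegative coefficients (NNp) the coefficient `u` of `D2 f` is
`∑_i f_i * (1 - 2 * 1[i = u] + (-1)^(i-u)) * (i.choose u)`, all terms are `≥ 0` (for `i = u` the factor is 0), and the term `i = u + 2` is `2 * (u+2).choose u * f_(u+2) =
(u+2)(u+1) f_(u+2)`.  So the coefficient `u + 1` of `X * D2 (bb (n+1))` is `≥ (u+1)(u+2) bc (n+1) (u+2)`; the sum has nonnegative coefficients.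
-/

set_option autoImplicit false

namespace UN39

open Polynomial

/-- the coefficient of one monomial -/
private noncomputable def d2t (u i : ℕ) : ℝ :=
  (1 + (-1) ^ (i - u)) * (i.choose u : ℝ) - 2 * (if i = u then 1 else 0)

private theorem d2t_nonneg (u i : ℕ) : 0 ≤ d2t u i := by
  unfold d2t
  rcases lt_trichotomy i u with h | h | h
  · rw [Nat.choose_eq_zero_of_lt h, if_neg h.ne]
    simp
  · subst h
    rw [Nat.sub_self, Nat.choose_self, if_pos rfl]
    norm_num
  · rw [if_neg h.ne']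
    rcases neg_one_pow_eq_or ℝ (i - u) with h' | h'
    · rw [h']
      have : (0 : ℝ) ≤ (i.choose u : ℝ) := Nat.cast_nonneg _
      linarith
    · rw [h']
      simp

private theorem d2t_two (u : ℕ) : d2t u (u + 2) = ((u : ℝ) + 1) * (u + 2) := by
  unfold d2t
  rw [if_neg (by omega), show u + 2 - u = 2 by omega]
  have h1 : (u + 2).choose u = (u + 2).choose 2 := by
    rw [← Nat.choose_symm (show 2 ≤ u + 2 by omega)]
    congr 1
  rw [h1, Nat.cast_choose_two]
  push_cast
  ring

private theorem D2_coeff {f : Polynomial ℝ} {N : ℕ} (hN : f.natDegree < N) {u : ℕ} (hu : u < N) :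
    (D2 f).coeff u = ∑ i ∈ Finset.range N, f.coeff i * d2t u i := by
  have h1 : D2 f = f.comp (X + C 1) - C 2 * f + f.comp (X + C (-1)) := by
    unfold D2
    rw [C_1, C_neg, C_1, sub_eq_add_neg X]
    rfl
  have h2 : f.coeff u = ∑ i ∈ Finset.range N, f.coeff i * (if i = u then 1 else 0) := by
    simp only [mul_ite, mul_one, mul_zero]
    rw [Finset.sum_ite_eq' (Finset.range N) u]
    rw [if_pos (Finset.mem_range.2 hu)]
  rw [h1, coeff_add, coeff_sub, coeff_C_mul, comp_coeff hN, comp_coeff hN]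
  rw [h2]
  rw [Finset.mul_sum, ← Finset.sum_sub_distrib, ← Finset.sum_add_distrib]
  refine Finset.sum_congr rfl fun i _ => ?_
  unfold d2t
  rw [one_pow]
  ring

private theorem D2_low {f : Polynomial ℝ} (hf : NNp f) (u : ℕ) :
    ((u : ℝ) + 1) * (u + 2) * f.coeff (u + 2) ≤ (D2 f).coeff u := by
  have hN : f.natDegree < f.natDegree + u + 3 := by omega
  rw [D2_coeff hN (by omega)]
  have h1 : (fun i => f.coeff i * d2t u i) (u + 2) ≤ ∑ i ∈ Finset.range (f.natDegree + u + 3), f.coeff i * d2t u i :=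
    Finset.single_le_sum (f := fun i => f.coeff i * d2t u i)
      (fun i _ => mul_nonneg (hf i) (d2t_nonneg u i)) (Finset.mem_range.2 (by omega))
  refine le_trans (le_of_eq ?_) h1
  simp only [d2t_two]
  ring

private theorem D2_nn {f : Polynomial ℝ} (hf : NNp f) : NNp (D2 f) := by
  intro u
  have h1 := D2_low hf u
  have h2 := hf (u + 2)
  refine le_trans ?_ h1
  positivity

theorem gj_low (n w : ℕ) (hw : 1 ≤ w) :
    (w : ℝ) * (w + 1) * bc (n + 1) (w + 1) ≤ 12 * ((n : ℝ) + 1) * (3 * n + 2) * bc n w := by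
  obtain ⟨u, rfl⟩ : ∃ u, w = u + 1 := ⟨w - 1, by omega⟩
  have h1 := congrArg (fun f : Polynomial ℝ => f.coeff (u + 1)) (GJ n)
  simp only [coeff_add, coeff_C_mul, coeff_X_mul] at h1
  have h2 := D2_low (NNp.bb (n + 1)) u
  have h3 : NNp (∑ i ∈ Finset.range n, C (2 * (3 * (i : ℝ) + 2)) * bb i * D2 (bb (n - i))) := by
    apply NNp.sum
    intro i _
    refine NNp.mul ?_ (D2_nn (NNp.bb _))
    intro v
    rw [coeff_C_mul]
    exact mul_nonneg (by positivity) (NNp.bb i v)
  have h4 := h3 (u + 1)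
  have h5 : (bb n).coeff (u + 1) = bc n (u + 1) := rfl
  have h6 : (bb (n + 1)).coeff (u + 2) = bc (n + 1) (u + 1 + 1) := rfl
  rw [h5] at h1
  rw [h6] at h2
  push_cast
  linarith

end UN39
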