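import Mathlib
import Pool.Agent.H39.UN.PlC
import Pool.Agent.H39.UN.RhoA
import Pool.Agent.H39.UN.PlGb
import Pool.Agent.H39.UN.Rho
import Pool.Agent.H39.UN.MacE

/-!
[H39 UN MACF]  (MP_bcc40c_pr)  The function `Lw = - log lamw` and the logarithmic form of rho.

PROOFS.  `lamw x = lam (thw x)`, `thw x ∈ (0, 1/4)` (thw_spec), `lam θ = θ/(1+8θ)^(3/2)` (HG39) is positive, strictly increasing (lam_mono in HG/Defs or
RhoA) and `< lam (1/4) = lamc` (for `θ < 1/4`; compare squares if lam_mono is only on the open interval: `θ^2 (27)(16) < (1+8θ)^3`, i.e.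
`(1+8θ)^3 - 432 θ^2 = (1 - 4θ)^2 (1 + 32 θ) > 0`; check: `(1 - 8θ + 16θ^2)(1+32θ) = 1 + 24θ - 240 θ^2 + 512 θ^3` and `(1+8θ)^3 = 1 + 24θ + 192θ^2 + 512θ^3` ✓.).
lamw_ge: rho at `v = v_n ~ x n` of the right parity: `bc (n-1) (v-1)/bc n v → lamw x` (rho, lamw_cont), and by gj_low (with `n - 1`, `v - 1`)
`bc (n-1) (v-1)/bc n v ≥ (v-1) v/(12 n (3n-1)) → x^2/36` (bc_pos).
Lw_anti: lamw_cont.2 (strictly monotone).  Lw_pos: `lamw x < lamc < 1/12 < 1`.
lrt: on `[ω1, ω2]` `lamw ≥ lamw ω1 =: 2 m > 0`; apply rho with `ε1 = min (ε m) m`: `|r - lamw| ≤ ε1`, `r ≥ m`, `|log r - log lamw| ≤ |r - lamw|/m ≤ ε`; positivity of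
`bc` from bc_pos (`n` large: `1 ≤ v - 1`, `v ≤ n + 2`); `log (bc n v) - log (bc (n-1) (v-1)) = - log r`.
-/

set_option autoImplicit false

namespace UN39

open Filter Topology

noncomputable def Lw (x : ℝ) : ℝ := - Real.log (lamw x)

theorem mac_lamw_pos {x : ℝ} (h0 : 0 < x) (h1 : x < 1) : 0 < lamw x := by
  have h := thw_spec h0 h1
  unfold lamw lam
  have h2 : 0 < 1 + 8 * thw x := by linarith [h.1]
  exact div_pos h.1 (Real.rpow_pos_of_pos h2 _)

theorem mac_lamw_lt {x : ℝ} (h0 : 0 < x) (h1 : x < 1) : lamw x < lamc := by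
  have h := thw_spec h0 h1
  have h2 : lam (1 / 4) = lamc := by
    rw [(lam_psi (h := 1 / 4) (by norm_num) le_rfl).1, show (1 : ℝ) + 8 * (1 / 4) = 3 by norm_num]
    exact psi_ends.2
  rw [← h2]
  exact lam_mono ⟨h.1.le, h.2.1.le⟩ ⟨by norm_num, le_rfl⟩ h.2.1

/-- a number near `x n` with the parity of `n` -/
private noncomputable def vs (x : ℝ) (n : ℕ) : ℕ := 2 * ⌊x * n / 2⌋₊ + n % 2

private theorem vs_par (x : ℝ) (n : ℕ) : vs x n % 2 = n % 2 := by
  unfold vs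
  omega

private theorem vs_le {x : ℝ} (h0 : 0 < x) (n : ℕ) : (vs x n : ℝ) ≤ x * n + 1 := by
  unfold vs
  have h1 : (⌊x * n / 2⌋₊ : ℝ) ≤ x * n / 2 := Nat.floor_le (by positivity)
  have h2 : ((n % 2 : ℕ) : ℝ) ≤ 1 := by exact_mod_cast (by omega : n % 2 ≤ 1)
  push_cast at h2 ⊢
  linarith

private theorem vs_ge {x : ℝ} (n : ℕ) : x * n - 2 ≤ (vs x n : ℝ) := by
  unfold vs
  have h1 : x * n / 2 < (⌊x * n / 2⌋₊ : ℝ) + 1 := Nat.lt_floor_add_one _
  have h2 : (0 : ℝ) ≤ ((n % 2 : ℕ) : ℝ) := Nat.cast_nonneg _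
  push_cast at h2 ⊢
  linarith

private theorem vs_lim {x : ℝ} (h0 : 0 < x) : Tendsto (fun n : ℕ => (vs x n : ℝ) / n) atTop (𝓝 x) := by
  have h1 : Tendsto (fun n : ℕ => x - 2 / (n : ℝ)) atTop (𝓝 (x - 0)) :=
    tendsto_const_nhds.sub (tendsto_const_div_atTop_nhds_zero_nat 2)
  have h2 : Tendsto (fun n : ℕ => x + 1 / (n : ℝ)) atTop (𝓝 (x + 0)) :=
    tendsto_const_nhds.add (tendsto_const_div_atTop_nhds_zero_nat 1)
  rw [sub_zero] at h1
  rw [add_zero] at h2
  refine tendsto_of_tendsto_of_tendsto_of_le_of_le' h1 h2 ?_ ?_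
  · filter_upwards [eventually_ge_atTop 1] with n hn
    have hn0 : (0 : ℝ) < n := by exact_mod_cast hn
    have := vs_ge (x := x) n
    rw [le_div_iff₀ hn0, sub_mul, div_mul_cancel₀ _ hn0.ne']
    exact this
  · filter_upwards [eventually_ge_atTop 1] with n hn
    have hn0 : (0 : ℝ) < n := by exact_mod_cast hn
    have := vs_le h0 n
    rw [div_le_iff₀ hn0, add_mul, div_mul_cancel₀ _ hn0.ne']
    exact this

theorem mac_lamw_ge {x : ℝ} (h0 : 0 < x) (h1 : x < 1) : x ^ 2 / 36 ≤ lamw x := by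
  have hs := vs_lim h0
  have hL : Tendsto (fun n : ℕ => lamw ((vs x n : ℝ) / n)) atTop (𝓝 (lamw x)) := by
    have hc : ContinuousAt lamw x := lamw_cont.1.continuousAt (Ioo_mem_nhds h0 h1)
    exact hc.tendsto.comp hs
  have hin : ∀ᶠ n : ℕ in atTop, x / 2 < (vs x n : ℝ) / n ∧ (vs x n : ℝ) / n < (1 + x) / 2 := by
    have := hs.eventually (Ioo_mem_nhds (show x / 2 < x by linarith) (show x < (1 + x) / 2 by linarith))
    exact this
  have hdiff : Tendsto (fun n : ℕ => bc (n - 1) (vs x n - 1) / bc n (vs x n) - lamw ((vs x n : ℝ) / n)) atTop (𝓝 0) := by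
    rw [Metric.tendsto_atTop']
    intro ε hε
    obtain ⟨n0, hn0⟩ := rho (ω1 := x / 2) (ω2 := (1 + x) / 2) (by linarith) (by linarith) (half_pos hε)
    obtain ⟨n1, hn1⟩ := (hin.and (eventually_ge_atTop 1)).exists_forall_of_atTop
    refine ⟨max n0 n1, fun n hn => ?_⟩
    have h2 := hn1 n (by have := le_max_right n0 n1; omega)
    have hnp : (0 : ℝ) < n := by exact_mod_cast h2.2
    have h3 := hn0 n (vs x n) (by have := le_max_left n0 n1; omega)
      (by have := h2.1.1; rw [lt_div_iff₀ hnp] at this; exact this.le)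
      (by have := h2.1.2; rw [div_lt_iff₀ hnp] at this; exact this.le) (vs_par x n)
    rw [Real.dist_eq, sub_zero]
    linarith
  have hr : Tendsto (fun n : ℕ => bc (n - 1) (vs x n - 1) / bc n (vs x n)) atTop (𝓝 (lamw x)) := by
    have := hdiff.add hL
    simp only [sub_add_cancel, zero_add] at this
    exact this
  have hlow : Tendsto (fun n : ℕ => ((vs x n : ℝ) / n - 1 / n) ^ 2 / 36) atTop (𝓝 ((x - 0) ^ 2 / 36)) :=
    ((hs.sub (tendsto_const_div_atTop_nhds_zero_nat 1)).pow 2).div_const 36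
  rw [sub_zero] at hlow
  refine le_of_tendsto_of_tendsto hlow hr ?_
  have hbig : ∀ᶠ n : ℕ in atTop, 4 / x ≤ (n : ℝ) := tendsto_natCast_atTop_atTop.eventually_ge_atTop _
  have hbig2 : ∀ᶠ n : ℕ in atTop, 4 / (1 - x) ≤ (n : ℝ) := tendsto_natCast_atTop_atTop.eventually_ge_atTop _
  filter_upwards [hin, hbig, hbig2, eventually_ge_atTop 2] with n hn hb hb2 hn2
  have hn0 : (0 : ℝ) < n := by exact_mod_cast (by omega : 0 < n)
  obtain ⟨v, hv⟩ : ∃ v, v = vs x n := ⟨_, rfl⟩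
  have hpar := vs_par x n
  have hle := vs_le h0 n
  have hge := vs_ge (x := x) n
  rw [← hv] at hn hpar hle hge ⊢
  have hxn : 4 ≤ x * n := by
    rw [div_le_iff₀ h0] at hb; linarith
  have hxn2 : 4 ≤ (1 - x) * n := by
    rw [div_le_iff₀ (by linarith)] at hb2; linarith
  have hv2 : 2 ≤ v := by
    have : (2 : ℝ) ≤ v := by linarith
    exact_mod_cast this
  have hvn : v ≤ n := by
    have : (v : ℝ) ≤ n := by linarith
    exact_mod_cast this
  have hpos : 0 < bc n v := bc_pos (by omega) (by omega) (by omega) hpar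
  have hg := gj_low (n - 1) (v - 1) (by omega)
  rw [show n - 1 + 1 = n by omega, show v - 1 + 1 = v by omega, Nat.cast_sub (by omega : 1 ≤ n), Nat.cast_sub (by omega : 1 ≤ v)] at hg
  push_cast at hg
  have hb0 : 0 ≤ bc (n - 1) (v - 1) := bc_nonneg _ _
  rw [le_div_iff₀ hpos]
  have hv1 : (2 : ℝ) ≤ v := by exact_mod_cast hv2
  have e1 : ((v : ℝ) / n - 1 / n) ^ 2 / 36 = ((v : ℝ) - 1) ^ 2 / (36 * n ^ 2) := by
    field_simp
  rw [e1, div_mul_eq_mul_div, div_le_iff₀ (by positivity)]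
  have e2 : ((v : ℝ) - 1) ^ 2 * bc n v ≤ ((v : ℝ) - 1) * (v - 1 + 1) * bc n v := by
    apply mul_le_mul_of_nonneg_right _ hpos.le
    nlinarith
  have e3 : 12 * ((n : ℝ) - 1 + 1) * (3 * (n - 1) + 2) * bc (n - 1) (v - 1) ≤ bc (n - 1) (v - 1) * (36 * n ^ 2) := by
    rw [mul_comm (bc (n - 1) (v - 1))]
    apply mul_le_mul_of_nonneg_right _ hb0
    nlinarith
  linarith

theorem Lw_anti : AntitoneOn Lw (Set.Ioo 0 1) := by
  intro a ha b hb hab
  unfold Lw
  have h1 : lamw a ≤ lamw b := lamw_cont.2.monotoneOn ha hb hab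
  have h2 := Real.log_le_log (mac_lamw_pos ha.1 ha.2) h1
  linarith

theorem Lw_gt {x : ℝ} (h0 : 0 < x) (h1 : x < 1) : - Real.log lamc < Lw x := by
  unfold Lw
  have := Real.log_lt_log (mac_lamw_pos h0 h1) (mac_lamw_lt h0 h1)
  linarith

theorem Lw_pos {x : ℝ} (h0 : 0 < x) (h1 : x < 1) : 0 < Lw x := by
  have h2 := Lw_gt h0 h1
  have h3 : Real.log lamc < 0 := Real.log_neg lamc_pos.1 (by linarith [lamc_pos.2])
  linarith

theorem Lw_le {x : ℝ} (h0 : 0 < x) (h1 : x < 1) : Lw x ≤ Real.log 36 + 2 * Real.log (1 / x) := by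
  unfold Lw
  have h2 := Real.log_le_log (by positivity) (mac_lamw_ge h0 h1)
  rw [Real.log_div (by positivity) (by norm_num), Real.log_pow] at h2
  rw [one_div, Real.log_inv]
  push_cast at h2
  linarith

theorem lrt {ω1 ω2 : ℝ} (h1 : 0 < ω1) (h2 : ω2 < 1) {ε : ℝ} (hε : 0 < ε) :
    ∃ n0 : ℕ, ∀ n v : ℕ, n0 ≤ n → ω1 * n ≤ v → (v : ℝ) ≤ ω2 * n → v % 2 = n % 2 →
      0 < bc (n - 1) (v - 1) ∧ 0 < bc n v ∧
        |Real.log (bc n v) - Real.log (bc (n - 1) (v - 1)) - Lw ((v : ℝ) / n)| ≤ ε := by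
  by_cases h12 : ω1 < 1
  · have hm0 := mac_lamw_pos h1 h12
    obtain ⟨m, hm⟩ : ∃ m, m = lamw ω1 / 2 := ⟨_, rfl⟩
    have hmp : 0 < m := by rw [hm]; linarith
    obtain ⟨n0, H⟩ := rho h1 h2 (ε := min (ε * m) m) (lt_min (by positivity) hmp)
    obtain ⟨n1, hn1⟩ := exists_nat_ge (2 / ω1)
    refine ⟨max (max n0 n1) 2, ?_⟩
    intro n v hn hv1 hv2 hp
    have hn2 : 2 ≤ n := (le_max_right _ _).trans hn
    have hn0' : n0 ≤ n := ((le_max_left n0 n1).trans (le_max_left _ _)).trans hn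
    have hn1' : n1 ≤ n := ((le_max_right n0 n1).trans (le_max_left _ _)).trans hn
    have hnp : (0 : ℝ) < n := by exact_mod_cast (by omega : 0 < n)
    have hv2' : 2 ≤ v := by
      have e1 : (2 : ℝ) ≤ ω1 * n := by
        rw [div_le_iff₀ h1] at hn1
        have : (n1 : ℝ) ≤ n := by exact_mod_cast hn1'
        nlinarith
      have : (2 : ℝ) ≤ v := e1.trans hv1
      exact_mod_cast this
    have hvn : v ≤ n := by
      have : (v : ℝ) ≤ n := by nlinarith
      exact_mod_cast this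
    have hp1 : 0 < bc (n - 1) (v - 1) := bc_pos (by omega) (by omega) (by omega) (by omega)
    have hp2 : 0 < bc n v := bc_pos (by omega) (by omega) (by omega) hp
    refine ⟨hp1, hp2, ?_⟩
    have hr := H n v hn0' hv1 hv2 hp
    obtain ⟨r, hrd⟩ : ∃ r, r = bc (n - 1) (v - 1) / bc n v := ⟨_, rfl⟩
    obtain ⟨L, hLd⟩ : ∃ L, L = lamw ((v : ℝ) / n) := ⟨_, rfl⟩
    have hx1 : ω1 ≤ (v : ℝ) / n := by rw [le_div_iff₀ hnp]; exact hv1
    have hx2 : (v : ℝ) / n ≤ ω2 := by rw [div_le_iff₀ hnp]; exact hv2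
    have hL : 2 * m ≤ L := by
      rw [hm, hLd]
      have := lamw_cont.2.monotoneOn (⟨h1, h12⟩ : ω1 ∈ Set.Ioo (0 : ℝ) 1)
        (⟨by linarith, by linarith⟩ : (v : ℝ) / n ∈ Set.Ioo (0 : ℝ) 1) hx1
      linarith
    rw [← hrd, ← hLd] at hr
    have hr1 : |r - L| ≤ ε * m := hr.trans (min_le_left _ _)
    have hr2 : |r - L| ≤ m := hr.trans (min_le_right _ _)
    have hrm : m ≤ r := by
      have := (abs_le.mp hr2).1
      linarith
    have hrp : 0 < r := by linarith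
    have hLp : 0 < L := by linarith
    have e1 : Real.log (bc n v) - Real.log (bc (n - 1) (v - 1)) - Lw ((v : ℝ) / n) = Real.log L - Real.log r := by
      unfold Lw
      rw [← hLd, hrd, Real.log_div hp1.ne' hp2.ne']
      ring
    rw [e1, abs_le]
    have key : ∀ a b : ℝ, 0 < a → m ≤ b → |a - b| ≤ ε * m → Real.log a - Real.log b ≤ ε := by
      intro a b ha hb hab
      have hb0 : 0 < b := by linarith
      rw [← Real.log_div ha.ne' hb0.ne']
      have e2 := Real.log_le_sub_one_of_pos (div_pos ha hb0)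
      refine e2.trans ?_
      rw [div_sub_one hb0.ne', div_le_iff₀ hb0]
      have e3 := (abs_le.mp hab).2
      nlinarith
    constructor
    · have := key r L hrp (by linarith) hr1
      linarith
    · exact key L r hLp hrm (by rw [abs_sub_comm]; exact hr1)
  · refine ⟨1, ?_⟩
    intro n v hn hv1 hv2 hp
    exfalso
    have hnp : (0 : ℝ) < n := by exact_mod_cast hn
    have e1 : ω1 * n ≤ ω2 * n := hv1.trans hv2
    have e2 := le_of_mul_le_mul_right e1 hnp
    linarith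

end UN39
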