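import Mathlib
import Pool.Agent.H39.UN.Wloop

/-!
[H39 UN MACA]  (MP_bcc40c_pr)  All gluings at `N = 1` are counted by the double factorial.

PROOF.  Strong induction on `l.sum + l.length`.  `l = []`: w_nil (sum 0, `(0 - 1).doubleFactorial = 1`).  `0 :: l`: w_zero.
`(k+2) :: l` (w_two): all the lists on the right have sum `s - 2` (`s = k + 2 + l.sum`; `i ≤ k`; for picks: picks_sum) and `sum + length` is smaller
(wl_picks_length), so each term is `1[s even] * (s-3)!!`; the number of terms (with weights) is `(k+1) + ∑_{picks l} p.1 = (k+1) + l.sum = s - 1`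
(lemma: `((picks l).map fun p => (p.1 : ℚ)).sum = l.sum`, induction).  `(s-1) * (s-3)!! = (s-1)!!` (Nat.doubleFactorial_add_two; `s ≥ 2`;
if `s = 2` then `k = 0`, `l.sum = 0`, both sides 1).  `1 :: l` (w_one): the terms with `p.1 = 0` have the factor 0; the others have sum
`s - 2`, the total weight is `l.sum = s - 1`.
-/

set_option autoImplicit false

namespace UN39

/-- the right-hand side of `mac_w_one` as a function of the sum -/
private noncomputable def mcF (s : ℕ) : ℚ :=
  if s % 2 = 0 then (((s - 1).doubleFactorial : ℕ) : ℚ) else 0

private theorem mcF_two {s : ℕ} : ((s : ℚ) + 1) * mcF s = mcF (s + 2) := by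
  unfold mcF
  by_cases h : s % 2 = 0
  · have h2 : (s + 2) % 2 = 0 := by omega
    rw [if_pos h, if_pos h2]
    rcases Nat.eq_zero_or_pos s with h0 | h0
    · subst h0
      norm_num
    · obtain ⟨t, rfl⟩ : ∃ t, s = t + 1 := ⟨s - 1, by omega⟩
      have e1 : t + 1 + 2 - 1 = t + 2 := by omega
      have e2 : t + 1 - 1 = t := by omega
      rw [e1, e2, Nat.doubleFactorial_add_two]
      push_cast
      ring
  · have h2 : ¬ (s + 2) % 2 = 0 := by omega
    rw [if_neg h, if_neg h2, mul_zero]

private theorem mc_picks (l : List ℕ) (c : ℚ) :
    ((picks l).map fun p => (p.1 : ℚ) * c).sum = (l.sum : ℚ) * c := by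
  induction l with
  | nil => simp [picks]
  | cons x l ih =>
    rw [wl_picks_cons x l (fun a _ => (a : ℚ) * c), ih, List.sum_cons]
    push_cast
    ring

private theorem mc_aux (N : ℕ) : ∀ l : List ℕ, l.sum + l.length ≤ N → w 1 l = mcF l.sum := by
  induction N with
  | zero =>
    intro l h
    match l, h with
    | [], _ =>
      rw [w_nil]
      simp [mcF]
    | x :: l, h =>
      rw [List.length_cons] at h
      omega
  | succ N ih =>
    intro l h
    match l, h with
    | [], _ =>
      rw [w_nil]
      simp [mcF]
    | 0 :: l, h =>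
      rw [List.sum_cons, List.length_cons] at h
      rw [w_zero, one_mul, ih l (by omega), List.sum_cons, zero_add]
    | 1 :: l, h =>
      rw [List.sum_cons, List.length_cons] at h
      rw [w_one]
      have h1 : ((picks l).map fun p => (p.1 : ℚ) * w 1 ((p.1 - 1) :: p.2)) =
          (picks l).map fun p => (p.1 : ℚ) * mcF (l.sum - 1) := by
        refine List.map_congr_left fun p hp => ?_
        have h2 := picks_sum hp
        have h3 := wl_picks_length hp
        rcases Nat.eq_zero_or_pos p.1 with h0 | h0
        · rw [h0, Nat.cast_zero, zero_mul, zero_mul]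
        · rw [ih ((p.1 - 1) :: p.2) (by rw [List.sum_cons, List.length_cons]; omega),
            List.sum_cons]
          have e : p.1 - 1 + p.2.sum = l.sum - 1 := by omega
          rw [e]
      rw [h1, mc_picks, List.sum_cons]
      rcases Nat.eq_zero_or_pos l.sum with h0 | h0
      · rw [h0, Nat.cast_zero, zero_mul]
        simp [mcF]
      · obtain ⟨t, ht⟩ : ∃ t, l.sum = t + 1 := ⟨l.sum - 1, by omega⟩
        rw [ht]
        have e1 : t + 1 - 1 = t := by omega
        have e2 : 1 + (t + 1) = t + 2 := by omega
        rw [e1, e2, ← mcF_two]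
        push_cast
        ring
    | (k + 2) :: l, h =>
      rw [List.sum_cons, List.length_cons] at h
      rw [w_two]
      have h1 : ∑ i ∈ Finset.range (k + 1), w 1 (i :: (k - i) :: l) =
          ((k : ℚ) + 1) * mcF (k + l.sum) := by
        have h2 : ∀ i ∈ Finset.range (k + 1), w 1 (i :: (k - i) :: l) = mcF (k + l.sum) := by
          intro i hi
          rw [Finset.mem_range] at hi
          rw [ih (i :: (k - i) :: l)
            (by rw [List.sum_cons, List.sum_cons, List.length_cons, List.length_cons]; omega),
            List.sum_cons, List.sum_cons]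
          have e : i + (k - i + l.sum) = k + l.sum := by omega
          rw [e]
        rw [Finset.sum_congr rfl h2, Finset.sum_const, Finset.card_range, nsmul_eq_mul]
        push_cast
        ring
      have h3 : ((picks l).map fun p => (p.1 : ℚ) * w 1 ((k + p.1) :: p.2)) =
          (picks l).map fun p => (p.1 : ℚ) * mcF (k + l.sum) := by
        refine List.map_congr_left fun p hp => ?_
        have h2 := picks_sum hp
        have h3 := wl_picks_length hp
        rw [ih ((k + p.1) :: p.2) (by rw [List.sum_cons, List.length_cons]; omega),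
          List.sum_cons]
        have e : k + p.1 + p.2.sum = k + l.sum := by omega
        rw [e]
      rw [h1, h3, mc_picks, List.sum_cons]
      have e : k + 2 + l.sum = k + l.sum + 2 := by omega
      rw [e, ← mcF_two]
      push_cast
      ring

theorem mac_w_one (l : List ℕ) :
    w 1 l = if l.sum % 2 = 0 then (((l.sum - 1).doubleFactorial : ℕ) : ℚ) else 0 :=
  mc_aux _ l le_rfl

end UN39
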