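import Mathlib

/-!
[H39 UN MACB]  (MP_bcc40c_pr)  Two explicit sequences.

`mU n = (6n+3)!!/((2n+1)! 3^(2n+1))`, `mW k = (6k-1)!!/((2k)! 3^(2k))`.

PROOFS.  mU_succ: `(6n+9)!! = (6n+9)(6n+7)(6n+5) (6n+3)!!`, `(2n+3)! = (2n+3)(2n+2)(2n+1)!`, `(6n+9)/((2n+3) 3) = 1`.  mW_succ: `(6k+5)!! = (6k+5)(6k+3)(6k+1)(6k-1)!!`
(`k = 0`: `5!! = 15`, `(-1)!! = 1`: `(6 * 0 - 1).doubleFactorial = 0.doubleFactorial = 1`), `(2k+2)! = (2k+2)(2k+1)(2k)!`, `(6k+3)/((2k+1) 3) = 1`.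
mU_le: induction, `(6n+7)(6n+5) ≤ 36 (n+1)^2`.  mU_ge: induction on the stronger `n! 6^n (1/2) (1 + 1/(n+1)) ≤ mU n`: with `x = n + 1`:
`(6n+7)(6n+5) = 36 x^2 - 1`, `(1 - 1/(36 x^2)) (1 + 1/x) ≥ 1 + 1/(x+1)`.
mW_le: induction on the stronger `mW k ≤ (1 - 1/(6k)) (k-1)! 6^(k-1)` (`k = 1`: `mW 1 = 5/6`, equality); the step is
`(6k-1)(36k^2+36k+5) ≤ 36 k^2 (6k+5)`.
mUW: `∑_{i<n} mU i * mW (n-i) ≤ ∑_{i<n} i! (n-1-i)! 6^(n-1) ≤ 3 (n-1)! 6^(n-1)` (`i! (N-i)! = N!/(N.choose i)`, `N = n - 1 ≥ 1`, `N.choose i ≥ N` for `0 < i < N`, so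
the sum of the inverses of the binomials is `≤ 2 + (N-1)/N ≤ 3`) `≤ n! 6^n/4 ≤ mU n/2` for `n ≥ 2`.
-/

set_option autoImplicit false

namespace UN39

open Finset

noncomputable def mU (n : ℕ) : ℝ := (((6 * n + 3).doubleFactorial : ℕ) : ℝ) / (((2 * n + 1).factorial : ℕ) * 3 ^ (2 * n + 1))

noncomputable def mW (k : ℕ) : ℝ := (((6 * k - 1).doubleFactorial : ℕ) : ℝ) / (((2 * k).factorial : ℕ) * 3 ^ (2 * k))

private theorem mb_df (m : ℕ) : (m + 6).doubleFactorial = (m + 6) * ((m + 4) * ((m + 2) * m.doubleFactorial)) := by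
  rw [show m + 6 = (m + 4) + 2 from rfl, Nat.doubleFactorial_add_two, show m + 4 = (m + 2) + 2 from rfl,
    Nat.doubleFactorial_add_two, Nat.doubleFactorial_add_two]

theorem mU_succ (n : ℕ) : mU (n + 1) = mU n * ((6 * (n : ℝ) + 7) * (6 * n + 5) / (6 * (n + 1))) := by
  unfold mU
  have h1 : (6 * (n + 1) + 3).doubleFactorial = (6 * n + 3 + 6) * ((6 * n + 3 + 4) * ((6 * n + 3 + 2) * (6 * n + 3).doubleFactorial)) := by
    rw [show 6 * (n + 1) + 3 = (6 * n + 3) + 6 by ring]; exact mb_df _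
  have h2 : (2 * (n + 1) + 1).factorial = (2 * n + 3) * ((2 * n + 2) * (2 * n + 1).factorial) := by
    rw [show 2 * (n + 1) + 1 = (2 * n + 2) + 1 by ring, Nat.factorial_succ, Nat.factorial_succ]
  rw [h1, h2, show 2 * (n + 1) + 1 = (2 * n + 1) + 2 by ring, pow_add]
  have h3 : (((2 * n + 1).factorial : ℕ) : ℝ) ≠ 0 := by positivity
  push_cast
  have h4 : (2 * (n : ℝ) + 3) ≠ 0 := by positivity
  have h5 : (2 * (n : ℝ) + 2) ≠ 0 := by positivity
  have h6 : ((n : ℝ) + 1) ≠ 0 := by positivity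
  field_simp
  ring

theorem mW_succ (k : ℕ) : mW (k + 1) = mW k * ((6 * (k : ℝ) + 5) * (6 * k + 1) / (6 * (k + 1))) := by
  unfold mW
  rcases Nat.eq_zero_or_pos k with rfl | hk
  · norm_num [Nat.doubleFactorial, Nat.factorial]
  have h1 : (6 * (k + 1) - 1).doubleFactorial = (6 * k + 5) * ((6 * k + 3) * ((6 * k + 1) * (6 * k - 1).doubleFactorial)) := by
    obtain ⟨m, hm⟩ : ∃ m, 6 * k - 1 = m := ⟨_, rfl⟩
    rw [hm, show 6 * (k + 1) - 1 = m + 6 by omega, mb_df, show m + 6 = 6 * k + 5 by omega, show m + 4 = 6 * k + 3 by omega,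
      show m + 2 = 6 * k + 1 by omega]
  have h2 : (2 * (k + 1)).factorial = (2 * k + 2) * ((2 * k + 1) * (2 * k).factorial) := by
    rw [show 2 * (k + 1) = (2 * k + 1) + 1 by ring, Nat.factorial_succ, Nat.factorial_succ]
  rw [h1, h2, show 2 * (k + 1) = (2 * k) + 2 by ring, pow_add]
  have h3 : (((2 * k).factorial : ℕ) : ℝ) ≠ 0 := by positivity
  push_cast
  have h4 : (2 * (k : ℝ) + 1) ≠ 0 := by positivity
  have h5 : (2 * (k : ℝ) + 2) ≠ 0 := by positivity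
  have h6 : ((k : ℝ) + 1) ≠ 0 := by positivity
  field_simp
  ring

private theorem mb_U0 : mU 0 = 1 := by
  unfold mU
  norm_num [Nat.doubleFactorial, Nat.factorial]

private theorem mb_W1 : mW 1 = 5 / 6 := by
  unfold mW
  norm_num [Nat.doubleFactorial, Nat.factorial]

theorem mU_pos (n : ℕ) : 0 < mU n := by
  unfold mU
  have := Nat.doubleFactorial_pos (6 * n + 3)
  positivity

theorem mW_pos (n : ℕ) : 0 < mW n := by
  unfold mW
  have := Nat.doubleFactorial_pos (6 * n - 1)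
  positivity

theorem mU_le (n : ℕ) : mU n ≤ ((n.factorial : ℕ) : ℝ) * 6 ^ n := by
  induction n with
  | zero => rw [mb_U0]; norm_num
  | succ n ih =>
    rw [mU_succ, Nat.factorial_succ, pow_succ]
    push_cast
    have h1 : (6 * (n : ℝ) + 7) * (6 * n + 5) / (6 * (n + 1)) ≤ 6 * (n + 1) := by
      rw [div_le_iff₀ (by positivity)]
      nlinarith
    calc mU n * ((6 * (n : ℝ) + 7) * (6 * n + 5) / (6 * (n + 1)))
        ≤ (((n.factorial : ℕ) : ℝ) * 6 ^ n) * (6 * (n + 1)) := by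
          apply mul_le_mul ih h1 (by positivity) (by positivity)
      _ = ((n : ℝ) + 1) * ((n.factorial : ℕ) : ℝ) * (6 ^ n * 6) := by ring

private theorem mb_Uge (n : ℕ) : ((n.factorial : ℕ) : ℝ) * 6 ^ n * (1 / 2 * (1 + 1 / ((n : ℝ) + 1))) ≤ mU n := by
  induction n with
  | zero => rw [mb_U0]; norm_num
  | succ n ih =>
    rw [mU_succ, Nat.factorial_succ, pow_succ]
    have h1 : 6 * ((n : ℝ) + 1) * (1 / 2 * (1 + 1 / (((n : ℝ) + 1) + 1))) ≤
        (1 / 2 * (1 + 1 / ((n : ℝ) + 1))) * ((6 * (n : ℝ) + 7) * (6 * n + 5) / (6 * (n + 1))) := by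
      have e1 : 6 * ((n : ℝ) + 1) * (1 / 2 * (1 + 1 / (((n : ℝ) + 1) + 1))) = (3 * ((n : ℝ) + 1) * (n + 3)) / (n + 2) := by
        field_simp
        ring
      have e2 : (1 / 2 * (1 + 1 / ((n : ℝ) + 1))) * ((6 * (n : ℝ) + 7) * (6 * n + 5) / (6 * (n + 1))) =
          ((n + 2) * ((6 * (n : ℝ) + 7) * (6 * n + 5))) / (12 * (n + 1) ^ 2) := by
        field_simp
        ring
      rw [e1, e2, div_le_div_iff₀ (by positivity) (by positivity)]
      have hn : (0 : ℝ) ≤ n := Nat.cast_nonneg n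
      nlinarith [mul_nonneg hn hn, mul_nonneg (mul_nonneg hn hn) hn]
    push_cast
    have h2 : (0 : ℝ) < 6 * (n : ℝ) + 7 := by positivity
    calc ((n : ℝ) + 1) * ((n.factorial : ℕ) : ℝ) * (6 ^ n * 6) * (1 / 2 * (1 + 1 / (((n : ℝ) + 1) + 1)))
        = (((n.factorial : ℕ) : ℝ) * 6 ^ n) * (6 * ((n : ℝ) + 1) * (1 / 2 * (1 + 1 / (((n : ℝ) + 1) + 1)))) := by ring
      _ ≤ (((n.factorial : ℕ) : ℝ) * 6 ^ n) * ((1 / 2 * (1 + 1 / ((n : ℝ) + 1))) * ((6 * (n : ℝ) + 7) * (6 * n + 5) / (6 * (n + 1)))) :=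
          mul_le_mul_of_nonneg_left h1 (by positivity)
      _ = (((n.factorial : ℕ) : ℝ) * 6 ^ n * (1 / 2 * (1 + 1 / ((n : ℝ) + 1)))) * ((6 * (n : ℝ) + 7) * (6 * n + 5) / (6 * (n + 1))) := by ring
      _ ≤ mU n * ((6 * (n : ℝ) + 7) * (6 * n + 5) / (6 * (n + 1))) := mul_le_mul_of_nonneg_right ih (by positivity)

theorem mU_ge (n : ℕ) : ((n.factorial : ℕ) : ℝ) * 6 ^ n / 2 ≤ mU n := by
  refine le_trans ?_ (mb_Uge n)
  rw [div_eq_mul_inv]
  apply mul_le_mul_of_nonneg_left _ (by positivity)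
  have : (0 : ℝ) ≤ 1 / ((n : ℝ) + 1) := by positivity
  linarith

private theorem mb_Wle (j : ℕ) : mW (j + 1) ≤ (1 - 1 / (6 * ((j : ℝ) + 1))) * (((j.factorial : ℕ) : ℝ) * 6 ^ j) := by
  induction j with
  | zero => rw [mb_W1]; norm_num
  | succ j ih =>
    rw [mW_succ (j + 1), Nat.factorial_succ, pow_succ]
    push_cast
    have h1 : (1 - 1 / (6 * ((j : ℝ) + 1))) * ((6 * ((j : ℝ) + 1) + 5) * (6 * (j + 1) + 1) / (6 * (j + 1 + 1))) ≤
        (1 - 1 / (6 * ((j : ℝ) + 1 + 1))) * (6 * ((j : ℝ) + 1)) := by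
      have e1 : (1 - 1 / (6 * ((j : ℝ) + 1))) * ((6 * ((j : ℝ) + 1) + 5) * (6 * (j + 1) + 1) / (6 * (j + 1 + 1))) =
          ((6 * j + 5) * ((6 * ((j : ℝ) + 1) + 5) * (6 * (j + 1) + 1))) / (36 * (j + 1) * (j + 2)) := by
        field_simp
        ring
      have e2 : (1 - 1 / (6 * ((j : ℝ) + 1 + 1))) * (6 * ((j : ℝ) + 1)) = ((6 * j + 11) * (j + 1)) / (j + 2) := by
        field_simp
        ring
      rw [e1, e2, div_le_div_iff₀ (by positivity) (by positivity)]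
      have hn : (0 : ℝ) ≤ j := Nat.cast_nonneg j
      nlinarith [mul_nonneg hn hn, mul_nonneg (mul_nonneg hn hn) hn, mul_nonneg (mul_nonneg (mul_nonneg hn hn) hn) hn]
    calc mW (j + 1) * ((6 * ((j : ℝ) + 1) + 5) * (6 * (j + 1) + 1) / (6 * (j + 1 + 1)))
        ≤ ((1 - 1 / (6 * ((j : ℝ) + 1))) * (((j.factorial : ℕ) : ℝ) * 6 ^ j)) * ((6 * ((j : ℝ) + 1) + 5) * (6 * (j + 1) + 1) / (6 * (j + 1 + 1))) :=
          mul_le_mul_of_nonneg_right ih (by positivity)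
      _ = (((j.factorial : ℕ) : ℝ) * 6 ^ j) * ((1 - 1 / (6 * ((j : ℝ) + 1))) * ((6 * ((j : ℝ) + 1) + 5) * (6 * (j + 1) + 1) / (6 * (j + 1 + 1)))) := by ring
      _ ≤ (((j.factorial : ℕ) : ℝ) * 6 ^ j) * ((1 - 1 / (6 * ((j : ℝ) + 1 + 1))) * (6 * ((j : ℝ) + 1))) :=
          mul_le_mul_of_nonneg_left h1 (by positivity)
      _ = (1 - 1 / (6 * ((j : ℝ) + 1 + 1))) * (((j : ℝ) + 1) * ((j.factorial : ℕ) : ℝ) * (6 ^ j * 6)) := by ring

theorem mW_le {k : ℕ} (hk : 1 ≤ k) : mW k ≤ (((k - 1).factorial : ℕ) : ℝ) * 6 ^ (k - 1) := by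
  obtain ⟨j, rfl⟩ : ∃ j, k = j + 1 := ⟨k - 1, by omega⟩
  rw [Nat.add_sub_cancel]
  refine (mb_Wle j).trans ?_
  have h1 : (1 - 1 / (6 * ((j : ℝ) + 1))) ≤ 1 := by
    have : (0 : ℝ) ≤ 1 / (6 * ((j : ℝ) + 1)) := by positivity
    linarith
  calc (1 - 1 / (6 * ((j : ℝ) + 1))) * (((j.factorial : ℕ) : ℝ) * 6 ^ j) ≤ 1 * (((j.factorial : ℕ) : ℝ) * 6 ^ j) :=
        mul_le_mul_of_nonneg_right h1 (by positivity)
    _ = _ := one_mul _

private theorem mb_choose (N : ℕ) : ∀ i, 1 ≤ i → i < N → N ≤ N.choose i := by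
  induction N with
  | zero => intro i h1 h2; omega
  | succ N ih =>
    intro i h1 h2
    obtain ⟨j, rfl⟩ : ∃ j, i = j + 1 := ⟨i - 1, by omega⟩
    rw [Nat.choose_succ_succ, Nat.succ_eq_add_one]
    rcases Nat.lt_or_ge (j + 1) N with h | h
    · have e1 := ih (j + 1) (by omega) h
      have e2 : 0 < N.choose j := Nat.choose_pos (by omega)
      omega
    · have e3 : j + 1 = N := by omega
      subst e3
      rw [Nat.choose_self, Nat.choose_succ_self_right]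

/-- the sum of the inverses of the binomials -/
private theorem mb_inv {N : ℕ} (hN : 1 ≤ N) :
    ∑ i ∈ range (N + 1), ((i.factorial : ℕ) : ℝ) * (((N - i).factorial : ℕ) : ℝ) ≤ 3 * ((N.factorial : ℕ) : ℝ) := by
  -- each inner term is at most N!/N
  have key : ∀ i, 1 ≤ i → i ≤ N - 1 → ((i.factorial : ℕ) : ℝ) * (((N - i).factorial : ℕ) : ℝ) ≤ ((N.factorial : ℕ) : ℝ) / N := by
    intro i h1 h2
    have hN0 : (0 : ℝ) < N := by exact_mod_cast hN
    rw [le_div_iff₀ hN0]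
    have h3 : N.choose i * i.factorial * (N - i).factorial = N.factorial := Nat.choose_mul_factorial_mul_factorial (by omega)
    have h4 : N ≤ N.choose i := mb_choose N i h1 (by omega)
    have h6 : i.factorial * (N - i).factorial * N ≤ N.factorial := by
      rw [← h3]
      calc i.factorial * (N - i).factorial * N ≤ i.factorial * (N - i).factorial * N.choose i := Nat.mul_le_mul_left _ h4
        _ = _ := by ring
    exact_mod_cast h6
  rw [Finset.sum_range_succ, ← Nat.sub_add_cancel hN, Finset.sum_range_succ', Nat.sub_add_cancel hN]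
  have h7 : ∑ k ∈ range (N - 1), (((k + 1).factorial : ℕ) : ℝ) * (((N - (k + 1)).factorial : ℕ) : ℝ) ≤ ∑ k ∈ range (N - 1), ((N.factorial : ℕ) : ℝ) / N := by
    apply Finset.sum_le_sum
    intro k hk
    rw [Finset.mem_range] at hk
    exact key (k + 1) (by omega) (by omega)
  rw [Finset.sum_const, Finset.card_range, nsmul_eq_mul] at h7
  have hN0 : (0 : ℝ) < N := by exact_mod_cast hN
  have h8 : ((N - 1 : ℕ) : ℝ) * (((N.factorial : ℕ) : ℝ) / N) ≤ ((N.factorial : ℕ) : ℝ) := by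
    rw [Nat.cast_sub hN]
    rw [mul_div_assoc', div_le_iff₀ hN0]
    have : (0 : ℝ) ≤ ((N.factorial : ℕ) : ℝ) := by positivity
    push_cast
    nlinarith
  simp only [Nat.factorial_zero, Nat.cast_one, Nat.sub_zero, Nat.sub_self, one_mul, mul_one]
  linarith

theorem mUW {n : ℕ} (hn : 2 ≤ n) : ∑ i ∈ range n, mU i * mW (n - i) ≤ mU n / 2 := by
  obtain ⟨N, rfl⟩ : ∃ N, n = N + 1 := ⟨n - 1, by omega⟩
  have hN : 1 ≤ N := by omega
  have h1 : ∑ i ∈ range (N + 1), mU i * mW (N + 1 - i) ≤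
      ∑ i ∈ range (N + 1), (((i.factorial : ℕ) : ℝ) * (((N - i).factorial : ℕ) : ℝ)) * 6 ^ N := by
    apply Finset.sum_le_sum
    intro i hi
    rw [Finset.mem_range] at hi
    have e1 := mU_le i
    have e2 := mW_le (show 1 ≤ N + 1 - i by omega)
    rw [show N + 1 - i - 1 = N - i by omega] at e2
    calc mU i * mW (N + 1 - i) ≤ (((i.factorial : ℕ) : ℝ) * 6 ^ i) * ((((N - i).factorial : ℕ) : ℝ) * 6 ^ (N - i)) :=
          mul_le_mul e1 e2 (mW_pos _).le (by positivity)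
      _ = (((i.factorial : ℕ) : ℝ) * (((N - i).factorial : ℕ) : ℝ)) * (6 ^ i * 6 ^ (N - i)) := by ring
      _ = _ := by rw [← pow_add, show i + (N - i) = N by omega]
  rw [← Finset.sum_mul] at h1
  have h2 := mb_inv hN
  have h3 := mU_ge (N + 1)
  have h4 : (0 : ℝ) < 6 ^ N := by positivity
  have h5 : (1 : ℝ) ≤ N := by exact_mod_cast hN
  have h6 : (∑ i ∈ range (N + 1), ((i.factorial : ℕ) : ℝ) * (((N - i).factorial : ℕ) : ℝ)) * 6 ^ N ≤ 3 * ((N.factorial : ℕ) : ℝ) * 6 ^ N :=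
    mul_le_mul_of_nonneg_right h2 h4.le
  rw [Nat.factorial_succ, pow_succ] at h3
  push_cast at h3
  have h7 : 3 * ((N.factorial : ℕ) : ℝ) * 6 ^ N ≤ (((N : ℝ) + 1) * ((N.factorial : ℕ) : ℝ) * (6 ^ N * 6) / 2) / 2 := by
    have h8 : (0 : ℝ) < ((N.factorial : ℕ) : ℝ) * 6 ^ N := by positivity
    nlinarith
  linarith

end UN39
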