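import Mathlib
import Pool.Agent.H39.UN.SeB
import Pool.Agent.H39.UN.Ineq
import Pool.Agent.H39.UN.MacA
import Pool.Agent.H39.UN.MacB

/-!
[H39 UN MACC]  (MP_bcc40c_pr)  The sum of the `b(n, v)` and the numbers `b(n, 1)`.

PROOFS.  By kk_eval (`N = 1`, `c = [1]`, `m = 2n+1`): `(bb n).eval 1 = kN 1 (1 :: 3^(2n+1))/((2n+1)! 3^(2n+1))`.  sea_comp with `N = 1`, `c0 = 1`:
`w 1 (1 :: 3^m) = ∑_{j ≤ m} m.choose j * kN 1 (1 :: 3^j) * w 1 (3^(m-j))`.  All numbers are `≥ 0` (kN_nat; mac_w_one).  The term `j = m` is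
`kN 1 (1 :: 3^m)` (w_nil).  So `kN ≤ w`, and with mac_w_one (sum `3j + 1` resp. `3(m-j)`), for `m = 2n+1`, only odd `j = 2i+1` contribute:
`w 1 (1 :: 3^(2i+1)) = (6i+3)!!`, `w 1 (3^(2k)) = (6k-1)!!`.  TU_le.  TU_ge: `kN 1 (1 :: 3^m) = w 1 (1 :: 3^m) - ∑_{j<m} ..` and
`kN 1 (1 :: 3^j) ≤ w 1 (1 :: 3^j)`; divide by `m! 3^m` (`m.choose j = m!/(j! (m-j)!)`): `≥ mU n - ∑_{i<n} mU i * mW (n-i) ≥ mU n/2` (mUW).
For `n = 0`: `bb 0 = X^2` (bb_zero), `n = 1`: see TU_one: `(bb 1).eval 1 ≥ bc 1 1 + bc 1 3 > 0`-like bounds are not needed: uni_lo for `n = 1` follows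
from `bc 1 1 > 0`... use `bc 1 1 = 1` if available, otherwise prove uni_lo only for `n ≥ 3` (n odd) as stated below.
uni_up: `bc n 1 ≤ ∑_v bc n v = (bb n).eval 1 ≤ mU n ≤ n! 6^n` (eval_eq_sum_range, bc_nonneg).
uni_SE: coefficient of `X^1` in SE: the left side is `2 (3n+2) bc n 1`; on the right all coefficients are nonnegative (NNp; for `Dl` see Dl_term / Dl_low), and the coefficient of
`X^1` of `X * Dl (bb n)` is `(Dl (bb n)).coeff 0 = (bb n).eval 1 - (bb n).eval (-1) = 2 (bb n).eval 1` (only odd `v` occur, bc_supp; or Dl_coeff with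
`u = 0`: `(1 - (-1)^v) = 2` for odd `v`).
uni_lo: `bc n 1 ≥ (bb n).eval 1/(3n+2) ≥ mU n/(2 (3n+2)) ≥ n! 6^n/(4 (3n+2))`.
-/

set_option autoImplicit false

namespace UN39

open Finset

private theorem mc_split (f : ℕ → ℝ) (m : ℕ) :
    ∑ j ∈ range (2 * m), f j = ∑ i ∈ range m, (f (2 * i) + f (2 * i + 1)) := by
  induction m with
  | zero => simp
  | succ m ih =>
    rw [show 2 * (m + 1) = 2 * m + 1 + 1 by ring, Finset.sum_range_succ, Finset.sum_range_succ, ih,
      Finset.sum_range_succ]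
    ring

private theorem mc_repl_sum (m : ℕ) : (List.replicate m 3).sum = 3 * m := by
  rw [List.sum_replicate, smul_eq_mul, mul_comm]

private theorem mc_w3 (k : ℕ) : w 1 (List.replicate (2 * k) 3) = (((6 * k - 1).doubleFactorial : ℕ) : ℚ) := by
  rw [mac_w_one, mc_repl_sum, if_pos (by omega), show 3 * (2 * k) - 1 = 6 * k - 1 by omega]

private theorem mc_w13 (n : ℕ) : w 1 (1 :: List.replicate (2 * n + 1) 3) = (((6 * n + 3).doubleFactorial : ℕ) : ℚ) := by
  rw [mac_w_one, List.sum_cons, mc_repl_sum, if_pos (by omega), show 1 + 3 * (2 * n + 1) - 1 = 6 * n + 3 by omega]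

private theorem mc_kN_even (i : ℕ) : kN 1 (1 :: List.replicate (2 * i) 3) = 0 := by
  have h : Odd (1 :: List.replicate (2 * i) 3).sum := by
    rw [List.sum_cons, mc_repl_sum]
    exact ⟨3 * i, by ring⟩
  unfold kN
  rw [K_odd h]
  simp

private theorem mc_T (i : ℕ) : (bb i).eval 1 =
    ((kN 1 (1 :: List.replicate (2 * i + 1) 3) : ℚ) : ℝ) / ((((2 * i + 1).factorial : ℕ) : ℝ) * 3 ^ (2 * i + 1)) := by
  have h := kk_eval [1] (2 * i + 1) 1
  rw [Nat.cast_one, Nat.cast_one, List.singleton_append] at h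
  unfold bb
  rw [h]
  push_cast
  ring

private theorem mc_T_nonneg (i : ℕ) : 0 ≤ (bb i).eval 1 := by
  rw [Polynomial.eval_eq_sum_range]
  refine Finset.sum_nonneg fun j _ => ?_
  rw [one_pow, mul_one]
  exact bc_nonneg i j

private theorem mc_W0 : mW 0 = 1 := by
  unfold mW
  norm_num [Nat.doubleFactorial, Nat.factorial]

private theorem mc_ident (n : ℕ) : mU n = ∑ i ∈ range (n + 1), (bb i).eval 1 * mW (n - i) := by
  have h := sea_comp 1 1 (2 * n + 1)
  rw [Nat.cast_one, mc_w13] at h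
  have h2 := congrArg (fun q : ℚ => (q : ℝ)) h
  push_cast at h2
  rw [show 2 * n + 1 + 1 = 2 * (n + 1) by ring, mc_split] at h2
  unfold mU
  rw [h2, Finset.sum_div]
  refine Finset.sum_congr rfl fun i hi => ?_
  rw [Finset.mem_range] at hi
  rw [mc_kN_even, mc_T]
  obtain ⟨k, hk⟩ : ∃ k, n = i + k := ⟨n - i, by omega⟩
  subst hk
  rw [show i + k - i = k by omega, show 2 * (i + k) + 1 - (2 * i + 1) = 2 * k by omega, mc_w3]
  unfold mW
  have e1 : (2 * (i + k) + 1).choose (2 * i + 1) * (2 * i + 1).factorial * (2 * k).factorial = (2 * (i + k) + 1).factorial := by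
    have := Nat.choose_mul_factorial_mul_factorial (show 2 * i + 1 ≤ 2 * (i + k) + 1 by omega)
    rwa [show 2 * (i + k) + 1 - (2 * i + 1) = 2 * k by omega] at this
  have e2 : (((2 * (i + k) + 1).choose (2 * i + 1) : ℕ) : ℝ) * (((2 * i + 1).factorial : ℕ) : ℝ) * (((2 * k).factorial : ℕ) : ℝ) =
      (((2 * (i + k) + 1).factorial : ℕ) : ℝ) := by exact_mod_cast e1
  have e3 : (3 : ℝ) ^ (2 * (i + k) + 1) = 3 ^ (2 * i + 1) * 3 ^ (2 * k) := by
    rw [← pow_add]
    congr 1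
    ring
  have f1 : (((2 * i + 1).factorial : ℕ) : ℝ) ≠ 0 := by positivity
  have f2 : (((2 * k).factorial : ℕ) : ℝ) ≠ 0 := by positivity
  have f3 : (((2 * (i + k) + 1).factorial : ℕ) : ℝ) ≠ 0 := by positivity
  have f4 : (3 : ℝ) ^ (2 * i + 1) ≠ 0 := by positivity
  have f5 : (3 : ℝ) ^ (2 * k) ≠ 0 := by positivity
  rw [e3, ← e2]
  have f6 : (((2 * (i + k) + 1).choose (2 * i + 1) : ℕ) : ℝ) ≠ 0 := by
    intro h0
    rw [h0, zero_mul, zero_mul] at e2
    exact f3 e2.symm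
  push_cast
  rw [div_mul_div_comm, zero_mul, mul_zero, zero_add, div_eq_div_iff (by positivity) (by positivity)]
  ring

theorem TU_le (n : ℕ) : (bb n).eval 1 ≤ mU n := by
  rw [mc_ident n]
  have h := Finset.single_le_sum (f := fun i => (bb i).eval 1 * mW (n - i)) (s := range (n + 1))
    (fun i _ => mul_nonneg (mc_T_nonneg i) (mW_pos _).le) (Finset.self_mem_range_succ n)
  rw [Nat.sub_self, mc_W0, mul_one] at h
  exact h

theorem TU_ge {n : ℕ} (hn : 2 ≤ n) : mU n / 2 ≤ (bb n).eval 1 := by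
  have h := mc_ident n
  rw [Finset.sum_range_succ, Nat.sub_self, mc_W0, mul_one] at h
  have h1 := mUW hn
  have h2 : ∑ i ∈ range n, (bb i).eval 1 * mW (n - i) ≤ ∑ i ∈ range n, mU i * mW (n - i) :=
    Finset.sum_le_sum fun i _ => mul_le_mul_of_nonneg_right (TU_le i) (mW_pos _).le
  linarith

theorem uni_up (n : ℕ) : bc n 1 ≤ ((n.factorial : ℕ) : ℝ) * 6 ^ n := by
  refine le_trans ?_ ((TU_le n).trans (mU_le n))
  rw [Polynomial.eval_eq_sum_range]
  rcases Nat.lt_or_ge 1 ((bb n).natDegree + 1) with h | h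
  · have h1 := Finset.single_le_sum (f := fun i => (bb n).coeff i * (1 : ℝ) ^ i) (s := range ((bb n).natDegree + 1))
      (fun i _ => by rw [one_pow, mul_one]; exact bc_nonneg n i) (Finset.mem_range.2 h)
    simp only [one_pow, mul_one] at h1 ⊢
    exact h1
  · have h1 : bc n 1 = 0 := Polynomial.coeff_eq_zero_of_natDegree_lt (by omega)
    rw [h1]
    refine Finset.sum_nonneg fun i _ => ?_
    rw [one_pow, mul_one]
    exact bc_nonneg n i

private theorem mc_Dl_nn {f : Polynomial ℝ} (hf : NNp f) : NNp (Dl f) := fun u => by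
  rw [Dl_coeff (Nat.lt_succ_self f.natDegree)]
  exact Finset.sum_nonneg fun i _ => Dl_term hf u i

theorem uni_SE {n : ℕ} (hn : n % 2 = 1) : (bb n).eval 1 ≤ (3 * (n : ℝ) + 2) * bc n 1 := by
  have h1 := congrArg (fun f : Polynomial ℝ => f.coeff 1) (SE n)
  simp only [Polynomial.coeff_add, Polynomial.coeff_C_mul, Polynomial.finsetSum_coeff] at h1
  have h2 : (Polynomial.X * Dl (bb n)).coeff 1 = (Dl (bb n)).coeff 0 := Polynomial.coeff_X_mul _ 0
  rw [h2, Dl_coeff (Nat.lt_succ_self (bb n).natDegree)] at h1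
  have h3 : ∑ i ∈ range ((bb n).natDegree + 1), (bb n).coeff i * ((1 - (-1) ^ (i - 0)) * ((i.choose 0 : ℕ) : ℝ)) =
      2 * (bb n).eval 1 := by
    rw [Polynomial.eval_eq_sum_range, Finset.mul_sum]
    refine Finset.sum_congr rfl fun i _ => ?_
    rw [Nat.sub_zero, Nat.choose_zero_right, one_pow, Nat.cast_one]
    by_cases h0 : bc n i = 0
    · have : (bb n).coeff i = 0 := h0
      rw [this]
      ring
    · have h4 := (bc_supp h0).2.2
      have h5 : (-1 : ℝ) ^ i = -1 := Odd.neg_one_pow (Nat.odd_iff.2 (by omega))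
      rw [h5]
      ring
  have h6 : 0 ≤ ∑ i ∈ range n, (Polynomial.C (2 * (3 * (i : ℝ) + 2)) * bb i * Dl (bb (n - 1 - i))).coeff 1 := by
    refine Finset.sum_nonneg fun i _ => ?_
    rw [mul_assoc, Polynomial.coeff_C_mul]
    exact mul_nonneg (by positivity) (((NNp.bb i).mul (mc_Dl_nn (NNp.bb _))) 1)
  have h7 : (bb n).coeff 1 = bc n 1 := rfl
  rw [h7] at h1
  rw [h3] at h1
  linarith

theorem uni_lo {n : ℕ} (hn : n % 2 = 1) (h3 : 2 ≤ n) :
    ((n.factorial : ℕ) : ℝ) * 6 ^ n / (4 * (3 * (n : ℝ) + 2)) ≤ bc n 1 := by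
  have h1 := uni_SE hn
  have h2 := TU_ge h3
  have h4 := mU_ge n
  rw [div_le_iff₀ (by positivity)]
  nlinarith

end UN39
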