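import Mathlib

/-!
[H39 UN MACG]  (MP_bcc40c_pr)  Path sums.

`Gs l n a = ∑_{a < t ≤ n} l (1 - a/t)`.

PROOFS.  Gs_super: induction on `i + i'` (for all `i, i'`).  If `i = a` and `i' = a'`: both sides 0 (empty intervals).  Otherwise one of the two has positive density; the
one with the larger density `1 - a/i` (say `a/i ≤ a'/i'`, i.e. `a i' ≤ a' i`; by symmetry) satisfies `a < i` (if `a = i` then `i' ≤ a'` so `i' = a'`).  `Gs l i a = Gs l (i-1) a + l (1 - a/i)`,
induction for `(i-1, i')`, `Gs l (i+i') (a+a') = Gs l (i+i'-1) (a+a') + l (1 - (a+a')/(i+i'))`, and `(a+a')/(i+i') ≥ a/i`, so `0 ≤ 1 - (a+a')/(i+i') ≤ 1 - a/i < 1`, antitone.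
Gs_shift: `Ioc a n` is the union of `t ≤ b` (at most `b - a` terms, each `≤ B`) and `Ioc b n`, where `l (1 - a/t) ≤ l (1 - b/t)` (`1 - b/t ≤ 1 - a/t`, both in `[0,1)`).
Gs_gain: for `t ∈ Ioc (max i a) n` the term is `≥ l (1 - a/n) ≥ c`; all terms are `≥ 0`; the number of these `t` is `n - max i a`.
-/

set_option autoImplicit false

namespace UN39

open Finset

/-- path sum -/
noncomputable def Gs (l : ℝ → ℝ) (n a : ℕ) : ℝ := ∑ t ∈ Ioc a n, l (1 - (a : ℝ) / t)

theorem Gs_self (l : ℝ → ℝ) (a : ℕ) : Gs l a a = 0 := by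
  unfold Gs
  rw [Ioc_self, sum_empty]

theorem Gs_succ (l : ℝ → ℝ) {n a : ℕ} (h : a ≤ n) : Gs l (n + 1) a = Gs l n a + l (1 - (a : ℝ) / ((n + 1 : ℕ) : ℝ)) := by
  unfold Gs
  rw [Finset.sum_Ioc_succ_top h]

private theorem mg_step {l : ℝ → ℝ} (hl : AntitoneOn l (Set.Ico 0 1)) {j i' a a' : ℕ} (ha : 0 < a) (ha' : 0 < a')
    (hi : a ≤ j) (hi' : a' ≤ i') (hd : a * i' ≤ a' * (j + 1)) (ih : Gs l j a + Gs l i' a' ≤ Gs l (j + i') (a + a')) :
    Gs l (j + 1) a + Gs l i' a' ≤ Gs l (j + 1 + i') (a + a') := by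
  rw [show j + 1 + i' = (j + i') + 1 by ring, Gs_succ l hi, Gs_succ l (show a + a' ≤ j + i' by omega)]
  have hj : (0 : ℝ) < ((j + 1 : ℕ) : ℝ) := by positivity
  have hji : (0 : ℝ) < ((j + i' + 1 : ℕ) : ℝ) := by positivity
  have h1 : (a : ℝ) / ((j + 1 : ℕ) : ℝ) ≤ ((a + a' : ℕ) : ℝ) / ((j + i' + 1 : ℕ) : ℝ) := by
    rw [div_le_div_iff₀ hj hji]
    have : a * (j + i' + 1) ≤ (a + a') * (j + 1) := by nlinarith
    exact_mod_cast this
  have h2 : ((a + a' : ℕ) : ℝ) / ((j + i' + 1 : ℕ) : ℝ) ≤ 1 := by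
    rw [div_le_one hji]
    exact_mod_cast (by omega : a + a' ≤ j + i' + 1)
  have h3 : (0 : ℝ) < (a : ℝ) / ((j + 1 : ℕ) : ℝ) := by positivity
  have h4 : l (1 - (a : ℝ) / ((j + 1 : ℕ) : ℝ)) ≤ l (1 - ((a + a' : ℕ) : ℝ) / ((j + i' + 1 : ℕ) : ℝ)) := by
    apply hl
    · constructor <;> linarith
    · constructor <;> linarith
    · linarith
  linarith

theorem Gs_super {l : ℝ → ℝ} (hl : AntitoneOn l (Set.Ico 0 1)) {i i' a a' : ℕ} (ha : 0 < a) (ha' : 0 < a')
    (hi : a ≤ i) (hi' : a' ≤ i') : Gs l i a + Gs l i' a' ≤ Gs l (i + i') (a + a') := by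
  obtain ⟨N, hN⟩ : ∃ N, N = i + i' := ⟨_, rfl⟩
  induction N generalizing i i' with
  | zero => exfalso; omega
  | succ N ih =>
    rcases Nat.lt_or_ge a i with h | h
    · obtain ⟨j, rfl⟩ : ∃ j, i = j + 1 := ⟨i - 1, by omega⟩
      rcases le_total (a * i') (a' * (j + 1)) with hd | hd
      · exact mg_step hl ha ha' (by omega) hi' hd (ih (by omega) hi' (by omega))
      · rcases Nat.lt_or_ge a' i' with h' | h'
        · obtain ⟨j', rfl⟩ : ∃ j', i' = j' + 1 := ⟨i' - 1, by omega⟩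
          have := mg_step (i' := j + 1) (a' := a) hl ha' ha (show a' ≤ j' by omega) hi (by linarith) (by
            rw [add_comm, add_comm j', add_comm a']
            exact ih hi (by omega) (by omega))
          rw [add_comm, add_comm (j + 1), add_comm a]
          exact this
        · have h5 : i' = a' := le_antisymm h' hi'
          subst h5
          exact mg_step hl ha ha' (by omega) hi' (by nlinarith) (ih (by omega) hi' (by omega))
    · have h5 : i = a := le_antisymm h hi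
      rcases Nat.lt_or_ge a' i' with h' | h'
      · obtain ⟨j', rfl⟩ : ∃ j', i' = j' + 1 := ⟨i' - 1, by omega⟩
        have := mg_step (i' := i) (a' := a) hl ha' ha (show a' ≤ j' by omega) hi (by rw [h5]; nlinarith) (by
          rw [add_comm, add_comm j', add_comm a']
          exact ih hi (by omega) (by omega))
        rw [add_comm, add_comm i, add_comm a]
        exact this
      · have h6 : i' = a' := le_antisymm h' hi'
        rw [h5, h6, Gs_self, Gs_self, Gs_self, add_zero]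

theorem Gs_shift {l : ℝ → ℝ} (hl : AntitoneOn l (Set.Ico 0 1)) {B : ℝ} (h0 : ∀ x ∈ Set.Ico (0 : ℝ) 1, 0 ≤ l x)
    (hB : ∀ x ∈ Set.Ico (0 : ℝ) 1, l x ≤ B) {n a b : ℕ} (ha : 0 < a) (hab : a ≤ b) :
    Gs l n a ≤ Gs l n b + ((b : ℝ) - a) * B := by
  have hB0 : 0 ≤ B := (h0 0 ⟨le_refl _, one_pos⟩).trans (hB 0 ⟨le_refl _, one_pos⟩)
  have ha0 : (0 : ℝ) < a := by exact_mod_cast ha
  have hmem : ∀ t : ℕ, a < t → (1 - (a : ℝ) / t) ∈ Set.Ico (0 : ℝ) 1 := by
    intro t ht
    have ht0 : (0 : ℝ) < t := by exact_mod_cast (by omega : 0 < t)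
    have h1 : (a : ℝ) / t ≤ 1 := by
      rw [div_le_one ht0]; exact_mod_cast ht.le
    have h2 : (0 : ℝ) < (a : ℝ) / t := by positivity
    constructor <;> linarith
  unfold Gs
  rw [← Finset.sum_filter_add_sum_filter_not (Ioc a n) (fun t => b < t)]
  have e1 : (Ioc a n).filter (fun t => b < t) = Ioc b n := by
    ext t
    simp only [Finset.mem_filter, Finset.mem_Ioc]
    constructor
    · rintro ⟨⟨h1, h2⟩, h3⟩; exact ⟨h3, h2⟩
    · rintro ⟨h1, h2⟩; exact ⟨⟨by omega, h2⟩, h1⟩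
  rw [e1]
  apply add_le_add
  · apply Finset.sum_le_sum
    intro t ht
    rw [Finset.mem_Ioc] at ht
    have ht0 : (0 : ℝ) < t := by exact_mod_cast (by omega : 0 < t)
    have h1 : (b : ℝ) / t ≤ 1 := by
      rw [div_le_one ht0]; exact_mod_cast ht.1.le
    have h2 : (a : ℝ) / t ≤ b / t := by
      apply div_le_div_of_nonneg_right _ ht0.le
      exact_mod_cast hab
    have hm := hmem t (by omega)
    have hp : (0 : ℝ) < (a : ℝ) / t := by positivity
    apply hl
    · constructor <;> linarith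
    · exact hm
    · linarith
  · have h1 : ∑ t ∈ (Ioc a n).filter (fun t => ¬ b < t), l (1 - (a : ℝ) / t) ≤ ∑ t ∈ (Ioc a n).filter (fun t => ¬ b < t), B := by
      apply Finset.sum_le_sum
      intro t ht
      rw [Finset.mem_filter, Finset.mem_Ioc] at ht
      exact hB _ (hmem t ht.1.1)
    refine h1.trans ?_
    rw [Finset.sum_const, nsmul_eq_mul]
    apply mul_le_mul_of_nonneg_right _ hB0
    have h2 : ((Ioc a n).filter (fun t => ¬ b < t)).card ≤ b - a := by
      have : (Ioc a n).filter (fun t => ¬ b < t) ⊆ Ioc a b := by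
        intro t ht
        rw [Finset.mem_filter, Finset.mem_Ioc] at ht
        rw [Finset.mem_Ioc]
        omega
      have := Finset.card_le_card this
      rwa [Nat.card_Ioc] at this
    have h3 : (((Ioc a n).filter (fun t => ¬ b < t)).card : ℝ) ≤ ((b - a : ℕ) : ℝ) := by exact_mod_cast h2
    rwa [Nat.cast_sub hab] at h3

/-- going from `i` to `n` gains at least `c` in each step -/
theorem Gs_gain {l : ℝ → ℝ} (hl : AntitoneOn l (Set.Ico 0 1)) (h0 : ∀ x ∈ Set.Ico (0 : ℝ) 1, 0 ≤ l x) {n i a : ℕ} (ha : 0 < a)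
    (han : a ≤ n) (hin : i ≤ n) {c : ℝ} (hc : c ≤ l (1 - (a : ℝ) / n)) (hc0 : 0 ≤ c) :
    Gs l i a + ((n : ℝ) - max i a) * c ≤ Gs l n a := by
  have hg : Gs l i a = Gs l (max i a) a := by
    rcases le_total i a with h | h
    · rw [max_eq_right h, Gs_self]
      unfold Gs
      rw [Ioc_eq_empty (by omega), sum_empty]
    · rw [max_eq_left h]
  have hm : max i a ≤ n := max_le hin han
  rw [hg]
  have h1 : Gs l n a = Gs l (max i a) a + ∑ t ∈ Ioc (max i a) n, l (1 - (a : ℝ) / t) := by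
    unfold Gs
    rw [Finset.sum_Ioc_consecutive _ (le_max_right i a) hm]
  rw [h1]
  have h2 : ∑ t ∈ Ioc (max i a) n, c ≤ ∑ t ∈ Ioc (max i a) n, l (1 - (a : ℝ) / t) := by
    apply Finset.sum_le_sum
    intro t ht
    rw [Finset.mem_Ioc] at ht
    have hat : a < t := lt_of_le_of_lt (le_max_right i a) ht.1
    have ht0 : (0 : ℝ) < t := by exact_mod_cast (by omega : 0 < t)
    have hn0 : (0 : ℝ) < n := by exact_mod_cast (by omega : 0 < n)
    have ha0 : (0 : ℝ) < a := by exact_mod_cast ha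
    have h3 : (a : ℝ) / n ≤ a / t := by
      apply div_le_div_of_nonneg_left ha0.le ht0
      exact_mod_cast ht.2
    have h4 : (a : ℝ) / t ≤ 1 := by
      rw [div_le_one ht0]; exact_mod_cast hat.le
    have h5 : (0 : ℝ) < (a : ℝ) / n := by positivity
    refine hc.trans ?_
    apply hl
    · constructor <;> linarith
    · constructor <;> linarith
    · linarith
  rw [Finset.sum_const, Nat.card_Ioc, nsmul_eq_mul, Nat.cast_sub hm] at h2
  push_cast at h2 ⊢
  linarith

end UN39
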