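import Mathlib
import Pool.Agent.H39.UN.MacF
import Pool.Agent.H39.UN.MacG

/-!
[H39 UN MACH]  (MP_bcc40c_pr)  Lower bound of `log b(n, w)` along the path `(t, t - a)`, `a = n - w`, down to `(a + 1, 1)`.

PROOFS.  Lt_*: `Lt e x = Lw (max e x)`; for `x ∈ [0,1)`, `max e x ∈ [e, 1)`; Lw_anti, Lw_pos.  small: `x log (1/x) → 0` as `x → 0+`
(`Real.tendsto_log_mul_self_nhdsGT_zero` or so).
mac_low: let `a = n - w` (`≥ (1 - o2) n`, so large; `w ≥ 2`), `log b(n,w) - log b(a+1,1) = ∑_{t ∈ Ioc (a+1) n} (log b(t,t-a) - log b(t-1,t-1-a))` (all positive by bc_pos).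
For `t` with `e t ≤ t - a`: the density is `1 - a/t ≤ 1 - a/n = w/n ≤ o2`, lrt with `ω1 = e`, `ω2 = o2`, `ε = η/4` (`t ≥ a ≥ (1-o2) n ≥ n0`): the term is
`≥ Lw (1 - a/t) - η/4 = Lt e (1 - a/t) - η/4`.  For the other `t`: the term is `≥ log 2 ≥ 0` (bc_mono) `≥ Lt e (1 - a/t) - Lw e`; these `t` satisfy `t (1-e) < a`, `a < t`, so there are at most
`a e/(1-e) + 1 ≤ 2 e n + 1` (`e ≤ 1/2`).  The missing term `t = a + 1` of `Gs` is `≤ Lw e`.  Total: `log b(n,w) ≥ log b(a+1,1) + Gs - (η/4) n - (2 e n + 2) Lw e`, and `2 e Lw e ≤ 2 e (log 36 + 2 log (1/e)) ≤ η/4` for `e ≤ e0`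
(Lw_le, small), `2 Lw e ≤ (η/4) n` for `n ≥ n0(e)`.
-/

set_option autoImplicit false

namespace UN39

/-- truncated function -/
noncomputable def Lt (e x : ℝ) : ℝ := Lw (max e x)

theorem Lt_anti {e : ℝ} (h0 : 0 < e) (h1 : e < 1) : AntitoneOn (Lt e) (Set.Ico 0 1) := by
  intro x hx y hy hxy
  apply Lw_anti
  · exact ⟨lt_max_of_lt_left h0, max_lt h1 hx.2⟩
  · exact ⟨lt_max_of_lt_left h0, max_lt h1 hy.2⟩
  · exact max_le_max le_rfl hxy

theorem Lt_nonneg {e : ℝ} (h0 : 0 < e) (h1 : e < 1) : ∀ x ∈ Set.Ico (0 : ℝ) 1, 0 ≤ Lt e x := by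
  intro x hx
  exact (Lw_pos (lt_max_of_lt_left h0) (max_lt h1 hx.2)).le

theorem Lt_le {e : ℝ} (h0 : 0 < e) (h1 : e < 1) : ∀ x ∈ Set.Ico (0 : ℝ) 1, Lt e x ≤ Lw e := by
  intro x hx
  exact Lw_anti ⟨h0, h1⟩ ⟨lt_max_of_lt_left h0, max_lt h1 hx.2⟩ (le_max_left _ _)

theorem mac_small {η C : ℝ} (hη : 0 < η) :
    ∃ e0 : ℝ, 0 < e0 ∧ e0 ≤ 1 / 2 ∧ ∀ e, 0 < e → e ≤ e0 → e * (C + 2 * Real.log (1 / e)) ≤ η := by
  have hc : Continuous fun e : ℝ => C * e - 2 * (e * Real.log e) :=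
    (continuous_const.mul continuous_id).sub (continuous_const.mul Real.continuous_mul_log)
  have h1 := hc.tendsto 0
  simp only [mul_zero, zero_mul, sub_zero] at h1
  have h2 := h1.eventually_lt_const hη
  rw [Metric.eventually_nhds_iff] at h2
  obtain ⟨δ, hδ, h3⟩ := h2
  refine ⟨min (δ / 2) (1 / 2), lt_min (by linarith) (by norm_num), min_le_right _ _, ?_⟩
  intro e he0 he
  have h4 : e ≤ δ / 2 := he.trans (min_le_left _ _)
  have h5 := h3 (y := e) (by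
    rw [Real.dist_eq, sub_zero, abs_of_pos he0]
    linarith)
  rw [one_div, Real.log_inv]
  linarith

private theorem mh_path {o2 η e : ℝ} (hη : 0 < η) (he0 : 0 < e) (he1 : e < 1)
    {n a N : ℕ} (ha : 0 < a) (hae : a % 2 = 0) (hNa : N ≤ a) (hao : (1 - o2) * n ≤ a) (ho : o2 < 1)
    (hN : ∀ n v : ℕ, N ≤ n → e * n ≤ v → (v : ℝ) ≤ o2 * n → v % 2 = n % 2 →
      0 < bc (n - 1) (v - 1) ∧ 0 < bc n v ∧
        |Real.log (bc n v) - Real.log (bc (n - 1) (v - 1)) - Lw ((v : ℝ) / n)| ≤ η / 4)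
    (j : ℕ) : a + 1 + j ≤ n →
    Real.log (bc (a + 1) 1) + Gs (Lt e) (a + 1 + j) a - η / 4 * j -
      Lw e * (1 + min (j : ℝ) (e * n)) ≤ Real.log (bc (a + 1 + j) (j + 1)) := by
  have ha0 : (0 : ℝ) < a := by exact_mod_cast ha
  have hL : 0 < Lw e := Lw_pos he0 he1
  have hmem : ∀ t : ℕ, a < t → (1 - (a : ℝ) / t) ∈ Set.Ico (0 : ℝ) 1 := by
    intro t ht
    have ht0 : (0 : ℝ) < t := by exact_mod_cast (by omega : 0 < t)
    have h1 : (a : ℝ) / t ≤ 1 := by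
      rw [div_le_one ht0]
      exact_mod_cast ht.le
    have h2 : (0 : ℝ) < (a : ℝ) / t := by positivity
    constructor <;> linarith
  induction j with
  | zero =>
    intro _
    rw [add_zero, Gs_succ (Lt e) (le_refl a), Gs_self, zero_add, zero_add]
    have h1 := Lt_le he0 he1 _ (hmem (a + 1) (by omega))
    have h2 : 0 ≤ min ((0 : ℕ) : ℝ) (e * n) := le_min (by simp) (by positivity)
    have h3 : 0 ≤ Lw e * min ((0 : ℕ) : ℝ) (e * n) := mul_nonneg hL.le h2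
    rw [mul_add, mul_one, Nat.cast_zero, mul_zero]
    rw [Nat.cast_zero] at h3
    linarith
  | succ j ih =>
    intro hj
    have ihj := ih (by omega)
    have ht0 : (0 : ℝ) < ((a + 1 + j + 1 : ℕ) : ℝ) := by positivity
    have htn : ((a + 1 + j + 1 : ℕ) : ℝ) ≤ n := by exact_mod_cast (by omega : a + 1 + j + 1 ≤ n)
    have hmm := hmem (a + 1 + j + 1) (by omega)
    have e0 : a + 1 + (j + 1) = a + 1 + j + 1 := by omega
    rw [e0, Gs_succ (Lt e) (by omega : a ≤ a + 1 + j)]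
    have hva : (1 : ℝ) - (a : ℝ) / ((a + 1 + j + 1 : ℕ) : ℝ) =
        ((j + 1 + 1 : ℕ) : ℝ) / ((a + 1 + j + 1 : ℕ) : ℝ) := by
      rw [eq_div_iff ht0.ne', sub_mul, div_mul_cancel₀ _ ht0.ne']
      push_cast
      ring
    by_cases hgood : e * ((a + 1 + j + 1 : ℕ) : ℝ) ≤ ((j + 1 + 1 : ℕ) : ℝ)
    · have h1 := hN (a + 1 + j + 1) (j + 1 + 1) (by omega) hgood (by
        have h2 : (1 - o2) * ((a + 1 + j + 1 : ℕ) : ℝ) ≤ a :=
          (mul_le_mul_of_nonneg_left htn (by linarith)).trans hao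
        have h3 : ((j + 1 + 1 : ℕ) : ℝ) = ((a + 1 + j + 1 : ℕ) : ℝ) - a := by
          push_cast
          ring
        rw [h3]
        linarith) (by omega)
      have h2 := (abs_le.1 h1.2.2).1
      rw [Nat.add_sub_cancel, Nat.add_sub_cancel] at h2
      have h3 : Lt e (1 - (a : ℝ) / ((a + 1 + j + 1 : ℕ) : ℝ)) =
          Lw (((j + 1 + 1 : ℕ) : ℝ) / ((a + 1 + j + 1 : ℕ) : ℝ)) := by
        unfold Lt
        rw [hva, max_eq_right]
        rw [le_div_iff₀ ht0]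
        exact hgood
      have h4 : min (j : ℝ) (e * n) ≤ min ((j + 1 : ℕ) : ℝ) (e * n) := by
        apply min_le_min_right
        push_cast
        linarith
      have h5 := mul_le_mul_of_nonneg_left h4 hL.le
      rw [h3]
      push_cast at h5 ih ihj h2 ⊢
      rw [mul_add, mul_one] at ihj ⊢
      linarith
    · rw [not_le] at hgood
      have h1 := bc_mono (a + 1 + j) (j + 1)
      have h2 : 0 < bc (a + 1 + j) (j + 1) := bc_pos (by omega) (by omega) (by omega) (by omega)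
      have h3 : Real.log (bc (a + 1 + j) (j + 1)) ≤ Real.log (bc (a + 1 + j + 1) (j + 1 + 1)) :=
        Real.log_le_log h2 (by linarith)
      have h4 := Lt_le he0 he1 _ hmm
      have h5 : ((j + 1 : ℕ) : ℝ) ≤ e * n := by
        have h6 : e * ((a + 1 + j + 1 : ℕ) : ℝ) ≤ e * n := mul_le_mul_of_nonneg_left htn he0.le
        push_cast at hgood h6 ⊢
        linarith
      have h6 : min ((j + 1 : ℕ) : ℝ) (e * n) = (j : ℝ) + 1 := by
        rw [min_eq_left h5]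
        push_cast
        ring
      have h7 : Lw e * min (j : ℝ) (e * n) ≤ Lw e * j :=
        mul_le_mul_of_nonneg_left (min_le_left _ _) hL.le
      rw [h6]
      rw [mul_add, mul_one] at ihj ⊢
      have h8 : 0 ≤ η / 4 := by linarith
      have h9 : η / 4 * ((j + 1 : ℕ) : ℝ) = η / 4 * j + η / 4 := by
        push_cast
        ring
      rw [h9]
      have h10 : Lw e * ((j : ℝ) + 1) = Lw e * j + Lw e := by ring
      rw [h10]
      linarith

theorem mac_low {o2 η : ℝ} (h2 : o2 < 1) (hη : 0 < η) :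
    ∃ e0 : ℝ, 0 < e0 ∧ e0 ≤ 1 / 2 ∧ ∀ e, 0 < e → e ≤ e0 → ∃ n0 : ℕ, ∀ n w : ℕ, n0 ≤ n → 2 ≤ w → (w : ℝ) ≤ o2 * n → w % 2 = n % 2 →
      Real.log (bc (n - w + 1) 1) + Gs (Lt e) n (n - w) - η * n ≤ Real.log (bc n w) := by
  obtain ⟨e0, he0, he0', hsmall⟩ := mac_small (η := η / 4) (C := Real.log 36) (by linarith)
  refine ⟨e0, he0, he0', ?_⟩
  intro e he hee
  have he1 : e < 1 := by linarith
  obtain ⟨N, hN⟩ := lrt (ω1 := e) (ω2 := o2) he h2 (ε := η / 4) (by linarith)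
  have hLe : e * Lw e ≤ η / 4 :=
    (mul_le_mul_of_nonneg_left (Lw_le he he1) he.le).trans (hsmall e he hee)
  obtain ⟨N1, hN1⟩ := exists_nat_ge ((N : ℝ) / (1 - o2))
  obtain ⟨N2, hN2⟩ := exists_nat_ge (4 * Lw e / η)
  have ho : 0 < 1 - o2 := by linarith
  refine ⟨N1 + N2 + 1, ?_⟩
  intro n w hn hw hwo hpar
  have hn0 : (0 : ℝ) < n := by exact_mod_cast (by omega : 0 < n)
  have hwn : w ≤ n := by
    have h3 : (w : ℝ) ≤ n := by nlinarith
    exact_mod_cast h3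
  obtain ⟨a, rfl⟩ : ∃ a, n = a + w := ⟨n - w, by omega⟩
  have hna : a + w - w = a := by omega
  rw [hna]
  have hao : (1 - o2) * ((a + w : ℕ) : ℝ) ≤ a := by
    have h3 : ((a + w : ℕ) : ℝ) = a + w := by push_cast; ring
    rw [h3] at hwo ⊢
    linarith
  have ha0 : 0 < a := by
    have h3 : (0 : ℝ) < a := lt_of_lt_of_le (mul_pos ho hn0) hao
    exact_mod_cast h3
  have hNa : N ≤ a := by
    have h3 : (N : ℝ) ≤ a := by
      refine le_trans ?_ hao
      rw [div_le_iff₀ ho] at hN1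
      have h4 : (N1 : ℝ) ≤ ((a + w : ℕ) : ℝ) := by exact_mod_cast (by omega : N1 ≤ a + w)
      have h5 := mul_le_mul_of_nonneg_left h4 ho.le
      linarith
    exact_mod_cast h3
  obtain ⟨j, rfl⟩ : ∃ j, w = j + 1 := ⟨w - 1, by omega⟩
  have h3 := mh_path (n := a + (j + 1)) hη he he1 ha0 (by omega) hNa hao h2 hN j (by omega)
  have e1 : a + 1 + j = a + (j + 1) := by omega
  rw [e1] at h3
  have hL : 0 < Lw e := Lw_pos he he1
  have h4 : Lw e * min (j : ℝ) (e * ((a + (j + 1) : ℕ) : ℝ)) ≤ η / 4 * ((a + (j + 1) : ℕ) : ℝ) := by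
    refine (mul_le_mul_of_nonneg_left (min_le_right _ _) hL.le).trans ?_
    have h5 := mul_le_mul_of_nonneg_right hLe hn0.le
    linarith
  have h5 : Lw e ≤ η / 4 * ((a + (j + 1) : ℕ) : ℝ) := by
    rw [div_le_iff₀ hη] at hN2
    have h6 : (N2 : ℝ) ≤ ((a + (j + 1) : ℕ) : ℝ) := by
      exact_mod_cast (by omega : N2 ≤ a + (j + 1))
    have h7 := mul_le_mul_of_nonneg_right h6 hη.le
    linarith
  have h6 : η / 4 * (j : ℝ) ≤ η / 4 * ((a + (j + 1) : ℕ) : ℝ) := by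
    apply mul_le_mul_of_nonneg_left _ (by linarith)
    exact_mod_cast (by omega : j ≤ a + (j + 1))
  rw [mul_add, mul_one] at h3
  have h7 : 0 ≤ η * ((a + (j + 1) : ℕ) : ℝ) := by positivity
  linarith

end UN39
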