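import Mathlib
import Pool.Agent.H39.UN.MacF
import Pool.Agent.H39.UN.MacG
import Pool.Agent.H39.UN.MacE
import Pool.Agent.H39.UN.MacH

/-!
[H39 UN MACI]  (MP_bcc40c_pr)  Upper bound of `log b(i, u)` along the path `(t, t - a)`, `a = i - u ≥ δ i`.

PROOFS.  mac_fac: `∑_{k=1}^m log (i/k) = m log i - log m! ≤ m (log (i/m) + 1)` (`m! ≥ (m/e)^m`, e.g. from `Real.exp m ≥ m^m/m!`), and
`x (log (1/x) + 1)` is increasing on `(0, 1]` (`x = m/i ≤ e`; for `m = 0` the sum is 0).
mac_upp: `log b(i,u) - log b(a+1,1) = ∑_{t ∈ Ioc (a+1) i} (log b(t,t-a) - log b(t-1,t-1-a))` (bc_pos).  For `t` with `e t ≤ t - a`: density `≤ 1 - a/i = u/i ≤ 1 - δ`, lrt with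
`ω1 = e`, `ω2 = 1 - δ`, `ε = η/4` (`t ≥ a ≥ δ i ≥ n0`): the term is `≤ Lt e (1 - a/t) + η/4`.  For the other `t`, with `v = t - a ≥ 2`, `v < e t ≤ e i`: by gj_low (`n = t - 1`, `w = v - 1`):
`b(t,v)/b(t-1,v-1) ≤ 12 t (3t-1)/((v-1) v) ≤ 36 i^2/(v-1)^2`, the term is `≤ log 36 + 2 log (i/(v-1))`; their number is `≤ e i`, different `v`, so the sum is
`≤ e i log 36 + 2 e i (log (1/e) + 1)` (mac_fac) `≤ (η/4) i` for `e ≤ e0` (mac_small with `C = log 36 + 2`).  The terms of `Gs` for these `t` and for `t = a + 1` are `≥ 0`.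
-/

set_option autoImplicit false

namespace UN39

open Finset

private theorem mi_mono {x e : ℝ} (hx : 0 < x) (hxe : x ≤ e) (he1 : e ≤ 1) :
    x * (Real.log (1 / x) + 1) ≤ e * (Real.log (1 / e) + 1) := by
  have he : 0 < e := hx.trans_le hxe
  have h1 : Real.log (1 / x) = Real.log (e / x) + Real.log (1 / e) := by
    rw [← Real.log_mul (by positivity) (by positivity)]
    congr 1
    field_simp
  have h2 : Real.log (e / x) ≤ e / x - 1 := Real.log_le_sub_one_of_pos (by positivity)
  have h3 : x * Real.log (e / x) ≤ e - x := by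
    calc x * Real.log (e / x) ≤ x * (e / x - 1) := mul_le_mul_of_nonneg_left h2 hx.le
      _ = e - x := by field_simp
  have h4 : 0 ≤ Real.log (1 / e) := Real.log_nonneg (by rw [le_div_iff₀ he]; linarith)
  have h5 : x * Real.log (1 / e) ≤ e * Real.log (1 / e) := mul_le_mul_of_nonneg_right hxe h4
  rw [h1]
  nlinarith

theorem mac_fac {i m : ℕ} {e : ℝ} (he : 0 < e) (he1 : e ≤ 1) (hi : 0 < i) (hm : (m : ℝ) ≤ e * i) :
    ∑ k ∈ Icc 1 m, Real.log ((i : ℝ) / k) ≤ e * i * (Real.log (1 / e) + 1) := by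
  have hi0 : (0 : ℝ) < i := by exact_mod_cast hi
  have hle : 0 ≤ Real.log (1 / e) := Real.log_nonneg (by rw [le_div_iff₀ he]; linarith)
  rcases Nat.eq_zero_or_pos m with rfl | hmp
  · simp only [show Icc 1 0 = (∅ : Finset ℕ) from rfl, sum_empty]
    positivity
  have hm0 : (0 : ℝ) < m := by exact_mod_cast hmp
  have h1 : ∑ k ∈ Icc 1 m, Real.log ((i : ℝ) / k) = m * Real.log i - Real.log ((m.factorial : ℕ) : ℝ) := by
    have : ∀ m : ℕ, ∑ k ∈ Icc 1 m, Real.log ((i : ℝ) / k) = m * Real.log i - Real.log ((m.factorial : ℕ) : ℝ) := by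
      intro m
      induction m with
      | zero => simp
      | succ m ih =>
        rw [Finset.sum_Icc_succ_top (by omega), ih, Nat.factorial_succ]
        push_cast
        rw [Real.log_mul (by positivity) (by positivity), Real.log_div hi0.ne' (by positivity)]
        ring
    exact this m
  have h2 : (m : ℝ) * Real.log m - m ≤ Real.log ((m.factorial : ℕ) : ℝ) := by
    have h3 := Real.pow_div_factorial_le_exp (m : ℝ) hm0.le m
    have h4 := Real.log_le_log (by positivity) h3
    rw [Real.log_exp, Real.log_div (by positivity) (by positivity), Real.log_pow] at h4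
    linarith
  have h5 : (m : ℝ) / i ≤ e := by rw [div_le_iff₀ hi0]; exact hm
  have h6 := mi_mono (x := (m : ℝ) / i) (by positivity) h5 he1
  have h7 : Real.log (1 / ((m : ℝ) / i)) = Real.log i - Real.log m := by
    rw [one_div_div, Real.log_div hi0.ne' hm0.ne']
  rw [h7] at h6
  rw [h1]
  have h8 : (m : ℝ) * Real.log i - (m * Real.log m - m) = i * ((m : ℝ) / i * (Real.log i - Real.log m + 1)) := by
    field_simp
    ring
  calc (m : ℝ) * Real.log i - Real.log ((m.factorial : ℕ) : ℝ) ≤ m * Real.log i - (m * Real.log m - m) := by linarith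
    _ = i * ((m : ℝ) / i * (Real.log i - Real.log m + 1)) := h8
    _ ≤ i * (e * (Real.log (1 / e) + 1)) := mul_le_mul_of_nonneg_left h6 hi0.le
    _ = _ := by ring

private theorem mi_cnt (f : ℕ → ℝ) (m : ℕ) (hf : ∀ k, 1 ≤ k → k ≤ m → 0 ≤ f k) (N : ℕ) :
    ∑ k ∈ Icc 1 N, (if k ≤ m then f k else 0) ≤ ∑ k ∈ Icc 1 m, f k := by
  rw [← Finset.sum_filter]
  apply Finset.sum_le_sum_of_subset_of_nonneg
  · intro k hk
    rw [Finset.mem_filter, Finset.mem_Icc] at hk
    rw [Finset.mem_Icc]
    exact ⟨hk.1.1, hk.2⟩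
  · intro k hk _
    rw [Finset.mem_Icc] at hk
    exact hf k hk.1 hk.2

theorem mac_upp {δ η : ℝ} (hδ : 0 < δ) (hη : 0 < η) :
    ∃ e0 : ℝ, 0 < e0 ∧ e0 ≤ 1 / 2 ∧ ∀ e, 0 < e → e ≤ e0 → ∃ i0 : ℕ, ∀ i u : ℕ, i0 ≤ i → 1 ≤ u → (u : ℝ) ≤ (1 - δ) * i → u % 2 = i % 2 →
      Real.log (bc i u) ≤ Real.log (bc (i - u + 1) 1) + Gs (Lt e) i (i - u) + η * i := by
  obtain ⟨e0, he0, he02, hsm⟩ := mac_small (η := η / 4) (C := Real.log 36 + 2) (by positivity)
  refine ⟨e0, he0, he02, ?_⟩
  intro e he hee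
  have he2 : e ≤ 1 / 2 := hee.trans he02
  have hsm' := hsm e he hee
  obtain ⟨n0, H⟩ := lrt (ω1 := e) (ω2 := 1 - δ) he (by linarith) (ε := η / 4) (by positivity)
  obtain ⟨i1, hi1⟩ := exists_nat_ge (((n0 : ℝ) + 1) / δ)
  refine ⟨max i1 1, ?_⟩
  intro i u hi hu1 hu2 hpar
  have hi0 : 0 < i := by have := le_max_right i1 1; omega
  have hir : (0 : ℝ) < i := by exact_mod_cast hi0
  have hi1' : (i1 : ℝ) ≤ i := by exact_mod_cast (le_max_left i1 1).trans hi
  have hn0i : (n0 : ℝ) + 1 ≤ δ * i := by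
    rw [div_le_iff₀ hδ] at hi1
    nlinarith
  obtain ⟨a, ha⟩ : ∃ a, a = i - u := ⟨_, rfl⟩
  have hui : u ≤ i := by
    have : (u : ℝ) ≤ i := by nlinarith
    exact_mod_cast this
  have hia : i = a + u := by omega
  have har : (a : ℝ) = i - u := by rw [hia]; push_cast; ring
  have han : (n0 : ℝ) + 1 ≤ a := by rw [har]; linarith
  have han0 : n0 + 1 ≤ a := by exact_mod_cast han
  rw [← ha]
  obtain ⟨m, hm⟩ : ∃ m, m = ⌊e * i⌋₊ := ⟨_, rfl⟩
  have hmle : (m : ℝ) ≤ e * i := by rw [hm]; exact Nat.floor_le (by positivity)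
  have hmi : (m : ℝ) ≤ i := by nlinarith
  obtain ⟨f, hf⟩ : ∃ f : ℕ → ℝ, f = fun k : ℕ => Real.log 36 + 2 * Real.log ((i : ℝ) / k) := ⟨_, rfl⟩
  have hl36 : 0 ≤ Real.log 36 := Real.log_nonneg (by norm_num)
  have hfnn : ∀ k, 1 ≤ k → k ≤ m → 0 ≤ f k := by
    intro k h1 h2
    rw [hf]
    have hk0 : (0 : ℝ) < k := by exact_mod_cast h1
    have : 0 ≤ Real.log ((i : ℝ) / k) := by
      apply Real.log_nonneg
      rw [le_div_iff₀ hk0, one_mul]
      have : (k : ℝ) ≤ m := by exact_mod_cast h2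
      linarith
    simp only
    linarith
  have hLn := Lt_nonneg he (show e < 1 by linarith)
  have hxmem : ∀ t : ℕ, a < t → (1 - (a : ℝ) / t) ∈ Set.Ico (0 : ℝ) 1 := by
    intro t ht
    have ht0 : (0 : ℝ) < t := by exact_mod_cast (by omega : 0 < t)
    have ha0 : (0 : ℝ) < a := by exact_mod_cast (by omega : 0 < a)
    have h1 : (a : ℝ) / t ≤ 1 := by
      rw [div_le_one ht0]; exact_mod_cast ht.le
    have h2 : (0 : ℝ) < (a : ℝ) / t := by positivity
    constructor <;> linarith
  -- induction along the path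
  have key : ∀ N : ℕ, 1 + N ≤ u → Real.log (bc (a + 1 + N) (1 + N)) ≤ Real.log (bc (a + 1) 1) +
      ∑ t ∈ Ioc (a + 1) (a + 1 + N), Lt e (1 - (a : ℝ) / t) + η / 4 * N +
        ∑ k ∈ Icc 1 N, (if k ≤ m then f k else 0) := by
    intro N
    induction N with
    | zero =>
      intro _
      simp
    | succ N ih =>
      intro hN
      have ih' := ih (by omega)
      rw [show a + 1 + (N + 1) = (a + 1 + N) + 1 by ring, Finset.sum_Ioc_succ_top (by omega), Finset.sum_Icc_succ_top (by omega)]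
      obtain ⟨t, ht⟩ : ∃ t, t = a + 1 + N + 1 := ⟨_, rfl⟩
      obtain ⟨v, hv⟩ : ∃ v, v = N + 2 := ⟨_, rfl⟩
      rw [← ht, show 1 + (N + 1) = v by omega]
      rw [show a + 1 + N = t - 1 by omega, show 1 + N = v - 1 by omega] at ih'
      rw [show a + 1 + N = t - 1 by omega]
      have htr : (0 : ℝ) < t := by exact_mod_cast (by omega : 0 < t)
      have hti : (t : ℝ) ≤ i := by exact_mod_cast (by omega : t ≤ i)
      have hvr : (v : ℝ) = t - a := by
        have : t = a + v := by omega
        rw [this]; push_cast; ring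
      have hdens : 1 - (a : ℝ) / t = v / t := by
        rw [hvr, sub_div, div_self htr.ne']
      have hpt : v % 2 = t % 2 := by omega
      have hp1 : 0 < bc (t - 1) (v - 1) := bc_pos (by omega) (by omega) (by omega) (by omega)
      have hp2 : 0 < bc t v := bc_pos (by omega) (by omega) (by omega) hpt
      have hterm : Real.log (bc t v) - Real.log (bc (t - 1) (v - 1)) ≤ Lt e (1 - (a : ℝ) / t) + η / 4 +
          (if N + 1 ≤ m then f (N + 1) else 0) := by
        by_cases hA : e * t ≤ v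
        · have hv2 : (v : ℝ) ≤ (1 - δ) * t := by
            -- v = t - a, a ≥ δ i ≥ δ t
            have : δ * i ≤ a := by rw [har]; linarith
            have h3 : δ * t ≤ δ * i := mul_le_mul_of_nonneg_left hti hδ.le
            rw [hvr]; linarith
          have h4 := (H t v (by omega) hA hv2 hpt).2.2
          have h5 := (abs_le.mp h4).2
          have h6 : Lt e (1 - (a : ℝ) / t) = Lw ((v : ℝ) / t) := by
            unfold Lt
            rw [hdens, max_eq_right]
            rw [le_div_iff₀ htr]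
            exact hA
          have h7 : 0 ≤ (if N + 1 ≤ m then f (N + 1) else 0) := by
            split_ifs with h
            · exact hfnn _ (by omega) h
            · exact le_rfl
          rw [h6]
          linarith
        · push Not at hA
          have h3 : N + 1 ≤ m := by
            rw [hm]
            apply Nat.le_floor
            have h4 : e * t ≤ e * i := mul_le_mul_of_nonneg_left hti he.le
            have h5 : ((N + 1 : ℕ) : ℝ) ≤ v := by exact_mod_cast (by omega : N + 1 ≤ v)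
            linarith
          rw [if_pos h3]
          have h4 := hLn _ (hxmem t (by omega))
          have h5 : Real.log (bc t v) - Real.log (bc (t - 1) (v - 1)) ≤ f (N + 1) := by
            rw [← Real.log_div hp2.ne' hp1.ne']
            have hg := gj_low (t - 1) (v - 1) (by omega)
            rw [show t - 1 + 1 = t by omega, show v - 1 + 1 = v by omega, Nat.cast_sub (by omega : 1 ≤ t),
              show v - 1 = N + 1 by omega] at hg
            rw [show v - 1 = N + 1 by omega] at hp1 ⊢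
            have hN0 : (0 : ℝ) < ((N + 1 : ℕ) : ℝ) := by positivity
            have h6 : bc t v / bc (t - 1) (N + 1) ≤ 36 * ((i : ℝ) / ((N + 1 : ℕ) : ℝ)) ^ 2 := by
              rw [div_le_iff₀ hp1, div_pow, mul_div_assoc', div_mul_eq_mul_div, le_div_iff₀ (by positivity)]
              have ht1 : (1 : ℝ) ≤ t := by exact_mod_cast (by omega : 1 ≤ t)
              have e1 : bc t v * ((N + 1 : ℕ) : ℝ) ^ 2 ≤ ((N + 1 : ℕ) : ℝ) * (((N + 1 : ℕ) : ℝ) + 1) * bc t v := by
                have : 0 ≤ ((N + 1 : ℕ) : ℝ) * bc t v := by positivity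
                nlinarith
              have e2 : 12 * ((t : ℝ) - ((1 : ℕ) : ℝ) + 1) * (3 * ((t : ℝ) - ((1 : ℕ) : ℝ)) + 2) ≤ 36 * (i : ℝ) ^ 2 := by
                push_cast
                nlinarith
              have e3 := mul_le_mul_of_nonneg_right e2 hp1.le
              linarith
            refine (Real.log_le_log (by positivity) h6).trans (le_of_eq ?_)
            rw [Real.log_mul (by norm_num) (by positivity), Real.log_pow, hf]
            push_cast
            ring
          linarith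
      push_cast
      linarith
  have hfin := key (u - 1) (by omega)
  rw [show a + 1 + (u - 1) = i by omega, show 1 + (u - 1) = u by omega] at hfin
  have hcnt := mi_cnt f m hfnn (u - 1)
  have hsum : ∑ k ∈ Icc 1 m, f k ≤ η / 4 * i := by
    have h1 := mac_fac he (by linarith) hi0 hmle
    rw [hf]
    rw [Finset.sum_add_distrib, ← Finset.mul_sum, Finset.sum_const, Nat.card_Icc, nsmul_eq_mul, Nat.add_sub_cancel]
    have h2 : (m : ℝ) * Real.log 36 ≤ e * i * Real.log 36 := mul_le_mul_of_nonneg_right hmle hl36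
    have h3 : i * (e * (Real.log 36 + 2 + 2 * Real.log (1 / e))) ≤ i * (η / 4) := mul_le_mul_of_nonneg_left hsm' hir.le
    nlinarith
  have hG : ∑ t ∈ Ioc (a + 1) i, Lt e (1 - (a : ℝ) / t) ≤ Gs (Lt e) i a := by
    unfold Gs
    apply Finset.sum_le_sum_of_subset_of_nonneg
    · intro t ht
      rw [Finset.mem_Ioc] at ht ⊢
      omega
    · intro t ht _
      rw [Finset.mem_Ioc] at ht
      exact hLn _ (hxmem t ht.1)
  have hu3 : η / 4 * ((u - 1 : ℕ) : ℝ) ≤ η / 4 * i := by
    apply mul_le_mul_of_nonneg_left _ (by positivity)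
    exact_mod_cast (by omega : u - 1 ≤ i)
  have hlast : 0 ≤ η * (i : ℝ) := by positivity
  linarith

end UN39
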