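import Mathlib

/-!
[H39 UN MACJ]  (MP_bcc40c_pr)  Entropy of factorials.

PROOFS.  two_pow_min: for `m1 ≤ m2`: `(m1 + m2).choose m1 ≥ 2^m1`: `(m1+m2)!/(m2)! = ∏_{j=1}^{m1} (m2 + j) ≥ ∏ 2 j = 2^m1 m1!` because `m2 + j ≥ 2 j`; symmetric in the other case.
fac_ent: `c = δ log 2`: `m1! m2! 2^(min) ≤ (m1+m2)!`, `min ≥ δ n`.
-/

set_option autoImplicit false

namespace UN39

private theorem mj_le (m1 m2 : ℕ) (h : m1 ≤ m2) : 2 ^ m1 * (m1.factorial * m2.factorial) ≤ (m1 + m2).factorial := by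
  induction m1 with
  | zero => simp
  | succ m ih =>
    have h1 := ih (by omega)
    rw [show m + 1 + m2 = (m + m2) + 1 by ring, Nat.factorial_succ (m + m2), Nat.factorial_succ m, pow_succ]
    calc 2 ^ m * 2 * ((m + 1) * m.factorial * m2.factorial) = (2 * (m + 1)) * (2 ^ m * (m.factorial * m2.factorial)) := by ring
      _ ≤ (m + m2 + 1) * (m + m2).factorial := Nat.mul_le_mul (by omega) h1

theorem two_pow_min (m1 m2 : ℕ) : 2 ^ (min m1 m2) * (m1.factorial * m2.factorial) ≤ (m1 + m2).factorial := by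
  rcases le_total m1 m2 with h | h
  · rw [min_eq_left h]; exact mj_le m1 m2 h
  · rw [min_eq_right h, mul_comm m1.factorial, add_comm]; exact mj_le m2 m1 h

theorem fac_ent {δ : ℝ} (hδ : 0 < δ) : ∃ c : ℝ, 0 < c ∧ ∀ n m1 m2 : ℕ, δ * n ≤ m1 → δ * n ≤ m2 →
    ((m1.factorial : ℕ) : ℝ) * ((m2.factorial : ℕ) : ℝ) ≤ Real.exp (-(c * n)) * (((m1 + m2).factorial : ℕ) : ℝ) := by
  have hl : 0 < Real.log 2 := Real.log_pos (by norm_num)
  refine ⟨δ * Real.log 2, by positivity, ?_⟩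
  intro n m1 m2 h1 h2
  have h3 : (2 : ℝ) ^ (min m1 m2) * (((m1.factorial : ℕ) : ℝ) * ((m2.factorial : ℕ) : ℝ)) ≤ (((m1 + m2).factorial : ℕ) : ℝ) := by
    exact_mod_cast two_pow_min m1 m2
  have h4 : δ * n ≤ ((min m1 m2 : ℕ) : ℝ) := by
    rw [Nat.cast_min]; exact le_min h1 h2
  have h5 : Real.exp (δ * Real.log 2 * n) ≤ (2 : ℝ) ^ (min m1 m2) := by
    rw [← Real.exp_log (show (0 : ℝ) < 2 ^ (min m1 m2) by positivity), Real.log_pow]
    apply Real.exp_le_exp.mpr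
    calc δ * Real.log 2 * n = (δ * n) * Real.log 2 := by ring
      _ ≤ _ := mul_le_mul_of_nonneg_right h4 hl.le
  have h6 : 0 ≤ ((m1.factorial : ℕ) : ℝ) * ((m2.factorial : ℕ) : ℝ) := by positivity
  have h7 := (mul_le_mul_of_nonneg_right h5 h6).trans h3
  calc ((m1.factorial : ℕ) : ℝ) * ((m2.factorial : ℕ) : ℝ)
      = Real.exp (-(δ * Real.log 2 * n)) * (Real.exp (δ * Real.log 2 * n) * (((m1.factorial : ℕ) : ℝ) * ((m2.factorial : ℕ) : ℝ))) := by
        rw [← mul_assoc, ← Real.exp_add, neg_add_cancel, Real.exp_zero, one_mul]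
    _ ≤ _ := mul_le_mul_of_nonneg_left h7 (Real.exp_pos _).le

end UN39
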