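import Mathlib
import Pool.Agent.H39.UN.MacC
import Pool.Agent.H39.UN.MacH
import Pool.Agent.H39.UN.MacI
import Pool.Agent.H39.UN.MacJ

/-!
[H39 UN MACK]  (MP_bcc40c_pr)  Macroscopic splitting, first case: both parts have macroscopic genus.

PROOF.  If one of the two factors is 0 nothing is to be shown; otherwise `1 ≤ u`, `1 ≤ u'` and the parities are right (bc_supp), also that of `(n, w)`.  Put `a1 = i - u`, `a2 = i' - u'`,
`a = n - w = a1 + a2 + 2`.  fac_ent for `δ` gives `c0`.  Put `η = c0/8`, `e` below the two `e0` (mac_low with `o2`; mac_upp with `δ`: `u ≤ i - δ n ≤ (1 - δ) i`, the same for `u'`).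
`log b(i,u) + log b(i',u') ≤ log b(a1+1,1) + log b(a2+1,1) + Gs i a1 + Gs i' a2 + η n`, `Gs i a1 + Gs i' a2 ≤ Gs n (a1+a2) ≤ Gs n a + 2 Lw e` (Gs_super, Gs_shift), uni_up for the two,
`log b(n,w) ≥ log b(a+1,1) + Gs n a - η n`, uni_lo for `a + 1` (odd).  `(a1+1)! (a2+1)! ≤ exp(-c0 n) (a1+a2+2)! ≤ exp(-c0 n) (a+1)!`, the powers of 6:
`a1 + 1 + a2 + 1 ≤ a + 1`.  So the difference is `≤ -c0 n + log (4 (3 (a+1) + 2)) + 2 Lw e + 2 η n ≤ -(c0/2) n` for large `n`.  (`i, i' ≥ d n` so they are large.)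
-/

set_option autoImplicit false

namespace UN39

private theorem mk_log {c0 : ℝ} (hc : 0 < c0) :
    ∃ N : ℕ, ∀ n : ℕ, N ≤ n → Real.log (4 * (3 * ((n : ℝ) + 1) + 2)) ≤ c0 / 8 * n := by
  have h := (Asymptotics.isLittleO_iff.1 Real.isLittleO_log_id_atTop)
    (show 0 < c0 / 256 by positivity)
  obtain ⟨X, hX⟩ := Filter.eventually_atTop.1 h
  obtain ⟨N, hN⟩ := exists_nat_ge X
  refine ⟨N + 1, fun n hn => ?_⟩
  have h1 : (N : ℝ) + 1 ≤ n := by exact_mod_cast hn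
  have hN0 : (0 : ℝ) ≤ N := Nat.cast_nonneg N
  have h2 := hX (4 * (3 * ((n : ℝ) + 1) + 2)) (by linarith)
  rw [id, Real.norm_eq_abs, Real.norm_eq_abs, abs_of_pos (by linarith : (0 : ℝ) < 4 * (3 * ((n : ℝ) + 1) + 2))] at h2
  refine (le_abs_self _).trans (h2.trans ?_)
  have h3 : 4 * (3 * ((n : ℝ) + 1) + 2) ≤ 32 * n := by linarith
  have h4 := mul_le_mul_of_nonneg_left h3 (show 0 ≤ c0 / 256 by positivity)
  linarith

theorem mac_one {o1 o2 d δ : ℝ} (h1 : 0 < o1) (h2 : o2 < 1) (hd : 0 < d) (hδ : 0 < δ) :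
    ∃ c : ℝ, 0 < c ∧ ∃ n0 : ℕ, ∀ n w i u i' u' : ℕ, n0 ≤ n → o1 * n ≤ w → (w : ℝ) ≤ o2 * n →
      i + i' = n → u + u' = w + 2 → d * n ≤ i → d * n ≤ i' → (u : ℝ) + δ * n ≤ i → (u' : ℝ) + δ * n ≤ i' →
      bc i u * bc i' u' ≤ Real.exp (-(c * n)) * bc n w := by
  obtain ⟨c0, hc0, hfac⟩ := fac_ent hδ
  obtain ⟨ea, hea, hea2, hlow⟩ := mac_low (o2 := o2) (η := c0 / 8) h2 (by positivity)
  obtain ⟨eb, heb, heb2, hupp⟩ := mac_upp (δ := δ) (η := c0 / 8) hδ (by positivity)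
  have he : 0 < min ea eb := lt_min hea heb
  have he1 : min ea eb < 1 := (min_le_left _ _).trans_lt (by linarith)
  obtain ⟨n1, hlow1⟩ := hlow (min ea eb) he (min_le_left _ _)
  obtain ⟨i0, hupp1⟩ := hupp (min ea eb) he (min_le_right _ _)
  obtain ⟨n2, hn2⟩ := mk_log hc0
  obtain ⟨n3, hn3⟩ := exists_nat_ge ((i0 : ℝ) / d)
  obtain ⟨n4, hn4⟩ := exists_nat_ge (2 / o1)
  obtain ⟨n5, hn5⟩ := exists_nat_ge (16 * Lw (min ea eb) / c0)
  refine ⟨c0 / 2, by positivity, n1 + n2 + n3 + n4 + n5 + 1, ?_⟩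
  intro n w i u i' u' hn hwo hwo2 hii huu hdi hdi' hui hui'
  by_cases hz : bc i u = 0
  · rw [hz, zero_mul]
    exact mul_nonneg (Real.exp_pos _).le (bc_nonneg n w)
  by_cases hz' : bc i' u' = 0
  · rw [hz', mul_zero]
    exact mul_nonneg (Real.exp_pos _).le (bc_nonneg n w)
  obtain ⟨k1, k2, k3⟩ := bc_supp hz
  obtain ⟨k1', k2', k3'⟩ := bc_supp hz'
  have hp : 0 < bc i u := lt_of_le_of_ne (bc_nonneg i u) (Ne.symm hz)
  have hp' : 0 < bc i' u' := lt_of_le_of_ne (bc_nonneg i' u') (Ne.symm hz')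
  have hn0 : (0 : ℝ) < n := by exact_mod_cast (by omega : 0 < n)
  have hδn : 0 < δ * n := mul_pos hδ hn0
  have hin : (i : ℝ) ≤ n := by exact_mod_cast (by omega : i ≤ n)
  have hin' : (i' : ℝ) ≤ n := by exact_mod_cast (by omega : i' ≤ n)
  have hui2 : u < i := by
    have h3 : (u : ℝ) < i := by linarith
    exact_mod_cast h3
  have hui2' : u' < i' := by
    have h3 : (u' : ℝ) < i' := by linarith
    exact_mod_cast h3
  obtain ⟨a1, rfl⟩ : ∃ a1, i = u + a1 := ⟨i - u, by omega⟩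
  obtain ⟨a2, rfl⟩ : ∃ a2, i' = u' + a2 := ⟨i' - u', by omega⟩
  have ha1 : δ * n ≤ a1 := by
    push_cast at hui
    linarith
  have ha2 : δ * n ≤ a2 := by
    push_cast at hui'
    linarith
  have hw2 : 2 ≤ w := by
    have h3 : (2 : ℝ) ≤ w := by
      rw [div_le_iff₀ h1] at hn4
      have h4 : (n4 : ℝ) ≤ n := by exact_mod_cast (by omega : n4 ≤ n)
      have h5 := mul_le_mul_of_nonneg_right h4 h1.le
      linarith
    exact_mod_cast h3
  have hnw : n - w = a1 + a2 + 2 := by omega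
  have hpar : w % 2 = n % 2 := by omega
  have hi0 : i0 ≤ u + a1 ∧ i0 ≤ u' + a2 := by
    rw [div_le_iff₀ hd] at hn3
    have h4 : (n3 : ℝ) ≤ n := by exact_mod_cast (by omega : n3 ≤ n)
    have h5 := mul_le_mul_of_nonneg_right h4 hd.le
    constructor
    · have h6 : (i0 : ℝ) ≤ ((u + a1 : ℕ) : ℝ) := by linarith
      exact_mod_cast h6
    · have h6 : (i0 : ℝ) ≤ ((u' + a2 : ℕ) : ℝ) := by linarith
      exact_mod_cast h6
  have hd1 : δ * ((u + a1 : ℕ) : ℝ) ≤ δ * n := mul_le_mul_of_nonneg_left hin hδ.le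
  have hd2 : δ * ((u' + a2 : ℕ) : ℝ) ≤ δ * n := mul_le_mul_of_nonneg_left hin' hδ.le
  have hU := hupp1 (u + a1) u hi0.1 k1 (by linarith) k3
  have hU' := hupp1 (u' + a2) u' hi0.2 k1' (by linarith) k3'
  have hW := hlow1 n w (by omega) hw2 hwo2 hpar
  rw [hnw] at hW
  have e1 : u + a1 - u = a1 := by omega
  have e2 : u' + a2 - u' = a2 := by omega
  rw [e1] at hU
  rw [e2] at hU'
  have ha10 : 0 < a1 := by omega
  have ha20 : 0 < a2 := by omega
  have hS := Gs_super (Lt_anti he he1) ha10 ha20 (by omega : a1 ≤ u + a1) (by omega : a2 ≤ u' + a2)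
  rw [hii] at hS
  have hSh := Gs_shift (Lt_anti he he1) (Lt_nonneg he he1) (Lt_le he he1) (n := n)
    (by omega : 0 < a1 + a2) (by omega : a1 + a2 ≤ a1 + a2 + 2)
  have hSh2 : (((a1 + a2 + 2 : ℕ) : ℝ) - ((a1 + a2 : ℕ) : ℝ)) * Lw (min ea eb) =
      2 * Lw (min ea eb) := by
    push_cast
    ring
  rw [hSh2] at hSh
  -- the numbers `b(m, 1)`
  have hb1 : 0 < bc (a1 + 1) 1 := bc_pos (by omega) le_rfl (by omega) (by omega)
  have hb2 : 0 < bc (a2 + 1) 1 := bc_pos (by omega) le_rfl (by omega) (by omega)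
  have hb3 : 0 < bc (a1 + a2 + 2 + 1) 1 := bc_pos (by omega) le_rfl (by omega) (by omega)
  have hbn : 0 < bc n w := bc_pos (by omega) (by omega) (by omega) hpar
  have hF := hfac n (a1 + 1) (a2 + 1) (by push_cast; linarith) (by push_cast; linarith)
  have e3 : a1 + 1 + (a2 + 1) = a1 + a2 + 2 := by omega
  rw [e3] at hF
  have hQ : (0 : ℝ) < 4 * (3 * ((a1 + a2 + 2 + 1 : ℕ) : ℝ) + 2) := by positivity
  have hlo := uni_lo (n := a1 + a2 + 2 + 1) (by omega) (by omega)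
  rw [div_le_iff₀ hQ] at hlo
  have hup : bc (a1 + 1) 1 * bc (a2 + 1) 1 ≤
      Real.exp (-(c0 * n)) * ((4 * (3 * ((a1 + a2 + 2 + 1 : ℕ) : ℝ) + 2)) * bc (a1 + a2 + 2 + 1) 1) := by
    calc bc (a1 + 1) 1 * bc (a2 + 1) 1
        ≤ ((((a1 + 1).factorial : ℕ) : ℝ) * 6 ^ (a1 + 1)) *
          ((((a2 + 1).factorial : ℕ) : ℝ) * 6 ^ (a2 + 1)) :=
          mul_le_mul (uni_up _) (uni_up _) hb2.le (by positivity)
      _ = ((((a1 + 1).factorial : ℕ) : ℝ) * (((a2 + 1).factorial : ℕ) : ℝ)) * 6 ^ (a1 + a2 + 2) := by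
          ring
      _ ≤ (Real.exp (-(c0 * n)) * (((a1 + a2 + 2).factorial : ℕ) : ℝ)) * 6 ^ (a1 + a2 + 2) :=
          mul_le_mul_of_nonneg_right hF (by positivity)
      _ ≤ (Real.exp (-(c0 * n)) * (((a1 + a2 + 2 + 1).factorial : ℕ) : ℝ)) *
            6 ^ (a1 + a2 + 2 + 1) := by
          apply mul_le_mul
          · apply mul_le_mul_of_nonneg_left _ (Real.exp_pos _).le
            exact_mod_cast Nat.factorial_le (by omega)
          · exact pow_le_pow_right₀ (by norm_num) (by omega)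
          · positivity
          · positivity
      _ = Real.exp (-(c0 * n)) * ((((a1 + a2 + 2 + 1).factorial : ℕ) : ℝ) *
            6 ^ (a1 + a2 + 2 + 1)) := by ring
      _ ≤ _ := by
          apply mul_le_mul_of_nonneg_left _ (Real.exp_pos _).le
          rw [mul_comm (4 * (3 * ((a1 + a2 + 2 + 1 : ℕ) : ℝ) + 2))]
          exact hlo
  have hlog := Real.log_le_log (mul_pos hb1 hb2) hup
  rw [Real.log_mul hb1.ne' hb2.ne', Real.log_mul (Real.exp_pos _).ne' (mul_pos hQ hb3).ne',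
    Real.log_exp, Real.log_mul hQ.ne' hb3.ne'] at hlog
  have hlogn : Real.log (4 * (3 * ((a1 + a2 + 2 + 1 : ℕ) : ℝ) + 2)) ≤ c0 / 8 * n := by
    refine le_trans ?_ (hn2 n (by omega))
    apply Real.log_le_log hQ
    have h3 : ((a1 + a2 + 2 + 1 : ℕ) : ℝ) ≤ (n : ℝ) + 1 := by
      exact_mod_cast (by omega : a1 + a2 + 2 + 1 ≤ n + 1)
    linarith
  have hLw : 2 * Lw (min ea eb) ≤ c0 / 8 * n := by
    rw [div_le_iff₀ hc0] at hn5
    have h6 : (n5 : ℝ) ≤ n := by exact_mod_cast (by omega : n5 ≤ n)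
    have h7 := mul_le_mul_of_nonneg_right h6 hc0.le
    linarith
  have hηi : c0 / 8 * ((u + a1 : ℕ) : ℝ) + c0 / 8 * ((u' + a2 : ℕ) : ℝ) = c0 / 8 * n := by
    rw [← mul_add, ← Nat.cast_add, hii]
  have htot : Real.log (bc (u + a1) u) + Real.log (bc (u' + a2) u') ≤
      -(c0 / 2 * n) + Real.log (bc n w) := by
    linarith
  calc bc (u + a1) u * bc (u' + a2) u'
      = Real.exp (Real.log (bc (u + a1) u) + Real.log (bc (u' + a2) u')) := by
        rw [Real.exp_add, Real.exp_log hp, Real.exp_log hp']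
    _ ≤ Real.exp (-(c0 / 2 * n) + Real.log (bc n w)) := Real.exp_le_exp.2 htot
    _ = _ := by rw [Real.exp_add, Real.exp_log hbn]

end UN39
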