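import Mathlib
import Pool.Agent.H39.UN.PlC
import Pool.Agent.H39.UP.Bet

/-!
[H39 UN MACBET]  (MP_bcc40c_pr)  Upper bound for nearly planar numbers (from H39/UP/Bet).

PROOF.  b0_le: f_val at `x = lamc`: the terms of a convergent series of nonnegative terms are bounded by the sum.  mac_bet: BET with `d` such that `log q(d) ≤ η` and `N = (n+2)/d`:
`b(n,v) N^v ≤ q(d)^n b0(n) N^(n+2)`; `K = 3/d` gives `N ≤ K (n + 1)`.
-/

set_option autoImplicit false

namespace UN39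

private theorem macbet_exp (n : ℕ) : (1 / lamc) ^ n = Real.exp (n * (-Real.log lamc)) := by
  have h := lamc_pos.1
  rw [show (n : ℝ) * (-Real.log lamc) = (n : ℕ) * Real.log (1 / lamc) by
    rw [one_div, Real.log_inv], Real.exp_nat_mul, Real.exp_log (by positivity)]

theorem mac_b0_le : ∃ C : ℝ, 0 < C ∧ ∀ n : ℕ, b0 n ≤ C * Real.exp (n * (-Real.log lamc)) := by
  refine ⟨2, by norm_num, fun n => ?_⟩
  rw [← macbet_exp]
  exact b0_le n

theorem mac_bet {η : ℝ} (hη : 0 < η) : ∃ K C : ℝ, 1 ≤ K ∧ 0 < C ∧ ∀ i u : ℕ, u ≤ i + 2 →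
    bc i u ≤ C * Real.exp (i * (-Real.log lamc + η)) * (K * ((i : ℝ) + 1)) ^ (i + 2 - u) := by
  obtain ⟨δ, hδ, hδ1, hq⟩ := qd_lim (η := Real.exp η) (Real.one_lt_exp_iff.2 hη)
  refine ⟨3 / δ, 2, ?_, by norm_num, fun i u hu => ?_⟩
  · rw [le_div_iff₀ hδ]
    linarith
  · have hi : (0 : ℝ) ≤ i := Nat.cast_nonneg i
    have hN : ((i : ℝ) + 2) / δ ≤ 3 / δ * ((i : ℝ) + 1) := by
      rw [div_mul_eq_mul_div]
      apply div_le_div_of_nonneg_right _ hδ.le
      linarith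
    have hN0 : 0 < 3 / δ * ((i : ℝ) + 1) := by positivity
    have h1 := beta1 hδ hδ1 i hN
    have h2 : bc i u * (3 / δ * ((i : ℝ) + 1)) ^ u ≤
        ∑ v ∈ Finset.range (i + 3), bc i v * (3 / δ * ((i : ℝ) + 1)) ^ v :=
      Finset.single_le_sum (f := fun v => bc i v * (3 / δ * ((i : ℝ) + 1)) ^ v)
        (fun v _ => mul_nonneg (bc_nonneg i v) (pow_nonneg hN0.le v)) (Finset.mem_range.2 (by omega))
    have h3 : (3 / δ * ((i : ℝ) + 1)) ^ (i + 2) =
        (3 / δ * ((i : ℝ) + 1)) ^ (i + 2 - u) * (3 / δ * ((i : ℝ) + 1)) ^ u := by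
      rw [← pow_add]
      congr 1
      omega
    have h4 : bc i u * (3 / δ * ((i : ℝ) + 1)) ^ u ≤
        (qd δ ^ i * b0 i * (3 / δ * ((i : ℝ) + 1)) ^ (i + 2 - u)) * (3 / δ * ((i : ℝ) + 1)) ^ u := by
      refine (h2.trans h1).trans (le_of_eq ?_)
      rw [h3]
      ring
    have h5 := le_of_mul_le_mul_right h4 (pow_pos hN0 u)
    refine h5.trans ?_
    have hq0 : 0 ≤ qd δ := zero_le_one.trans (qd_one hδ hδ1)
    have h6 : qd δ ^ i ≤ Real.exp (i * η) := by
      rw [Real.exp_nat_mul]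
      exact pow_le_pow_left₀ hq0 (hq δ hδ le_rfl) i
    have h7 : b0 i ≤ 2 * Real.exp (i * (-Real.log lamc)) := by
      rw [← macbet_exp]
      exact b0_le i
    have h8 : qd δ ^ i * b0 i ≤ 2 * Real.exp (i * (-Real.log lamc + η)) := by
      have h9 : qd δ ^ i * b0 i ≤ Real.exp (i * η) * (2 * Real.exp (i * (-Real.log lamc))) :=
        mul_le_mul h6 h7 (b0_pos i).le (Real.exp_pos _).le
      refine h9.trans (le_of_eq ?_)
      rw [mul_add, Real.exp_add]
      ring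
    exact mul_le_mul_of_nonneg_right h8 (pow_nonneg hN0.le _)

end UN39
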