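import Mathlib
import Pool.Agent.H39.UN.MacC
import Pool.Agent.H39.UN.MacH
import Pool.Agent.H39.UN.MacI
import Pool.Agent.H39.UN.MacBet

/-!
[H39 UN MACL]  (MP_bcc40c_pr)  Macroscopic splitting, second case: the first part is nearly planar.

PROOF.  Trivial if a factor is 0; otherwise bc_supp for both.  `s = i + 2 - u` (`0 ≤ s ≤ δ n + 2`), `a = n - w`, `a2 = i' - u' = a - s`, `κ = (1 - o2)/2`: `a2 ≥ κ n` for large `n` if `δ ≤ (1-o2)/4`, so
`u' ≤ (1 - κ) i'`.  `γ = Lw o2 + log lamc > 0` (Lw_gt; WLOG `0 < o2`, otherwise there is no `w ≥ o1 n`), `η = d γ/12`; `K, C` from mac_bet for `η`; `e` below the `e0`'s of mac_low (`o2, η`) and mac_upp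
(`κ, η`) and `e ≤ o2`; `B = Lw e`.
 (1) `log b(i,u) ≤ log C + i (-log lamc + η) + s log (K (i+1))`.
 (2) `log b(i',u') ≤ log b(a2+1,1) + Gs i' a2 + η i'`, `log b(n,w) ≥ log b(a+1,1) + Gs n a - η n`.
 (3) `log b(a2+1,1) - log b(a+1,1) ≤ - s log (κ n) + log (4 (3n + 5))`: uni_up, uni_lo, `(a+1)! ≥ (a2+1)! (κ n)^s` (s factors `≥ a2 + 2`), and `6^(a2+1) ≤ 6^(a+1)`.
 (4) `Gs i' a2 ≤ Gs i' a + s B` (Gs_shift), `Gs i' a + (n - max i' a) Lw o2 ≤ Gs n a` (Gs_gain; `Lt e (1 - a/n) = Lw (max e (w/n)) ≥ Lw o2`), `n - max i' a ≥ i - s`.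
Sum: `log b(i,u) + log b(i',u') - log b(n,w) ≤ - i γ + 3 η n + s (log (K (i+1)/(κ n)) + B + Lw o2) + log C + log (4 (3n+5))`
`≤ - d γ n + d γ n/4 + (δ n + 2) (log (2 K/κ) + B + Lw o2) + log C + log (4(3n+5)) ≤ - (d γ/4) n` for `δ` small (`δ (log (2K/κ) + B + Lw o2) ≤ d γ/4`) and `n` large.
-/

set_option autoImplicit false

namespace UN39

private theorem ml_log {c0 : ℝ} (hc : 0 < c0) :
    ∃ N : ℕ, ∀ n : ℕ, N ≤ n → Real.log (4 * (3 * ((n : ℝ) + 1) + 2)) ≤ c0 / 8 * n := by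
  have h := (Asymptotics.isLittleO_iff.1 Real.isLittleO_log_id_atTop)
    (show 0 < c0 / 256 by positivity)
  obtain ⟨X, hX⟩ := Filter.eventually_atTop.1 h
  obtain ⟨N, hN⟩ := exists_nat_ge X
  refine ⟨N + 1, fun n hn => ?_⟩
  have h1 : (N : ℝ) + 1 ≤ n := by exact_mod_cast hn
  have hN0 : (0 : ℝ) ≤ N := Nat.cast_nonneg N
  have h2 := hX (4 * (3 * ((n : ℝ) + 1) + 2)) (by linarith)
  rw [id, Real.norm_eq_abs, Real.norm_eq_abs, abs_of_pos (by linarith : (0 : ℝ) < 4 * (3 * ((n : ℝ) + 1) + 2))] at h2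
  refine (le_abs_self _).trans (h2.trans ?_)
  have h3 : 4 * (3 * ((n : ℝ) + 1) + 2) ≤ 32 * n := by linarith
  have h4 := mul_le_mul_of_nonneg_left h3 (show 0 ≤ c0 / 256 by positivity)
  linarith

/-- comparison of `b(a2 + 1, 1)` and `b(a2 + s + 1, 1)` -/
private theorem ml_uni {a2 s : ℕ} {x : ℝ} (h2 : a2 % 2 = 0) (hs : s % 2 = 0) (ha : 0 < a2)
    (hx : 0 < x) (hxa : x ≤ a2) :
    Real.log (bc (a2 + 1) 1) + s * Real.log x ≤
      Real.log (4 * (3 * ((a2 + s + 1 : ℕ) : ℝ) + 2)) + Real.log (bc (a2 + s + 1) 1) := by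
  have hb2 : 0 < bc (a2 + 1) 1 := bc_pos (by omega) le_rfl (by omega) (by omega)
  have hb3 : 0 < bc (a2 + s + 1) 1 := bc_pos (by omega) le_rfl (by omega) (by omega)
  have hQ : (0 : ℝ) < 4 * (3 * ((a2 + s + 1 : ℕ) : ℝ) + 2) := by positivity
  have hlo := uni_lo (n := a2 + s + 1) (by omega) (by omega)
  rw [div_le_iff₀ hQ] at hlo
  have hf : ((((a2 + 1).factorial : ℕ) : ℝ)) * x ^ s ≤ (((a2 + s + 1).factorial : ℕ) : ℝ) := by
    have h3 : (a2 + 1).factorial * (a2 + 1 + 1) ^ s ≤ (a2 + 1 + s).factorial :=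
      Nat.factorial_mul_pow_le_factorial
    have e : a2 + 1 + s = a2 + s + 1 := by omega
    rw [e] at h3
    have h4 : ((((a2 + 1).factorial : ℕ) : ℝ)) * ((a2 + 1 + 1 : ℕ) : ℝ) ^ s ≤
        (((a2 + s + 1).factorial : ℕ) : ℝ) := by exact_mod_cast h3
    refine le_trans ?_ h4
    apply mul_le_mul_of_nonneg_left _ (by positivity)
    apply pow_le_pow_left₀ hx.le
    push_cast
    linarith
  have hup : bc (a2 + 1) 1 * x ^ s ≤ (4 * (3 * ((a2 + s + 1 : ℕ) : ℝ) + 2)) * bc (a2 + s + 1) 1 := by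
    calc bc (a2 + 1) 1 * x ^ s
        ≤ ((((a2 + 1).factorial : ℕ) : ℝ) * 6 ^ (a2 + 1)) * x ^ s :=
          mul_le_mul_of_nonneg_right (uni_up _) (by positivity)
      _ = ((((a2 + 1).factorial : ℕ) : ℝ) * x ^ s) * 6 ^ (a2 + 1) := by ring
      _ ≤ (((a2 + s + 1).factorial : ℕ) : ℝ) * 6 ^ (a2 + s + 1) := by
          apply mul_le_mul hf
          · exact pow_le_pow_right₀ (by norm_num) (by omega)
          · positivity
          · positivity
      _ ≤ _ := by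
          rw [mul_comm (4 * (3 * ((a2 + s + 1 : ℕ) : ℝ) + 2))]
          exact hlo
  have hlog := Real.log_le_log (mul_pos hb2 (pow_pos hx s)) hup
  rwa [Real.log_mul hb2.ne' (pow_pos hx s).ne', Real.log_mul hQ.ne' hb3.ne', Real.log_pow] at hlog

theorem mac_two {o1 o2 d : ℝ} (h1 : 0 < o1) (h2 : o2 < 1) (hd : 0 < d) :
    ∃ δ : ℝ, 0 < δ ∧ ∃ c : ℝ, 0 < c ∧ ∃ n0 : ℕ, ∀ n w i u i' u' : ℕ, n0 ≤ n → o1 * n ≤ w → (w : ℝ) ≤ o2 * n →
      i + i' = n → u + u' = w + 2 → d * n ≤ i → d * n ≤ i' → (i : ℝ) ≤ u + δ * n →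
      bc i u * bc i' u' ≤ Real.exp (-(c * n)) * bc n w := by
  rcases le_or_gt o2 0 with ho2 | ho2
  · refine ⟨1, one_pos, 1, one_pos, 1, ?_⟩
    intro n w i u i' u' hn hwo hwo2
    exfalso
    have hn0 : (0 : ℝ) < n := by exact_mod_cast (by omega : 0 < n)
    have h3 : 0 < o1 * n := mul_pos h1 hn0
    have h4 : o2 * n ≤ 0 := mul_nonpos_of_nonpos_of_nonneg ho2 hn0.le
    linarith
  have hγ : 0 < Lw o2 + Real.log lamc := by
    have h3 := Lw_gt ho2 h2
    linarith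
  set γ : ℝ := Lw o2 + Real.log lamc with hγdef
  have hdγ : 0 < d * γ := mul_pos hd hγ
  have hη : 0 < d * γ / 12 := by positivity
  set κ : ℝ := (1 - o2) / 2 with hκdef
  have hκ : 0 < κ := by
    rw [hκdef]
    linarith
  obtain ⟨K, C, hK, hC, hbet⟩ := mac_bet hη
  obtain ⟨ea, hea, hea2, hlow⟩ := mac_low (o2 := o2) (η := d * γ / 12) h2 hη
  obtain ⟨eb, heb, heb2, hupp⟩ := mac_upp (δ := κ) (η := d * γ / 12) hκ hη
  obtain ⟨e, he, heea, heeb, heo⟩ : ∃ e : ℝ, 0 < e ∧ e ≤ ea ∧ e ≤ eb ∧ e ≤ o2 :=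
    ⟨min (min ea eb) o2, lt_min (lt_min hea heb) ho2, (min_le_left _ _).trans (min_le_left _ _),
      (min_le_left _ _).trans (min_le_right _ _), min_le_right _ _⟩
  have he1 : e < 1 := by linarith
  obtain ⟨n1, hlow1⟩ := hlow e he heea
  obtain ⟨i0, hupp1⟩ := hupp e he heeb
  obtain ⟨n2, hn2⟩ := ml_log hdγ
  have hB : 0 < Lw e := Lw_pos he he1
  have hLo : 0 < Lw o2 := Lw_pos ho2 h2
  set L : ℝ := Real.log (2 * K / κ) with hLdef
  set M : ℝ := |L| + Lw e + Lw o2 with hMdef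
  have hM : 0 < M := by
    rw [hMdef]
    have := abs_nonneg L
    linarith
  obtain ⟨n3, hn3⟩ := exists_nat_ge ((i0 : ℝ) / d)
  obtain ⟨n4, hn4⟩ := exists_nat_ge (2 / o1)
  obtain ⟨n5, hn5⟩ := exists_nat_ge (8 / (1 - o2))
  obtain ⟨n6, hn6⟩ := exists_nat_ge (8 * (2 * M + Real.log C) / (d * γ))
  have ho : 0 < 1 - o2 := by linarith
  have hδ1 : min ((1 - o2) / 4) (d * γ / (4 * (M + 1))) ≤ (1 - o2) / 4 := min_le_left _ _
  have hδ2 : min ((1 - o2) / 4) (d * γ / (4 * (M + 1))) ≤ d * γ / (4 * (M + 1)) := min_le_right _ _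
  have hδ0 : 0 < min ((1 - o2) / 4) (d * γ / (4 * (M + 1))) :=
    lt_min (by linarith) (by positivity)
  set δ : ℝ := min ((1 - o2) / 4) (d * γ / (4 * (M + 1))) with hδdef
  have hδM : δ * M ≤ d * γ / 4 := by
    rw [le_div_iff₀ (by positivity)] at hδ2
    have h3 : δ * (4 * (M + 1)) = 4 * (δ * M) + 4 * δ := by ring
    rw [h3] at hδ2
    linarith
  refine ⟨δ, hδ0, d * γ / 4, by positivity, n1 + n2 + n3 + n4 + n5 + n6 + 1, ?_⟩
  intro n w i u i' u' hn hwo hwo2 hii huu hdi hdi' hiu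
  by_cases hz : bc i u = 0
  · rw [hz, zero_mul]
    exact mul_nonneg (Real.exp_pos _).le (bc_nonneg n w)
  by_cases hz' : bc i' u' = 0
  · rw [hz', mul_zero]
    exact mul_nonneg (Real.exp_pos _).le (bc_nonneg n w)
  obtain ⟨k1, k2, k3⟩ := bc_supp hz
  obtain ⟨k1', k2', k3'⟩ := bc_supp hz'
  have hp : 0 < bc i u := lt_of_le_of_ne (bc_nonneg i u) (Ne.symm hz)
  have hp' : 0 < bc i' u' := lt_of_le_of_ne (bc_nonneg i' u') (Ne.symm hz')
  have hn1 : (1 : ℝ) ≤ n := by exact_mod_cast (by omega : 1 ≤ n)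
  have hn0 : (0 : ℝ) < n := by linarith
  have hin : (i : ℝ) ≤ n := by exact_mod_cast (by omega : i ≤ n)
  have hin' : (i' : ℝ) ≤ n := by exact_mod_cast (by omega : i' ≤ n)
  have hiiR : (i : ℝ) + i' = n := by exact_mod_cast hii
  have huuR : (u : ℝ) + u' = w + 2 := by exact_mod_cast huu
  have h2n : 2 ≤ (1 - o2) / 4 * n := by
    rw [div_le_iff₀ ho] at hn5
    have h4 : (n5 : ℝ) ≤ n := by exact_mod_cast (by omega : n5 ≤ n)
    have h5 := mul_le_mul_of_nonneg_right h4 ho.le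
    linarith
  have hδn : δ * n ≤ (1 - o2) / 4 * n := mul_le_mul_of_nonneg_right hδ1 hn0.le
  have hκn : κ * n ≤ i' - u' := by
    have h3 : κ * n = (1 - o2) * n - (1 - o2) / 4 * n - (1 - o2) / 4 * n := by
      rw [hκdef]
      ring
    rw [h3]
    linarith
  have hκn0 : 0 < κ * n := mul_pos hκ hn0
  have hui2' : u' < i' := by
    have h3 : (u' : ℝ) < i' := by linarith
    exact_mod_cast h3
  obtain ⟨s, hs⟩ : ∃ s, i + 2 = u + s := ⟨i + 2 - u, by omega⟩
  obtain ⟨a2, rfl⟩ : ∃ a2, i' = u' + a2 := ⟨i' - u', by omega⟩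
  have ha2 : κ * n ≤ a2 := by
    push_cast at hκn
    linarith
  have hsR : (i : ℝ) + 2 = u + s := by exact_mod_cast hs
  have hs0 : (0 : ℝ) ≤ s := Nat.cast_nonneg s
  have hsn : (s : ℝ) ≤ δ * n + 2 := by linarith
  have hw2 : 2 ≤ w := by
    have h3 : (2 : ℝ) ≤ w := by
      rw [div_le_iff₀ h1] at hn4
      have h4 : (n4 : ℝ) ≤ n := by exact_mod_cast (by omega : n4 ≤ n)
      have h5 := mul_le_mul_of_nonneg_right h4 h1.le
      linarith
    exact_mod_cast h3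
  have hnw : n - w = a2 + s := by omega
  have hpar : w % 2 = n % 2 := by omega
  have hi0 : i0 ≤ u' + a2 := by
    rw [div_le_iff₀ hd] at hn3
    have h4 : (n3 : ℝ) ≤ n := by exact_mod_cast (by omega : n3 ≤ n)
    have h5 := mul_le_mul_of_nonneg_right h4 hd.le
    have h6 : (i0 : ℝ) ≤ ((u' + a2 : ℕ) : ℝ) := by linarith
    exact_mod_cast h6
  have hbn : 0 < bc n w := bc_pos (by omega) (by omega) (by omega) hpar
  have ha20 : 0 < a2 := by omega
  -- (1)
  have hi1 : (0 : ℝ) < K * ((i : ℝ) + 1) := by positivity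
  have F1 := Real.log_le_log hp (hbet i u k2)
  have es : i + 2 - u = s := by omega
  rw [es, Real.log_mul (by positivity) (by positivity), Real.log_mul hC.ne' (Real.exp_pos _).ne',
    Real.log_exp, Real.log_pow] at F1
  have F1b : Real.log (K * ((i : ℝ) + 1)) ≤ |L| + Real.log (κ * n) := by
    have h3 : K * ((i : ℝ) + 1) ≤ 2 * K / κ * (κ * n) := by
      have h4 : 2 * K / κ * (κ * n) = K * (2 * n) := by
        field_simp
      rw [h4]
      apply mul_le_mul_of_nonneg_left _ (by linarith)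
      linarith
    have h5 := Real.log_le_log hi1 h3
    rw [Real.log_mul (by positivity) hκn0.ne'] at h5
    have h6 := le_abs_self L
    linarith
  have F1c : (s : ℝ) * Real.log (K * ((i : ℝ) + 1)) ≤ s * |L| + s * Real.log (κ * n) := by
    have h3 := mul_le_mul_of_nonneg_left F1b hs0
    rwa [mul_add (s : ℝ)] at h3
  -- (2)
  have hu1 : (u' : ℝ) ≤ (1 - κ) * ((u' + a2 : ℕ) : ℝ) := by
    have h3 : κ * ((u' + a2 : ℕ) : ℝ) ≤ κ * n := mul_le_mul_of_nonneg_left hin' hκ.le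
    push_cast at h3 ⊢
    linarith
  have F2 := hupp1 (u' + a2) u' hi0 k1' hu1 k3'
  have F3 := hlow1 n w (by omega) hw2 hwo2 hpar
  have e2 : u' + a2 - u' = a2 := by omega
  rw [e2] at F2
  rw [hnw] at F3
  -- (3)
  have F4 := ml_uni (a2 := a2) (s := s) (by omega) (by omega) ha20 hκn0 ha2
  have F4b : Real.log (4 * (3 * ((a2 + s + 1 : ℕ) : ℝ) + 2)) ≤ d * γ / 8 * n := by
    refine le_trans ?_ (hn2 n (by omega))
    apply Real.log_le_log (by positivity)
    have h3 : ((a2 + s + 1 : ℕ) : ℝ) ≤ (n : ℝ) + 1 := by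
      exact_mod_cast (by omega : a2 + s + 1 ≤ n + 1)
    linarith
  -- (4)
  have F5 := Gs_shift (Lt_anti he he1) (Lt_nonneg he he1) (Lt_le he he1) (n := u' + a2)
    ha20 (by omega : a2 ≤ a2 + s)
  have F5b : (((a2 + s : ℕ) : ℝ) - (a2 : ℝ)) * Lw e = s * Lw e := by
    push_cast
    ring
  rw [F5b] at F5
  have hcL : Lw o2 ≤ Lt e (1 - ((a2 + s : ℕ) : ℝ) / n) := by
    have h3 : (1 : ℝ) - ((a2 + s : ℕ) : ℝ) / n ≤ o2 := by
      have h4 : (((a2 + s : ℕ) : ℝ)) = n - w := by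
        have h5 : w + (a2 + s) = n := by omega
        have h6 : (w : ℝ) + ((a2 + s : ℕ) : ℝ) = n := by exact_mod_cast h5
        linarith
      rw [h4, sub_div, div_self hn0.ne']
      have h7 : (w : ℝ) / n ≤ o2 := by
        rw [div_le_iff₀ hn0]
        exact hwo2
      linarith
    unfold Lt
    apply Lw_anti
    · exact ⟨lt_max_of_lt_left he, (max_le heo h3).trans_lt h2⟩
    · exact ⟨ho2, h2⟩
    · exact max_le heo h3
  have F6 := Gs_gain (Lt_anti he he1) (Lt_nonneg he he1) (n := n) (i := u' + a2) (a := a2 + s)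
    (by omega) (by omega) (by omega) hcL hLo.le
  have F6b : ((i : ℝ) - s) * Lw o2 ≤
      ((n : ℝ) - ((max (u' + a2) (a2 + s) : ℕ) : ℝ)) * Lw o2 := by
    apply mul_le_mul_of_nonneg_right _ hLo.le
    have h3 : max (u' + a2) (a2 + s) + i ≤ n + s := by
      rcases le_total (u' + a2) (a2 + s) with h4 | h4
      · rw [max_eq_right h4]
        omega
      · rw [max_eq_left h4]
        omega
    have h5 : (((max (u' + a2) (a2 + s) : ℕ) : ℝ)) + i ≤ n + s := by exact_mod_cast h3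
    linarith
  have F6c : Gs (Lt e) (u' + a2) (a2 + s) + ((i : ℝ) - s) * Lw o2 ≤ Gs (Lt e) n (a2 + s) := by
    refine le_trans ?_ F6
    linarith
  -- constants
  have G1 : (s : ℝ) * M ≤ d * γ / 4 * n + 2 * M := by
    have h3 := mul_le_mul_of_nonneg_right hsn hM.le
    have h4 := mul_le_mul_of_nonneg_right hδM hn0.le
    have h5 : (δ * n + 2) * M = δ * M * n + 2 * M := by ring
    linarith
  have G2 : (s : ℝ) * M = s * |L| + s * Lw e + s * Lw o2 := by
    rw [hMdef]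
    ring
  have G3 : 2 * M + Real.log C ≤ d * γ / 8 * n := by
    rw [div_le_iff₀ hdγ] at hn6
    have h4 : (n6 : ℝ) ≤ n := by exact_mod_cast (by omega : n6 ≤ n)
    have h5 := mul_le_mul_of_nonneg_right h4 hdγ.le
    linarith
  have G4 : d * γ * n ≤ i * γ := by
    have h3 := mul_le_mul_of_nonneg_right hdi hγ.le
    linarith
  have G5 : (i : ℝ) * γ = i * Lw o2 + i * Real.log lamc := by
    rw [hγdef]
    ring
  have G6 : ((i : ℝ) - s) * Lw o2 = i * Lw o2 - s * Lw o2 := by ring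
  have G7 : (i : ℝ) * (-Real.log lamc + d * γ / 12) = -(i * Real.log lamc) + d * γ / 12 * i := by
    ring
  have G8 : d * γ / 12 * (i : ℝ) + d * γ / 12 * ((u' + a2 : ℕ) : ℝ) = d * γ / 12 * n := by
    rw [← mul_add, hiiR]
  have G9 : 0 < d * γ * n := mul_pos hdγ hn0
  rw [G7] at F1
  rw [G6] at F6c
  have htot : Real.log (bc i u) + Real.log (bc (u' + a2) u') ≤
      -(d * γ / 4 * n) + Real.log (bc n w) := by
    linarith
  calc bc i u * bc (u' + a2) u'
      = Real.exp (Real.log (bc i u) + Real.log (bc (u' + a2) u')) := by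
        rw [Real.exp_add, Real.exp_log hp, Real.exp_log hp']
    _ ≤ Real.exp (-(d * γ / 4 * n) + Real.log (bc n w)) := Real.exp_le_exp.2 htot
    _ = _ := by rw [Real.exp_add, Real.exp_log hbn]

end UN39
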