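import Mathlib
import Pool.Agent.H39.UN.MacK
import Pool.Agent.H39.UN.MacL

/-!
[H39 UN MACN]  (MP_bcc40c_pr)  Macroscopic splittings are exponentially rare.

PROOF.  `δ` from mac_two, then mac_one with this `δ`: either `i ≤ u + δ n` (mac_two), or `i' ≤ u' + δ n` (mac_two with the roles exchanged), or mac_one.  `c = min`.
-/

set_option autoImplicit false

namespace UN39

theorem macro_split {o1 o2 d : ℝ} (h1 : 0 < o1) (h2 : o2 < 1) (hd : 0 < d) :
    ∃ c : ℝ, 0 < c ∧ ∃ n0 : ℕ, ∀ n w i u i' u' : ℕ, n0 ≤ n → o1 * n ≤ w → (w : ℝ) ≤ o2 * n →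
      i + i' = n → u + u' = w + 2 → d * n ≤ i → d * n ≤ i' →
      bc i u * bc i' u' ≤ Real.exp (-(c * n)) * bc n w := by
  obtain ⟨δ, hδ, c2, hc2, n2, H2⟩ := mac_two h1 h2 hd
  obtain ⟨c1, hc1, n1, H1⟩ := mac_one h1 h2 hd hδ
  refine ⟨min c1 c2, lt_min hc1 hc2, max n1 n2, ?_⟩
  intro n w i u i' u' hn hw1 hw2 hi hu hdi hdi'
  have hb : 0 ≤ bc n w := bc_nonneg n w
  have hn0 : (0 : ℝ) ≤ n := Nat.cast_nonneg n
  have e1 : Real.exp (-(c1 * n)) * bc n w ≤ Real.exp (-(min c1 c2 * n)) * bc n w := by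
    apply mul_le_mul_of_nonneg_right _ hb
    apply Real.exp_le_exp.mpr
    have := mul_le_mul_of_nonneg_right (min_le_left c1 c2) hn0
    linarith
  have e2 : Real.exp (-(c2 * n)) * bc n w ≤ Real.exp (-(min c1 c2 * n)) * bc n w := by
    apply mul_le_mul_of_nonneg_right _ hb
    apply Real.exp_le_exp.mpr
    have := mul_le_mul_of_nonneg_right (min_le_right c1 c2) hn0
    linarith
  by_cases ha : (i : ℝ) ≤ u + δ * n
  · exact (H2 n w i u i' u' (le_trans (le_max_right _ _) hn) hw1 hw2 hi hu hdi hdi' ha).trans e2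
  · by_cases hb' : (i' : ℝ) ≤ u' + δ * n
    · rw [mul_comm (bc i u)]
      exact (H2 n w i' u' i u (le_trans (le_max_right _ _) hn) hw1 hw2 (by omega) (by omega) hdi' hdi hb').trans e2
    · exact (H1 n w i u i' u' (le_trans (le_max_left _ _) hn) hw1 hw2 hi hu hdi hdi' (by linarith) (by linarith)).trans e1

end UN39
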