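import Mathlib
import Pool.Agent.H39.HG.Defs
import Pool.Agent.H39.HG.Model
import Pool.Agent.H39.HG.Final
import Pool.Agent.H39.UN.PlG
import Pool.Agent.H39.UN.Law
import Pool.Agent.H39.UN.Rho

/-!
[H39 UN FINA]  (MP_bcc40c_pr)  Lower halves of both convergences of Q1 (notation of the frozen statement S19605).

PROOF.  The number of vertices of the elements of `S n` is `v n = n + 2 - 2 g n` (if `2 g n ≤ n + 2`, which holds for large `n` because `θ < 1/2`), so
`v n / n → 1 - 2θ = 6 dl h` (the hypothesis on `h` is `(1 - 2θ)/6 = dl h`).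
Let `0 < h' < h` with `D(h') ≥ (1 - ε/2)... `: precisely: `DD t = 1/(-log ((1 - 2t - √(1-4t))/(2t)))` is continuous at `h` and positive; choose `h' < h` so close
to `h` that `(1 - ε) DD h ≤ (1 - ε/2) DD h'`.  Apply HG39.final with `h'`, the same `S`, `G`, and `ε/2`: the sums over the `p` with at least `6 n lam h'`
fixed points of `σ = p.1` tend to 0 (`h'/(1 + 8h')^(3/2) = lam h'`), for the smaller radius `(1 - ε) DD h log n` as well (monotone, `log n ≥ 0`).
The remaining `p ∈ S n`: fewer than `6 n lam h'` fixed points of `p.1`; the number of fixed points is `lfc f α`, `f = p.1 * p.2`, `α = p.2`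
(leaf_fix of MODEL), and `lam h' < lam h` (lam_mono); by leafw with `δ = (lam h - lam h')/2` their number is at most `ε'` times `∑_f (TS f (v n)).ncard`
`= (S n).card` (sum_model, card_model of FINAL; model_iff) for all large `n`, so the proportion tends to 0.  Each of these `p` contributes at most 1 to
the first sum (the number of pairs is at most the square of the number of vertices) and 1 to the second count.
-/

set_option autoImplicit false

namespace UN39

open Filter Topology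

open Classical in
private theorem finA_bad {D : Type} [Fintype D] [DecidableEq D] {v : ℕ}
    (Sn : Finset (Equiv.Perm D × Equiv.Perm D))
    (hS : ∀ p, p ∈ Sn ↔ HG39.TF (p.1 * p.2) ∧ p.2 ∈ HG39.TS (p.1 * p.2) v ∧ p.2 * p.2 = 1)
    (L η : ℝ)
    (hB : ∀ f : Equiv.Perm D, HG39.TF f →
      ((Finset.univ.filter (fun α : Equiv.Perm D => α ∈ HG39.TS f v ∧
        (HG39.lfc f α : ℝ) < L)).card : ℝ) ≤ η * (HG39.TS f v).ncard) :
    ((Sn.filter (fun p => ¬ (L ≤ (Nat.card {x // p.1 x = x} : ℝ)))).card : ℝ) ≤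
      η * Sn.card := by
  let W : Equiv.Perm D → Equiv.Perm D → ℝ := fun f α =>
    if (HG39.lfc f α : ℝ) < L then 1 else 0
  have h1 : ((Sn.filter (fun p => ¬ (L ≤ (Nat.card {x // p.1 x = x} : ℝ)))).card : ℝ) =
      ∑ p ∈ Sn, W (p.1 * p.2) p.2 := by
    rw [Finset.card_filter, Nat.cast_sum]
    refine Finset.sum_congr rfl fun p hp => ?_
    obtain ⟨a1, a2, a3⟩ := (hS p).1 hp
    have hmul : p.1 * p.2 * p.2 = p.1 := by rw [mul_assoc, a3, mul_one]
    have hlf : Nat.card {x // p.1 x = x} = HG39.lfc (p.1 * p.2) p.2 := by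
      rw [← HG39.leaf_fix a1 a2.1.inv, hmul]
    rw [hlf]
    show _ = (if (HG39.lfc (p.1 * p.2) p.2 : ℝ) < L then (1 : ℝ) else 0)
    by_cases hc : (HG39.lfc (p.1 * p.2) p.2 : ℝ) < L
    · rw [if_pos hc, if_pos (not_le.2 hc), Nat.cast_one]
    · rw [if_neg hc, if_neg (fun h => hc (not_le.1 h)), Nat.cast_zero]
  rw [h1, HG39.sum_model Sn hS W, HG39.card_model Sn hS, Finset.mul_sum]
  refine Finset.sum_le_sum fun f hf => ?_
  have htf : HG39.TF f := (Finset.mem_filter.1 hf).2
  refine le_trans (le_of_eq ?_) (hB f htf)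
  rw [Finset.card_filter, Nat.cast_sum, Finset.sum_filter]
  refine Finset.sum_congr rfl fun α _ => ?_
  show (if α ∈ HG39.TS f v then (if (HG39.lfc f α : ℝ) < L then (1 : ℝ) else 0) else 0) = _
  by_cases h2 : α ∈ HG39.TS f v
  · by_cases h3 : (HG39.lfc f α : ℝ) < L
    · rw [if_pos h2, if_pos h3, if_pos ⟨h2, h3⟩, Nat.cast_one]
    · rw [if_pos h2, if_neg h3, if_neg (fun h => h3 h.2), Nat.cast_zero]
  · rw [if_neg h2, if_neg (fun h => h2 h.1), Nat.cast_zero]

private theorem finA_DD {h : ℝ} (h0 : 0 < h) (h1 : h < 1 / 4) : ContinuousAt HG39.DD h := by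
  obtain ⟨m0, m1, _⟩ := HG39.mh_prop h h0 h1
  have hc : ContinuousAt HG39.mh h := by
    unfold HG39.mh
    apply ContinuousAt.div
    · fun_prop
    · fun_prop
    · positivity
  unfold HG39.DD
  apply ContinuousAt.div continuousAt_const
  · exact (hc.log m0.ne').neg
  · have := Real.log_neg m0 m1
    linarith

private theorem finA_v {θ : ℝ} (h1 : θ < 1 / 2) {g : ℕ → ℕ}
    (hg : Tendsto (fun n : ℕ => (g n : ℝ) / (n : ℝ)) atTop (𝓝 θ)) :
    Tendsto (fun n : ℕ => ((n + 2 - 2 * g n : ℕ) : ℝ) / (n : ℝ)) atTop (𝓝 (1 - 2 * θ)) := by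
  have h2 : Tendsto (fun n : ℕ => 1 + 2 / (n : ℝ) - 2 * ((g n : ℝ) / (n : ℝ))) atTop
      (𝓝 (1 + 0 - 2 * θ)) := by
    have h3 : Tendsto (fun n : ℕ => 2 / (n : ℝ)) atTop (𝓝 0) :=
      tendsto_const_div_atTop_nhds_zero_nat 2
    exact (tendsto_const_nhds.add h3).sub (hg.const_mul 2)
  rw [add_zero] at h2
  refine h2.congr' ?_
  have h4 : ∀ᶠ n : ℕ in atTop, (g n : ℝ) / (n : ℝ) < 1 / 2 := hg.eventually (gt_mem_nhds h1)
  filter_upwards [h4, eventually_ge_atTop 1] with n hn hn1
  have hnp : (0 : ℝ) < n := by exact_mod_cast hn1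
  have h5 : (2 * g n : ℝ) < n := by
    rw [div_lt_iff₀ hnp] at hn
    linarith
  have h6 : 2 * g n ≤ n + 2 := by
    have : 2 * g n < n := by exact_mod_cast h5
    omega
  rw [Nat.cast_sub h6]
  push_cast
  field_simp

theorem finA :
  ∀ θ : ℝ, 0 < θ → θ < 1/2 →
  ∀ g : ℕ → ℕ, Filter.Tendsto (fun n : ℕ => (g n : ℝ) / (n : ℝ)) Filter.atTop (nhds θ) →
  ∀ h : ℝ, 0 < h → h < 1/4 →
    (1 - 2*θ) / 6 = h / ((1 + 8*h) * Real.sqrt (1 - 4*h)) *
      Real.log ((1 + Real.sqrt (1 - 4*h)) / (1 - Real.sqrt (1 - 4*h))) →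
  ∀ S : (n : ℕ) → Finset (Equiv.Perm (Fin (6*n)) × Equiv.Perm (Fin (6*n))),
    (∀ (n : ℕ) (p : Equiv.Perm (Fin (6*n)) × Equiv.Perm (Fin (6*n))),
      p ∈ S n ↔
        ((∀ x : Fin (6*n), p.2 x ≠ x ∧ p.2 (p.2 x) = x) ∧
         (∀ x : Fin (6*n), (p.1 * p.2) x ≠ x ∧ ((p.1 * p.2)^3) x = x) ∧
         (∀ x y : Fin (6*n), ∃ w ∈ Subgroup.closure ({p.1, p.2} : Set (Equiv.Perm (Fin (6*n)))), w x = y) ∧
         Nat.card (Quotient (Equiv.Perm.SameCycle.setoid p.1)) + 2 * g n = n + 2)) →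
  ∀ G : (n : ℕ) → (p : Equiv.Perm (Fin (6*n)) × Equiv.Perm (Fin (6*n))) →
      SimpleGraph (Quotient (Equiv.Perm.SameCycle.setoid p.1)),
    (∀ (n : ℕ) (p : Equiv.Perm (Fin (6*n)) × Equiv.Perm (Fin (6*n)))
       (a b : Quotient (Equiv.Perm.SameCycle.setoid p.1)),
      (G n p).Adj a b ↔
        (a ≠ b ∧ ∃ x : Fin (6*n),
          ((Quotient.mk (Equiv.Perm.SameCycle.setoid p.1) x = a ∧
            Quotient.mk (Equiv.Perm.SameCycle.setoid p.1) (p.2 x) = b) ∨
           (Quotient.mk (Equiv.Perm.SameCycle.setoid p.1) x = b ∧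
            Quotient.mk (Equiv.Perm.SameCycle.setoid p.1) (p.2 x) = a)))) →
  ∀ ε : ℝ, 0 < ε →
    Filter.Tendsto
      (fun n : ℕ =>
        (∑ p ∈ S n,
          (Nat.card {q : Quotient (Equiv.Perm.SameCycle.setoid p.1) ×
              Quotient (Equiv.Perm.SameCycle.setoid p.1) //
              ((G n p).dist q.1 q.2 : ℝ) ≤
                (1 - ε) * (1 / (-Real.log ((1 - 2*h - Real.sqrt (1 - 4*h)) / (2*h)))) *
                  Real.log (n : ℝ)} : ℝ)
            / ((Nat.card (Quotient (Equiv.Perm.SameCycle.setoid p.1)) : ℝ) ^ 2))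
          / ((S n).card : ℝ))
      Filter.atTop (nhds 0)
    ∧
    Filter.Tendsto
      (fun n : ℕ =>
        (Nat.card {p : Equiv.Perm (Fin (6*n)) × Equiv.Perm (Fin (6*n)) //
            p ∈ S n ∧ ((G n p).diam : ℝ) ≤
              3 * (1 - ε) * (1 / (-Real.log ((1 - 2*h - Real.sqrt (1 - 4*h)) / (2*h)))) *
                Real.log (n : ℝ)} : ℝ)
          / ((S n).card : ℝ))
      Filter.atTop (nhds 0) := by
  classical
  intro θ hθ0 hθ1 g hg h h0 h1 hdl S hS G hG ε hε
  have hdl' : 1 - 2 * θ = 6 * dl h := by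
    have : (1 - 2 * θ) / 6 = dl h := hdl
    linarith
  have hD : 0 < HG39.DD h := by
    obtain ⟨m0, m1, _⟩ := HG39.mh_prop h h0 h1
    unfold HG39.DD
    apply one_div_pos.2
    have := Real.log_neg m0 m1
    linarith
  -- choice of h'
  obtain ⟨h', h0', hh', hDD⟩ : ∃ h' : ℝ, 0 < h' ∧ h' < h ∧
      (1 - ε) * HG39.DD h < (1 - ε / 2) * HG39.DD h' := by
    have h2 : Tendsto (fun t => (1 - ε / 2) * HG39.DD t) (𝓝[<] h)
        (𝓝 ((1 - ε / 2) * HG39.DD h)) :=
      ((finA_DD h0 h1).tendsto.const_mul _).mono_left nhdsWithin_le_nhds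
    have h3 : (1 - ε) * HG39.DD h < (1 - ε / 2) * HG39.DD h :=
      mul_lt_mul_of_pos_right (by linarith) hD
    have h4 : ∀ᶠ t in 𝓝[<] h, (1 - ε) * HG39.DD h < (1 - ε / 2) * HG39.DD t :=
      h2.eventually (lt_mem_nhds h3)
    have h5 : ∀ᶠ t in 𝓝[<] h, t ∈ Set.Ioo 0 h := Ioo_mem_nhdsLT h0
    obtain ⟨t, ht1, ht2⟩ := (h4.and h5).exists
    exact ⟨t, ht2.1, ht2.2, ht1⟩
  have h1' : h' < 1 / 4 := hh'.trans h1
  have hlam : lam h' < lam h :=
    lam_mono ⟨h0'.le, h1'.le⟩ ⟨h0.le, h1.le⟩ hh'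
  have hlam' : HG39.lam h' = lam h' := rfl
  obtain ⟨F1, F2⟩ := HG39.final h' h0' h1' g S hS G hG (ε / 2) (half_pos hε)
  -- the model
  have hS' : ∀ n : ℕ, 1 ≤ n → ∀ p, p ∈ S n ↔ HG39.TF (p.1 * p.2) ∧
      p.2 ∈ HG39.TS (p.1 * p.2) (n + 2 - 2 * g n) ∧ p.2 * p.2 = 1 := by
    intro n hn p
    rw [← HG39.model_iff, hS, HG39.Mod]
    have hne : Nonempty (Fin (6 * n)) := ⟨⟨0, by omega⟩⟩
    have hq : Nonempty (Quotient (Equiv.Perm.SameCycle.setoid p.1)) :=
      ⟨Quotient.mk _ hne.some⟩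
    have hc : 0 < Nat.card (Quotient (Equiv.Perm.SameCycle.setoid p.1)) := Nat.card_pos
    constructor
    · rintro ⟨a1, a2, a3, a4⟩
      exact ⟨a1, a2, a3, by omega⟩
    · rintro ⟨a1, a2, a3, a4⟩
      exact ⟨a1, a2, a3, by omega⟩
  -- the bad elements
  let bad : ℕ → ℝ := fun n => (((S n).filter (fun p =>
    ¬ (6 * (n : ℝ) * HG39.lam h' ≤ (Nat.card {x // p.1 x = x} : ℝ)))).card : ℝ)
  have hbad0 : ∀ n, 0 ≤ bad n := fun n => Nat.cast_nonneg _
  have hbad : Tendsto (fun n => bad n / ((S n).card : ℝ)) atTop (𝓝 0) := by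
    rw [Metric.tendsto_atTop]
    intro η hη
    have hv : Tendsto (fun n : ℕ => ((n + 2 - 2 * g n : ℕ) : ℝ) / (n : ℝ)) atTop
        (𝓝 (6 * dl h)) := by
      rw [← hdl']
      exact finA_v hθ1 hg
    obtain ⟨n0, hn0⟩ := leafw (v := fun n => n + 2 - 2 * g n) h0 h1 hv (half_pos hη)
      (δ := (lam h - lam h') / 2) (by linarith)
    refine ⟨max n0 1, fun n hn => ?_⟩
    have hn1 : 1 ≤ n := (le_max_right _ _).trans hn
    have hnp : (0 : ℝ) < n := by exact_mod_cast hn1
    have key := finA_bad (S n) (hS' n hn1) (6 * (n : ℝ) * HG39.lam h') (η / 2) (fun f hf => by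
      refine le_trans ?_ (hn0 n ((le_max_left _ _).trans hn) f hf)
      rw [Nat.cast_le]
      apply Finset.card_le_card
      intro α hα
      rw [Finset.mem_filter] at hα ⊢
      refine ⟨hα.1, hα.2.1, ?_⟩
      have h6 : (HG39.lfc f α : ℝ) / (6 * n) < lam h' := by
        rw [div_lt_iff₀ (by positivity)]
        have := hα.2.2
        rw [hlam'] at this
        linarith
      rw [lt_abs]
      right
      linarith)
    rw [Real.dist_eq, sub_zero, abs_of_nonneg (div_nonneg (hbad0 n) (Nat.cast_nonneg _))]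
    rcases Nat.eq_zero_or_pos (S n).card with hc | hc
    · rw [hc, Nat.cast_zero, div_zero]
      exact hη
    · have hc' : (0 : ℝ) < (S n).card := by exact_mod_cast hc
      rw [div_lt_iff₀ hc']
      refine lt_of_le_of_lt (le_trans (le_of_eq ?_) key) (by nlinarith)
      rfl
  have hlog : ∀ n : ℕ, 1 ≤ n → 0 ≤ Real.log n := by
    intro n hn
    apply Real.log_nonneg
    exact_mod_cast hn
  constructor
  · have hsum := F1.add hbad
    rw [add_zero] at hsum
    refine squeeze_zero' (Filter.Eventually.of_forall fun n => ?_)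
      (Filter.eventually_atTop.2 ⟨1, fun n hn => ?_⟩) hsum
    · apply div_nonneg _ (Nat.cast_nonneg _)
      apply Finset.sum_nonneg
      intro p _
      positivity
    · rw [← add_div]
      apply div_le_div_of_nonneg_right _ (Nat.cast_nonneg _)
      rw [← Finset.sum_filter_add_sum_filter_not (S n) (fun p =>
        6 * (n : ℝ) * HG39.lam h' ≤ (Nat.card {x // p.1 x = x} : ℝ))]
      apply add_le_add
      · refine le_trans ?_ (le_of_eq (Finset.sum_congr (by congr) fun p _ => rfl))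
        apply Finset.sum_le_sum
        intro p hp
        apply div_le_div_of_nonneg_right _ (by positivity)
        rw [Nat.cast_le]
        have hX : (1 - ε) * (1 / (-Real.log ((1 - 2*h - Real.sqrt (1 - 4*h)) / (2*h)))) *
            Real.log (n : ℝ) ≤ (1 - ε / 2) * HG39.DD h' * Real.log (n : ℝ) :=
          mul_le_mul_of_nonneg_right hDD.le (hlog n hn)
        refine Nat.card_le_card_of_injective
          (fun q => ⟨q.1, le_trans q.2 hX⟩) ?_
        intro a b hab
        exact Subtype.ext (congrArg (fun z => z.1) hab)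
      · show _ ≤ bad n
        have h7 : bad n = ∑ p ∈ (S n).filter (fun p =>
            ¬ (6 * (n : ℝ) * HG39.lam h' ≤ (Nat.card {x // p.1 x = x} : ℝ))), (1 : ℝ) := by
          rw [Finset.sum_const, nsmul_eq_mul, mul_one]
        rw [h7]
        apply Finset.sum_le_sum
        intro p hp
        have h8 : (Nat.card {q : Quotient (Equiv.Perm.SameCycle.setoid p.1) ×
              Quotient (Equiv.Perm.SameCycle.setoid p.1) //
              ((G n p).dist q.1 q.2 : ℝ) ≤
                (1 - ε) * (1 / (-Real.log ((1 - 2*h - Real.sqrt (1 - 4*h)) / (2*h)))) *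
                  Real.log (n : ℝ)} : ℝ) ≤
            (Nat.card (Quotient (Equiv.Perm.SameCycle.setoid p.1)) : ℝ) ^ 2 := by
          have h9 : Nat.card {q : Quotient (Equiv.Perm.SameCycle.setoid p.1) ×
              Quotient (Equiv.Perm.SameCycle.setoid p.1) //
              ((G n p).dist q.1 q.2 : ℝ) ≤
                (1 - ε) * (1 / (-Real.log ((1 - 2*h - Real.sqrt (1 - 4*h)) / (2*h)))) *
                  Real.log (n : ℝ)} ≤
              Nat.card (Quotient (Equiv.Perm.SameCycle.setoid p.1) ×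
                Quotient (Equiv.Perm.SameCycle.setoid p.1)) :=
            Nat.card_le_card_of_injective _ Subtype.val_injective
          rw [Nat.card_prod, ← sq] at h9
          exact_mod_cast h9
        exact div_le_one_of_le₀ h8 (by positivity)
  · have hsum := F2.add hbad
    rw [add_zero] at hsum
    refine squeeze_zero' (Filter.Eventually.of_forall fun n => ?_)
      (Filter.eventually_atTop.2 ⟨1, fun n hn => ?_⟩) hsum
    · exact div_nonneg (Nat.cast_nonneg _) (Nat.cast_nonneg _)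
    · rw [← add_div]
      apply div_le_div_of_nonneg_right _ (Nat.cast_nonneg _)
      have hX : 3 * (1 - ε) * (1 / (-Real.log ((1 - 2*h - Real.sqrt (1 - 4*h)) / (2*h)))) *
          Real.log (n : ℝ) ≤ 3 * (1 - ε / 2) * HG39.DD h' * Real.log (n : ℝ) := by
        apply mul_le_mul_of_nonneg_right _ (hlog n hn)
        have : (1 - ε) * (1 / (-Real.log ((1 - 2*h - Real.sqrt (1 - 4*h)) / (2*h)))) <
          (1 - ε / 2) * HG39.DD h' := hDD
        linarith
      have e1 : ∀ (P : Equiv.Perm (Fin (6*n)) × Equiv.Perm (Fin (6*n)) → Prop),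
          Nat.card {p // p ∈ S n ∧ P p} = ((S n).filter P).card := by
        intro P
        rw [Nat.card_eq_fintype_card, Fintype.card_subtype]
        congr 1
        ext p
        simp only [Finset.mem_filter, Finset.mem_univ, true_and]
      rw [e1, e1]
      show _ ≤ _ + (((S n).filter (fun p =>
        ¬ (6 * (n : ℝ) * HG39.lam h' ≤ (Nat.card {x // p.1 x = x} : ℝ)))).card : ℝ)
      rw [← Nat.cast_add, Nat.cast_le]
      refine le_trans (Finset.card_le_card ?_) (Finset.card_union_le _ _)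
      intro p hp
      rw [Finset.mem_filter] at hp
      simp only [Finset.mem_union, Finset.mem_filter]
      by_cases hc : 6 * (n : ℝ) * HG39.lam h' ≤ (Nat.card {x // p.1 x = x} : ℝ)
      · refine Or.inl ⟨hp.1, ?_⟩
        exact ⟨hc, hp.2.trans hX⟩
      · right
        exact ⟨hp.1, hc⟩

end UN39
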